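import Pool.Agent.HV.Stmts

/-!
# Module HV_AC (§3.3) for MP_678b51_gt   (helper27)

`𝒜𝒞g(t) = (π/2)∫_t^1 g` and `∫₀¹ t·𝒞g(t) dt = (π/4)∫₀¹ s² g(s) ds` for bounded measurable `g`.
-/

set_option autoImplicit false

open MeasureTheory Set Filter
open scoped Real Topology ENNReal

namespace Pool.Agent.HV

namespace ACm

/-- Fubini on a triangle. -/
theorem fubini_tri (K : ℝ → ℝ → ℝ) (c : ℝ → ℝ) (C : ℝ) (g : ℝ → ℝ) (M : ℝ) (t u : ℝ)
    (htu : t ≤ u)
    (hK : Measurable (fun z : ℝ × ℝ => K z.1 z.2))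
    (hK0 : ∀ p s, t < p → p < s → s < u → 0 ≤ K p s)
    (hKi : ∀ s, t < s → s < u → IntegrableOn (fun p => K p s) (Ioo t s))
    (hKc : ∀ s, t < s → s < u → ∫ p in Ioo t s, K p s = c s)
    (hc : ∀ s, t < s → s < u → c s ≤ C) (hcm : Measurable c)
    (hg : Measurable g) (hM : ∀ s, |g s| ≤ M) :
    ∫ p in t..u, ∫ s in p..u, g s * K p s = ∫ s in t..u, g s * c s := by
  have hM0 : 0 ≤ M := le_trans (abs_nonneg _) (hM 0)
  set μ : Measure ℝ := volume.restrict (Ioo t u) with hμ
  set f : ℝ → ℝ → ℝ := fun p s => if p < s then g s * K p s else 0 with hf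
  have hfm : Measurable (fun z : ℝ × ℝ => f z.1 z.2) := by
    apply Measurable.ite
    · exact measurableSet_lt measurable_fst measurable_snd
    · exact (hg.comp measurable_snd).mul hK
    · exact measurable_const
  -- sections in `p`
  have hsec : ∀ s, (fun p => f p s) = (Iio s).indicator (fun p => g s * K p s) := by
    intro s
    funext p
    simp [hf, indicator]
  have hsecset : ∀ s, s ∈ Ioo t u → Ioo t u ∩ Iio s = Ioo t s := by
    intro s hs
    ext p
    simp only [mem_inter_iff, mem_Ioo, mem_Iio]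
    constructor
    · rintro ⟨⟨h1, _⟩, h3⟩
      exact ⟨h1, h3⟩
    · rintro ⟨h1, h2⟩
      exact ⟨⟨h1, h2.trans hs.2⟩, h2⟩
  have hint_sec : ∀ s, s ∈ Ioo t u → Integrable (fun p => f p s) μ := by
    intro s hs
    rw [hsec s, hμ, integrable_indicator_iff measurableSet_Iio, IntegrableOn,
      Measure.restrict_restrict measurableSet_Iio, inter_comm, hsecset s hs]
    exact (hKi s hs.1 hs.2).const_mul (g s)
  have hval_sec : ∀ s, s ∈ Ioo t u → ∫ p, f p s ∂μ = g s * c s := by
    intro s hs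
    rw [hsec s, integral_indicator measurableSet_Iio, hμ,
      Measure.restrict_restrict measurableSet_Iio, inter_comm, hsecset s hs,
      integral_const_mul, hKc s hs.1 hs.2]
  have hnorm_sec : ∀ s, s ∈ Ioo t u → ∫ p, ‖f p s‖ ∂μ = |g s| * c s := by
    intro s hs
    have h1 : (fun p => ‖f p s‖) = (Iio s).indicator (fun p => |g s| * |K p s|) := by
      funext p
      by_cases h : p < s
      · simp [hf, indicator, h]
      · simp [hf, indicator, h]
    rw [h1, integral_indicator measurableSet_Iio, hμ,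
      Measure.restrict_restrict measurableSet_Iio, inter_comm, hsecset s hs,
      integral_const_mul]
    congr 1
    rw [← hKc s hs.1 hs.2]
    apply setIntegral_congr_fun measurableSet_Ioo
    intro p hp
    exact abs_of_nonneg (hK0 p s hp.1 hp.2 hs.2)
  have hc0 : ∀ s, s ∈ Ioo t u → 0 ≤ c s := by
    intro s hs
    rw [← hKc s hs.1 hs.2]
    exact setIntegral_nonneg measurableSet_Ioo (fun p hp => hK0 p s hp.1 hp.2 hs.2)
  have hfint : Integrable (fun z : ℝ × ℝ => f z.1 z.2) (μ.prod μ) := by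
    rw [integrable_prod_iff' hfm.aestronglyMeasurable]
    constructor
    · exact (ae_restrict_mem measurableSet_Ioo).mono (fun s hs => hint_sec s hs)
    · have h2 : Integrable (fun s => |g s| * c s) μ := by
        refine Measure.integrableOn_of_bounded (M := M * C) (by simp)
          ((hg.abs.mul hcm).aestronglyMeasurable) ?_
        refine (ae_restrict_mem measurableSet_Ioo).mono (fun s hs => ?_)
        rw [Real.norm_eq_abs, abs_mul, abs_abs, abs_of_nonneg (hc0 s hs)]
        exact mul_le_mul (hM s) (hc s hs.1 hs.2) (hc0 s hs) hM0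
      refine h2.congr ?_
      exact (ae_restrict_mem measurableSet_Ioo).mono (fun s hs => (hnorm_sec s hs).symm)
  have hswap := integral_integral_swap (f := f) hfint
  rw [intervalIntegral.integral_of_le htu, intervalIntegral.integral_of_le htu,
    integral_Ioc_eq_integral_Ioo, integral_Ioc_eq_integral_Ioo]
  have hL : ∫ p in Ioo t u, ∫ s in p..u, g s * K p s = ∫ p in Ioo t u, ∫ s, f p s ∂μ := by
    apply setIntegral_congr_fun measurableSet_Ioo
    intro p hp
    simp only
    rw [intervalIntegral.integral_of_le hp.2.le, integral_Ioc_eq_integral_Ioo]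
    have h1 : (fun s => f p s) = (Ioi p).indicator (fun s => g s * K p s) := by
      funext s
      simp [hf, indicator]
    rw [h1, integral_indicator measurableSet_Ioi, hμ,
      Measure.restrict_restrict measurableSet_Ioi]
    congr 2
    ext s
    simp only [mem_inter_iff, mem_Ioo, mem_Ioi]
    constructor
    · rintro ⟨h1, h2⟩
      exact ⟨h1, hp.1.trans h1, h2⟩
    · rintro ⟨h1, _, h3⟩
      exact ⟨h1, h3⟩
  rw [hL]
  have hR : ∫ s in Ioo t u, g s * c s = ∫ s in Ioo t u, ∫ p, f p s ∂μ := by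
    apply setIntegral_congr_fun measurableSet_Ioo
    intro s hs
    exact (hval_sec s hs).symm
  rw [hR]
  exact hswap

/-- `∫_t^s p dp/(√(s²-p²) √(p²-t²)) = π/2`, with integrability. -/
theorem kernel_one (t s : ℝ) (ht : 0 ≤ t) (hts : t < s) :
    IntegrableOn (fun p => p / (√(s ^ 2 - p ^ 2) * √(p ^ 2 - t ^ 2))) (Ioo t s) ∧
    ∫ p in Ioo t s, p / (√(s ^ 2 - p ^ 2) * √(p ^ 2 - t ^ 2)) = π / 2 := by
  have hst : 0 < s ^ 2 - t ^ 2 := by nlinarith
  set w : ℝ → ℝ := fun p => (2 * p ^ 2 - t ^ 2 - s ^ 2) / (s ^ 2 - t ^ 2) with hw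
  set G : ℝ → ℝ := fun p => 1 / 2 * Real.arcsin (w p) with hG
  have hGc : ContinuousOn G (Icc t s) := by
    apply Continuous.continuousOn
    have : Continuous w := by
      simp only [hw]
      fun_prop
    exact continuous_const.mul (Real.continuous_arcsin.comp this)
  have hd : ∀ p ∈ Ioo t s, HasDerivAt G (p / (√(s ^ 2 - p ^ 2) * √(p ^ 2 - t ^ 2))) p := by
    intro p hp
    have hp0 : 0 < p := lt_of_le_of_lt ht hp.1
    have h1 : 0 < s ^ 2 - p ^ 2 := by nlinarith [hp.2]
    have h2 : 0 < p ^ 2 - t ^ 2 := by nlinarith [hp.1]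
    have hwd : HasDerivAt w (4 * p / (s ^ 2 - t ^ 2)) p := by
      have : HasDerivAt (fun p : ℝ => 2 * p ^ 2 - t ^ 2 - s ^ 2) (4 * p) p := by
        have h := ((hasDerivAt_pow 2 p).const_mul 2).sub_const (t ^ 2) |>.sub_const (s ^ 2)
        refine h.congr_deriv ?_
        norm_num
        ring
      exact this.div_const _
    have hw1 : w p ≠ -1 := by
      simp only [hw]
      intro h
      rw [div_eq_iff hst.ne'] at h
      nlinarith
    have hw2 : w p ≠ 1 := by
      simp only [hw]
      intro h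
      rw [div_eq_iff hst.ne'] at h
      nlinarith
    have hA := (Real.hasDerivAt_arcsin hw1 hw2).comp p hwd
    have hA2 := hA.const_mul (1 / 2)
    refine hA2.congr_deriv ?_
    have hsq : √(1 - w p ^ 2) = 2 * (√(s ^ 2 - p ^ 2) * √(p ^ 2 - t ^ 2)) / (s ^ 2 - t ^ 2) := by
      have h3 : 1 - w p ^ 2 =
          (2 * (√(s ^ 2 - p ^ 2) * √(p ^ 2 - t ^ 2)) / (s ^ 2 - t ^ 2)) ^ 2 := by
        simp only [hw]
        rw [div_pow, div_pow, mul_pow, mul_pow, Real.sq_sqrt h1.le, Real.sq_sqrt h2.le]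
        field_simp
        ring
      rw [h3, Real.sqrt_sq]
      positivity
    rw [hsq]
    have h4 : 0 < √(s ^ 2 - p ^ 2) := Real.sqrt_pos.2 h1
    have h5 : 0 < √(p ^ 2 - t ^ 2) := Real.sqrt_pos.2 h2
    field_simp
    try ring
  have hnn : ∀ p ∈ Ioo t s, 0 ≤ p / (√(s ^ 2 - p ^ 2) * √(p ^ 2 - t ^ 2)) := by
    intro p hp
    have hp0 : 0 < p := lt_of_le_of_lt ht hp.1
    positivity
  have hi : IntegrableOn (fun p => p / (√(s ^ 2 - p ^ 2) * √(p ^ 2 - t ^ 2))) (Ioc t s) :=
    intervalIntegral.integrableOn_deriv_of_nonneg hGc hd hnn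
  refine ⟨hi.mono_set Ioo_subset_Ioc_self, ?_⟩
  rw [← integral_Ioc_eq_integral_Ioo, ← intervalIntegral.integral_of_le hts.le]
  rw [intervalIntegral.integral_eq_sub_of_hasDerivAt_of_le hts.le hGc hd
    ((intervalIntegrable_iff_integrableOn_Ioc_of_le hts.le).2 hi)]
  have e1 : w s = 1 := by
    simp only [hw]
    rw [div_eq_one_iff_eq hst.ne']
    ring
  have e2 : w t = -1 := by
    simp only [hw]
    rw [div_eq_iff hst.ne']
    ring
  simp only [hG, e1, e2, Real.arcsin_one, Real.arcsin_neg_one]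
  ring

/-- `∫_0^s t² dt/√(s²-t²) = π s²/4`, with integrability. -/
theorem kernel_two (s : ℝ) (hs : 0 < s) :
    IntegrableOn (fun p => p ^ 2 / √(s ^ 2 - p ^ 2)) (Ioo 0 s) ∧
    ∫ p in Ioo 0 s, p ^ 2 / √(s ^ 2 - p ^ 2) = π / 4 * s ^ 2 := by
  set G : ℝ → ℝ := fun p => s ^ 2 / 2 * Real.arcsin (p / s) - p / 2 * √(s ^ 2 - p ^ 2) with hG
  have hGc : ContinuousOn G (Icc 0 s) := by
    apply Continuous.continuousOn
    apply Continuous.sub
    · exact continuous_const.mul (Real.continuous_arcsin.comp (by fun_prop))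
    · fun_prop
  have hd : ∀ p ∈ Ioo 0 s, HasDerivAt G (p ^ 2 / √(s ^ 2 - p ^ 2)) p := by
    intro p hp
    have hp0 : 0 < p := hp.1
    have h1 : 0 < s ^ 2 - p ^ 2 := by nlinarith [hp.2]
    have hwd : HasDerivAt (fun p : ℝ => p / s) (1 / s) p := (hasDerivAt_id p).div_const s
    have hlt : p / s < 1 := (div_lt_one hs).2 hp.2
    have hgt : 0 < p / s := div_pos hp0 hs
    have hA := (Real.hasDerivAt_arcsin (x := p / s) (by linarith) hlt.ne).comp p hwd
    have hA2 := hA.const_mul (s ^ 2 / 2)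
    have hB : HasDerivAt (fun p : ℝ => √(s ^ 2 - p ^ 2)) (-(2 * p) / (2 * √(s ^ 2 - p ^ 2))) p := by
      have h := ((hasDerivAt_pow 2 p).const_sub (s ^ 2)).sqrt h1.ne'
      refine h.congr_deriv ?_
      norm_num
    have hC := ((hasDerivAt_id p).div_const 2).mul hB
    have hD := hA2.sub hC
    have hsq : √(1 - (p / s) ^ 2) = √(s ^ 2 - p ^ 2) / s := by
      have h3 : 1 - (p / s) ^ 2 = (√(s ^ 2 - p ^ 2) / s) ^ 2 := by
        rw [div_pow, div_pow, Real.sq_sqrt h1.le]
        field_simp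
      rw [h3, Real.sqrt_sq]
      positivity
    refine hD.congr_deriv ?_
    rw [hsq]
    have h4 : 0 < √(s ^ 2 - p ^ 2) := Real.sqrt_pos.2 h1
    have h5 : √(s ^ 2 - p ^ 2) ^ 2 = s ^ 2 - p ^ 2 := Real.sq_sqrt h1.le
    simp only [id]
    field_simp
    rw [h5]
    ring
  have hnn : ∀ p ∈ Ioo 0 s, 0 ≤ p ^ 2 / √(s ^ 2 - p ^ 2) := by
    intro p hp
    positivity
  have hi : IntegrableOn (fun p => p ^ 2 / √(s ^ 2 - p ^ 2)) (Ioc 0 s) :=
    intervalIntegral.integrableOn_deriv_of_nonneg hGc hd hnn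
  refine ⟨hi.mono_set Ioo_subset_Ioc_self, ?_⟩
  rw [← integral_Ioc_eq_integral_Ioo, ← intervalIntegral.integral_of_le hs.le]
  rw [intervalIntegral.integral_eq_sub_of_hasDerivAt_of_le hs.le hGc hd
    ((intervalIntegrable_iff_integrableOn_Ioc_of_le hs.le).2 hi)]
  simp only [hG]
  rw [div_self hs.ne', zero_div, Real.arcsin_one, Real.arcsin_zero]
  simp
  ring

end ACm

theorem AC : S_AC := by
  intro g M hg hM
  refine ⟨?_, ?_⟩
  · intro t ht0 ht1
    have h := ACm.fubini_tri (fun p s => p / (√(s ^ 2 - p ^ 2) * √(p ^ 2 - t ^ 2)))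
      (fun _ => π / 2) (π / 2) g M t 1 ht1 (by fun_prop) ?_ ?_ ?_ ?_ measurable_const hg hM
    · unfold Cop Aop
      calc ∫ s in t..1, s * (∫ r in s..1, g r / √(r ^ 2 - s ^ 2)) / √(s ^ 2 - t ^ 2)
          = ∫ p in t..1, ∫ s in p..1, g s * (p / (√(s ^ 2 - p ^ 2) * √(p ^ 2 - t ^ 2))) := by
            congr 1
            funext p
            rw [mul_div_right_comm, ← intervalIntegral.integral_const_mul]
            congr 1
            funext s
            simp only [div_eq_mul_inv, mul_inv]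
            ring
        _ = ∫ s in t..1, g s * (π / 2) := h
        _ = π / 2 * ∫ s in t..1, g s := by
            rw [intervalIntegral.integral_mul_const, mul_comm]
    · intro p s h1 _ _
      have : 0 < p := lt_of_le_of_lt ht0 h1
      positivity
    · intro s h1 _
      exact (ACm.kernel_one t s ht0 h1).1
    · intro s h1 _
      exact (ACm.kernel_one t s ht0 h1).2
    · intro s _ _
      exact le_rfl
  · have h := ACm.fubini_tri (fun p s => p ^ 2 / √(s ^ 2 - p ^ 2))
      (fun s => π / 4 * s ^ 2) (π / 4) g M 0 1 zero_le_one (by fun_prop) ?_ ?_ ?_ ?_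
      (by fun_prop) hg hM
    · unfold Cop Aop
      calc ∫ t in (0 : ℝ)..1, t * (t * ∫ s in t..1, g s / √(s ^ 2 - t ^ 2))
          = ∫ p in (0 : ℝ)..1, ∫ s in p..1, g s * (p ^ 2 / √(s ^ 2 - p ^ 2)) := by
            congr 1
            funext p
            rw [← mul_assoc, ← intervalIntegral.integral_const_mul]
            congr 1
            funext s
            simp only [div_eq_mul_inv]
            ring
        _ = ∫ s in (0 : ℝ)..1, g s * (π / 4 * s ^ 2) := h
        _ = π / 4 * ∫ s in (0 : ℝ)..1, s ^ 2 * g s := by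
            rw [← intervalIntegral.integral_const_mul]
            congr 1
            funext s
            ring
    · intro p s _ _ _
      positivity
    · intro s h1 _
      exact (ACm.kernel_two s h1).1
    · intro s h1 _
      exact (ACm.kernel_two s h1).2
    · intro s h1 h2
      have : s ^ 2 ≤ 1 := by nlinarith
      have hpi := Real.pi_pos
      nlinarith

end Pool.Agent.HV
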