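import Mathlib

/-!
# Area formula for injective `C¹` immersions  (helper30)

For `f : U → V` between finite dimensional inner product spaces, differentiable on an open set `Ω`
with continuous injective derivative and injective on `Ω`, and `s ⊆ Ω` measurable,
`μHE[dim U] (f '' s) = ∫⁻ x in s, normDet (f' x)`.
-/

set_option autoImplicit false

open MeasureTheory Measure Set Filter Module
open scoped Topology ENNReal NNReal

namespace Pool.Agent.HV

theorem muH_image_le_of_dist_le {α X Y : Type*} [MetricSpace X] [MeasurableSpace X]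
    [BorelSpace X] [MetricSpace Y] [MeasurableSpace Y] [BorelSpace Y] {f : α → Y} {g : α → X}
    {K : ℝ≥0} {s : Set α} {d : ℝ} (hd : 0 ≤ d)
    (h : ∀ x ∈ s, ∀ y ∈ s, dist (f x) (f y) ≤ K * dist (g x) (g y)) :
    μH[d] (f '' s) ≤ (K : ℝ≥0∞) ^ d * μH[d] (g '' s) := by
  classical
  rcases s.eq_empty_or_nonempty with rfl | hne
  · simp
  obtain ⟨a0, ha0⟩ := hne
  have : Nonempty α := ⟨a0⟩
  set F : X → Y := fun x => f (Function.invFunOn g s x) with hF
  have hinv : ∀ x ∈ s, Function.invFunOn g s (g x) ∈ s ∧ g (Function.invFunOn g s (g x)) = g x :=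
    fun x hx => ⟨Function.invFunOn_mem ⟨x, hx, rfl⟩, Function.invFunOn_eq ⟨x, hx, rfl⟩⟩
  have hFg : ∀ x ∈ s, F (g x) = f x := by
    intro x hx
    have h1 := h _ (hinv x hx).1 x hx
    rw [(hinv x hx).2, dist_self, mul_zero] at h1
    exact dist_le_zero.1 h1
  have himg : F '' (g '' s) = f '' s := by
    rw [image_image]
    exact image_congr hFg
  have hL : LipschitzOnWith K F (g '' s) := by
    apply LipschitzOnWith.of_dist_le_mul
    rintro _ ⟨x, hx, rfl⟩ _ ⟨y, hy, rfl⟩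
    rw [hFg x hx, hFg y hy]
    exact h x hx y hy
  rw [← himg]
  exact hL.hausdorffMeasure_image_le hd

theorem muHE_image_le_of_dist_le {α X Y : Type*} [MetricSpace X] [MeasurableSpace X]
    [BorelSpace X] [MetricSpace Y] [MeasurableSpace Y] [BorelSpace Y] {f : α → Y} {g : α → X}
    {K : ℝ≥0} {s : Set α} (d : ℕ)
    (h : ∀ x ∈ s, ∀ y ∈ s, dist (f x) (f y) ≤ K * dist (g x) (g y)) :
    (euclideanHausdorffMeasure d : Measure Y) (f '' s)
      ≤ (K : ℝ≥0∞) ^ d * (euclideanHausdorffMeasure d : Measure X) (g '' s) := by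
  have h1 := muH_image_le_of_dist_le (d := (d : ℝ)) (Nat.cast_nonneg d) h
  rw [ENNReal.rpow_natCast] at h1
  simp only [euclideanHausdorffMeasure_def, Measure.smul_apply, ENNReal.smul_def, smul_eq_mul]
  calc _ ≤ (addHaarScalarFactor (volume : Measure (EuclideanSpace ℝ (Fin d))) μH[d] : ℝ≥0∞) *
        ((K : ℝ≥0∞) ^ d * μH[d] (g '' s)) := by gcongr
    _ = _ := by ring

section General

variable {U V : Type*} [NormedAddCommGroup U] [InnerProductSpace ℝ U] [FiniteDimensional ℝ U]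
  [MeasurableSpace U] [BorelSpace U]
  [NormedAddCommGroup V] [InnerProductSpace ℝ V]
  [MeasurableSpace V] [BorelSpace V]

omit [MeasurableSpace U] [BorelSpace U] [MeasurableSpace V] [BorelSpace V] in
/-- continuity of the norm determinant -/
theorem continuous_normDet :
    Continuous (fun L : U →L[ℝ] V => ((L : U →ₗ[ℝ] V)).normDet) := by
  have h : (fun L : U →L[ℝ] V => ((L : U →ₗ[ℝ] V)).normDet) = fun L =>
      √((Matrix.gram ℝ (fun i => L (stdOrthonormalBasis ℝ U i))).det) := by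
    ext L
    have h1 := LinearMap.normDet_sq_eq_det_gram (L : U →ₗ[ℝ] V) (stdOrthonormalBasis ℝ U)
    have h2 : ((L : U →ₗ[ℝ] V).normDet ^ 2 : ℝ) =
        (Matrix.gram ℝ (fun i => L (stdOrthonormalBasis ℝ U i))).det := by exact_mod_cast h1
    rw [← h2, Real.sqrt_sq (LinearMap.normDet_nonneg _)]
  rw [h]
  apply Real.continuous_sqrt.comp
  apply Continuous.matrix_det
  apply continuous_matrix
  intro i j
  simp only [Matrix.gram_apply]
  fun_prop

/-- two-sided local comparison, for a set on which `f` is close to a linear map -/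
theorem compare_linear (f : U → V) (L : U →L[ℝ] V) {m ε : ℝ} (hε : 0 ≤ ε)
    (hε1 : ε < 1) (hL : ∀ v, m * ‖v‖ ≤ ‖L v‖) {s : Set U}
    (hs : ∀ x ∈ s, ∀ y ∈ s, ‖f x - f y - L (x - y)‖ ≤ ε * m * ‖x - y‖) :
    (euclideanHausdorffMeasure (finrank ℝ U) : Measure V) (f '' s) ≤
      ENNReal.ofReal ((1 + ε) ^ finrank ℝ U) *
        (ENNReal.ofReal (L : U →ₗ[ℝ] V).normDet * volume s) ∧
    ENNReal.ofReal ((1 - ε) ^ finrank ℝ U) *
        (ENNReal.ofReal (L : U →ₗ[ℝ] V).normDet * volume s) ≤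
      (euclideanHausdorffMeasure (finrank ℝ U) : Measure V) (f '' s) := by
  have hlin := (L : U →ₗ[ℝ] V).euclideanHausdorffMeasure_image_eq_normDet_mul_volume s
  rw [← hlin]
  have key : ∀ x ∈ s, ∀ y ∈ s, ‖f x - f y - L (x - y)‖ ≤ ε * ‖L (x - y)‖ := by
    intro x hx y hy
    calc ‖f x - f y - L (x - y)‖ ≤ ε * (m * ‖x - y‖) := by
          rw [← mul_assoc]; exact hs x hx y hy
      _ ≤ ε * ‖L (x - y)‖ := by gcongr; exact hL _
  constructor
  · have h1 : ∀ x ∈ s, ∀ y ∈ s, dist (f x) (f y) ≤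
        (Real.toNNReal (1 + ε) : ℝ≥0) * dist ((L : U →ₗ[ℝ] V) x) ((L : U →ₗ[ℝ] V) y) := by
      intro x hx y hy
      rw [Real.coe_toNNReal _ (by linarith), dist_eq_norm, dist_eq_norm]
      have e : (L : U →ₗ[ℝ] V) x - (L : U →ₗ[ℝ] V) y = L (x - y) := by simp
      rw [e]
      have := norm_add_le (f x - f y - L (x - y)) (L (x - y))
      rw [sub_add_cancel] at this
      linarith [key x hx y hy]
    have h2 := muHE_image_le_of_dist_le (finrank ℝ U) h1
    refine h2.trans (le_of_eq ?_)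
    congr 1
    rw [ENNReal.ofReal_pow (by linarith)]
    rfl
  · have hpos : 0 < 1 - ε := by linarith
    have h1 : ∀ x ∈ s, ∀ y ∈ s, dist ((L : U →ₗ[ℝ] V) x) ((L : U →ₗ[ℝ] V) y) ≤
        (Real.toNNReal ((1 - ε)⁻¹) : ℝ≥0) * dist (f x) (f y) := by
      intro x hx y hy
      rw [Real.coe_toNNReal _ (by positivity), dist_eq_norm, dist_eq_norm]
      have e : (L : U →ₗ[ℝ] V) x - (L : U →ₗ[ℝ] V) y = L (x - y) := by simp
      rw [e, inv_mul_eq_div, le_div_iff₀ hpos]
      have := norm_sub_le (f x - f y) (f x - f y - L (x - y))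
      rw [sub_sub_cancel] at this
      nlinarith [key x hx y hy]
    have h2 := muHE_image_le_of_dist_le (finrank ℝ U) h1
    calc _ ≤ ENNReal.ofReal ((1 - ε) ^ finrank ℝ U) *
          ((Real.toNNReal ((1 - ε)⁻¹) : ℝ≥0∞) ^ finrank ℝ U *
            (euclideanHausdorffMeasure (finrank ℝ U) : Measure V) (f '' s)) := by gcongr
      _ = _ := by
        rw [← mul_assoc]
        have : ENNReal.ofReal ((1 - ε) ^ finrank ℝ U) *
            (Real.toNNReal ((1 - ε)⁻¹) : ℝ≥0∞) ^ finrank ℝ U = 1 := by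
          change ENNReal.ofReal ((1 - ε) ^ finrank ℝ U) *
            (ENNReal.ofReal ((1 - ε)⁻¹)) ^ finrank ℝ U = 1
          rw [← ENNReal.ofReal_pow (by positivity), ← ENNReal.ofReal_mul (by positivity)]
          rw [← mul_pow, mul_inv_cancel₀ hpos.ne']
          simp
        rw [this, one_mul]

/-- local comparison on a neighbourhood -/
theorem exists_nhd_compare (f : U → V) (f' : U → U →L[ℝ] V) {Ω : Set U} (hΩ : IsOpen Ω)
    (hf : ∀ x ∈ Ω, HasFDerivAt f (f' x) x) (hc : ContinuousOn f' Ω)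
    (hi : ∀ x ∈ Ω, Function.Injective (f' x)) {x0 : U} (hx0 : x0 ∈ Ω) {ε : ℝ} (hε : 0 < ε)
    (hε1 : ε < 1) :
    ∃ W : Set U, IsOpen W ∧ x0 ∈ W ∧ ∀ s ⊆ W, MeasurableSet s →
      (euclideanHausdorffMeasure (finrank ℝ U) : Measure V) (f '' s) ≤
        ENNReal.ofReal ((1 + ε) ^ (finrank ℝ U + 1)) *
          ∫⁻ x in s, ENNReal.ofReal (f' x : U →ₗ[ℝ] V).normDet ∧
      ENNReal.ofReal ((1 - ε) ^ (finrank ℝ U + 1)) *
          ∫⁻ x in s, ENNReal.ofReal (f' x : U →ₗ[ℝ] V).normDet ≤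
        (euclideanHausdorffMeasure (finrank ℝ U) : Measure V) (f '' s) := by
  set L := f' x0 with hLdef
  have hLinj : LinearMap.ker (L : U →ₗ[ℝ] V) = ⊥ := LinearMap.ker_eq_bot.2 (hi x0 hx0)
  obtain ⟨K, hK, hanti⟩ := (L : U →ₗ[ℝ] V).exists_antilipschitzWith hLinj
  have hKr : (0 : ℝ) < K := hK
  have hm : ∀ v, (K : ℝ)⁻¹ * ‖v‖ ≤ ‖L v‖ := by
    intro v
    have h1 := hanti.le_mul_dist v 0
    simp only [dist_zero_right, map_zero, ContinuousLinearMap.coe_coe] at h1
    rw [inv_mul_eq_div, div_le_iff₀ hKr, mul_comm]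
    exact h1
  -- strict derivative
  have hstrict : HasStrictFDerivAt f L x0 := by
    apply hasStrictFDerivAt_of_hasFDerivAt_of_continuousAt
    · filter_upwards [hΩ.mem_nhds hx0] with x hx using hf x hx
    · exact hc.continuousAt (hΩ.mem_nhds hx0)
  have hcpos : (0 : ℝ≥0) < Real.toNNReal (ε * (K : ℝ)⁻¹) := by
    rw [Real.toNNReal_pos]; positivity
  obtain ⟨s1, hs1, happ⟩ := hstrict.approximates_deriv_on_nhds (Or.inr hcpos)
  -- continuity of the norm determinant
  set J : U → ℝ := fun x => (f' x : U →ₗ[ℝ] V).normDet with hJ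
  have hJc : ContinuousAt J x0 :=
    (continuous_normDet.continuousAt).comp (hc.continuousAt (hΩ.mem_nhds hx0))
  have hJ0 : 0 < J x0 := by
    have h1 : J x0 ≠ 0 := by
      intro h
      exact LinearMap.normDet_eq_zero_iff_ker_ne_bot.1 h hLinj
    exact lt_of_le_of_ne (LinearMap.normDet_nonneg _) h1.symm
  have h2 : ∀ᶠ x in 𝓝 x0, (1 - ε) * J x < J x0 := by
    have : Tendsto (fun x => (1 - ε) * J x) (𝓝 x0) (𝓝 ((1 - ε) * J x0)) := hJc.const_mul _
    exact this.eventually_lt_const (by nlinarith)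
  have h3 : ∀ᶠ x in 𝓝 x0, J x0 < (1 + ε) * J x := by
    have : Tendsto (fun x => (1 + ε) * J x) (𝓝 x0) (𝓝 ((1 + ε) * J x0)) := hJc.const_mul _
    exact this.eventually_const_lt (by nlinarith)
  obtain ⟨W, hW, hWo, hxW⟩ := eventually_nhds_iff.1 ((h2.and h3).and hs1)
  refine ⟨W, hWo, hxW, fun s hsW hsm => ?_⟩
  have hcmp := compare_linear f L (m := (K : ℝ)⁻¹) hε.le hε1 hm (s := s) (by
    intro x hx y hy
    have h4 := happ x (hW x (hsW hx)).2 y (hW y (hsW hy)).2
    rwa [Real.coe_toNNReal _ (by positivity)] at h4)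
  have hone : 0 < 1 - ε := by linarith
  constructor
  · refine hcmp.1.trans ?_
    rw [pow_succ, ENNReal.ofReal_mul (by positivity), mul_assoc]
    refine mul_le_mul_right ?_ _
    rw [← lintegral_const_mul']
    · rw [← setLIntegral_const]
      apply setLIntegral_mono' hsm
      intro x hx
      rw [← ENNReal.ofReal_mul (by positivity)]
      exact ENNReal.ofReal_le_ofReal (hW x (hsW hx)).1.2.le
    · exact ENNReal.ofReal_ne_top
  · refine le_trans ?_ hcmp.2
    rw [pow_succ, ENNReal.ofReal_mul (by positivity), mul_assoc]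
    refine mul_le_mul_right ?_ _
    rw [← lintegral_const_mul']
    · rw [← setLIntegral_const]
      apply setLIntegral_mono' hsm
      intro x hx
      rw [← ENNReal.ofReal_mul (by positivity)]
      exact ENNReal.ofReal_le_ofReal (hW x (hsW hx)).1.1.le
    · exact ENNReal.ofReal_ne_top

/-- global comparison with a factor -/
theorem compare_global (f : U → V) (f' : U → U →L[ℝ] V) {Ω : Set U} (hΩ : IsOpen Ω)
    (hf : ∀ x ∈ Ω, HasFDerivAt f (f' x) x) (hc : ContinuousOn f' Ω)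
    (hi : ∀ x ∈ Ω, Function.Injective (f' x)) (hinj : InjOn f Ω) {ε : ℝ} (hε : 0 < ε)
    (hε1 : ε < 1) {s : Set U} (hs : MeasurableSet s) (hsΩ : s ⊆ Ω) :
    (euclideanHausdorffMeasure (finrank ℝ U) : Measure V) (f '' s) ≤
      ENNReal.ofReal ((1 + ε) ^ (finrank ℝ U + 1)) *
        ∫⁻ x in s, ENNReal.ofReal (f' x : U →ₗ[ℝ] V).normDet ∧
    ENNReal.ofReal ((1 - ε) ^ (finrank ℝ U + 1)) *
        ∫⁻ x in s, ENNReal.ofReal (f' x : U →ₗ[ℝ] V).normDet ≤
      (euclideanHausdorffMeasure (finrank ℝ U) : Measure V) (f '' s) := by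
  classical
  rcases s.eq_empty_or_nonempty with rfl | hne
  · simp
  have hloc := fun x : U => fun hx : x ∈ s =>
    exists_nhd_compare f f' hΩ hf hc hi (hsΩ hx) hε hε1
  choose! W hWo hxW hWs using hloc
  obtain ⟨t, hts, htc, hcov⟩ := TopologicalSpace.countable_cover_nhdsWithin (f := W) (s := s)
    (fun x hx => mem_nhdsWithin_of_mem_nhds ((hWo x hx).mem_nhds (hxW x hx)))
  have htne : t.Nonempty := by
    obtain ⟨y, hy⟩ := hne
    obtain ⟨x, hx⟩ := mem_iUnion.1 (hcov hy)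
    obtain ⟨hx1, _⟩ := mem_iUnion.1 hx
    exact ⟨x, hx1⟩
  obtain ⟨e, he⟩ := htc.exists_eq_range htne
  have hes : ∀ n, e n ∈ s := fun n => hts (he ▸ mem_range_self n)
  set D : ℕ → Set U := fun n => s ∩ disjointed (fun n => W (e n)) n with hD
  have hDm : ∀ n, MeasurableSet (D n) := fun n =>
    hs.inter (MeasurableSet.disjointed (fun n => (hWo _ (hes n)).measurableSet) n)
  have hDd : Pairwise (Function.onFun Disjoint D) := by
    intro i j hij
    exact (disjoint_disjointed _ hij).mono inter_subset_right inter_subset_right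
  have hDs : ⋃ n, D n = s := by
    rw [hD, ← inter_iUnion, iUnion_disjointed, inter_eq_left]
    intro x hx
    obtain ⟨y, hy⟩ := mem_iUnion.1 (hcov hx)
    obtain ⟨hy1, hy2⟩ := mem_iUnion.1 hy
    rw [he] at hy1
    obtain ⟨n, rfl⟩ := hy1
    exact mem_iUnion.2 ⟨n, hy2⟩
  have hDW : ∀ n, D n ⊆ W (e n) := fun n => inter_subset_right.trans (disjointed_subset _ n)
  have hDΩ : ∀ n, D n ⊆ Ω := fun n => inter_subset_left.trans hsΩ
  have hfc : ContinuousOn f Ω := fun x hx => (hf x hx).continuousAt.continuousWithinAt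
  have himg : (euclideanHausdorffMeasure (finrank ℝ U) : Measure V) (f '' s) =
      ∑' n, (euclideanHausdorffMeasure (finrank ℝ U) : Measure V) (f '' (D n)) := by
    conv_lhs => rw [← hDs]
    rw [image_iUnion, measure_iUnion]
    · intro i j hij
      exact disjoint_image_image (fun x hx y hy hxy => (hDd hij).le_bot
        ⟨hx, by rwa [hinj (hDΩ i hx) (hDΩ j hy) hxy]⟩)
    · intro n
      exact (hDm n).image_of_continuousOn_injOn (hfc.mono (hDΩ n)) (hinj.mono (hDΩ n))
  have hint : ∫⁻ x in s, ENNReal.ofReal (f' x : U →ₗ[ℝ] V).normDet =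
      ∑' n, ∫⁻ x in D n, ENNReal.ofReal (f' x : U →ₗ[ℝ] V).normDet := by
    conv_lhs => rw [← hDs]
    rw [lintegral_iUnion hDm hDd]
  rw [himg, hint, ← ENNReal.tsum_mul_left, ← ENNReal.tsum_mul_left]
  exact ⟨ENNReal.tsum_le_tsum fun n => (hWs _ (hes n) _ (hDW n) (hDm n)).1,
    ENNReal.tsum_le_tsum fun n => (hWs _ (hes n) _ (hDW n) (hDm n)).2⟩

/-- **area formula** for injective `C¹` immersions -/
theorem area_formula (f : U → V) (f' : U → U →L[ℝ] V) {Ω : Set U} (hΩ : IsOpen Ω)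
    (hf : ∀ x ∈ Ω, HasFDerivAt f (f' x) x) (hc : ContinuousOn f' Ω)
    (hi : ∀ x ∈ Ω, Function.Injective (f' x)) (hinj : InjOn f Ω)
    {s : Set U} (hs : MeasurableSet s) (hsΩ : s ⊆ Ω) :
    (euclideanHausdorffMeasure (finrank ℝ U) : Measure V) (f '' s) =
      ∫⁻ x in s, ENNReal.ofReal (f' x : U →ₗ[ℝ] V).normDet := by
  set I := ∫⁻ x in s, ENNReal.ofReal (f' x : U →ₗ[ℝ] V).normDet with hI
  have hev : ∀ᶠ ε : ℝ in 𝓝[>] 0, 0 < ε ∧ ε < 1 := by
    have : Ioo (0 : ℝ) 1 ∈ 𝓝[>] (0 : ℝ) := Ioo_mem_nhdsGT (by norm_num)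
    exact this
  apply le_antisymm
  · have hlim : Tendsto (fun ε : ℝ => ENNReal.ofReal ((1 + ε) ^ (finrank ℝ U + 1)) * I)
        (𝓝[>] 0) (𝓝 (1 * I)) := by
      apply ENNReal.Tendsto.mul_const
      · have : Tendsto (fun ε : ℝ => (1 + ε) ^ (finrank ℝ U + 1)) (𝓝 0)
            (𝓝 ((1 + 0) ^ (finrank ℝ U + 1))) := by
          apply Continuous.tendsto; fun_prop
        have h2 := ENNReal.tendsto_ofReal
          (this.mono_left (nhdsWithin_le_nhds : 𝓝[>] (0 : ℝ) ≤ 𝓝 0))
        simpa using h2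
      · left; simp
    rw [one_mul] at hlim
    refine ge_of_tendsto hlim ?_
    filter_upwards [hev] with ε hε
    exact (compare_global f f' hΩ hf hc hi hinj hε.1 hε.2 hs hsΩ).1
  · have hlim : Tendsto (fun ε : ℝ => ENNReal.ofReal ((1 - ε) ^ (finrank ℝ U + 1)) * I)
        (𝓝[>] 0) (𝓝 (1 * I)) := by
      apply ENNReal.Tendsto.mul_const
      · have : Tendsto (fun ε : ℝ => (1 - ε) ^ (finrank ℝ U + 1)) (𝓝 0)
            (𝓝 ((1 - 0) ^ (finrank ℝ U + 1))) := by
          apply Continuous.tendsto; fun_prop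
        have h2 := ENNReal.tendsto_ofReal
          (this.mono_left (nhdsWithin_le_nhds : 𝓝[>] (0 : ℝ) ≤ 𝓝 0))
        simpa using h2
      · left; simp
    rw [one_mul] at hlim
    refine le_of_tendsto hlim ?_
    filter_upwards [hev] with ε hε
    exact (compare_global f f' hΩ hf hc hi hinj hε.1 hε.2 hs hsΩ).2

end General

end Pool.Agent.HV
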