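import Pool.Agent.HV.Stmts
import Pool.Agent.HV.AreaFormula

/-!
# `S_AF`: area formula for surfaces of revolution  (helper30)
-/

set_option autoImplicit false

open MeasureTheory Measure Set Filter Module
open scoped Real Topology ENNReal NNReal

namespace Pool.Agent.HV

/-- a locally Lipschitz curve is a null set for the area -/
theorem muHE_two_curve_zero {f : ℝ → E3} {s : Set ℝ}
    (hf : ∀ x ∈ s, ∃ C : ℝ≥0, ∃ t ∈ 𝓝[s] x, LipschitzOnWith C f t) :
    (euclideanHausdorffMeasure 2 : Measure E3) (f '' s) = 0 := by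
  have h1 := dimH_image_le_of_locally_lipschitzOn hf
  have h2 : dimH (f '' s) < ((2 : ℝ≥0) : ℝ≥0∞) := by
    calc dimH (f '' s) ≤ dimH s := h1
      _ ≤ dimH (univ : Set ℝ) := dimH_mono (subset_univ s)
      _ = 1 := Real.dimH_univ
      _ < ((2 : ℝ≥0) : ℝ≥0∞) := by norm_num
  have h3 := hausdorffMeasure_of_dimH_lt h2
  rw [euclideanHausdorffMeasure_def, Measure.smul_apply]
  have h4 : μH[((2 : ℕ) : ℝ)] (f '' s) = 0 := by simpa using h3
  rw [h4, smul_zero]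

/-- a `C¹` curve is a null set for the area -/
theorem muHE_two_curve_zero' {f f' : ℝ → E3} {s : Set ℝ}
    (hf : ∀ x ∈ s, HasStrictDerivAt f (f' x) x) :
    (euclideanHausdorffMeasure 2 : Measure E3) (f '' s) = 0 := by
  apply muHE_two_curve_zero
  intro x hx
  obtain ⟨K, t, ht, hK⟩ := (hf x hx).hasStrictFDerivAt.exists_lipschitzOnWith
  exact ⟨K, t, mem_nhdsWithin_of_mem_nhds ht, hK⟩

/-- the plane -/
abbrev E2 : Type := EuclideanSpace ℝ (Fin 2)

/-- parametrisation of a surface of revolution -/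
noncomputable def Phi (X ρ : ℝ → ℝ) (p : E2) : E3 :=
  !₂[X (p 0), ρ (p 0) * Real.cos (p 1), ρ (p 0) * Real.sin (p 1)]

/-- its derivative -/
noncomputable def dPhi (ρ dX dρ : ℝ → ℝ) (p : E2) : E2 →L[ℝ] E3 :=
  (dX (p 0) • (EuclideanSpace.proj 0 : E2 →L[ℝ] ℝ)).smulRight (EuclideanSpace.single 0 (1 : ℝ)) +
  ((dρ (p 0) * Real.cos (p 1)) • (EuclideanSpace.proj 0 : E2 →L[ℝ] ℝ) +
    (-(ρ (p 0) * Real.sin (p 1))) • (EuclideanSpace.proj 1 : E2 →L[ℝ] ℝ)).smulRight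
      (EuclideanSpace.single 1 (1 : ℝ)) +
  ((dρ (p 0) * Real.sin (p 1)) • (EuclideanSpace.proj 0 : E2 →L[ℝ] ℝ) +
    (ρ (p 0) * Real.cos (p 1)) • (EuclideanSpace.proj 1 : E2 →L[ℝ] ℝ)).smulRight
      (EuclideanSpace.single 2 (1 : ℝ))

theorem Phi_eq (X ρ : ℝ → ℝ) : Phi X ρ = fun p : E2 =>
    X (p 0) • (EuclideanSpace.single 0 (1 : ℝ) : E3) +
    (ρ (p 0) * Real.cos (p 1)) • (EuclideanSpace.single 1 (1 : ℝ) : E3) +
    (ρ (p 0) * Real.sin (p 1)) • (EuclideanSpace.single 2 (1 : ℝ) : E3) := by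
  ext p i
  fin_cases i <;> simp [Phi]

theorem hasFDerivAt_Phi {X ρ dX dρ : ℝ → ℝ} {p : E2} (hX : HasDerivAt X (dX (p 0)) (p 0))
    (hρ : HasDerivAt ρ (dρ (p 0)) (p 0)) : HasFDerivAt (Phi X ρ) (dPhi ρ dX dρ p) p := by
  have h0 : HasFDerivAt (fun q : E2 => q 0) (EuclideanSpace.proj 0 : E2 →L[ℝ] ℝ) p :=
    (EuclideanSpace.proj 0 : E2 →L[ℝ] ℝ).hasFDerivAt
  have h1 : HasFDerivAt (fun q : E2 => q 1) (EuclideanSpace.proj 1 : E2 →L[ℝ] ℝ) p :=
    (EuclideanSpace.proj 1 : E2 →L[ℝ] ℝ).hasFDerivAt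
  have hXp : HasFDerivAt (fun q : E2 => X (q 0)) (dX (p 0) • (EuclideanSpace.proj 0 : E2 →L[ℝ] ℝ))
      p := hX.comp_hasFDerivAt p h0
  have hρp : HasFDerivAt (fun q : E2 => ρ (q 0)) (dρ (p 0) • (EuclideanSpace.proj 0 : E2 →L[ℝ] ℝ))
      p := hρ.comp_hasFDerivAt p h0
  have hcp : HasFDerivAt (fun q : E2 => Real.cos (q 1))
      ((-Real.sin (p 1)) • (EuclideanSpace.proj 1 : E2 →L[ℝ] ℝ)) p :=
    (Real.hasDerivAt_cos _).comp_hasFDerivAt p h1
  have hsp : HasFDerivAt (fun q : E2 => Real.sin (q 1))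
      ((Real.cos (p 1)) • (EuclideanSpace.proj 1 : E2 →L[ℝ] ℝ)) p :=
    (Real.hasDerivAt_sin _).comp_hasFDerivAt p h1
  have e1 := (hρp.mul hcp)
  have e2 := (hρp.mul hsp)
  rw [Phi_eq]
  have := ((hXp.smul_const (EuclideanSpace.single 0 (1 : ℝ) : E3)).add
    (e1.smul_const (EuclideanSpace.single 1 (1 : ℝ) : E3))).add
    (e2.smul_const (EuclideanSpace.single 2 (1 : ℝ) : E3))
  refine this.congr_fderiv ?_
  ext v i
  fin_cases i <;> simp [dPhi] <;> ring

theorem normDet_dPhi (ρ dX dρ : ℝ → ℝ) (p : E2) (hρ : 0 < ρ (p 0)) :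
    (dPhi ρ dX dρ p : E2 →ₗ[ℝ] E3).normDet = ρ (p 0) * √(dX (p 0) ^ 2 + dρ (p 0) ^ 2) := by
  have h1 := LinearMap.normDet_sq_eq_det_gram (dPhi ρ dX dρ p : E2 →ₗ[ℝ] E3)
    (EuclideanSpace.basisFun (Fin 2) ℝ)
  have h2 : ((dPhi ρ dX dρ p : E2 →ₗ[ℝ] E3).normDet ^ 2 : ℝ) =
      (Matrix.gram ℝ (fun i => (dPhi ρ dX dρ p : E2 →ₗ[ℝ] E3)
        (EuclideanSpace.basisFun (Fin 2) ℝ i))).det := by exact_mod_cast h1
  have h3 : (Matrix.gram ℝ (fun i => (dPhi ρ dX dρ p : E2 →ₗ[ℝ] E3)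
        (EuclideanSpace.basisFun (Fin 2) ℝ i))).det =
      (ρ (p 0)) ^ 2 * (dX (p 0) ^ 2 + dρ (p 0) ^ 2) := by
    rw [Matrix.det_fin_two]
    have hin : ∀ v w : E3, inner ℝ v w = v 0 * w 0 + v 1 * w 1 + v 2 * w 2 := by
      intro v w
      simp only [PiLp.inner_apply, Fin.sum_univ_three, RCLike.inner_apply, conj_trivial]
      ring
    have c0 : ∀ v : E2, (dPhi ρ dX dρ p v) 0 = dX (p 0) * v 0 := by
      intro v; simp [dPhi]
    have c1 : ∀ v : E2, (dPhi ρ dX dρ p v) 1 =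
        dρ (p 0) * Real.cos (p 1) * v 0 - ρ (p 0) * Real.sin (p 1) * v 1 := by
      intro v; simp [dPhi]; ring
    have c2 : ∀ v : E2, (dPhi ρ dX dρ p v) 2 =
        dρ (p 0) * Real.sin (p 1) * v 0 + ρ (p 0) * Real.cos (p 1) * v 1 := by
      intro v; simp [dPhi]
    simp only [Matrix.gram_apply, ContinuousLinearMap.coe_coe, hin, c0, c1, c2,
      EuclideanSpace.basisFun_apply]
    have hsc := Real.sin_sq_add_cos_sq (p 1)
    simp
    set c := Real.cos (p 1)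
    set s := Real.sin (p 1)
    have hs2 : s ^ 2 = 1 - c ^ 2 := by linarith
    ring_nf
    have hs4 : s ^ 4 = (1 - c ^ 2) ^ 2 := by rw [← hs2]; ring
    rw [hs4, hs2]
    ring
  rw [h3] at h2
  have h4 : (ρ (p 0) * √(dX (p 0) ^ 2 + dρ (p 0) ^ 2)) ^ 2 =
      (ρ (p 0)) ^ 2 * (dX (p 0) ^ 2 + dρ (p 0) ^ 2) := by
    rw [mul_pow, Real.sq_sqrt (by positivity)]
  rw [← h4] at h2
  exact (sq_eq_sq₀ (LinearMap.normDet_nonneg _) (by positivity)).1 h2

/-- the derivative is continuous -/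
theorem continuousOn_dPhi {ρ dX dρ : ℝ → ℝ} {l r : ℝ} (hρ : ContinuousOn ρ (Ioo l r))
    (hdX : ContinuousOn dX (Ioo l r)) (hdρ : ContinuousOn dρ (Ioo l r)) :
    ContinuousOn (dPhi ρ dX dρ) {p : E2 | p 0 ∈ Ioo l r} := by
  have h0 : ContinuousOn (fun p : E2 => p 0) {p : E2 | p 0 ∈ Ioo l r} := by fun_prop
  have h1 : ContinuousOn (fun p : E2 => p 1) {p : E2 | p 0 ∈ Ioo l r} := by fun_prop
  have hm : MapsTo (fun p : E2 => p 0) {p : E2 | p 0 ∈ Ioo l r} (Ioo l r) := fun p hp => hp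
  have a1 := hdX.comp h0 hm
  have a2 := hdρ.comp h0 hm
  have a3 := hρ.comp h0 hm
  have a4 : ContinuousOn (fun p : E2 => Real.cos (p 1)) {p : E2 | p 0 ∈ Ioo l r} :=
    Real.continuous_cos.comp_continuousOn h1
  have a5 : ContinuousOn (fun p : E2 => Real.sin (p 1)) {p : E2 | p 0 ∈ Ioo l r} :=
    Real.continuous_sin.comp_continuousOn h1
  have hsm : ∀ e : E3, Continuous (fun L : E2 →L[ℝ] ℝ => L.smulRight e) := by
    intro e
    exact (ContinuousLinearMap.smulRightL ℝ E2 E3).flip e |>.continuous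
  have b1 : ContinuousOn (fun p : E2 => dX (p 0) • (EuclideanSpace.proj 0 : E2 →L[ℝ] ℝ))
    {p : E2 | p 0 ∈ Ioo l r} := a1.smul continuousOn_const
  have b2 : ContinuousOn (fun p : E2 => (dρ (p 0) * Real.cos (p 1)) •
      (EuclideanSpace.proj 0 : E2 →L[ℝ] ℝ) +
    (-(ρ (p 0) * Real.sin (p 1))) • (EuclideanSpace.proj 1 : E2 →L[ℝ] ℝ))
    {p : E2 | p 0 ∈ Ioo l r} :=
    ((a2.mul a4).smul continuousOn_const).add ((a3.mul a5).neg.smul continuousOn_const)
  have b3 : ContinuousOn (fun p : E2 => (dρ (p 0) * Real.sin (p 1)) •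
      (EuclideanSpace.proj 0 : E2 →L[ℝ] ℝ) +
    (ρ (p 0) * Real.cos (p 1)) • (EuclideanSpace.proj 1 : E2 →L[ℝ] ℝ))
    {p : E2 | p 0 ∈ Ioo l r} :=
    ((a2.mul a5).smul continuousOn_const).add ((a3.mul a4).smul continuousOn_const)
  exact (((hsm _).comp_continuousOn b1).add ((hsm _).comp_continuousOn b2)).add
    ((hsm _).comp_continuousOn b3)

/-- the parameter domain -/
def Om2 (l r : ℝ) : Set E2 := {p | p 0 ∈ Ioo l r ∧ p 1 ∈ Ioo (-π) π}

theorem isOpen_Om2 (l r : ℝ) : IsOpen (Om2 l r) := by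
  have h0 : Continuous (fun p : E2 => p 0) := by fun_prop
  have h1 : Continuous (fun p : E2 => p 1) := by fun_prop
  exact (isOpen_Ioo.preimage h0).inter (isOpen_Ioo.preimage h1)

theorem injOn_Phi {X ρ : ℝ → ℝ} {l r : ℝ} (hρ : ∀ t ∈ Ioo l r, 0 < ρ t)
    (hX : InjOn X (Ioo l r)) : InjOn (Phi X ρ) (Om2 l r) := by
  intro p hp q hq hpq
  have e0 : X (p 0) = X (q 0) := by simpa [Phi] using congrArg (fun v : E3 => v 0) hpq
  have e1 : ρ (p 0) * Real.cos (p 1) = ρ (q 0) * Real.cos (q 1) := by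
    simpa [Phi] using congrArg (fun v : E3 => v 1) hpq
  have e2 : ρ (p 0) * Real.sin (p 1) = ρ (q 0) * Real.sin (q 1) := by
    simpa [Phi] using congrArg (fun v : E3 => v 2) hpq
  have h0 : p 0 = q 0 := hX hp.1 hq.1 e0
  have hpt : ((ρ (p 0), p 1) : ℝ × ℝ) ∈ polarCoord.target := ⟨hρ _ hp.1, hp.2⟩
  have hqt : ((ρ (q 0), q 1) : ℝ × ℝ) ∈ polarCoord.target := ⟨hρ _ hq.1, hq.2⟩
  have hinj : ((ρ (p 0), p 1) : ℝ × ℝ) = (ρ (q 0), q 1) := by
    apply polarCoord.symm.injOn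
    · exact hpt
    · exact hqt
    · simp only [polarCoord_symm_apply]
      rw [e1, e2]
  have h1 : p 1 = q 1 := congrArg Prod.snd hinj
  ext i
  fin_cases i
  · exact h0
  · exact h1

/-- the surface is the image of the parameter domain up to a curve -/
theorem surface_eq {X ρ : ℝ → ℝ} {l r : ℝ} (hρ : ∀ t ∈ Ioo l r, 0 < ρ t) :
    {P : E3 | ∃ t ∈ Ioo l r, P 0 = X t ∧ vr P = ρ t} =
      Phi X ρ '' Om2 l r ∪ (fun t : ℝ => (!₂[X t, -ρ t, 0] : E3)) '' Ioo l r := by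
  ext P
  constructor
  · rintro ⟨t, ht, h0, hv⟩
    have hv' : √(P 1 ^ 2 + P 2 ^ 2) = ρ t := hv
    by_cases hs : ((P 1, P 2) : ℝ × ℝ) ∈ polarCoord.source
    · left
      have hl := polarCoord.left_inv hs
      have ht' := polarCoord.map_source hs
      have h1 : (polarCoord (P 1, P 2)).1 = ρ t := hv'
      refine ⟨!₂[t, (polarCoord (P 1, P 2)).2], ⟨by simpa using ht, by simpa using ht'.2⟩, ?_⟩
      rw [polarCoord_symm_apply, h1] at hl
      have e1 : ρ t * Real.cos (polarCoord (P 1, P 2)).2 = P 1 := congrArg Prod.fst hl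
      have e2 : ρ t * Real.sin (polarCoord (P 1, P 2)).2 = P 2 := congrArg Prod.snd hl
      ext i
      fin_cases i
      · simp [Phi, h0]
      · simpa [Phi] using e1
      · simpa [Phi] using e2
    · right
      have hs' : ¬ (0 < P 1 ∨ P 2 ≠ 0) := hs
      push Not at hs'
      refine ⟨t, ht, ?_⟩
      have h1 : -ρ t = P 1 := by
        rw [← hv', hs'.2]
        simp [Real.sqrt_sq_eq_abs, abs_of_nonpos hs'.1]
      ext i
      fin_cases i
      · simp [h0]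
      · simpa using h1
      · simpa using hs'.2.symm
  · rintro (⟨p, hp, rfl⟩ | ⟨t, ht, rfl⟩)
    · refine ⟨p 0, hp.1, by simp [Phi], ?_⟩
      have h1 : 0 < ρ (p 0) := hρ _ hp.1
      have : (ρ (p 0) * Real.cos (p 1)) ^ 2 + (ρ (p 0) * Real.sin (p 1)) ^ 2 = ρ (p 0) ^ 2 := by
        have := Real.sin_sq_add_cos_sq (p 1)
        linear_combination (ρ (p 0)) ^ 2 * this
      simp [vr, Phi, this, h1.le]
    · refine ⟨t, ht, by simp, ?_⟩
      have h1 : 0 < ρ t := hρ _ ht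
      simp [vr, h1.le]

theorem meas_inter {X ρ : ℝ → ℝ} {l r : ℝ} (hc : ContinuousOn (Phi X ρ) (Om2 l r))
    {H : Set E3} (hH : MeasurableSet H) : MeasurableSet (Om2 l r ∩ Phi X ρ ⁻¹' H) := by
  have h1 : Measurable ((Om2 l r).domRestrict (Phi X ρ)) :=
    (continuousOn_iff_continuous_domRestrict.1 hc).measurable
  have h2 := (isOpen_Om2 l r).measurableSet.subtype_image (h1 hH)
  convert h2 using 1
  ext p
  constructor
  · rintro ⟨hp, hq⟩
    exact ⟨⟨p, hp⟩, hq, rfl⟩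
  · rintro ⟨⟨q, hq⟩, hq', rfl⟩
    exact ⟨hq, hq'⟩

/-- **area formula for surfaces of revolution** -/
theorem AF : S_AF := by
  intro X ρ dX dρ l r hlr hX hρ hdX hdρ hρpos hdX0 hinj H hH
  have hρc : ContinuousOn ρ (Ioo l r) := fun t ht => (hρ t ht).continuousAt.continuousWithinAt
  have hXc : ContinuousOn X (Ioo l r) := fun t ht => (hX t ht).continuousAt.continuousWithinAt
  rw [surface_eq hρpos, union_inter_distrib_right]
  set N := (fun t : ℝ => (!₂[X t, -ρ t, 0] : E3)) '' Ioo l r with hNdef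
  -- the curve is null
  have hN : (euclideanHausdorffMeasure 2 : Measure E3) N = 0 := by
    apply muHE_two_curve_zero'
      (f' := fun t => dX t • (EuclideanSpace.single 0 (1 : ℝ) : E3) +
        (-dρ t) • (EuclideanSpace.single 1 (1 : ℝ) : E3))
    intro t ht
    have hnt : Ioo l r ∈ 𝓝 t := isOpen_Ioo.mem_nhds ht
    have h1 : HasStrictDerivAt X (dX t) t :=
      hasStrictDerivAt_of_hasDerivAt_of_continuousAt
        (by filter_upwards [hnt] with y hy using hX y hy) (hdX.continuousAt hnt)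
    have h2 : HasStrictDerivAt ρ (dρ t) t :=
      hasStrictDerivAt_of_hasDerivAt_of_continuousAt
        (by filter_upwards [hnt] with y hy using hρ y hy) (hdρ.continuousAt hnt)
    have h3 := (h1.smul_const (EuclideanSpace.single 0 (1 : ℝ) : E3)).add
      (h2.neg.smul_const (EuclideanSpace.single 1 (1 : ℝ) : E3))
    have e : (fun t : ℝ => (!₂[X t, -ρ t, 0] : E3)) = fun t =>
        X t • (EuclideanSpace.single 0 (1 : ℝ) : E3) +
        (-ρ t) • (EuclideanSpace.single 1 (1 : ℝ) : E3) := by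
      ext t i
      fin_cases i <;> simp
    rw [e]
    exact h3
  have hN' : (euclideanHausdorffMeasure 2 : Measure E3) (N ∩ H) = 0 :=
    measure_mono_null inter_subset_left hN
  have hun : (euclideanHausdorffMeasure 2 : Measure E3) (Phi X ρ '' Om2 l r ∩ H ∪ N ∩ H) =
      (euclideanHausdorffMeasure 2 : Measure E3) (Phi X ρ '' Om2 l r ∩ H) := by
    apply le_antisymm
    · calc _ ≤ (euclideanHausdorffMeasure 2 : Measure E3) (Phi X ρ '' Om2 l r ∩ H) +
          (euclideanHausdorffMeasure 2 : Measure E3) (N ∩ H) := measure_union_le _ _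
        _ = _ := by rw [hN', add_zero]
    · exact measure_mono subset_union_left
  rw [hun, ← image_inter_preimage]
  -- area formula
  have hder : ∀ p ∈ Om2 l r, HasFDerivAt (Phi X ρ) (dPhi ρ dX dρ p) p := fun p hp =>
    hasFDerivAt_Phi (hX _ hp.1) (hρ _ hp.1)
  have hPc : ContinuousOn (Phi X ρ) (Om2 l r) :=
    fun p hp => (hder p hp).continuousAt.continuousWithinAt
  have hdc : ContinuousOn (dPhi ρ dX dρ) (Om2 l r) :=
    (continuousOn_dPhi hρc hdX hdρ).mono (fun p hp => hp.1)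
  have hnd : ∀ p ∈ Om2 l r, (dPhi ρ dX dρ p : E2 →ₗ[ℝ] E3).normDet =
      ρ (p 0) * √(dX (p 0) ^ 2 + dρ (p 0) ^ 2) := fun p hp =>
    normDet_dPhi ρ dX dρ p (hρpos _ hp.1)
  have hdi : ∀ p ∈ Om2 l r, Function.Injective (dPhi ρ dX dρ p) := by
    intro p hp
    have h1 : (dPhi ρ dX dρ p : E2 →ₗ[ℝ] E3).normDet ≠ 0 := by
      rw [hnd p hp]
      have h2 := hρpos _ hp.1
      have h3 : 0 < dX (p 0) ^ 2 + dρ (p 0) ^ 2 := by
        have := sq_pos_of_ne_zero (hdX0 _ hp.1)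
        positivity
      have h4 := Real.sqrt_pos.2 h3
      positivity
    have h2 : LinearMap.ker (dPhi ρ dX dρ p : E2 →ₗ[ℝ] E3) = ⊥ := by
      by_contra hcon
      exact h1 (LinearMap.normDet_eq_zero_iff_ker_ne_bot.2 hcon)
    exact LinearMap.ker_eq_bot.1 h2
  have hS : MeasurableSet (Om2 l r ∩ Phi X ρ ⁻¹' H) := meas_inter hPc hH
  have hA := area_formula (Phi X ρ) (dPhi ρ dX dρ) (isOpen_Om2 l r) hder hdc hdi
    (injOn_Phi hρpos hinj) hS inter_subset_left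
  have hfr : finrank ℝ E2 = 2 := by simp
  rw [hfr] at hA
  rw [hA]
  -- transfer to the product
  set F : ℝ × ℝ → ℝ≥0∞ := fun z => ENNReal.ofReal (ρ z.1 * √(dX z.1 ^ 2 + dρ z.1 ^ 2)) *
    H.indicator 1 (!₂[X z.1, ρ z.1 * Real.cos z.2, ρ z.1 * Real.sin z.2] : E3) with hF
  set e : E2 ≃ᵐ ℝ × ℝ := (MeasurableEquiv.toLp 2 (Fin 2 → ℝ)).symm.trans
    MeasurableEquiv.finTwoArrow with he
  have hev : ∀ p : E2, e p = (p 0, p 1) := fun p => rfl
  have hmp : MeasurePreserving e volume volume :=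
    (volume_preserving_finTwoArrow ℝ).comp
      (EuclideanSpace.volume_preserving_symm_measurableEquiv_toLp (Fin 2))
  have hpre : e ⁻¹' (Ioo l r ×ˢ Ioo (-π) π) = Om2 l r := by
    ext p
    simp only [mem_preimage, hev, mem_prod]
    rfl
  have h1 : ∫⁻ x in Om2 l r ∩ Phi X ρ ⁻¹' H,
      ENNReal.ofReal (dPhi ρ dX dρ x : E2 →ₗ[ℝ] E3).normDet = ∫⁻ x in Om2 l r, F (e x) := by
    rw [← lintegral_indicator hS, ← lintegral_indicator (isOpen_Om2 l r).measurableSet]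
    apply lintegral_congr
    intro p
    by_cases hp : p ∈ Om2 l r
    · by_cases hq : Phi X ρ p ∈ H
      · have hpq : p ∈ Om2 l r ∩ Phi X ρ ⁻¹' H := ⟨hp, hq⟩
        rw [indicator_of_mem hpq, indicator_of_mem hp, hnd p hp]
        have hq' : (!₂[X (p 0), ρ (p 0) * Real.cos (p 1), ρ (p 0) * Real.sin (p 1)] : E3) ∈ H := hq
        simp only [hF, hev]
        rw [indicator_of_mem hq', Pi.one_apply, mul_one]
      · have hpq : p ∉ Om2 l r ∩ Phi X ρ ⁻¹' H := fun h => hq h.2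
        rw [indicator_of_notMem hpq, indicator_of_mem hp]
        have hq' : (!₂[X (p 0), ρ (p 0) * Real.cos (p 1), ρ (p 0) * Real.sin (p 1)] : E3) ∉ H := hq
        simp only [hF, hev]
        rw [indicator_of_notMem hq', mul_zero]
    · have hpq : p ∉ Om2 l r ∩ Phi X ρ ⁻¹' H := fun h => hp h.1
      rw [indicator_of_notMem hpq, indicator_of_notMem hp]
  rw [h1, ← hpre, hmp.setLIntegral_comp_preimage_emb e.measurableEmbedding]
  rw [Measure.volume_eq_prod, ← Measure.prod_restrict, lintegral_prod]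
  -- measurability
  rw [Measure.prod_restrict, ← Measure.volume_eq_prod]
  have hms : MeasurableSet (Ioo l r ×ˢ Ioo (-π) π : Set (ℝ × ℝ)) :=
    measurableSet_Ioo.prod measurableSet_Ioo
  have hm1 : MapsTo (fun z : ℝ × ℝ => z.1) (Ioo l r ×ˢ Ioo (-π) π) (Ioo l r) := fun z hz => hz.1
  have c1 := hρc.comp continuous_fst.continuousOn hm1
  have c2 := hXc.comp continuous_fst.continuousOn hm1
  have c3 := hdX.comp continuous_fst.continuousOn hm1
  have c4 := hdρ.comp continuous_fst.continuousOn hm1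
  have c5 : ContinuousOn (fun z : ℝ × ℝ => Real.cos z.2) (Ioo l r ×ˢ Ioo (-π) π) := by fun_prop
  have c6 : ContinuousOn (fun z : ℝ × ℝ => Real.sin z.2) (Ioo l r ×ˢ Ioo (-π) π) := by fun_prop
  apply AEMeasurable.mul
  · apply AEMeasurable.ennreal_ofReal
    apply ContinuousOn.aemeasurable _ hms
    exact c1.mul (Real.continuous_sqrt.comp_continuousOn ((c3.pow 2).add (c4.pow 2)))
  · have hΨ : ContinuousOn (fun z : ℝ × ℝ =>
        (!₂[X z.1, ρ z.1 * Real.cos z.2, ρ z.1 * Real.sin z.2] : E3))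
        (Ioo l r ×ˢ Ioo (-π) π) := by
      apply (PiLp.continuous_toLp 2 _).comp_continuousOn
      apply continuousOn_pi.2
      intro i
      fin_cases i
      · exact c2
      · exact c1.mul c5
      · exact c1.mul c6
    exact (measurable_one.indicator hH).comp_aemeasurable (hΨ.aemeasurable hms)

end Pool.Agent.HV
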