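import Pool.Agent.HV.Stmts

/-!
# MP_678b51_gt, module HV_B0   (helper55)

The centre of the ball is in the ball, and `g0` is in the class with constant `3/2`.
-/

set_option autoImplicit false

open MeasureTheory Set Filter
open scoped Real Topology ENNReal

namespace Pool.Agent.HV

namespace B0aux

lemma Om_mono : Monotone Om := by
  intro a b hab
  unfold Om
  have h1 : √a ≤ √b := Real.sqrt_le_sqrt hab
  have h2 : √(1 / 2 - b) ≤ √(1 / 2 - a) := Real.sqrt_le_sqrt (by linarith)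
  have h3 : √(1 - b) ≤ √(1 - a) := Real.sqrt_le_sqrt (by linarith)
  linarith

lemma Om_cont : Continuous Om := by
  unfold Om
  fun_prop

lemma sqrt_half_bd (t : ℝ) (ht : t ≤ 1 / 2) : 0 ≤ √(t / 2) ∧ √(t / 2) ≤ 1 / 2 := by
  refine ⟨Real.sqrt_nonneg _, ?_⟩
  rw [Real.sqrt_le_left (by norm_num)]
  linarith

lemma fL_bd (t : ℝ) (ht : t ≤ 1 / 2) : |fL 0 t| ≤ 1 / 10 := by
  obtain ⟨h0, h1⟩ := sqrt_half_bd t ht
  unfold fL fL0 bb
  rw [abs_le]
  constructor <;> linarith

lemma fp_bd (t : ℝ) : |fp 0 t| ≤ 1 / 10 := by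
  unfold fp
  split_ifs with h
  · exact fL_bd t h.le
  · unfold bb
    norm_num [abs_of_pos]

lemma fp_meas : Measurable (fp 0) := by
  unfold fp
  refine Measurable.ite measurableSet_Iio ?_ measurable_const
  unfold fL fL0
  fun_prop

/-- increments of `Cop (fp 0)` on `[0,1]` -/
lemma inc (hK2 : S_K2) (a b : ℝ) (ha : 0 ≤ a) (hab : a ≤ b) (hb : b ≤ 1) :
    |3 / 2 * Cop (fp 0) b - 3 / 2 * Cop (fp 0) a| ≤ 3 / 2 * (Om b - Om a) := by
  have hL : ∀ a b : ℝ, 0 ≤ a → a ≤ b → b ≤ 1 / 2 →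
      |fL 0 b - fL 0 a| ≤ 1 / 10 * (√b - √a) := by
    intro a b ha hab _
    have h1 : √(b / 2) = √b / √2 := Real.sqrt_div (by linarith) 2
    have h2 : √(a / 2) = √a / √2 := Real.sqrt_div (by linarith) 2
    have h3 : √a ≤ √b := Real.sqrt_le_sqrt hab
    have h4 : (1 : ℝ) ≤ √2 := by
      rw [Real.one_le_sqrt]
      norm_num
    have h5 : √(b / 2) - √(a / 2) ≤ √b - √a := by
      rw [h1, h2, ← sub_div]
      exact div_le_self (by linarith) h4
    have h6 : √(a / 2) ≤ √(b / 2) := Real.sqrt_le_sqrt (by linarith)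
    have h7 : fL 0 b - fL 0 a = -(7 / 100 * (√(b / 2) - √(a / 2))) := by
      unfold fL fL0 bb
      ring
    rw [h7, abs_neg, abs_of_nonneg (by linarith)]
    linarith
  have h := hK2 (fL 0) (fun _ => -bb) (1 / 10) (by norm_num) (fun t _ ht => fL_bd t ht)
    (fun t _ _ => by
      unfold bb
      norm_num [abs_of_pos]) hL
    (fun a b ha hab _ => by
      have h3 : √a ≤ √b := Real.sqrt_le_sqrt hab
      rw [sub_self, abs_zero]
      linarith) a b ha hab hb
  have h' : |Cop (fp 0) b - Cop (fp 0) a| ≤ 17 / 2 * (1 / 10) * (Om b - Om a) := h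
  have hm : 0 ≤ Om b - Om a := by linarith [Om_mono hab]
  rw [← mul_sub, abs_mul, abs_of_pos (by norm_num : (0 : ℝ) < 3 / 2)]
  nlinarith

lemma Cop_zero (g : ℝ → ℝ) : Cop g 0 = 0 := by
  unfold Cop
  simp

lemma Cop_one (g : ℝ → ℝ) : Cop g 1 = 0 := by
  unfold Cop Aop
  simp

lemma g0_of_nonneg (t : ℝ) (h0 : 0 ≤ t) (h1 : t ≤ 1) : g0 t = 3 / 2 * Cop (fp 0) t := by
  unfold g0 oddext
  rw [if_pos h0]
  rcases h1.lt_or_eq with h | h
  · simp only [if_pos h]
  · subst h
    simp [Cop_one]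

lemma g0_of_one_le (t : ℝ) (h1 : 1 ≤ t) : g0 t = 0 := by
  unfold g0 oddext
  rw [if_pos (by linarith)]
  simp only [if_neg (not_lt.mpr h1)]

lemma g0_neg (t : ℝ) : g0 (-t) = -g0 t := by
  rcases lt_trichotomy t 0 with h | h | h
  · unfold g0 oddext
    rw [if_pos (by linarith : 0 ≤ -t), if_neg (not_le.mpr h), neg_neg]
  · subst h
    rw [neg_zero, g0_of_nonneg 0 le_rfl zero_le_one, Cop_zero]
    simp
  · unfold g0 oddext
    rw [if_neg (by linarith : ¬ 0 ≤ -t), if_pos h.le, neg_neg]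

lemma H_cont (hK2 : S_K2) : ContinuousOn (fun t => 3 / 2 * Cop (fp 0) t) (Icc 0 1) := by
  have key : ∀ x ∈ Icc (0 : ℝ) 1, ∀ y ∈ Icc (0 : ℝ) 1,
      |3 / 2 * Cop (fp 0) y - 3 / 2 * Cop (fp 0) x| ≤ 3 / 2 * |Om y - Om x| := by
    intro x hx y hy
    rcases le_total x y with h | h
    · refine (inc hK2 x y hx.1 h hy.2).trans ?_
      have := le_abs_self (Om y - Om x)
      linarith
    · rw [abs_sub_comm, abs_sub_comm (Om y)]
      refine (inc hK2 y x hy.1 h hx.2).trans ?_
      have := le_abs_self (Om x - Om y)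
      linarith
  intro x hx
  have h1 : Tendsto (fun y => 3 / 2 * |Om y - Om x|) (𝓝[Icc 0 1] x) (𝓝 0) := by
    have h2 : Continuous fun y => 3 / 2 * |Om y - Om x| :=
      continuous_const.mul (Om_cont.sub continuous_const).abs
    have h3 := (h2.tendsto x).mono_left (nhdsWithin_le_nhds (s := Icc (0 : ℝ) 1))
    simpa using h3
  have h4 : Tendsto (fun y => 3 / 2 * Cop (fp 0) y - 3 / 2 * Cop (fp 0) x)
      (𝓝[Icc 0 1] x) (𝓝 0) := by
    refine squeeze_zero_norm' ?_ h1
    filter_upwards [self_mem_nhdsWithin] with y hy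
    rw [Real.norm_eq_abs]
    exact key x hx y hy
  have h5 := h4.add_const (3 / 2 * Cop (fp 0) x)
  simpa [ContinuousWithinAt] using h5

lemma g0_cont (hK2 : S_K2) : Continuous g0 := by
  have hc : Continuous fun t : ℝ => max 0 (min t 1) := by fun_prop
  have hcm : ∀ t : ℝ, max 0 (min t 1) ∈ Icc (0 : ℝ) 1 := by
    intro t
    exact ⟨le_max_left _ _, max_le zero_le_one (min_le_right _ _)⟩
  have hH : Continuous fun t : ℝ => 3 / 2 * Cop (fp 0) (max 0 (min t 1)) :=
    (H_cont hK2).comp_continuous hc hcm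
  have he : g0 = fun t : ℝ => 3 / 2 * Cop (fp 0) (max 0 (min t 1)) -
      3 / 2 * Cop (fp 0) (max 0 (min (-t) 1)) := by
    have hpos : ∀ t : ℝ, 0 ≤ t → g0 t = 3 / 2 * Cop (fp 0) (max 0 (min t 1)) := by
      intro t ht
      rcases le_total t 1 with h1 | h1
      · rw [min_eq_left h1, max_eq_right ht, g0_of_nonneg t ht h1]
      · rw [min_eq_right h1, max_eq_right zero_le_one, Cop_one, g0_of_one_le t h1]
        simp
    have hneg : ∀ t : ℝ, t ≤ 0 → 3 / 2 * Cop (fp 0) (max 0 (min t 1)) = 0 := by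
      intro t ht
      rw [min_eq_left (by linarith), max_eq_left ht, Cop_zero]
      simp
    funext t
    rcases le_total 0 t with ht | ht
    · rw [hpos t ht, hneg (-t) (by linarith), sub_zero]
    · have h1 := g0_neg (-t)
      rw [neg_neg] at h1
      rw [h1, hpos (-t) (by linarith), hneg t ht, zero_sub]
  rw [he]
  exact hH.sub (hH.comp continuous_neg)

lemma int_sq_sqrt : ∫ s in (0 : ℝ)..(1 / 2), s ^ 2 * √(s / 2) = 1 / 56 := by
  have hF : ∀ x ∈ Ioo (0 : ℝ) (1 / 2),
      HasDerivAt (fun s : ℝ => 2 / 7 * (s ^ 3 * √(s / 2))) (x ^ 2 * √(x / 2)) x := by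
    intro x hx
    have hx0 : 0 < x / 2 := by
      have := hx.1
      linarith
    have h1 : HasDerivAt (fun s : ℝ => √(s / 2)) (1 / 2 / (2 * √(x / 2))) x :=
      ((hasDerivAt_id x).div_const 2).sqrt hx0.ne'
    have h2 : HasDerivAt (fun s : ℝ => s ^ 3) (3 * x ^ 2) x := by
      simpa using hasDerivAt_pow 3 x
    have h3 := (h2.mul h1).const_mul (2 / 7 : ℝ)
    refine h3.congr_deriv ?_
    have hs : 0 < √(x / 2) := Real.sqrt_pos.mpr hx0
    have hs2 : √(x / 2) * √(x / 2) = x / 2 := Real.mul_self_sqrt hx0.le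
    have h4 : x ^ 3 * (1 / 2 / (2 * √(x / 2))) = x ^ 2 * √(x / 2) / 2 := by
      field_simp
      have : √(x / 2) ^ 2 = x / 2 := by rw [sq]; exact hs2
      rw [this]
      ring
    rw [h4]
    ring
  have hc : Continuous fun s : ℝ => 2 / 7 * (s ^ 3 * √(s / 2)) := by fun_prop
  have hi : Continuous fun s : ℝ => s ^ 2 * √(s / 2) := by fun_prop
  rw [intervalIntegral.integral_eq_sub_of_hasDerivAt_of_le (by norm_num) hc.continuousOn hF
    (hi.intervalIntegrable _ _)]
  have h1 : √((1 : ℝ) / 2 / 2) = 1 / 2 := by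
    rw [Real.sqrt_eq_iff_mul_self_eq (by norm_num) (by norm_num)]
    norm_num
  rw [h1]
  norm_num

lemma mom : ∫ s in (0 : ℝ)..1, s ^ 2 * fp 0 s = 0 := by
  have hint : ∀ a b : ℝ, IntervalIntegrable (fun s => s ^ 2 * fp 0 s) volume a b := by
    intro a b
    have hc : Continuous fun s : ℝ => s ^ 2 := by fun_prop
    refine IntervalIntegrable.continuousOn_mul ?_ hc.continuousOn
    refine (intervalIntegrable_const (c := (1 / 10 : ℝ))).mono_fun
      fp_meas.aestronglyMeasurable ?_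
    refine Eventually.of_forall fun t => ?_
    simp only [Real.norm_eq_abs]
    exact (fp_bd t).trans (le_abs_self _)
  rw [← intervalIntegral.integral_add_adjacent_intervals (hint 0 (1 / 2)) (hint (1 / 2) 1)]
  have h1 : ∫ s in (0 : ℝ)..(1 / 2), s ^ 2 * fp 0 s =
      ∫ s in (0 : ℝ)..(1 / 2), (1 / 10 * s ^ 2 - 7 / 100 * (s ^ 2 * √(s / 2))) := by
    refine intervalIntegral.integral_congr_Ioo_of_le (by norm_num) ?_
    intro s hs
    simp only [fp, if_pos hs.2]
    unfold fL fL0 bb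
    ring
  have h2 : ∫ s in (1 / 2 : ℝ)..1, s ^ 2 * fp 0 s =
      ∫ s in (1 / 2 : ℝ)..1, (-(1 / 100) * s ^ 2) := by
    refine intervalIntegral.integral_congr ?_
    intro s hs
    rw [uIcc_of_le (by norm_num)] at hs
    simp only [fp, if_neg (not_lt.mpr hs.1)]
    unfold bb
    ring
  rw [h1, h2]
  have hc1 : Continuous fun s : ℝ => 1 / 10 * s ^ 2 := by fun_prop
  have hc2 : Continuous fun s : ℝ => 7 / 100 * (s ^ 2 * √(s / 2)) := by fun_prop
  rw [intervalIntegral.integral_sub (hc1.intervalIntegrable _ _) (hc2.intervalIntegrable _ _),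
    intervalIntegral.integral_const_mul, intervalIntegral.integral_const_mul,
    intervalIntegral.integral_const_mul, int_sq_sqrt, integral_pow, integral_pow]
  norm_num

end B0aux

open B0aux in
/-- module `HV_B0` -/
theorem B0 (hK2 : S_K2) (hAC : S_AC) : S_B0 := by
  refine ⟨?_, ?_⟩
  · intro K₁ K₂ K₃ δ h1 h2 h3 hδ
    have hsq : ∀ a b : ℝ, a ≤ b → 0 ≤ √b - √a := fun a b hab => by
      linarith [Real.sqrt_le_sqrt hab]
    refine ⟨⟨g0_cont hK2, g0_neg, g0_of_one_le, ?_⟩, ?_, ?_, ?_, ?_, ?_, ?_⟩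
    · have hA := (hAC (fp 0) (1 / 10) fp_meas fp_bd).2
      have h4 : ∫ t in (0 : ℝ)..1, t * g0 t = ∫ t in (0 : ℝ)..1, 3 / 2 * (t * Cop (fp 0) t) := by
        refine intervalIntegral.integral_congr ?_
        intro t ht
        rw [uIcc_of_le zero_le_one] at ht
        simp only [g0_of_nonneg t ht.1 ht.2]
        ring
      rw [mom, mul_zero] at hA
      show ∫ t in (0 : ℝ)..1, t * g0 t = 0
      rw [h4, intervalIntegral.integral_const_mul, hA, mul_zero]
    · intro a b _ hab _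
      simp only [sub_self, abs_zero]
      exact mul_nonneg (mul_nonneg h2 hδ) (by linarith [Om_mono hab])
    · simp only [abs_zero]
      exact mul_nonneg h1 hδ
    · intro t _ _
      simp only [sub_self, abs_zero]
      exact mul_nonneg h3 hδ
    · intro t _ _
      simp only [sub_self, abs_zero]
      exact mul_nonneg h3 hδ
    · intro a b _ hab _
      simp only [sub_self, abs_zero]
      exact mul_nonneg (mul_nonneg h3 hδ) (hsq a b hab)
    · intro a b _ hab _
      simp only [sub_self, abs_zero]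
      exact mul_nonneg (mul_nonneg h3 hδ) (hsq a b hab)
  · intro a b ha hab hb
    rw [g0_of_nonneg b (ha.trans hab) hb, g0_of_nonneg a ha (hab.trans hb)]
    exact inc hK2 a b ha hab hb

end Pool.Agent.HV
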