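import Pool.Agent.HV.Stmts

/-!
# Module CA for MP_678b51_gt, Q2 (§4.6 of the paper)

The function `𝒦` vanishes at `0` and `1` and is Lipschitz with constant `C δ`.
-/

set_option autoImplicit false

open MeasureTheory Set Filter
open scoped Real Topology ENNReal

namespace Pool.Agent.HV

namespace CAaux

/-- the integrand of `Kce` -/
noncomputable def phi (δ : ℝ) (S : St) (e t r : ℝ) : ℝ :=
  yr δ S e t r * (xr δ r - e * δ ^ 3 * da S t) ^ 2 / wr δ S e t r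

/-- derivative of the integrand -/
noncomputable def dphi (δ : ℝ) (S : St) (e t r : ℝ) : ℝ :=
  r ^ 2 * (xr δ r - e * δ ^ 3 * da S t) ^ 3 / wr δ S e t r ^ 3 -
    2 * (e * δ ^ 3 * S.g t) * yr δ S e t r * (xr δ r - e * δ ^ 3 * da S t) / wr δ S e t r

theorem xr_bd {δ r : ℝ} (hδ : 0 < δ) (h3 : 3 ≤ r) (hr : r ≤ Rh δ) : 0 ≤ xr δ r ∧ xr δ r ≤ 3 := by
  have h : δ * r ≤ δ * Rh δ := mul_le_mul_of_nonneg_left hr hδ.le
  have e : δ * Rh δ = 3 * δ + 4 := by simp only [Rh]; field_simp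
  have h' : 0 ≤ δ * (r - 3) := mul_nonneg hδ.le (by linarith)
  simp only [xr]
  constructor <;> nlinarith

theorem sq_lb {δ : ℝ} {S : St} (fB : FactsB δ S) {e : ℝ} (he : e = 1 ∨ e = -1) {t r : ℝ}
    (ht0 : 0 ≤ t) (ht1 : t ≤ 1) (h3 : 3 < r) (hr : r ≤ Rh δ) :
    √(r * ((r - 3) + 2 * (1 - t))) ≤ wr δ S e t r :=
  Real.sqrt_le_sqrt (fB.wr_lb e he t r ht0 ht1 h3.le hr)

theorem m_pos {t r : ℝ} (ht1 : t ≤ 1) (h3 : 3 < r) : 0 < r * ((r - 3) + 2 * (1 - t)) :=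
  mul_pos (by linarith) (by linarith)

theorem hasDerivAt_phi {δ : ℝ} {S : St} (fA : FactsA S) (fB : FactsB δ S) {e : ℝ}
    (he : e = 1 ∨ e = -1) {t r : ℝ} (ht0 : 0 ≤ t) (ht1 : t ≤ 1) (h3 : 3 < r) (hr : r ≤ Rh δ) :
    HasDerivAt (fun t => phi δ S e t r) (dphi δ S e t r) t := by
  have hw2 : 0 < r ^ 2 - yr δ S e t r ^ 2 :=
    lt_of_lt_of_le (m_pos ht1 h3) (fB.wr_lb e he t r ht0 ht1 h3.le hr)
  have hw : 0 < wr δ S e t r := Real.sqrt_pos.2 hw2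
  have hws : wr δ S e t r ^ 2 = r ^ 2 - yr δ S e t r ^ 2 := Real.sq_sqrt hw2.le
  have hy : HasDerivAt (fun t => yr δ S e t r) (xr δ r - e * δ ^ 3 * da S t) t := by
    have h := ((hasDerivAt_id t).mul_const (xr δ r)).sub ((fA.al_deriv t).const_mul (e * δ ^ 3))
    exact h.congr_deriv (by ring)
  have hP : HasDerivAt (fun t => xr δ r - e * δ ^ 3 * da S t) (-(e * δ ^ 3 * S.g t)) t := by
    have h := ((fA.da_deriv t).const_mul (e * δ ^ 3)).const_sub (xr δ r)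
    exact h
  have hW : HasDerivAt (fun t => wr δ S e t r)
      (-(yr δ S e t r * (xr δ r - e * δ ^ 3 * da S t)) / wr δ S e t r) t := by
    have h := ((hy.pow 2).const_sub (r ^ 2)).sqrt hw2.ne'
    refine h.congr_deriv ?_
    change _ / (2 * wr δ S e t r) = _
    simp only [Nat.cast_ofNat, Nat.add_one_sub_one, pow_one]
    field_simp
  have h := (hy.mul (hP.pow 2)).div hW hw.ne'
  refine h.congr_deriv ?_
  simp only [dphi, Pi.mul_apply, Pi.pow_apply]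
  have hr2 : r ^ 2 = wr δ S e t r ^ 2 + yr δ S e t r ^ 2 := by rw [hws]; ring
  rw [hr2]
  generalize wr δ S e t r = w at *
  generalize yr δ S e t r = y at *
  generalize da S t = d at *
  generalize S.g t = g at *
  generalize xr δ r = x at *
  field_simp
  ring

theorem inv_cube_diff {u v m : ℝ} (hm : 0 < m) (hu : m ≤ u) (hv : m ≤ v) :
    |1 / u ^ 3 - 1 / v ^ 3| ≤ |v ^ 2 - u ^ 2| * (2 / m ^ 5) := by
  have hu0 : 0 < u := lt_of_lt_of_le hm hu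
  have hv0 : 0 < v := lt_of_lt_of_le hm hv
  have e : 1 / u ^ 3 - 1 / v ^ 3 =
      (v ^ 2 - u ^ 2) * ((v ^ 2 + u * v + u ^ 2) / ((u + v) * (u ^ 3 * v ^ 3))) := by
    field_simp
    ring
  rw [e, abs_mul]
  refine mul_le_mul_of_nonneg_left ?_ (abs_nonneg _)
  rw [abs_of_nonneg (by positivity)]
  have h1 : (v ^ 2 + u * v + u ^ 2) / ((u + v) * (u ^ 3 * v ^ 3)) ≤
      1 / (u ^ 2 * v ^ 3) + 1 / (u ^ 3 * v ^ 2) := by
    have e2 : 1 / (u ^ 2 * v ^ 3) + 1 / (u ^ 3 * v ^ 2) =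
        ((u + v) ^ 2) / ((u + v) * (u ^ 3 * v ^ 3)) := by
      field_simp
    rw [e2]
    refine div_le_div_of_nonneg_right ?_ (by positivity)
    nlinarith [mul_pos hu0 hv0]
  have h2 : 1 / (u ^ 2 * v ^ 3) ≤ 1 / m ^ 5 := by
    refine one_div_le_one_div_of_le (by positivity) ?_
    calc m ^ 5 = m ^ 2 * m ^ 3 := by ring
      _ ≤ u ^ 2 * v ^ 3 := by gcongr
  have h3 : 1 / (u ^ 3 * v ^ 2) ≤ 1 / m ^ 5 := by
    refine one_div_le_one_div_of_le (by positivity) ?_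
    calc m ^ 5 = m ^ 3 * m ^ 2 := by ring
      _ ≤ u ^ 3 * v ^ 2 := by gcongr
  calc _ ≤ _ := h1
    _ ≤ 1 / m ^ 5 + 1 / m ^ 5 := add_le_add h2 h3
    _ = 2 / m ^ 5 := by ring

theorem m_facts {τ r : ℝ} (hτ0 : 0 ≤ τ) (hτ1 : τ ≤ 1) (h3 : 3 < r) :
    τ * √τ * r ^ 2 ≤ √(r * ((r - 3) + 2 * τ)) ^ 3 ∧
    τ ^ 2 * √τ * r ^ 2 ≤ √(r * ((r - 3) + 2 * τ)) ^ 5 ∧
    √τ ≤ √(r * ((r - 3) + 2 * τ)) := by
  set W := (r - 3) + 2 * τ with hW
  have hW1 : τ * (r - 1) ≤ W := by nlinarith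
  have hW2 : 2 * τ ≤ W := by linarith
  have hW0 : 0 < W := by linarith
  have hr0 : 0 < r := by linarith
  set m := √(r * W) with hm
  have hm2 : m ^ 2 = r * W := Real.sq_sqrt (by positivity)
  have hm0 : 0 ≤ m := Real.sqrt_nonneg _
  have hs2 : √τ ^ 2 = τ := Real.sq_sqrt hτ0
  have hs0 : 0 ≤ √τ := Real.sqrt_nonneg _
  refine ⟨?_, ?_, ?_⟩
  · refine le_of_sq_le_sq ?_ (by positivity)
    have e1 : (τ * √τ * r ^ 2) ^ 2 = τ ^ 2 * √τ ^ 2 * r ^ 4 := by ring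
    have e2 : (m ^ 3) ^ 2 = (m ^ 2) ^ 3 := by ring
    rw [e1, e2, hs2, hm2]
    have h1 : (τ * (r - 1)) ^ 3 ≤ W ^ 3 :=
      pow_le_pow_left₀ (mul_nonneg hτ0 (by linarith)) hW1 3
    have h2 : τ ^ 3 * r ≤ (τ * (r - 1)) ^ 3 := by
      have : r ≤ (r - 1) ^ 3 := by nlinarith [sq_nonneg (r - 3)]
      calc τ ^ 3 * r ≤ τ ^ 3 * (r - 1) ^ 3 := mul_le_mul_of_nonneg_left this (by positivity)
        _ = (τ * (r - 1)) ^ 3 := by ring
    calc τ ^ 2 * τ * r ^ 4 = r ^ 3 * (τ ^ 3 * r) := by ring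
      _ ≤ r ^ 3 * W ^ 3 := mul_le_mul_of_nonneg_left (h2.trans h1) (by positivity)
      _ = (r * W) ^ 3 := by ring
  · refine le_of_sq_le_sq ?_ (by positivity)
    have e1 : (τ ^ 2 * √τ * r ^ 2) ^ 2 = τ ^ 4 * √τ ^ 2 * r ^ 4 := by ring
    have e2 : (m ^ 5) ^ 2 = (m ^ 2) ^ 5 := by ring
    rw [e1, e2, hs2, hm2]
    have h1 : τ ^ 5 ≤ W ^ 5 := pow_le_pow_left₀ hτ0 (by linarith) 5
    calc τ ^ 4 * τ * r ^ 4 = r ^ 4 * τ ^ 5 := by ring
      _ ≤ r ^ 4 * W ^ 5 := mul_le_mul_of_nonneg_left h1 (by positivity)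
      _ ≤ r ^ 5 * W ^ 5 := by
        refine mul_le_mul_of_nonneg_right ?_ (by positivity)
        calc r ^ 4 = r ^ 4 * 1 := by ring
          _ ≤ r ^ 4 * r := mul_le_mul_of_nonneg_left (by linarith) (by positivity)
          _ = r ^ 5 := by ring
      _ = (r * W) ^ 5 := by ring
  · exact Real.sqrt_le_sqrt (by nlinarith)

/-- abstract form of the bound of the derivative -/
theorem core {τ t r d x a a₁ a₂ u v m : ℝ} (ht0 : 0 ≤ t) (ht1 : t ≤ 1) (hd : 0 ≤ d)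
    (hd1 : d ≤ 1 / 100)
    (hx0 : 0 ≤ x) (hx3 : x ≤ 3)
    (hτ0 : 0 ≤ τ) (hτ1 : τ ≤ 1) (hr : 3 < r)
    (ha : |a| ≤ d * (4 * (τ ^ 2 * √τ))) (ha₁ : |a₁| ≤ d * (8 * (τ * √τ)))
    (ha₂ : |a₂| ≤ d * (12 * √τ))
    (hm : 0 < m) (hu : m ≤ u) (hv : m ≤ v)
    (hm1 : τ * √τ * r ^ 2 ≤ m ^ 3) (hm2 : τ ^ 2 * √τ * r ^ 2 ≤ m ^ 5) (hm3 : √τ ≤ m)
    (huv : v ^ 2 - u ^ 2 = -(4 * a * t * x)) :
    |(r ^ 2 * (x - a₁) ^ 3 / u ^ 3 - 2 * a₂ * (t * x - a) * (x - a₁) / u) -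
      (r ^ 2 * (x + a₁) ^ 3 / v ^ 3 + 2 * a₂ * (t * x + a) * (x + a₁) / v)| ≤ 7680 * d := by
  have hu0 : 0 < u := lt_of_lt_of_le hm hu
  have hv0 : 0 < v := lt_of_lt_of_le hm hv
  have hs0 : 0 ≤ √τ := Real.sqrt_nonneg _
  have hs1 : √τ ≤ 1 := Real.sqrt_le_one.2 hτ1
  have hτs : τ * √τ ≤ 1 := by nlinarith
  have hτs2 : τ ^ 2 * √τ ≤ 1 := by
    have : τ ^ 2 ≤ 1 := by nlinarith
    nlinarith [sq_nonneg τ]
  have ha₁' : |a₁| ≤ 1 := by
    refine ha₁.trans ?_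
    have : 0 ≤ τ * √τ := by positivity
    nlinarith
  have ha' : |a| ≤ 1 := by
    refine ha.trans ?_
    have : 0 ≤ τ ^ 2 * √τ := by positivity
    nlinarith
  have hP : |x - a₁| ≤ 4 := by
    rw [abs_le] at ha₁' ⊢; constructor <;> linarith [ha₁'.1, ha₁'.2]
  have hP' : |x + a₁| ≤ 4 := by
    rw [abs_le] at ha₁' ⊢; constructor <;> linarith [ha₁'.1, ha₁'.2]
  have htx0 : 0 ≤ t * x := mul_nonneg ht0 hx0
  have htx : t * x ≤ 3 := by nlinarith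
  have hy : |t * x - a| ≤ 4 := by
    rw [abs_le] at ha' ⊢; constructor <;> linarith [ha'.1, ha'.2]
  have hy' : |t * x + a| ≤ 4 := by
    rw [abs_le] at ha' ⊢; constructor <;> linarith [ha'.1, ha'.2]
  -- decomposition
  have e : (r ^ 2 * (x - a₁) ^ 3 / u ^ 3 - 2 * a₂ * (t * x - a) * (x - a₁) / u) -
      (r ^ 2 * (x + a₁) ^ 3 / v ^ 3 + 2 * a₂ * (t * x + a) * (x + a₁) / v) =
      r ^ 2 * ((x - a₁) ^ 3 - (x + a₁) ^ 3) / u ^ 3 +
      r ^ 2 * (x + a₁) ^ 3 * (1 / u ^ 3 - 1 / v ^ 3) -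
      2 * a₂ * ((t * x - a) * (x - a₁)) / u - 2 * a₂ * ((t * x + a) * (x + a₁)) / v := by
    field_simp
    ring
  have b1 : |r ^ 2 * ((x - a₁) ^ 3 - (x + a₁) ^ 3) / u ^ 3| ≤ 768 * d := by
    have e1 : (x - a₁) ^ 3 - (x + a₁) ^ 3 =
        -(2 * a₁) * ((x - a₁) ^ 2 + (x - a₁) * (x + a₁) + (x + a₁) ^ 2) := by ring
    have e2 : |(x - a₁) ^ 2 + (x - a₁) * (x + a₁) + (x + a₁) ^ 2| ≤ 48 := by
      calc _ ≤ |(x - a₁) ^ 2| + |(x - a₁) * (x + a₁)| + |(x + a₁) ^ 2| :=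
            (abs_add_le _ _).trans (add_le_add (abs_add_le _ _) le_rfl)
        _ = |x - a₁| ^ 2 + |x - a₁| * |x + a₁| + |x + a₁| ^ 2 := by
            rw [abs_pow, abs_pow, abs_mul]
        _ ≤ 4 ^ 2 + 4 * 4 + 4 ^ 2 := by gcongr
        _ = 48 := by norm_num
    rw [e1, abs_div, abs_mul, abs_mul, abs_neg, abs_mul, abs_of_pos (by positivity : 0 < u ^ 3),
      abs_of_nonneg (by positivity : 0 ≤ r ^ 2), abs_two]
    rw [div_le_iff₀ (by positivity)]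
    calc r ^ 2 * (2 * |a₁| * |(x - a₁) ^ 2 + (x - a₁) * (x + a₁) + (x + a₁) ^ 2|)
        ≤ r ^ 2 * (2 * (d * (8 * (τ * √τ))) * 48) := by gcongr
      _ = 768 * d * (τ * √τ * r ^ 2) := by ring
      _ ≤ 768 * d * m ^ 3 := by gcongr
      _ ≤ 768 * d * u ^ 3 := by gcongr
  have b2 : |r ^ 2 * (x + a₁) ^ 3 * (1 / u ^ 3 - 1 / v ^ 3)| ≤ 6144 * d := by
    have h1 := inv_cube_diff hm hu hv
    have h2 : |v ^ 2 - u ^ 2| ≤ 12 * (d * (4 * (τ ^ 2 * √τ))) := by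
      rw [huv, abs_neg, mul_assoc, abs_mul, abs_mul, abs_of_nonneg htx0]
      calc |(4 : ℝ)| * |a| * (t * x) ≤ 4 * |a| * 3 := by
            rw [abs_of_pos (by norm_num : (0 : ℝ) < 4)]
            gcongr
        _ ≤ 4 * (d * (4 * (τ ^ 2 * √τ))) * 3 := by gcongr
        _ = 12 * (d * (4 * (τ ^ 2 * √τ))) := by ring
    rw [abs_mul, abs_mul, abs_of_nonneg (by positivity : 0 ≤ r ^ 2), abs_pow]
    calc r ^ 2 * |x + a₁| ^ 3 * |1 / u ^ 3 - 1 / v ^ 3|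
        ≤ r ^ 2 * 4 ^ 3 * (12 * (d * (4 * (τ ^ 2 * √τ))) * (2 / m ^ 5)) := by
          refine mul_le_mul (by gcongr) (h1.trans (by gcongr)) (abs_nonneg _) (by positivity)
      _ = 6144 * d * ((τ ^ 2 * √τ * r ^ 2) / m ^ 5) := by ring
      _ ≤ 6144 * d * 1 := by
          refine mul_le_mul_of_nonneg_left ?_ (by positivity)
          rw [div_le_one (by positivity)]
          exact hm2
      _ = 6144 * d := by ring
  have b3 : ∀ y P w : ℝ, |y| ≤ 4 → |P| ≤ 4 → m ≤ w → |2 * a₂ * (y * P) / w| ≤ 384 * d := by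
    intro y P w hy hP hw
    have hw0 : 0 < w := lt_of_lt_of_le hm hw
    rw [abs_div, abs_mul, abs_mul, abs_mul, abs_of_pos hw0, abs_two, div_le_iff₀ hw0]
    calc 2 * |a₂| * (|y| * |P|) ≤ 2 * (d * (12 * √τ)) * (4 * 4) := by gcongr
      _ = 384 * d * √τ := by ring
      _ ≤ 384 * d * m := by gcongr
      _ ≤ 384 * d * w := by gcongr
  rw [e]
  have c1 := b3 _ _ u hy hP hu
  have c2 := b3 _ _ v hy' hP' hv
  have := abs_le.1 b1
  have := abs_le.1 b2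
  have := abs_le.1 c1
  have := abs_le.1 c2
  rw [abs_le]
  constructor <;> linarith

theorem dphi_bd {δ : ℝ} (hδ : 0 < δ) (hδ1 : δ ≤ 1 / 100) {S : St} (fA : FactsA S)
    (fB : FactsB δ S) {t r : ℝ} (ht0 : 0 ≤ t) (ht1 : t ≤ 1) (h3 : 3 < r) (hr : r ≤ Rh δ) :
    |dphi δ S 1 t r - dphi δ S (-1) t r| ≤ 7680 * δ ^ 3 := by
  have hδ3 : 0 ≤ δ ^ 3 := by positivity
  have hδ3' : δ ^ 3 ≤ 1 / 100 := by
    calc δ ^ 3 ≤ (1 / 100) ^ 3 := pow_le_pow_left₀ hδ.le hδ1 3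
      _ ≤ 1 / 100 := by norm_num
  have hx := xr_bd hδ h3.le hr
  have hm := m_pos ht1 h3
  have hu2 := fB.wr_lb 1 (Or.inl rfl) t r ht0 ht1 h3.le hr
  have hv2 := fB.wr_lb (-1) (Or.inr rfl) t r ht0 ht1 h3.le hr
  obtain ⟨m1, m2, m3⟩ := m_facts (τ := 1 - t) (by linarith) (by linarith) h3
  have key := core (τ := 1 - t) (t := t) (r := r) (d := δ ^ 3) (x := xr δ r)
    (a := δ ^ 3 * al S t) (a₁ := δ ^ 3 * da S t) (a₂ := δ ^ 3 * S.g t)
    (u := wr δ S 1 t r) (v := wr δ S (-1) t r) (m := √(r * ((r - 3) + 2 * (1 - t))))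
    ht0 ht1 hδ3 hδ3' hx.1 hx.2 (by linarith) (by linarith) h3
    (by
      rw [abs_mul, abs_of_nonneg hδ3]
      exact mul_le_mul_of_nonneg_left (fA.al_le t ht0 ht1) hδ3)
    (by
      rw [abs_mul, abs_of_nonneg hδ3]
      exact mul_le_mul_of_nonneg_left (fA.da_le t ht0 ht1) hδ3)
    (by
      rw [abs_mul, abs_of_nonneg hδ3]
      exact mul_le_mul_of_nonneg_left (fA.g_le' t ht0 ht1) hδ3)
    (Real.sqrt_pos.2 hm) (sq_lb fB (Or.inl rfl) ht0 ht1 h3 hr)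
    (sq_lb fB (Or.inr rfl) ht0 ht1 h3 hr) m1 m2 m3
    (by
      have e1 : wr δ S 1 t r ^ 2 = r ^ 2 - yr δ S 1 t r ^ 2 :=
        Real.sq_sqrt (hm.le.trans hu2)
      have e2 : wr δ S (-1) t r ^ 2 = r ^ 2 - yr δ S (-1) t r ^ 2 :=
        Real.sq_sqrt (hm.le.trans hv2)
      rw [e1, e2]
      simp only [yr]
      ring)
  have e : dphi δ S 1 t r - dphi δ S (-1) t r =
      (r ^ 2 * (xr δ r - δ ^ 3 * da S t) ^ 3 / wr δ S 1 t r ^ 3 -
        2 * (δ ^ 3 * S.g t) * (t * xr δ r - δ ^ 3 * al S t) * (xr δ r - δ ^ 3 * da S t) /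
          wr δ S 1 t r) -
      (r ^ 2 * (xr δ r + δ ^ 3 * da S t) ^ 3 / wr δ S (-1) t r ^ 3 +
        2 * (δ ^ 3 * S.g t) * (t * xr δ r + δ ^ 3 * al S t) * (xr δ r + δ ^ 3 * da S t) /
          wr δ S (-1) t r) := by
    simp only [dphi]
    have y1 : yr δ S 1 t r = t * xr δ r - δ ^ 3 * al S t := by simp [yr]
    have y2 : yr δ S (-1) t r = t * xr δ r + δ ^ 3 * al S t := by simp [yr]
    rw [y1, y2]
    ring
  rw [e]
  exact key

theorem phi_int {δ : ℝ} (hδ : 0 < δ) (hδ1 : δ ≤ 1 / 100) {S : St} (fA : FactsA S)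
    (fB : FactsB δ S) {e : ℝ} (he : e = 1 ∨ e = -1) {t : ℝ} (ht0 : 0 ≤ t) (ht1 : t ≤ 1) :
    IntervalIntegrable (fun r => phi δ S e t r) volume 3 (Rh δ) := by
  have hR : 3 ≤ Rh δ := by
    have : 0 < 4 / δ := by positivity
    simp only [Rh]; linarith
  have hg : IntervalIntegrable (fun r : ℝ => 100 * (r - 3) ^ (-(1 / 2) : ℝ)) volume 3 (Rh δ) := by
    have h := (intervalIntegral.intervalIntegrable_rpow' (a := 0) (b := Rh δ - 3)
      (r := (-(1 / 2) : ℝ)) (by norm_num)).comp_sub_right 3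
    have h' := h.const_mul 100
    simpa using h'
  refine hg.mono_fun ?_ ?_
  · refine Measurable.aestronglyMeasurable ?_
    have h1 : Measurable fun r => yr δ S e t r := by
      simp only [yr, xr]; fun_prop
    have h2 : Measurable fun r => wr δ S e t r := by
      simp only [wr]; fun_prop
    have h3 : Measurable fun r => xr δ r := by
      simp only [xr]; fun_prop
    simp only [phi]
    fun_prop
  · rw [uIoc_of_le hR]
    refine (ae_restrict_iff' measurableSet_Ioc).2 (Eventually.of_forall ?_)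
    intro r hr
    have hx := xr_bd hδ hr.1.le hr.2
    have hδ3 : 0 ≤ δ ^ 3 := by positivity
    have hδ3' : δ ^ 3 ≤ 1 / 100 := by
      calc δ ^ 3 ≤ (1 / 100) ^ 3 := pow_le_pow_left₀ hδ.le hδ1 3
        _ ≤ 1 / 100 := by norm_num
    have hm := m_pos ht1 hr.1
    have hw := sq_lb fB he ht0 ht1 hr.1 hr.2
    have hm0 := Real.sqrt_pos.2 hm
    have hs : √(r - 3) ≤ √(r * ((r - 3) + 2 * (1 - t))) := by
      refine Real.sqrt_le_sqrt ?_
      have : 0 < r - 3 := by linarith [hr.1]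
      nlinarith [hr.1]
    have hs0 : 0 < √(r - 3) := Real.sqrt_pos.2 (by linarith [hr.1])
    have he1 : |e| = 1 := by rcases he with rfl | rfl <;> simp
    have hd : |e * δ ^ 3 * da S t| ≤ 1 := by
      rw [abs_mul, abs_mul, he1, abs_of_nonneg hδ3, one_mul]
      have := fA.da_bd t
      have := abs_nonneg (da S t)
      nlinarith
    have ha : |e * δ ^ 3 * al S t| ≤ 1 := by
      rw [abs_mul, abs_mul, he1, abs_of_nonneg hδ3, one_mul]
      have := fA.al_le' t ht0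
      have := abs_nonneg (al S t)
      nlinarith
    have hP : |xr δ r - e * δ ^ 3 * da S t| ≤ 4 := by
      rw [abs_le] at hd ⊢; constructor <;> linarith [hd.1, hd.2]
    have hy : |yr δ S e t r| ≤ 4 := by
      have htx0 : 0 ≤ t * xr δ r := mul_nonneg ht0 hx.1
      have htx : t * xr δ r ≤ 3 := by nlinarith
      simp only [yr]
      rw [abs_le] at ha ⊢; constructor <;> linarith [ha.1, ha.2]
    have hw0 : 0 < wr δ S e t r := lt_of_lt_of_le hm0 hw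
    have er : (r - 3) ^ (-(1 / 2) : ℝ) = 1 / √(r - 3) := by
      rw [Real.rpow_neg (by linarith [hr.1]), Real.sqrt_eq_rpow, one_div, one_div]
    simp only [er]
    simp only [phi, Real.norm_eq_abs]
    rw [abs_div, abs_mul, abs_pow, abs_of_pos hw0,
      abs_of_nonneg (by positivity : 0 ≤ 100 * (1 / √(r - 3)))]
    calc |yr δ S e t r| * |xr δ r - e * δ ^ 3 * da S t| ^ 2 / wr δ S e t r
        ≤ 4 * 4 ^ 2 / √(r - 3) := by gcongr; exact hs.trans hw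
      _ ≤ 100 * (1 / √(r - 3)) := by
        rw [mul_one_div]
        gcongr
        norm_num

end CAaux

open CAaux

/-- §4.6 -/
theorem CA (hA : S_FactsA) (hB : S_FactsB) (_hI : S_INC) : S_CA := by
  obtain ⟨δ₁, hδ₁, hδ₁', hB⟩ := hB
  refine ⟨23040, by norm_num, δ₁, hδ₁, ?_⟩
  intro δ hδ hδδ S hS
  have fA := hA S hS
  have fB := hB δ hδ hδδ S hS
  have hδ1 : δ ≤ 1 / 100 := hδδ.trans hδ₁'
  have hR : 3 ≤ Rh δ := by
    have : 0 < 4 / δ := by positivity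
    simp only [Rh]; linarith
  refine ⟨?_, ?_, ?_⟩
  · have h0 : al S 0 = 0 := by
      have := fA.al_odd 0
      simp only [neg_zero] at this
      linarith
    simp [Kc, Kce, yr, h0]
  · have h1 := fA.al_zero 1 le_rfl
    have h2 := fA.da_zero 1 le_rfl
    simp [Kc, Kce, yr, wr, h1, h2]
  · intro a b ha hab hb
    have ha1 : a ≤ 1 := hab.trans hb
    have hb0 : 0 ≤ b := ha.trans hab
    have i1 := phi_int hδ hδ1 fA fB (e := 1) (Or.inl rfl) hb0 hb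
    have i2 := phi_int hδ hδ1 fA fB (e := -1) (Or.inr rfl) hb0 hb
    have i3 := phi_int hδ hδ1 fA fB (e := 1) (Or.inl rfl) ha ha1
    have i4 := phi_int hδ hδ1 fA fB (e := -1) (Or.inr rfl) ha ha1
    have e : Kc δ S b - Kc δ S a = 3 / (4 * δ) * ∫ r in (3 : ℝ)..Rh δ,
        ((phi δ S 1 b r - phi δ S (-1) b r) - (phi δ S 1 a r - phi δ S (-1) a r)) := by
      rw [intervalIntegral.integral_sub (i1.sub i2) (i3.sub i4),
        intervalIntegral.integral_sub i1 i2, intervalIntegral.integral_sub i3 i4]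
      simp only [Kc, Kce, phi]
      ring
    have hI : ‖∫ r in (3 : ℝ)..Rh δ,
        ((phi δ S 1 b r - phi δ S (-1) b r) - (phi δ S 1 a r - phi δ S (-1) a r))‖ ≤
        7680 * δ ^ 3 * (b - a) * |Rh δ - 3| := by
      refine intervalIntegral.norm_integral_le_of_norm_le_const ?_
      intro r hr
      rw [uIoc_of_le hR] at hr
      have hmv := (convex_Icc (0 : ℝ) 1).norm_image_sub_le_of_norm_hasDerivWithin_le
        (f := fun t => phi δ S 1 t r - phi δ S (-1) t r)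
        (f' := fun t => dphi δ S 1 t r - dphi δ S (-1) t r) (C := 7680 * δ ^ 3)
        (fun t ht => ((hasDerivAt_phi fA fB (Or.inl rfl) ht.1 ht.2 hr.1 hr.2).sub
          (hasDerivAt_phi fA fB (Or.inr rfl) ht.1 ht.2 hr.1 hr.2)).hasDerivWithinAt)
        (fun t ht => by
          rw [Real.norm_eq_abs]
          exact dphi_bd hδ hδ1 fA fB ht.1 ht.2 hr.1 hr.2)
        (⟨ha, ha1⟩ : a ∈ Icc (0 : ℝ) 1) (⟨hb0, hb⟩ : b ∈ Icc (0 : ℝ) 1)
      rwa [Real.norm_eq_abs (b - a), abs_of_nonneg (by linarith)] at hmv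
    rw [Real.norm_eq_abs] at hI
    have hRR : |Rh δ - 3| = 4 / δ := by
      have : 0 < 4 / δ := by positivity
      simp only [Rh, add_sub_cancel_left]
      exact abs_of_pos this
    rw [hRR] at hI
    rw [e, abs_mul, abs_of_pos (by positivity : 0 < 3 / (4 * δ))]
    calc 3 / (4 * δ) * |∫ r in (3 : ℝ)..Rh δ,
        ((phi δ S 1 b r - phi δ S (-1) b r) - (phi δ S 1 a r - phi δ S (-1) a r))|
        ≤ 3 / (4 * δ) * (7680 * δ ^ 3 * (b - a) * (4 / δ)) := by gcongr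
      _ = 23040 * δ * (b - a) := by
        field_simp
        ring

end Pool.Agent.HV
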