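import Pool.Agent.HV.Stmts

/-!
# Module HV_CV (§5.3) for MP_678b51_gt   (helper27)

The slope of the cap is strictly decreasing, and the two caps have different heights.
-/

set_option autoImplicit false

open MeasureTheory Set Filter
open scoped Real Topology ENNReal

namespace Pool.Agent.HV

namespace CVm

/-- `U₀` on the left piece as a rational function of `y = √(t/2)`. -/
theorem UL0_eq (t : ℝ) (h0 : 0 ≤ t) (h1 : t ≤ 1 / 2) :
    UL0 t = (-5 - 30 * √(t / 2) ^ 2 + 28 * √(t / 2) ^ 3) / (10 - 7 * √(t / 2)) := by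
  set y := √(t / 2) with hy
  have hy2 : y ^ 2 = t / 2 := by rw [hy, Real.sq_sqrt (by linarith)]
  have hy0 : 0 ≤ y := Real.sqrt_nonneg _
  have hyh : y ≤ 1 / 2 := by
    nlinarith
  have ht : t = 2 * y ^ 2 := by linarith
  have hd : 0 < 10 - 7 * y := by linarith
  have hd2 : fL0 t = bb * (10 - 7 * y) := rfl
  have hF : FL0 t = bb * (-(10 / 3) + 10 * t - 28 / 3 * y ^ 3) := rfl
  unfold UL0
  rw [hd2, hF]
  unfold bb
  have hd' : 10 - 7 * y ≠ 0 := hd.ne'
  rw [mul_div_mul_left _ _ (by norm_num : (1 / 100 : ℝ) ≠ 0), eq_div_iff hd', sub_mul, mul_assoc,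
    div_mul_cancel₀ _ hd', ht]
  ring

theorem sqrt_half_mem (t : ℝ) (h0 : 0 ≤ t) (h1 : t ≤ 1 / 2) :
    0 ≤ √(t / 2) ∧ √(t / 2) ≤ 1 / 2 ∧ t = 2 * √(t / 2) ^ 2 := by
  have hy2 : √(t / 2) ^ 2 = t / 2 := Real.sq_sqrt (by linarith)
  have hy0 : 0 ≤ √(t / 2) := Real.sqrt_nonneg _
  refine ⟨hy0, ?_, by linarith⟩
  nlinarith

/-- decrease of `U₀` on the left piece -/
theorem UL0_inc (a b : ℝ) (h0 : 0 ≤ a) (hab : a ≤ b) (h1 : b ≤ 1 / 2) :
    UL0 b - UL0 a ≤ -(35 / 100) * (√(b / 2) - √(a / 2)) := by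
  rw [UL0_eq a h0 (hab.trans h1), UL0_eq b (h0.trans hab) h1]
  obtain ⟨ya0, ya1, -⟩ := sqrt_half_mem a h0 (hab.trans h1)
  obtain ⟨yb0, yb1, -⟩ := sqrt_half_mem b (h0.trans hab) h1
  have hyy : √(a / 2) ≤ √(b / 2) := Real.sqrt_le_sqrt (by linarith)
  set y := √(a / 2)
  set z := √(b / 2)
  have d1 : 0 < 10 - 7 * y := by linarith
  have d2 : 0 < 10 - 7 * z := by linarith
  have hE : -35 - 300 * (y + z) + 280 * (y ^ 2 + y * z + z ^ 2) + 210 * (y * z)
      - 196 * (y * z * (y + z)) ≤ -35 := by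
    have e1 : y ^ 2 ≤ y / 2 := by nlinarith
    have e2 : z ^ 2 ≤ z / 2 := by nlinarith
    have e3 : y * z ≤ y / 2 := by nlinarith
    have e4 : y * z ≤ z / 2 := by nlinarith
    have e5 : 0 ≤ y * z * (y + z) := by positivity
    nlinarith
  have hdd : (10 - 7 * y) * (10 - 7 * z) ≤ 100 := by nlinarith
  rw [div_sub_div _ _ d2.ne' d1.ne', div_le_iff₀ (mul_pos d2 d1)]
  have hid : (-5 - 30 * z ^ 2 + 28 * z ^ 3) * (10 - 7 * y) - (10 - 7 * z) *
      (-5 - 30 * y ^ 2 + 28 * y ^ 3) = (z - y) * (-35 - 300 * (y + z) +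
        280 * (y ^ 2 + y * z + z ^ 2) + 210 * (y * z) - 196 * (y * z * (y + z))) := by
    ring
  rw [hid]
  have h3 : (z - y) * (-35 - 300 * (y + z) +
        280 * (y ^ 2 + y * z + z ^ 2) + 210 * (y * z) - 196 * (y * z * (y + z))) ≤
        (z - y) * (-35) := mul_le_mul_of_nonneg_left hE (by linarith)
  have h4 : (z - y) * ((10 - 7 * y) * (10 - 7 * z)) ≤ (z - y) * 100 :=
    mul_le_mul_of_nonneg_left hdd (by linarith)
  nlinarith

theorem sqrt_two_mul (t : ℝ) : √t = √2 * √(t / 2) := by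
  rw [← Real.sqrt_mul (by norm_num)]
  congr 1
  ring

theorem sqrt_two_bd : 1 ≤ √(2 : ℝ) ∧ √(2 : ℝ) ≤ 3 / 2 := by
  constructor
  · rw [Real.one_le_sqrt]
    norm_num
  · rw [Real.sqrt_le_left (by norm_num)]
    norm_num

/-- decrease of `u_e` on the left piece -/
theorem left_dec (K₁ K₂ K₃ δ : ℝ) (hδ : K₃ * δ ≤ 1 / 10) (S : St)
    (hS : Ball K₁ K₂ K₃ δ S) (e : ℝ) (he : e = 1 ∨ e = -1) (a b : ℝ)
    (h0 : 0 ≤ a) (hab : a ≤ b) (h1 : b ≤ 1 / 2) :
    1 / 20 * (b - a) ≤ (S.UL a + e * fL S.p a) - (S.UL b + e * fL S.p b) := by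
  obtain ⟨ya0, ya1, ha⟩ := sqrt_half_mem a h0 (hab.trans h1)
  obtain ⟨yb0, yb1, hb⟩ := sqrt_half_mem b (h0.trans hab) h1
  have hyy : √(a / 2) ≤ √(b / 2) := Real.sqrt_le_sqrt (by linarith)
  have hU := UL0_inc a b h0 hab h1
  have hi := hS.ULi a b h0 hab h1
  rw [sqrt_two_mul a, sqrt_two_mul b] at hi
  obtain ⟨s1, s2⟩ := sqrt_two_bd
  have hf : ∀ t, fL S.p t = 1 / 100 * (10 - 7 * √(t / 2)) + S.p := fun t => rfl
  rw [hf a, hf b]
  set y := √(a / 2)
  set z := √(b / 2)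
  have hi2 := (abs_le.1 hi).2
  have h5 : K₃ * δ * (√2 * z - √2 * y) ≤ 3 / 20 * (z - y) := by
    have : K₃ * δ * (√2 * z - √2 * y) = (K₃ * δ) * (√2 * (z - y)) := by ring
    rw [this]
    have h6 : √2 * (z - y) ≤ 3 / 2 * (z - y) := mul_le_mul_of_nonneg_right s2 (by linarith)
    have h7 : 0 ≤ √2 * (z - y) := mul_nonneg (by linarith) (by linarith)
    calc (K₃ * δ) * (√2 * (z - y)) ≤ 1 / 10 * (√2 * (z - y)) :=
          mul_le_mul_of_nonneg_right hδ h7
      _ ≤ 1 / 10 * (3 / 2 * (z - y)) := by linarith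
      _ = 3 / 20 * (z - y) := by ring
  have h8 : b - a ≤ 2 * (z - y) := by
    rw [ha, hb]
    nlinarith
  rcases he with rfl | rfl
  · nlinarith
  · nlinarith

/-- decrease of `u_e` on the right piece -/
theorem right_dec (K₁ K₂ K₃ δ : ℝ) (hδ : K₃ * δ ≤ 1 / 10) (S : St)
    (hS : Ball K₁ K₂ K₃ δ S) (a b : ℝ)
    (h0 : 1 / 2 ≤ a) (hab : a ≤ b) (h1 : b ≤ 1) :
    1 / 20 * (b - a) ≤ S.UR a - S.UR b := by
  have hi := hS.URi a b h0 hab h1
  have hsa : √a ^ 2 = a := Real.sq_sqrt (by linarith)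
  have hsb : √b ^ 2 = b := Real.sq_sqrt (by linarith)
  have hs0 : 0 ≤ √a := Real.sqrt_nonneg _
  have hs1 : √a ≤ √b := Real.sqrt_le_sqrt hab
  have hs2 : 1 / 2 ≤ √a := by nlinarith
  have hU : UR0 b - UR0 a = -(3 / 2) * (b - a) := by unfold UR0; ring
  have hi2 := (abs_le.1 hi).2
  have h5 : K₃ * δ * (√b - √a) ≤ 1 / 10 * (√b - √a) :=
    mul_le_mul_of_nonneg_right hδ (by linarith)
  have h6 : √b - √a ≤ b - a := by
    nlinarith
  nlinarith

/-- `u_e(a) - u_e(b) ≥ (b-a)/20` -/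
theorem uu_dec (K₁ K₂ K₃ δ : ℝ)
    (hδ : K₃ * δ ≤ 1 / 10) (S : St)
    (hC : Crude S) (hS : Ball K₁ K₂ K₃ δ S) (e : ℝ) (he : e = 1 ∨ e = -1) (a b : ℝ)
    (h0 : 0 ≤ a) (hab : a ≤ b) (h1 : b ≤ 1) :
    1 / 20 * (b - a) ≤ uu S e a - uu S e b := by
  by_cases hb : b < 1 / 2
  · have ha : a < 1 / 2 := lt_of_le_of_lt hab hb
    have := left_dec K₁ K₂ K₃ δ hδ S hS e he a b h0 hab hb.le
    simp only [uu, St.U, fp, if_pos ha, if_pos hb]
    exact this
  · by_cases ha : a < 1 / 2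
    · push Not at hb
      have h2 := left_dec K₁ K₂ K₃ δ hδ S hS e he a (1 / 2) h0 ha.le le_rfl
      have h3 := right_dec K₁ K₂ K₃ δ hδ S hS (1 / 2) b le_rfl hb h1
      have h4 := hS.ULb (1 / 2) (by norm_num) le_rfl
      have h5 := hS.URb (1 / 2) le_rfl (by norm_num)
      have h6 : UL0 (1 / 2) = -(18 / 13) := by
        rw [UL0_eq (1 / 2) (by norm_num) le_rfl]
        have : √((1 / 2 : ℝ) / 2) = 1 / 2 := by
          rw [Real.sqrt_eq_iff_mul_self_eq (by norm_num) (by norm_num)]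
          norm_num
        rw [this]
        norm_num
      have h7 : UR0 (1 / 2) = -(9 / 4) := by unfold UR0; norm_num
      rw [h6] at h4
      rw [h7] at h5
      have h8 := (abs_le.1 h4).1
      have h9 := (abs_le.1 h5).2
      have hp := abs_le.1 hC.pb
      have hf : fL S.p (1 / 2) = 65 / 1000 + S.p := by
        have : √((1 / 2 : ℝ) / 2) = 1 / 2 := by
          rw [Real.sqrt_eq_iff_mul_self_eq (by norm_num) (by norm_num)]
          norm_num
        unfold fL fL0 bb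
        rw [this]
        norm_num
      rw [hf] at h2
      have hb' : ¬ b < 1 / 2 := not_lt.2 hb
      have e1 : uu S e a = S.UL a + e * fL S.p a := by simp only [uu, St.U, fp, if_pos ha]
      have e2 : uu S e b = S.UR b + e * (-(1 / 100)) := by
        simp only [uu, St.U, fp, hb', if_false, bb]
      rw [e1, e2]
      rcases he with rfl | rfl
      · nlinarith
      · nlinarith
    · push Not at hb ha
      have h3 := right_dec K₁ K₂ K₃ δ hδ S hS a b ha hab h1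
      have hb' : ¬ b < 1 / 2 := not_lt.2 hb
      have ha' : ¬ a < 1 / 2 := not_lt.2 ha
      simp only [uu, St.U, fp, ha', hb', if_false]
      linarith

/-- lower bound of the denominator -/
theorem den_lb (E F t x u d e : ℝ) (hE0 : 0 < E) (hE : E ≤ 1 / 10000) (hF0 : 0 < F)
    (hF : F ≤ E / 100) (he : e = 1 ∨ e = -1) (ht0 : 0 ≤ t) (ht1 : t ≤ 1)
    (hx : |x - 3| ≤ 5 * E) (hu : -5 ≤ u ∧ u ≤ -(1 / 20)) (hd : |d| ≤ 8) :
    2 ≤ x + t * E * u - e * (F * d) := by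
  have g1 : 0 ≤ t * E := by positivity
  have g2 : t * E ≤ E := mul_le_of_le_one_left hE0.le ht1
  have g3 : t * E * (-u) ≤ t * E * 5 := mul_le_mul_of_nonneg_left (by linarith [hu.1]) g1
  have g4 : F * |d| ≤ F * 8 := mul_le_mul_of_nonneg_left hd hF0.le
  have g5 : e * (F * d) ≤ F * |d| := by
    rcases he with rfl | rfl
    · rw [one_mul]
      exact mul_le_mul_of_nonneg_left (le_abs_self d) hF0.le
    · have : -1 * (F * d) = F * (-d) := by ring
      rw [this]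
      exact mul_le_mul_of_nonneg_left (neg_le_abs d) hF0.le
  have := (abs_le.1 hx).1
  linarith

/-- increments of the denominator -/
theorem den_inc (E F a b ua ub xa xb dA dB e : ℝ) (hE0 : 0 < E) (hF0 : 0 < F)
    (hF : F ≤ E / 100) (he : e = 1 ∨ e = -1) (h0 : 0 ≤ a) (hab : a < b) (h1 : b ≤ 1)
    (hdec : 1 / 20 * (b - a) ≤ ua - ub) (hua : -5 ≤ ua ∧ ua ≤ -(1 / 20))
    (hxl : |xb - xa| ≤ 5 * E * (b - a)) (hdl : |dB - dA| ≤ 12 * (b - a)) :
    |(xb + b * E * ub - e * (F * dB)) - (xa + a * E * ua - e * (F * dA))| ≤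
      E * (ua - ub) + 11 * E * (b - a) := by
  have hba : 0 < b - a := sub_pos.2 hab
  have i1 : (xb + b * E * ub - e * (F * dB)) - (xa + a * E * ua - e * (F * dA)) =
      (xb - xa) + E * (b * (ub - ua) + (b - a) * ua) - e * (F * (dB - dA)) := by
    ring
  rw [i1]
  have hΔ : 0 ≤ ua - ub := by linarith
  have j1 : |b * (ub - ua)| ≤ ua - ub := by
    rw [abs_mul, abs_of_nonneg (h0.trans hab.le), abs_sub_comm, abs_of_nonneg hΔ]
    exact mul_le_of_le_one_left hΔ h1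
  have j2 : |(b - a) * ua| ≤ 5 * (b - a) := by
    rw [abs_mul, abs_of_pos hba, mul_comm]
    have : |ua| ≤ 5 := abs_le.2 ⟨hua.1, by linarith [hua.2]⟩
    exact mul_le_mul_of_nonneg_right this hba.le
  have i3 : |E * (b * (ub - ua) + (b - a) * ua)| ≤ E * ((ua - ub) + 5 * (b - a)) := by
    rw [abs_mul, abs_of_pos hE0]
    apply mul_le_mul_of_nonneg_left _ hE0.le
    exact (abs_add_le _ _).trans (by linarith)
  have i4 : |e * (F * (dB - dA))| ≤ E * (b - a) := by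
    have he1 : |e| = 1 := by rcases he with rfl | rfl <;> simp
    rw [abs_mul, he1, one_mul, abs_mul, abs_of_pos hF0]
    have h3 : F * |dB - dA| ≤ F * (12 * (b - a)) := mul_le_mul_of_nonneg_left hdl hF0.le
    have h4 : F * (12 * (b - a)) ≤ E / 100 * (12 * (b - a)) :=
      mul_le_mul_of_nonneg_right hF (by linarith)
    have h5 : 0 ≤ E * (b - a) := mul_nonneg hE0.le hba.le
    have h6 : E / 100 * (12 * (b - a)) = 12 / 100 * (E * (b - a)) := by ring
    linarith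
  have i5 : E * ((ua - ub) + 5 * (b - a)) = E * (ua - ub) + 5 * E * (b - a) := by ring
  calc |(xb - xa) + E * (b * (ub - ua) + (b - a) * ua) - e * (F * (dB - dA))|
      ≤ |(xb - xa) + E * (b * (ub - ua) + (b - a) * ua)| + |e * (F * (dB - dA))| := abs_sub _ _
    _ ≤ |xb - xa| + |E * (b * (ub - ua) + (b - a) * ua)| + |e * (F * (dB - dA))| := by
        gcongr
        exact abs_add_le _ _
    _ ≤ E * (ua - ub) + 11 * E * (b - a) := by linarith

theorem slope_core (E F a b ua ub xa xb dA dB e : ℝ) (hE0 : 0 < E) (hE : E ≤ 1 / 10000)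
    (hF0 : 0 < F) (hF : F ≤ E / 100) (he : e = 1 ∨ e = -1) (h0 : 0 ≤ a) (hab : a < b) (h1 : b ≤ 1)
    (hdec : 1 / 20 * (b - a) ≤ ua - ub) (hua : -5 ≤ ua ∧ ua ≤ -(1 / 20))
    (hub : -5 ≤ ub ∧ ub ≤ -(1 / 20)) (hxa : |xa - 3| ≤ 5 * E) (hxb : |xb - 3| ≤ 5 * E)
    (hxl : |xb - xa| ≤ 5 * E * (b - a)) (hda : |dA| ≤ 8) (hdb : |dB| ≤ 8)
    (hdl : |dB - dA| ≤ 12 * (b - a)) :
    ub / (xb + b * E * ub - e * (F * dB)) < ua / (xa + a * E * ua - e * (F * dA)) := by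
  have hba : 0 < b - a := sub_pos.2 hab
  have hA := den_lb E F a xa ua dA e hE0 hE hF0 hF he h0 (hab.le.trans h1) hxa hua hda
  have hB := den_lb E F b xb ub dB e hE0 hE hF0 hF he (h0.trans hab.le) h1 hxb hub hdb
  have hI := den_inc E F a b ua ub xa xb dA dB e hE0 hF0 hF he h0 hab h1 hdec hua hxl hdl
  set p := xa + a * E * ua - e * (F * dA)
  set q := xb + b * E * ub - e * (F * dB)
  have hΔ : 0 < ua - ub := by linarith
  rw [div_lt_div_iff₀ (by linarith) (by linarith)]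
  have k2 : (-ua) * (q - p) ≤ 5 * |q - p| := by
    have h1 : (-ua) * (q - p) ≤ (-ua) * |q - p| :=
      mul_le_mul_of_nonneg_left (le_abs_self _) (by linarith [hua.2])
    have h2 : (-ua) * |q - p| ≤ 5 * |q - p| :=
      mul_le_mul_of_nonneg_right (by linarith [hua.1]) (abs_nonneg _)
    linarith
  have k3 : (ua - ub) * 2 ≤ (ua - ub) * p := mul_le_mul_of_nonneg_left hA hΔ.le
  have k4 : E * (ua - ub) ≤ 1 / 10000 * (ua - ub) := mul_le_mul_of_nonneg_right hE hΔ.le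
  have k5 : E * (b - a) ≤ 1 / 10000 * (b - a) := mul_le_mul_of_nonneg_right hE hba.le
  have k6 : ub * p - ua * q = -((ua - ub) * p) + (-ua) * (q - p) := by ring
  have k7 : 11 * E * (b - a) = 11 * (E * (b - a)) := by ring
  linarith

end CVm

theorem CV (hA : S_FactsA) (hB : S_FactsB) : S_CV := by
  intro K₁ K₂ K₃ _ _ hK₃
  obtain ⟨δ₀, hδ₀, hδ₀', hB⟩ := hB
  refine ⟨min δ₀ (1 / (10 * (K₃ + 1))), lt_min hδ₀ (by positivity), ?_⟩
  intro δ hδ0 hδ1 S hC hS
  have hd0 : δ ≤ δ₀ := hδ1.trans (min_le_left _ _)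
  have hd1 : δ ≤ 1 / (10 * (K₃ + 1)) := hδ1.trans (min_le_right _ _)
  have hd2 : δ ≤ 1 / 100 := hd0.trans hδ₀'
  have hKd : K₃ * δ ≤ 1 / 10 := by
    rw [le_div_iff₀ (by positivity)] at hd1
    linarith
  have FA := hA S hC
  have FB := hB δ hδ0 hd0 S hC
  have hδ2 : δ ^ 2 ≤ 1 / 10000 := by
    calc δ ^ 2 ≤ (1 / 100) ^ 2 := pow_le_pow_left₀ hδ0.le hd2 2
      _ = 1 / 10000 := by norm_num
  have hδ20 : 0 < δ ^ 2 := by positivity
  have hδ3 : δ ^ 3 ≤ δ ^ 2 / 100 := by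
    have : δ ^ 2 * δ ≤ δ ^ 2 * (1 / 100) := mul_le_mul_of_nonneg_left hd2 hδ20.le
    calc δ ^ 3 = δ ^ 2 * δ := by ring
      _ ≤ _ := this
      _ = δ ^ 2 / 100 := by ring
  have hδ30 : 0 < δ ^ 3 := by positivity
  refine ⟨?_, ?_⟩
  · intro e he a b h0 hab h1
    have hdl : |da S b - da S a| ≤ 12 * (b - a) := by
      have h := Convex.norm_image_sub_le_of_norm_hasDerivWithin_le (f := da S) (f' := S.g)
        (s := univ) (C := 12) (x := a) (y := b)
        (fun x _ => (FA.da_deriv x).hasDerivWithinAt) (fun x _ => FA.g_bd x) convex_univ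
        (mem_univ _) (mem_univ _)
      rw [Real.norm_eq_abs, Real.norm_eq_abs, abs_of_pos (sub_pos.2 hab)] at h
      exact h
    exact CVm.slope_core (δ ^ 2) (δ ^ 3) a b (uu S e a) (uu S e b) (xx δ S e a) (xx δ S e b)
      (da S a) (da S b) e hδ20 hδ2 hδ30 hδ3 he h0 hab h1
      (CVm.uu_dec K₁ K₂ K₃ δ hKd S hC hS e he a b h0 hab.le h1)
      (FB.u_bd e he a h0 (hab.le.trans h1)) (FB.u_bd e he b (h0.trans hab.le) h1)
      (FB.x_bd e he a h0 (hab.le.trans h1)) (FB.x_bd e he b (h0.trans hab.le) h1)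
      (FB.x_lip e he a b h0 hab.le h1) (FA.da_bd a) (FA.da_bd b) hdl
  · intro h
    have hp := abs_le.1 hC.pb
    have hF : Fp S.p 0 = -(1 / 30) - S.p / 2 := by
      unfold Fp F0 FL0 bb
      rw [if_pos (by norm_num)]
      rw [max_eq_left (by norm_num)]
      norm_num
      ring
    have hx : xx δ S 1 0 - xx δ S (-1) 0 = 2 * δ ^ 2 * Fp S.p 0 := by
      unfold xx
      ring
    rw [h, sub_self, hF] at hx
    have h2 : 2 * δ ^ 2 * (-(1 / 30) - S.p / 2) < 0 :=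
      mul_neg_of_pos_of_neg (by positivity) (by linarith [hp.1])
    linarith

end Pool.Agent.HV
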