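import Pool.Agent.HV.Stmts

/-!
# Convergence of the auxiliary functions (first part of §4.11, MP_678b51_gt)

Mathematics: helper76; formalisation: helper65.
-/

set_option autoImplicit false

open MeasureTheory Set Filter
open scoped Real Topology ENNReal

namespace Pool.Agent.HV

namespace CVAaux

theorem U_eq_uu (S : St) (t : ℝ) : S.U t = uu S 0 t := by
  simp [uu]

theorem U_aesm {δ : ℝ} {S : St} (hF : FactsB δ S) {a b : ℝ} (ha : 0 ≤ a) (hb : b ≤ 1) :
    AEStronglyMeasurable S.U (volume.restrict (Ioc a b)) := by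
  have h1 : AEStronglyMeasurable S.U (volume.restrict (Ico 0 (1 / 2) ∪ Icc (1 / 2) 1)) := by
    have hU : S.U = uu S 0 := funext fun t => U_eq_uu S t
    rw [hU]
    rw [aestronglyMeasurable_union_iff]
    exact ⟨(hF.u_ctL 0).aestronglyMeasurable measurableSet_Ico,
      (hF.u_ctR 0).aestronglyMeasurable measurableSet_Icc⟩
  refine h1.mono_measure (Measure.restrict_mono ?_ le_rfl)
  intro x hx
  rcases lt_or_ge x (1 / 2) with h | h
  · exact Or.inl ⟨ha.trans hx.1.le, h⟩
  · exact Or.inr ⟨h, hx.2.trans hb⟩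

theorem U_bd {S : St} (hS : Crude S) {t : ℝ} (h0 : 0 ≤ t) (h1 : t ≤ 1) : |S.U t| ≤ 4 := by
  unfold St.U
  split_ifs with h
  · have := hS.ULb t h0 h.le
    rw [abs_le]
    constructor <;> linarith [this.1, this.2]
  · have := hS.URb t (not_lt.1 h) h1
    rw [abs_le]
    constructor <;> linarith [this.1, this.2]

section

variable {δ : ℝ} {Sn : ℕ → St} {S : St}

theorem cda (hn : ∀ n, FactsA (Sn n)) (hcn : ∀ n, Crude (Sn n)) (hc : Conv Sn S) (t : ℝ) :
    Tendsto (fun n => da (Sn n) t) atTop (𝓝 (da S t)) := by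
  unfold da
  refine Tendsto.neg ?_
  refine intervalIntegral.tendsto_integral_filter_of_dominated_convergence (fun _ => 12) ?_ ?_ ?_ ?_
  · exact Eventually.of_forall fun n => (hcn n).gC.aestronglyMeasurable
  · exact Eventually.of_forall fun n => ae_of_all _ fun s _ => (hn n).g_bd s
  · exact intervalIntegrable_const
  · exact ae_of_all _ fun s _ => hc.2.2.1 s

theorem da_cont {S : St} (hS : FactsA S) : Continuous (da S) :=
  continuous_iff_continuousAt.2 fun t => (hS.da_deriv t).continuousAt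

theorem cal (hn : ∀ n, FactsA (Sn n)) (hcn : ∀ n, Crude (Sn n)) (hc : Conv Sn S) (t : ℝ) :
    Tendsto (fun n => al (Sn n) t) atTop (𝓝 (al S t)) := by
  unfold al
  refine Tendsto.neg ?_
  refine intervalIntegral.tendsto_integral_filter_of_dominated_convergence (fun _ => 8) ?_ ?_ ?_ ?_
  · exact Eventually.of_forall fun n => (da_cont (hn n)).aestronglyMeasurable
  · exact Eventually.of_forall fun n => ae_of_all _ fun s _ => (hn n).da_bd s
  · exact intervalIntegrable_const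
  · exact ae_of_all _ fun s _ => cda hn hcn hc s

theorem cab (hn : ∀ n, FactsA (Sn n)) (hcn : ∀ n, Crude (Sn n)) (hc : Conv Sn S) (t : ℝ) :
    Tendsto (fun n => ab (Sn n) t) atTop (𝓝 (ab S t)) := by
  unfold ab
  refine intervalIntegral.tendsto_integral_filter_of_dominated_convergence (fun _ => 8) ?_ ?_ ?_ ?_
  · exact Eventually.of_forall fun n =>
      ((da_cont (hn n)).comp (continuous_id.mul continuous_const)).aestronglyMeasurable
  · exact Eventually.of_forall fun n => ae_of_all _ fun s _ => (hn n).da_bd _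
  · exact intervalIntegrable_const
  · exact ae_of_all _ fun s _ => cda hn hcn hc _

theorem cdd (hn : ∀ n, FactsA (Sn n)) (hcn : ∀ n, Crude (Sn n)) (hc : Conv Sn S) (a b : ℝ) :
    Tendsto (fun n => dd (Sn n) a b) atTop (𝓝 (dd S a b)) := by
  unfold dd
  refine intervalIntegral.tendsto_integral_filter_of_dominated_convergence (fun _ => 8) ?_ ?_ ?_ ?_
  · exact Eventually.of_forall fun n =>
      ((da_cont (hn n)).comp (by fun_prop : Continuous fun θ : ℝ =>
        b + θ * (a - b))).aestronglyMeasurable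
  · exact Eventually.of_forall fun n => ae_of_all _ fun s _ => (hn n).da_bd _
  · exact intervalIntegrable_const
  · exact ae_of_all _ fun s _ => cda hn hcn hc _

theorem cGm (hn : ∀ n, FactsA (Sn n)) (hcn : ∀ n, Crude (Sn n)) (hc : Conv Sn S) (a b : ℝ) :
    Tendsto (fun n => Gm (Sn n) a b) atTop (𝓝 (Gm S a b)) := by
  unfold Gm
  refine intervalIntegral.tendsto_integral_filter_of_dominated_convergence (fun _ => 12) ?_ ?_ ?_ ?_
  · exact Eventually.of_forall fun n =>
      ((by fun_prop : Continuous fun θ : ℝ => 1 - θ).mul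
        ((hcn n).gC.comp (by fun_prop : Continuous fun θ : ℝ =>
          b + θ * (a - b)))).aestronglyMeasurable
  · refine Eventually.of_forall fun n => ae_of_all _ fun s hs => ?_
    rw [uIoc_of_le (zero_le_one' ℝ)] at hs
    rw [Real.norm_eq_abs, abs_mul]
    have h1 : |1 - s| ≤ 1 := by rw [abs_le]; constructor <;> linarith [hs.1, hs.2]
    have h2 := (hn n).g_bd (b + s * (a - b))
    calc |1 - s| * |(Sn n).g (b + s * (a - b))| ≤ 1 * 12 :=
          mul_le_mul h1 h2 (abs_nonneg _) zero_le_one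
      _ = 12 := by norm_num
  · exact intervalIntegrable_const
  · exact ae_of_all _ fun s _ => (hc.2.2.1 _).const_mul _

theorem cU (hc : Conv Sn S) {t : ℝ} (h0 : 0 ≤ t) (h1 : t ≤ 1) :
    Tendsto (fun n => (Sn n).U t) atTop (𝓝 (S.U t)) := by
  unfold St.U
  split_ifs with h
  · exact hc.1 t h0 h.le
  · exact hc.2.1 t (not_lt.1 h) h1

theorem cfp (hc : Conv Sn S) (t : ℝ) :
    Tendsto (fun n => fp (Sn n).p t) atTop (𝓝 (fp S.p t)) := by
  unfold fp
  split_ifs with h
  · exact tendsto_const_nhds.add hc.2.2.2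
  · exact tendsto_const_nhds

theorem cuu (hc : Conv Sn S) (e : ℝ) {t : ℝ} (h0 : 0 ≤ t) (h1 : t ≤ 1) :
    Tendsto (fun n => uu (Sn n) e t) atTop (𝓝 (uu S e t)) := by
  unfold uu
  exact (cU hc h0 h1).add ((cfp hc t).const_mul e)

theorem cUps (hn : ∀ n, FactsB δ (Sn n)) (hcn : ∀ n, Crude (Sn n)) (hc : Conv Sn S) {t : ℝ}
    (h0 : 0 ≤ t) (h1 : t ≤ 1) :
    Tendsto (fun n => Ups (Sn n) t) atTop (𝓝 (Ups S t)) := by
  unfold Ups
  refine Tendsto.neg ?_
  refine intervalIntegral.tendsto_integral_filter_of_dominated_convergence (fun _ => 4) ?_ ?_ ?_ ?_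
  · refine Eventually.of_forall fun n => ?_
    rw [uIoc_of_le h1]
    exact U_aesm (hn n) h0 le_rfl
  · refine Eventually.of_forall fun n => ae_of_all _ fun s hs => ?_
    rw [uIoc_of_le h1] at hs
    exact U_bd (hcn n) (h0.trans hs.1.le) hs.2
  · exact intervalIntegrable_const
  · refine ae_of_all _ fun s hs => ?_
    rw [uIoc_of_le h1] at hs
    exact cU hc (h0.trans hs.1.le) hs.2

theorem cxx (hn : ∀ n, FactsB δ (Sn n)) (hcn : ∀ n, Crude (Sn n)) (hc : Conv Sn S) (e : ℝ) {t : ℝ}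
    (h0 : 0 ≤ t) (h1 : t ≤ 1) :
    Tendsto (fun n => xx δ (Sn n) e t) atTop (𝓝 (xx δ S e t)) := by
  unfold xx
  refine tendsto_const_nhds.add (((cUps hn hcn hc h0 h1).add (Tendsto.const_mul e ?_)).const_mul _)
  unfold Fp
  exact tendsto_const_nhds.sub (hc.2.2.2.mul_const _)

end

end CVAaux

open CVAaux in
/-- (CVA) -/
theorem CVA (hA : S_FactsA) (hB : S_FactsB) : S_CVA := by
  obtain ⟨δ₁, hδ₁, -, hB⟩ := hB
  refine ⟨δ₁, hδ₁, fun δ hδ hδ1 Sn S hSn hS hc => ?_⟩
  have hAn : ∀ n, FactsA (Sn n) := fun n => hA _ (hSn n)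
  have hBn : ∀ n, FactsB δ (Sn n) := fun n => hB δ hδ hδ1 _ (hSn n)
  have hBS : FactsB δ S := hB δ hδ hδ1 S hS
  have hxx : ∀ e t, 0 ≤ t → t ≤ 1 →
      Tendsto (fun n => xx δ (Sn n) e t) atTop (𝓝 (xx δ S e t)) :=
    fun e t h0 h1 => cxx hBn hSn hc e h0 h1
  have hP0 : ∀ e s t, 0 ≤ s → s ≤ 1 →
      Tendsto (fun n => P0 δ (Sn n) e s t) atTop (𝓝 (P0 δ S e s t)) :=
    fun e s t h0 h1 => (hxx e s h0 h1).sub ((cda hAn hSn hc t).const_mul _)
  have hP1 : ∀ e s t, 0 ≤ s → s ≤ 1 →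
      Tendsto (fun n => P1 δ (Sn n) e s t) atTop (𝓝 (P1 δ S e s t)) :=
    fun e s t h0 h1 => (hxx e s h0 h1).sub ((cdd hAn hSn hc s t).const_mul _)
  have hP2 : ∀ e s t, 0 ≤ s → s ≤ 1 →
      Tendsto (fun n => P2 δ (Sn n) e s t) atTop (𝓝 (P2 δ S e s t)) :=
    fun e s t h0 h1 => (hxx e s h0 h1).sub ((cdd hAn hSn hc s (-t)).const_mul _)
  have hGG : ∀ e s t, 0 ≤ s → s ≤ 1 →
      Tendsto (fun n => GG δ (Sn n) e s t) atTop (𝓝 (GG δ S e s t)) :=
    fun e s t h0 h1 => ((hP1 e s t h0 h1).mul (hP2 e s t h0 h1)).sqrt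
  have hkap : ∀ e, (e = 1 ∨ e = -1) → ∀ s t, 0 ≤ s → s ≤ 1 →
      Tendsto (fun n => kap δ (Sn n) e s t) atTop (𝓝 (kap δ S e s t)) := by
    intro e he s t h0 h1
    exact (hP0 e s t h0 h1).div (hGG e s t h0 h1) (by linarith [(hBS.GG_bd e he s t h0 h1).1])
  refine ⟨cda hAn hSn hc, cal hAn hSn hc, cab hAn hSn hc, cdd hAn hSn hc, cGm hAn hSn hc,
    fun e t h0 h1 => cuu hc e h0 h1, hxx, ?_, fun e _ => hGG e, ?_, ?_⟩
  · intro e he s t h0 h1
    have b0 := (hBS.P0_bd e he s t h0 h1).1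
    have b1 := (hBS.P1_bd e he s t h0 h1).1
    have b2 := (hBS.P2_bd e he s t h0 h1).1
    unfold kk
    refine ((hkap e he s t h0 h1).mul_const _).mul ?_
    refine (Tendsto.add ?_ ?_).sub ?_
    · exact (hc.2.2.1 t).neg.div (hP0 e s t h0 h1) (by linarith)
    · exact (cGm hAn hSn hc s t).div ((hP1 e s t h0 h1).const_mul 2) (by linarith)
    · exact (cGm hAn hSn hc s (-t)).div ((hP2 e s t h0 h1).const_mul 2) (by linarith)
  · intro e he s t h0 h1
    unfold Th
    exact (((hxx e s h0 h1).sub ((cab hAn hSn hc t).const_mul _)).mul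
      ((hP0 e s t h0 h1).pow 2)).div (hGG e s t h0 h1)
        (by linarith [(hBS.GG_bd e he s t h0 h1).1])
  · intro e he t h0 h1
    unfold nn ZZ
    refine ((hxx e t h0 h1).sub ((cab hAn hSn hc t).const_mul _)).mul (Tendsto.sqrt ?_)
    exact ((((hxx e t h0 h1).add ((cuu hc e h0 h1).const_mul _)).sub
      ((cda hAn hSn hc t).const_mul _)).pow 2).add (((cuu hc e h0 h1).pow 2).const_mul _)

end Pool.Agent.HV
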