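import Pool.Agent.HV.Stmts

/-!
# Convergence of `γ_A` and `q` (§4.11) (MP_678b51_gt)

Mathematics: helper76; formalisation: helper16.
-/

set_option autoImplicit false

open MeasureTheory Set Filter
open scoped Real Topology ENNReal

namespace Pool.Agent.HV

namespace CVgaux

theorem int_inv_sqrt {t b : ℝ} (h : t ≤ b) :
    IntervalIntegrable (fun s => 1 / √(s - t)) volume t b := by
  rw [intervalIntegrable_iff_integrableOn_Ioc_of_le h]
  refine intervalIntegral.integrableOn_deriv_of_nonneg (g := fun s => 2 * √(s - t)) (by fun_prop)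
    (fun s hs => ?_) (fun s hs => by positivity)
  have h1 : 0 < s - t := sub_pos.2 hs.1
  have h2 := (((hasDerivAt_id s).sub_const t).sqrt (by simpa using h1.ne')).const_mul 2
  refine h2.congr_deriv ?_
  simp
  field_simp

theorem ae_div {f g : ℝ → ℝ} {μ : Measure ℝ} (hf : AEStronglyMeasurable f μ)
    (hg : AEStronglyMeasurable g μ) : AEStronglyMeasurable (fun x => f x / g x) μ :=
  (hf.aemeasurable.div hg.aemeasurable).aestronglyMeasurable

theorem meas_pieces {f : ℝ → ℝ} (hL : ContinuousOn f (Ico 0 (1 / 2)))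
    (hR : ContinuousOn f (Icc (1 / 2) 1)) :
    AEStronglyMeasurable f (volume.restrict (Icc 0 1)) := by
  have h1 := hL.aestronglyMeasurable (μ := volume) measurableSet_Ico
  have h2 := hR.aestronglyMeasurable (μ := volume) measurableSet_Icc
  have h3 : Icc (0 : ℝ) 1 = Ico 0 (1 / 2) ∪ Icc (1 / 2) 1 := by
    ext x
    simp only [mem_Icc, mem_union, mem_Ico]
    constructor
    · rintro ⟨h, h'⟩
      rcases lt_or_ge x (1 / 2) with h4 | h4
      · exact Or.inl ⟨h, h4⟩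
      · exact Or.inr ⟨h4, h'⟩
    · rintro (⟨h, h'⟩ | ⟨h, h'⟩)
      · exact ⟨h, by linarith⟩
      · exact ⟨by linarith, h'⟩
  rw [h3]
  exact (aestronglyMeasurable_union_iff).2 ⟨h1, h2⟩

section

variable {δ : ℝ} {S : St}

theorem da_abs (hA : FactsA S) (hδ : 0 < δ) (hδ1 : δ ≤ 1 / 100) {e : ℝ} (he : e = 1 ∨ e = -1)
    {y : ℝ} (hy : |y| ≤ 8) : |e * δ ^ 3 * y| ≤ 1 / 100 := by
  have he' : |e| = 1 := by rcases he with rfl | rfl <;> simp
  rw [abs_mul, abs_mul, he', one_mul, abs_of_pos (by positivity)]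
  have : δ ^ 3 ≤ (1 / 100) ^ 3 := by gcongr
  calc δ ^ 3 * |y| ≤ (1 / 100) ^ 3 * 8 := by gcongr
    _ ≤ 1 / 100 := by norm_num

theorem xx_abs (hB : FactsB δ S) (hδ : 0 < δ) (hδ1 : δ ≤ 1 / 100) {e : ℝ} (he : e = 1 ∨ e = -1)
    {s : ℝ} (hs : 0 ≤ s) (hs1 : s ≤ 1) : |xx δ S e s - 3| ≤ 1 / 100 := by
  have h1 := hB.x_bd e he s hs hs1
  have : δ ^ 2 ≤ (1 / 100) ^ 2 := by gcongr
  linarith

theorem Th_bd (hA : FactsA S) (hB : FactsB δ S) (hδ : 0 < δ) (hδ1 : δ ≤ 1 / 100) {e : ℝ}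
    (he : e = 1 ∨ e = -1) {s t : ℝ} (hs : 0 ≤ s) (hs1 : s ≤ 1) : |Th δ S e s t| ≤ 32 := by
  have h1 := abs_le.1 (xx_abs hB hδ hδ1 he hs hs1)
  have h2 := abs_le.1 (da_abs hA hδ hδ1 he (hA.ab_bd t))
  have h3 := hB.P0_bd e he s t hs hs1
  have h4 := hB.GG_bd e he s t hs hs1
  unfold Th
  rw [abs_div, abs_mul, abs_pow, abs_of_pos (show 0 < GG δ S e s t by linarith),
    abs_of_pos (show 0 < P0 δ S e s t by linarith), div_le_iff₀ (by linarith)]
  have h5 : |xx δ S e s - e * δ ^ 3 * ab S t| ≤ 4 := by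
    rw [abs_le]; constructor <;> linarith
  have h6 : P0 δ S e s t ^ 2 ≤ 4 ^ 2 := by gcongr; linarith; exact h3.2
  calc |xx δ S e s - e * δ ^ 3 * ab S t| * P0 δ S e s t ^ 2 ≤ 4 * 4 ^ 2 := by gcongr
    _ ≤ 32 * 2 := by norm_num
    _ ≤ 32 * GG δ S e s t := by gcongr; exact h4.1

theorem u_abs (hB : FactsB δ S) {e : ℝ} (he : e = 1 ∨ e = -1) {s : ℝ} (hs : 0 ≤ s) (hs1 : s ≤ 1) :
    |uu S e s| ≤ 5 := by
  have h := hB.u_bd e he s hs hs1
  rw [abs_le]; constructor <;> linarith [h.1, h.2]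

theorem GG_meas (hA : FactsA S) (hB : FactsB δ S) (e t : ℝ) :
    ContinuousOn (fun s => GG δ S e s t) (Icc 0 1) := by
  have hx := hB.x_cont e
  have h1 : Continuous fun s => dd S s t := hA.dd_cont.comp (by fun_prop : Continuous fun s : ℝ => (s, t))
  have h2 : Continuous fun s => dd S s (-t) :=
    hA.dd_cont.comp (by fun_prop : Continuous fun s : ℝ => (s, -t))
  unfold GG P1 P2
  have h1' := h1.continuousOn (s := Icc 0 1)
  have h2' := h2.continuousOn (s := Icc 0 1)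
  exact (((hx.sub (h1'.const_mul (e * δ ^ 3)))).mul (hx.sub (h2'.const_mul (e * δ ^ 3)))).sqrt

theorem Pae_meas (hA : FactsA S) (hB : FactsB δ S) (e t : ℝ) :
    AEStronglyMeasurable (fun s => uu S e s * Th δ S e s t / √(s ^ 2 - t ^ 2))
      (volume.restrict (Icc 0 1)) := by
  have h1 := meas_pieces (hB.u_ctL e) (hB.u_ctR e)
  have hx := hB.x_cont e
  have h2 : AEStronglyMeasurable (fun s => Th δ S e s t) (volume.restrict (Icc 0 1)) := by
    unfold Th P0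
    refine ae_div ?_ ((GG_meas hA hB e t).aestronglyMeasurable measurableSet_Icc)
    refine ContinuousOn.aestronglyMeasurable ?_ measurableSet_Icc
    exact (hx.sub continuousOn_const).mul ((hx.sub continuousOn_const).pow 2)
  have h3 : AEStronglyMeasurable (fun s : ℝ => √(s ^ 2 - t ^ 2)) (volume.restrict (Icc 0 1)) :=
    (by fun_prop : Continuous fun s : ℝ => √(s ^ 2 - t ^ 2)).aestronglyMeasurable
  exact ae_div (h1.mul h2) h3

theorem sqrt_lb {t s : ℝ} (ht : 0 < t) (hs : t < s) : √t * √(s - t) ≤ √(s ^ 2 - t ^ 2) := by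
  rw [← Real.sqrt_mul ht.le]
  refine Real.sqrt_le_sqrt ?_
  nlinarith

theorem Pae_bd (hA : FactsA S) (hB : FactsB δ S) (hδ : 0 < δ) (hδ1 : δ ≤ 1 / 100) {e : ℝ}
    (he : e = 1 ∨ e = -1) {s t : ℝ} (ht : 0 < t) (hs : t < s) (hs1 : s ≤ 1) :
    ‖uu S e s * Th δ S e s t / √(s ^ 2 - t ^ 2)‖ ≤ 160 / √t * (1 / √(s - t)) := by
  have h1 := u_abs hB he (ht.trans hs).le hs1
  have h2 := Th_bd (t := t) hA hB hδ hδ1 he (ht.trans hs).le hs1
  have h3 := sqrt_lb ht hs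
  have h4 : 0 < √t := Real.sqrt_pos.2 ht
  have h5 : 0 < √(s - t) := Real.sqrt_pos.2 (sub_pos.2 hs)
  rw [Real.norm_eq_abs, abs_div, abs_mul, abs_of_nonneg (Real.sqrt_nonneg (s ^ 2 - t ^ 2))]
  calc |uu S e s| * |Th δ S e s t| / √(s ^ 2 - t ^ 2) ≤ 5 * 32 / (√t * √(s - t)) := by gcongr
    _ = 160 / √t * (1 / √(s - t)) := by field_simp; norm_num

end

variable {δ : ℝ} {Sn : ℕ → St} {S : St}

theorem Pae_tendsto (hδ : 0 < δ) (hδ1 : δ ≤ 1 / 100) (hA : ∀ n, FactsA (Sn n))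
    (hB : ∀ n, FactsB δ (Sn n)) (hc : ConvA δ Sn S) {e : ℝ} (he : e = 1 ∨ e = -1) {t : ℝ}
    (ht : 0 < t) (ht1 : t ≤ 1) :
    Tendsto (fun n => Pae δ (Sn n) e t) atTop (𝓝 (Pae δ S e t)) := by
  unfold Pae
  refine intervalIntegral.tendsto_integral_filter_of_dominated_convergence
    (fun s => 160 / √t * (1 / √(s - t))) (Eventually.of_forall fun n => ?_)
    (Eventually.of_forall fun n => Eventually.of_forall fun s hs => ?_)
    ((int_inv_sqrt ht1).const_mul _) (Eventually.of_forall fun s hs => ?_)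
  · refine (Pae_meas (hA n) (hB n) e t).mono_measure (Measure.restrict_mono ?_ le_rfl)
    rw [uIoc_of_le ht1]
    exact fun s hs => ⟨ht.le.trans hs.1.le, hs.2⟩
  · rw [uIoc_of_le ht1] at hs
    exact Pae_bd (hA n) (hB n) hδ hδ1 he ht hs.1 hs.2
  · rw [uIoc_of_le ht1] at hs
    exact ((hc.uu e s (ht.le.trans hs.1.le) hs.2).mul
      (hc.Th e he s t (ht.le.trans hs.1.le) hs.2)).div_const _

theorem Pa_tendsto (hδ : 0 < δ) (hδ1 : δ ≤ 1 / 100) (hA : ∀ n, FactsA (Sn n))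
    (hB : ∀ n, FactsB δ (Sn n)) (hc : ConvA δ Sn S) {t : ℝ}
    (ht : 0 ≤ t) (ht1 : t ≤ 1) :
    Tendsto (fun n => Pa δ (Sn n) t) atTop (𝓝 (Pa δ S t)) := by
  unfold Pa
  rcases ht.eq_or_lt with rfl | ht
  · simp
  · exact ((Pae_tendsto hδ hδ1 hA hB hc (Or.inl rfl) ht ht1).sub
      (Pae_tendsto hδ hδ1 hA hB hc (Or.inr rfl) ht ht1)).const_mul _

theorem yr_tendsto (hc : ConvA δ Sn S) (e t r : ℝ) :
    Tendsto (fun n => yr δ (Sn n) e t r) atTop (𝓝 (yr δ S e t r)) := by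
  unfold yr
  exact ((hc.al t).const_mul _).const_sub _

theorem wr_tendsto (hc : ConvA δ Sn S) (e t r : ℝ) :
    Tendsto (fun n => wr δ (Sn n) e t r) atTop (𝓝 (wr δ S e t r)) := by
  unfold wr
  exact (((yr_tendsto hc e t r).pow 2).const_sub _).sqrt

theorem wr_cont (S : St) (e t : ℝ) : Continuous fun r => wr δ S e t r := by
  unfold wr yr xr
  fun_prop

theorem Rh_ge (hδ : 0 < δ) : 3 ≤ Rh δ := by
  unfold Rh
  have : 0 < 4 / δ := by positivity
  linarith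

theorem wr_le (S : St) {e t r : ℝ} (hr : 0 ≤ r) : wr δ S e t r ≤ r := by
  unfold wr
  calc √(r ^ 2 - yr δ S e t r ^ 2) ≤ √(r ^ 2) := Real.sqrt_le_sqrt (by nlinarith [sq_nonneg (yr δ S e t r)])
    _ = r := Real.sqrt_sq hr

theorem wr_ge (hB : FactsB δ S) {e : ℝ} (he : e = 1 ∨ e = -1) {t r : ℝ} (ht : 0 ≤ t) (ht1 : t ≤ 1)
    (hr : 3 ≤ r) (hr1 : r ≤ Rh δ) : √(r - 3) ≤ wr δ S e t r := by
  unfold wr
  refine Real.sqrt_le_sqrt (le_trans ?_ (hB.wr_lb e he t r ht ht1 hr hr1))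
  nlinarith

theorem Ihe_tendsto (hδ : 0 < δ) (hA : ∀ n, FactsA (Sn n))
    (hB : ∀ n, FactsB δ (Sn n)) (hc : ConvA δ Sn S) {e : ℝ} (he : e = 1 ∨ e = -1) {t : ℝ}
    (ht : 0 ≤ t) (ht1 : t ≤ 1) :
    Tendsto (fun n => Ihe δ (Sn n) e t) atTop (𝓝 (Ihe δ S e t)) := by
  unfold Ihe
  have hR := Rh_ge hδ
  refine (Tendsto.const_mul _ ?_).add (Tendsto.const_mul _ ?_)
  · refine intervalIntegral.tendsto_integral_filter_of_dominated_convergence
      (fun s => (20 : ℝ)) (Eventually.of_forall fun n => ?_)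
      (Eventually.of_forall fun n => Eventually.of_forall fun s hs => ?_)
      (by simp) (Eventually.of_forall fun s hs => ?_)
    · have h1 := meas_pieces ((hB n).u_ctL e) ((hB n).u_ctR e)
      have h2 := (GG_meas (hA n) (hB n) e t).aestronglyMeasurable (μ := volume) measurableSet_Icc
      have h3 : AEStronglyMeasurable (fun s : ℝ => √(s ^ 2 - t ^ 2)) (volume.restrict (Icc 0 1)) :=
        (by fun_prop : Continuous fun s : ℝ => √(s ^ 2 - t ^ 2)).aestronglyMeasurable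
      refine ((h3.mul h2).mul h1.neg).mono_measure (Measure.restrict_mono ?_ le_rfl)
      rw [uIoc_of_le ht1]
      exact fun s hs => ⟨ht.trans hs.1.le, hs.2⟩
    · rw [uIoc_of_le ht1] at hs
      have hs0 : 0 ≤ s := ht.trans hs.1.le
      have h1 := u_abs (hB n) he hs0 hs.2
      have h2 := (hB n).GG_bd e he s t hs0 hs.2
      have h3 : √(s ^ 2 - t ^ 2) ≤ 1 := Real.sqrt_le_one.2 (by nlinarith [sq_nonneg t, hs.2])
      rw [Real.norm_eq_abs, abs_mul, abs_mul, abs_neg, abs_of_nonneg (Real.sqrt_nonneg _),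
        abs_of_nonneg (show 0 ≤ GG δ (Sn n) e s t by linarith)]
      calc √(s ^ 2 - t ^ 2) * GG δ (Sn n) e s t * |uu (Sn n) e s| ≤ 1 * 4 * 5 := by
            gcongr
            · linarith
            · exact h2.2
        _ = 20 := by norm_num
    · rw [uIoc_of_le ht1] at hs
      have hs0 : 0 ≤ s := ht.trans hs.1.le
      exact ((hc.GG e he s t hs0 hs.2).const_mul _).mul (hc.uu e s hs0 hs.2).neg
  · refine intervalIntegral.tendsto_integral_filter_of_dominated_convergence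
      (fun s => Rh δ) (Eventually.of_forall fun n => (wr_cont (Sn n) e t).aestronglyMeasurable)
      (Eventually.of_forall fun n => Eventually.of_forall fun r hr => ?_)
      (by simp) (Eventually.of_forall fun r hr => wr_tendsto hc e t r)
    rw [uIoc_of_le hR] at hr
    have h0 : 0 ≤ wr δ (Sn n) e t r := Real.sqrt_nonneg _
    rw [Real.norm_eq_abs, abs_of_nonneg h0]
    exact (wr_le (Sn n) (by linarith [hr.1])).trans hr.2

theorem xr_bd (hδ : 0 < δ) {r : ℝ} (hr : 3 ≤ r) (hr1 : r ≤ Rh δ) : 0 ≤ xr δ r ∧ xr δ r ≤ 3 := by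
  unfold xr
  unfold Rh at hr1
  constructor
  · have : δ * (r - 3) ≤ δ * (4 / δ) := by gcongr; linarith
    have h2 : δ * (4 / δ) = 4 := by field_simp
    linarith
  · have : 0 ≤ δ * (r - 3) := mul_nonneg hδ.le (by linarith)
    linarith

theorem Kce_tendsto (hδ : 0 < δ) (hδ1 : δ ≤ 1 / 100) (hA : ∀ n, FactsA (Sn n))
    (hB : ∀ n, FactsB δ (Sn n)) (hBS : FactsB δ S)
    (hc : ConvA δ Sn S) {e : ℝ} (he : e = 1 ∨ e = -1) {t : ℝ}
    (ht : 0 ≤ t) (ht1 : t ≤ 1) :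
    Tendsto (fun n => Kce δ (Sn n) e t) atTop (𝓝 (Kce δ S e t)) := by
  have hR := Rh_ge hδ
  unfold Kce
  refine intervalIntegral.tendsto_integral_filter_of_dominated_convergence
    (fun r => 64 * (1 / √(r - 3))) (Eventually.of_forall fun n => ?_)
    (Eventually.of_forall fun n => Eventually.of_forall fun r hr => ?_)
    ((int_inv_sqrt hR).const_mul _) (Eventually.of_forall fun r hr => ?_)
  · have h1 : Continuous fun r => yr δ (Sn n) e t r * (xr δ r - e * δ ^ 3 * da (Sn n) t) ^ 2 := by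
      unfold yr xr
      fun_prop
    exact ae_div h1.aestronglyMeasurable (wr_cont (Sn n) e t).aestronglyMeasurable
  · rw [uIoc_of_le hR] at hr
    have hx := xr_bd hδ hr.1.le hr.2
    have h1 := wr_ge (hB n) he ht ht1 hr.1.le hr.2
    have h2 : 0 < √(r - 3) := Real.sqrt_pos.2 (sub_pos.2 hr.1)
    have h3 := abs_le.1 (da_abs (hA n) hδ hδ1 he ((hA n).da_bd t))
    have hal : |al (Sn n) t| ≤ 8 := by
      have := (hA n).al_le' t ht
      linarith
    have h4 := abs_le.1 (da_abs (hA n) hδ hδ1 he hal)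
    have h5 : |yr δ (Sn n) e t r| ≤ 4 := by
      unfold yr
      have : 0 ≤ t * xr δ r := mul_nonneg ht hx.1
      have h6 : t * xr δ r ≤ 1 * 3 := mul_le_mul ht1 hx.2 hx.1 zero_le_one
      rw [abs_le]; constructor <;> linarith
    have h7 : |xr δ r - e * δ ^ 3 * da (Sn n) t| ≤ 4 := by
      rw [abs_le]; constructor <;> linarith
    have h0 : 0 ≤ wr δ (Sn n) e t r := Real.sqrt_nonneg _
    rw [Real.norm_eq_abs, abs_div, abs_mul, abs_pow, abs_of_nonneg h0]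
    calc |yr δ (Sn n) e t r| * |xr δ r - e * δ ^ 3 * da (Sn n) t| ^ 2 / wr δ (Sn n) e t r
        ≤ 4 * 4 ^ 2 / √(r - 3) := by gcongr
      _ = 64 * (1 / √(r - 3)) := by ring
  · rw [uIoc_of_le hR] at hr
    have h1 := wr_ge hBS he ht ht1 hr.1.le hr.2
    have h2 : 0 < √(r - 3) := Real.sqrt_pos.2 (sub_pos.2 hr.1)
    exact ((yr_tendsto hc e t r).mul (((hc.da t).const_mul _).const_sub _ |>.pow 2)).div
      (wr_tendsto hc e t r) (by linarith)

theorem gA_tendsto (hδ : 0 < δ) (hδ1 : δ ≤ 1 / 100) (hA : ∀ n, FactsA (Sn n))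
    (hB : ∀ n, FactsB δ (Sn n)) (hBS : FactsB δ S)
    (hc : ConvA δ Sn S) {t : ℝ} (hI : Ih δ S t ≠ 0)
    (ht : 0 ≤ t) (ht1 : t ≤ 1) :
    Tendsto (fun n => gA δ (Sn n) t) atTop (𝓝 (gA δ S t)) := by
  unfold gA
  refine Tendsto.div ((Pa_tendsto hδ hδ1 hA hB hc ht ht1).sub ?_) ?_ hI
  · unfold Kc
    exact ((Kce_tendsto hδ hδ1 hA hB hBS hc (Or.inl rfl) ht ht1).sub
      (Kce_tendsto hδ hδ1 hA hB hBS hc (Or.inr rfl) ht ht1)).const_mul _
  · unfold Ih
    exact (Ihe_tendsto hδ hA hB hc (Or.inl rfl) ht ht1).add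
      (Ihe_tendsto hδ hA hB hc (Or.inr rfl) ht ht1)

theorem Om_cont : Continuous Om := by
  unfold Om
  fun_prop

theorem Om_mono {a b : ℝ} (hab : a ≤ b) : Om a ≤ Om b := by
  unfold Om
  have h1 : √a ≤ √b := Real.sqrt_le_sqrt hab
  have h2 : √(1 / 2 - b) ≤ √(1 / 2 - a) := Real.sqrt_le_sqrt (by linarith)
  have h3 : √(1 - b) ≤ √(1 - a) := Real.sqrt_le_sqrt (by linarith)
  linarith

theorem sqrt_half_sub {a b : ℝ} (hab : a ≤ b) : |√(b / 2) - √(a / 2)| ≤ √b - √a := by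
  have h0 : √a ≤ √b := Real.sqrt_le_sqrt hab
  have h1 : √(b / 2) = √b / √2 := Real.sqrt_div' b (by norm_num)
  have h2 : √(a / 2) = √a / √2 := Real.sqrt_div' a (by norm_num)
  have h3 : (1 : ℝ) ≤ √2 := by rw [Real.one_le_sqrt]; norm_num
  rw [h1, h2, ← sub_div, abs_of_nonneg (div_nonneg (by linarith) (by linarith))]
  exact div_le_self (by linarith) h3

theorem Cop_inc (hK2 : S_K2) {p : ℝ} (hp : |p| ≤ 1 / 1000) {a b : ℝ} (ha : 0 ≤ a) (hab : a ≤ b)
    (hb : b ≤ 1) : |Cop (fp p) b - Cop (fp p) a| ≤ 17 / 2 * 1 * (Om b - Om a) := by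
  have hp' := abs_le.1 hp
  have h : fp p = fun t => if t < 1 / 2 then fL p t else -bb := rfl
  rw [h]
  refine hK2 (fL p) (fun _ => -bb) 1 zero_le_one (fun t ht ht1 => ?_) (fun t _ _ => ?_)
    (fun a b ha hab hb => ?_) (fun a b ha hab hb => ?_) a b ha hab hb
  · have h1 : √(t / 2) ≤ 1 := Real.sqrt_le_one.2 (by linarith)
    have h2 := Real.sqrt_nonneg (t / 2)
    unfold fL fL0 bb
    rw [abs_le]; constructor <;> linarith
  · unfold bb; norm_num
  · have h1 := sqrt_half_sub hab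
    have h2 : fL p b - fL p a = -(7 / 100) * (√(b / 2) - √(a / 2)) := by
      unfold fL fL0 bb; ring
    rw [h2, abs_mul]
    have h3 : |(-(7 / 100) : ℝ)| = 7 / 100 := by norm_num
    rw [h3]
    have h4 := abs_nonneg (√(b / 2) - √(a / 2))
    linarith
  · have : √a ≤ √b := Real.sqrt_le_sqrt hab
    simp
    linarith

end CVgaux

open CVgaux

/-- §4.11, the functions `γ_A` and `q` -/
theorem CVg (hA : S_FactsA) (hB : S_FactsB) (hV : S_CVA) (hIE : S_IE) (hGA : S_GA) (hK2 : S_K2) :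
    S_CVg := by
  obtain ⟨δB, hδB, hδB1, hB⟩ := hB
  obtain ⟨δV, hδV, hV⟩ := hV
  obtain ⟨CI, hCI, δI, hδI, hIE⟩ := hIE
  obtain ⟨CG, hCG, δG, hδG, hGA⟩ := hGA
  refine ⟨min (min δB δV) (min (min δI δG) (1 / CI)), by positivity, fun δ hδ hδ1 Sn S hn hS hcv => ?_⟩
  simp only [le_min_iff] at hδ1
  obtain ⟨⟨h1, h2⟩, ⟨h3, h4⟩, h5⟩ := hδ1
  have hδ1 : δ ≤ 1 / 100 := h1.trans hδB1
  have hAn : ∀ n, FactsA (Sn n) := fun n => hA _ (hn n)
  have hBn : ∀ n, FactsB δ (Sn n) := fun n => hB δ hδ h1 _ (hn n)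
  have hBS : FactsB δ S := hB δ hδ h1 _ hS
  have hc := hV δ hδ h2 Sn S hn hS hcv
  have hg : ∀ t, 0 ≤ t → t ≤ 1 → Tendsto (fun n => gA δ (Sn n) t) atTop (𝓝 (gA δ S t)) := by
    intro t ht ht1
    refine gA_tendsto hδ hδ1 hAn hBn hBS hc ?_ ht ht1
    have h6 := (hIE δ hδ h3 S hS).1 t ht ht1
    have h7 : CI * δ ≤ 1 := by
      calc CI * δ ≤ CI * (1 / CI) := by gcongr
        _ = 1 := by field_simp
    have h8 := (abs_le.1 h6).1
    linarith
  refine ⟨hg, ?_⟩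
  have hginc : ∀ n, ∀ a b, 0 ≤ a → a ≤ b → b ≤ 1 →
      |gA δ (Sn n) b - gA δ (Sn n) a| ≤ (CG * δ + 51 / 4) * (Om b - Om a) := by
    intro n a b ha hab hb
    have h6 := (hGA δ hδ h4 (Sn n) (hn n)).2.2 a b ha hab hb
    have h7 := Cop_inc hK2 (hn n).pb ha hab hb
    have h8 : gA δ (Sn n) b - gA δ (Sn n) a =
        ((gA δ (Sn n) b - 3 / 2 * Cop (fp (Sn n).p) b) -
          (gA δ (Sn n) a - 3 / 2 * Cop (fp (Sn n).p) a)) +
        3 / 2 * (Cop (fp (Sn n).p) b - Cop (fp (Sn n).p) a) := by ring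
    rw [h8]
    refine (abs_add_le _ _).trans ?_
    rw [abs_mul, abs_of_pos (by norm_num : (0 : ℝ) < 3 / 2)]
    linarith
  have hM : 0 ≤ CG * δ + 51 / 4 := by positivity
  have hgc : ∀ n, ContinuousOn (gA δ (Sn n)) (Icc 0 1) := by
    intro n
    have key : ∀ x ∈ Icc (0 : ℝ) 1, ∀ y ∈ Icc (0 : ℝ) 1,
        |gA δ (Sn n) y - gA δ (Sn n) x| ≤ (CG * δ + 51 / 4) * |Om y - Om x| := by
      intro x hx y hy
      rcases le_total x y with h | h
      · rw [abs_of_nonneg (sub_nonneg.2 (Om_mono h))]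
        exact hginc n x y hx.1 h hy.2
      · rw [abs_sub_comm, abs_sub_comm (Om y), abs_of_nonneg (sub_nonneg.2 (Om_mono h))]
        exact hginc n y x hy.1 h hx.2
    intro x hx
    rw [ContinuousWithinAt, tendsto_iff_norm_sub_tendsto_zero]
    have h6 : Tendsto (fun y => (CG * δ + 51 / 4) * |Om y - Om x|) (𝓝[Icc 0 1] x) (𝓝 0) := by
      have h7 : Tendsto (fun y => (CG * δ + 51 / 4) * |Om y - Om x|) (𝓝 x)
          (𝓝 ((CG * δ + 51 / 4) * |Om x - Om x|)) :=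
        ((Om_cont.tendsto x).sub_const _).abs.const_mul _
      simp only [sub_self, abs_zero, mul_zero] at h7
      exact h7.mono_left nhdsWithin_le_nhds
    refine squeeze_zero' (Eventually.of_forall fun y => norm_nonneg _) ?_ h6
    filter_upwards [self_mem_nhdsWithin] with y hy
    exact key x hx y hy
  have hgb : ∀ n, ∀ t, 0 ≤ t → t ≤ 1 → |gA δ (Sn n) t| ≤ (CG * δ + 51 / 4) * (Om 1 - Om 0) := by
    intro n t ht ht1
    have h6 := hginc n 0 t le_rfl ht ht1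
    rw [(hGA δ hδ h4 (Sn n) (hn n)).1, sub_zero] at h6
    refine h6.trans (mul_le_mul_of_nonneg_left ?_ hM)
    linarith [Om_mono ht1]
  unfold qq
  refine intervalIntegral.tendsto_integral_filter_of_dominated_convergence
    (fun s => (CG * δ + 51 / 4) * (Om 1 - Om 0)) (Eventually.of_forall fun n => ?_)
    (Eventually.of_forall fun n => Eventually.of_forall fun t ht => ?_)
    (by simp) (Eventually.of_forall fun t ht => ?_)
  · have h6 : ContinuousOn (fun t => t * gA δ (Sn n) t) (Icc 0 1) := continuousOn_id.mul (hgc n)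
    refine (h6.aestronglyMeasurable measurableSet_Icc).mono_measure (Measure.restrict_mono ?_ le_rfl)
    rw [uIoc_of_le zero_le_one]
    exact Ioc_subset_Icc_self
  · rw [uIoc_of_le zero_le_one] at ht
    rw [Real.norm_eq_abs, abs_mul, abs_of_pos ht.1]
    calc t * |gA δ (Sn n) t| ≤ 1 * |gA δ (Sn n) t| := by gcongr; exact ht.2
      _ ≤ _ := by rw [one_mul]; exact hgb n t ht.1.le ht.2
  · rw [uIoc_of_le zero_le_one] at ht
    exact (hg t ht.1.le ht.2).const_mul _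

end Pool.Agent.HV
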