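import Pool.Agent.HV.Stmts

/-!
# MP_678b51_gt, module HV_CVr   (helper25)

Continuity of `Rhs` along pointwise convergent sequences of crude states (§4.11).
-/

set_option autoImplicit false

open MeasureTheory Set Filter
open scoped Real Topology ENNReal

namespace Pool.Agent.HV

namespace CVrAux

lemma Om_cont : Continuous Om := by
  unfold Om
  fun_prop

lemma sqrt_sum (c s : ℝ) (hs : 0 ≤ s) : √c ≤ √s + √(c - s) := by
  have h1 := Real.sqrt_nonneg s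
  have h2 := Real.sqrt_nonneg (c - s)
  rw [Real.sqrt_le_left (by positivity)]
  have h3 := Real.sq_sqrt hs
  rcases le_total s c with h | h
  · have h4 := Real.sq_sqrt (show 0 ≤ c - s by linarith)
    nlinarith [mul_nonneg h1 h2]
  · nlinarith [mul_nonneg h1 h2, sq_nonneg (√(c - s))]

lemma Om_le (s : ℝ) (hs : 0 ≤ s) : Om s - Om 0 ≤ 6 * √s := by
  have h1 := sqrt_sum (1 / 2) s hs
  have h2 := sqrt_sum 1 s hs
  have h3 : Om s - Om 0 = 2 * √s - 2 * √(1 / 2 - s) - 2 * √(1 - s) + 2 * √(1 / 2) + 2 * √1 := by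
    unfold Om
    rw [Real.sqrt_zero, sub_zero, sub_zero]
    ring
  rw [h3]
  generalize √(1 / 2) = a at *
  generalize √(1 / 2 - s) = b at *
  generalize √(1 - s) = c at *
  generalize √1 = d at *
  linarith

/-- a function whose increments are dominated by those of `Om` is continuous on `[0,1]` -/
lemma cont_of_inc (h : ℝ → ℝ) (B : ℝ)
    (hi : ∀ a b, 0 ≤ a → a ≤ b → b ≤ 1 → |h b - h a| ≤ B * (Om b - Om a)) :
    ContinuousOn h (Icc 0 1) := by
  have hi' : ∀ a ∈ Icc (0 : ℝ) 1, ∀ b ∈ Icc (0 : ℝ) 1, |h b - h a| ≤ |B * (Om b - Om a)| := by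
    intro a ha b hb
    rcases le_total a b with hab | hab
    · exact (hi a b ha.1 hab hb.2).trans (le_abs_self _)
    · rw [abs_sub_comm]
      refine (hi b a hb.1 hab ha.2).trans ((le_abs_self _).trans (le_of_eq ?_))
      rw [abs_mul, abs_mul, abs_sub_comm]
  intro a ha
  rw [ContinuousWithinAt, tendsto_iff_norm_sub_tendsto_zero]
  have hc : Tendsto (fun b => |B * (Om b - Om a)|) (𝓝[Icc 0 1] a) (𝓝 0) := by
    have : Tendsto (fun b => |B * (Om b - Om a)|) (𝓝 a) (𝓝 |B * (Om a - Om a)|) :=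
      ((Om_cont.sub continuous_const).const_mul B |>.abs.tendsto a)
    rw [sub_self, mul_zero, abs_zero] at this
    exact this.mono_left nhdsWithin_le_nhds
  refine squeeze_zero' (Eventually.of_forall fun _ => norm_nonneg _) ?_ hc
  filter_upwards [self_mem_nhdsWithin] with b hb
  exact hi' a ha b hb

lemma sub_sqrt_int (t : ℝ) (ht : t ≤ 1) :
    IntervalIntegrable (fun s => 1 / √(s - t)) volume t 1 := by
  have h := (intervalIntegral.intervalIntegrable_rpow' (a := t - t) (b := 1 - t)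
    (r := (-1 / 2 : ℝ)) (by norm_num)).comp_sub_right t
  rw [sub_add_cancel, sub_add_cancel] at h
  refine h.congr ?_
  intro s hs
  rw [uIoc_of_le ht] at hs
  have h0 : 0 ≤ s - t := by linarith [hs.1]
  simp only
  rw [show (-1 / 2 : ℝ) = -(1 / 2) by norm_num, Real.rpow_neg h0, ← Real.sqrt_eq_rpow, one_div]

/-! ### `Qd` -/

lemma yr_bd {δ : ℝ} {S : St} (h0 : 0 < δ) (h1 : δ ≤ 1) (hA : FactsA S) {e : ℝ}
    (he : e = 1 ∨ e = -1) {t r : ℝ} (ht0 : 0 ≤ t) (ht1 : t ≤ 1) (hr0 : 3 ≤ r) (hr1 : r ≤ Rh δ) :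
    0 ≤ xr δ r ∧ xr δ r ≤ 3 ∧ |yr δ S e t r| ≤ 11 ∧ |xr δ r - e * δ ^ 3 * da S t| ≤ 11 := by
  have hd3 : δ ^ 3 ≤ 1 := pow_le_one₀ h0.le h1
  have hd30 : 0 ≤ δ ^ 3 := by positivity
  have hr2 : δ * (r - 3) ≤ 4 := by
    unfold Rh at hr1
    have : r - 3 ≤ 4 / δ := by linarith
    calc δ * (r - 3) ≤ δ * (4 / δ) := by gcongr
      _ = 4 := by field_simp
  have hr3 : 0 ≤ δ * (r - 3) := mul_nonneg h0.le (by linarith)
  have hx0 : 0 ≤ xr δ r := by
    unfold xr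
    nlinarith
  have hx1 : xr δ r ≤ 3 := by
    unfold xr
    nlinarith
  have hal := hA.al_le' t ht0
  have hda := hA.da_bd t
  have he' : |e| = 1 := by
    rcases he with h | h <;> simp [h]
  refine ⟨hx0, hx1, ?_, ?_⟩
  · unfold yr
    have h2 : |t * xr δ r| ≤ 3 := by
      rw [abs_of_nonneg (by positivity)]
      nlinarith
    have h3 : |e * δ ^ 3 * al S t| ≤ 8 := by
      rw [abs_mul, abs_mul, he', one_mul, abs_of_nonneg hd30]
      calc δ ^ 3 * |al S t| ≤ 1 * (8 * t) := by gcongr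
        _ ≤ 8 := by linarith
    calc _ ≤ |t * xr δ r| + |e * δ ^ 3 * al S t| := abs_sub _ _
      _ ≤ 11 := by linarith
  · have h2 : |xr δ r| ≤ 3 := by
      rw [abs_of_nonneg hx0]
      exact hx1
    have h3 : |e * δ ^ 3 * da S t| ≤ 8 := by
      rw [abs_mul, abs_mul, he', one_mul, abs_of_nonneg hd30]
      calc δ ^ 3 * |da S t| ≤ 1 * 8 := by gcongr
        _ = 8 := by norm_num
    calc _ ≤ |xr δ r| + |e * δ ^ 3 * da S t| := abs_sub _ _
      _ ≤ 11 := by linarith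

lemma wr_pos {δ : ℝ} {S : St} (hB : FactsB δ S) {e : ℝ}
    (he : e = 1 ∨ e = -1) {t r : ℝ} (ht0 : 0 ≤ t) (ht1 : t < 1) (hr0 : 3 ≤ r) (hr1 : r ≤ Rh δ) :
    √(6 * (1 - t)) ≤ wr δ S e t r := by
  unfold wr
  apply Real.sqrt_le_sqrt
  refine le_trans ?_ (hB.wr_lb e he t r ht0 ht1.le hr0 hr1)
  nlinarith

lemma Qi_bd {δ : ℝ} {S : St} (h0 : 0 < δ) (h1 : δ ≤ 1) (hA : FactsA S) (hB : FactsB δ S) {e : ℝ}
    (he : e = 1 ∨ e = -1) {t r : ℝ} (ht0 : 0 ≤ t) (ht1 : t < 1) (hr0 : 3 ≤ r) (hr1 : r ≤ Rh δ) :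
    |Qi δ S e t r| ≤ 12 / √(6 * (1 - t)) + 11 ^ 2 * 11 / √(6 * (1 - t)) ^ 3 := by
  obtain ⟨hx0, hx1, hy, hx⟩ := yr_bd h0 h1 hA he ht0 ht1.le hr0 hr1
  have hc : 0 < √(6 * (1 - t)) := Real.sqrt_pos.2 (by nlinarith)
  have hw := wr_pos hB he ht0 ht1 hr0 hr1
  have hw0 : 0 < wr δ S e t r := lt_of_lt_of_le hc hw
  have hd3 : δ ^ 3 ≤ 1 := pow_le_one₀ h0.le h1
  have hd30 : 0 ≤ δ ^ 3 := by positivity
  have he' : |e| = 1 := by
    rcases he with h | h <;> simp [h]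
  unfold Qi
  refine (abs_add_le _ _).trans (add_le_add ?_ ?_)
  · rw [abs_div, abs_neg, abs_mul, abs_of_nonneg hd30, abs_of_pos hw0]
    have : δ ^ 3 * |S.g t| ≤ 12 := by
      calc δ ^ 3 * |S.g t| ≤ 1 * 12 := by
            gcongr
            exact hA.g_bd t
        _ = 12 := by norm_num
    gcongr
  · rw [abs_div, abs_mul, abs_mul, he', one_mul, abs_of_pos (show 0 < wr δ S e t r ^ 3 by positivity),
      abs_pow]
    gcongr

lemma Qi_meas (δ : ℝ) (S : St) (e t : ℝ) : Measurable (fun r => Qi δ S e t r) := by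
  unfold Qi wr yr xr
  fun_prop

lemma Qi_lim {δ : ℝ} {Sn : ℕ → St} {S : St} (hB : FactsB δ S) (hc : Conv Sn S)
    (hv : ConvA δ Sn S) {e : ℝ}
    (he : e = 1 ∨ e = -1) {t r : ℝ} (ht0 : 0 ≤ t) (ht1 : t < 1) (hr0 : 3 ≤ r) (hr1 : r ≤ Rh δ) :
    Tendsto (fun n => Qi δ (Sn n) e t r) atTop (𝓝 (Qi δ S e t r)) := by
  have hcp : 0 < √(6 * (1 - t)) := Real.sqrt_pos.2 (by nlinarith)
  have hw := wr_pos hB he ht0 ht1 hr0 hr1
  have hw0 : 0 < wr δ S e t r := lt_of_lt_of_le hcp hw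
  have hy : Tendsto (fun n => yr δ (Sn n) e t r) atTop (𝓝 (yr δ S e t r)) := by
    unfold yr
    exact tendsto_const_nhds.sub ((hv.al t).const_mul _)
  have hwl : Tendsto (fun n => wr δ (Sn n) e t r) atTop (𝓝 (wr δ S e t r)) := by
    unfold wr
    exact (tendsto_const_nhds.sub (hy.pow 2)).sqrt
  unfold Qi
  refine Tendsto.add ?_ ?_
  · exact ((hc.2.2.1 t).const_mul _).neg.div hwl hw0.ne'
  · refine Tendsto.div ?_ (hwl.pow 3) (by positivity)
    exact ((((tendsto_const_nhds.sub ((hv.da t).const_mul _)).pow 2).const_mul e)).mul hy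

lemma Qd_lim {δ : ℝ} {Sn : ℕ → St} {S : St} (h0 : 0 < δ) (h1 : δ ≤ 1)
    (hAn : ∀ n, FactsA (Sn n)) (hBn : ∀ n, FactsB δ (Sn n))
    (hB : FactsB δ S) (hc : Conv Sn S)
    (hv : ConvA δ Sn S) {t : ℝ} (ht0 : 0 ≤ t) (ht1 : t < 1) :
    Tendsto (fun n => Qd δ (Sn n) t) atTop (𝓝 (Qd δ S t)) := by
  unfold Qd
  refine Tendsto.const_mul _ ?_
  have hR : 3 ≤ Rh δ := by
    unfold Rh
    have : 0 < 4 / δ := by positivity
    linarith
  set K : ℝ := 12 / √(6 * (1 - t)) + 11 ^ 2 * 11 / √(6 * (1 - t)) ^ 3 with hK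
  have hK0 : 0 ≤ K := by positivity
  refine intervalIntegral.tendsto_integral_filter_of_dominated_convergence
    (fun _ => Rh δ * (2 * K)) ?_ ?_ intervalIntegrable_const ?_
  · refine Eventually.of_forall fun n => ?_
    exact (measurable_id.mul ((Qi_meas _ _ _ _).add (Qi_meas _ _ _ _))).aestronglyMeasurable
  · refine Eventually.of_forall fun n => Eventually.of_forall fun r hr => ?_
    rw [uIoc_of_le hR] at hr
    have a1 := Qi_bd (e := 1) h0 h1 (hAn n) (hBn n) (Or.inl rfl) ht0 ht1 hr.1.le hr.2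
    have a2 := Qi_bd (e := -1) h0 h1 (hAn n) (hBn n) (Or.inr rfl) ht0 ht1 hr.1.le hr.2
    rw [Real.norm_eq_abs, abs_mul, abs_of_nonneg (show (0 : ℝ) ≤ r by linarith [hr.1])]
    have a3 := abs_add_le (Qi δ (Sn n) 1 t r) (Qi δ (Sn n) (-1) t r)
    have hr0 : 0 ≤ r := by linarith [hr.1]
    refine mul_le_mul hr.2 (by linarith) (abs_nonneg _) (by linarith)
  · refine Eventually.of_forall fun r hr => ?_
    rw [uIoc_of_le hR] at hr
    exact ((Qi_lim hB hc hv (Or.inl rfl) ht0 ht1 hr.1.le hr.2).add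
      (Qi_lim hB hc hv (Or.inr rfl) ht0 ht1 hr.1.le hr.2)).const_mul r

/-- what is used about `Qd` -/
lemma Qd_bd {δ C : ℝ} {S : St} (h0 : 0 < δ) (h1 : δ ≤ 1) (hC : 0 < C) (hA : FactsA S)
    (hQ : Qd δ S 0 = 0 ∧ Qd δ S 1 = 0 ∧
      (∀ a b, 0 ≤ a → a ≤ b → b ≤ 1 →
        |(Qd δ S b / δ ^ 2 + 10 * S.g b) - (Qd δ S a / δ ^ 2 + 10 * S.g a)| ≤
          C * δ * (Om b - Om a))) :
    ContinuousOn (Qd δ S) (Icc 0 1) ∧ ∀ s, 0 ≤ s → s ≤ 1 → |Qd δ S s| ≤ (120 + 6 * C) * √s := by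
  obtain ⟨hq0, hq1, hi⟩ := hQ
  have hg : Continuous S.g := by
    have : Continuous (fun t => S.g t) := by
      rw [continuous_iff_continuousAt]
      intro a
      rw [ContinuousAt, tendsto_iff_norm_sub_tendsto_zero]
      refine squeeze_zero (fun _ => norm_nonneg _) (fun b => hA.g_hol a b) ?_
      have : Continuous (fun b => 24 * √|b - a|) := by fun_prop
      have h := this.tendsto a
      simpa using h
    exact this
  have hq : ∀ s, Qd δ S s = δ ^ 2 * ((Qd δ S s / δ ^ 2 + 10 * S.g s) - 10 * S.g s) := by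
    intro s
    field_simp
    ring
  constructor
  · have hc := cont_of_inc (fun s => Qd δ S s / δ ^ 2 + 10 * S.g s) (C * δ) hi
    refine ContinuousOn.congr (f := fun s => δ ^ 2 * ((Qd δ S s / δ ^ 2 + 10 * S.g s) - 10 * S.g s))
      ?_ (fun s _ => hq s)
    exact (hc.sub (hg.continuousOn.const_smul (10 : ℝ))).const_smul (δ ^ 2) |>.congr
      (fun s _ => by simp [smul_eq_mul])
  · intro s hs0 hs1
    have hg0 : S.g 0 = 0 := by
      have := hA.g_le 0 le_rfl zero_le_one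
      rw [Real.sqrt_zero, mul_zero] at this
      exact abs_nonpos_iff.1 this
    have h2 := hi 0 s le_rfl hs0 hs1
    rw [hq0, hg0, zero_div, mul_zero, add_zero, sub_zero] at h2
    have h3 := hA.g_le s hs0 hs1
    have h4 := Om_le s hs0
    have hd2 : δ ^ 2 ≤ 1 := pow_le_one₀ h0.le h1
    have hs := Real.sqrt_nonneg s
    have h5 : |Qd δ S s / δ ^ 2 + 10 * S.g s| ≤ 6 * C * √s := by
      refine h2.trans ?_
      calc C * δ * (Om s - Om 0) ≤ C * δ * (6 * √s) := by gcongr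
        _ = δ * (6 * C * √s) := by ring
        _ ≤ 1 * (6 * C * √s) := by gcongr
        _ = _ := one_mul _
    rw [hq s, abs_mul, abs_of_nonneg (by positivity)]
    calc _ ≤ 1 * (|Qd δ S s / δ ^ 2 + 10 * S.g s| + |10 * S.g s|) := by
          gcongr
          exact abs_sub _ _
      _ ≤ 1 * (6 * C * √s + 120 * √s) := by
          gcongr
          rw [abs_mul, abs_of_pos (by norm_num : (0 : ℝ) < 10)]
          linarith
      _ = _ := by ring

lemma sqrt_div_bd {s t : ℝ} (ht : 0 ≤ t) (hs : t < s) : √s / √(s ^ 2 - t ^ 2) ≤ 1 / √(s - t) := by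
  have h1 : s ^ 2 - t ^ 2 = (s - t) * (s + t) := by ring
  have h2 : 0 < √(s - t) := Real.sqrt_pos.2 (by linarith)
  have h3 : 0 < √(s + t) := Real.sqrt_pos.2 (by linarith)
  rw [h1, Real.sqrt_mul (by linarith), div_le_div_iff₀ (by positivity) h2]
  have h4 : √s ≤ √(s + t) := Real.sqrt_le_sqrt (by linarith)
  nlinarith

lemma Aop_lim (fn : ℕ → ℝ → ℝ) (f : ℝ → ℝ) (M t : ℝ) (hM : 0 ≤ M) (ht0 : 0 ≤ t) (ht1 : t ≤ 1)
    (hc : ∀ n, ContinuousOn (fn n) (Icc 0 1)) (hb : ∀ n s, 0 ≤ s → s ≤ 1 → |fn n s| ≤ M * √s)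
    (hl : ∀ s, 0 ≤ s → s < 1 → Tendsto (fun n => fn n s) atTop (𝓝 (f s))) :
    Tendsto (fun n => Aop (fn n) t) atTop (𝓝 (Aop f t)) := by
  unfold Aop
  refine intervalIntegral.tendsto_integral_filter_of_dominated_convergence
    (fun s => M * (1 / √(s - t))) ?_ ?_ ((sub_sqrt_int t ht1).const_mul M) ?_
  · refine Eventually.of_forall fun n => ?_
    rw [uIoc_of_le ht1]
    refine AEStronglyMeasurable.mul
      (((hc n).mono (fun s hs => ⟨ht0.trans hs.1.le, hs.2⟩)).aestronglyMeasurable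
        measurableSet_Ioc) ?_
    exact (Measurable.inv (by fun_prop)).aestronglyMeasurable
  · refine Eventually.of_forall fun n => Eventually.of_forall fun s hs => ?_
    rw [uIoc_of_le ht1] at hs
    have hb' := hb n s (ht0.trans hs.1.le) hs.2
    have hp : 0 < √(s ^ 2 - t ^ 2) := Real.sqrt_pos.2 (by nlinarith [hs.1])
    rw [Real.norm_eq_abs, abs_div, abs_of_pos hp]
    calc |fn n s| / √(s ^ 2 - t ^ 2) ≤ M * √s / √(s ^ 2 - t ^ 2) := by gcongr
      _ = M * (√s / √(s ^ 2 - t ^ 2)) := by rw [mul_div_assoc]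
      _ ≤ _ := mul_le_mul_of_nonneg_left (sqrt_div_bd ht0 hs.1) hM
  · have hne : ∀ᵐ s : ℝ, s ≠ 1 := by
      rw [ae_iff]
      simp
    filter_upwards [hne] with s hs1 hs
    rw [uIoc_of_le ht1] at hs
    exact (hl s (ht0.trans hs.1.le) (lt_of_le_of_ne hs.2 hs1)).div_const _

/-! ### `JJ` and `Rp` -/

lemma pph_cont (t : ℝ) : Continuous (fun z : ℝ × ℝ => pph z.1 t z.2) := by
  unfold pph
  fun_prop

lemma pph_bd {s t φ : ℝ} (ht : 0 ≤ t) (hs : t ≤ s) (h0 : 0 ≤ φ) (h1 : φ ≤ π / 2) :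
    s * (2 / π * φ) ≤ pph s t φ ∧ pph s t φ ≤ s := by
  have hs0 : 0 ≤ s := ht.trans hs
  have hsin : 2 / π * φ ≤ Real.sin φ := Real.mul_le_sin h0 h1
  have hsin0 : 0 ≤ Real.sin φ := le_trans (by positivity) hsin
  unfold pph
  constructor
  · calc s * (2 / π * φ) ≤ s * Real.sin φ := by gcongr
      _ = √((s * Real.sin φ) ^ 2) := (Real.sqrt_sq (by positivity)).symm
      _ ≤ _ := by
          apply Real.sqrt_le_sqrt
          nlinarith [sq_nonneg (t * Real.cos φ)]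
  · rw [Real.sqrt_le_left hs0]
    have h2 := Real.sin_sq_add_cos_sq φ
    have h3 : t ^ 2 ≤ s ^ 2 := by gcongr
    nlinarith [sq_nonneg (Real.cos φ), sq_nonneg (Real.sin φ)]

/-- the bound for the integrand of `JJ` -/
lemma JJ_int_bd {δ C : ℝ} {S : St} (h0 : 0 < δ) (hC : 0 < C) {e : ℝ} {s t φ : ℝ}
    (hk : ∀ p, 0 ≤ p → p ≤ s → |kk δ S e s p| ≤ C * δ ^ 3 * √p)
    (ht : 0 ≤ t) (hs : t ≤ s) (hs0 : 0 < s) (hφ0 : 0 < φ) (hφ1 : φ ≤ π / 2) :
    |kk δ S e s (pph s t φ) * Real.cos φ ^ 2 / pph s t φ| ≤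
      C * δ ^ 3 * √(π / 2) / √s * (1 / √φ) := by
  obtain ⟨hp1, hp2⟩ := pph_bd ht hs hφ0.le hφ1
  have hpp : 0 < pph s t φ := lt_of_lt_of_le (by positivity) hp1
  have hk' := hk _ hpp.le hp2
  have hsp : 0 < √(pph s t φ) := Real.sqrt_pos.2 hpp
  have hcos : Real.cos φ ^ 2 ≤ 1 := Real.cos_sq_le_one φ
  rw [abs_div, abs_mul, abs_of_pos hpp, abs_of_nonneg (sq_nonneg (Real.cos φ))]
  have h1 : |kk δ S e s (pph s t φ)| * Real.cos φ ^ 2 / pph s t φ ≤
      C * δ ^ 3 * √(pph s t φ) * 1 / pph s t φ := by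
    gcongr
  refine h1.trans ?_
  have h2 : C * δ ^ 3 * √(pph s t φ) * 1 / pph s t φ = C * δ ^ 3 * (1 / √(pph s t φ)) := by
    rw [mul_one, mul_div_assoc, Real.sqrt_div_self']
  rw [h2]
  have h3 : √s * √(2 / π) * √φ ≤ √(pph s t φ) := by
    rw [← Real.sqrt_mul hs0.le, ← Real.sqrt_mul (by positivity)]
    apply Real.sqrt_le_sqrt
    rw [mul_assoc]
    exact hp1
  have h4 : 1 / √(pph s t φ) ≤ 1 / (√s * √(2 / π) * √φ) :=
    one_div_le_one_div_of_le (by positivity) h3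
  have h5 : 1 / (√s * √(2 / π) * √φ) = √(π / 2) / √s * (1 / √φ) := by
    have : √(2 / π) = (√(π / 2))⁻¹ := by
      rw [← Real.sqrt_inv, inv_div]
    rw [this]
    have : 0 < √(π / 2) := by positivity
    field_simp
  calc C * δ ^ 3 * (1 / √(pph s t φ)) ≤ C * δ ^ 3 * (√(π / 2) / √s * (1 / √φ)) := by
        rw [← h5]
        gcongr
    _ = _ := by ring

lemma inv_sqrt_int : IntervalIntegrable (fun φ => 1 / √φ) volume 0 (π / 2) := by
  have h := intervalIntegral.intervalIntegrable_rpow' (a := 0) (b := π / 2)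
    (r := (-1 / 2 : ℝ)) (by norm_num)
  refine h.congr ?_
  intro s hs
  rw [uIoc_of_le (by positivity)] at hs
  simp only
  rw [show (-1 / 2 : ℝ) = -(1 / 2) by norm_num, Real.rpow_neg hs.1.le, ← Real.sqrt_eq_rpow, one_div]

lemma JJ_meas1 {δ : ℝ} {S : St} (hB : FactsB δ S) {e : ℝ}
    (he : e = 1 ∨ e = -1) {s t : ℝ} (hs0 : 0 ≤ s) (hs1 : s ≤ 1) (μ : Measure ℝ) :
    AEStronglyMeasurable (fun φ => kk δ S e s (pph s t φ) * Real.cos φ ^ 2 / pph s t φ) μ := by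
  have hc1 : Continuous (fun φ => kk δ S e s (pph s t φ)) := by
    have h : Continuous (fun φ : ℝ => ((s, pph s t φ) : ℝ × ℝ)) := by
      unfold pph
      fun_prop
    have h2 := (hB.kk_cont e he).comp_continuous h (fun φ => ⟨⟨hs0, hs1⟩, mem_univ _⟩)
    exact h2
  have hc2 : Continuous (fun φ => pph s t φ) := by
    unfold pph
    fun_prop
  exact ((hc1.mul (Real.continuous_cos.pow 2)).measurable.div hc2.measurable).aestronglyMeasurable

lemma JJ_bd {δ C : ℝ} {S : St} (h0 : 0 < δ) (hC : 0 < C) {e : ℝ} {s t : ℝ}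
    (hk : ∀ p, 0 ≤ p → p ≤ s → |kk δ S e s p| ≤ C * δ ^ 3 * √p)
    (ht : 0 ≤ t) (hs : t ≤ s) (hs0 : 0 < s) :
    |JJ δ S e s t| ≤ C * δ ^ 3 * √(π / 2) / √s * ∫ φ in (0 : ℝ)..(π / 2), 1 / √φ := by
  unfold JJ
  have hpi : (0 : ℝ) ≤ π / 2 := by positivity
  have h := intervalIntegral.norm_integral_le_of_norm_le (μ := volume)
    (f := fun φ => kk δ S e s (pph s t φ) * Real.cos φ ^ 2 / pph s t φ)
    (g := fun φ => C * δ ^ 3 * √(π / 2) / √s * (1 / √φ)) hpi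
    (Eventually.of_forall fun φ hφ => JJ_int_bd h0 hC hk ht hs hs0 hφ.1 hφ.2)
    (inv_sqrt_int.const_mul _)
  rw [intervalIntegral.integral_const_mul] at h
  exact h

lemma JJ_lim {δ C : ℝ} {Sn : ℕ → St} {S : St} (h0 : 0 < δ) (hC : 0 < C)
    (hBn : ∀ n, FactsB δ (Sn n)) (hv : ConvA δ Sn S) {e : ℝ} (he : e = 1 ∨ e = -1) {s t : ℝ}
    (hk : ∀ n p, 0 ≤ p → p ≤ s → |kk δ (Sn n) e s p| ≤ C * δ ^ 3 * √p)
    (ht : 0 ≤ t) (hs : t ≤ s) (hs0 : 0 < s) (hs1 : s ≤ 1) :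
    Tendsto (fun n => JJ δ (Sn n) e s t) atTop (𝓝 (JJ δ S e s t)) := by
  unfold JJ
  have hpi : (0 : ℝ) ≤ π / 2 := by positivity
  refine intervalIntegral.tendsto_integral_filter_of_dominated_convergence
    (fun φ => C * δ ^ 3 * √(π / 2) / √s * (1 / √φ)) ?_ ?_ (inv_sqrt_int.const_mul _) ?_
  · exact Eventually.of_forall fun n => JJ_meas1 (hBn n) he hs0.le hs1 _
  · refine Eventually.of_forall fun n => Eventually.of_forall fun φ hφ => ?_
    rw [uIoc_of_le hpi] at hφ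
    exact JJ_int_bd h0 hC (hk n) ht hs hs0 hφ.1 hφ.2
  · refine Eventually.of_forall fun φ _ => ?_
    exact ((hv.kk e he s _ hs0.le hs1).mul_const _).div_const _

lemma JJ_meas2 {δ : ℝ} {S : St} (hB : FactsB δ S) {e : ℝ}
    (he : e = 1 ∨ e = -1) {t : ℝ} (ht0 : 0 ≤ t) :
    AEStronglyMeasurable (fun s => JJ δ S e s t) (volume.restrict (Ioc t 1)) := by
  have hpi : (0 : ℝ) ≤ π / 2 := by positivity
  have hm : AEStronglyMeasurable
      (fun z : ℝ × ℝ => kk δ S e z.1 (pph z.1 t z.2) * Real.cos z.2 ^ 2 / pph z.1 t z.2)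
      ((volume.restrict (Ioc t 1)).prod (volume.restrict (Ioc 0 (π / 2)))) := by
    rw [Measure.prod_restrict]
    have hk : ContinuousOn (fun z : ℝ × ℝ => kk δ S e z.1 (pph z.1 t z.2))
        (Ioc t 1 ×ˢ Ioc 0 (π / 2)) := by
      refine (hB.kk_cont e he).comp (f := fun z : ℝ × ℝ => (z.1, pph z.1 t z.2))
        (continuous_fst.prodMk (pph_cont t)).continuousOn ?_
      intro z hz
      exact ⟨⟨ht0.trans hz.1.1.le, hz.1.2⟩, mem_univ _⟩
    have hc : Continuous (fun z : ℝ × ℝ => Real.cos z.2 ^ 2) := by fun_prop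
    have hmm := (hk.mul hc.continuousOn).aestronglyMeasurable (μ := volume.prod volume)
      (measurableSet_Ioc.prod measurableSet_Ioc)
    exact hmm.mul ((pph_cont t).measurable.inv).aestronglyMeasurable
  have h := hm.integral_prod_right'
  refine h.congr (Eventually.of_forall fun s => ?_)
  simp only [JJ]
  rw [intervalIntegral.integral_of_le hpi]

lemma nn_meas {δ : ℝ} {S : St} (hB : FactsB δ S) {e : ℝ}
    (he : e = 1 ∨ e = -1) {t : ℝ} (ht0 : 0 ≤ t) :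
    AEStronglyMeasurable (fun s => nn δ S e s) (volume.restrict (Ioc t 1)) := by
  have h1 := (hB.nn_ctL e he).aestronglyMeasurable (μ := volume) measurableSet_Ico
  have h2 := (hB.nn_ctR e he).aestronglyMeasurable (μ := volume) measurableSet_Icc
  have h3 := aestronglyMeasurable_union_iff.2 ⟨h1, h2⟩
  refine h3.mono_measure (Measure.restrict_mono ?_ le_rfl)
  intro s hs
  rcases lt_or_ge s (1 / 2) with h | h
  · exact Or.inl ⟨ht0.trans hs.1.le, h⟩
  · exact Or.inr ⟨h, hs.2⟩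

lemma Rp_lim {δ C : ℝ} {Sn : ℕ → St} {S : St} (h0 : 0 < δ) (hC : 0 < C)
    (hBn : ∀ n, FactsB δ (Sn n)) (hv : ConvA δ Sn S)
    (hk : ∀ n, ∀ e, (e = 1 ∨ e = -1) → ∀ s, 0 ≤ s → s ≤ 1 → ∀ p, 0 ≤ p → p ≤ s →
      |kk δ (Sn n) e s p| ≤ C * δ ^ 3 * √p) {t : ℝ} (ht0 : 0 ≤ t) (ht1 : t ≤ 1) :
    Tendsto (fun n => Rp δ (Sn n) t) atTop (𝓝 (Rp δ S t)) := by
  unfold Rp
  set K : ℝ := C * δ ^ 3 * √(π / 2) * ∫ φ in (0 : ℝ)..(π / 2), 1 / √φ with hK
  have hI : 0 ≤ ∫ φ in (0 : ℝ)..(π / 2), 1 / √φ :=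
    intervalIntegral.integral_nonneg (by positivity) (fun φ _ => by positivity)
  have hK0 : 0 ≤ K := by positivity
  refine intervalIntegral.tendsto_integral_filter_of_dominated_convergence
    (fun _ => 40 * K) ?_ ?_ intervalIntegrable_const ?_
  · refine Eventually.of_forall fun n => ?_
    rw [uIoc_of_le ht1]
    refine AEStronglyMeasurable.mul measurable_id.aestronglyMeasurable ?_
    exact ((nn_meas (hBn n) (Or.inl rfl) ht0).mul (JJ_meas2 (hBn n) (Or.inl rfl) ht0)).sub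
      ((nn_meas (hBn n) (Or.inr rfl) ht0).mul (JJ_meas2 (hBn n) (Or.inr rfl) ht0))
  · refine Eventually.of_forall fun n => Eventually.of_forall fun s hs => ?_
    rw [uIoc_of_le ht1] at hs
    have hs0 : 0 < s := lt_of_le_of_lt ht0 hs.1
    have key : ∀ e, (e = 1 ∨ e = -1) → |nn δ (Sn n) e s * JJ δ (Sn n) e s t| ≤ 20 * (K / √s) := by
      intro e he
      have hj := JJ_bd h0 hC (hk n e he s hs0.le hs.2) ht0 hs.1.le hs0
      obtain ⟨hn0, hn1⟩ := (hBn n).nn_bd e he s hs0.le hs.2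
      rw [abs_mul, abs_of_nonneg hn0]
      refine mul_le_mul hn1 (hj.trans (le_of_eq ?_)) (abs_nonneg _) (by norm_num)
      rw [hK]
      ring
    have hsq : 0 < √s := Real.sqrt_pos.2 hs0
    have hsq1 : √s ≤ 1 := by
      rw [Real.sqrt_le_left zero_le_one, one_pow]
      exact hs.2
    rw [Real.norm_eq_abs, abs_mul, abs_of_pos hs0]
    have h3 : |nn δ (Sn n) 1 s * JJ δ (Sn n) 1 s t - nn δ (Sn n) (-1) s * JJ δ (Sn n) (-1) s t| ≤
        20 * (K / √s) + 20 * (K / √s) :=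
      (abs_sub _ _).trans (add_le_add (key 1 (Or.inl rfl)) (key (-1) (Or.inr rfl)))
    calc _ ≤ s * (20 * (K / √s) + 20 * (K / √s)) := by gcongr
      _ = (√s * √s) * (20 * (K / √s) + 20 * (K / √s)) := by rw [Real.mul_self_sqrt hs0.le]
      _ = 40 * K * √s := by
          field_simp
          ring
      _ ≤ 40 * K * 1 := by gcongr
      _ = 40 * K := mul_one _
  · refine Eventually.of_forall fun s hs => ?_
    rw [uIoc_of_le ht1] at hs
    have hs0 : 0 < s := lt_of_le_of_lt ht0 hs.1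
    have key : ∀ e, (e = 1 ∨ e = -1) → Tendsto (fun n => nn δ (Sn n) e s * JJ δ (Sn n) e s t)
        atTop (𝓝 (nn δ S e s * JJ δ S e s t)) := fun e he =>
      (hv.nn e he s hs0.le hs.2).mul
        (JJ_lim h0 hC hBn hv he (fun n => hk n e he s hs0.le hs.2) ht0 hs.1.le hs0 hs.2)
    exact ((key 1 (Or.inl rfl)).sub (key (-1) (Or.inr rfl))).const_mul s

end CVrAux

open CVrAux in
/-- §4.11, the function `Rhs` -/
theorem CVr (hA : S_FactsA) (hB : S_FactsB) (hk : S_KB) (hQ : S_QE) (hV : S_CVA) : S_CVr := by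
  obtain ⟨dB, hdB0, hdB1, hB⟩ := hB
  obtain ⟨C1, hC1, dk, hdk, hk⟩ := hk
  obtain ⟨C2, hC2, dQ, hdQ, hQ⟩ := hQ
  obtain ⟨dV, hdV, hV⟩ := hV
  refine ⟨min (min dB dk) (min dQ dV), lt_min (lt_min hdB0 hdk) (lt_min hdQ hdV), ?_⟩
  intro δ h0 hδ Sn S hSn hS hc t ht0 ht1
  have hδB : δ ≤ dB := hδ.trans ((min_le_left _ _).trans (min_le_left _ _))
  have hδk : δ ≤ dk := hδ.trans ((min_le_left _ _).trans (min_le_right _ _))
  have hδQ : δ ≤ dQ := hδ.trans ((min_le_right _ _).trans (min_le_left _ _))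
  have hδV : δ ≤ dV := hδ.trans ((min_le_right _ _).trans (min_le_right _ _))
  have h1 : δ ≤ 1 := by linarith
  have hAn : ∀ n, FactsA (Sn n) := fun n => hA _ (hSn n)
  have hBn : ∀ n, FactsB δ (Sn n) := fun n => hB δ h0 hδB _ (hSn n)
  have hBS : FactsB δ S := hB δ h0 hδB _ hS
  have hv := hV δ h0 hδV Sn S hSn hS hc
  have hq := fun n => Qd_bd h0 h1 hC2 (hAn n) (hQ δ h0 hδQ (Sn n) (hSn n))
  unfold Rhs
  refine Tendsto.div_const (Tendsto.add ?_ ?_) _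
  · exact Aop_lim (fun n => Qd δ (Sn n)) (Qd δ S) (120 + 6 * C2) t (by positivity) ht0 ht1
      (fun n => (hq n).1) (fun n => (hq n).2)
      (fun s hs0 hs1 => Qd_lim h0 h1 hAn hBn hBS hc hv hs0 hs1)
  · exact Rp_lim h0 hC1 hBn hv
      (fun n e he s hs0 hs1 => (hk δ h0 hδk (Sn n) (hSn n) e he s hs0 hs1).1) ht0 ht1

end Pool.Agent.HV
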