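import Pool.Agent.HV.Stmts

/-!
# §4.4 of the paper for MP_678b51_gt (module HV_DE)   (helper86)

`D(t) = 12 F + 2 f₁ (U₁ + 3t) + O(δ)` with increments bounded by `√b - √a`.
-/

set_option autoImplicit false

open MeasureTheory Set Filter
open scoped Real Topology

namespace Pool.Agent.HV

namespace DEaux

/-- bounded by `M`, with increments bounded by `M (√b - √a)` -/
structure HB (l r M : ℝ) (f : ℝ → ℝ) : Prop where
  nn : 0 ≤ M
  bd : ∀ t, l ≤ t → t ≤ r → |f t| ≤ M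
  inc : ∀ a b, l ≤ a → a ≤ b → b ≤ r → |f b - f a| ≤ M * (√b - √a)

variable {l r M M₁ M₂ : ℝ} {f g : ℝ → ℝ}

lemma sq_mono {a b : ℝ} (h : a ≤ b) : 0 ≤ √b - √a := sub_nonneg.2 (Real.sqrt_le_sqrt h)

lemma HB.mono (hf : HB l r M₁ f) (h : M₁ ≤ M₂) : HB l r M₂ f where
  nn := hf.nn.trans h
  bd := fun t h1 h2 => (hf.bd t h1 h2).trans h
  inc := fun a b h1 h2 h3 => (hf.inc a b h1 h2 h3).trans
    (mul_le_mul_of_nonneg_right h (sq_mono h2))

lemma HB.const (l r : ℝ) {c M : ℝ} (h : |c| ≤ M) : HB l r M (fun _ => c) where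
  nn := (abs_nonneg c).trans h
  bd := fun _ _ _ => h
  inc := fun a b _ h2 _ => by
    simpa using mul_nonneg ((abs_nonneg c).trans h) (sq_mono h2)

lemma HB.add (hf : HB l r M₁ f) (hg : HB l r M₂ g) : HB l r (M₁ + M₂) (fun t => f t + g t) where
  nn := add_nonneg hf.nn hg.nn
  bd := fun t h1 h2 => (abs_add_le _ _).trans (add_le_add (hf.bd t h1 h2) (hg.bd t h1 h2))
  inc := fun a b h1 h2 h3 => by
    have e : f b + g b - (f a + g a) = (f b - f a) + (g b - g a) := by ring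
    rw [e, add_mul]
    exact (abs_add_le _ _).trans (add_le_add (hf.inc a b h1 h2 h3) (hg.inc a b h1 h2 h3))

lemma HB.neg (hf : HB l r M f) : HB l r M (fun t => -f t) where
  nn := hf.nn
  bd := fun t h1 h2 => by rw [abs_neg]; exact hf.bd t h1 h2
  inc := fun a b h1 h2 h3 => by
    have e : -f b - -f a = -(f b - f a) := by ring
    rw [e, abs_neg]
    exact hf.inc a b h1 h2 h3

lemma HB.sub (hf : HB l r M₁ f) (hg : HB l r M₂ g) : HB l r (M₁ + M₂) (fun t => f t - g t) := by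
  have := hf.add hg.neg
  simpa [sub_eq_add_neg] using this

lemma HB.mul (hf : HB l r M₁ f) (hg : HB l r M₂ g) : HB l r (2 * M₁ * M₂) (fun t => f t * g t) where
  nn := by have := hf.nn; have := hg.nn; positivity
  bd := fun t h1 h2 => by
    rw [abs_mul]
    have h := mul_le_mul (hf.bd t h1 h2) (hg.bd t h1 h2) (abs_nonneg _) hf.nn
    have := mul_nonneg hf.nn hg.nn
    linarith
  inc := fun a b h1 h2 h3 => by
    have e : f b * g b - f a * g a = f b * (g b - g a) + g a * (f b - f a) := by ring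
    rw [e]
    refine (abs_add_le _ _).trans ?_
    rw [abs_mul, abs_mul]
    have h4 := mul_le_mul (hf.bd b (h1.trans h2) h3) (hg.inc a b h1 h2 h3) (abs_nonneg _) hf.nn
    have h5 := mul_le_mul (hg.bd a h1 (h2.trans h3)) (hf.inc a b h1 h2 h3) (abs_nonneg _) hg.nn
    linarith

lemma HB.cmul (c : ℝ) {K : ℝ} (hc : |c| ≤ K) (hf : HB l r M f) : HB l r (K * M) (fun t => c * f t) where
  nn := mul_nonneg ((abs_nonneg c).trans hc) hf.nn
  bd := fun t h1 h2 => by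
    rw [abs_mul]
    exact mul_le_mul hc (hf.bd t h1 h2) (abs_nonneg _) ((abs_nonneg c).trans hc)
  inc := fun a b h1 h2 h3 => by
    rw [← mul_sub, abs_mul, mul_assoc]
    exact mul_le_mul hc (hf.inc a b h1 h2 h3) (abs_nonneg _) ((abs_nonneg c).trans hc)

lemma HB.sq (hf : HB l r M f) : HB l r (2 * M * M) (fun t => f t ^ 2) := by
  have := hf.mul hf
  simpa [pow_two] using this

lemma HB.inv (hf : HB l r M f) (h1 : ∀ t, l ≤ t → t ≤ r → 1 ≤ f t) :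
    HB l r (1 + M) (fun t => (f t)⁻¹) where
  nn := by have := hf.nn; linarith
  bd := fun t ha hb => by
    have h := h1 t ha hb
    have h0 : 0 < f t := by linarith
    rw [abs_of_pos (inv_pos.2 h0)]
    have := inv_le_one_of_one_le₀ h
    have := hf.nn
    linarith
  inc := fun a b ha hab hb => by
    have h2 := h1 a ha (hab.trans hb)
    have h3 := h1 b (ha.trans hab) hb
    have ha0 : 0 < f a := by linarith
    have hb0 : 0 < f b := by linarith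
    have e : (f b)⁻¹ - (f a)⁻¹ = -(f b - f a) * ((f a)⁻¹ * (f b)⁻¹) := by
      field_simp
      ring
    rw [e, abs_mul, abs_neg]
    have h4 : |(f a)⁻¹ * (f b)⁻¹| ≤ 1 := by
      rw [abs_of_pos (by positivity)]
      exact mul_le_one₀ (inv_le_one_of_one_le₀ h2) (by positivity) (inv_le_one_of_one_le₀ h3)
    have h5 := hf.inc a b ha hab hb
    have h6 : |f b - f a| * |(f a)⁻¹ * (f b)⁻¹| ≤ |f b - f a| * 1 :=
      mul_le_mul_of_nonneg_left h4 (abs_nonneg _)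
    have h7 := sq_mono hab
    nlinarith

lemma HB.sqrt (hf : HB l r M f) (h1 : ∀ t, l ≤ t → t ≤ r → 1 ≤ f t) :
    HB l r M (fun t => √(f t)) where
  nn := hf.nn
  bd := fun t ha hb => by
    have h := h1 t ha hb
    rw [abs_of_nonneg (Real.sqrt_nonneg _)]
    have h2 : √(f t) ≤ f t := Real.sqrt_le_iff.2 ⟨by linarith, by nlinarith⟩
    exact h2.trans ((le_abs_self _).trans (hf.bd t ha hb))
  inc := fun a b ha hab hb => by
    have h2 := h1 a ha (hab.trans hb)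
    have h3 := h1 b (ha.trans hab) hb
    have ha1 : 1 ≤ √(f a) := Real.one_le_sqrt.2 h2
    have hb1 : 1 ≤ √(f b) := Real.one_le_sqrt.2 h3
    have ea : √(f a) * √(f a) = f a := Real.mul_self_sqrt (by linarith)
    have eb : √(f b) * √(f b) = f b := Real.mul_self_sqrt (by linarith)
    have e : f b - f a = (√(f b) - √(f a)) * (√(f b) + √(f a)) := by
      nlinarith
    have h5 := hf.inc a b ha hab hb
    rw [e, abs_mul, abs_of_pos (show 0 < √(f b) + √(f a) by linarith)] at h5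
    have h6 : |√(f b) - √(f a)| * 1 ≤ |√(f b) - √(f a)| * (√(f b) + √(f a)) :=
      mul_le_mul_of_nonneg_left (by linarith) (abs_nonneg _)
    linarith

lemma lin_le {a b : ℝ} (ha : 0 ≤ a) (hab : a ≤ b) (hb : b ≤ 1) : b - a ≤ 2 * (√b - √a) := by
  have ea : √a * √a = a := Real.mul_self_sqrt ha
  have eb : √b * √b = b := Real.mul_self_sqrt (ha.trans hab)
  have h1 : √b ≤ 1 := Real.sqrt_le_one.2 hb
  have h2 : √a ≤ 1 := Real.sqrt_le_one.2 (hab.trans hb)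
  have h3 := sq_mono hab
  have : b - a = (√b - √a) * (√b + √a) := by nlinarith
  rw [this]
  nlinarith

lemma HB.lip (hl : 0 ≤ l) (hr : r ≤ 1) {K : ℝ} (hb : ∀ t, l ≤ t → t ≤ r → |f t| ≤ 2 * K)
    (hK : 0 ≤ K)
    (hi : ∀ a b, l ≤ a → a ≤ b → b ≤ r → |f b - f a| ≤ K * (b - a)) : HB l r (2 * K) f where
  nn := by linarith
  bd := hb
  inc := fun a b h1 h2 h3 => by
    have h4 := hi a b h1 h2 h3
    have h5 := lin_le (hl.trans h1) h2 (h3.trans hr)
    have h6 := mul_le_mul_of_nonneg_left h5 hK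
    linarith

/-- the expansion of one of the two terms -/
lemma core (δ e : ℝ) (he : |e| ≤ 1) (hδ0 : 0 < δ) (hδ : δ ≤ 1 / 100) (l r : ℝ) (hl : 0 ≤ l)
    (hr : r ≤ 1) (y w α β : ℝ → ℝ) (hy : HB l r 10 y) (hw : HB l r 10 w) (hα : HB l r 24 α)
    (hβ : HB l r 24 β) :
    ∃ E : ℝ → ℝ, HB l r (10 ^ 30) E ∧ ∀ t, l ≤ t → t ≤ r →
      √((3 + δ ^ 2 * y t + t * δ ^ 2 * w t - e * δ ^ 3 * α t) ^ 2 + δ ^ 2 * w t ^ 2) *
        √((3 + δ ^ 2 * y t - e * δ ^ 3 * β t) * (3 + δ ^ 2 * y t - e * δ ^ 3 * α t)) =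
      9 + δ ^ 2 * (6 * y t + 3 * (t * w t) + 1 / 2 * w t ^ 2) + δ ^ 3 * E t := by
  have hd1 : |δ| ≤ 1 := by rw [abs_of_pos hδ0]; linarith
  have hd2 : |δ ^ 2| ≤ 1 / 10000 := by
    rw [abs_of_pos (by positivity)]
    nlinarith
  have hd3 : |e * δ ^ 3| ≤ 1 / 1000000 := by
    rw [abs_mul, abs_of_pos (show 0 < δ ^ 3 by positivity)]
    have h1 : δ ^ 3 ≤ 1 / 1000000 := by
      have : δ ^ 3 ≤ (1 / 100) ^ 3 := pow_le_pow_left₀ hδ0.le hδ 3
      linarith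
    have h2 : |e| * δ ^ 3 ≤ 1 * δ ^ 3 := mul_le_mul_of_nonneg_right he (by positivity)
    linarith
  have hde : |δ * e| ≤ 1 := by
    rw [abs_mul]
    nlinarith [abs_nonneg δ, abs_nonneg e]
  have ht : HB l r 2 (fun t => t) := by
    have := HB.lip (f := fun t => t) (K := 1) (l := l) (r := r) hl hr (fun t h1 h2 => by
      rw [abs_of_nonneg (hl.trans h1)]; linarith) zero_le_one (fun a b _ h2 _ => by
      rw [abs_of_nonneg (sub_nonneg.2 h2)]; linarith)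
    simpa using this
  -- the pieces
  have hA1 := ((hα.cmul (-6 * e) (K := 6) (by rw [abs_mul]; norm_num; linarith)).add
    ((((hy.add (ht.mul hw)).sub (hα.cmul (δ * e) hde)).sq).cmul δ hd1))
  have hA2 := (((hα.add hβ).cmul (-3 * e) (K := 3) (by rw [abs_mul]; norm_num; linarith)).add
    ((((hy.sub (hβ.cmul (δ * e) hde)).mul (hy.sub (hα.cmul (δ * e) hde)))).cmul δ hd1))
  have hT1 := ((hy.add (ht.mul hw)).cmul 6 (K := 6) (by norm_num)).add hw.sq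
  have hT2 := hy.cmul 6 (K := 6) (by norm_num)
  have hτ := ((hy.cmul 6 (K := 6) (by norm_num)).add ((ht.mul hw).cmul 3 (K := 3) (by norm_num))).add
    ((hw.sq).cmul (1 / 2) (K := 1 / 2) (by norm_num))
  have hB := (((hA1.cmul 9 (K := 9) (by norm_num)).add (hA2.cmul 9 (K := 9) (by norm_num))).add
    ((((hT1.add (hA1.cmul δ hd1)).mul (hT2.add (hA2.cmul δ hd1)))).cmul δ hd1)).sub
    ((hτ.sq).cmul δ hd1)
  -- the square roots
  have hx := (HB.const l r (c := 3) (M := 3) (by norm_num)).add (hy.cmul (δ ^ 2) hd2)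
  have hX := (hx.add ((ht.mul hw).cmul (δ ^ 2) hd2)).sub (hα.cmul (e * δ ^ 3) hd3)
  have hx1 := hx.sub (hα.cmul (e * δ ^ 3) hd3)
  have hx2 := hx.sub (hβ.cmul (e * δ ^ 3) hd3)
  have hP := hX.sq.add ((hw.sq).cmul (δ ^ 2) hd2)
  have hQ := hx2.mul hx1
  have lb : ∀ t, l ≤ t → t ≤ r → |δ ^ 2 * y t| ≤ 1 / 1000 ∧ |δ ^ 2 * (t * w t)| ≤ 4 / 1000 ∧
      |e * δ ^ 3 * α t| ≤ 1 / 1000 ∧ |e * δ ^ 3 * β t| ≤ 1 / 1000 := by
    intro t h1 h2
    have a1 := (hy.cmul (δ ^ 2) hd2).bd t h1 h2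
    have a2 := ((ht.mul hw).cmul (δ ^ 2) hd2).bd t h1 h2
    have a3 := (hα.cmul (e * δ ^ 3) hd3).bd t h1 h2
    have a4 := (hβ.cmul (e * δ ^ 3) hd3).bd t h1 h2
    refine ⟨a1.trans (by norm_num), a2.trans (by norm_num), a3.trans (by norm_num),
      a4.trans (by norm_num)⟩
  have hP1 : ∀ t, l ≤ t → t ≤ r →
      1 ≤ (3 + δ ^ 2 * y t + δ ^ 2 * (t * w t) - e * δ ^ 3 * α t) ^ 2 + δ ^ 2 * w t ^ 2 := by
    intro t h1 h2
    obtain ⟨a1, a2, a3, a4⟩ := lb t h1 h2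
    rw [abs_le] at a1 a2 a3 a4
    have h3 : 1 ≤ 3 + δ ^ 2 * y t + δ ^ 2 * (t * w t) - e * δ ^ 3 * α t := by linarith
    have h4 : 0 ≤ δ ^ 2 * w t ^ 2 := by positivity
    nlinarith
  have hQ1 : ∀ t, l ≤ t → t ≤ r →
      1 ≤ (3 + δ ^ 2 * y t - e * δ ^ 3 * β t) * (3 + δ ^ 2 * y t - e * δ ^ 3 * α t) := by
    intro t h1 h2
    obtain ⟨a1, a2, a3, a4⟩ := lb t h1 h2
    rw [abs_le] at a1 a2 a3 a4
    have h3 : 1 ≤ 3 + δ ^ 2 * y t - e * δ ^ 3 * β t := by linarith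
    have h4 : 1 ≤ 3 + δ ^ 2 * y t - e * δ ^ 3 * α t := by linarith
    nlinarith
  have hN := (hP.sqrt hP1).mul (hQ.sqrt hQ1)
  have hDen := hN.add ((HB.const l r (c := 9) (M := 9) (by norm_num)).add (hτ.cmul (δ ^ 2) hd2))
  have hDen1 : ∀ t, l ≤ t → t ≤ r →
      1 ≤ √((3 + δ ^ 2 * y t + δ ^ 2 * (t * w t) - e * δ ^ 3 * α t) ^ 2 + δ ^ 2 * w t ^ 2) *
        √((3 + δ ^ 2 * y t - e * δ ^ 3 * β t) * (3 + δ ^ 2 * y t - e * δ ^ 3 * α t)) +
        (9 + δ ^ 2 * (6 * y t + 3 * (t * w t) + 1 / 2 * w t ^ 2)) := by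
    intro t h1 h2
    have h3 : 0 ≤ √((3 + δ ^ 2 * y t + δ ^ 2 * (t * w t) - e * δ ^ 3 * α t) ^ 2 + δ ^ 2 * w t ^ 2) *
        √((3 + δ ^ 2 * y t - e * δ ^ 3 * β t) * (3 + δ ^ 2 * y t - e * δ ^ 3 * α t)) := by
      positivity
    have h4 := (hτ.cmul (δ ^ 2) hd2).bd t h1 h2
    have h5 := h4.trans (show _ ≤ (1 : ℝ) by norm_num)
    rw [abs_le] at h5
    linarith [h5.1]
  have hE := hB.mul (hDen.inv hDen1)
  refine ⟨_, hE.mono (by norm_num), fun t h1 h2 => ?_⟩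
  have hP1' := hP1 t h1 h2
  have hQ1' := hQ1 t h1 h2
  have hD1' := hDen1 t h1 h2
  have e0 : 3 + δ ^ 2 * y t + t * δ ^ 2 * w t - e * δ ^ 3 * α t =
    3 + δ ^ 2 * y t + δ ^ 2 * (t * w t) - e * δ ^ 3 * α t := by ring
  rw [e0]
  beta_reduce
  have eP := Real.sq_sqrt (show 0 ≤ (3 + δ ^ 2 * y t + δ ^ 2 * (t * w t) - e * δ ^ 3 * α t) ^ 2 +
    δ ^ 2 * w t ^ 2 by linarith)
  have eQ := Real.sq_sqrt (show 0 ≤ (3 + δ ^ 2 * y t - e * δ ^ 3 * β t) *
    (3 + δ ^ 2 * y t - e * δ ^ 3 * α t) by linarith)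
  set p := √((3 + δ ^ 2 * y t + δ ^ 2 * (t * w t) - e * δ ^ 3 * α t) ^ 2 + δ ^ 2 * w t ^ 2)
  set q := √((3 + δ ^ 2 * y t - e * δ ^ 3 * β t) * (3 + δ ^ 2 * y t - e * δ ^ 3 * α t))
  have hpos : 0 < p * q + (9 + δ ^ 2 * (6 * y t + 3 * (t * w t) + 1 / 2 * w t ^ 2)) := by linarith
  have ePQ : (p * q) ^ 2 = ((3 + δ ^ 2 * y t + δ ^ 2 * (t * w t) - e * δ ^ 3 * α t) ^ 2 +
    δ ^ 2 * w t ^ 2) * ((3 + δ ^ 2 * y t - e * δ ^ 3 * β t) *
    (3 + δ ^ 2 * y t - e * δ ^ 3 * α t)) := by rw [mul_pow, eP, eQ]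
  rw [← sub_eq_iff_eq_add', ← mul_assoc (δ ^ 3), eq_mul_inv_iff_mul_eq₀ hpos.ne']
  have key : (p * q) ^ 2 - (9 + δ ^ 2 * (6 * y t + 3 * (t * w t) + 1 / 2 * w t ^ 2)) ^ 2 = 
    (p * q - (9 + δ ^ 2 * (6 * y t + 3 * (t * w t) + 1 / 2 * w t ^ 2))) *
    (p * q + (9 + δ ^ 2 * (6 * y t + 3 * (t * w t) + 1 / 2 * w t ^ 2))) := by ring
  rw [← key, ePQ]
  ring

/-- `FL0` and the right branch agree at `1/2` -/
lemma FL0_half : FL0 (1 / 2) = bb * (1 - 1 / 2) := by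
  unfold FL0
  have h : √((1 / 2 : ℝ) / 2) = 1 / 2 := by
    rw [show (1 / 2 : ℝ) / 2 = (1 / 2) ^ 2 by norm_num]
    exact Real.sqrt_sq (by norm_num)
  rw [h]
  norm_num

lemma Fp_piece (p l r : ℝ) (h : (l = 0 ∧ r = 1 / 2) ∨ (l = 1 / 2 ∧ r = 1)) (t : ℝ) (hl : l ≤ t)
    (hr : t ≤ r) : Fp p t = if r = 1 / 2 then FL0 t - p * (1 / 2 - t) else bb * (1 - t) := by
  unfold Fp F0
  rcases h with ⟨rfl, rfl⟩ | ⟨rfl, rfl⟩
  · rw [if_pos rfl, max_eq_left (by linarith)]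
    rcases lt_or_eq_of_le hr with h1 | h1
    · rw [if_pos h1]
    · rw [if_neg (by linarith), h1, FL0_half]
  · rw [if_neg (show ¬ ((1 : ℝ) = 1 / 2) by norm_num), if_neg (by linarith),
      max_eq_right (by linarith)]
    ring

lemma yHB {δ : ℝ} {S : St} (hδ0 : 0 < δ) (hB : FactsB δ S) (e : ℝ) (he : e = 1 ∨ e = -1) (l r : ℝ)
    (hl : 0 ≤ l) (hr : r ≤ 1) : HB l r 10 (fun t => Ups S t + e * Fp S.p t) := by
  have h2 : 0 < δ ^ 2 := by positivity
  have := HB.lip (f := fun t => Ups S t + e * Fp S.p t) (K := 5) (l := l) (r := r) hl hr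
    (fun t h1 h3 => by
      have h4 := hB.x_bd e he t (hl.trans h1) (h3.trans hr)
      unfold xx at h4
      rw [add_sub_cancel_left, abs_mul, abs_of_pos h2] at h4
      have h5 : |Ups S t + e * Fp S.p t| ≤ 5 := by
        by_contra hc
        push_neg at hc
        nlinarith
      linarith) (by norm_num) (fun a b ha hab hb => by
      have h4 := hB.x_lip e he a b (hl.trans ha) hab (hb.trans hr)
      unfold xx at h4
      rw [add_sub_add_left_eq_sub, ← mul_sub, abs_mul, abs_of_pos h2] at h4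
      by_contra hc
      push_neg at hc
      nlinarith)
  refine this.mono (by norm_num)

lemma daHB {S : St} (hA : FactsA S) (l r : ℝ) (hl : 0 ≤ l) (hr : r ≤ 1) :
    HB l r 24 (fun t => da S t) := by
  have := HB.lip (f := fun t => da S t) (K := 12) (l := l) (r := r) hl hr
    (fun t _ _ => (hA.da_bd t).trans (by norm_num)) (by norm_num) (fun a b _ hab _ => by
      have h := Convex.norm_image_sub_le_of_norm_hasDerivWithin_le (f := da S) (f' := S.g)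
        (s := univ) (C := 12) (x := a) (y := b) (fun x _ => (hA.da_deriv x).hasDerivWithinAt)
        (fun x _ => by simpa using hA.g_bd x) convex_univ (mem_univ _) (mem_univ _)
      rw [Real.norm_eq_abs, Real.norm_eq_abs, abs_of_nonneg (sub_nonneg.2 hab)] at h
      exact h)
  refine this.mono (by norm_num)

lemma abHB {S : St} (hA : FactsA S) (l r : ℝ) (hl : 0 ≤ l) (hr : r ≤ 1) :
    HB l r 24 (fun t => ab S t) := by
  have := HB.lip (f := fun t => ab S t) (K := 12) (l := l) (r := r) hl hr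
    (fun t _ _ => (hA.ab_bd t).trans (by norm_num)) (by norm_num) (fun a b _ hab _ => by
      have h := hA.ab_lip a b
      rw [abs_of_nonneg (sub_nonneg.2 hab)] at h
      exact h)
  refine this.mono (by norm_num)

end DEaux

open DEaux

/-- §4.4 -/
theorem DE (hA : S_FactsA) (hB : S_FactsB) : S_DE := by
  obtain ⟨δ₁, hδ₁, hδ₁', hB⟩ := hB
  refine ⟨2 * 10 ^ 30, by norm_num, δ₁, hδ₁, fun δ hδ0 hδ S hS l r hlr U₁ f₁ hb hi => ?_⟩
  have hA := hA S hS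
  have hB := hB δ hδ0 hδ S hS
  have hl : 0 ≤ l := by rcases hlr with ⟨h, -⟩ | ⟨h, -⟩ <;> rw [h] <;> norm_num
  have hr : r ≤ 1 := by rcases hlr with ⟨-, h⟩ | ⟨-, h⟩ <;> rw [h] <;> norm_num
  have hU : HB l r 5 U₁ :=
    ⟨by norm_num, fun t h1 h2 => (hb t h1 h2).1, fun a b h1 h2 h3 => (hi a b h1 h2 h3).1⟩
  have hf : HB l r 5 f₁ :=
    ⟨by norm_num, fun t h1 h2 => (hb t h1 h2).2.trans (by norm_num),
      fun a b h1 h2 h3 => (hi a b h1 h2 h3).2⟩
  have hp : HB l r 10 (fun t => U₁ t + f₁ t) := (hU.add hf).mono (by norm_num)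
  have hm : HB l r 10 (fun t => U₁ t - f₁ t) := (hU.sub hf).mono (by norm_num)
  have hδ1 : δ ≤ 1 / 100 := hδ.trans hδ₁'
  obtain ⟨Ep, hEp, eEp⟩ := core δ 1 (by norm_num) hδ0 hδ1 l r hl hr _ _ _ _
    (yHB hδ0 hB 1 (Or.inl rfl) l r hl hr) hp (daHB hA l r hl hr) (abHB hA l r hl hr)
  obtain ⟨Em, hEm, eEm⟩ := core δ (-1) (by norm_num) hδ0 hδ1 l r hl hr _ _ _ _
    (yHB hδ0 hB (-1) (Or.inr rfl) l r hl hr) hm (daHB hA l r hl hr) (abHB hA l r hl hr)
  have key : ∀ t, l ≤ t → t ≤ r → DD δ S (U₁ t + f₁ t) (U₁ t - f₁ t) t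
      - 12 * (if r = 1 / 2 then FL0 t - S.p * (1 / 2 - t) else bb * (1 - t))
      - 2 * f₁ t * (U₁ t + 3 * t) = δ * (Ep t - Em t) := by
    intro t h1 h2
    rw [← Fp_piece S.p l r hlr t h1 h2]
    have h3 := eEp t h1 h2
    have h4 := eEm t h1 h2
    have h5 : Nf δ S 1 (U₁ t + f₁ t) t = 9 + δ ^ 2 * (6 * (Ups S t + 1 * Fp S.p t) +
        3 * (t * (U₁ t + f₁ t)) + 1 / 2 * (U₁ t + f₁ t) ^ 2) + δ ^ 3 * Ep t := by
      rw [← h3]
      rfl
    have h6 : Nf δ S (-1) (U₁ t - f₁ t) t = 9 + δ ^ 2 * (6 * (Ups S t + -1 * Fp S.p t) +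
        3 * (t * (U₁ t - f₁ t)) + 1 / 2 * (U₁ t - f₁ t) ^ 2) + δ ^ 3 * Em t := by
      rw [← h4]
      rfl
    unfold DD
    rw [h5, h6]
    have h7 : δ ^ 2 ≠ 0 := by positivity
    field_simp
    ring
  have hE := hEp.sub hEm
  constructor
  · intro t h1 h2
    rw [key t h1 h2, abs_mul, abs_of_pos hδ0, mul_comm]
    have := hE.bd t h1 h2
    exact mul_le_mul_of_nonneg_right (this.trans (by norm_num)) hδ0.le
  · intro a b h1 h2 h3
    rw [key b (h1.trans h2) h3, key a h1 (h2.trans h3), ← mul_sub, abs_mul, abs_of_pos hδ0]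
    have h4 := hE.inc a b h1 h2 h3
    have h5 := mul_le_mul_of_nonneg_left h4 hδ0.le
    refine h5.trans (le_of_eq (by ring))

end Pool.Agent.HV
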