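import Mathlib

/-!
# Definitions for MP_678b51_gt, Q2   (helper76)

Paper: `/team-store/678b51_paper.md`.  A convex body of revolution, not centrally symmetric, whose
volume-halving planes halve the surface area.  The sign of the end is a real number `e = 1` (right
end) or `e = -1` (left end).
-/

set_option autoImplicit false

open MeasureTheory Set
open scoped Real Topology

namespace Pool.Agent.HV

/-! ## Reference functions -/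

/-- the constant `b = 1/100` -/
noncomputable def bb : ℝ := 1 / 100

/-- `Ω(t) = 2√t - 2√(1/2-t)₊ - 2√(1-t)₊` -/
noncomputable def Om (t : ℝ) : ℝ := 2 * √t - 2 * √(1 / 2 - t) - 2 * √(1 - t)

/-- left branch of `F₀` -/
noncomputable def FL0 (t : ℝ) : ℝ := bb * (-(10 / 3) + 10 * t - 28 / 3 * (√(t / 2)) ^ 3)

/-- `F₀` -/
noncomputable def F0 (t : ℝ) : ℝ := if t < 1 / 2 then FL0 t else bb * (1 - t)

/-- left branch of `f₀` -/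
noncomputable def fL0 (t : ℝ) : ℝ := bb * (10 - 7 * √(t / 2))

/-- `F_p = F₀ - p (1/2-t)₊` -/
noncomputable def Fp (p t : ℝ) : ℝ := F0 t - p * max (1 / 2 - t) 0

/-- left branch of `f_p` -/
noncomputable def fL (p t : ℝ) : ℝ := fL0 t + p

/-- `f_p` -/
noncomputable def fp (p t : ℝ) : ℝ := if t < 1 / 2 then fL p t else -bb

/-- left branch of `U₀` -/
noncomputable def UL0 (t : ℝ) : ℝ := 3 / 2 * (FL0 t / fL0 t) - 3 * t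

/-- right branch of `U₀` -/
noncomputable def UR0 (t : ℝ) : ℝ := -(3 / 2) - 3 / 2 * t

/-- `𝒜 g (t) = ∫_t^1 g(s) (s²-t²)^{-1/2} ds` -/
noncomputable def Aop (g : ℝ → ℝ) (t : ℝ) : ℝ := ∫ s in t..1, g s / √(s ^ 2 - t ^ 2)

/-- `𝒞 g (t) = t ∫_t^1 g(s) (s²-t²)^{-1/2} ds` -/
noncomputable def Cop (g : ℝ → ℝ) (t : ℝ) : ℝ := t * Aop g t

/-- odd extension of a function on `[0,∞)` -/
noncomputable def oddext (h : ℝ → ℝ) (t : ℝ) : ℝ := if 0 ≤ t then h t else -h (-t)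

/-- `γ₀ = (3/2) 𝒞 f₀` on `[0,1]`, `0` for `t ≥ 1`, odd -/
noncomputable def g0 : ℝ → ℝ := oddext fun t => if t < 1 then 3 / 2 * Cop (fp 0) t else 0

/-! ## States -/

/-- a state: `U` (left branch on `[0,1/2]`, right branch on `[1/2,1]`), `γ`, `p` -/
structure St where
  /-- left branch of `U` -/
  UL : ℝ → ℝ
  /-- right branch of `U` -/
  UR : ℝ → ℝ
  /-- `γ` -/
  g : ℝ → ℝ
  /-- `p` -/
  p : ℝ

/-- `U` -/
noncomputable def St.U (S : St) (t : ℝ) : ℝ := if t < 1 / 2 then S.UL t else S.UR t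

/-- what is common to all states used: `γ` is continuous, odd, `0` beyond `1`, `∫ tγ = 0` -/
structure Base (S : St) : Prop where
  gC : Continuous S.g
  godd : ∀ t, S.g (-t) = -S.g t
  gz : ∀ t, 1 ≤ t → S.g t = 0
  gmom : ∫ t in (0 : ℝ)..1, t * S.g t = 0

/-- the crude class of states -/
structure Crude (S : St) : Prop extends Base S where
  ginc : ∀ a b, 0 ≤ a → a ≤ b → b ≤ 1 → |S.g b - S.g a| ≤ 2 * (Om b - Om a)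
  pb : |S.p| ≤ 1 / 1000
  ULb : ∀ t, 0 ≤ t → t ≤ 1 / 2 → -4 ≤ S.UL t ∧ S.UL t ≤ -(1 / 5)
  URb : ∀ t, 1 / 2 ≤ t → t ≤ 1 → -4 ≤ S.UR t ∧ S.UR t ≤ -(1 / 5)
  ULi : ∀ a b, 0 ≤ a → a ≤ b → b ≤ 1 / 2 → |S.UL b - S.UL a| ≤ 4 * (√b - √a)
  URi : ∀ a b, 1 / 2 ≤ a → a ≤ b → b ≤ 1 → |S.UR b - S.UR a| ≤ 4 * (√b - √a)

/-- the ball in which the fixed point is found -/
structure Ball (K₁ K₂ K₃ δ : ℝ) (S : St) : Prop extends Base S where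
  ginc : ∀ a b, 0 ≤ a → a ≤ b → b ≤ 1 →
    |(S.g b - g0 b) - (S.g a - g0 a)| ≤ K₂ * δ * (Om b - Om a)
  pb : |S.p| ≤ K₁ * δ
  ULb : ∀ t, 0 ≤ t → t ≤ 1 / 2 → |S.UL t - UL0 t| ≤ K₃ * δ
  URb : ∀ t, 1 / 2 ≤ t → t ≤ 1 → |S.UR t - UR0 t| ≤ K₃ * δ
  ULi : ∀ a b, 0 ≤ a → a ≤ b → b ≤ 1 / 2 →
    |(S.UL b - UL0 b) - (S.UL a - UL0 a)| ≤ K₃ * δ * (√b - √a)
  URi : ∀ a b, 1 / 2 ≤ a → a ≤ b → b ≤ 1 →
    |(S.UR b - UR0 b) - (S.UR a - UR0 a)| ≤ K₃ * δ * (√b - √a)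

section Funs

variable (δ : ℝ) (S : St)

/-- `α' (t) = -∫_t^1 γ` -/
noncomputable def da (t : ℝ) : ℝ := -∫ s in t..1, S.g s

/-- `α (t) = -∫_t^1 α'` -/
noncomputable def al (t : ℝ) : ℝ := -∫ s in t..1, da S s

/-- `ᾱ(t) = ∫_0^1 α'(θt) dθ = α(t)/t` -/
noncomputable def ab (t : ℝ) : ℝ := ∫ θ in (0 : ℝ)..1, da S (θ * t)

/-- `α[a,b] = ∫_0^1 α'(b+θ(a-b)) dθ` -/
noncomputable def dd (a b : ℝ) : ℝ := ∫ θ in (0 : ℝ)..1, da S (b + θ * (a - b))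

/-- `Γ(a,b) = ∫_0^1 (1-θ) γ(b+θ(a-b)) dθ = ∂_b α[a,b]` -/
noncomputable def Gm (a b : ℝ) : ℝ := ∫ θ in (0 : ℝ)..1, (1 - θ) * S.g (b + θ * (a - b))

/-- `u_e = U + e f_p` -/
noncomputable def uu (e t : ℝ) : ℝ := S.U t + e * fp S.p t

/-- `Υ(t) = -∫_t^1 U` -/
noncomputable def Ups (t : ℝ) : ℝ := -∫ s in t..1, S.U s

/-- `x_e = 3 + δ²(Υ + e F_p)` -/
noncomputable def xx (e t : ℝ) : ℝ := 3 + δ ^ 2 * (Ups S t + e * Fp S.p t)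

/-- `P⁰_e(s,t) = x_e(s) - e δ³ α'(t)` -/
noncomputable def P0 (e s t : ℝ) : ℝ := xx δ S e s - e * δ ^ 3 * da S t

/-- `P¹_e(s,t) = x_e(s) - e δ³ α[s,t]` -/
noncomputable def P1 (e s t : ℝ) : ℝ := xx δ S e s - e * δ ^ 3 * dd S s t

/-- `P²_e(s,t) = x_e(s) - e δ³ α[s,-t]` -/
noncomputable def P2 (e s t : ℝ) : ℝ := xx δ S e s - e * δ ^ 3 * dd S s (-t)

/-- `G_e(s,t)` -/
noncomputable def GG (e s t : ℝ) : ℝ := √(P1 δ S e s t * P2 δ S e s t)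

/-- `κ_e(s,t) = P⁰/G` -/
noncomputable def kap (e s t : ℝ) : ℝ := P0 δ S e s t / GG δ S e s t

/-- `k_e(s,t) = ∂_t κ_e(s,t)` -/
noncomputable def kk (e s t : ℝ) : ℝ := kap δ S e s t * (e * δ ^ 3) *
  (-S.g t / P0 δ S e s t + Gm S s t / (2 * P1 δ S e s t) - Gm S s (-t) / (2 * P2 δ S e s t))

/-- `Z_e(t)` -/
noncomputable def ZZ (e t : ℝ) : ℝ :=
  √((xx δ S e t + t * δ ^ 2 * uu S e t - e * δ ^ 3 * da S t) ^ 2 + δ ^ 2 * uu S e t ^ 2)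

/-- `n_e(t)` -/
noncomputable def nn (e t : ℝ) : ℝ := (xx δ S e t - e * δ ^ 3 * ab S t) * ZZ δ S e t

/-- `Θ_e(s,t)` -/
noncomputable def Th (e s t : ℝ) : ℝ :=
  (xx δ S e s - e * δ ^ 3 * ab S t) * P0 δ S e s t ^ 2 / GG δ S e s t

/-! ### The cone -/

/-- `x̂(r) = 3 - (3/4)δ(r-3)` -/
noncomputable def xr (r : ℝ) : ℝ := 3 - 3 / 4 * δ * (r - 3)

/-- `R̂ = 3 + 4/δ` -/
noncomputable def Rh : ℝ := 3 + 4 / δ

/-- `y_e = t x̂(r) - e δ³ α(t)` -/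
noncomputable def yr (e t r : ℝ) : ℝ := t * xr δ r - e * δ ^ 3 * al S t

/-- `w_e = √(r² - y_e²)` -/
noncomputable def wr (e t r : ℝ) : ℝ := √(r ^ 2 - yr δ S e t r ^ 2)

/-- `Q(t)` -/
noncomputable def Qf (t : ℝ) : ℝ := 5 / 4 * ∫ r in (3 : ℝ)..Rh δ,
  r * ((xr δ r - δ ^ 3 * da S t) / wr δ S 1 t r - (xr δ r + δ ^ 3 * da S t) / wr δ S (-1) t r)

/-- integrand of `Q'(t)` for the end `e` -/
noncomputable def Qi (e t r : ℝ) : ℝ :=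
  -(δ ^ 3 * S.g t) / wr δ S e t r +
    e * (xr δ r - e * δ ^ 3 * da S t) ^ 2 * yr δ S e t r / wr δ S e t r ^ 3

/-- `Q'(t)` -/
noncomputable def Qd (t : ℝ) : ℝ :=
  5 / 4 * ∫ r in (3 : ℝ)..Rh δ, r * (Qi δ S 1 t r + Qi δ S (-1) t r)

/-! ### The equation for `γ` -/

/-- the part of `Î` from one end -/
noncomputable def Ihe (e t : ℝ) : ℝ :=
  δ ^ 3 * (∫ s in t..1, √(s ^ 2 - t ^ 2) * GG δ S e s t * (-uu S e s)) +
    3 / 4 * δ ^ 2 * ∫ r in (3 : ℝ)..Rh δ, wr δ S e t r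

/-- `Î(t)` -/
noncomputable def Ih (t : ℝ) : ℝ := Ihe δ S 1 t + Ihe δ S (-1) t

/-- `∫_t^1 u_e(s) Θ_e(s,t) (s²-t²)^{-1/2} ds` -/
noncomputable def Pae (e t : ℝ) : ℝ :=
  ∫ s in t..1, uu S e s * Th δ S e s t / √(s ^ 2 - t ^ 2)

/-- `𝒫(t)` -/
noncomputable def Pa (t : ℝ) : ℝ := t * (Pae δ S 1 t - Pae δ S (-1) t)

/-- `∫ y_e (x̂ - e δ³ α')² / w_e dr` -/
noncomputable def Kce (e t : ℝ) : ℝ := ∫ r in (3 : ℝ)..Rh δ,
  yr δ S e t r * (xr δ r - e * δ ^ 3 * da S t) ^ 2 / wr δ S e t r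

/-- `𝒦(t)` -/
noncomputable def Kc (t : ℝ) : ℝ := 3 / (4 * δ) * (Kce δ S 1 t - Kce δ S (-1) t)

/-- `γ_A(t)` -/
noncomputable def gA (t : ℝ) : ℝ := (Pa δ S t - Kc δ S t) / Ih δ S t

/-- `q = ∫_0^1 t γ_A` -/
noncomputable def qq : ℝ := ∫ t in (0 : ℝ)..1, t * gA δ S t

/-! ### The equation for `U` -/

/-- `p_φ = √(t²cos²φ + s²sin²φ)` -/
noncomputable def pph (s t φ : ℝ) : ℝ := √(t ^ 2 * Real.cos φ ^ 2 + s ^ 2 * Real.sin φ ^ 2)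

/-- `J_e(s,t) = ∫_0^{π/2} k_e(s,p_φ) cos²φ / p_φ dφ` -/
noncomputable def JJ (e s t : ℝ) : ℝ :=
  ∫ φ in (0 : ℝ)..(π / 2), kk δ S e s (pph s t φ) * Real.cos φ ^ 2 / pph s t φ

/-- `R(t)` -/
noncomputable def Rp (t : ℝ) : ℝ :=
  ∫ s in t..1, s * (nn δ S 1 s * JJ δ S 1 s t - nn δ S (-1) s * JJ δ S (-1) s t)

/-- `Rhs = δ^{-2} (𝒜[Q'] + R)` -/
noncomputable def Rhs (t : ℝ) : ℝ := (Aop (Qd δ S) t + Rp δ S t) / δ ^ 2

/-- `Z_e √((x_e-eδ³ᾱ)(x_e-eδ³α'))` with the value `w` in place of `u_e(t)` -/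
noncomputable def Nf (e w t : ℝ) : ℝ :=
  √((xx δ S e t + t * δ ^ 2 * w - e * δ ^ 3 * da S t) ^ 2 + δ ^ 2 * w ^ 2) *
    √((xx δ S e t - e * δ ^ 3 * ab S t) * (xx δ S e t - e * δ ^ 3 * da S t))

/-- `D(t)` with the values `wp`, `wm` in place of `u_±(t)` -/
noncomputable def DD (wp wm t : ℝ) : ℝ := (Nf δ S 1 wp t - Nf δ S (-1) wm t) / δ ^ 2

/-- the map `T` -/
noncomputable def TT : St where
  UL := fun t => S.UL t -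
    (DD δ S (S.UL t + fL S.p t) (S.UL t - fL S.p t) t - 2 / π * Rhs δ S t) / (2 * fL S.p t)
  UR := fun t => S.UR t -
    (DD δ S (S.UR t - bb) (S.UR t + bb) t - 2 / π * Rhs δ S t) / (2 * (-bb))
  g := oddext fun t => if t < 1 then gA δ S t - 12 * qq δ S * t * (1 - t) else 0
  p := S.p - 64 / π * qq δ S

end Funs

/-! ## The interface between analysis and geometry -/

section Geo

variable (δ : ℝ) (A dA : ℝ → ℝ) (x u : ℝ → ℝ → ℝ)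

/-- `ρ̂_e(t) = t x_e(t) - e A(t)` -/
noncomputable def rho (e t : ℝ) : ℝ := t * x e t - e * A t

/-- `ρ̂_e'(t) = x_e(t) + t δ² u_e(t) - e A'(t)` -/
noncomputable def drho (e t : ℝ) : ℝ := x e t + t * δ ^ 2 * u e t - e * dA t

/-- the part of (V) from the end `e` -/
noncomputable def Ve (e t : ℝ) : ℝ :=
  (∫ s in t..1, √(rho A x e s ^ 2 - (t * x e s - e * A t) ^ 2) * (x e s - e * dA t) *
      (-(δ ^ 2 * u e s))) +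
    3 / 4 * δ * ∫ r in (3 : ℝ)..Rh δ,
      √(r ^ 2 - (t * xr δ r - e * A t) ^ 2) * (xr δ r - e * dA t)

/-- the part of (S) from the end `e` -/
noncomputable def Se (e t : ℝ) : ℝ :=
  (∫ s in t..1, rho A x e s * √(drho δ dA x u e s ^ 2 + δ ^ 2 * u e s ^ 2) *
      (x e s - e * dA t) / √(rho A x e s ^ 2 - (t * x e s - e * A t) ^ 2)) +
    5 / 4 * ∫ r in (3 : ℝ)..Rh δ,
      r * (xr δ r - e * dA t) / √(r ^ 2 - (t * xr δ r - e * A t) ^ 2)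

/-- data produced by the analysis and consumed by the geometry -/
structure Prof : Prop where
  δ0 : 0 < δ
  δ1 : δ ≤ 1 / 100
  hA : ∀ t, HasDerivAt A (dA t) t
  dAc : Continuous dA
  Aodd : ∀ t, A (-t) = -A t
  Az : ∀ t, 1 ≤ t → A t = 0
  dAb : ∀ t, |dA t| ≤ 1 / 10
  x1 : ∀ e, x e 1 = 3
  xc : ∀ e, ContinuousOn (x e) (Icc 0 1)
  hx : ∀ e, (e = 1 ∨ e = -1) → ∀ t, 0 < t → t < 1 → t ≠ 1 / 2 →
    HasDerivAt (x e) (δ ^ 2 * u e t) t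
  ucL : ∀ e, ContinuousOn (u e) (Ico 0 (1 / 2))
  ucR : ∀ e, ContinuousOn (u e) (Icc (1 / 2) 1)
  ub : ∀ e, (e = 1 ∨ e = -1) → ∀ t, 0 ≤ t → t ≤ 1 → -5 ≤ u e t ∧ u e t ≤ -(1 / 20)
  slope : ∀ e, (e = 1 ∨ e = -1) → ∀ a b, 0 ≤ a → a < b → b ≤ 1 →
    u e b / drho δ dA x u e b < u e a / drho δ dA x u e a
  V : ∀ t, 0 < t → t < 1 → Ve δ A dA x u 1 t - Ve δ A dA x u (-1) t = 0
  S : ∀ t, 0 < t → t < 1 → Se δ A dA x u 1 t - Se δ A dA x u (-1) t = 0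
  ne : x 1 0 ≠ x (-1) 0

/-- three-dimensional Euclidean space -/
abbrev E3 : Type := EuclideanSpace ℝ (Fin 3)

/-- distance from the `x`-axis -/
noncomputable def vr (P : E3) : ℝ := √(P 1 ^ 2 + P 2 ^ 2)

/-- the part `|x| ≤ 3` of the body -/
def Kmid : Set E3 := {P | |P 0| ≤ 3 ∧ vr P ≤ 4 / 3 * (3 + 9 / 4 * δ - |P 0|)}

/-- the cap at the end `e` -/
def Kcap (e : ℝ) : Set E3 := {P | ∃ t, 0 ≤ t ∧ t ≤ 1 ∧ e * P 0 = x e t ∧ vr P ≤ δ * rho A x e t}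

/-- the body -/
def KK : Set E3 := Kmid δ ∪ Kcap δ A x 1 ∪ Kcap δ A x (-1)

/-- boundary of the middle part -/
def Smid : Set E3 := {P | |P 0| ≤ 3 ∧ vr P = 4 / 3 * (3 + 9 / 4 * δ - |P 0|)}

/-- boundary of the cap -/
def Scap (e : ℝ) : Set E3 := {P | ∃ t, 0 ≤ t ∧ t ≤ 1 ∧ e * P 0 = x e t ∧ vr P = δ * rho A x e t}

/-- the boundary -/
def SS : Set E3 := Smid δ ∪ Scap δ A x 1 ∪ Scap δ A x (-1)

end Geo

end Pool.Agent.HV
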