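import Pool.Agent.HV.Stmts

/-!
# MP_678b51_gt, module HV_E0   (helper55)

From the equation for `U` to the area equation (§5.1 (iv)).
-/

set_option autoImplicit false

open MeasureTheory Set Filter
open scoped Real Topology ENNReal

namespace Pool.Agent.HV

namespace E0aux

/-! ## The Abel weight -/

/-- the weight `τ (τ²-t²)^{-1/2}` -/
noncomputable def wa (t τ : ℝ) : ℝ := τ / √(τ ^ 2 - t ^ 2)

lemma wa_int (t : ℝ) (h0 : 0 ≤ t) : IntegrableOn (wa t) (Ioc t 1) := by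
  refine intervalIntegral.integrableOn_deriv_of_nonneg (g := fun τ => √(τ ^ 2 - t ^ 2)) ?_ ?_ ?_
  · fun_prop
  · intro x hx
    have hpos : 0 < x ^ 2 - t ^ 2 := by nlinarith [hx.1]
    have h1 : HasDerivAt (fun τ : ℝ => τ ^ 2 - t ^ 2) (2 * x) x := by
      simpa using (hasDerivAt_pow 2 x).sub_const (t ^ 2)
    have h2 := h1.sqrt hpos.ne'
    refine h2.congr_deriv ?_
    unfold wa
    rw [mul_div_mul_left _ _ two_ne_zero]
  · intro x hx
    unfold wa
    exact div_nonneg (by linarith [hx.1]) (Real.sqrt_nonneg _)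

/-! ## Fubini on the triangle -/

lemma fub (t : ℝ) (ht : t ≤ 1) (a b : ℝ → ℝ) (J : ℝ → ℝ → ℝ) (M : ℝ)
    (ha : IntegrableOn a (Ioc t 1)) (hb : IntegrableOn b (Ioc t 1))
    (hJ : Continuous fun z : ℝ × ℝ => J z.1 z.2) (hM : ∀ s τ, |J s τ| ≤ M) :
    IntervalIntegrable (fun τ => a τ * ∫ s in τ..1, b s * J s τ) volume t 1 ∧
    ∫ τ in t..1, a τ * ∫ s in τ..1, b s * J s τ =
      ∫ s in t..1, b s * ∫ τ in t..s, a τ * J s τ := by
  set μ := volume.restrict (Ioc t 1) with hμ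
  let f : ℝ → ℝ → ℝ := fun τ s => if τ < s then a τ * b s * J s τ else 0
  have hf : Integrable (Function.uncurry f) (μ.prod μ) := by
    have h1 : Integrable (fun z : ℝ × ℝ => a z.1 * b z.2) (μ.prod μ) :=
      Integrable.mul_prod ha hb
    have hJ' : Continuous fun z : ℝ × ℝ => J z.2 z.1 := hJ.comp continuous_swap
    have h2 : Integrable (fun z : ℝ × ℝ => a z.1 * b z.2 * J z.2 z.1) (μ.prod μ) :=
      h1.mul_bdd (c := M) hJ'.aestronglyMeasurable
        (Eventually.of_forall fun z => by rw [Real.norm_eq_abs]; exact hM _ _)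
    have hms : MeasurableSet {z : ℝ × ℝ | z.1 < z.2} :=
      measurableSet_lt measurable_fst measurable_snd
    have h3 := h2.indicator hms
    refine h3.congr (Eventually.of_forall fun z => ?_)
    simp only [indicator, mem_ofPred_eq, Function.uncurry, f]
  have hL : ∀ τ ∈ Ioc t 1, ∫ s, f τ s ∂μ = a τ * ∫ s in τ..1, b s * J s τ := by
    intro τ hτ
    have h1 : (fun s => f τ s) = (Ioi τ).indicator fun s => a τ * (b s * J s τ) := by
      funext s
      simp only [f, indicator, mem_Ioi, mul_assoc]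
    rw [h1, hμ, setIntegral_indicator measurableSet_Ioi,
      show Ioc t 1 ∩ Ioi τ = Ioc τ 1 from by
        ext x
        simp only [mem_inter_iff, mem_Ioc, mem_Ioi]
        constructor
        · rintro ⟨⟨_, h2⟩, h3⟩
          exact ⟨h3, h2⟩
        · rintro ⟨h2, h3⟩
          exact ⟨⟨hτ.1.trans h2, h3⟩, h2⟩,
      ← intervalIntegral.integral_of_le hτ.2, intervalIntegral.integral_const_mul]
  have hR : ∀ s ∈ Ioc t 1, ∫ τ, f τ s ∂μ = b s * ∫ τ in t..s, a τ * J s τ := by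
    intro s hs
    have h1 : (fun τ => f τ s) = (Iio s).indicator fun τ => b s * (a τ * J s τ) := by
      funext τ
      simp only [f, indicator, mem_Iio]
      split_ifs
      · ring
      · rfl
    rw [h1, hμ, setIntegral_indicator measurableSet_Iio,
      show Ioc t 1 ∩ Iio s = Ioo t s from by
        ext x
        simp only [mem_inter_iff, mem_Ioc, mem_Iio, mem_Ioo]
        constructor
        · rintro ⟨⟨h2, _⟩, h3⟩
          exact ⟨h2, h3⟩
        · rintro ⟨h2, h3⟩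
          exact ⟨⟨h2, h3.le.trans hs.2⟩, h3⟩,
      ← integral_Ioc_eq_integral_Ioo, ← intervalIntegral.integral_of_le hs.1.le,
      intervalIntegral.integral_const_mul]
  constructor
  · rw [intervalIntegrable_iff_integrableOn_Ioc_of_le ht]
    have h1 := hf.integral_prod_left
    refine h1.congr ?_
    filter_upwards [ae_restrict_mem measurableSet_Ioc] with τ hτ
    exact hL τ hτ
  · rw [intervalIntegral.integral_of_le ht, intervalIntegral.integral_of_le ht,
      ← setIntegral_congr_fun measurableSet_Ioc hL, ← setIntegral_congr_fun measurableSet_Ioc hR]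
    exact integral_integral_swap hf

/-! ## Continuity of `J` -/

/-- clamp to `[t,1]` -/
noncomputable def cl (t x : ℝ) : ℝ := max t (min x 1)

lemma cl_mem (t x : ℝ) (h1 : t ≤ 1) : cl t x ∈ Icc t 1 :=
  ⟨le_max_left _ _, max_le h1 (min_le_right _ _)⟩

lemma cl_of (t x : ℝ) (h : x ∈ Icc t 1) : cl t x = x := by
  unfold cl
  rw [min_eq_left h.2, max_eq_right h.1]

lemma cl_cont (t : ℝ) : Continuous (cl t) := by
  unfold cl
  fun_prop

lemma pph_ge (t s τ φ : ℝ) (h0 : 0 ≤ t) (hs : t ≤ s) (hτ : t ≤ τ) : t ≤ pph s τ φ := by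
  unfold pph
  apply Real.le_sqrt_of_sq_le
  have h1 := Real.sin_sq_add_cos_sq φ
  have h2 : t ^ 2 ≤ s ^ 2 := by nlinarith
  have h3 : t ^ 2 ≤ τ ^ 2 := by nlinarith
  have h4 : t ^ 2 * Real.cos φ ^ 2 ≤ τ ^ 2 * Real.cos φ ^ 2 :=
    mul_le_mul_of_nonneg_right h3 (sq_nonneg _)
  have h5 : t ^ 2 * Real.sin φ ^ 2 ≤ s ^ 2 * Real.sin φ ^ 2 :=
    mul_le_mul_of_nonneg_right h2 (sq_nonneg _)
  have h6 : t ^ 2 = t ^ 2 * Real.cos φ ^ 2 + t ^ 2 * Real.sin φ ^ 2 := by
    rw [← mul_add, add_comm (Real.cos φ ^ 2), h1, mul_one]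
  linarith

lemma comp2 (K : ℝ → ℝ → ℝ) (hK : ContinuousOn (fun z : ℝ × ℝ => K z.1 z.2) (Icc 0 1 ×ˢ univ))
    {X : Type} [TopologicalSpace X] (f g : X → ℝ) (s : Set X) (hf : ContinuousOn f s)
    (hg : ContinuousOn g s) (hm : ∀ x ∈ s, f x ∈ Icc (0 : ℝ) 1) :
    ContinuousOn (fun x => K (f x) (g x)) s :=
  hK.comp (hf.prodMk hg) fun x hx => ⟨hm x hx, mem_univ _⟩

lemma int_cont (K : ℝ → ℝ → ℝ) (t : ℝ) (h0 : 0 < t) (h1 : t ≤ 1)
    (hk : ContinuousOn (fun z : ℝ × ℝ => K z.1 z.2) (Icc 0 1 ×ˢ univ)) :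
    Continuous fun z : ℝ × ℝ => ∫ φ in (0 : ℝ)..(π / 2),
      K (cl t z.1) (pph (cl t z.1) (cl t z.2) φ) * Real.cos φ ^ 2 /
        pph (cl t z.1) (cl t z.2) φ := by
  refine intervalIntegral.continuous_parametric_intervalIntegral_of_continuous' (X := ℝ × ℝ)
    (f := fun z φ => K (cl t z.1) (pph (cl t z.1) (cl t z.2) φ) * Real.cos φ ^ 2 /
      pph (cl t z.1) (cl t z.2) φ) ?_ 0 (π / 2)
  have hc1 : Continuous fun w : (ℝ × ℝ) × ℝ => cl t w.1.1 :=
    (cl_cont t).comp (continuous_fst.comp continuous_fst)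
  have hc2 : Continuous fun w : (ℝ × ℝ) × ℝ => cl t w.1.2 :=
    (cl_cont t).comp (continuous_snd.comp continuous_fst)
  have hp : Continuous fun w : (ℝ × ℝ) × ℝ => pph (cl t w.1.1) (cl t w.1.2) w.2 := by
    unfold pph
    fun_prop
  have hkc : Continuous fun w : (ℝ × ℝ) × ℝ =>
      K (cl t w.1.1) (pph (cl t w.1.1) (cl t w.1.2) w.2) := by
    rw [← continuousOn_univ]
    exact comp2 K hk (fun w : (ℝ × ℝ) × ℝ => cl t w.1.1)
      (fun w : (ℝ × ℝ) × ℝ => pph (cl t w.1.1) (cl t w.1.2) w.2) univ hc1.continuousOn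
      hp.continuousOn fun x _ => ⟨h0.le.trans (cl_mem t _ h1).1, (cl_mem t _ h1).2⟩
  have hcos : Continuous fun w : (ℝ × ℝ) × ℝ => Real.cos w.2 ^ 2 := by fun_prop
  have : Continuous fun w : (ℝ × ℝ) × ℝ =>
      K (cl t w.1.1) (pph (cl t w.1.1) (cl t w.1.2) w.2) * Real.cos w.2 ^ 2 /
        pph (cl t w.1.1) (cl t w.1.2) w.2 := by
    refine Continuous.div (hkc.mul hcos) hp ?_
    intro w
    exact (h0.trans_le (pph_ge t _ _ _ h0.le (cl_mem t _ h1).1 (cl_mem t _ h1).1)).ne'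
  exact this

/-- clamped `J` -/
noncomputable def Jt (δ : ℝ) (S : St) (e t s τ : ℝ) : ℝ := JJ δ S e (cl t s) (cl t τ)

lemma Jt_cont (δ : ℝ) (S : St) (e t : ℝ) (h0 : 0 < t) (h1 : t ≤ 1)
    (hk : ContinuousOn (fun z : ℝ × ℝ => kk δ S e z.1 z.2) (Icc 0 1 ×ˢ univ)) :
    Continuous fun z : ℝ × ℝ => Jt δ S e t z.1 z.2 :=
  int_cont (kk δ S e) t h0 h1 hk

lemma Jt_bd (δ : ℝ) (S : St) (e t : ℝ) (h0 : 0 < t) (h1 : t ≤ 1)
    (hk : ContinuousOn (fun z : ℝ × ℝ => kk δ S e z.1 z.2) (Icc 0 1 ×ˢ univ)) :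
    ∃ M, ∀ s τ, |Jt δ S e t s τ| ≤ M := by
  obtain ⟨M, hM⟩ := (isCompact_Icc.prod isCompact_Icc : IsCompact (Icc t 1 ×ˢ Icc t 1))
    |>.exists_bound_of_continuousOn (Jt_cont δ S e t h0 h1 hk).continuousOn
  refine ⟨M, fun s τ => ?_⟩
  have h := hM (cl t s, cl t τ) ⟨cl_mem t s h1, cl_mem t τ h1⟩
  simp only [Jt, cl_of t _ (cl_mem t s h1), cl_of t _ (cl_mem t τ h1), Real.norm_eq_abs] at h
  exact h

/-! ## Regularity of `κ` and `n` -/

lemma kap_cont (δ : ℝ) (S : St) (hA : FactsA S) (hB : FactsB δ S) (e : ℝ)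
    (he : e = 1 ∨ e = -1) :
    ContinuousOn (fun z : ℝ × ℝ => kap δ S e z.1 z.2) (Icc 0 1 ×ˢ univ) := by
  have hx : ContinuousOn (fun z : ℝ × ℝ => xx δ S e z.1) (Icc 0 1 ×ˢ univ) :=
    (hB.x_cont e).comp continuousOn_fst fun z hz => hz.1
  have hda : Continuous (da S) := continuous_iff_continuousAt.mpr fun t =>
    (hA.da_deriv t).continuousAt
  have hd0 : Continuous fun z : ℝ × ℝ => da S z.2 := hda.comp continuous_snd
  have hd1 : Continuous fun z : ℝ × ℝ => dd S z.1 z.2 := hA.dd_cont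
  have hd2 : Continuous fun z : ℝ × ℝ => dd S z.1 (-z.2) :=
    hA.dd_cont.comp (continuous_fst.prodMk continuous_snd.neg)
  have h0 : ContinuousOn (fun z : ℝ × ℝ => P0 δ S e z.1 z.2) (Icc 0 1 ×ˢ univ) := by
    unfold P0
    exact hx.sub (continuous_const.mul hd0).continuousOn
  have h1 : ContinuousOn (fun z : ℝ × ℝ => P1 δ S e z.1 z.2) (Icc 0 1 ×ˢ univ) := by
    unfold P1
    exact hx.sub (continuous_const.mul hd1).continuousOn
  have h2 : ContinuousOn (fun z : ℝ × ℝ => P2 δ S e z.1 z.2) (Icc 0 1 ×ˢ univ) := by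
    unfold P2
    exact hx.sub (continuous_const.mul hd2).continuousOn
  have hG : ContinuousOn (fun z : ℝ × ℝ => GG δ S e z.1 z.2) (Icc 0 1 ×ˢ univ) := by
    unfold GG
    exact (h1.mul h2).sqrt
  unfold kap
  refine h0.div hG ?_
  intro z hz
  have := (hB.GG_bd e he z.1 z.2 hz.1.1 hz.1.2).1
  linarith

lemma kap_bd (δ : ℝ) (S : St) (hB : FactsB δ S) (e : ℝ)
    (he : e = 1 ∨ e = -1) (s t : ℝ) (h0 : 0 ≤ s) (h1 : s ≤ 1) : |kap δ S e s t| ≤ 2 := by
  have hG := hB.GG_bd e he s t h0 h1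
  have hP := hB.P0_bd e he s t h0 h1
  unfold kap
  rw [abs_div, abs_of_pos (by linarith : 0 < P0 δ S e s t), abs_of_pos (by linarith),
    div_le_iff₀ (by linarith)]
  linarith

lemma nn_meas (δ : ℝ) (S : St) (hB : FactsB δ S) (e : ℝ) (he : e = 1 ∨ e = -1) :
    AEStronglyMeasurable (nn δ S e) (volume.restrict (Icc 0 1)) := by
  have hu : Icc (0 : ℝ) 1 = Ico 0 (1 / 2) ∪ Icc (1 / 2) 1 :=
    (Ico_union_Icc_eq_Icc (by norm_num) (by norm_num)).symm
  rw [hu, aestronglyMeasurable_union_iff]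
  exact ⟨(hB.nn_ctL e he).aestronglyMeasurable measurableSet_Ico,
    (hB.nn_ctR e he).aestronglyMeasurable measurableSet_Icc⟩

/-- weight times `n` times a bounded function -/
lemma wn_int (δ : ℝ) (S : St) (hB : FactsB δ S) (e : ℝ) (he : e = 1 ∨ e = -1) (t : ℝ)
    (h0 : 0 ≤ t) (h : ℝ → ℝ) (hc : ContinuousOn h (Icc 0 1)) (M : ℝ)
    (hM : ∀ s, 0 ≤ s → s ≤ 1 → |h s| ≤ M) (w : ℝ → ℝ) (hw : IntegrableOn w (Ioc t 1)) :
    IntegrableOn (fun s => w s * (nn δ S e s * h s)) (Ioc t 1) := by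
  have hsub : Ioc t 1 ⊆ Icc 0 1 := fun x hx => ⟨h0.trans hx.1.le, hx.2⟩
  refine Integrable.mul_bdd (c := 20 * M) hw ?_ ?_
  · refine AEStronglyMeasurable.mul ?_ ?_
    · exact (nn_meas δ S hB e he).mono_measure (Measure.restrict_mono hsub le_rfl)
    · exact (hc.aestronglyMeasurable measurableSet_Icc).mono_measure
        (Measure.restrict_mono hsub le_rfl)
  · filter_upwards [ae_restrict_mem measurableSet_Ioc] with s hs
    have hs' := hsub hs
    have h1 := hB.nn_bd e he s hs'.1 hs'.2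
    have h2 := hM s hs'.1 hs'.2
    rw [Real.norm_eq_abs, abs_mul, abs_of_nonneg h1.1]
    exact mul_le_mul h1.2 h2 (abs_nonneg _) (by norm_num)

/-! ## Identities at the diagonal -/

lemma Nf_eq (δ : ℝ) (S : St) (hA : FactsA S) (hB : FactsB δ S) (e : ℝ)
    (he : e = 1 ∨ e = -1) (t : ℝ) (h0 : 0 ≤ t) (h1 : t ≤ 1) :
    Nf δ S e (uu S e t) t = nn δ S e t * kap δ S e t t := by
  have hP0 := hB.P0_bd e he t t h0 h1
  have hP2 := hB.P2_bd e he t t h0 h1
  have e1 : P1 δ S e t t = P0 δ S e t t := by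
    unfold P1 P0
    rw [hA.dd_self]
  have e2 : P2 δ S e t t = xx δ S e t - e * δ ^ 3 * ab S t := by
    unfold P2
    rw [hA.dd_neg]
  have hp0 : 0 < P0 δ S e t t := by linarith
  have hp2 : 0 < P2 δ S e t t := by linarith
  have hG : GG δ S e t t = √(P0 δ S e t t * P2 δ S e t t) := by
    unfold GG
    rw [e1]
  have hs : 0 < √(P0 δ S e t t * P2 δ S e t t) := Real.sqrt_pos.mpr (mul_pos hp0 hp2)
  have hss : √(P0 δ S e t t * P2 δ S e t t) ^ 2 = P0 δ S e t t * P2 δ S e t t :=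
    Real.sq_sqrt (mul_pos hp0 hp2).le
  have h3 : Nf δ S e (uu S e t) t = ZZ δ S e t * √(P0 δ S e t t * P2 δ S e t t) := by
    unfold Nf ZZ
    rw [e2, mul_comm (P0 δ S e t t)]
    unfold P0
    rfl
  have h4 : nn δ S e t = P2 δ S e t t * ZZ δ S e t := by
    unfold nn
    rw [e2]
  rw [h3, h4]
  unfold kap
  rw [hG]
  rw [eq_comm, mul_div_assoc', div_eq_iff hs.ne']
  linear_combination (-ZZ δ S e t) * hss

/-! ## The first integral in `Se` -/

lemma Se_eq (δ : ℝ) (S : St) (hA : FactsA S) (hB : FactsB δ S) (e : ℝ)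
    (he : e = 1 ∨ e = -1) (t : ℝ) (h0 : 0 < t) (h1 : t < 1) :
    Se δ (fun t => δ ^ 3 * al S t) (fun t => δ ^ 3 * da S t) (xx δ S) (uu S) e t =
      (∫ s in t..1, wa t s * (nn δ S e s * kap δ S e s t)) +
      5 / 4 * ∫ r in (3 : ℝ)..Rh δ, r * ((xr δ r - e * δ ^ 3 * da S t) / wr δ S e t r) := by
  unfold Se
  congr 1
  · refine intervalIntegral.integral_congr_Ioo_of_le h1.le ?_
    intro s hs
    have hs0 : 0 ≤ s := h0.le.trans hs.1.le
    have hs1 : s ≤ 1 := hs.2.le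
    have hG := hB.GG_bd e he s t hs0 hs1
    have hid := hB.GG_id e he s t hs0 hs1
    have hpos : 0 < s ^ 2 - t ^ 2 := by nlinarith [hs.1]
    have hsq : √((rho (fun t => δ ^ 3 * al S t) (xx δ S) e s) ^ 2 -
        (t * xx δ S e s - e * (δ ^ 3 * al S t)) ^ 2) = √(s ^ 2 - t ^ 2) * GG δ S e s t := by
      unfold rho
      simp only
      rw [hid, Real.sqrt_mul hpos.le, Real.sqrt_sq (by linarith)]
    have hrho : rho (fun t => δ ^ 3 * al S t) (xx δ S) e s =
        s * (xx δ S e s - e * δ ^ 3 * ab S s) := by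
      unfold rho
      simp only
      rw [← hA.ab_mul s]
      ring
    have hZ : √(drho δ (fun t => δ ^ 3 * da S t) (xx δ S) (uu S) e s ^ 2 +
        δ ^ 2 * uu S e s ^ 2) = ZZ δ S e s := by
      unfold drho ZZ
      simp only
      rw [show xx δ S e s + s * δ ^ 2 * uu S e s - e * (δ ^ 3 * da S s) =
        xx δ S e s + s * δ ^ 2 * uu S e s - e * δ ^ 3 * da S s from by ring]
    simp only
    rw [hsq, hZ, hrho]
    unfold wa nn kap P0
    have hs' : √(s ^ 2 - t ^ 2) ≠ 0 := (Real.sqrt_pos.mpr hpos).ne'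
    have hG' : GG δ S e s t ≠ 0 := by
      have := hG.1
      linarith
    field_simp
  · congr 1
    refine intervalIntegral.integral_congr ?_
    intro r _
    simp only
    unfold wr yr
    rw [show t * xr δ r - e * (δ ^ 3 * al S t) = t * xr δ r - e * δ ^ 3 * al S t from by ring,
      show xr δ r - e * (δ ^ 3 * da S t) = xr δ r - e * δ ^ 3 * da S t from by ring,
      mul_div_assoc]

lemma cone_int (δ : ℝ) (hδ : 0 < δ) (S : St) (hB : FactsB δ S) (e : ℝ)
    (he : e = 1 ∨ e = -1) (t : ℝ) (h0 : 0 < t) (h1 : t < 1) :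
    IntervalIntegrable (fun r => r * ((xr δ r - e * δ ^ 3 * da S t) / wr δ S e t r)) volume
      3 (Rh δ) := by
  have hR : 3 ≤ Rh δ := by
    unfold Rh
    have : 0 < 4 / δ := by positivity
    linarith
  refine ContinuousOn.intervalIntegrable ?_
  rw [uIcc_of_le hR]
  have hx : Continuous (xr δ) := by
    unfold xr
    fun_prop
  have hy : Continuous (yr δ S e t) := by
    unfold yr
    exact (continuous_const.mul hx).sub continuous_const
  have hw : Continuous (wr δ S e t) := by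
    unfold wr
    exact ((continuous_id.pow 2).sub (hy.pow 2)).sqrt
  refine ContinuousOn.mul continuousOn_id (ContinuousOn.div
    (hx.sub continuous_const).continuousOn hw.continuousOn ?_)
  intro r hr
  have h := hB.wr_lb e he t r h0.le h1.le hr.1 hr.2
  have h2 : 0 < r * ((r - 3) + 2 * (1 - t)) := by
    have h3 : 3 ≤ r := hr.1
    refine mul_pos (by linarith) (by linarith)
  unfold wr
  exact (Real.sqrt_pos.mpr (h2.trans_le h)).ne'

lemma Qf_eq (δ : ℝ) (hδ : 0 < δ) (S : St) (hB : FactsB δ S) (t : ℝ) (h0 : 0 < t) (h1 : t < 1) :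
    Qf δ S t =
      5 / 4 * (∫ r in (3 : ℝ)..Rh δ, r * ((xr δ r - 1 * δ ^ 3 * da S t) / wr δ S 1 t r)) -
      5 / 4 * ∫ r in (3 : ℝ)..Rh δ, r * ((xr δ r - (-1) * δ ^ 3 * da S t) / wr δ S (-1) t r) := by
  rw [← mul_sub, ← intervalIntegral.integral_sub (cone_int δ hδ S hB 1 (Or.inl rfl) t h0 h1)
    (cone_int δ hδ S hB (-1) (Or.inr rfl) t h0 h1)]
  unfold Qf
  congr 1
  refine intervalIntegral.integral_congr ?_
  intro r _
  simp only
  rw [← mul_sub]
  congr 2
  · congr 1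
    ring
  · congr 1
    ring

/-! ## The term `R` -/

/-- one end of `R` -/
noncomputable def Bf (δ : ℝ) (S : St) (e τ : ℝ) : ℝ :=
  ∫ s in τ..1, s * nn δ S e s * JJ δ S e s τ

lemma Bf_eq (δ : ℝ) (S : St) (e t τ : ℝ) (ht : t ≤ τ) (hτ : τ ≤ 1) :
    Bf δ S e τ = ∫ s in τ..1, s * nn δ S e s * Jt δ S e t s τ := by
  unfold Bf
  refine intervalIntegral.integral_congr ?_
  intro s hs
  rw [uIcc_of_le hτ] at hs
  simp only [Jt]
  rw [cl_of t s ⟨ht.trans hs.1, hs.2⟩, cl_of t τ ⟨ht, hτ⟩]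

lemma bdd_slice (b : ℝ → ℝ) (J : ℝ → ℝ → ℝ) (τ M : ℝ) (hb : IntegrableOn b (Ioc τ 1))
    (hJ : Continuous fun z : ℝ × ℝ => J z.1 z.2) (hM : ∀ s τ, |J s τ| ≤ M) :
    IntegrableOn (fun s => b s * J s τ) (Ioc τ 1) := by
  have hc' : Continuous fun s => J s τ := hJ.comp (continuous_id.prodMk continuous_const)
  exact Integrable.mul_bdd (c := M) hb hc'.aestronglyMeasurable
    (Eventually.of_forall fun s => by rw [Real.norm_eq_abs]; exact hM _ _)

lemma sn_int (δ : ℝ) (S : St) (hB : FactsB δ S) (e : ℝ) (he : e = 1 ∨ e = -1) (t : ℝ)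
    (h0 : 0 ≤ t) : IntegrableOn (fun s => s * nn δ S e s) (Ioc t 1) := by
  have h := wn_int δ S hB e he t h0 (fun _ => 1) continuousOn_const 1
    (fun s _ _ => by simp) (fun s => s) (continuous_id.integrableOn_Ioc)
  simpa using h

lemma Rp_eq (δ : ℝ) (S : St) (hB : FactsB δ S) (t τ : ℝ) (h0 : 0 < t) (ht : t ≤ τ)
    (hτ : τ ≤ 1) : Rp δ S τ = Bf δ S 1 τ - Bf δ S (-1) τ := by
  have key : ∀ e, (e = 1 ∨ e = -1) →
      IntervalIntegrable (fun s => s * nn δ S e s * Jt δ S e t s τ) volume τ 1 := by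
    intro e he
    rw [intervalIntegrable_iff_integrableOn_Ioc_of_le hτ]
    obtain ⟨M, hM⟩ := Jt_bd δ S e t h0 (ht.trans hτ) (hB.kk_cont e he)
    have hc := Jt_cont δ S e t h0 (ht.trans hτ) (hB.kk_cont e he)
    exact bdd_slice (fun s => s * nn δ S e s) (Jt δ S e t) τ M
      (sn_int δ S hB e he τ (h0.le.trans ht)) hc hM
  rw [Bf_eq δ S 1 t τ ht hτ, Bf_eq δ S (-1) t τ ht hτ,
    ← intervalIntegral.integral_sub (key 1 (Or.inl rfl)) (key (-1) (Or.inr rfl))]
  unfold Rp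
  refine intervalIntegral.integral_congr ?_
  intro s hs
  rw [uIcc_of_le hτ] at hs
  simp only [Jt]
  rw [cl_of t s ⟨ht.trans hs.1, hs.2⟩, cl_of t τ ⟨ht, hτ⟩]
  ring

/-- (iv) of §5.1 for one end -/
lemma iv (δ : ℝ) (S : St) (hA : FactsA S) (hB : FactsB δ S) (hEK : S_EK) (e : ℝ)
    (he : e = 1 ∨ e = -1) (t : ℝ) (h0 : 0 < t) (h1 : t < 1) :
    IntervalIntegrable (fun τ => wa t τ * Bf δ S e τ) volume t 1 ∧
    ∫ τ in t..1, wa t τ * Bf δ S e τ =
      π / 2 * ((∫ s in t..1, wa t s * (nn δ S e s * kap δ S e s s)) -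
        ∫ s in t..1, wa t s * (nn δ S e s * kap δ S e s t)) := by
  have hk := hB.kk_cont e he
  obtain ⟨M, hM⟩ := Jt_bd δ S e t h0 h1.le hk
  have hc := Jt_cont δ S e t h0 h1.le hk
  obtain ⟨hi, hf⟩ := fub t h1.le (wa t) (fun s => s * nn δ S e s) (Jt δ S e t) M
    (wa_int t h0.le) (sn_int δ S hB e he t h0.le) hc hM
  have hBf : ∀ τ ∈ Icc t 1, wa t τ * Bf δ S e τ =
      wa t τ * ∫ s in τ..1, s * nn δ S e s * Jt δ S e t s τ := by
    intro τ hτ
    rw [Bf_eq δ S e t τ hτ.1 hτ.2]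
  constructor
  · refine hi.congr ?_
    rw [uIoc_of_le h1.le]
    intro τ hτ
    exact (hBf τ ⟨hτ.1.le, hτ.2⟩).symm
  · have hg1 : IntegrableOn (fun s => wa t s * (nn δ S e s * kap δ S e s s)) (Ioc t 1) := by
      refine wn_int δ S hB e he t h0.le (fun s => kap δ S e s s) ?_ 2
        (fun s hs hs1 => kap_bd δ S hB e he s s hs hs1) (wa t) (wa_int t h0.le)
      exact comp2 (kap δ S e) (kap_cont δ S hA hB e he) (fun s => s) (fun s => s) _
        continuousOn_id continuousOn_id fun s hs => hs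
    have hg2 : IntegrableOn (fun s => wa t s * (nn δ S e s * kap δ S e s t)) (Ioc t 1) := by
      refine wn_int δ S hB e he t h0.le (fun s => kap δ S e s t) ?_ 2
        (fun s hs hs1 => kap_bd δ S hB e he s t hs hs1) (wa t) (wa_int t h0.le)
      exact comp2 (kap δ S e) (kap_cont δ S hA hB e he) (fun s => s) (fun _ => t) _
        continuousOn_id continuousOn_const fun s hs => hs
    rw [← intervalIntegral.integral_sub
      ((intervalIntegrable_iff_integrableOn_Ioc_of_le h1.le).mpr hg1)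
      ((intervalIntegrable_iff_integrableOn_Ioc_of_le h1.le).mpr hg2),
      ← intervalIntegral.integral_const_mul]
    have hL : ∫ τ in t..1, wa t τ * Bf δ S e τ =
        ∫ τ in t..1, wa t τ * ∫ s in τ..1, s * nn δ S e s * Jt δ S e t s τ := by
      refine intervalIntegral.integral_congr ?_
      rw [uIcc_of_le h1.le]
      intro τ hτ
      exact hBf τ hτ
    rw [hL, hf]
    refine intervalIntegral.integral_congr_Ioo_of_le h1.le ?_
    intro s hs
    have hs0 : 0 ≤ s := h0.le.trans hs.1.le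
    have hs1 : s ≤ 1 := hs.2.le
    have hkc : Continuous (kk δ S e s) := by
      rw [← continuousOn_univ]
      exact comp2 (kk δ S e) hk (fun _ : ℝ => s) (fun p => p) _ continuousOn_const
        continuousOn_id fun _ _ => ⟨hs0, hs1⟩
    have hE := (hEK (kk δ S e s) t s h0 hs.1 hkc.continuousOn).2
    have hFTC : ∫ p in t..s, kk δ S e s p = kap δ S e s s - kap δ S e s t := by
      refine intervalIntegral.integral_eq_sub_of_hasDerivAt
        (f := fun p => kap δ S e s p) (fun p _ => hB.kap_deriv e he s p hs0 hs1)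
        (hkc.intervalIntegrable _ _)
    have hJ : ∫ τ in t..s, wa t τ * Jt δ S e t s τ =
        π / 2 / √(s ^ 2 - t ^ 2) * ∫ p in t..s, kk δ S e s p := by
      rw [← hE]
      refine intervalIntegral.integral_congr ?_
      intro τ hτ
      rw [uIcc_of_le hs.1.le] at hτ
      simp only [Jt, wa, JJ]
      rw [cl_of t s ⟨hs.1.le, hs1⟩, cl_of t τ ⟨hτ.1, hτ.2.trans hs1⟩]
    simp only
    rw [hJ, hFTC]
    unfold wa
    ring

/-! ## The Abel identity for `Q'` -/

lemma Qd_cont (δ : ℝ) (hδ : 0 < δ) (C : ℝ) (S : St) (hg : Continuous S.g)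
    (hinc : ∀ a b, 0 ≤ a → a ≤ b → b ≤ 1 →
      |(Qd δ S b / δ ^ 2 + 10 * S.g b) - (Qd δ S a / δ ^ 2 + 10 * S.g a)| ≤
        C * δ * (Om b - Om a)) : ContinuousOn (Qd δ S) (Icc 0 1) := by
  have hOm : Continuous Om := by
    unfold Om
    fun_prop
  set h : ℝ → ℝ := fun t => Qd δ S t / δ ^ 2 + 10 * S.g t with hh
  have key : ∀ x ∈ Icc (0 : ℝ) 1, ∀ y ∈ Icc (0 : ℝ) 1, |h y - h x| ≤ |C * δ| * |Om y - Om x| := by
    intro x hx y hy
    rcases le_total x y with hxy | hxy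
    · refine (hinc x y hx.1 hxy hy.2).trans ?_
      rw [← abs_mul]
      exact le_abs_self _
    · rw [abs_sub_comm, abs_sub_comm (Om y)]
      refine (hinc y x hy.1 hxy hx.2).trans ?_
      rw [← abs_mul]
      exact le_abs_self _
  have hcont : ContinuousOn h (Icc 0 1) := by
    intro x hx
    have h1 : Tendsto (fun y => |C * δ| * |Om y - Om x|) (𝓝[Icc 0 1] x) (𝓝 0) := by
      have h2 : Continuous fun y => |C * δ| * |Om y - Om x| :=
        continuous_const.mul (hOm.sub continuous_const).abs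
      have h3 := (h2.tendsto x).mono_left (nhdsWithin_le_nhds (s := Icc (0 : ℝ) 1))
      simpa using h3
    have h4 : Tendsto (fun y => h y - h x) (𝓝[Icc 0 1] x) (𝓝 0) := by
      refine squeeze_zero_norm' ?_ h1
      filter_upwards [self_mem_nhdsWithin] with y hy
      rw [Real.norm_eq_abs]
      exact key x hx y hy
    have h5 := h4.add_const (h x)
    simpa [ContinuousWithinAt] using h5
  have h6 : ∀ t, Qd δ S t = δ ^ 2 * (h t - 10 * S.g t) := by
    intro t
    simp only [hh]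
    field_simp
    ring
  rw [show Qd δ S = fun t => δ ^ 2 * (h t - 10 * S.g t) from funext h6]
  exact (hcont.sub (hg.const_smul (10 : ℝ)).continuousOn).const_smul (δ ^ 2)

lemma abel (hAC : S_AC) (g : ℝ → ℝ) (hg : ContinuousOn g (Icc 0 1)) (t : ℝ) (h0 : 0 ≤ t)
    (h1 : t ≤ 1) : ∫ τ in t..1, wa t τ * Aop g τ = π / 2 * ∫ s in t..1, g s := by
  obtain ⟨M, hM⟩ := isCompact_Icc.exists_bound_of_continuousOn hg
  have hM0 : 0 ≤ M := (norm_nonneg _).trans (hM 0 ⟨le_rfl, zero_le_one⟩)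
  set G : ℝ → ℝ := (Icc 0 1).indicator g with hG
  have hmeas : Measurable G := by
    have h : Measurable ((Icc (0 : ℝ) 1).piecewise g fun _ => 0) :=
      hg.measurable_piecewise continuousOn_const measurableSet_Icc
    have h' : G = (Icc (0 : ℝ) 1).piecewise g fun _ => 0 := by
      rw [hG]
      funext x
      by_cases hx : x ∈ Icc (0 : ℝ) 1
      · rw [indicator_of_mem hx, piecewise_eq_of_mem _ _ _ hx]
      · rw [indicator_of_notMem hx, piecewise_eq_of_notMem _ _ _ hx]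
    rw [h']
    exact h
  have hb : ∀ t, |G t| ≤ M := by
    intro t
    simp only [hG, indicator]
    split_ifs with h
    · exact hM t h
    · simpa using hM0
  have h2 := (hAC G M hmeas hb).1 t h0 h1
  have h3 : ∀ τ, 0 ≤ τ → τ ≤ 1 → Aop G τ = Aop g τ := by
    intro τ h0 h1
    unfold Aop
    refine intervalIntegral.integral_congr ?_
    intro s hs
    rw [uIcc_of_le h1] at hs
    simp only [hG]
    rw [indicator_of_mem (show s ∈ Icc (0 : ℝ) 1 from ⟨h0.trans hs.1, hs.2⟩)]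
  have h4 : ∫ s in t..1, G s = ∫ s in t..1, g s := by
    refine intervalIntegral.integral_congr ?_
    intro s hs
    rw [uIcc_of_le h1] at hs
    simp only [hG]
    rw [indicator_of_mem (show s ∈ Icc (0 : ℝ) 1 from ⟨h0.trans hs.1, hs.2⟩)]
  rw [← h4, ← h2]
  conv_rhs => unfold Aop
  refine intervalIntegral.integral_congr ?_
  intro s hs
  rw [uIcc_of_le h1] at hs
  simp only [wa, Cop]
  rw [h3 s (h0.trans hs.1) hs.2]
  ring

end E0aux

open E0aux in
/-- module `HV_E0` -/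
theorem E0 (hA : S_FactsA) (hB : S_FactsB) (_hk : S_KB) (hAC : S_AC) (hQ : S_QE) (hQI : S_QI)
    (hEK : S_EK) : S_E0 := by
  obtain ⟨d1, hd1, _, H1⟩ := hB
  obtain ⟨C, _, d2, hd2, H2⟩ := hQ
  obtain ⟨d3, hd3, H3⟩ := hQI
  refine ⟨min d1 (min d2 d3), lt_min hd1 (lt_min hd2 hd3), ?_⟩
  intro δ hδ hδ1 S hS hD t h0 h1
  have hδa : δ ≤ d1 := hδ1.trans (min_le_left _ _)
  have hδb : δ ≤ d2 := hδ1.trans ((min_le_right _ _).trans (min_le_left _ _))
  have hδc : δ ≤ d3 := hδ1.trans ((min_le_right _ _).trans (min_le_right _ _))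
  have hFA := hA S hS
  have hFB := H1 δ hδ hδa S hS
  obtain ⟨_, _, hinc⟩ := H2 δ hδ hδb S hS
  obtain ⟨_, hQf⟩ := H3 δ hδ hδc S hS
  have hQc := Qd_cont δ hδ C S hS.gC hinc
  have hab := abel hAC (Qd δ S) hQc t h0.le h1.le
  have hq := hQf t h0.le h1.le
  obtain ⟨i1, f1⟩ := iv δ S hFA hFB hEK 1 (Or.inl rfl) t h0 h1
  obtain ⟨i2, f2⟩ := iv δ S hFA hFB hEK (-1) (Or.inr rfl) t h0 h1
  have hN : ∀ e, (e = 1 ∨ e = -1) →
      IntervalIntegrable (fun s => wa t s * (nn δ S e s * kap δ S e s s)) volume t 1 := by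
    intro e he
    rw [intervalIntegrable_iff_integrableOn_Ioc_of_le h1.le]
    refine wn_int δ S hFB e he t h0.le (fun s => kap δ S e s s) ?_ 2
      (fun s hs hs1 => kap_bd δ S hFB e he s s hs hs1) (wa t) (wa_int t h0.le)
    exact comp2 (kap δ S e) (kap_cont δ S hFA hFB e he) (fun s => s) (fun s => s) _
      continuousOn_id continuousOn_id fun s hs => hs
  -- the equation
  have heq : ∀ τ ∈ Ioo t 1, wa t τ * Aop (Qd δ S) τ =
      π / 2 * (wa t τ * (nn δ S 1 τ * kap δ S 1 τ τ) -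
        wa t τ * (nn δ S (-1) τ * kap δ S (-1) τ τ)) -
      (wa t τ * Bf δ S 1 τ - wa t τ * Bf δ S (-1) τ) := by
    intro τ hτ
    have hτ0 : 0 < τ := h0.trans hτ.1
    have h2 := hD τ hτ0 hτ.2
    have h3 := Nf_eq δ S hFA hFB 1 (Or.inl rfl) τ hτ0.le hτ.2.le
    have h4 := Nf_eq δ S hFA hFB (-1) (Or.inr rfl) τ hτ0.le hτ.2.le
    have h5 := Rp_eq δ S hFB t τ h0 hτ.1.le hτ.2.le
    unfold DD Rhs at h2
    rw [h3, h4, h5] at h2
    have h6 : nn δ S 1 τ * kap δ S 1 τ τ - nn δ S (-1) τ * kap δ S (-1) τ τ =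
        2 / π * (Aop (Qd δ S) τ + (Bf δ S 1 τ - Bf δ S (-1) τ)) := by
      have hδ2 : δ ^ 2 ≠ 0 := (pow_pos hδ 2).ne'
      rw [mul_div_assoc', div_left_inj' hδ2] at h2
      exact h2
    have h7 : Aop (Qd δ S) τ = π / 2 * (nn δ S 1 τ * kap δ S 1 τ τ -
        nn δ S (-1) τ * kap δ S (-1) τ τ) - (Bf δ S 1 τ - Bf δ S (-1) τ) := by
      rw [h6]
      have := Real.pi_ne_zero
      field_simp
      ring
    rw [h7]
    ring
  have hint : ∫ τ in t..1, wa t τ * Aop (Qd δ S) τ =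
      π / 2 * ((∫ τ in t..1, wa t τ * (nn δ S 1 τ * kap δ S 1 τ τ)) -
        ∫ τ in t..1, wa t τ * (nn δ S (-1) τ * kap δ S (-1) τ τ)) -
      ((∫ τ in t..1, wa t τ * Bf δ S 1 τ) - ∫ τ in t..1, wa t τ * Bf δ S (-1) τ) := by
    rw [intervalIntegral.integral_congr_Ioo_of_le h1.le heq,
      intervalIntegral.integral_sub
        (((hN 1 (Or.inl rfl)).sub (hN (-1) (Or.inr rfl))).const_mul (π / 2)) (i1.sub i2),
      intervalIntegral.integral_const_mul,
      intervalIntegral.integral_sub (hN 1 (Or.inl rfl)) (hN (-1) (Or.inr rfl)),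
      intervalIntegral.integral_sub i1 i2]
  rw [Se_eq δ S hFA hFB 1 (Or.inl rfl) t h0 h1, Se_eq δ S hFA hFB (-1) (Or.inr rfl) t h0 h1]
  have hQf' := Qf_eq δ hδ S hFB t h0 h1
  rw [f1, f2, hab] at hint
  have hpi := Real.pi_pos
  have hfin : π / 2 * (Qf δ S t + (∫ s in t..1, wa t s * (nn δ S 1 s * kap δ S 1 s t)) -
      ∫ s in t..1, wa t s * (nn δ S (-1) s * kap δ S (-1) s t)) = 0 := by
    rw [hq]
    linear_combination (-1 : ℝ) * hint
  have hfin2 := (mul_eq_zero.mp hfin).resolve_left (by positivity)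
  linarith

end Pool.Agent.HV
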