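import Pool.Agent.HV.Stmts

/-!
# Module EK (§5.1 (iii))
-/

set_option autoImplicit false

open MeasureTheory Set Filter
open scoped Real Topology ENNReal

namespace Pool.Agent.HV

namespace EKaux

/-- Lower integral of a nonnegative derivative. -/
theorem lint_deriv {H H' : ℝ → ℝ} {a b : ℝ} (hab : a ≤ b) (hc : ContinuousOn H (Icc a b))
    (hd : ∀ x ∈ Ioo a b, HasDerivAt H (H' x) x) (hpos : ∀ x ∈ Ioo a b, 0 ≤ H' x) :
    ∫⁻ x in Ioo a b, ENNReal.ofReal (H' x) = ENNReal.ofReal (H b - H a) := by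
  have hint : IntegrableOn H' (Ioc a b) := intervalIntegral.integrableOn_deriv_of_nonneg hc hd hpos
  have hint' : IntegrableOn H' (Ioo a b) := hint.mono_set Ioo_subset_Ioc_self
  rw [← ofReal_integral_eq_lintegral_ofReal hint']
  · rw [← integral_Ioc_eq_integral_Ioo, ← intervalIntegral.integral_of_le hab,
      intervalIntegral.integral_eq_sub_of_hasDerivAt_of_le hab hc hd
        ((intervalIntegrable_iff_integrableOn_Ioc_of_le hab).2 hint)]
  · exact (ae_restrict_iff' measurableSet_Ioo).2 (Eventually.of_forall fun x hx => hpos x hx)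

/-- The argument of the arcsine. -/
noncomputable def yy (t s p τ : ℝ) : ℝ :=
  (s ^ 2 - p ^ 2) * (τ ^ 2 - t ^ 2) / ((p ^ 2 - t ^ 2) * (s ^ 2 - τ ^ 2))

/-- The primitive. -/
noncomputable def HH (t s p τ : ℝ) : ℝ := 1 / √(s ^ 2 - t ^ 2) * Real.arcsin (√(yy t s p τ))

/-- The kernel. -/
noncomputable def krn (t s p τ : ℝ) : ℝ :=
  τ / √(τ ^ 2 - t ^ 2) * (√(s ^ 2 - p ^ 2) / ((s ^ 2 - τ ^ 2) * √(p ^ 2 - τ ^ 2)))

section

variable {t s p : ℝ}

theorem HH_deriv (ht : 0 < t) (hps : p < s) {τ : ℝ} (h1 : t < τ) (h2 : τ < p) :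
    HasDerivAt (HH t s p) (krn t s p τ) τ := by
  have hτ : 0 < τ := ht.trans h1
  have hp : 0 < p := hτ.trans h2
  have A0 : 0 < s ^ 2 - t ^ 2 := by nlinarith
  have B0 : 0 < s ^ 2 - p ^ 2 := by nlinarith
  have C0 : 0 < p ^ 2 - t ^ 2 := by nlinarith
  have D0 : 0 < s ^ 2 - τ ^ 2 := by nlinarith
  have M0 : 0 < τ ^ 2 - t ^ 2 := by nlinarith
  have N0 : 0 < p ^ 2 - τ ^ 2 := by nlinarith
  have hy : HasDerivAt (yy t s p)
      (2 * τ * (s ^ 2 - t ^ 2) * (s ^ 2 - p ^ 2) / ((p ^ 2 - t ^ 2) * (s ^ 2 - τ ^ 2) ^ 2)) τ := by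
    have e1 : HasDerivAt (fun x : ℝ => (s ^ 2 - p ^ 2) * (x ^ 2 - t ^ 2))
        ((s ^ 2 - p ^ 2) * (2 * τ)) τ := by
      have := (((hasDerivAt_id τ).pow 2).sub_const (t ^ 2)).const_mul (s ^ 2 - p ^ 2)
      simpa using this
    have e2 : HasDerivAt (fun x : ℝ => (p ^ 2 - t ^ 2) * (s ^ 2 - x ^ 2))
        ((p ^ 2 - t ^ 2) * (-(2 * τ))) τ := by
      have := (((hasDerivAt_id τ).pow 2).const_sub (s ^ 2)).const_mul (p ^ 2 - t ^ 2)
      simpa using this
    refine (e1.div e2 (mul_pos C0 D0).ne').congr_deriv ?_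
    rw [div_eq_div_iff (pow_pos (mul_pos C0 D0) 2).ne' (mul_pos C0 (pow_pos D0 2)).ne']
    ring
  set a := √(s ^ 2 - t ^ 2) with ha
  set b := √(s ^ 2 - p ^ 2) with hb
  set c := √(p ^ 2 - t ^ 2) with hc
  set d := √(s ^ 2 - τ ^ 2) with hd
  set m := √(τ ^ 2 - t ^ 2) with hm
  set n := √(p ^ 2 - τ ^ 2) with hn
  have a0 : 0 < a := Real.sqrt_pos.2 A0
  have b0 : 0 < b := Real.sqrt_pos.2 B0
  have c0 : 0 < c := Real.sqrt_pos.2 C0
  have d0 : 0 < d := Real.sqrt_pos.2 D0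
  have m0 : 0 < m := Real.sqrt_pos.2 M0
  have n0 : 0 < n := Real.sqrt_pos.2 N0
  have a2 : s ^ 2 - t ^ 2 = a ^ 2 := (Real.sq_sqrt A0.le).symm
  have b2 : s ^ 2 - p ^ 2 = b ^ 2 := (Real.sq_sqrt B0.le).symm
  have c2 : p ^ 2 - t ^ 2 = c ^ 2 := (Real.sq_sqrt C0.le).symm
  have d2 : s ^ 2 - τ ^ 2 = d ^ 2 := (Real.sq_sqrt D0.le).symm
  have m2 : τ ^ 2 - t ^ 2 = m ^ 2 := (Real.sq_sqrt M0.le).symm
  have n2 : p ^ 2 - τ ^ 2 = n ^ 2 := (Real.sq_sqrt N0.le).symm
  have hy1 : yy t s p τ = (b * m / (c * d)) ^ 2 := by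
    unfold yy
    rw [b2, m2, c2, d2]
    field_simp
  have hy2 : 1 - yy t s p τ = (a * n / (c * d)) ^ 2 := by
    have hrel : (c * d) ^ 2 = (b * m) ^ 2 + (a * n) ^ 2 := by
      rw [mul_pow, mul_pow, mul_pow, ← a2, ← b2, ← c2, ← d2, ← m2, ← n2]
      ring
    rw [hy1, div_pow, div_pow, eq_div_iff (by positivity), sub_mul,
      div_mul_cancel₀ _ (by positivity), one_mul, hrel]
    ring
  have hsy : √(yy t s p τ) = b * m / (c * d) := by
    rw [hy1, Real.sqrt_sq (by positivity)]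
  have hlt : √(yy t s p τ) < 1 := by
    rw [Real.sqrt_lt' one_pos]
    have : 0 < (a * n / (c * d)) ^ 2 := by positivity
    linarith
  have hy0 : yy t s p τ ≠ 0 := by
    rw [hy1]
    positivity
  have hpos : 0 < √(yy t s p τ) := by
    rw [hsy]
    positivity
  have h3 := (Real.hasDerivAt_arcsin (x := √(yy t s p τ)) (by linarith) hlt.ne).comp τ
    (hy.sqrt hy0)
  refine (h3.const_mul (1 / a)).congr_deriv ?_
  rw [Real.sq_sqrt (by rw [hy1]; positivity), hy2, Real.sqrt_sq (by positivity), hsy]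
  unfold krn
  rw [← hm, ← hb, ← hn, a2, b2, c2, d2]
  field_simp

theorem HH_cont (ht : 0 < t) (hps : p < s) (htp : t < p) :
    ContinuousOn (HH t s p) (Icc t p) := by
  unfold HH yy
  refine ContinuousOn.mul continuousOn_const ?_
  refine Real.continuous_arcsin.comp_continuousOn ?_
  refine ContinuousOn.sqrt ?_
  refine ContinuousOn.div (by fun_prop) (by fun_prop) fun τ hτ => ?_
  have h1 : 0 < p ^ 2 - t ^ 2 := by nlinarith
  have h2 : 0 < s ^ 2 - τ ^ 2 := by nlinarith [hτ.1, hτ.2]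
  positivity

theorem ker_nonneg (ht : 0 < t) {τ : ℝ} (h1 : t < τ) (h2 : τ < s) : 0 ≤ krn t s p τ := by
  have hτ : 0 < τ := ht.trans h1
  have D0 : 0 < s ^ 2 - τ ^ 2 := by nlinarith
  unfold krn
  positivity

theorem ker_lint (ht : 0 < t) (hps : p < s) (htp : t < p) :
    ∫⁻ τ in Ioo t s, ENNReal.ofReal (krn t s p τ) =
      ENNReal.ofReal (π / 2 / √(s ^ 2 - t ^ 2)) := by
  have h1 : ∫⁻ τ in Ioo t s, ENNReal.ofReal (krn t s p τ) =
      ∫⁻ τ in Ioo t p, ENNReal.ofReal (krn t s p τ) := by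
    rw [← lintegral_indicator measurableSet_Ioo, ← lintegral_indicator measurableSet_Ioo]
    refine lintegral_congr fun τ => ?_
    by_cases h : τ ∈ Ioo t p
    · rw [Set.indicator_of_mem h,
        Set.indicator_of_mem (show τ ∈ Ioo t s from ⟨h.1, h.2.trans hps⟩)]
    · rw [Set.indicator_of_notMem h]
      by_cases h' : τ ∈ Ioo t s
      · rw [Set.indicator_of_mem h']
        have hpτ : p ≤ τ := by
          by_contra hc
          exact h ⟨h'.1, not_le.1 hc⟩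
        have : √(p ^ 2 - τ ^ 2) = 0 := Real.sqrt_eq_zero_of_nonpos (by nlinarith)
        unfold krn
        rw [this, mul_zero, div_zero, mul_zero, ENNReal.ofReal_zero]
      · rw [Set.indicator_of_notMem h']
  rw [h1, lint_deriv htp.le (HH_cont ht hps htp) (fun x hx => HH_deriv ht hps hx.1 hx.2)
    (fun x hx => ker_nonneg ht hx.1 (hx.2.trans hps))]
  congr 1
  have h2 : yy t s p t = 0 := by
    unfold yy
    rw [sub_self, mul_zero, zero_div]
  have h3 : yy t s p p = 1 := by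
    unfold yy
    have h1 : 0 < p ^ 2 - t ^ 2 := by nlinarith
    have h2 : 0 < s ^ 2 - p ^ 2 := by nlinarith
    rw [mul_comm, div_self (mul_pos h1 h2).ne']
  unfold HH
  rw [h2, h3, Real.sqrt_zero, Real.sqrt_one, Real.arcsin_zero, Real.arcsin_one]
  ring

/-! ### The substitution -/

theorem pph_sq (s τ φ : ℝ) :
    τ ^ 2 * Real.cos φ ^ 2 + s ^ 2 * Real.sin φ ^ 2 = τ ^ 2 + (s ^ 2 - τ ^ 2) * Real.sin φ ^ 2 := by
  have := Real.sin_sq_add_cos_sq φ
  linear_combination τ ^ 2 * this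

theorem pph_sq' (s τ φ : ℝ) :
    τ ^ 2 * Real.cos φ ^ 2 + s ^ 2 * Real.sin φ ^ 2 = s ^ 2 - (s ^ 2 - τ ^ 2) * Real.cos φ ^ 2 := by
  have := Real.sin_sq_add_cos_sq φ
  linear_combination s ^ 2 * this

theorem sin_cos_pos {φ : ℝ} (h : φ ∈ Ioo (0 : ℝ) (π / 2)) : 0 < Real.sin φ ∧ 0 < Real.cos φ :=
  ⟨Real.sin_pos_of_pos_of_lt_pi h.1 (by linarith [h.2, Real.pi_pos]),
    Real.cos_pos_of_mem_Ioo ⟨by linarith [h.1, Real.pi_pos], h.2⟩⟩

theorem image_pph {τ : ℝ} (hτ : 0 < τ) (hs : τ < s) :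
    (fun φ => pph s τ φ) '' Ioo 0 (π / 2) = Ioo τ s := by
  have D0 : 0 < s ^ 2 - τ ^ 2 := by nlinarith
  ext q
  constructor
  · rintro ⟨φ, hφ, rfl⟩
    obtain ⟨h1, h2⟩ := sin_cos_pos hφ
    simp only [pph]
    constructor
    · rw [Real.lt_sqrt hτ.le, pph_sq]
      have : 0 < (s ^ 2 - τ ^ 2) * Real.sin φ ^ 2 := by positivity
      linarith
    · rw [Real.sqrt_lt' (hτ.trans hs), pph_sq']
      have : 0 < (s ^ 2 - τ ^ 2) * Real.cos φ ^ 2 := by positivity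
      linarith
  · rintro ⟨h1, h2⟩
    have hq : 0 < q := hτ.trans h1
    have N0 : 0 < q ^ 2 - τ ^ 2 := by nlinarith
    have hlt : q ^ 2 - τ ^ 2 < s ^ 2 - τ ^ 2 := by nlinarith
    have x0 : 0 < √((q ^ 2 - τ ^ 2) / (s ^ 2 - τ ^ 2)) := Real.sqrt_pos.2 (by positivity)
    have x1 : √((q ^ 2 - τ ^ 2) / (s ^ 2 - τ ^ 2)) < 1 := by
      rw [Real.sqrt_lt' one_pos, one_pow, div_lt_one D0]
      exact hlt
    refine ⟨Real.arcsin (√((q ^ 2 - τ ^ 2) / (s ^ 2 - τ ^ 2))), ⟨Real.arcsin_pos.2 x0,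
      Real.arcsin_lt_pi_div_two.2 x1⟩, ?_⟩
    simp only [pph]
    rw [pph_sq, Real.sin_arcsin (by linarith) x1.le, Real.sq_sqrt (by positivity),
      mul_div_cancel₀ _ D0.ne', add_sub_cancel, Real.sqrt_sq hq.le]

theorem subst (ψ : ℝ → ℝ) {τ : ℝ} (hτ : 0 < τ) (hs : τ < s) :
    ∫ φ in (0 : ℝ)..(π / 2), ψ (pph s τ φ) * Real.cos φ ^ 2 / pph s τ φ =
      ∫ q in Ioo τ s, ψ q * (√(s ^ 2 - q ^ 2) / ((s ^ 2 - τ ^ 2) * √(q ^ 2 - τ ^ 2))) := by
  have D0 : 0 < s ^ 2 - τ ^ 2 := by nlinarith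
  have s0 : 0 < s := hτ.trans hs
  rw [intervalIntegral.integral_of_le (by positivity), integral_Ioc_eq_integral_Ioo,
    ← image_pph hτ hs, integral_image_eq_integral_abs_deriv_smul measurableSet_Ioo
      (f' := fun φ => (s ^ 2 - τ ^ 2) * Real.sin φ * Real.cos φ / pph s τ φ)]
  · refine setIntegral_congr_fun measurableSet_Ioo fun φ hφ => ?_
    obtain ⟨h1, h2⟩ := sin_cos_pos hφ
    have hP : 0 < τ ^ 2 * Real.cos φ ^ 2 + s ^ 2 * Real.sin φ ^ 2 := by positivity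
    have hp0 : 0 < pph s τ φ := Real.sqrt_pos.2 hP
    have hsq : pph s τ φ ^ 2 = τ ^ 2 * Real.cos φ ^ 2 + s ^ 2 * Real.sin φ ^ 2 := Real.sq_sqrt hP.le
    have e1 : s ^ 2 - pph s τ φ ^ 2 = (s ^ 2 - τ ^ 2) * Real.cos φ ^ 2 := by
      rw [hsq, pph_sq']
      ring
    have e2 : pph s τ φ ^ 2 - τ ^ 2 = (s ^ 2 - τ ^ 2) * Real.sin φ ^ 2 := by
      rw [hsq, pph_sq]
      ring
    have hd : 0 < √(s ^ 2 - τ ^ 2) := Real.sqrt_pos.2 D0
    simp only [smul_eq_mul]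
    rw [e1, e2, Real.sqrt_mul D0.le, Real.sqrt_mul D0.le, Real.sqrt_sq h1.le, Real.sqrt_sq h2.le,
      abs_of_pos (by positivity)]
    field_simp
  · intro φ hφ
    obtain ⟨h1, h2⟩ := sin_cos_pos hφ
    have hP : 0 < τ ^ 2 * Real.cos φ ^ 2 + s ^ 2 * Real.sin φ ^ 2 := by positivity
    have hp0 : 0 < pph s τ φ := Real.sqrt_pos.2 hP
    have e0 : HasDerivAt (fun φ : ℝ => τ ^ 2 * Real.cos φ ^ 2 + s ^ 2 * Real.sin φ ^ 2)
        (τ ^ 2 * (2 * Real.cos φ * (-Real.sin φ)) + s ^ 2 * (2 * Real.sin φ * Real.cos φ)) φ := by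
      have a1 := ((Real.hasDerivAt_cos φ).pow 2).const_mul (τ ^ 2)
      have a2 := ((Real.hasDerivAt_sin φ).pow 2).const_mul (s ^ 2)
      have := a1.fun_add a2
      simpa using this
    refine ((e0.sqrt hP.ne').congr_deriv ?_).hasDerivWithinAt
    unfold pph
    have : √(τ ^ 2 * Real.cos φ ^ 2 + s ^ 2 * Real.sin φ ^ 2) ≠ 0 := hp0.ne'
    field_simp
    ring
  · intro φ hφ φ' hφ' h
    obtain ⟨h1, h2⟩ := sin_cos_pos hφ
    obtain ⟨h3, h4⟩ := sin_cos_pos hφ'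
    simp only [pph] at h
    rw [Real.sqrt_inj (by positivity) (by positivity), pph_sq, pph_sq] at h
    have e1 : (s ^ 2 - τ ^ 2) * Real.sin φ ^ 2 = (s ^ 2 - τ ^ 2) * Real.sin φ' ^ 2 := by linarith
    have e2 : Real.sin φ ^ 2 = Real.sin φ' ^ 2 := mul_left_cancel₀ D0.ne' e1
    have e3 : Real.sin φ = Real.sin φ' := (pow_left_inj₀ h1.le h3.le two_ne_zero).1 e2
    refine Real.injOn_sin ⟨?_, ?_⟩ ⟨?_, ?_⟩ e3
    · linarith [hφ.1, Real.pi_pos]
    · exact hφ.2.le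
    · linarith [hφ'.1, Real.pi_pos]
    · exact hφ'.2.le

end

end EKaux

open EKaux in
/-- §5.1 (iii) -/
theorem EK : S_EK := by
  intro ψ t s ht hts hψ
  have hs0 : 0 < s := ht.trans hts
  have A0 : 0 < s ^ 2 - t ^ 2 := by nlinarith
  set Ψ : ℝ → ℝ := (Icc t s).indicator ψ with hΨ
  have hΨm : Measurable Ψ := by
    classical
    have := ContinuousOn.measurable_piecewise hψ (continuousOn_const (c := (0 : ℝ)))
      measurableSet_Icc
    rw [hΨ, ← Set.piecewise_eq_indicator]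
    exact this
  obtain ⟨M, hM⟩ := isCompact_Icc.exists_bound_of_continuousOn hψ
  have hM0 : 0 ≤ M := (norm_nonneg _).trans (hM t ⟨le_rfl, hts.le⟩)
  set μ : Measure ℝ := volume.restrict (Ioo t s) with hμ
  set F : ℝ × ℝ → ℝ := fun z => Ψ z.2 * krn t s z.2 z.1 with hF
  have hFm : Measurable F := by
    rw [hF]
    unfold krn
    fun_prop
  have hbd : ∫⁻ p, ∫⁻ τ, ‖F (τ, p)‖ₑ ∂μ ∂μ < ⊤ := by
    have h1 : ∀ p ∈ Ioo t s, ∫⁻ τ, ‖F (τ, p)‖ₑ ∂μ ≤
        ENNReal.ofReal M * ENNReal.ofReal (π / 2 / √(s ^ 2 - t ^ 2)) := by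
      intro p hp
      rw [← ker_lint ht hp.2 hp.1, ← lintegral_const_mul' _ _ ENNReal.ofReal_ne_top]
      refine setLIntegral_mono' measurableSet_Ioo fun τ hτ => ?_
      simp only [hF]
      rw [enorm_mul, hΨ, Set.indicator_of_mem (show p ∈ Icc t s from ⟨hp.1.le, hp.2.le⟩)]
      refine mul_le_mul' ?_ ?_
      · rw [← ofReal_norm]
        exact ENNReal.ofReal_le_ofReal (hM p ⟨hp.1.le, hp.2.le⟩)
      · rw [Real.enorm_of_nonneg (ker_nonneg ht hτ.1 hτ.2)]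
    refine (setLIntegral_mono' measurableSet_Ioo h1).trans_lt ?_
    rw [setLIntegral_const, Real.volume_Ioo]
    exact ENNReal.mul_lt_top (ENNReal.mul_lt_top ENNReal.ofReal_lt_top ENNReal.ofReal_lt_top)
      ENNReal.ofReal_lt_top
  have hFi : Integrable F (μ.prod μ) := by
    refine ⟨hFm.aestronglyMeasurable, ?_⟩
    unfold HasFiniteIntegral
    rw [lintegral_prod_symm _ hFm.enorm.aemeasurable]
    exact hbd
  have hleft : ∀ τ ∈ Ioo t s, τ / √(τ ^ 2 - t ^ 2) *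
      ∫ φ in (0 : ℝ)..(π / 2), ψ (pph s τ φ) * Real.cos φ ^ 2 / pph s τ φ =
      ∫ p, F (τ, p) ∂μ := by
    intro τ hτ
    have hτ0 : 0 < τ := ht.trans hτ.1
    rw [subst ψ hτ0 hτ.2, ← integral_const_mul, hμ, ← integral_indicator measurableSet_Ioo,
      ← integral_indicator measurableSet_Ioo]
    refine integral_congr_ae (Eventually.of_forall fun q => ?_)
    by_cases h : q ∈ Ioo τ s
    · have h' : q ∈ Ioo t s := ⟨hτ.1.trans h.1, h.2⟩
      rw [Set.indicator_of_mem h, Set.indicator_of_mem h']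
      simp only [hF, krn]
      rw [hΨ, Set.indicator_of_mem (show q ∈ Icc t s from ⟨h'.1.le, h'.2.le⟩)]
      ring
    · rw [Set.indicator_of_notMem h]
      by_cases h' : q ∈ Ioo t s
      · rw [Set.indicator_of_mem h']
        have hq : q ≤ τ := by
          by_contra hc
          exact h ⟨not_le.1 hc, h'.2⟩
        have hq0 : 0 < q := ht.trans h'.1
        have : √(q ^ 2 - τ ^ 2) = 0 := Real.sqrt_eq_zero_of_nonpos (by nlinarith)
        simp only [hF, krn]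
        rw [this, mul_zero, div_zero, mul_zero, mul_zero]
      · rw [Set.indicator_of_notMem h']
  have hright : ∀ p ∈ Ioo t s, ∫ τ, F (τ, p) ∂μ = ψ p * (π / 2 / √(s ^ 2 - t ^ 2)) := by
    intro p hp
    have h1 : ∫ τ in Ioo t s, krn t s p τ = π / 2 / √(s ^ 2 - t ^ 2) := by
      rw [integral_eq_lintegral_of_nonneg_ae
        ((ae_restrict_iff' measurableSet_Ioo).2 (Eventually.of_forall fun τ hτ =>
          ker_nonneg ht hτ.1 hτ.2))]
      · rw [ker_lint ht hp.2 hp.1, ENNReal.toReal_ofReal (by positivity)]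
      · refine Measurable.aestronglyMeasurable ?_
        unfold krn
        fun_prop
    simp only [hF]
    rw [integral_const_mul, hμ, h1, hΨ,
      Set.indicator_of_mem (show p ∈ Icc t s from ⟨hp.1.le, hp.2.le⟩)]
  constructor
  · rw [intervalIntegrable_iff_integrableOn_Ioo_of_le hts.le]
    refine (integrableOn_congr_fun hleft measurableSet_Ioo).2 ?_
    exact hFi.integral_prod_left
  · rw [intervalIntegral.integral_of_le hts.le, integral_Ioc_eq_integral_Ioo,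
      setIntegral_congr_fun measurableSet_Ioo hleft]
    have hsw := integral_integral_swap (f := fun τ p => F (τ, p)) (μ := μ) (ν := μ) hFi
    rw [hμ] at hsw hright
    rw [hμ, hsw, setIntegral_congr_fun measurableSet_Ioo hright, integral_mul_const,
      intervalIntegral.integral_of_le hts.le, integral_Ioc_eq_integral_Ioo]
    ring

end Pool.Agent.HV
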