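import Pool.Agent.HV.Stmts

/-!
# Module HV_FA (MP_678b51_gt): facts on the state functions (§2)
-/

set_option autoImplicit false

open MeasureTheory Set Filter
open scoped Real Topology ENNReal

namespace Pool.Agent.HV

namespace FAx

lemma sqrt_le_add {x y : ℝ} (h : y ≤ x) : √x ≤ √y + √(x - y) := by
  by_cases hy : 0 ≤ y
  · rw [Real.sqrt_le_left (by positivity)]
    have h1 := Real.sq_sqrt hy
    have h2 := Real.sq_sqrt (sub_nonneg.2 h)
    nlinarith [mul_nonneg (Real.sqrt_nonneg y) (Real.sqrt_nonneg (x - y))]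
  · push Not at hy
    have h1 : √y = 0 := Real.sqrt_eq_zero_of_nonpos hy.le
    rw [h1, zero_add]
    exact Real.sqrt_le_sqrt (by linarith)

lemma Om_sub_le {a b : ℝ} (hab : a ≤ b) : Om b - Om a ≤ 6 * √(b - a) := by
  unfold Om
  have h1 := sqrt_le_add hab
  have h2 : √(1 / 2 - a) ≤ √(1 / 2 - b) + √(b - a) := by
    have := sqrt_le_add (show 1 / 2 - b ≤ 1 / 2 - a by linarith)
    rwa [show 1 / 2 - a - (1 / 2 - b) = b - a by ring] at this
  have h3 : √(1 - a) ≤ √(1 - b) + √(b - a) := by
    have := sqrt_le_add (show 1 - b ≤ 1 - a by linarith)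
    rwa [show 1 - a - (1 - b) = b - a by ring] at this
  linarith

section

variable {S : St} (hS : Crude S)

include hS

lemma g0eq : S.g 0 = 0 := by
  have := hS.godd 0
  rw [neg_zero] at this
  linarith

lemma g_inc {a b : ℝ} (ha : 0 ≤ a) (hab : a ≤ b) (hb : b ≤ 1) :
    |S.g b - S.g a| ≤ 12 * √(b - a) := by
  have h1 := hS.ginc a b ha hab hb
  have h2 := Om_sub_le hab
  linarith

lemma g_le {t : ℝ} (h0 : 0 ≤ t) (h1 : t ≤ 1) : |S.g t| ≤ 12 * √t := by
  have := g_inc hS le_rfl h0 h1
  rwa [g0eq hS, sub_zero, sub_zero] at this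

lemma g_le' {t : ℝ} (h0 : 0 ≤ t) (h1 : t ≤ 1) : |S.g t| ≤ 12 * √(1 - t) := by
  have := g_inc hS h0 h1 le_rfl
  rwa [hS.gz 1 le_rfl, zero_sub, abs_neg] at this

lemma g_abs (t : ℝ) : |S.g t| = |S.g (abs t)| := by
  rcases abs_cases t with ⟨h, _⟩ | ⟨h, _⟩
  · rw [h]
  · rw [h, hS.godd, abs_neg]

lemma g_bd (t : ℝ) : |S.g t| ≤ 12 := by
  rw [g_abs hS]
  by_cases h : |t| ≤ 1
  · refine (g_le hS (abs_nonneg t) h).trans ?_
    have : √(abs t) ≤ 1 := Real.sqrt_le_one.2 h
    linarith
  · push Not at h
    rw [hS.gz _ h.le]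
    norm_num

lemma g_hol_le {a b : ℝ} (hab : a ≤ b) : |S.g b - S.g a| ≤ 24 * √(b - a) := by
  -- reduction to [-1,1]
  have key : ∀ a b : ℝ, -1 ≤ a → a ≤ b → b ≤ 1 → |S.g b - S.g a| ≤ 24 * √(b - a) := by
    intro a b ha hab hb
    have hs : 0 ≤ √(b - a) := Real.sqrt_nonneg _
    rcases le_total 0 a with h | h
    · have := g_inc hS h hab hb
      linarith
    · rcases le_total 0 b with h' | h'
      · have h1 := g_le hS h' hb
        have h2 := g_le hS (show 0 ≤ -a by linarith) (by linarith)
        rw [hS.godd, abs_neg] at h2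
        have h3 : √b ≤ √(b - a) := Real.sqrt_le_sqrt (by linarith)
        have h4 : √(-a) ≤ √(b - a) := Real.sqrt_le_sqrt (by linarith)
        have h5 := abs_sub (S.g b) (S.g a)
        linarith
      · have := g_inc hS (show 0 ≤ -b by linarith) (show -b ≤ -a by linarith) (by linarith)
        rw [hS.godd, hS.godd, show -S.g a - -S.g b = S.g b - S.g a by ring,
          show -a - -b = b - a by ring] at this
        linarith
  have hz : ∀ t : ℝ, t ≤ -1 → S.g t = 0 := by
    intro t ht
    have h1 := hS.godd t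
    rw [hS.gz (-t) (by linarith)] at h1
    linarith
  by_cases h1 : b ≤ -1
  · rw [hz b h1, hz a (by linarith)]
    simp only [sub_zero, abs_zero]
    positivity
  by_cases h2 : 1 ≤ a
  · rw [hS.gz b (by linarith), hS.gz a h2]
    simp only [sub_zero, abs_zero]
    positivity
  push Not at h1 h2
  set a' := max a (-1) with ha'
  set b' := min b 1 with hb'
  have e1 : S.g a = S.g a' := by
    rcases le_total a (-1) with h | h
    · rw [ha', max_eq_right h, hz a h, hz (-1) le_rfl]
    · rw [ha', max_eq_left h]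
  have e2 : S.g b = S.g b' := by
    rcases le_total b 1 with h | h
    · rw [hb', min_eq_left h]
    · rw [hb', min_eq_right h, hS.gz b h, hS.gz 1 le_rfl]
  have h3 : a ≤ a' := le_max_left _ _
  have h4 : b' ≤ b := min_le_left _ _
  have h5 : a' ≤ b' := by
    refine le_min (max_le hab h1.le) (max_le h2.le (by norm_num))
  rw [e1, e2]
  refine (key a' b' (le_max_right _ _) h5 (min_le_right _ _)).trans ?_
  have : √(b' - a') ≤ √(b - a) := Real.sqrt_le_sqrt (by linarith)
  linarith

lemma da_deriv (t : ℝ) : HasDerivAt (da S) (S.g t) t := by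
  have h := intervalIntegral.integral_hasDerivAt_left (f := S.g) (a := t) (b := 1)
    (hS.gC.intervalIntegrable _ _) hS.gC.stronglyMeasurable.stronglyMeasurableAtFilter
    hS.gC.continuousAt
  have := h.neg
  rw [neg_neg] at this
  exact this

lemma da_cont : Continuous (da S) :=
  continuous_iff_continuousAt.2 fun t => (da_deriv hS t).continuousAt

lemma al_deriv (t : ℝ) : HasDerivAt (al S) (da S t) t := by
  have hc := da_cont hS
  have h := intervalIntegral.integral_hasDerivAt_left (f := da S) (a := t) (b := 1)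
    (hc.intervalIntegrable _ _) hc.stronglyMeasurable.stronglyMeasurableAtFilter
    hc.continuousAt
  have := h.neg
  rw [neg_neg] at this
  exact this

lemma al_cont : Continuous (al S) :=
  continuous_iff_continuousAt.2 fun t => (al_deriv hS t).continuousAt

lemma da_zero {t : ℝ} (ht : 1 ≤ t) : da S t = 0 := by
  unfold da
  rw [neg_eq_zero]
  have : ∫ s in t..1, S.g s = ∫ s in t..1, (0 : ℝ) := by
    refine intervalIntegral.integral_congr (fun s hs => ?_)
    rw [uIcc_of_ge ht] at hs
    exact hS.gz s hs.1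
  rw [this]
  simp

lemma al_zero {t : ℝ} (ht : 1 ≤ t) : al S t = 0 := by
  unfold al
  rw [neg_eq_zero]
  have : ∫ s in t..1, da S s = ∫ s in t..1, (0 : ℝ) := by
    refine intervalIntegral.integral_congr (fun s hs => ?_)
    rw [uIcc_of_ge ht] at hs
    exact da_zero hS hs.1
  rw [this]
  simp

lemma da_even (t : ℝ) : da S (-t) = da S t := by
  have hd : ∀ t, HasDerivAt (fun t => da S (-t) - da S t) 0 t := by
    intro t
    have h1 : HasDerivAt (fun t => da S (-t)) (S.g (-t) * (-1)) t :=
      (da_deriv hS (-t)).comp t (hasDerivAt_neg t)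
    have h2 := h1.sub (da_deriv hS t)
    rw [hS.godd, show -S.g t * -1 - S.g t = 0 by ring] at h2
    exact h2
  have h3 := is_const_of_deriv_eq_zero (fun t => (hd t).differentiableAt)
    (fun t => (hd t).deriv) t 0
  simp only [neg_zero, sub_self] at h3
  linarith

lemma al_at_zero : al S 0 = 0 := by
  have hd : ∀ t, HasDerivAt (fun t => t * da S t - al S t) (t * S.g t) t := by
    intro t
    have h := ((hasDerivAt_id t).mul (da_deriv hS t)).sub (al_deriv hS t)
    have e : (1 * da S t + id t * S.g t) - da S t = t * S.g t := by simp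
    rw [e] at h
    exact h
  have h1 := intervalIntegral.integral_eq_sub_of_hasDerivAt (a := 0) (b := 1)
    (fun t _ => hd t) ((continuous_id.mul hS.gC).intervalIntegrable _ _)
  rw [hS.gmom, da_zero hS le_rfl, al_zero hS le_rfl] at h1
  linarith

lemma al_odd (t : ℝ) : al S (-t) = -al S t := by
  have hd : ∀ t, HasDerivAt (fun t => al S (-t) + al S t) 0 t := by
    intro t
    have h1 : HasDerivAt (fun t => al S (-t)) (da S (-t) * (-1)) t :=
      (al_deriv hS (-t)).comp t (hasDerivAt_neg t)
    have h2 := h1.add (al_deriv hS t)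
    rw [da_even hS, show da S t * -1 + da S t = 0 by ring] at h2
    exact h2
  have h3 := is_const_of_deriv_eq_zero (fun t => (hd t).differentiableAt)
    (fun t => (hd t).deriv) t 0
  simp only [neg_zero, al_at_zero hS] at h3
  linarith

omit hS in
lemma pow32_deriv {t : ℝ} (ht : t < 1) :
    HasDerivAt (fun t : ℝ => (1 - t) * √(1 - t)) (-(3 / 2 * √(1 - t))) t := by
  have h0 : 0 < 1 - t := by linarith
  have h1 : HasDerivAt (fun t : ℝ => 1 - t) (-1) t := by
    simpa using (hasDerivAt_id t).const_sub 1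
  have h2 := h1.mul (h1.sqrt h0.ne')
  have hs : √(1 - t) ≠ 0 := (Real.sqrt_pos.2 h0).ne'
  have hs2 : √(1 - t) * √(1 - t) = 1 - t := Real.mul_self_sqrt h0.le
  have e : -1 * √(1 - t) + (1 - t) * (-1 / (2 * √(1 - t))) = -(3 / 2 * √(1 - t)) := by
    have h3 : (1 - t) * (-1 / (2 * √(1 - t))) = -(√(1 - t) / 2) := by
      rw [mul_div_assoc', eq_neg_iff_add_eq_zero, div_add_div _ _ (by positivity) (by norm_num),
        div_eq_zero_iff]
      left
      linear_combination (2 : ℝ) * hs2
    rw [h3]
    ring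
  rw [e] at h2
  exact h2

omit hS in
lemma pow52_deriv {t : ℝ} (ht : t < 1) :
    HasDerivAt (fun t : ℝ => (1 - t) ^ 2 * √(1 - t)) (-(5 / 2 * ((1 - t) * √(1 - t)))) t := by
  have h0 : 0 < 1 - t := by linarith
  have h1 : HasDerivAt (fun t : ℝ => 1 - t) (-1) t := by
    simpa using (hasDerivAt_id t).const_sub 1
  have h2 := h1.mul (pow32_deriv ht)
  have e : (fun t : ℝ => (1 - t) ^ 2 * √(1 - t)) =
      (fun t : ℝ => 1 - t) * (fun t : ℝ => (1 - t) * √(1 - t)) := by
    funext t
    simp only [Pi.mul_apply]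
    ring
  rw [e]
  have e2 : -1 * ((1 - t) * √(1 - t)) + (1 - t) * -(3 / 2 * √(1 - t)) =
      -(5 / 2 * ((1 - t) * √(1 - t))) := by ring
  rw [e2] at h2
  exact h2

omit hS in
/-- comparison: `h' + |f'| ≤ 0` on `(0,1)`, `h 1 = f 1 = 0` gives `|f| ≤ h`. -/
lemma compare {f h df dh : ℝ → ℝ} (hf : Continuous f) (hh : Continuous h)
    (hdf : ∀ t, HasDerivAt f (df t) t) (hdh : ∀ t, t < 1 → HasDerivAt h (dh t) t)
    (hle : ∀ t, 0 < t → t < 1 → |df t| ≤ -dh t) (f1 : f 1 = 0) (h1 : h 1 = 0)
    {t : ℝ} (t0 : 0 ≤ t) (t1 : t ≤ 1) : |f t| ≤ h t := by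
  have hint : interior (Icc (0 : ℝ) 1) = Ioo 0 1 := interior_Icc
  have A1 : AntitoneOn (fun t => h t + f t) (Icc 0 1) := by
    refine antitoneOn_of_deriv_nonpos (convex_Icc 0 1) (hh.add hf).continuousOn ?_ ?_
    · intro x hx
      rw [hint] at hx
      exact ((hdh x hx.2).add (hdf x)).differentiableAt.differentiableWithinAt
    · intro x hx
      rw [hint] at hx
      have h3 : HasDerivAt (fun t => h t + f t) (dh x + df x) x := (hdh x hx.2).add (hdf x)
      rw [h3.deriv]
      have h4 := hle x hx.1 hx.2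
      have h5 := (abs_le.1 h4).2
      linarith
  have A2 : AntitoneOn (fun t => h t - f t) (Icc 0 1) := by
    refine antitoneOn_of_deriv_nonpos (convex_Icc 0 1) (hh.sub hf).continuousOn ?_ ?_
    · intro x hx
      rw [hint] at hx
      exact ((hdh x hx.2).sub (hdf x)).differentiableAt.differentiableWithinAt
    · intro x hx
      rw [hint] at hx
      have h3 : HasDerivAt (fun t => h t - f t) (dh x - df x) x := (hdh x hx.2).sub (hdf x)
      rw [h3.deriv]
      have h4 := hle x hx.1 hx.2
      have h5 := (abs_le.1 h4).1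
      linarith
  have B1 := A1 ⟨t0, t1⟩ ⟨zero_le_one, le_rfl⟩ t1
  have B2 := A2 ⟨t0, t1⟩ ⟨zero_le_one, le_rfl⟩ t1
  simp only [f1, h1] at B1 B2
  rw [abs_le]
  constructor <;> linarith

lemma da_le {t : ℝ} (h0 : 0 ≤ t) (h1 : t ≤ 1) : |da S t| ≤ 8 * ((1 - t) * √(1 - t)) := by
  refine compare (f := da S) (h := fun t => 8 * ((1 - t) * √(1 - t)))
    (dh := fun t => 8 * (-(3 / 2 * √(1 - t)))) (da_cont hS) (by fun_prop) (da_deriv hS)
    (fun t ht => (pow32_deriv ht).const_mul 8) ?_ (da_zero hS le_rfl) (by simp) h0 h1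
  intro x x0 x1
  have := g_le' hS x0.le x1.le
  linarith

lemma al_le {t : ℝ} (h0 : 0 ≤ t) (h1 : t ≤ 1) : |al S t| ≤ 4 * ((1 - t) ^ 2 * √(1 - t)) := by
  refine compare (f := al S) (h := fun t => 4 * ((1 - t) ^ 2 * √(1 - t)))
    (dh := fun t => 4 * (-(5 / 2 * ((1 - t) * √(1 - t))))) (al_cont hS) (by fun_prop)
    (al_deriv hS) (fun t ht => (pow52_deriv ht).const_mul 4) ?_ (al_zero hS le_rfl) (by simp) h0 h1
  intro x x0 x1
  have h2 := da_le hS x0.le x1.le
  have h3 : 0 ≤ (1 - x) * √(1 - x) := mul_nonneg (by linarith) (Real.sqrt_nonneg _)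
  linarith

lemma da_bd (t : ℝ) : |da S t| ≤ 8 := by
  have key : ∀ t, 0 ≤ t → |da S t| ≤ 8 := by
    intro t ht
    by_cases h : t ≤ 1
    · refine (da_le hS ht h).trans ?_
      have h1 : √(1 - t) ≤ 1 := Real.sqrt_le_one.2 (by linarith)
      have h2 := Real.sqrt_nonneg (1 - t)
      nlinarith
    · push Not at h
      rw [da_zero hS h.le]
      norm_num
  rcases le_total 0 t with h | h
  · exact key t h
  · rw [← da_even hS]
    exact key (-t) (by linarith)

lemma da_lip (s t : ℝ) : |da S t - da S s| ≤ 12 * |t - s| := by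
  have := Convex.norm_image_sub_le_of_norm_hasDerivWithin_le (f := da S) (f' := S.g) (s := univ)
    (C := 12) (fun x _ => (da_deriv hS x).hasDerivWithinAt)
    (fun x _ => by rw [Real.norm_eq_abs]; exact g_bd hS x) convex_univ (mem_univ s) (mem_univ t)
  simpa [Real.norm_eq_abs] using this

lemma al_lip (s t : ℝ) : |al S t - al S s| ≤ 8 * |t - s| := by
  have := Convex.norm_image_sub_le_of_norm_hasDerivWithin_le (f := al S) (f' := da S) (s := univ)
    (C := 8) (fun x _ => (al_deriv hS x).hasDerivWithinAt)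
    (fun x _ => by rw [Real.norm_eq_abs]; exact da_bd hS x) convex_univ (mem_univ s) (mem_univ t)
  simpa [Real.norm_eq_abs] using this

lemma ab_mul (t : ℝ) : t * ab S t = al S t := by
  have hd : ∀ θ, HasDerivAt (fun θ => al S (θ * t)) (da S (θ * t) * t) θ := by
    intro θ
    have h1 : HasDerivAt (fun θ : ℝ => θ * t) t θ := by
      simpa using (hasDerivAt_id θ).mul_const t
    exact HasDerivAt.comp (h₂ := al S) θ (al_deriv hS (θ * t)) h1
  have hc : Continuous fun θ => da S (θ * t) * t :=
    ((da_cont hS).comp (continuous_id.mul continuous_const)).mul continuous_const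
  have h1 := intervalIntegral.integral_eq_sub_of_hasDerivAt (a := 0) (b := 1)
    (fun θ _ => hd θ) (hc.intervalIntegrable _ _)
  rw [intervalIntegral.integral_mul_const, one_mul, zero_mul, al_at_zero hS, sub_zero] at h1
  unfold ab
  rw [mul_comm]
  exact h1

lemma dd_mul (a b : ℝ) : dd S a b * (a - b) = al S a - al S b := by
  have hd : ∀ θ, HasDerivAt (fun θ => al S (b + θ * (a - b)))
      (da S (b + θ * (a - b)) * (a - b)) θ := by
    intro θ
    have h1 : HasDerivAt (fun θ : ℝ => b + θ * (a - b)) (a - b) θ := by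
      simpa using ((hasDerivAt_id θ).mul_const (a - b)).const_add b
    exact HasDerivAt.comp (h₂ := al S) θ (al_deriv hS (b + θ * (a - b))) h1
  have hc : Continuous fun θ => da S (b + θ * (a - b)) * (a - b) :=
    ((da_cont hS).comp (by fun_prop)).mul continuous_const
  have h1 := intervalIntegral.integral_eq_sub_of_hasDerivAt (a := 0) (b := 1)
    (fun θ _ => hd θ) (hc.intervalIntegrable _ _)
  rw [intervalIntegral.integral_mul_const] at h1
  unfold dd
  rw [h1]
  congr 2 <;> ring_nf

omit hS in
lemma dd_self (t : ℝ) : dd S t t = da S t := by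
  unfold dd
  simp

omit hS in
lemma int_bd {f : ℝ → ℝ} {C : ℝ} (h : ∀ θ, 0 ≤ θ → θ ≤ 1 → |f θ| ≤ C) :
    |∫ θ in (0 : ℝ)..1, f θ| ≤ C := by
  have := intervalIntegral.norm_integral_le_of_norm_le_const (a := 0) (b := 1) (f := f) (C := C)
    (fun x hx => by
      rw [uIoc_of_le zero_le_one] at hx
      rw [Real.norm_eq_abs]
      exact h x hx.1.le hx.2)
  simpa [Real.norm_eq_abs] using this

lemma ab_lip (s t : ℝ) : |ab S t - ab S s| ≤ 12 * |t - s| := by
  unfold ab
  rw [← intervalIntegral.integral_sub]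
  · refine int_bd (fun θ h0 h1 => ?_)
    refine (da_lip hS _ _).trans ?_
    rw [← mul_sub, abs_mul, abs_of_nonneg h0]
    have := abs_nonneg (t - s)
    nlinarith
  · exact ((da_cont hS).comp (continuous_id.mul continuous_const)).intervalIntegrable _ _
  · exact ((da_cont hS).comp (continuous_id.mul continuous_const)).intervalIntegrable _ _

lemma dd_neg (t : ℝ) : dd S t (-t) = ab S t := by
  by_cases ht : t = 0
  · subst ht
    unfold dd ab
    simp
  · have h1 := dd_mul hS t (-t)
    rw [al_odd hS, ← ab_mul hS] at h1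
    have h2 : (dd S t (-t) - ab S t) * (2 * t) = 0 := by linarith
    rcases mul_eq_zero.1 h2 with h | h
    · linarith
    · exact absurd (by linarith : t = 0) ht

lemma dd_cont : Continuous fun z : ℝ × ℝ => dd S z.1 z.2 := by
  unfold dd
  refine intervalIntegral.continuous_parametric_intervalIntegral_of_continuous' ?_ 0 1
  exact (da_cont hS).comp (by fun_prop)

lemma Gm_cont : Continuous fun z : ℝ × ℝ => Gm S z.1 z.2 := by
  unfold Gm
  refine intervalIntegral.continuous_parametric_intervalIntegral_of_continuous' ?_ 0 1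
  exact (by fun_prop : Continuous fun z : (ℝ × ℝ) × ℝ => 1 - z.2).mul (hS.gC.comp (by fun_prop))

lemma dd_deriv (a b : ℝ) : HasDerivAt (fun b => dd S a b) (Gm S a b) b := by
  have hF : ∀ b : ℝ, Continuous fun θ : ℝ => da S (b + θ * (a - b)) := fun b =>
    (da_cont hS).comp (by fun_prop)
  have hF' : Continuous fun θ : ℝ => (1 - θ) * S.g (b + θ * (a - b)) :=
    (by fun_prop : Continuous fun θ : ℝ => 1 - θ).mul (hS.gC.comp (by fun_prop))
  have := intervalIntegral.hasDerivAt_integral_of_dominated_loc_of_deriv_le (μ := volume)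
    (𝕜 := ℝ) (F := fun b θ => da S (b + θ * (a - b)))
    (F' := fun b θ => (1 - θ) * S.g (b + θ * (a - b))) (x₀ := b) (a := 0) (b := 1)
    (s := univ) (bound := fun _ => 12) Filter.univ_mem
    (Filter.Eventually.of_forall fun x => (hF x).aestronglyMeasurable)
    ((hF b).intervalIntegrable _ _) hF'.aestronglyMeasurable ?_
    intervalIntegrable_const ?_
  · exact this.2
  · refine Filter.Eventually.of_forall (fun θ hθ x _ => ?_)
    rw [uIoc_of_le zero_le_one] at hθ
    rw [Real.norm_eq_abs, abs_mul]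
    have h1 : |1 - θ| ≤ 1 := by rw [abs_le]; constructor <;> linarith [hθ.1, hθ.2]
    have h2 := g_bd hS (x + θ * (a - x))
    have h3 := abs_nonneg (1 - θ)
    have h4 := abs_nonneg (S.g (x + θ * (a - x)))
    nlinarith
  · refine Filter.Eventually.of_forall (fun θ _ x _ => ?_)
    have h1 : HasDerivAt (fun x : ℝ => x + θ * (a - x)) (1 - θ) x := by
      have h2 := (hasDerivAt_id x).add (((hasDerivAt_id x).const_sub a).const_mul θ)
      have e : (1 : ℝ) + θ * -1 = 1 - θ := by ring
      rw [e] at h2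
      exact h2
    have h3 := (da_deriv hS (x + θ * (a - x))).comp x h1
    rw [mul_comm] at h3
    exact h3

end

end FAx

open FAx in
theorem FA : S_FactsA := by
  intro S hS
  exact
    { da_deriv := da_deriv hS
      al_deriv := al_deriv hS
      da_even := da_even hS
      al_odd := al_odd hS
      da_zero := fun t ht => da_zero hS ht
      al_zero := fun t ht => al_zero hS ht
      g_bd := g_bd hS
      g_le := fun t h0 h1 => g_le hS h0 h1
      g_le' := fun t h0 h1 => g_le' hS h0 h1
      g_hol := by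
        intro a b
        rcases le_total a b with h | h
        · rw [abs_of_nonneg (sub_nonneg.2 h)]
          exact g_hol_le hS h
        · rw [abs_sub_comm (S.g b), abs_sub_comm b a, abs_of_nonneg (sub_nonneg.2 h)]
          exact g_hol_le hS h
      da_bd := da_bd hS
      da_le := fun t h0 h1 => da_le hS h0 h1
      al_le := fun t h0 h1 => al_le hS h0 h1
      al_le' := by
        intro t ht
        have := al_lip hS 0 t
        rw [al_at_zero hS, sub_zero, sub_zero, abs_of_nonneg ht] at this
        exact this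
      ab_bd := fun t => int_bd (fun θ _ _ => da_bd hS _)
      ab_mul := ab_mul hS
      ab_lip := ab_lip hS
      dd_bd := fun a b => int_bd (fun θ _ _ => da_bd hS _)
      dd_mul := dd_mul hS
      dd_self := dd_self
      dd_neg := dd_neg hS
      dd_deriv := dd_deriv hS
      dd_cont := dd_cont hS
      Gm_bd := by
        intro a b
        refine int_bd (fun θ h0 h1 => ?_)
        rw [abs_mul]
        have h1 : |1 - θ| ≤ 1 := by rw [abs_le]; constructor <;> linarith
        have h2 := g_bd hS (b + θ * (a - b))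
        have h3 := abs_nonneg (1 - θ)
        have h4 := abs_nonneg (S.g (b + θ * (a - b)))
        nlinarith
      Gm_cont := Gm_cont hS }

end Pool.Agent.HV
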