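import Pool.Agent.HV.Stmts

/-!
# Facts on `u, x, P, G, κ, n, w` (module FB)
-/

set_option autoImplicit false

open MeasureTheory Set Filter
open scoped Real Topology ENNReal

namespace Pool.Agent.HV

namespace FBaux

/-! ### Generalities -/

lemma cont_of_inc {f g : ℝ → ℝ} {l r C : ℝ} (hg : Continuous g)
    (h : ∀ a b, l ≤ a → a ≤ b → b ≤ r → |f b - f a| ≤ C * (g b - g a)) :
    ContinuousOn f (Icc l r) := by
  have h' : ∀ a ∈ Icc l r, ∀ b ∈ Icc l r, |f b - f a| ≤ |C| * |g b - g a| := by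
    intro a ha b hb
    rcases le_total a b with hab | hab
    · refine (h a b ha.1 hab hb.2).trans ?_
      rw [← abs_mul]
      exact le_abs_self _
    · rw [abs_sub_comm (f b), abs_sub_comm (g b)]
      refine (h b a hb.1 hab ha.2).trans ?_
      rw [← abs_mul]
      exact le_abs_self _
  intro a ha
  unfold ContinuousWithinAt
  rw [tendsto_iff_norm_sub_tendsto_zero]
  have h1 : Tendsto (fun b => |C| * |g b - g a|) (𝓝[Icc l r] a) (𝓝 0) := by
    have : ContinuousAt (fun b => |C| * |g b - g a|) a := by fun_prop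
    have h2 := this.tendsto
    simp only [sub_self, abs_zero, mul_zero] at h2
    exact h2.mono_left nhdsWithin_le_nhds
  refine squeeze_zero' (Eventually.of_forall fun _ => norm_nonneg _) ?_ h1
  filter_upwards [self_mem_nhdsWithin] with b hb
  rw [Real.norm_eq_abs]
  exact h' a ha b hb

lemma FL0_cont : Continuous FL0 := by
  unfold FL0
  fun_prop

lemma fL0_cont : Continuous fL0 := by
  unfold fL0
  fun_prop

lemma sqrt_quarter : √((1 / 2 : ℝ) / 2) = 1 / 2 := by
  rw [show (1 / 2 : ℝ) / 2 = (1 / 2) ^ 2 by norm_num, Real.sqrt_sq (by norm_num)]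

lemma FL0_half : FL0 (1 / 2) = bb * (1 - 1 / 2) := by
  unfold FL0
  rw [sqrt_quarter]
  norm_num

lemma F0_cont : Continuous F0 := by
  have : F0 = fun t => if (1 / 2 : ℝ) ≤ t then bb * (1 - t) else FL0 t := by
    funext t
    unfold F0
    by_cases h : t < 1 / 2
    · rw [if_pos h, if_neg (not_le.2 h)]
    · rw [if_neg h, if_pos (not_lt.1 h)]
  rw [this]
  refine Continuous.if_le (by fun_prop) FL0_cont continuous_const continuous_id ?_
  intro x hx
  have hx' : (1 / 2 : ℝ) = x := hx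
  rw [← hx', FL0_half]

lemma Fp_cont (p : ℝ) : Continuous (Fp p) := by
  unfold Fp
  have := F0_cont
  fun_prop

/-- increments of `FL0` -/
lemma FL0_inc {a b : ℝ} (ha : 0 ≤ a) (hab : a ≤ b) (hb : b ≤ 1 / 2) :
    0 ≤ FL0 b - FL0 a ∧ FL0 b - FL0 a ≤ 1 / 10 * (b - a) := by
  unfold FL0 bb
  set x := √(a / 2) with hx
  set y := √(b / 2) with hy
  have hx0 : 0 ≤ x := Real.sqrt_nonneg _
  have hx2 : x ^ 2 = a / 2 := Real.sq_sqrt (by linarith)
  have hy2 : y ^ 2 = b / 2 := Real.sq_sqrt (by linarith)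
  have hxy : x ≤ y := Real.sqrt_le_sqrt (by linarith)
  have hy1 : y ≤ 1 / 2 := by
    rw [hy, ← sqrt_quarter]
    exact Real.sqrt_le_sqrt (by linarith)
  have e1 : b - a = 2 * (y ^ 2 - x ^ 2) := by rw [hx2, hy2]; ring
  have h1 : 0 ≤ y ^ 3 - x ^ 3 := by
    have : x ^ 3 ≤ y ^ 3 := pow_le_pow_left₀ hx0 hxy 3
    linarith
  have h2 : y ^ 3 - x ^ 3 ≤ 3 / 2 * y * (y ^ 2 - x ^ 2) := by
    have : 3 / 2 * y * (y ^ 2 - x ^ 2) - (y ^ 3 - x ^ 3) =
        (y - x) * ((y - x) * (y + 2 * x)) / 2 := by ring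
    have h3 : 0 ≤ (y - x) * ((y - x) * (y + 2 * x)) / 2 := by
      have : 0 ≤ y - x := by linarith
      positivity
    linarith
  have h3 : 0 ≤ y ^ 2 - x ^ 2 := by
    have : x ^ 2 ≤ y ^ 2 := pow_le_pow_left₀ hx0 hxy 2
    linarith
  have h4 : 3 / 2 * y * (y ^ 2 - x ^ 2) ≤ 3 / 4 * (y ^ 2 - x ^ 2) := by
    apply mul_le_mul_of_nonneg_right _ h3
    linarith
  have h5 : y ^ 3 - x ^ 3 ≤ 3 / 8 * (b - a) := by
    rw [e1]
    linarith
  have h6 : 0 ≤ b - a := by linarith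
  have h7 : x ^ 2 = a / 2 := hx2
  constructor
  · nlinarith
  · nlinarith

lemma F0_lip {a b : ℝ} (ha : 0 ≤ a) (hab : a ≤ b) : |F0 b - F0 a| ≤ 1 / 10 * (b - a) := by
  have hL : ∀ a b : ℝ, 0 ≤ a → a ≤ b → b ≤ 1 / 2 → |F0 b - F0 a| ≤ 1 / 10 * (b - a) := by
    intro a b ha hab hb
    have e : ∀ t : ℝ, t ≤ 1 / 2 → F0 t = FL0 t := by
      intro t ht
      unfold F0
      by_cases h : t < 1 / 2
      · rw [if_pos h]
      · have : t = 1 / 2 := le_antisymm ht (not_lt.1 h)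
        rw [if_neg h, this, FL0_half]
    rw [e b hb, e a (hab.trans hb)]
    obtain ⟨h1, h2⟩ := FL0_inc ha hab hb
    rw [abs_of_nonneg h1]
    exact h2
  have hR : ∀ a b : ℝ, 1 / 2 ≤ a → a ≤ b → |F0 b - F0 a| ≤ 1 / 10 * (b - a) := by
    intro a b ha hab
    have e : ∀ t : ℝ, 1 / 2 ≤ t → F0 t = bb * (1 - t) := by
      intro t ht
      unfold F0
      rw [if_neg (not_lt.2 ht)]
    rw [e b (ha.trans hab), e a ha]
    unfold bb
    rw [abs_le]
    constructor <;> linarith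
  rcases le_total b (1 / 2) with hb | hb
  · exact hL a b ha hab hb
  · rcases le_total a (1 / 2) with ha' | ha'
    · have h1 := hL a (1 / 2) ha ha' le_rfl
      have h2 := hR (1 / 2) b le_rfl hb
      have h3 := abs_add_le (F0 b - F0 (1 / 2)) (F0 (1 / 2) - F0 a)
      rw [show F0 b - F0 (1 / 2) + (F0 (1 / 2) - F0 a) = F0 b - F0 a by ring] at h3
      linarith
    · exact hR a b ha' hab

lemma Fp_lip {p a b : ℝ} (hp : |p| ≤ 1 / 1000) (ha : 0 ≤ a) (hab : a ≤ b) :
    |Fp p b - Fp p a| ≤ 1 / 5 * (b - a) := by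
  unfold Fp
  have h1 := F0_lip ha hab
  have h2 : |max (1 / 2 - b) 0 - max (1 / 2 - a) 0| ≤ b - a := by
    refine (abs_max_sub_max_le_abs _ _ _).trans ?_
    rw [show 1 / 2 - b - (1 / 2 - a) = -(b - a) by ring, abs_neg, abs_of_nonneg (by linarith)]
  have h3 : |p * (max (1 / 2 - b) 0 - max (1 / 2 - a) 0)| ≤ 1 / 1000 * (b - a) := by
    rw [abs_mul]
    exact mul_le_mul hp h2 (abs_nonneg _) (by norm_num)
  rw [show F0 b - p * max (1 / 2 - b) 0 - (F0 a - p * max (1 / 2 - a) 0) =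
    (F0 b - F0 a) - p * (max (1 / 2 - b) 0 - max (1 / 2 - a) 0) by ring]
  refine (abs_sub _ _).trans ?_
  linarith

lemma Fp_one (p : ℝ) : Fp p 1 = 0 := by
  unfold Fp F0
  rw [if_neg (by norm_num)]
  norm_num

lemma Fp_bd {p t : ℝ} (hp : |p| ≤ 1 / 1000) (ht0 : 0 ≤ t) (ht1 : t ≤ 1) : |Fp p t| ≤ 1 / 5 := by
  have h := Fp_lip hp ht0 ht1
  rw [Fp_one, zero_sub, abs_neg] at h
  linarith

lemma fL0_bd {t : ℝ} (ht : t ≤ 1 / 2) : 13 / 200 ≤ fL0 t ∧ fL0 t ≤ 1 / 10 := by
  unfold fL0 bb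
  have h0 : 0 ≤ √(t / 2) := Real.sqrt_nonneg _
  have h1 : √(t / 2) ≤ 1 / 2 := by
    rw [← sqrt_quarter]
    exact Real.sqrt_le_sqrt (by linarith)
  constructor <;> linarith

lemma fp_bd {p : ℝ} (hp : |p| ≤ 1 / 1000) (t : ℝ) : |fp p t| ≤ 101 / 1000 := by
  unfold fp
  rw [abs_le] at hp
  by_cases h : t < 1 / 2
  · rw [if_pos h, abs_le]
    unfold fL
    have := fL0_bd h.le
    constructor <;> linarith
  · rw [if_neg h]
    unfold bb
    norm_num

lemma hasDerivAt_Fp {p t : ℝ} (h0 : 0 < t) (h2 : t ≠ 1 / 2) :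
    HasDerivAt (Fp p) (fp p t) t := by
  rcases lt_or_gt_of_ne h2 with h | h
  · have h1 : HasDerivAt (fun t => FL0 t - p * (1 / 2 - t)) (fL0 t + p) t := by
      have hs : HasDerivAt (fun t : ℝ => √(t / 2)) (1 / 2 / (2 * √(t / 2))) t := by
        apply HasDerivAt.sqrt
        · exact (hasDerivAt_id' t).div_const 2
        · have : 0 < t / 2 := by linarith
          exact this.ne'
      have hc := hs.pow 3
      have hF : HasDerivAt FL0 (bb * (10 * 1 - 28 / 3 *
          ((3 : ℕ) * √(t / 2) ^ (3 - 1) * (1 / 2 / (2 * √(t / 2)))))) t := by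
        unfold FL0
        apply HasDerivAt.const_mul
        apply HasDerivAt.sub
        · exact ((hasDerivAt_id' t).const_mul 10).const_add _
        · exact hc.const_mul _
      have hq : HasDerivAt (fun t : ℝ => p * (1 / 2 - t)) (p * -1) t := by
        apply HasDerivAt.const_mul
        exact (hasDerivAt_id' t).const_sub _
      have := hF.sub hq
      have hpos : 0 < √(t / 2) := Real.sqrt_pos.2 (by linarith)
      refine this.congr_deriv ?_
      unfold fL0
      rw [show (3 - 1 : ℕ) = 2 from rfl]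
      push_cast
      field_simp
      ring
    have e : fp p t = fL0 t + p := by
      unfold fp fL
      rw [if_pos h]
    rw [e]
    apply h1.congr_of_eventuallyEq
    filter_upwards [Iio_mem_nhds h] with s hs
    have hs' : s < 1 / 2 := hs
    unfold Fp F0
    rw [if_pos hs', max_eq_left (by linarith)]
  · have h1 : HasDerivAt (fun t => bb * (1 - t) - p * 0) (bb * -1) t := by
      apply HasDerivAt.sub_const
      apply HasDerivAt.const_mul
      exact (hasDerivAt_id' t).const_sub _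
    have e : fp p t = bb * -1 := by
      unfold fp
      rw [if_neg (not_lt.2 h.le)]
      ring
    rw [e]
    apply h1.congr_of_eventuallyEq
    filter_upwards [Ioi_mem_nhds h] with s hs
    have hs' : 1 / 2 < s := hs
    unfold Fp F0
    rw [if_neg (not_lt.2 hs'.le), max_eq_right (by linarith)]

/-! ### `U` -/

variable {S : St}

lemma UL_cont (h : Crude S) : ContinuousOn S.UL (Icc 0 (1 / 2)) :=
  cont_of_inc Real.continuous_sqrt h.ULi

lemma UR_cont (h : Crude S) : ContinuousOn S.UR (Icc (1 / 2) 1) :=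
  cont_of_inc Real.continuous_sqrt h.URi

lemma U_bd (h : Crude S) {t : ℝ} (h0 : 0 ≤ t) (h1 : t ≤ 1) : -4 ≤ S.U t ∧ S.U t ≤ -(1 / 5) := by
  unfold St.U
  by_cases ht : t < 1 / 2
  · rw [if_pos ht]
    exact h.ULb t h0 ht.le
  · rw [if_neg ht]
    exact h.URb t (not_lt.1 ht) h1

lemma U_ctL (h : Crude S) : ContinuousOn S.U (Ico 0 (1 / 2)) := by
  apply ((UL_cont h).mono Ico_subset_Icc_self).congr
  intro t ht
  unfold St.U
  rw [if_pos ht.2]

lemma U_ctR (h : Crude S) : ContinuousOn S.U (Icc (1 / 2) 1) := by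
  apply (UR_cont h).congr
  intro t ht
  unfold St.U
  rw [if_neg (not_lt.2 ht.1)]

lemma U_int01 (h : Crude S) : IntervalIntegrable S.U volume 0 1 := by
  have h1 : IntervalIntegrable S.U volume 0 (1 / 2) := by
    rw [intervalIntegrable_iff_integrableOn_Ioo_of_le (by norm_num)]
    have h2 : IntegrableOn S.UL (Ioo 0 (1 / 2)) volume :=
      ((UL_cont h).integrableOn_Icc).mono_set Ioo_subset_Icc_self
    apply h2.congr_fun _ measurableSet_Ioo
    intro t ht
    simp only [St.U]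
    rw [if_pos ht.2]
  have h3 : IntervalIntegrable S.U volume (1 / 2) 1 := by
    rw [intervalIntegrable_iff_integrableOn_Ioo_of_le (by norm_num)]
    exact ((U_ctR h).integrableOn_Icc).mono_set Ioo_subset_Icc_self
  exact h1.trans h3

lemma U_int (h : Crude S) {a b : ℝ} (ha : a ∈ Icc (0 : ℝ) 1) (hb : b ∈ Icc (0 : ℝ) 1) :
    IntervalIntegrable S.U volume a b := by
  apply (U_int01 h).mono_set
  rw [uIcc_of_le (zero_le_one)]
  exact uIcc_subset_Icc ha hb

lemma Ups_sub (h : Crude S) {a b : ℝ} (ha : a ∈ Icc (0 : ℝ) 1) (hb : b ∈ Icc (0 : ℝ) 1) :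
    Ups S b - Ups S a = ∫ s in a..b, S.U s := by
  unfold Ups
  have h1 : (1 : ℝ) ∈ Icc (0 : ℝ) 1 := by constructor <;> norm_num
  have := intervalIntegral.integral_add_adjacent_intervals (U_int h ha hb) (U_int h hb h1)
  rw [← this]
  ring

lemma Ups_lip (h : Crude S) {a b : ℝ} (ha : 0 ≤ a) (hab : a ≤ b) (hb : b ≤ 1) :
    |Ups S b - Ups S a| ≤ 4 * (b - a) := by
  rw [Ups_sub h ⟨ha, hab.trans hb⟩ ⟨ha.trans hab, hb⟩]
  have := intervalIntegral.norm_integral_le_of_norm_le_const (a := a) (b := b) (f := S.U) (C := 4)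
    (fun t ht => by
      rw [uIoc_of_le hab] at ht
      rw [Real.norm_eq_abs, abs_le]
      have := U_bd h (ha.trans ht.1.le) (ht.2.trans hb)
      constructor <;> linarith)
  rwa [Real.norm_eq_abs, abs_of_nonneg (by linarith : 0 ≤ b - a)] at this

lemma Ups_one : Ups S 1 = 0 := by
  unfold Ups
  simp

lemma Ups_cont (h : Crude S) : ContinuousOn (Ups S) (Icc 0 1) :=
  cont_of_inc (g := fun t => t) continuous_id fun _ _ ha hab hb => Ups_lip h ha hab hb

lemma hasDerivAt_Ups (h : Crude S) {t : ℝ} (h0 : 0 < t) (h1 : t < 1) (h2 : t ≠ 1 / 2) :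
    HasDerivAt (Ups S) (S.U t) t := by
  have key : StronglyMeasurableAtFilter S.U (𝓝 t) volume ∧ ContinuousAt S.U t := by
    rcases lt_or_gt_of_ne h2 with h3 | h3
    · have hc : ContinuousOn S.U (Ioo 0 (1 / 2)) := (U_ctL h).mono Ioo_subset_Ico_self
      exact ⟨hc.stronglyMeasurableAtFilter isOpen_Ioo t ⟨h0, h3⟩,
        hc.continuousAt (isOpen_Ioo.mem_nhds ⟨h0, h3⟩)⟩
    · have hc : ContinuousOn S.U (Ioo (1 / 2) 1) := (U_ctR h).mono Ioo_subset_Icc_self
      exact ⟨hc.stronglyMeasurableAtFilter isOpen_Ioo t ⟨h3, h1⟩,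
        hc.continuousAt (isOpen_Ioo.mem_nhds ⟨h3, h1⟩)⟩
  have := intervalIntegral.integral_hasDerivAt_left
    (U_int h ⟨h0.le, h1.le⟩ ⟨zero_le_one, le_rfl⟩) key.1 key.2
  have h4 := this.neg
  rw [neg_neg] at h4
  exact h4

end FBaux

open FBaux

theorem FB (hA : S_FactsA) : S_FactsB := by
  refine ⟨1 / 100, by norm_num, le_rfl, ?_⟩
  intro δ hδ hδ1 S hS
  have A := hA S hS
  -- powers of δ
  have hd2 : δ ^ 2 ≤ 1 / 10000 := by nlinarith
  have hd2' : 0 < δ ^ 2 := by positivity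
  have hd3 : δ ^ 3 ≤ 1 / 1000000 := by
    have : δ ^ 3 = δ ^ 2 * δ := by ring
    rw [this]
    nlinarith
  have hd3' : 0 < δ ^ 3 := by positivity
  have he : ∀ e : ℝ, (e = 1 ∨ e = -1) → |e| = 1 := by
    rintro e (rfl | rfl) <;> norm_num
  -- x
  have x_lip : ∀ e, (e = 1 ∨ e = -1) → ∀ a b, 0 ≤ a → a ≤ b → b ≤ 1 →
      |xx δ S e b - xx δ S e a| ≤ 5 * δ ^ 2 * (b - a) := by
    intro e h a b ha hab hb
    unfold xx
    have h1 := Ups_lip hS ha hab hb
    have h2 := Fp_lip hS.pb ha hab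
    have h3 : |e * (Fp S.p b - Fp S.p a)| ≤ 1 / 5 * (b - a) := by
      rw [abs_mul, he e h, one_mul]
      exact h2
    rw [show 3 + δ ^ 2 * (Ups S b + e * Fp S.p b) - (3 + δ ^ 2 * (Ups S a + e * Fp S.p a)) =
      δ ^ 2 * ((Ups S b - Ups S a) + e * (Fp S.p b - Fp S.p a)) by ring, abs_mul,
      abs_of_pos hd2']
    have h4 := abs_add_le (Ups S b - Ups S a) (e * (Fp S.p b - Fp S.p a))
    have h5 : |Ups S b - Ups S a + e * (Fp S.p b - Fp S.p a)| ≤ 5 * (b - a) := by linarith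
    calc δ ^ 2 * |Ups S b - Ups S a + e * (Fp S.p b - Fp S.p a)| ≤ δ ^ 2 * (5 * (b - a)) :=
          mul_le_mul_of_nonneg_left h5 hd2'.le
      _ = 5 * δ ^ 2 * (b - a) := by ring
  have x_one : ∀ e, xx δ S e 1 = 3 := by
    intro e
    unfold xx
    rw [Ups_one, Fp_one]
    ring
  have x_cont : ∀ e, ContinuousOn (xx δ S e) (Icc 0 1) := by
    intro e
    unfold xx
    have h1 := Ups_cont hS
    have h2 := (Fp_cont S.p).continuousOn (s := Icc (0 : ℝ) 1)
    fun_prop
  have x_bd : ∀ e, (e = 1 ∨ e = -1) → ∀ t, 0 ≤ t → t ≤ 1 → |xx δ S e t - 3| ≤ 5 * δ ^ 2 := by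
    intro e h t h0 h1
    have := x_lip e h t 1 h0 h1 le_rfl
    rw [x_one, abs_sub_comm] at this
    nlinarith
  have x_deriv : ∀ e t, 0 < t → t < 1 → t ≠ 1 / 2 →
      HasDerivAt (xx δ S e) (δ ^ 2 * uu S e t) t := by
    intro e t h0 h1 h2
    unfold xx uu
    exact (((hasDerivAt_Ups hS h0 h1 h2).add
      ((hasDerivAt_Fp (p := S.p) h0 h2).const_mul e)).const_mul (δ ^ 2)).const_add 3
  have u_bd : ∀ e, (e = 1 ∨ e = -1) → ∀ t, 0 ≤ t → t ≤ 1 →
      -5 ≤ uu S e t ∧ uu S e t ≤ -(1 / 20) := by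
    intro e h t h0 h1
    have h2 := U_bd hS h0 h1
    have h3 : |e * fp S.p t| ≤ 101 / 1000 := by
      rw [abs_mul, he e h, one_mul]
      exact fp_bd hS.pb t
    rw [abs_le] at h3
    unfold uu
    constructor <;> linarith
  have u_ctL : ∀ e, ContinuousOn (uu S e) (Ico 0 (1 / 2)) := by
    intro e
    unfold uu
    have h1 := U_ctL hS
    have h2 : ContinuousOn (fp S.p) (Ico 0 (1 / 2)) := by
      have h3 : ContinuousOn (fL S.p) (Ico 0 (1 / 2)) := by
        unfold fL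
        have := fL0_cont
        fun_prop
      apply h3.congr
      intro t ht
      unfold fp
      rw [if_pos ht.2]
    fun_prop
  have u_ctR : ∀ e, ContinuousOn (uu S e) (Icc (1 / 2) 1) := by
    intro e
    unfold uu
    have h1 := U_ctR hS
    have h2 : ContinuousOn (fp S.p) (Icc (1 / 2) 1) := by
      apply (continuousOn_const (c := -bb)).congr
      intro t ht
      unfold fp
      rw [if_neg (not_lt.2 ht.1)]
    fun_prop
  -- a general bound
  have P_gen : ∀ e, (e = 1 ∨ e = -1) → ∀ s, 0 ≤ s → s ≤ 1 → ∀ a : ℝ, |a| ≤ 8 →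
      299 / 100 ≤ xx δ S e s - e * δ ^ 3 * a ∧ xx δ S e s - e * δ ^ 3 * a ≤ 301 / 100 := by
    intro e h s h0 h1 a ha
    have h2 := x_bd e h s h0 h1
    have h3 : |e * δ ^ 3 * a| ≤ 1 / 1000000 * 8 := by
      rw [abs_mul, abs_mul, he e h, one_mul, abs_of_pos hd3']
      exact mul_le_mul hd3 ha (abs_nonneg _) (by norm_num)
    rw [abs_le] at h2 h3
    constructor <;> linarith
  have P0_bd : ∀ e, (e = 1 ∨ e = -1) → ∀ s t, 0 ≤ s → s ≤ 1 →
      2 ≤ P0 δ S e s t ∧ P0 δ S e s t ≤ 4 := by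
    intro e h s t h0 h1
    have := P_gen e h s h0 h1 (da S t) (A.da_bd t)
    unfold P0
    constructor <;> linarith [this.1, this.2]
  have P1_bd : ∀ e, (e = 1 ∨ e = -1) → ∀ s t, 0 ≤ s → s ≤ 1 →
      2 ≤ P1 δ S e s t ∧ P1 δ S e s t ≤ 4 := by
    intro e h s t h0 h1
    have := P_gen e h s h0 h1 (dd S s t) (A.dd_bd s t)
    unfold P1
    constructor <;> linarith [this.1, this.2]
  have P2_bd : ∀ e, (e = 1 ∨ e = -1) → ∀ s t, 0 ≤ s → s ≤ 1 →
      2 ≤ P2 δ S e s t ∧ P2 δ S e s t ≤ 4 := by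
    intro e h s t h0 h1
    have := P_gen e h s h0 h1 (dd S s (-t)) (A.dd_bd s (-t))
    unfold P2
    constructor <;> linarith [this.1, this.2]
  have GG_sq : ∀ e, (e = 1 ∨ e = -1) → ∀ s t, 0 ≤ s → s ≤ 1 →
      GG δ S e s t ^ 2 = P1 δ S e s t * P2 δ S e s t := by
    intro e h s t h0 h1
    have h2 := P1_bd e h s t h0 h1
    have h3 := P2_bd e h s t h0 h1
    unfold GG
    rw [Real.sq_sqrt]
    exact mul_nonneg (by linarith) (by linarith)
  have GG_bd : ∀ e, (e = 1 ∨ e = -1) → ∀ s t, 0 ≤ s → s ≤ 1 →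
      2 ≤ GG δ S e s t ∧ GG δ S e s t ≤ 4 := by
    intro e h s t h0 h1
    have h2 := P1_bd e h s t h0 h1
    have h3 := P2_bd e h s t h0 h1
    unfold GG
    constructor
    · apply Real.le_sqrt_of_sq_le
      nlinarith
    · rw [Real.sqrt_le_left (by norm_num)]
      nlinarith
  have GG_id : ∀ e, (e = 1 ∨ e = -1) → ∀ s t, 0 ≤ s → s ≤ 1 →
      (s * xx δ S e s - e * (δ ^ 3 * al S s)) ^ 2 - (t * xx δ S e s - e * (δ ^ 3 * al S t)) ^ 2
        = (s ^ 2 - t ^ 2) * GG δ S e s t ^ 2 := by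
    intro e h s t h0 h1
    rw [GG_sq e h s t h0 h1]
    unfold P1 P2
    have h2 := A.dd_mul s t
    have h3 := A.dd_mul s (-t)
    rw [A.al_odd] at h3
    have h4 : (s - t) * (xx δ S e s - e * δ ^ 3 * dd S s t) =
        (s * xx δ S e s - e * (δ ^ 3 * al S s)) - (t * xx δ S e s - e * (δ ^ 3 * al S t)) := by
      have : (s - t) * (xx δ S e s - e * δ ^ 3 * dd S s t) =
        (s - t) * xx δ S e s - e * δ ^ 3 * (dd S s t * (s - t)) := by ring
      rw [this, h2]
      ring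
    have h5 : (s + t) * (xx δ S e s - e * δ ^ 3 * dd S s (-t)) =
        (s * xx δ S e s - e * (δ ^ 3 * al S s)) + (t * xx δ S e s - e * (δ ^ 3 * al S t)) := by
      have : (s + t) * (xx δ S e s - e * δ ^ 3 * dd S s (-t)) =
        (s + t) * xx δ S e s - e * δ ^ 3 * (dd S s (-t) * (s - -t)) := by ring
      rw [this, h3]
      ring
    calc _ = ((s * xx δ S e s - e * (δ ^ 3 * al S s)) -
          (t * xx δ S e s - e * (δ ^ 3 * al S t))) *
        ((s * xx δ S e s - e * (δ ^ 3 * al S s)) + (t * xx δ S e s - e * (δ ^ 3 * al S t))) := by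
          ring
      _ = _ := by
        rw [← h4, ← h5]
        ring
  have kap_deriv : ∀ e, (e = 1 ∨ e = -1) → ∀ s t, 0 ≤ s → s ≤ 1 →
      HasDerivAt (fun t => kap δ S e s t) (kk δ S e s t) t := by
    intro e h s t h0 h1
    have b0 := P0_bd e h s t h0 h1
    have b1 := P1_bd e h s t h0 h1
    have b2 := P2_bd e h s t h0 h1
    have bG := GG_bd e h s t h0 h1
    have d0 : HasDerivAt (fun t => P0 δ S e s t) (-(e * δ ^ 3 * S.g t)) t := by
      unfold P0
      exact ((A.da_deriv t).const_mul (e * δ ^ 3)).const_sub _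
    have d1 : HasDerivAt (fun t => P1 δ S e s t) (-(e * δ ^ 3 * Gm S s t)) t := by
      unfold P1
      exact ((A.dd_deriv s t).const_mul (e * δ ^ 3)).const_sub _
    have d2 : HasDerivAt (fun t => P2 δ S e s t) (-(e * δ ^ 3 * (Gm S s (-t) * -1))) t := by
      unfold P2
      have h3 : HasDerivAt (fun t => dd S s (-t)) (Gm S s (-t) * -1) t :=
        HasDerivAt.comp t (h₂ := fun b => dd S s b) (h := fun t : ℝ => -t) (A.dd_deriv s (-t))
          (hasDerivAt_neg' t)
      exact (h3.const_mul (e * δ ^ 3)).const_sub _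
    have dG : HasDerivAt (fun t => GG δ S e s t)
        ((-(e * δ ^ 3 * Gm S s t) * P2 δ S e s t +
          P1 δ S e s t * -(e * δ ^ 3 * (Gm S s (-t) * -1))) / (2 * √(P1 δ S e s t * P2 δ S e s t)))
        t := by
      unfold GG
      apply HasDerivAt.sqrt (d1.mul d2)
      have : 0 < P1 δ S e s t * P2 δ S e s t := mul_pos (by linarith) (by linarith)
      exact this.ne'
    have nG : GG δ S e s t ≠ 0 := by linarith
    have dk : HasDerivAt (fun t => kap δ S e s t) _ t := d0.div dG nG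
    refine dk.congr_deriv ?_
    rw [show √(P1 δ S e s t * P2 δ S e s t) = GG δ S e s t from rfl]
    unfold kk kap
    have n0 : P0 δ S e s t ≠ 0 := by linarith
    have n1 : P1 δ S e s t ≠ 0 := by linarith
    have n2 : P2 δ S e s t ≠ 0 := by linarith
    have hsq := GG_sq e h s t h0 h1
    set g := GG δ S e s t with hg
    set a := P0 δ S e s t with ha
    set b := P1 δ S e s t with hb
    set c := P2 δ S e s t with hc
    have hg3 : g ^ 3 = g * (b * c) := by rw [← hsq]; ring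
    field_simp
    rw [hsq]
    ring
  have da_cont : Continuous (da S) :=
    continuous_iff_continuousAt.2 fun t => (A.da_deriv t).continuousAt
  have ab_cont : Continuous (ab S) := by
    have : LipschitzWith 12 (ab S) := by
      apply LipschitzWith.of_dist_le_mul
      intro s t
      rw [Real.dist_eq, Real.dist_eq]
      have := A.ab_lip t s
      exact this
    exact this.continuous
  have kk_cont : ∀ e, (e = 1 ∨ e = -1) →
      ContinuousOn (fun z : ℝ × ℝ => kk δ S e z.1 z.2) (Icc 0 1 ×ˢ univ) := by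
    intro e h
    have cx : ContinuousOn (fun z : ℝ × ℝ => xx δ S e z.1) (Icc 0 1 ×ˢ univ) :=
      (x_cont e).comp continuous_fst.continuousOn fun z hz => hz.1
    have c0 : ContinuousOn (fun z : ℝ × ℝ => P0 δ S e z.1 z.2) (Icc 0 1 ×ˢ univ) := by
      unfold P0
      have h1 : Continuous (fun z : ℝ × ℝ => da S z.2) := da_cont.comp continuous_snd
      fun_prop
    have c1 : ContinuousOn (fun z : ℝ × ℝ => P1 δ S e z.1 z.2) (Icc 0 1 ×ˢ univ) := by
      unfold P1
      have h1 := A.dd_cont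
      fun_prop
    have c2 : ContinuousOn (fun z : ℝ × ℝ => P2 δ S e z.1 z.2) (Icc 0 1 ×ˢ univ) := by
      unfold P2
      have h1 : Continuous (fun z : ℝ × ℝ => dd S z.1 (-z.2)) :=
        A.dd_cont.comp (g := fun z : ℝ × ℝ => dd S z.1 z.2) (f := fun z : ℝ × ℝ => (z.1, -z.2))
          (by fun_prop)
      exact cx.sub (continuousOn_const.mul h1.continuousOn)
    have cG : ContinuousOn (fun z : ℝ × ℝ => GG δ S e z.1 z.2) (Icc 0 1 ×ˢ univ) := by
      unfold GG
      fun_prop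
    have n0 : ∀ z ∈ (Icc (0 : ℝ) 1 ×ˢ (univ : Set ℝ)), P0 δ S e z.1 z.2 ≠ 0 := by
      intro z hz
      have := (P0_bd e h z.1 z.2 hz.1.1 hz.1.2).1
      linarith
    have n1 : ∀ z ∈ (Icc (0 : ℝ) 1 ×ˢ (univ : Set ℝ)), 2 * P1 δ S e z.1 z.2 ≠ 0 := by
      intro z hz
      have := (P1_bd e h z.1 z.2 hz.1.1 hz.1.2).1
      linarith
    have n2 : ∀ z ∈ (Icc (0 : ℝ) 1 ×ˢ (univ : Set ℝ)), 2 * P2 δ S e z.1 z.2 ≠ 0 := by
      intro z hz
      have := (P2_bd e h z.1 z.2 hz.1.1 hz.1.2).1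
      linarith
    have nG : ∀ z ∈ (Icc (0 : ℝ) 1 ×ˢ (univ : Set ℝ)), GG δ S e z.1 z.2 ≠ 0 := by
      intro z hz
      have := (GG_bd e h z.1 z.2 hz.1.1 hz.1.2).1
      linarith
    have cg : Continuous (fun z : ℝ × ℝ => S.g z.2) := hS.gC.comp continuous_snd
    have cm : Continuous (fun z : ℝ × ℝ => Gm S z.1 z.2) := A.Gm_cont
    have cm' : Continuous (fun z : ℝ × ℝ => Gm S z.1 (-z.2)) :=
      A.Gm_cont.comp (g := fun z : ℝ × ℝ => Gm S z.1 z.2) (f := fun z : ℝ × ℝ => (z.1, -z.2))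
        (by fun_prop)
    unfold kk kap
    exact ((c0.div cG nG).mul continuousOn_const).mul
      (((cg.neg.continuousOn.div c0 n0).add
        (cm.continuousOn.div (continuousOn_const.mul c1) n1)).sub
        (cm'.continuousOn.div (continuousOn_const.mul c2) n2))
  have nn_bd : ∀ e, (e = 1 ∨ e = -1) → ∀ t, 0 ≤ t → t ≤ 1 → 0 ≤ nn δ S e t ∧ nn δ S e t ≤ 20 := by
    intro e h t h0 h1
    have h2 := P_gen e h t h0 h1 (ab S t) (A.ab_bd t)
    have h3 := P_gen e h t h0 h1 (da S t) (A.da_bd t)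
    have h4 := u_bd e h t h0 h1
    have h5 : 0 ≤ ZZ δ S e t := Real.sqrt_nonneg _
    have h6 : ZZ δ S e t ≤ 4 := by
      unfold ZZ
      rw [Real.sqrt_le_left (by norm_num)]
      have h7 : 0 ≤ t * δ ^ 2 * -uu S e t := by
        apply mul_nonneg (by positivity)
        linarith
      have h8 : t * δ ^ 2 * -uu S e t ≤ 1 * (1 / 10000) * 5 := by
        apply mul_le_mul _ (by linarith) (by linarith) (by positivity)
        exact mul_le_mul h1 hd2 hd2'.le (by norm_num)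
      have h9 : uu S e t ^ 2 ≤ 25 := by nlinarith
      have h10 : δ ^ 2 * uu S e t ^ 2 ≤ 1 / 10000 * 25 :=
        mul_le_mul hd2 h9 (sq_nonneg _) (by norm_num)
      have h11 : xx δ S e t + t * δ ^ 2 * uu S e t - e * δ ^ 3 * da S t ≤ 301 / 100 := by
        linarith [h3.2]
      have h12 : 0 ≤ xx δ S e t + t * δ ^ 2 * uu S e t - e * δ ^ 3 * da S t := by
        linarith [h3.1]
      nlinarith
    unfold nn
    constructor
    · apply mul_nonneg _ h5
      linarith [h2.1]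
    · have : (xx δ S e t - e * δ ^ 3 * ab S t) * ZZ δ S e t ≤ 301 / 100 * 4 :=
        mul_le_mul h2.2 h6 h5 (by norm_num)
      linarith
  have nn_ct : ∀ e (J : Set ℝ), J ⊆ Icc 0 1 → ContinuousOn (uu S e) J →
      ContinuousOn (nn δ S e) J := by
    intro e J hJ hu
    have hx := (x_cont e).mono hJ
    unfold nn ZZ
    fun_prop
  have nn_ctL : ∀ e, (e = 1 ∨ e = -1) → ContinuousOn (nn δ S e) (Ico 0 (1 / 2)) := by
    intro e _
    apply nn_ct e _ _ (u_ctL e)
    intro t ht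
    exact ⟨ht.1, by linarith [ht.2]⟩
  have nn_ctR : ∀ e, (e = 1 ∨ e = -1) → ContinuousOn (nn δ S e) (Icc (1 / 2) 1) := by
    intro e _
    apply nn_ct e _ _ (u_ctR e)
    intro t ht
    exact ⟨by linarith [ht.1], ht.2⟩
  have wr_lb : ∀ e, (e = 1 ∨ e = -1) → ∀ t r, 0 ≤ t → t ≤ 1 → 3 ≤ r → r ≤ Rh δ →
      r * ((r - 3) + 2 * (1 - t)) ≤ r ^ 2 - yr δ S e t r ^ 2 := by
    intro e h t r h0 h1 h3 hr
    have x0 : 0 ≤ xr δ r ∧ xr δ r ≤ 3 := by
      unfold xr
      unfold Rh at hr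
      have h4 : δ * (r - 3) ≤ 4 := by
        have h5 : r - 3 ≤ 4 / δ := by linarith
        calc δ * (r - 3) ≤ δ * (4 / δ) := mul_le_mul_of_nonneg_left h5 hδ.le
          _ = 4 := by field_simp
      have h6 : 0 ≤ δ * (r - 3) := mul_nonneg hδ.le (by linarith)
      constructor <;> linarith
    have a1 : |al S t| ≤ 4 * (1 - t) := by
      refine (A.al_le t h0 h1).trans ?_
      have h4 : √(1 - t) ≤ 1 := by
        rw [Real.sqrt_le_left (by norm_num)]
        linarith
      have h5 : (1 - t) ^ 2 ≤ 1 - t := by nlinarith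
      have h6 : (1 - t) ^ 2 * √(1 - t) ≤ (1 - t) * 1 :=
        mul_le_mul h5 h4 (Real.sqrt_nonneg _) (by linarith)
      linarith
    have a2 : |e * δ ^ 3 * al S t| ≤ 1 / 1000000 * (4 * (1 - t)) := by
      rw [abs_mul, abs_mul, he e h, one_mul, abs_of_pos hd3']
      exact mul_le_mul hd3 a1 (abs_nonneg _) (by norm_num)
    have hy : |yr δ S e t r| ≤ 3 * t + (1 - t) := by
      unfold yr
      refine (abs_sub _ _).trans ?_
      have h4 : |t * xr δ r| ≤ 3 * t := by
        rw [abs_of_nonneg (mul_nonneg h0 x0.1)]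
        nlinarith [x0.2]
      linarith
    have hy2 : yr δ S e t r ^ 2 = |yr δ S e t r| ^ 2 := (sq_abs _).symm
    rw [hy2]
    have h4 : 0 ≤ |yr δ S e t r| := abs_nonneg _
    have h5 : (r - 3) + 2 * (1 - t) ≤ r - |yr δ S e t r| := by linarith
    have h6 : 0 ≤ (r - 3) + 2 * (1 - t) := by linarith
    calc r * ((r - 3) + 2 * (1 - t)) ≤ (r + |yr δ S e t r|) * (r - |yr δ S e t r|) :=
          mul_le_mul (by linarith) h5 h6 (by linarith)
      _ = r ^ 2 - |yr δ S e t r| ^ 2 := by ring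
  exact ⟨x_one, x_cont, x_bd, x_lip, x_deriv, u_bd, u_ctL, u_ctR, P0_bd, P1_bd, P2_bd, GG_bd,
    GG_sq, GG_id, kap_deriv, kk_cont, nn_bd, nn_ctL, nn_ctR, wr_lb⟩

end Pool.Agent.HV
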