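import Pool.Agent.HV.Stmts

/-!
# Fixed points in the ball (§4.12, MP_678b51_gt)

Mathematics: helper76; formalisation: helper65.  A state is turned into a bounded continuous function
`[0,1] → ℝ⁴`; the ball becomes a compact convex set and Schauder's theorem applies.
-/

set_option autoImplicit false

open MeasureTheory Set Filter
open scoped Real Topology ENNReal BoundedContinuousFunction

namespace Pool.Agent.HV

namespace FIXaux

/-- `[0,1]` -/
abbrev I01 : Type := Icc (0 : ℝ) 1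

/-- `ℝ⁴` -/
abbrev R4 : Type := ℝ × ℝ × ℝ × ℝ

/-- projection to `[0,1]` -/
noncomputable def pj (t : ℝ) : I01 := projIcc 0 1 zero_le_one t

theorem pj_of {t : ℝ} (h0 : 0 ≤ t) (h1 : t ≤ 1) : (pj t : ℝ) = t := by
  simp [pj, projIcc, h0, h1]

theorem pj_coe (t : I01) : pj t = t := projIcc_val _ t

theorem pj_of_ge {t : ℝ} (h1 : 1 ≤ t) : (pj t : ℝ) = 1 := by
  simp [pj, projIcc, h1]

theorem pj_cont : Continuous pj := continuous_projIcc (h := zero_le_one)

/-- the state of a function -/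
noncomputable def st (f : I01 → R4) : St where
  UL := fun t => (f (pj t)).1
  UR := fun t => (f (pj t)).2.1
  g := oddext fun t => (f (pj t)).2.2.1
  p := (f (pj 0)).2.2.2

/-- the function of a state -/
noncomputable def em (S : St) (t : I01) : R4 :=
  (S.UL (min t (1 / 2)), S.UR (max t (1 / 2)), S.g t, S.p)

/-- agreement of two states on the relevant sets -/
def Agr (S S' : St) : Prop :=
  (∀ t, 0 ≤ t → t ≤ 1 / 2 → S.UL t = S'.UL t) ∧ (∀ t, 1 / 2 ≤ t → t ≤ 1 → S.UR t = S'.UR t) ∧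
    (∀ t, S.g t = S'.g t) ∧ S.p = S'.p

theorem em_congr {S S' : St} (h : Agr S S') : em S = em S' := by
  funext t
  obtain ⟨h1, h2, h3, h4⟩ := h
  have ht0 := t.2.1
  have ht1 := t.2.2
  unfold em
  rw [h1 _ (le_min ht0 (by norm_num)) (min_le_right _ _),
    h2 _ (le_max_right _ _) (max_le ht1 (by norm_num)), h3, h4]

theorem ball_congr {K₁ K₂ K₃ δ : ℝ} {S S' : St} (h : Agr S S') (hb : Ball K₁ K₂ K₃ δ S) :
    Ball K₁ K₂ K₃ δ S' := by
  obtain ⟨h1, h2, h3, h4⟩ := h
  have h3' : S.g = S'.g := funext h3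
  refine ⟨⟨?_, ?_, ?_, ?_⟩, ?_, ?_, ?_, ?_, ?_, ?_⟩
  · rw [← h3']; exact hb.gC
  · rw [← h3']; exact hb.godd
  · rw [← h3']; exact hb.gz
  · rw [← h3']; exact hb.gmom
  · rw [← h3']; exact hb.ginc
  · rw [← h4]; exact hb.pb
  · intro t a b; rw [← h1 t a b]; exact hb.ULb t a b
  · intro t a b; rw [← h2 t a b]; exact hb.URb t a b
  · intro a b h0 hab hb1
    rw [← h1 b (h0.trans hab) hb1, ← h1 a h0 (hab.trans hb1)]
    exact hb.ULi a b h0 hab hb1
  · intro a b h0 hab hb1
    rw [← h2 b (h0.trans hab) hb1, ← h2 a h0 (hab.trans hb1)]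
    exact hb.URi a b h0 hab hb1

theorem base_g0 {S : St} (hb : Base S) : S.g 0 = 0 := by
  have := hb.godd 0
  rw [neg_zero] at this
  linarith

/-- `st (em S)` agrees with `S` -/
theorem st_em {S : St} (hb : Base S) : Agr (st (em S)) S := by
  refine ⟨?_, ?_, ?_, ?_⟩
  · intro t h0 h1
    show S.UL (min (pj t : ℝ) (1 / 2)) = S.UL t
    rw [pj_of h0 (by linarith), min_eq_left h1]
  · intro t h0 h1
    show S.UR (max (pj t : ℝ) (1 / 2)) = S.UR t
    rw [pj_of (by linarith) h1, max_eq_left h0]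
  · intro t
    have hpos : ∀ t : ℝ, 0 ≤ t → S.g (pj t) = S.g t := by
      intro t ht
      rcases le_total t 1 with h1 | h1
      · rw [pj_of ht h1]
      · rw [pj_of_ge h1, hb.gz 1 le_rfl, hb.gz t h1]
    show oddext (fun t => S.g (pj t)) t = S.g t
    unfold oddext
    split_ifs with h
    · exact hpos t h
    · show -(S.g (pj (-t))) = S.g t
      rw [hpos (-t) (by linarith [not_le.1 h]), hb.godd, neg_neg]
  · rfl

theorem Agr.symm {S S' : St} (h : Agr S S') : Agr S' S :=
  ⟨fun t a b => (h.1 t a b).symm, fun t a b => (h.2.1 t a b).symm, fun t => (h.2.2.1 t).symm,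
    h.2.2.2.symm⟩

/-- continuity from control of increments -/
theorem contOn_of_inc {h h0 w : ℝ → ℝ} {l r B : ℝ} (hw : ContinuousOn w (Icc l r))
    (hh0 : ContinuousOn h0 (Icc l r))
    (hi : ∀ a b, l ≤ a → a ≤ b → b ≤ r → |(h b - h0 b) - (h a - h0 a)| ≤ B * (w b - w a)) :
    ContinuousOn h (Icc l r) := by
  have hk : ContinuousOn (fun x => h x - h0 x) (Icc l r) := by
    intro x hx
    have hz : Tendsto (fun y => |B * (w y - w x)|) (𝓝[Icc l r] x) (𝓝 0) := by
      have h1 : Tendsto (fun y => |B * (w y - w x)|) (𝓝[Icc l r] x) (𝓝 |B * (w x - w x)|) :=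
        (((hw x hx).tendsto.sub_const (w x)).const_mul B).abs
      simpa using h1
    have : Tendsto (fun y => (h y - h0 y) - (h x - h0 x)) (𝓝[Icc l r] x) (𝓝 0) := by
      refine squeeze_zero_norm' ?_ hz
      filter_upwards [self_mem_nhdsWithin] with y hy
      rw [Real.norm_eq_abs]
      rcases le_total x y with hxy | hxy
      · exact (hi x y hx.1 hxy hy.2).trans (le_abs_self _)
      · have := hi y x hy.1 hxy hx.2
        rw [abs_sub_comm] at this
        refine this.trans ?_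
        rw [← abs_neg (B * (w y - w x))]
        refine le_trans (le_of_eq ?_) (le_abs_self _)
        ring
    have h2 := this.add_const (h x - h0 x)
    simpa [ContinuousWithinAt] using h2
  have h3 := hk.add hh0
  refine h3.congr fun x _ => ?_
  simp

theorem inc_abs {h h0 w : ℝ → ℝ} {l r B : ℝ}
    (hi : ∀ a b, l ≤ a → a ≤ b → b ≤ r → |(h b - h0 b) - (h a - h0 a)| ≤ B * (w b - w a))
    {x y : ℝ} (hx : x ∈ Icc l r) (hy : y ∈ Icc l r) :
    |h x - h y| ≤ |h0 y - h0 x| + |B * (w y - w x)| := by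
  have h1 : |(h y - h0 y) - (h x - h0 x)| ≤ |B * (w y - w x)| := by
    rcases le_total x y with hxy | hxy
    · exact (hi x y hx.1 hxy hy.2).trans (le_abs_self _)
    · have := hi y x hy.1 hxy hx.2
      rw [abs_sub_comm] at this
      refine this.trans ?_
      rw [← abs_neg (B * (w y - w x))]
      refine le_trans (le_of_eq ?_) (le_abs_self _)
      ring
  have h2 : h x - h y = -((h y - h0 y) - (h x - h0 x)) - (h0 y - h0 x) := by ring
  rw [h2]
  refine (abs_sub _ _).trans ?_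
  rw [abs_neg]
  linarith

theorem Om_cont : Continuous Om := by
  unfold Om
  fun_prop

theorem fL0_pos {t : ℝ} (h1 : t ≤ 1 / 2) : 0 < fL0 t := by
  unfold fL0 bb
  have : √(t / 2) ≤ 1 / 2 := by
    rw [Real.sqrt_le_left (by norm_num)]
    linarith
  nlinarith

theorem UL0_cont : ContinuousOn UL0 (Icc 0 (1 / 2)) := by
  have h1 : Continuous FL0 := by unfold FL0; fun_prop
  have h2 : Continuous fL0 := by unfold fL0; fun_prop
  have h3 : ContinuousOn (fun t => FL0 t / fL0 t) (Icc 0 (1 / 2)) :=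
    h1.continuousOn.div h2.continuousOn fun t ht => (fL0_pos ht.2).ne'
  unfold UL0
  exact (continuousOn_const.mul h3).sub (continuousOn_const.mul continuousOn_id)

theorem UR0_cont : ContinuousOn UR0 (Icc (1 / 2) 1) := by
  unfold UR0
  fun_prop

section

variable {K₁ K₂ K₃ δ : ℝ}

theorem g0_cont (h0 : S_B0) : Continuous g0 :=
  (h0.1 0 0 0 0 le_rfl le_rfl le_rfl le_rfl).gC

theorem em_cont {S : St} (hb : Ball K₁ K₂ K₃ δ S) : Continuous (em S) := by
  have h1 : ContinuousOn S.UL (Icc 0 (1 / 2)) :=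
    contOn_of_inc Real.continuous_sqrt.continuousOn UL0_cont hb.ULi
  have h2 : ContinuousOn S.UR (Icc (1 / 2) 1) :=
    contOn_of_inc Real.continuous_sqrt.continuousOn UR0_cont hb.URi
  unfold em
  refine Continuous.prodMk ?_ (Continuous.prodMk ?_ (Continuous.prodMk ?_ continuous_const))
  · refine h1.comp_continuous (by fun_prop) fun t => ?_
    exact ⟨le_min t.2.1 (by norm_num), min_le_right _ _⟩
  · refine h2.comp_continuous (by fun_prop) fun t => ?_
    exact ⟨le_max_right _ _, max_le t.2.2 (by norm_num)⟩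
  · exact hb.gC.comp continuous_subtype_val

open Classical in
/-- the bounded continuous function of a state -/
noncomputable def emb (S : St) : I01 →ᵇ R4 :=
  if h : Continuous (em S) then BoundedContinuousFunction.mkOfCompact ⟨em S, h⟩ else 0

theorem emb_coe {S : St} (hb : Ball K₁ K₂ K₃ δ S) : ⇑(emb S) = em S := by
  unfold emb
  rw [dif_pos (em_cont hb)]
  rfl

/-- the compact convex set -/
def KS (K₁ K₂ K₃ δ : ℝ) : Set (I01 →ᵇ R4) := {f | Ball K₁ K₂ K₃ δ (st f) ∧ ⇑f = em (st f)}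

theorem emb_mem {S : St} (hb : Ball K₁ K₂ K₃ δ S) : emb S ∈ KS K₁ K₂ K₃ δ := by
  have h1 : Agr (st (em S)) S := st_em hb.toBase
  refine ⟨?_, ?_⟩
  · rw [emb_coe hb]
    exact ball_congr h1.symm hb
  · rw [emb_coe hb]
    exact (em_congr h1).symm

/-- convex combinations of states -/
theorem ball_convex {S S₁ S₂ : St} {a b : ℝ} (ha : 0 ≤ a) (hb : 0 ≤ b) (hab : a + b = 1)
    (h1 : Ball K₁ K₂ K₃ δ S₁) (h2 : Ball K₁ K₂ K₃ δ S₂)
    (hUL : ∀ t, S.UL t = a * S₁.UL t + b * S₂.UL t) (hUR : ∀ t, S.UR t = a * S₁.UR t + b * S₂.UR t)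
    (hg : ∀ t, S.g t = a * S₁.g t + b * S₂.g t) (hp : S.p = a * S₁.p + b * S₂.p) :
    Ball K₁ K₂ K₃ δ S := by
  have key : ∀ {x y z r : ℝ}, |x| ≤ r → |y| ≤ r → z = a * x + b * y → |z| ≤ r := by
    intro x y z r hx hy hz
    rw [hz]
    calc |a * x + b * y| ≤ |a * x| + |b * y| := abs_add_le _ _
      _ = a * |x| + b * |y| := by rw [abs_mul, abs_mul, abs_of_nonneg ha, abs_of_nonneg hb]
      _ ≤ a * r + b * r := add_le_add (mul_le_mul_of_nonneg_left hx ha)
          (mul_le_mul_of_nonneg_left hy hb)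
      _ = r := by rw [← add_mul, hab, one_mul]
  have hb' : b = 1 - a := by linarith
  have hgf : S.g = fun t => a * S₁.g t + b * S₂.g t := funext hg
  refine ⟨⟨?_, ?_, ?_, ?_⟩, ?_, ?_, ?_, ?_, ?_, ?_⟩
  · rw [hgf]
    exact (continuous_const.mul h1.gC).add (continuous_const.mul h2.gC)
  · intro t
    rw [hg, hg, h1.godd, h2.godd]
    ring
  · intro t ht
    rw [hg, h1.gz t ht, h2.gz t ht]
    ring
  · have e : ∀ t, t * S.g t = a * (t * S₁.g t) + b * (t * S₂.g t) := by
      intro t; rw [hg]; ring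
    simp_rw [e]
    rw [intervalIntegral.integral_add, intervalIntegral.integral_const_mul,
      intervalIntegral.integral_const_mul, h1.gmom, h2.gmom]
    · ring
    · exact (continuous_const.mul (continuous_id.mul h1.gC)).intervalIntegrable _ _
    · exact (continuous_const.mul (continuous_id.mul h2.gC)).intervalIntegrable _ _
  · intro x y h0 hxy hy1
    refine key (h1.ginc x y h0 hxy hy1) (h2.ginc x y h0 hxy hy1) ?_
    rw [hg, hg, hb']; ring
  · exact key h1.pb h2.pb hp
  · intro t t0 t1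
    refine key (h1.ULb t t0 t1) (h2.ULb t t0 t1) ?_
    rw [hUL, hb']; ring
  · intro t t0 t1
    refine key (h1.URb t t0 t1) (h2.URb t t0 t1) ?_
    rw [hUR, hb']; ring
  · intro x y h0 hxy hy1
    refine key (h1.ULi x y h0 hxy hy1) (h2.ULi x y h0 hxy hy1) ?_
    rw [hUL, hUL, hb']; ring
  · intro x y h0 hxy hy1
    refine key (h1.URi x y h0 hxy hy1) (h2.URi x y h0 hxy hy1) ?_
    rw [hUR, hUR, hb']; ring

theorem KS_convex : Convex ℝ (KS K₁ K₂ K₃ δ) := by
  intro f hf g hg a b ha hb hab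
  have hst : Ball K₁ K₂ K₃ δ (st (a • f + b • g)) := by
    refine ball_convex ha hb hab hf.1 hg.1 ?_ ?_ ?_ ?_
    · intro t; rfl
    · intro t; rfl
    · intro t
      show oddext (fun t => ((a • f + b • g) (pj t)).2.2.1) t =
        a * oddext (fun t => (f (pj t)).2.2.1) t + b * oddext (fun t => (g (pj t)).2.2.1) t
      unfold oddext
      split_ifs with h
      · rfl
      · show -(a * (f (pj (-t))).2.2.1 + b * (g (pj (-t))).2.2.1) =
          a * -(f (pj (-t))).2.2.1 + b * -(g (pj (-t))).2.2.1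
        ring
    · rfl
  refine ⟨hst, ?_⟩
  funext t
  have e1 := congrFun hf.2 t
  have e2 := congrFun hg.2 t
  have e3 : (a • f + b • g) t = a • f t + b • g t := rfl
  rw [e3, e1, e2]
  have ho : oddext (fun t => ((a • f + b • g) (pj t)).2.2.1) t =
      a * oddext (fun t => (f (pj t)).2.2.1) t + b * oddext (fun t => (g (pj t)).2.2.1) t := by
    unfold oddext
    rw [if_pos t.2.1, if_pos t.2.1, if_pos t.2.1]
    rfl
  unfold em
  refine Prod.ext rfl (Prod.ext rfl (Prod.ext ?_ rfl))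
  exact ho.symm

/-- convergence of states along a convergent sequence of functions -/
theorem conv_st {fn : ℕ → I01 →ᵇ R4} {f : I01 →ᵇ R4} (h : Tendsto fn atTop (𝓝 f)) :
    Conv (fun n => st (fn n)) (st f) := by
  have hp : ∀ t, Tendsto (fun n => fn n t) atTop (𝓝 (f t)) := fun t =>
    (((continuous_apply t).comp BoundedContinuousFunction.continuous_coe).tendsto f).comp h
  refine ⟨?_, ?_, ?_, ?_⟩
  · intro t _ _
    exact (continuous_fst.tendsto _).comp (hp (pj t))
  · intro t _ _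
    exact ((continuous_fst.comp continuous_snd).tendsto _).comp (hp (pj t))
  · intro t
    have hq : ∀ t, Tendsto (fun n => (fn n (pj t)).2.2.1) atTop (𝓝 (f (pj t)).2.2.1) := fun t =>
      ((continuous_fst.comp (continuous_snd.comp continuous_snd)).tendsto _).comp (hp (pj t))
    show Tendsto (fun n => oddext (fun t => (fn n (pj t)).2.2.1) t) atTop
      (𝓝 (oddext (fun t => (f (pj t)).2.2.1) t))
    unfold oddext
    split_ifs with h
    · exact hq t
    · exact (hq (-t)).neg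
  · exact ((continuous_snd.comp (continuous_snd.comp continuous_snd)).tendsto _).comp (hp (pj 0))

/-- the ball is closed under pointwise convergence -/
theorem ball_closed {Sn : ℕ → St} {S : St} (hg0 : Continuous g0)
    (hn : ∀ n, Ball K₁ K₂ K₃ δ (Sn n)) (hc : Conv Sn S) (hC : Continuous S.g) :
    Ball K₁ K₂ K₃ δ S := by
  have key : ∀ {x : ℕ → ℝ} {y r : ℝ}, Tendsto x atTop (𝓝 y) → (∀ n, |x n| ≤ r) → |y| ≤ r :=
    fun hx hr => le_of_tendsto' hx.abs hr
  refine ⟨⟨hC, ?_, ?_, ?_⟩, ?_, ?_, ?_, ?_, ?_, ?_⟩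
  · intro t
    refine tendsto_nhds_unique (hc.2.2.1 (-t)) ?_
    simp_rw [(hn _).godd]
    exact (hc.2.2.1 t).neg
  · intro t ht
    refine tendsto_nhds_unique (hc.2.2.1 t) ?_
    simp_rw [(hn _).gz t ht]
    exact tendsto_const_nhds
  · have hbd : ∀ n t, 0 ≤ t → t ≤ 1 → |(Sn n).g t| ≤ |g0 t - g0 0| + |K₂ * δ * (Om t - Om 0)| := by
      intro n t t0 t1
      have h1 := inc_abs (hn n).ginc (x := 0) (y := t) ⟨le_rfl, zero_le_one⟩ ⟨t0, t1⟩
      rwa [base_g0 (hn n).toBase, zero_sub, abs_neg] at h1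
    have hlim : Tendsto (fun n => ∫ t in (0 : ℝ)..1, t * (Sn n).g t) atTop
        (𝓝 (∫ t in (0 : ℝ)..1, t * S.g t)) := by
      refine intervalIntegral.tendsto_integral_filter_of_dominated_convergence
        (fun t => |g0 t - g0 0| + |K₂ * δ * (Om t - Om 0)|) ?_ ?_ ?_ ?_
      · exact Eventually.of_forall fun n =>
          (continuous_id.mul (hn n).gC).aestronglyMeasurable
      · refine Eventually.of_forall fun n => ae_of_all _ fun t ht => ?_
        rw [uIoc_of_le zero_le_one] at ht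
        rw [Real.norm_eq_abs, abs_mul, abs_of_nonneg ht.1.le]
        exact (mul_le_of_le_one_left (abs_nonneg _) ht.2).trans (hbd n t ht.1.le ht.2)
      · have := Om_cont
        exact Continuous.intervalIntegrable (by fun_prop) _ _
      · exact ae_of_all _ fun t _ => (hc.2.2.1 t).const_mul t
    refine tendsto_nhds_unique hlim ?_
    simp_rw [(hn _).gmom]
    exact tendsto_const_nhds
  · intro a b h0 hab hb1
    exact key (((hc.2.2.1 b).sub_const _).sub ((hc.2.2.1 a).sub_const _))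
      fun n => (hn n).ginc a b h0 hab hb1
  · exact key hc.2.2.2 fun n => (hn n).pb
  · intro t h0 h1
    exact key ((hc.1 t h0 h1).sub_const _) fun n => (hn n).ULb t h0 h1
  · intro t h0 h1
    exact key ((hc.2.1 t h0 h1).sub_const _) fun n => (hn n).URb t h0 h1
  · intro a b h0 hab hb1
    exact key (((hc.1 b (h0.trans hab) hb1).sub_const _).sub
      ((hc.1 a h0 (hab.trans hb1)).sub_const _)) fun n => (hn n).ULi a b h0 hab hb1
  · intro a b h0 hab hb1
    exact key (((hc.2.1 b (h0.trans hab) hb1).sub_const _).sub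
      ((hc.2.1 a h0 (hab.trans hb1)).sub_const _)) fun n => (hn n).URi a b h0 hab hb1

/-- continuity of the odd extension -/
theorem st_g_cont {f : I01 → R4} (hf : Continuous f) (h0 : (f (pj 0)).2.2.1 = 0) :
    Continuous (st f).g := by
  have h1 : Continuous fun t : ℝ => (f (pj t)).2.2.1 :=
    (continuous_fst.comp (continuous_snd.comp continuous_snd)).comp (hf.comp pj_cont)
  have h2 : Continuous fun t : ℝ => -(f (pj (-t))).2.2.1 := (h1.comp continuous_neg).neg
  show Continuous fun t => if 0 ≤ t then (f (pj t)).2.2.1 else -(f (pj (-t))).2.2.1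
  refine Continuous.if_le h1 h2 continuous_const continuous_id fun t ht => ?_
  rw [← ht, neg_zero, h0, neg_zero]

theorem KS_closed (hg0 : Continuous g0) : IsClosed (KS K₁ K₂ K₃ δ) := by
  refine IsSeqClosed.isClosed fun fn f hfn hf => ?_
  have hc := conv_st hf
  have hz : ∀ n, (fn n (pj 0)).2.2.1 = 0 := by
    intro n
    have h := base_g0 (hfn n).1.toBase
    have h' : (st (fn n)).g 0 = (fn n (pj 0)).2.2.1 := by
      show (if (0 : ℝ) ≤ 0 then (fn n (pj 0)).2.2.1 else -(fn n (pj (-0))).2.2.1) = _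
      rw [if_pos le_rfl]
    rw [← h', h]
  have hp : ∀ t, Tendsto (fun n => fn n t) atTop (𝓝 (f t)) := fun t =>
    (((continuous_apply t).comp BoundedContinuousFunction.continuous_coe).tendsto f).comp hf
  have hz' : (f (pj 0)).2.2.1 = 0 := by
    have h1 : Tendsto (fun n => (fn n (pj 0)).2.2.1) atTop (𝓝 (f (pj 0)).2.2.1) :=
      ((continuous_fst.comp (continuous_snd.comp continuous_snd)).tendsto _).comp (hp (pj 0))
    simp_rw [hz] at h1
    exact tendsto_nhds_unique h1 tendsto_const_nhds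
  refine ⟨ball_closed hg0 (fun n => (hfn n).1) hc (st_g_cont f.continuous hz'), ?_⟩
  funext t
  refine tendsto_nhds_unique (hp t) ?_
  have h1 : ∀ n, fn n t = em (st (fn n)) t := fun n => congrFun (hfn n).2 t
  simp_rw [h1]
  unfold em
  refine (hc.1 _ ?_ ?_).prodMk_nhds ((hc.2.1 _ ?_ ?_).prodMk_nhds
    ((hc.2.2.1 t).prodMk_nhds hc.2.2.2))
  · exact le_min t.2.1 (by norm_num)
  · exact min_le_right _ _
  · exact le_max_right _ _
  · exact max_le t.2.2 (by norm_num)

theorem KS_compact (h0 : S_B0) (hK₁ : 0 ≤ K₁) (hK₂ : 0 ≤ K₂) (hK₃ : 0 ≤ K₃) (hδ : 0 ≤ δ) :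
    IsCompact (KS K₁ K₂ K₃ δ) := by
  have hg0 := g0_cont h0
  have hc0 : Ball K₁ K₂ K₃ δ ⟨UL0, UR0, g0, 0⟩ := h0.1 K₁ K₂ K₃ δ hK₁ hK₂ hK₃ hδ
  set c : I01 →ᵇ R4 := emb ⟨UL0, UR0, g0, 0⟩ with hcdef
  have hc : ∀ t, c t = (UL0 (min t (1 / 2)), UR0 (max t (1 / 2)), g0 t, 0) := fun t =>
    congrFun (emb_coe hc0) t
  have hm1 : ∀ t : I01, 0 ≤ min (t : ℝ) (1 / 2) ∧ min (t : ℝ) (1 / 2) ≤ 1 / 2 := fun t =>
    ⟨le_min t.2.1 (by norm_num), min_le_right _ _⟩
  have hm2 : ∀ t : I01, 1 / 2 ≤ max (t : ℝ) (1 / 2) ∧ max (t : ℝ) (1 / 2) ≤ 1 := fun t =>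
    ⟨le_max_right _ _, max_le t.2.2 (by norm_num)⟩
  refine BoundedContinuousFunction.arzela_ascoli₂
    (Metric.closedBall (0 : R4) (‖c‖ + (K₁ * δ + K₂ * δ * 6 + K₃ * δ)))
    (isCompact_closedBall _ _) _ (KS_closed hg0) ?_ ?_
  · intro f t hf
    have hb := hf.1
    have e1 : f t = em (st f) t := congrFun hf.2 t
    rw [mem_closedBall_zero_iff]
    have h1 : ‖f t - c t‖ ≤ K₁ * δ + K₂ * δ * 6 + K₃ * δ := by
      have p1 : 0 ≤ K₁ * δ := mul_nonneg hK₁ hδ
      have p2 : 0 ≤ K₂ * δ := mul_nonneg hK₂ hδ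
      have p3 : 0 ≤ K₃ * δ := mul_nonneg hK₃ hδ
      rw [e1, hc]
      unfold em
      rw [Prod.norm_def, Prod.norm_def, Prod.norm_def]
      refine max_le ?_ (max_le ?_ (max_le ?_ ?_))
      · show |(st f).UL (min t (1 / 2)) - UL0 (min t (1 / 2))| ≤ _
        have := hb.ULb _ (hm1 t).1 (hm1 t).2
        linarith
      · show |(st f).UR (max t (1 / 2)) - UR0 (max t (1 / 2))| ≤ _
        have := hb.URb _ (hm2 t).1 (hm2 t).2
        linarith
      · show |(st f).g t - g0 t| ≤ _
        have h2 := hb.ginc 0 t le_rfl t.2.1 t.2.2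
        have h2' : g0 0 = 0 := base_g0 hc0.toBase
        rw [base_g0 hb.toBase, h2', sub_zero, sub_zero] at h2
        have h3 : Om t - Om 0 ≤ 6 := by
          unfold Om
          have a1 : √(t : ℝ) ≤ 1 := Real.sqrt_le_one.2 t.2.2
          have a2 := Real.sqrt_nonneg (1 / 2 - (t : ℝ))
          have a3 := Real.sqrt_nonneg (1 - (t : ℝ))
          have a4 : √(1 / 2 - (0 : ℝ)) ≤ 1 := Real.sqrt_le_one.2 (by norm_num)
          have a5 : √(1 - (0 : ℝ)) ≤ 1 := Real.sqrt_le_one.2 (by norm_num)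
          have a6 := Real.sqrt_nonneg (0 : ℝ)
          linarith
        have h4 : K₂ * δ * (Om t - Om 0) ≤ K₂ * δ * 6 := mul_le_mul_of_nonneg_left h3 p2
        linarith
      · show |(st f).p - 0| ≤ _
        rw [sub_zero]
        have := hb.pb
        have : 0 ≤ K₂ * δ * 6 := by positivity
        linarith [hb.pb]
    calc ‖f t‖ = ‖c t + (f t - c t)‖ := by rw [add_sub_cancel]
      _ ≤ ‖c t‖ + ‖f t - c t‖ := norm_add_le _ _
      _ ≤ _ := add_le_add (c.norm_coe_le_norm t) h1
  · intro x₀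
    have hL : Continuous fun x : I01 => UL0 (min x (1 / 2)) := by
      refine UL0_cont.comp_continuous (by fun_prop) fun t => hm1 t
    have hR : Continuous fun x : I01 => UR0 (max x (1 / 2)) := by
      refine UR0_cont.comp_continuous (by fun_prop) fun t => hm2 t
    have hG : Continuous fun x : I01 => g0 x := hg0.comp continuous_subtype_val
    have hO : Continuous fun x : I01 => Om x := Om_cont.comp continuous_subtype_val
    refine Metric.equicontinuousAt_of_continuity_modulus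
      (fun x : I01 => (|UL0 (min x (1 / 2)) - UL0 (min x₀ (1 / 2))| +
          |K₃ * δ * (√(min (x : ℝ) (1 / 2)) - √(min (x₀ : ℝ) (1 / 2)))|) +
        ((|UR0 (max x (1 / 2)) - UR0 (max x₀ (1 / 2))| +
          |K₃ * δ * (√(max (x : ℝ) (1 / 2)) - √(max (x₀ : ℝ) (1 / 2)))|) +
        (|g0 x - g0 x₀| + |K₂ * δ * (Om x - Om x₀)|))) ?_ _ ?_
    · have hcont : Continuous (fun x : I01 => (|UL0 (min x (1 / 2)) - UL0 (min x₀ (1 / 2))| +
          |K₃ * δ * (√(min (x : ℝ) (1 / 2)) - √(min (x₀ : ℝ) (1 / 2)))|) +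
        ((|UR0 (max x (1 / 2)) - UR0 (max x₀ (1 / 2))| +
          |K₃ * δ * (√(max (x : ℝ) (1 / 2)) - √(max (x₀ : ℝ) (1 / 2)))|) +
        (|g0 x - g0 x₀| + |K₂ * δ * (Om x - Om x₀)|))) := by
        fun_prop
      have := hcont.tendsto x₀
      simpa using this
    · refine Eventually.of_forall fun x f => ?_
      have hb := f.2.1
      have e1 : ∀ t, (f : I01 →ᵇ R4) t = em (st f) t := fun t => congrFun f.2.2 t
      show dist ((f : I01 →ᵇ R4) x₀) ((f : I01 →ᵇ R4) x) ≤ _
      rw [e1, e1, dist_eq_norm]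
      unfold em
      rw [Prod.norm_def, Prod.norm_def, Prod.norm_def]
      have q1 := inc_abs hb.ULi (x := min x₀ (1 / 2)) (y := min x (1 / 2)) (hm1 x₀) (hm1 x)
      have q2 := inc_abs hb.URi (x := max x₀ (1 / 2)) (y := max x (1 / 2)) (hm2 x₀) (hm2 x)
      have q3 := inc_abs hb.ginc (x := x₀) (y := x) x₀.2 x.2
      have r1 := abs_nonneg ((st f).UL (min x₀ (1 / 2)) - (st f).UL (min x (1 / 2)))
      have r2 := abs_nonneg ((st f).UR (max x₀ (1 / 2)) - (st f).UR (max x (1 / 2)))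
      have r3 := abs_nonneg ((st f).g x₀ - (st f).g x)
      refine max_le ?_ (max_le ?_ (max_le ?_ ?_))
      · show |(st f).UL (min x₀ (1 / 2)) - (st f).UL (min x (1 / 2))| ≤ _
        linarith
      · show |(st f).UR (max x₀ (1 / 2)) - (st f).UR (max x (1 / 2))| ≤ _
        linarith
      · show |(st f).g x₀ - (st f).g x| ≤ _
        linarith
      · show |(st f).p - (st f).p| ≤ _
        rw [sub_self, abs_zero]
        linarith

end

end FIXaux

open FIXaux in
/-- (FIX) -/
theorem FIX (h0 : S_B0) (hS : S_SCH) : S_FIX := by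
  intro K₁ K₂ K₃ δ hK₁ hK₂ hK₃ hδ T hT hTc
  have hcomp : IsCompact (KS K₁ K₂ K₃ δ) := KS_compact h0 hK₁ hK₂ hK₃ hδ
  have hcen : Ball K₁ K₂ K₃ δ ⟨UL0, UR0, g0, 0⟩ := h0.1 K₁ K₂ K₃ δ hK₁ hK₂ hK₃ hδ
  have hmaps : MapsTo (fun f : I01 →ᵇ R4 => emb (T (st f))) (KS K₁ K₂ K₃ δ) (KS K₁ K₂ K₃ δ) :=
    fun f hf => emb_mem (hT _ hf.1)
  have hcont : ContinuousOn (fun f : I01 →ᵇ R4 => emb (T (st f))) (KS K₁ K₂ K₃ δ) := by
    rw [continuousOn_iff_continuous_domRestrict]
    refine SeqContinuous.continuous fun x f hx => ?_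
    have hxf : Tendsto (fun n => (x n : I01 →ᵇ R4)) atTop (𝓝 (f : I01 →ᵇ R4)) :=
      (continuous_subtype_val.tendsto f).comp hx
    have hc1 : Conv (fun n => st (x n)) (st f) := conv_st hxf
    have hc2 : Conv (fun n => T (st (x n))) (T (st f)) :=
      hTc _ _ (fun n => (x n).2.1) f.2.1 hc1
    show Tendsto (fun n => emb (T (st (x n)))) atTop (𝓝 (emb (T (st f))))
    refine tendsto_of_subseq_tendsto fun ns hns => ?_
    obtain ⟨g, hg, ms, hmono, hms⟩ := hcomp.tendsto_subseq
      (x := fun n => emb (T (st (x (ns n))))) fun n => hmaps (x (ns n)).2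
    refine ⟨ms, ?_⟩
    have hge : g = emb (T (st f)) := by
      ext1 t
      have h1 : Tendsto (fun n => emb (T (st (x (ns (ms n))))) t) atTop (𝓝 (g t)) :=
        (((continuous_apply t).comp BoundedContinuousFunction.continuous_coe).tendsto g).comp hms
      refine tendsto_nhds_unique h1 ?_
      have h2 : ∀ n, emb (T (st (x (ns (ms n))))) t = em (T (st (x (ns (ms n))))) t := fun n =>
        congrFun (emb_coe (hT _ (x _).2.1)) t
      have h3 : emb (T (st f)) t = em (T (st f)) t := congrFun (emb_coe (hT _ f.2.1)) t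
      simp_rw [h2]
      rw [h3]
      have hsub : Tendsto (fun n => ns (ms n)) atTop atTop := hns.comp hmono.tendsto_atTop
      unfold FIXaux.em
      refine ((hc2.1 _ ?_ ?_).comp hsub).prodMk_nhds (((hc2.2.1 _ ?_ ?_).comp hsub).prodMk_nhds
        (((hc2.2.2.1 t).comp hsub).prodMk_nhds (hc2.2.2.2.comp hsub)))
      · exact le_min t.2.1 (by norm_num)
      · exact min_le_right _ _
      · exact le_max_right _ _
      · exact max_le t.2.2 (by norm_num)
    rw [← hge]
    exact hms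
  obtain ⟨f, hf, hfix⟩ := hS (I01 →ᵇ R4) (KS K₁ K₂ K₃ δ) hcomp KS_convex ⟨_, emb_mem hcen⟩ _
    hcont hmaps
  have hb := hf.1
  have hTb := hT _ hb
  have hag : Agr (T (st f)) (st f) := by
    have h1 := (st_em hTb.toBase).symm
    rw [← emb_coe hTb] at h1
    have h2 : emb (T (st f)) = f := hfix
    rwa [h2] at h1
  exact ⟨st f, hb, hag.1, hag.2.1, hag.2.2.1, hag.2.2.2⟩

end Pool.Agent.HV
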