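import Pool.Agent.HV.Stmts

/-!
# Module GA (§4.8): the function `γ_A`
-/

set_option autoImplicit false

open MeasureTheory Set

namespace Pool.Agent.HV

namespace GAaux

lemma Om_mono_ge {a b : ℝ} (ha : 0 ≤ a) (hab : a ≤ b) (hb : b ≤ 1) : b - a ≤ Om b - Om a := by
  unfold Om
  have h1 : √(1 / 2 - b) ≤ √(1 / 2 - a) := Real.sqrt_le_sqrt (by linarith)
  have h2 : √(1 - b) ≤ √(1 - a) := Real.sqrt_le_sqrt (by linarith)
  have h3 : b - a ≤ 2 * √b - 2 * √a := by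
    have ea := Real.sq_sqrt ha
    have eb := Real.sq_sqrt (ha.trans hab)
    have h4 : √a ≤ √b := Real.sqrt_le_sqrt hab
    have h5 : √b ≤ 1 := Real.sqrt_le_one.2 hb
    have h6 : 0 ≤ √a := Real.sqrt_nonneg a
    nlinarith
  linarith

lemma Om_le {a b : ℝ} (ha : 0 ≤ a) (hb : b ≤ 1) : Om b - Om a ≤ 6 := by
  unfold Om
  have h1 : √b ≤ 1 := Real.sqrt_le_one.2 hb
  have h2 : √(1 / 2 - a) ≤ 1 := Real.sqrt_le_one.2 (by linarith)
  have h3 : √(1 - a) ≤ 1 := Real.sqrt_le_one.2 (by linarith)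
  have h4 := Real.sqrt_nonneg a
  have h5 := Real.sqrt_nonneg (1 / 2 - b)
  have h6 := Real.sqrt_nonneg (1 - b)
  linarith

lemma Cop_zero (g : ℝ → ℝ) : Cop g 0 = 0 := by simp [Cop]

lemma Cop_one (g : ℝ → ℝ) : Cop g 1 = 0 := by simp [Cop, Aop]

lemma Pa_zero (δ : ℝ) (S : St) : Pa δ S 0 = 0 := by simp [Pa]

lemma Pa_one (δ : ℝ) (S : St) : Pa δ S 1 = 0 := by simp [Pa, Pae]

/-- increments of `𝒞 f_p` -/
lemma Cfp (hK2 : S_K2) {p : ℝ} (hp : |p| ≤ 1 / 1000) {a b : ℝ} (ha : 0 ≤ a) (hab : a ≤ b)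
    (hb : b ≤ 1) : |Cop (fp p) b - Cop (fp p) a| ≤ 2 * (Om b - Om a) := by
  have hp' := abs_le.1 hp
  have key := hK2 (fL p) (fun _ => -bb) (1 / 5) (by norm_num) ?_ ?_ ?_ ?_ a b ha hab hb
  · have e : (fun t => if t < 1 / 2 then fL p t else (fun _ => -bb) t) = fp p := rfl
    rw [e] at key
    have := Om_mono_ge ha hab hb
    refine key.trans ?_
    nlinarith
  · intro t h0 h1
    have h2 : √(t / 2) ≤ 1 := Real.sqrt_le_one.2 (by linarith)
    have h3 := Real.sqrt_nonneg (t / 2)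
    unfold fL fL0 bb
    rw [abs_le]
    constructor <;> nlinarith [hp'.1, hp'.2]
  · intro t _ _
    unfold bb
    rw [abs_le]
    constructor <;> norm_num
  · intro a b h0 h1 h2
    unfold fL fL0 bb
    have e1 : √(a / 2) ≤ √(b / 2) := Real.sqrt_le_sqrt (by linarith)
    have e2 : √(b / 2) - √(a / 2) ≤ √b - √a := by
      rw [Real.sqrt_div (h0.trans h1), Real.sqrt_div h0]
      have h4 : √a ≤ √b := Real.sqrt_le_sqrt h1
      have h5 : (1 : ℝ) ≤ √2 := by
        rw [Real.one_le_sqrt]; norm_num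
      rw [← sub_div]
      exact div_le_self (by linarith) h5
    rw [abs_le]
    constructor <;> nlinarith
  · intro a b h0 h1 h2
    have h4 : √a ≤ √b := Real.sqrt_le_sqrt h1
    simp only [sub_self, abs_zero]
    nlinarith

end GAaux

open GAaux

theorem GA (_hB : S_FactsB) (hP : S_PA) (hC : S_CA) (hI : S_IE) (hK2 : S_K2) : S_GA := by
  obtain ⟨C1, hC1, δ1, hδ1, H1⟩ := hP
  obtain ⟨C2, hC2, δ2, hδ2, H2⟩ := hC
  obtain ⟨C3, hC3, δ3, hδ3, H3⟩ := hI
  -- constants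
  set C := 200 * (C1 + C2 + C3) with hCdef
  have hCp : 0 < C := by positivity
  refine ⟨C, hCp, min (min δ1 δ2) (min δ3 (1 / (C3 + 1))), by positivity, ?_⟩
  intro δ hδ hδle S hS
  have d1 : δ ≤ δ1 := hδle.trans ((min_le_left _ _).trans (min_le_left _ _))
  have d2 : δ ≤ δ2 := hδle.trans ((min_le_left _ _).trans (min_le_right _ _))
  have d3 : δ ≤ δ3 := hδle.trans ((min_le_right _ _).trans (min_le_left _ _))
  have d4 : δ ≤ 1 / (C3 + 1) := hδle.trans ((min_le_right _ _).trans (min_le_right _ _))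
  have d5 : C3 * δ ≤ 1 := by
    have : δ * (C3 + 1) ≤ 1 := by
      rw [le_div_iff₀ (by positivity)] at d4; exact d4
    nlinarith
  have G1 := H1 δ hδ d1 S hS
  obtain ⟨K0, K1, G2⟩ := H2 δ hδ d2 S hS
  obtain ⟨I0, I1⟩ := H3 δ hδ d3 S hS
  have z0 : gA δ S 0 = 0 := by unfold gA; rw [Pa_zero, K0]; simp
  have z1 : gA δ S 1 = 0 := by unfold gA; rw [Pa_one, K1]; simp
  refine ⟨z0, z1, ?_⟩
  intro a b ha hab hb
  set c : ℝ → ℝ := Cop (fp S.p) with hc
  have hc0 : c 0 = 0 := Cop_zero _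
  have cinc : ∀ a b, 0 ≤ a → a ≤ b → b ≤ 1 → |c b - c a| ≤ 2 * (Om b - Om a) :=
    fun a b h0 h1 h2 => Cfp hK2 hS.pb h0 h1 h2
  have cbd : ∀ t, 0 ≤ t → t ≤ 1 → |c t| ≤ 12 := by
    intro t h0 h1
    have := cinc 0 t le_rfl h0 h1
    rw [hc0, sub_zero] at this
    have h2 := Om_le (a := 0) (b := t) le_rfl h1
    linarith
  have Ibd : ∀ t, 0 ≤ t → t ≤ 1 → 11 ≤ Ih δ S t ∧ Ih δ S t ≤ 13 := by
    intro t h0 h1
    have := abs_le.1 ((I0 t h0 h1).trans d5)
    constructor <;> linarith [this.1, this.2]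
  -- the numerator
  set N : ℝ → ℝ := fun t => 3 / 2 * (12 - Ih δ S t) * c t + (Pa δ S t - 18 * c t) - Kc δ S t
    with hN
  have Ninc : ∀ a b, 0 ≤ a → a ≤ b → b ≤ 1 → |N b - N a| ≤ (C / 5) * δ * (Om b - Om a) := by
    intro a b h0 h1 h2
    have e1 : N b - N a = 3 / 2 * (12 - Ih δ S b) * (c b - c a)
        - 3 / 2 * (Ih δ S b - Ih δ S a) * c a
        + ((Pa δ S b - 18 * c b) - (Pa δ S a - 18 * c a)) - (Kc δ S b - Kc δ S a) := by
      simp only [hN]; ring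
    have b1 : |3 / 2 * (12 - Ih δ S b) * (c b - c a)| ≤ 3 / 2 * (C3 * δ) * (2 * (Om b - Om a)) := by
      rw [abs_mul, abs_mul]
      have := I0 b (h0.trans h1) h2
      rw [abs_sub_comm] at this
      have h3 := cinc a b h0 h1 h2
      have : |(3 / 2 : ℝ)| = 3 / 2 := by norm_num
      rw [this]
      gcongr
    have b2 : |3 / 2 * (Ih δ S b - Ih δ S a) * c a| ≤ 3 / 2 * (C3 * δ * (b - a)) * 12 := by
      rw [abs_mul, abs_mul]
      have := I1 a b h0 h1 h2
      have h3 := cbd a h0 (h1.trans h2)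
      have : |(3 / 2 : ℝ)| = 3 / 2 := by norm_num
      rw [this]
      gcongr
    have b3 := G1 a b h0 h1 h2
    have b4 := G2 a b h0 h1 h2
    have o1 := Om_mono_ge h0 h1 h2
    have hδ' := hδ.le
    have o2 : C3 * δ * (b - a) ≤ C3 * δ * (Om b - Om a) := by gcongr
    have o3 : C2 * δ * (b - a) ≤ C2 * δ * (Om b - Om a) := by gcongr
    have o4 : 0 ≤ Om b - Om a := by linarith
    have p1 : 0 ≤ C1 * δ * (Om b - Om a) := by positivity
    have p2 : 0 ≤ C2 * δ * (Om b - Om a) := by positivity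
    have p3 : 0 ≤ C3 * δ * (Om b - Om a) := by positivity
    rw [e1]
    have t1 := abs_sub (3 / 2 * (12 - Ih δ S b) * (c b - c a)
        - 3 / 2 * (Ih δ S b - Ih δ S a) * c a
        + ((Pa δ S b - 18 * c b) - (Pa δ S a - 18 * c a))) (Kc δ S b - Kc δ S a)
    have t2 := abs_add_le (3 / 2 * (12 - Ih δ S b) * (c b - c a)
        - 3 / 2 * (Ih δ S b - Ih δ S a) * c a) ((Pa δ S b - 18 * c b) - (Pa δ S a - 18 * c a))
    have t3 := abs_sub (3 / 2 * (12 - Ih δ S b) * (c b - c a))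
      (3 / 2 * (Ih δ S b - Ih δ S a) * c a)
    have e2 : C / 5 * δ * (Om b - Om a) = 40 * (C1 * δ * (Om b - Om a)) +
      40 * (C2 * δ * (Om b - Om a)) + 40 * (C3 * δ * (Om b - Om a)) := by
      rw [hCdef]; ring
    rw [e2]
    linarith
  have N0 : N 0 = 0 := by
    simp only [hN, Pa_zero, K0, hc0]; ring
  have Nbd : ∀ t, 0 ≤ t → t ≤ 1 → |N t| ≤ (C / 5) * δ * 6 := by
    intro t h0 h1
    have := Ninc 0 t le_rfl h0 h1
    rw [N0, sub_zero] at this
    have h2 := Om_le (a := 0) (b := t) le_rfl h1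
    refine this.trans ?_
    gcongr
  have quot : ∀ t, 0 ≤ t → t ≤ 1 → gA δ S t - 3 / 2 * c t = N t / Ih δ S t := by
    intro t h0 h1
    have := Ibd t h0 h1
    have hne : Ih δ S t ≠ 0 := by linarith [this.1]
    simp only [hN, gA]
    field_simp
    ring
  rw [quot b (ha.trans hab) hb, quot a ha (hab.trans hb)]
  obtain ⟨ia, ia'⟩ := Ibd a ha (hab.trans hb)
  obtain ⟨ib, ib'⟩ := Ibd b (ha.trans hab) hb
  have hne1 : Ih δ S a ≠ 0 := by linarith
  have hne2 : Ih δ S b ≠ 0 := by linarith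
  have e3 : N b / Ih δ S b - N a / Ih δ S a =
      (N b - N a) / Ih δ S b - N a * (Ih δ S b - Ih δ S a) / (Ih δ S a * Ih δ S b) := by
    field_simp
    ring
  rw [e3]
  have o1 := Om_mono_ge ha hab hb
  have o4 : 0 ≤ Om b - Om a := by linarith
  have q1 : |(N b - N a) / Ih δ S b| ≤ (C / 5) * δ * (Om b - Om a) := by
    rw [abs_div]
    have h1 := Ninc a b ha hab hb
    have h2 : (1 : ℝ) ≤ |Ih δ S b| := by
      rw [abs_of_pos (by linarith)]; linarith
    exact (div_le_self (abs_nonneg _) h2).trans h1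
  have q2 : |N a * (Ih δ S b - Ih δ S a) / (Ih δ S a * Ih δ S b)| ≤
      (C / 5) * δ * (Om b - Om a) := by
    rw [abs_div, abs_mul]
    have h1 := Nbd a ha (hab.trans hb)
    have h2 := I1 a b ha hab hb
    have h3 : (6 : ℝ) ≤ |Ih δ S a * Ih δ S b| := by
      rw [abs_of_pos (by nlinarith)]; nlinarith
    rw [div_le_iff₀ (by linarith)]
    have h4 : |Ih δ S b - Ih δ S a| ≤ Om b - Om a := by
      refine h2.trans ?_
      have : C3 * δ * (b - a) ≤ 1 * (b - a) := by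
        have : 0 ≤ b - a := by linarith
        gcongr
      linarith
    calc |N a| * |Ih δ S b - Ih δ S a| ≤ (C / 5 * δ * 6) * (Om b - Om a) := by gcongr
      _ = (C / 5 * δ * (Om b - Om a)) * 6 := by ring
      _ ≤ (C / 5 * δ * (Om b - Om a)) * |Ih δ S a * Ih δ S b| := by gcongr
  have t1 := abs_sub ((N b - N a) / Ih δ S b) (N a * (Ih δ S b - Ih δ S a) / (Ih δ S a * Ih δ S b))
  have p : 0 ≤ C * δ * (Om b - Om a) := by positivity
  have e4 : C * δ * (Om b - Om a) = 5 * (C / 5 * δ * (Om b - Om a)) := by ring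
  linarith

end Pool.Agent.HV
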