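import Pool.Agent.HV.Stmts

/-!
# (GC) the body is not centrally symmetric (MP_678b51_gt, Q2, §1.6; mathematics: helper76)
-/

set_option autoImplicit false

open MeasureTheory Set Filter
open scoped Real Topology ENNReal

namespace Pool.Agent.HV

section

variable {δ : ℝ} {A dA : ℝ → ℝ} {x u : ℝ → ℝ → ℝ}

/-- `x e` is strictly decreasing on `[0, 1]`. -/
lemma Prof.x_anti (h : Prof δ A dA x u) {e : ℝ} (he : e = 1 ∨ e = -1) :
    StrictAntiOn (x e) (Icc 0 1) := by
  have hδ := h.δ0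
  have h1 : StrictAntiOn (x e) (Icc 0 (1 / 2)) := by
    refine strictAntiOn_of_deriv_neg (convex_Icc _ _)
      ((h.xc e).mono (Icc_subset_Icc le_rfl (by norm_num))) ?_
    intro t ht
    rw [interior_Icc] at ht
    rw [(h.hx e he t ht.1 (by linarith [ht.2]) (ne_of_lt ht.2)).deriv]
    have := (h.ub e he t ht.1.le (by linarith [ht.2])).2
    have : 0 < δ ^ 2 := by positivity
    nlinarith
  have h2 : StrictAntiOn (x e) (Icc (1 / 2) 1) := by
    refine strictAntiOn_of_deriv_neg (convex_Icc _ _)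
      ((h.xc e).mono (Icc_subset_Icc (by norm_num) le_rfl)) ?_
    intro t ht
    rw [interior_Icc] at ht
    rw [(h.hx e he t (by linarith [ht.1]) ht.2 (ne_of_gt ht.1)).deriv]
    have := (h.ub e he t (by linarith [ht.1]) ht.2.le).2
    have : 0 < δ ^ 2 := by positivity
    nlinarith
  have := h1.union h2 (isGreatest_Icc (by norm_num)) (isLeast_Icc (by norm_num))
  rwa [Icc_union_Icc_eq_Icc (by norm_num) (by norm_num)] at this

lemma Prof.x_upper (h : Prof δ A dA x u) {e : ℝ} (he : e = 1 ∨ e = -1) {t : ℝ} (h0 : 0 ≤ t)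
    (h1 : t ≤ 1) : x e t ≤ 3 + 5 * δ ^ 2 * (1 - t) := by
  have hδ := h.δ0
  have hc : ContinuousOn (fun t => x e t + 5 * δ ^ 2 * t) (Icc 0 1) :=
    (h.xc e).add (by fun_prop)
  have hd : ∀ t, 0 < t → t < 1 → t ≠ 1 / 2 →
      HasDerivAt (fun t => x e t + 5 * δ ^ 2 * t) (δ ^ 2 * u e t + 5 * δ ^ 2 * 1) t :=
    fun t a b c => (h.hx e he t a b c).add ((hasDerivAt_id t).const_mul _)
  have h1' : MonotoneOn (fun t => x e t + 5 * δ ^ 2 * t) (Icc 0 (1 / 2)) := by
    refine monotoneOn_of_deriv_nonneg (convex_Icc _ _)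
      (hc.mono (Icc_subset_Icc le_rfl (by norm_num))) ?_ ?_
    · intro t ht
      rw [interior_Icc] at ht
      exact (hd t ht.1 (by linarith [ht.2]) (ne_of_lt ht.2)).differentiableAt.differentiableWithinAt
    · intro t ht
      rw [interior_Icc] at ht
      rw [(hd t ht.1 (by linarith [ht.2]) (ne_of_lt ht.2)).deriv]
      have := (h.ub e he t ht.1.le (by linarith [ht.2])).1
      have : 0 < δ ^ 2 := by positivity
      nlinarith
  have h2' : MonotoneOn (fun t => x e t + 5 * δ ^ 2 * t) (Icc (1 / 2) 1) := by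
    refine monotoneOn_of_deriv_nonneg (convex_Icc _ _)
      (hc.mono (Icc_subset_Icc (by norm_num) le_rfl)) ?_ ?_
    · intro t ht
      rw [interior_Icc] at ht
      exact (hd t (by linarith [ht.1]) ht.2 (ne_of_gt ht.1)).differentiableAt.differentiableWithinAt
    · intro t ht
      rw [interior_Icc] at ht
      rw [(hd t (by linarith [ht.1]) ht.2 (ne_of_gt ht.1)).deriv]
      have := (h.ub e he t (by linarith [ht.1]) ht.2.le).1
      have : 0 < δ ^ 2 := by positivity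
      nlinarith
  have h3 := h1'.union_right h2' (isGreatest_Icc (by norm_num)) (isLeast_Icc (by norm_num))
  rw [Icc_union_Icc_eq_Icc (by norm_num) (by norm_num)] at h3
  have h4 := h3 ⟨h0, h1⟩ ⟨zero_le_one, le_rfl⟩ h1
  simp only [h.x1 e] at h4
  linarith

lemma Prof.x_lower (h : Prof δ A dA x u) {e : ℝ} (he : e = 1 ∨ e = -1) {t : ℝ} (h0 : 0 ≤ t)
    (h1 : t ≤ 1) : 3 ≤ x e t := by
  rw [← h.x1 e]
  exact (h.x_anti he).antitoneOn ⟨h0, h1⟩ ⟨zero_le_one, le_rfl⟩ h1

lemma Prof.A_bound (h : Prof δ A dA x u) {t : ℝ} (h0 : 0 ≤ t) (h1 : t ≤ 1) :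
    |A t| ≤ (1 - t) / 10 := by
  have h2 := Convex.norm_image_sub_le_of_norm_hasDerivWithin_le (f := A) (f' := dA) (s := Icc 0 1)
    (C := 1 / 10) (x := 1) (y := t) (fun y _ => (h.hA y).hasDerivWithinAt)
    (fun y _ => by simpa using h.dAb y) (convex_Icc _ _) ⟨zero_le_one, le_rfl⟩ ⟨h0, h1⟩
  rw [h.Az 1 le_rfl, sub_zero, Real.norm_eq_abs, Real.norm_eq_abs,
    abs_of_nonpos (by linarith : t - 1 ≤ 0)] at h2
  linarith

lemma Prof.rho_lt (h : Prof δ A dA x u) {e : ℝ} (he : e = 1 ∨ e = -1) {t : ℝ} (h0 : 0 ≤ t)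
    (h1 : t ≤ 1) : rho A x e t < 4 := by
  have h2 := h.x_upper he h0 h1
  have h3 := h.A_bound h0 h1
  have h4 := h.δ1
  have h5 := h.δ0
  have h6 := h.x_lower he h0 h1
  have h7 : |e * A t| ≤ 1 / 10 := by
    rw [abs_mul]
    have : |e| = 1 := by rcases he with rfl | rfl <;> simp
    rw [this]; linarith
  have h8 := (abs_le.1 h7).1
  unfold rho
  have h9 : δ ^ 2 ≤ 1 / 10000 := by nlinarith
  have h10 : t * x e t ≤ x e t := by nlinarith
  nlinarith

lemma vr_nonneg (P : E3) : 0 ≤ vr P := Real.sqrt_nonneg _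

lemma abs_le_vr (P : E3) : |P 1| ≤ vr P := by
  unfold vr
  exact Real.abs_le_sqrt (by nlinarith [sq_nonneg (P 2)])

/-- a point of the body satisfies `vr P ≤ R - (4/3) |P 0|` or `vr P < 4`. -/
lemma Prof.vr_le (h : Prof δ A dA x u) {P : E3} (hP : P ∈ KK δ A x) :
    vr P ≤ 4 / 3 * (3 + 9 / 4 * δ - |P 0|) ∨ vr P < 4 := by
  have h5 := h.δ0
  have h4 := h.δ1
  rcases hP with (hP | hP) | hP
  · exact Or.inl hP.2
  · right
    obtain ⟨t, t0, t1, -, h2⟩ := hP
    have := h.rho_lt (Or.inl rfl) t0 t1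
    nlinarith
  · right
    obtain ⟨t, t0, t1, -, h2⟩ := hP
    have := h.rho_lt (Or.inr rfl) t0 t1
    nlinarith

/-- the largest first coordinate -/
lemma Prof.le_x (h : Prof δ A dA x u) {e : ℝ} (he : e = 1 ∨ e = -1) {P : E3}
    (hP : P ∈ KK δ A x) : e * P 0 ≤ x e 0 := by
  have hx3 : 3 ≤ x e 0 := h.x_lower he le_rfl zero_le_one
  rcases hP with (hP | hP) | hP
  · have h1 := abs_le.1 hP.1
    rcases he with rfl | rfl <;> linarith [h1.1, h1.2]
  · obtain ⟨t, t0, t1, h2, -⟩ := hP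
    rcases he with rfl | rfl
    · rw [h2]
      exact (h.x_anti (Or.inl rfl)).antitoneOn ⟨le_rfl, zero_le_one⟩ ⟨t0, t1⟩ t0
    · have := h.x_lower (Or.inl rfl) t0 t1
      linarith
  · obtain ⟨t, t0, t1, h2, -⟩ := hP
    rcases he with rfl | rfl
    · have := h.x_lower (Or.inr rfl) t0 t1
      linarith
    · rw [h2]
      exact (h.x_anti (Or.inr rfl)).antitoneOn ⟨le_rfl, zero_le_one⟩ ⟨t0, t1⟩ t0

lemma Prof.A0 (h : Prof δ A dA x u) : A 0 = 0 := by
  have := h.Aodd 0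
  rw [neg_zero] at this
  linarith

/-- the pole of the end `e` -/
lemma Prof.pole_mem (h : Prof δ A dA x u) {e : ℝ} (he : e = 1 ∨ e = -1) :
    (!₂[e * x e 0, 0, 0] : E3) ∈ KK δ A x := by
  have h1 : (!₂[e * x e 0, 0, 0] : E3) ∈ Kcap δ A x e := by
    refine ⟨0, le_rfl, zero_le_one, ?_, ?_⟩
    · have : e * e = 1 := by rcases he with rfl | rfl <;> norm_num
      simp only [Matrix.cons_val_zero]
      rw [← mul_assoc, this, one_mul]
    · simp [vr, rho, h.A0]
  rcases he with rfl | rfl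
  · exact Or.inl (Or.inr h1)
  · exact Or.inr h1

end

/-- **(GC)** the body is not centrally symmetric. -/
theorem GC : S_GC := by
  intro δ A dA x u h ⟨c, hc⟩
  have hδ := h.δ0
  -- points of the equator
  have hR : ∀ s : ℝ, s = 1 ∨ s = -1 → (!₂[0, s * (4 + 3 * δ), 0] : E3) ∈ KK δ A x := by
    intro s hs
    refine Or.inl (Or.inl ⟨by simp, ?_⟩)
    have : |s * (4 + 3 * δ)| = 4 + 3 * δ := by
      rw [abs_mul, abs_of_pos (by linarith : 0 < 4 + 3 * δ)]
      rcases hs with rfl | rfl <;> simp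
    simp [vr, Real.sqrt_sq_eq_abs, this]
    linarith
  have hle : ∀ P ∈ KK δ A x, |P 1| ≤ 4 + 3 * δ := by
    intro P hP
    have h1 := abs_le_vr P
    rcases h.vr_le hP with h2 | h2
    · have := abs_nonneg (P 0)
      linarith
    · linarith
  have h1 := (hc _).1 (hR 1 (Or.inl rfl))
  have h2 := (hc _).1 (hR (-1) (Or.inr rfl))
  have h3 := hle _ h1
  have h4 := hle _ h2
  simp only [PiLp.sub_apply, PiLp.smul_apply, smul_eq_mul, Matrix.cons_val_one,
    Matrix.cons_val_zero] at h3 h4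
  have h5 := abs_le.1 h3
  have h6 := abs_le.1 h4
  have hc1 : c 1 = 0 := by linarith [h5.1, h6.2]
  have hc0 : c 0 = 0 := by
    have h7 := abs_le_vr ((2 : ℝ) • c - !₂[0, 1 * (4 + 3 * δ), 0])
    have e1 : ((2 : ℝ) • c - !₂[0, 1 * (4 + 3 * δ), 0] : E3) 1 = -(4 + 3 * δ) := by
      simp [hc1]
    have e0 : ((2 : ℝ) • c - !₂[0, 1 * (4 + 3 * δ), 0] : E3) 0 = 2 * c 0 := by
      simp
    rw [e1, abs_neg, abs_of_pos (by linarith : 0 < 4 + 3 * δ)] at h7
    rcases h.vr_le h1 with h8 | h8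
    · rw [e0] at h8
      have h9 : |2 * c 0| ≤ 0 := by linarith
      have h10 := abs_nonpos_iff.1 h9
      linarith
    · linarith
  -- the poles
  have hp : ∀ e : ℝ, e = 1 ∨ e = -1 → x e 0 ≤ x (-e) 0 := by
    intro e he
    have h7 := (hc _).1 (h.pole_mem he)
    have h8 := h.le_x (e := -e) (by rcases he with rfl | rfl <;> simp) h7
    have e0 : ((2 : ℝ) • c - !₂[e * x e 0, 0, 0] : E3) 0 = -(e * x e 0) := by
      simp [hc0]
    rw [e0] at h8
    have h9 : e * e = 1 := by rcases he with rfl | rfl <;> norm_num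
    calc x e 0 = -e * -(e * x e 0) := by ring_nf; rw [pow_two, h9, one_mul]
      _ ≤ x (-e) 0 := h8
  have a1 := hp 1 (Or.inl rfl)
  have a2 := hp (-1) (Or.inr rfl)
  rw [neg_neg] at a2
  exact h.ne (le_antisymm a1 a2)

end Pool.Agent.HV
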