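import Pool.Agent.HV.Stmts

/-!
# Module GD (§1.4, §1.5): every direction has a plane halving volume and area   (helper13)
-/

set_option autoImplicit false

open MeasureTheory Set
open scoped Real Topology ENNReal

namespace Pool.Agent.HV

namespace GDaux

/-! ## Abstract part: halving -/

variable {μ : Measure E3}

/-- the complementary half space -/
lemma half_compl {T : Set E3} (hfin : μ T < ⊤) {f : E3 → ℝ} (hf : Measurable f) {τ : ℝ}
    (h : μ (T ∩ {P | f P ≤ τ}) = μ T / 2) (h0 : μ (T ∩ {P | f P = τ}) = 0) :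
    μ (T ∩ {P | τ ≤ f P}) = μ T / 2 := by
  have hm : MeasurableSet {P : E3 | f P ≤ τ} := measurableSet_le hf measurable_const
  have h1 : μ (T ∩ {P | f P ≤ τ}) + μ (T \ {P | f P ≤ τ}) = μ T := measure_inter_add_sdiff T hm
  have h2 : μ (T ∩ {P | τ ≤ f P}) = μ (T \ {P | f P ≤ τ}) := by
    apply le_antisymm
    · calc μ (T ∩ {P | τ ≤ f P}) ≤ μ ((T \ {P | f P ≤ τ}) ∪ (T ∩ {P | f P = τ})) := by
            apply measure_mono
            intro P hP
            rcases lt_or_eq_of_le (show τ ≤ f P from hP.2) with h3 | h3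
            · left; exact ⟨hP.1, by simpa using h3⟩
            · right; exact ⟨hP.1, h3.symm⟩
        _ ≤ μ (T \ {P | f P ≤ τ}) + μ (T ∩ {P | f P = τ}) := measure_union_le _ _
        _ = μ (T \ {P | f P ≤ τ}) := by rw [h0, add_zero]
    · apply measure_mono
      intro P hP
      exact ⟨hP.1, by have := hP.2; simp only [mem_ofPred_eq, not_le] at this; exact this.le⟩
  rw [h2]
  rw [h] at h1
  have h3 : μ T / 2 + μ T / 2 = μ T := ENNReal.add_halves _
  have h4 : μ T / 2 ≠ ⊤ := by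
    intro h5
    rw [h5] at h3
    rw [← h3] at hfin
    simp at hfin
  exact (ENNReal.add_right_inj h4).1 (h1.trans h3.symm)

/-- a half space through the origin which contains one cap and misses the other one -/
lemma half_mid {T : Set E3} (hfin : μ T < ⊤)
    (hneg : ∀ s : Set E3, MeasurableSet s → μ (Neg.neg ⁻¹' s) = μ s)
    (hT : MeasurableSet T) (hsym : ∀ P ∈ T, |P 0| ≤ 3 → -P ∈ T) {f : E3 → ℝ} (hf : Measurable f)
    (hodd : ∀ P, f (-P) = -f P) (h0 : μ (T ∩ {P | f P = 0}) = 0)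
    (hp : ∀ P ∈ T, 3 < P 0 → f P ≤ 0) (hn : ∀ P ∈ T, P 0 < -3 → 0 ≤ f P) :
    μ (T ∩ {P | f P ≤ 0}) = μ (T ∩ {P | |P 0| ≤ 3}) / 2 + μ (T ∩ {P | 3 < P 0}) := by
  have mc : Measurable fun P : E3 => P 0 := by fun_prop
  have hM : MeasurableSet {P : E3 | |P 0| ≤ 3} := measurableSet_le mc.abs measurable_const
  have hP : MeasurableSet {P : E3 | 3 < P 0} := measurableSet_lt measurable_const mc
  have hF : MeasurableSet {P : E3 | f P ≤ 0} := measurableSet_le hf measurable_const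
  set M : Set E3 := T ∩ {P | |P 0| ≤ 3} with hMdef
  have hMfin : μ M < ⊤ := (measure_mono inter_subset_left).trans_lt hfin
  -- the middle part
  have e1 : μ (M ∩ {P | f P ≤ 0}) + μ (M \ {P | f P ≤ 0}) = μ M := measure_inter_add_sdiff M hF
  have e2 : μ (M ∩ {P | 0 ≤ f P}) = μ (M ∩ {P | f P ≤ 0}) := by
    have hMm : MeasurableSet (M ∩ {P | f P ≤ 0}) := (hT.inter hM).inter hF
    rw [← hneg _ hMm]
    congr 1
    ext P
    simp only [mem_inter_iff, mem_ofPred_eq, mem_preimage, hMdef, hodd]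
    have hz : (-P : E3) 0 = -(P 0) := by simp
    rw [hz, abs_neg]
    constructor
    · rintro ⟨⟨a, b⟩, c⟩
      exact ⟨⟨hsym P a b, b⟩, by linarith⟩
    · rintro ⟨⟨a, b⟩, c⟩
      refine ⟨⟨?_, b⟩, by linarith⟩
      have := hsym (-P) a (by rw [hz, abs_neg]; exact b)
      simpa using this
  have e3 : μ (M ∩ {P | 0 ≤ f P}) = μ (M \ {P | f P ≤ 0}) := by
    apply le_antisymm
    · calc μ (M ∩ {P | 0 ≤ f P}) ≤ μ ((M \ {P | f P ≤ 0}) ∪ (T ∩ {P | f P = 0})) := by
            apply measure_mono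
            intro P hP
            rcases lt_or_eq_of_le (show 0 ≤ f P from hP.2) with h3 | h3
            · left; exact ⟨hP.1, by simpa using h3⟩
            · right; exact ⟨hP.1.1, h3.symm⟩
        _ ≤ μ (M \ {P | f P ≤ 0}) + μ (T ∩ {P | f P = 0}) := measure_union_le _ _
        _ = μ (M \ {P | f P ≤ 0}) := by rw [h0, add_zero]
    · apply measure_mono
      intro P hP
      exact ⟨hP.1, by have := hP.2; simp only [mem_ofPred_eq, not_le] at this; exact this.le⟩
  have e4 : μ (M ∩ {P | f P ≤ 0}) = μ M / 2 := by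
    rw [← e3, e2] at e1
    rw [← e1, ENNReal.add_div]
    exact (ENNReal.add_halves _).symm
  -- the caps
  have s1 : T ∩ {P | f P ≤ 0} ⊆ (M ∩ {P | f P ≤ 0}) ∪ (T ∩ {P | 3 < P 0}) ∪
      (T ∩ {P | f P = 0}) := by
    intro P hP
    by_cases h1 : |P 0| ≤ 3
    · left; left; exact ⟨⟨hP.1, h1⟩, hP.2⟩
    · rw [abs_le, not_and_or, not_le, not_le] at h1
      rcases h1 with h1 | h1
      · right; exact ⟨hP.1, le_antisymm hP.2 (hn P hP.1 h1)⟩
      · left; right; exact ⟨hP.1, h1⟩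
  have s2 : (M ∩ {P | f P ≤ 0}) ∪ (T ∩ {P | 3 < P 0}) ⊆ T ∩ {P | f P ≤ 0} := by
    intro P hP
    rcases hP with hP | hP
    · exact ⟨hP.1.1, hP.2⟩
    · exact ⟨hP.1, hp P hP.1 hP.2⟩
  have hdis : Disjoint (M ∩ {P | f P ≤ 0}) (T ∩ {P | 3 < P 0}) := by
    rw [Set.disjoint_left]
    intro P h1 h2
    have h3 := h1.1.2
    have h4 := h2.2
    simp only [mem_ofPred_eq] at h3 h4
    exact absurd (abs_le.1 h3).2 (not_le.2 h4)
  have u1 : μ ((M ∩ {P | f P ≤ 0}) ∪ (T ∩ {P | 3 < P 0})) =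
      μ (M ∩ {P | f P ≤ 0}) + μ (T ∩ {P | 3 < P 0}) :=
    measure_union hdis (hT.inter hP)
  rw [← e4, ← u1]
  apply le_antisymm
  · calc μ (T ∩ {P | f P ≤ 0}) ≤ μ ((M ∩ {P | f P ≤ 0}) ∪ (T ∩ {P | 3 < P 0}) ∪
        (T ∩ {P | f P = 0})) := measure_mono s1
      _ ≤ μ ((M ∩ {P | f P ≤ 0}) ∪ (T ∩ {P | 3 < P 0})) + μ (T ∩ {P | f P = 0}) :=
          measure_union_le _ _
      _ = μ ((M ∩ {P | f P ≤ 0}) ∪ (T ∩ {P | 3 < P 0})) := by rw [h0, add_zero]
  · exact measure_mono s2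

/-! ## The profile -/

section Profile

variable {δ : ℝ} {A dA : ℝ → ℝ} {x u : ℝ → ℝ → ℝ}

lemma x_anti (h : Prof δ A dA x u) {e : ℝ} (he : e = 1 ∨ e = -1) :
    StrictAntiOn (x e) (Icc 0 1) := by
  have hδ := h.δ0
  have d2 : 0 < δ ^ 2 := by positivity
  have aux : ∀ l r : ℝ, 0 ≤ l → r ≤ 1 → (∀ t ∈ Ioo l r, t ≠ 1 / 2) →
      StrictAntiOn (x e) (Icc l r) := by
    intro l r hl hr hne
    apply strictAntiOn_of_deriv_neg (convex_Icc l r)
      ((h.xc e).mono (Icc_subset_Icc hl hr))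
    intro t ht
    rw [interior_Icc] at ht
    have ht0 : 0 < t := lt_of_le_of_lt hl ht.1
    have ht1 : t < 1 := lt_of_lt_of_le ht.2 hr
    rw [(h.hx e he t ht0 ht1 (hne t ht)).deriv]
    have := (h.ub e he t ht0.le ht1.le).2
    have : u e t < 0 := by linarith
    exact mul_neg_of_pos_of_neg d2 this
  have h1 := aux 0 (1 / 2) le_rfl (by norm_num) (fun t ht => ht.2.ne)
  have h2 := aux (1 / 2) 1 (by norm_num) le_rfl (fun t ht => ht.1.ne')
  have h3 : Icc (0 : ℝ) 1 = Icc 0 (1 / 2) ∪ Icc (1 / 2) 1 := by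
    rw [Icc_union_Icc_eq_Icc] <;> norm_num
  rw [h3]
  exact StrictAntiOn.union h1 h2 (isGreatest_Icc (by norm_num)) (isLeast_Icc (by norm_num))

lemma x_ge (h : Prof δ A dA x u) {e : ℝ} (he : e = 1 ∨ e = -1) {t : ℝ} (h0 : 0 ≤ t)
    (h1 : t ≤ 1) : 3 ≤ x e t := by
  have := (x_anti h he).antitoneOn (show t ∈ Icc (0 : ℝ) 1 from ⟨h0, h1⟩)
    (show (1 : ℝ) ∈ Icc (0 : ℝ) 1 by constructor <;> norm_num) h1
  rwa [h.x1 e] at this

lemma x_gt (h : Prof δ A dA x u) {e : ℝ} (he : e = 1 ∨ e = -1) {t : ℝ} (h0 : 0 ≤ t)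
    (h1 : t < 1) : 3 < x e t := by
  have := (x_anti h he) (show t ∈ Icc (0 : ℝ) 1 from ⟨h0, h1.le⟩)
    (show (1 : ℝ) ∈ Icc (0 : ℝ) 1 by constructor <;> norm_num) h1
  rwa [h.x1 e] at this

lemma rho_one (h : Prof δ A dA x u) (e : ℝ) : rho A x e 1 = 3 := by
  unfold rho
  rw [h.x1 e, h.Az 1 le_rfl]
  ring

lemma abs_e {e : ℝ} (he : e = 1 ∨ e = -1) : |e| = 1 := by
  rcases he with rfl | rfl <;> norm_num

lemma rho_mono (h : Prof δ A dA x u) {e : ℝ} (he : e = 1 ∨ e = -1) :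
    MonotoneOn (rho A x e) (Icc 0 1) := by
  have hδ := h.δ0
  have hδ1 := h.δ1
  have hcont : ContinuousOn (rho A x e) (Icc 0 1) := by
    unfold rho
    have hA : Continuous A := continuous_iff_continuousAt.2 fun t => (h.hA t).continuousAt
    exact (continuousOn_id.mul (h.xc e)).sub (continuousOn_const.mul hA.continuousOn)
  have aux : ∀ l r : ℝ, 0 ≤ l → r ≤ 1 → (∀ t ∈ Ioo l r, t ≠ 1 / 2) →
      MonotoneOn (rho A x e) (Icc l r) := by
    intro l r hl hr hne
    have hd : ∀ t ∈ Ioo l r, HasDerivAt (rho A x e)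
        (1 * x e t + t * (δ ^ 2 * u e t) - e * dA t) t := by
      intro t ht
      have ht0 : 0 < t := lt_of_le_of_lt hl ht.1
      have ht1 : t < 1 := lt_of_lt_of_le ht.2 hr
      exact ((hasDerivAt_id t).mul (h.hx e he t ht0 ht1 (hne t ht))).sub
        ((h.hA t).const_mul e)
    apply monotoneOn_of_deriv_nonneg (convex_Icc l r)
      (hcont.mono (Icc_subset_Icc hl hr))
    · intro t ht
      rw [interior_Icc] at ht
      exact (hd t ht).differentiableAt.differentiableWithinAt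
    · intro t ht
      rw [interior_Icc] at ht
      rw [(hd t ht).deriv]
      have ht0 : 0 < t := lt_of_le_of_lt hl ht.1
      have ht1 : t < 1 := lt_of_lt_of_le ht.2 hr
      have g1 := x_ge h he ht0.le ht1.le
      have g2 := (h.ub e he t ht0.le ht1.le).1
      have g3 : |e * dA t| ≤ 1 / 10 := by
        rw [abs_mul, abs_e he, one_mul]
        exact h.dAb t
      have g4 := (abs_le.1 g3).2
      have g5 : -(5 / 10000 : ℝ) ≤ t * (δ ^ 2 * u e t) := by
        have k1 : δ ^ 2 ≤ 1 / 10000 := by nlinarith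
        have k2 : 0 ≤ t * δ ^ 2 := by positivity
        have k3 : t * δ ^ 2 ≤ 1 / 10000 := by nlinarith
        nlinarith
      linarith
  have h1 := aux 0 (1 / 2) le_rfl (by norm_num) (fun t ht => ht.2.ne)
  have h2 := aux (1 / 2) 1 (by norm_num) le_rfl (fun t ht => ht.1.ne')
  have h3 : Icc (0 : ℝ) 1 = Icc 0 (1 / 2) ∪ Icc (1 / 2) 1 := by
    rw [Icc_union_Icc_eq_Icc] <;> norm_num
  rw [h3]
  exact MonotoneOn.union_right h1 h2 (isGreatest_Icc (by norm_num)) (isLeast_Icc (by norm_num))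

lemma rho_le (h : Prof δ A dA x u) {e : ℝ} (he : e = 1 ∨ e = -1) {t : ℝ} (h0 : 0 ≤ t)
    (h1 : t ≤ 1) : rho A x e t ≤ 3 := by
  have := (rho_mono h he) (show t ∈ Icc (0 : ℝ) 1 from ⟨h0, h1⟩)
    (show (1 : ℝ) ∈ Icc (0 : ℝ) 1 by constructor <;> norm_num) h1
  rwa [rho_one h e] at this

lemma vr_neg (P : E3) : vr (-P) = vr P := by
  unfold vr
  simp

lemma abs_le_vr (P : E3) : |P 1| ≤ vr P := by
  unfold vr
  rw [← Real.sqrt_sq_eq_abs]
  exact Real.sqrt_le_sqrt (by nlinarith [sq_nonneg (P 2)])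

lemma abs_of_e {e : ℝ} (he : e = 1 ∨ e = -1) (a : ℝ) : |e * a| = |a| := by
  rw [abs_mul, abs_e he, one_mul]

/-- the part `|x| ≤ 3` of `K` -/
lemma KK_mid (h : Prof δ A dA x u) {P : E3} (hP : P ∈ KK δ A x) (h3 : |P 0| ≤ 3) :
    P ∈ Kmid δ := by
  have key : ∀ e : ℝ, (e = 1 ∨ e = -1) → P ∈ Kcap δ A x e → P ∈ Kmid δ := by
    rintro e he ⟨t, h0, h1, hx, hv⟩
    have g1 := x_ge h he h0 h1
    have g2 : |P 0| = x e t := by
      rw [← abs_of_e he (P 0), hx, abs_of_nonneg (by linarith)]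
    have g3 : t = 1 := by
      by_contra hne
      have := x_gt h he h0 (lt_of_le_of_ne h1 hne)
      linarith
    subst g3
    refine ⟨h3, ?_⟩
    rw [rho_one h e] at hv
    rw [g2, h.x1 e]
    linarith
  rcases hP with (hP | hP) | hP
  · exact hP
  · exact key 1 (Or.inl rfl) hP
  · exact key (-1) (Or.inr rfl) hP

lemma SS_mid (h : Prof δ A dA x u) {P : E3} (hP : P ∈ SS δ A x) (h3 : |P 0| ≤ 3) :
    P ∈ Smid δ := by
  have key : ∀ e : ℝ, (e = 1 ∨ e = -1) → P ∈ Scap δ A x e → P ∈ Smid δ := by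
    rintro e he ⟨t, h0, h1, hx, hv⟩
    have g1 := x_ge h he h0 h1
    have g2 : |P 0| = x e t := by
      rw [← abs_of_e he (P 0), hx, abs_of_nonneg (by linarith)]
    have g3 : t = 1 := by
      by_contra hne
      have := x_gt h he h0 (lt_of_le_of_ne h1 hne)
      linarith
    subst g3
    refine ⟨h3, ?_⟩
    rw [rho_one h e] at hv
    rw [g2, h.x1 e]
    linarith
  rcases hP with (hP | hP) | hP
  · exact hP
  · exact key 1 (Or.inl rfl) hP
  · exact key (-1) (Or.inr rfl) hP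

lemma KK_sym (h : Prof δ A dA x u) : ∀ P ∈ KK δ A x, |P 0| ≤ 3 → -P ∈ KK δ A x := by
  intro P hP h3
  have h4 := KK_mid h hP h3
  left; left
  refine ⟨?_, ?_⟩
  · have : (-P : E3) 0 = -(P 0) := by simp
    rw [this, abs_neg]
    exact h3
  · have : (-P : E3) 0 = -(P 0) := by simp
    rw [this, abs_neg, vr_neg]
    exact h4.2

lemma SS_sym (h : Prof δ A dA x u) : ∀ P ∈ SS δ A x, |P 0| ≤ 3 → -P ∈ SS δ A x := by
  intro P hP h3
  have h4 := SS_mid h hP h3
  left; left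
  refine ⟨?_, ?_⟩
  · have : (-P : E3) 0 = -(P 0) := by simp
    rw [this, abs_neg]
    exact h3
  · have : (-P : E3) 0 = -(P 0) := by simp
    rw [this, abs_neg, vr_neg]
    exact h4.2

lemma KK_out (h : Prof δ A dA x u) {P : E3} (hP : P ∈ KK δ A x) (h3 : 3 < |P 0|) :
    |P 1| ≤ 3 * δ := by
  have key : ∀ e : ℝ, (e = 1 ∨ e = -1) → P ∈ Kcap δ A x e → |P 1| ≤ 3 * δ := by
    rintro e he ⟨t, h0, h1, hx, hv⟩
    have g1 := rho_le h he h0 h1
    have g2 := abs_le_vr P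
    have g3 := mul_le_mul_of_nonneg_left g1 h.δ0.le
    linarith
  rcases hP with (hP | hP) | hP
  · exact absurd hP.1 (not_le.2 h3)
  · exact key 1 (Or.inl rfl) hP
  · exact key (-1) (Or.inr rfl) hP

lemma SS_out (h : Prof δ A dA x u) {P : E3} (hP : P ∈ SS δ A x) (h3 : 3 < |P 0|) :
    |P 1| ≤ 3 * δ := by
  have key : ∀ e : ℝ, (e = 1 ∨ e = -1) → P ∈ Scap δ A x e → |P 1| ≤ 3 * δ := by
    rintro e he ⟨t, h0, h1, hx, hv⟩
    have g1 := rho_le h he h0 h1
    have g2 := abs_le_vr P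
    have g3 := mul_le_mul_of_nonneg_left g1 h.δ0.le
    linarith
  rcases hP with (hP | hP) | hP
  · exact absurd hP.1 (not_le.2 h3)
  · exact key 1 (Or.inl rfl) hP
  · exact key (-1) (Or.inr rfl) hP

/-! ### Rotations about the axis -/

lemma KK_inv {P R : E3} (h0 : R 0 = P 0) (hv : vr R = vr P) :
    R ∈ KK δ A x ↔ P ∈ KK δ A x := by
  simp only [KK, Kmid, Kcap, mem_union, mem_ofPred_eq, h0, hv]

lemma SS_inv {P R : E3} (h0 : R 0 = P 0) (hv : vr R = vr P) :
    R ∈ SS δ A x ↔ P ∈ SS δ A x := by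
  simp only [SS, Smid, Scap, mem_union, mem_ofPred_eq, h0, hv]

end Profile

/-! ## Isometries -/

lemma inner_eq (ν P : E3) : inner ℝ ν P = ν 0 * P 0 + ν 1 * P 1 + ν 2 * P 2 := by
  rw [PiLp.inner_apply, Fin.sum_univ_three]
  simp only [RCLike.inner_apply, conj_trivial]
  ring

/-- the rotation about the axis -/
noncomputable def rotL (c s : ℝ) : E3 →ₗ[ℝ] E3 where
  toFun P := !₂[P 0, c * P 1 + s * P 2, -s * P 1 + c * P 2]
  map_add' P Q := by
    ext i
    fin_cases i <;> simp <;> ring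
  map_smul' a P := by
    ext i
    fin_cases i <;> simp <;> ring

lemma rotL_apply (c s : ℝ) (P : E3) :
    rotL c s P = !₂[P 0, c * P 1 + s * P 2, -s * P 1 + c * P 2] := rfl

lemma norm_sq_eq (P : E3) : ‖P‖ ^ 2 = P 0 ^ 2 + P 1 ^ 2 + P 2 ^ 2 := by
  rw [EuclideanSpace.norm_sq_eq, Fin.sum_univ_three]
  simp only [Real.norm_eq_abs, sq_abs]

lemma rotL_norm {c s : ℝ} (h : c ^ 2 + s ^ 2 = 1) (P : E3) : ‖rotL c s P‖ = ‖P‖ := by
  have h1 : ‖rotL c s P‖ ^ 2 = ‖P‖ ^ 2 := by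
    rw [norm_sq_eq, norm_sq_eq, rotL_apply]
    simp only [Fin.isValue, Matrix.cons_val_zero, Matrix.cons_val_one,
      Matrix.cons_val]
    linear_combination (P 1 ^ 2 + P 2 ^ 2) * h
  exact (sq_eq_sq₀ (norm_nonneg _) (norm_nonneg _)).1 h1

/-- the rotation as an isometry -/
noncomputable def rotI (c s : ℝ) (h : c ^ 2 + s ^ 2 = 1) : E3 ≃ₗᵢ[ℝ] E3 :=
  LinearIsometry.toLinearIsometryEquiv ⟨rotL c s, rotL_norm h⟩ rfl

lemma rotI_apply (c s : ℝ) (h : c ^ 2 + s ^ 2 = 1) (P : E3) :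
    rotI c s h P = !₂[P 0, c * P 1 + s * P 2, -s * P 1 + c * P 2] := by
  rfl

lemma rotI_zero (c s : ℝ) (h : c ^ 2 + s ^ 2 = 1) (P : E3) : rotI c s h P 0 = P 0 := by
  rw [rotI_apply]; simp

lemma rotI_vr (c s : ℝ) (h : c ^ 2 + s ^ 2 = 1) (P : E3) : vr (rotI c s h P) = vr P := by
  rw [rotI_apply]
  unfold vr
  congr 1
  simp only [Fin.isValue, Matrix.cons_val_zero, Matrix.cons_val_one,
    Matrix.cons_val]
  linear_combination (P 1 ^ 2 + P 2 ^ 2) * h

/-- invariance of a measure under linear isometries -/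
def Inv (μ : Measure E3) : Prop := ∀ R : E3 ≃ₗᵢ[ℝ] E3, ∀ s : Set E3, μ (R ⁻¹' s) = μ s

lemma inv_mu (d : ℕ) : Inv (Measure.euclideanHausdorffMeasure d : Measure E3) := by
  intro R s
  rw [R.isometry.euclideanHausdorffMeasure_preimage, R.surjective.range_eq, inter_univ]

lemma vol_eq : (volume : Measure E3) = Measure.euclideanHausdorffMeasure 3 := by
  exact (EuclideanSpace.euclideanHausdorffMeasure_eq_volume 3).symm

lemma inv_vol : Inv (volume : Measure E3) := by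
  rw [vol_eq]
  exact inv_mu 3

lemma Inv.neg {μ : Measure E3} (h : Inv μ) (s : Set E3) : μ (Neg.neg ⁻¹' s) = μ s :=
  h (LinearIsometryEquiv.neg ℝ) s

lemma Inv.rot {μ : Measure E3} (h : Inv μ) (R : E3 ≃ₗᵢ[ℝ] E3) {T : Set E3}
    (hT : ∀ P, R P ∈ T ↔ P ∈ T) (f : E3 → ℝ) (τ : ℝ) :
    μ (T ∩ {P | f (R P) ≤ τ}) = μ (T ∩ {P | f P ≤ τ}) := by
  rw [← h R (T ∩ {P | f P ≤ τ})]
  congr 1
  ext P
  simp [hT]

/-- planes are null sets -/
lemma plane_null (ν : E3) (hν : ν ≠ 0) (τ : ℝ) : volume {P : E3 | inner ℝ ν P = τ} = 0 := by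
  by_cases hne : ∃ P₀ : E3, inner ℝ ν P₀ = τ
  · obtain ⟨P₀, hP₀⟩ := hne
    have h1 : volume ((LinearMap.ker (innerₛₗ ℝ ν) : Submodule ℝ E3) : Set E3) = 0 := by
      apply Measure.addHaar_submodule
      intro htop
      have : ν ∈ LinearMap.ker (innerₛₗ ℝ ν) := by rw [htop]; trivial
      rw [LinearMap.mem_ker] at this
      simp only [innerₛₗ_apply_apply] at this
      exact hν (inner_self_eq_zero.1 this)
    have h2 : {P : E3 | inner ℝ ν P = τ} =
        (fun P => P + -P₀) ⁻¹' ((LinearMap.ker (innerₛₗ ℝ ν) : Submodule ℝ E3) : Set E3) := by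
      ext P
      simp only [mem_ofPred_eq, mem_preimage, SetLike.mem_coe, LinearMap.mem_ker,
        innerₛₗ_apply_apply, ← sub_eq_add_neg]
      rw [inner_sub_right, hP₀, sub_eq_zero]
    rw [h2, measure_preimage_add_right]
    exact h1
  · have h3 : {P : E3 | inner ℝ ν P = τ} = ∅ := by
      ext P
      simp only [mem_ofPred_eq, mem_empty_iff_false, iff_false]
      exact fun h => hne ⟨P, h⟩
    rw [h3, measure_empty]

end GDaux

open GDaux in
theorem GD (hK : S_GK) (hV : S_GV) (hS : S_GS) (hN : S_GN) : S_GD := by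
  intro δ A dA x u h
  obtain ⟨hKc, -, -, hfr⟩ := hK δ A dA x u h
  have hVt := hV δ A dA x u h
  obtain ⟨-, hSfin, hSt⟩ := hS δ A dA x u h
  have hNt := hN δ A dA x u h
  have hδ := h.δ0
  set σ : Measure E3 := Measure.euclideanHausdorffMeasure 2 with hσ
  have mK : MeasurableSet (KK δ A x) := hKc.measurableSet
  have mS : MeasurableSet (SS δ A x) := by
    rw [← hfr]
    exact isClosed_frontier.measurableSet
  have fK : volume (KK δ A x) < ⊤ := hKc.measure_lt_top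
  have iV : Inv (volume : Measure E3) := inv_vol
  have iS : Inv σ := inv_mu 2
  have mI : ∀ ν : E3, Measurable fun P : E3 => inner ℝ ν P := fun ν => by fun_prop
  have hA1 : A 1 = 0 := h.Az 1 le_rfl
  -- Claim 1: normals `(-a, b, 0)` with `a, b ≥ 0`
  have claim1 : ∀ ν : E3, ν ≠ 0 → ν 0 ≤ 0 → 0 ≤ ν 1 → ν 2 = 0 → ∃ τ : ℝ,
      (volume (KK δ A x ∩ {P | inner ℝ ν P ≤ τ}) = volume (KK δ A x) / 2 ∧
      σ (SS δ A x ∩ {P | inner ℝ ν P ≤ τ}) = σ (SS δ A x) / 2) ∧
      σ (SS δ A x ∩ {P | inner ℝ ν P = τ}) = 0 := by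
    intro ν hν h0 h1 h2
    by_cases hc : -(ν 0) ≤ δ * ν 1
    · -- the plane cuts a cap
      have hb : 0 < ν 1 := by
        rcases lt_or_eq_of_le h1 with h3 | h3
        · exact h3
        · exfalso
          rw [← h3, mul_zero] at hc
          apply hν
          ext i
          fin_cases i
          · show ν 0 = 0
            linarith
          · show ν 1 = 0
            exact h3.symm
          · exact h2
      set t : ℝ := -(ν 0) / (δ * ν 1) with ht
      have hδb : 0 < δ * ν 1 := mul_pos hδ hb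
      have t0 : 0 ≤ t := div_nonneg (by linarith) hδb.le
      have t1 : t ≤ 1 := (div_le_one hδb).2 hc
      have ht' : ν 0 = -(t * (δ * ν 1)) := by
        rw [ht, div_mul_cancel₀ _ hδb.ne']
        ring
      have hset : {P : E3 | inner ℝ ν P ≤ -(ν 1 * δ * A t)} =
          {P : E3 | P 1 ≤ δ * (t * P 0 - A t)} := by
        ext P
        simp only [mem_ofPred_eq]
        rw [inner_eq, h2, ht']
        have hid : -(t * (δ * ν 1)) * P 0 + ν 1 * P 1 + 0 * P 2 + ν 1 * δ * A t =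
            ν 1 * (P 1 - δ * (t * P 0 - A t)) := by ring
        constructor
        · intro h5
          have h6 : ν 1 * (P 1 - δ * (t * P 0 - A t)) ≤ 0 := by linarith
          have h7 : P 1 - δ * (t * P 0 - A t) ≤ 0 := by
            by_contra h8
            rw [not_le] at h8
            exact absurd h6 (not_le.2 (mul_pos hb h8))
          linarith
        · intro h5
          have h6 : ν 1 * (P 1 - δ * (t * P 0 - A t)) ≤ 0 :=
            mul_nonpos_of_nonneg_of_nonpos hb.le (by linarith)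
          linarith
      refine ⟨-(ν 1 * δ * A t), ⟨?_, ?_⟩, ?_⟩
      · rw [hset]; exact hVt t t0 t1
      · rw [hset]; exact hSt t t0 t1
      · exact hNt ν _ hν (fun h5 => absurd h5 hb.ne')
    · -- the plane misses the caps
      rw [not_le] at hc
      have hnull : σ (SS δ A x ∩ {P | inner ℝ ν P = 0}) = 0 :=
        hNt ν 0 hν (fun _ _ => rfl)
      have ha : 0 < -(ν 0) := lt_of_le_of_lt (mul_nonneg hδ.le h1) hc
      -- the reference half space
      set ν₁ : E3 := !₂[-δ, 1, 0] with hν₁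
      have e0 : ν₁ 0 = -δ := by rw [hν₁]; simp
      have e1 : ν₁ 1 = 1 := by rw [hν₁]; simp
      have e2 : ν₁ 2 = 0 := by rw [hν₁]; simp
      have hν₁0 : ν₁ ≠ 0 := by
        intro h5
        rw [h5] at e1
        simp at e1
      have hset1 : {P : E3 | inner ℝ ν₁ P ≤ 0} = {P : E3 | P 1 ≤ δ * (1 * P 0 - A 1)} := by
        ext P
        simp only [mem_ofPred_eq]
        rw [inner_eq, e0, e1, e2, hA1]
        constructor <;> intro h5 <;> linarith
      have v1 : volume (KK δ A x ∩ {P | inner ℝ ν₁ P ≤ 0}) = volume (KK δ A x) / 2 := by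
        rw [hset1]; exact hVt 1 (by norm_num) le_rfl
      have s1 : σ (SS δ A x ∩ {P | inner ℝ ν₁ P ≤ 0}) = σ (SS δ A x) / 2 := by
        rw [hset1]; exact hSt 1 (by norm_num) le_rfl
      have hnull1 : σ (SS δ A x ∩ {P | inner ℝ ν₁ P = 0}) = 0 :=
        hNt ν₁ 0 hν₁0 (fun _ _ => rfl)
      -- signs on the caps
      have sgn : ∀ ν' : E3, ν' 0 ≤ 0 → 0 ≤ ν' 1 → ν' 2 = 0 → δ * ν' 1 ≤ -(ν' 0) → ∀ P : E3,
          (3 < |P 0| → |P 1| ≤ 3 * δ) →
          (3 < P 0 → inner ℝ ν' P ≤ 0) ∧ (P 0 < -3 → 0 ≤ inner ℝ ν' P) := by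
        intro ν' g0 g1 g2 g3 P hP
        rw [inner_eq, g2]
        constructor
        · intro h5
          have h6 := hP (by rw [abs_of_pos (by linarith)]; exact h5)
          have h7 := (abs_le.1 h6).2
          have h8 : ν' 1 * P 1 ≤ ν' 1 * (3 * δ) := mul_le_mul_of_nonneg_left h7 g1
          have h9 : ν' 0 * P 0 ≤ ν' 0 * 3 := mul_le_mul_of_nonpos_left h5.le g0
          nlinarith
        · intro h5
          have h6 := hP (by rw [abs_of_neg (by linarith)]; linarith)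
          have h7 := (abs_le.1 h6).1
          have h8 : ν' 1 * (-(3 * δ)) ≤ ν' 1 * P 1 := mul_le_mul_of_nonneg_left h7 g1
          have h9 : ν' 0 * (-3) ≤ ν' 0 * P 0 := mul_le_mul_of_nonpos_left h5.le g0
          nlinarith
      have hodd : ∀ ν' P : E3, inner ℝ ν' (-P) = -inner ℝ ν' P := fun ν' P => inner_neg_right _ _
      have nV : ∀ ν' : E3, ν' ≠ 0 → volume (KK δ A x ∩ {P | inner ℝ ν' P = 0}) = 0 :=
        fun ν' h5 => measure_mono_null inter_subset_right (plane_null ν' h5 0)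
      have AV := half_mid (μ := volume) fK (fun s _ => iV.neg s) mK (KK_sym h) (mI ν) (hodd ν)
        (nV ν hν)
        (fun P hP h5 => (sgn ν h0 h1 h2 hc.le P (fun h6 => KK_out h hP h6)).1 h5)
        (fun P hP h5 => (sgn ν h0 h1 h2 hc.le P (fun h6 => KK_out h hP h6)).2 h5)
      have BV := half_mid (μ := volume) fK (fun s _ => iV.neg s) mK (KK_sym h) (mI ν₁) (hodd ν₁)
        (nV ν₁ hν₁0)
        (fun P hP h5 => (sgn ν₁ (by rw [e0]; linarith) (by rw [e1]; norm_num) e2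
          (by rw [e0, e1]; linarith) P (fun h6 => KK_out h hP h6)).1 h5)
        (fun P hP h5 => (sgn ν₁ (by rw [e0]; linarith) (by rw [e1]; norm_num) e2
          (by rw [e0, e1]; linarith) P (fun h6 => KK_out h hP h6)).2 h5)
      have AS := half_mid (μ := σ) hSfin (fun s _ => iS.neg s) mS (SS_sym h) (mI ν) (hodd ν)
        hnull
        (fun P hP h5 => (sgn ν h0 h1 h2 hc.le P (fun h6 => SS_out h hP h6)).1 h5)
        (fun P hP h5 => (sgn ν h0 h1 h2 hc.le P (fun h6 => SS_out h hP h6)).2 h5)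
      have BS := half_mid (μ := σ) hSfin (fun s _ => iS.neg s) mS (SS_sym h) (mI ν₁) (hodd ν₁)
        hnull1
        (fun P hP h5 => (sgn ν₁ (by rw [e0]; linarith) (by rw [e1]; norm_num) e2
          (by rw [e0, e1]; linarith) P (fun h6 => SS_out h hP h6)).1 h5)
        (fun P hP h5 => (sgn ν₁ (by rw [e0]; linarith) (by rw [e1]; norm_num) e2
          (by rw [e0, e1]; linarith) P (fun h6 => SS_out h hP h6)).2 h5)
      refine ⟨0, ⟨?_, ?_⟩, hnull⟩
      · rw [AV, ← BV, v1]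
      · rw [AS, ← BS, s1]
  -- Claim 2: rotation and complement
  intro ν hν
  set ρ : ℝ := √(ν 1 ^ 2 + ν 2 ^ 2) with hρ
  have hρ0 : 0 ≤ ρ := Real.sqrt_nonneg _
  have hρ2 : ρ ^ 2 = ν 1 ^ 2 + ν 2 ^ 2 := Real.sq_sqrt (by positivity)
  obtain ⟨c, s, hcs, h1c, h1s⟩ : ∃ c s : ℝ, c ^ 2 + s ^ 2 = 1 ∧ ν 1 = ρ * c ∧ ν 2 = ρ * s := by
    by_cases hz : ρ = 0
    · refine ⟨1, 0, by norm_num, ?_, ?_⟩
      · rw [hz] at hρ2
        have : ν 1 ^ 2 = 0 := by nlinarith [sq_nonneg (ν 1), sq_nonneg (ν 2)]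
        rw [hz, pow_eq_zero_iff two_ne_zero |>.1 this]
        ring
      · rw [hz] at hρ2
        have : ν 2 ^ 2 = 0 := by nlinarith [sq_nonneg (ν 1), sq_nonneg (ν 2)]
        rw [hz, pow_eq_zero_iff two_ne_zero |>.1 this]
        ring
    · refine ⟨ν 1 / ρ, ν 2 / ρ, ?_, ?_, ?_⟩
      · rw [div_pow, div_pow, ← add_div, ← hρ2, div_self (pow_ne_zero 2 hz)]
      · field_simp
      · field_simp
  by_cases h0 : ν 0 ≤ 0
  · set ν' : E3 := !₂[ν 0, ρ, 0] with hν'
    have e0 : ν' 0 = ν 0 := by rw [hν']; simp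
    have e1 : ν' 1 = ρ := by rw [hν']; simp
    have e2 : ν' 2 = 0 := by rw [hν']; simp
    have hne : ν' ≠ 0 := by
      intro h5
      apply hν
      have k0 : ν 0 = 0 := by rw [← e0, h5]; simp
      have k1 : ρ = 0 := by rw [← e1, h5]; simp
      ext i
      fin_cases i
      · exact k0
      · show ν 1 = 0
        rw [h1c, k1, zero_mul]
      · show ν 2 = 0
        rw [h1s, k1, zero_mul]
    obtain ⟨τ, ⟨a1, a2⟩, -⟩ := claim1 ν' hne (by rw [e0]; exact h0) (by rw [e1]; exact hρ0) e2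
    have hin : ∀ P : E3, inner ℝ ν P = inner ℝ ν' (rotI c s hcs P) := by
      intro P
      rw [inner_eq, inner_eq, e0, e1, e2, rotI_apply, h1c, h1s]
      simp only [Fin.isValue, Matrix.cons_val_zero, Matrix.cons_val_one,
        Matrix.cons_val]
      ring
    refine ⟨τ, ?_, ?_⟩
    · rw [← a1, ← iV.rot (rotI c s hcs)
        (fun P => KK_inv (rotI_zero c s hcs P) (rotI_vr c s hcs P)) (fun P => inner ℝ ν' P) τ]
      simp only [hin]
    · rw [← a2, ← iS.rot (rotI c s hcs)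
        (fun P => SS_inv (rotI_zero c s hcs P) (rotI_vr c s hcs P)) (fun P => inner ℝ ν' P) τ]
      simp only [hin]
  · rw [not_le] at h0
    set ν' : E3 := !₂[-ν 0, ρ, 0] with hν'
    have e0 : ν' 0 = -ν 0 := by rw [hν']; simp
    have e1 : ν' 1 = ρ := by rw [hν']; simp
    have e2 : ν' 2 = 0 := by rw [hν']; simp
    have hne : ν' ≠ 0 := by
      intro h5
      have k0 : -ν 0 = 0 := by rw [← e0, h5]; simp
      linarith
    obtain ⟨τ, ⟨a1, a2⟩, a3⟩ := claim1 ν' hne (by rw [e0]; linarith) (by rw [e1]; exact hρ0) e2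
    have b1 := half_compl (μ := volume) fK (mI ν') a1
      (measure_mono_null inter_subset_right (plane_null ν' hne τ))
    have b2 := half_compl (μ := σ) hSfin (mI ν') a2 a3
    have hcs' : (-c) ^ 2 + (-s) ^ 2 = 1 := by rw [neg_sq, neg_sq]; exact hcs
    have hin : ∀ P : E3, inner ℝ ν P = -inner ℝ ν' (rotI (-c) (-s) hcs' P) := by
      intro P
      rw [inner_eq, inner_eq, e0, e1, e2, rotI_apply, h1c, h1s]
      simp only [Fin.isValue, Matrix.cons_val_zero, Matrix.cons_val_one,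
        Matrix.cons_val]
      ring
    have hsw : ∀ y : ℝ, τ ≤ y ↔ -y ≤ -τ := fun y => by constructor <;> intro h5 <;> linarith
    refine ⟨-τ, ?_, ?_⟩
    · rw [← b1]
      simp only [hsw]
      rw [← iV.rot (rotI (-c) (-s) hcs')
        (fun P => KK_inv (rotI_zero (-c) (-s) hcs' P) (rotI_vr (-c) (-s) hcs' P))
        (fun P => -inner ℝ ν' P) (-τ)]
      simp only [hin]
    · rw [← b2]
      simp only [hsw]
      rw [← iS.rot (rotI (-c) (-s) hcs')
        (fun P => SS_inv (rotI_zero (-c) (-s) hcs' P) (rotI_vr (-c) (-s) hcs' P))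
        (fun P => -inner ℝ ν' P) (-τ)]
      simp only [hin]

end Pool.Agent.HV
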