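import Pool.Agent.HV.Stmts

/-!
# Module HV_GK: the body is compact and convex with boundary `SS`   (helper24)
-/

set_option autoImplicit false

open MeasureTheory Set Filter
open scoped Real Topology ENNReal

namespace Pool.Agent.HV

namespace GKaux

/-! ## The radius function `vr` -/

theorem vr_eq (P : E3) : vr P = ‖(⟨P 1, P 2⟩ : ℂ)‖ := by
  rw [Complex.norm_def, Complex.normSq_mk]
  unfold vr
  congr 1
  ring

theorem vr_nonneg (P : E3) : 0 ≤ vr P := Real.sqrt_nonneg _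

theorem vr_add (P Q : E3) : vr (P + Q) ≤ vr P + vr Q := by
  rw [vr_eq, vr_eq, vr_eq]
  have : (⟨(P + Q) 1, (P + Q) 2⟩ : ℂ) = ⟨P 1, P 2⟩ + ⟨Q 1, Q 2⟩ := by
    apply Complex.ext <;> simp
  rw [this]
  exact norm_add_le _ _

theorem vr_smul (c : ℝ) (P : E3) : vr (c • P) = |c| * vr P := by
  rw [vr_eq, vr_eq]
  have : (⟨(c • P) 1, (c • P) 2⟩ : ℂ) = c * ⟨P 1, P 2⟩ := by
    apply Complex.ext <;> simp
  rw [this, norm_mul, Complex.norm_real, Real.norm_eq_abs]

theorem vr_cont : Continuous vr := by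
  unfold vr
  fun_prop

/-! ## Monotonicity off one point -/

theorem mono_aux {f f' : ℝ → ℝ} {a b : ℝ} (hab : a ≤ b) (hc : ContinuousOn f (Icc a b))
    (hd : ∀ t, a < t → t < b → HasDerivAt f (f' t) t ∧ 0 ≤ f' t) : f a ≤ f b := by
  have hm : MonotoneOn f (Icc a b) := by
    apply monotoneOn_of_deriv_nonneg (convex_Icc a b) hc
    · rw [interior_Icc]
      intro t ht
      exact (hd t ht.1 ht.2).1.differentiableAt.differentiableWithinAt
    · rw [interior_Icc]
      intro t ht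
      rw [(hd t ht.1 ht.2).1.deriv]
      exact (hd t ht.1 ht.2).2
  exact hm (left_mem_Icc.2 hab) (right_mem_Icc.2 hab) hab

theorem mono_except {f f' : ℝ → ℝ} {a b c : ℝ} (hab : a ≤ b) (hc : ContinuousOn f (Icc a b))
    (hd : ∀ t, a < t → t < b → t ≠ c → HasDerivAt f (f' t) t ∧ 0 ≤ f' t) : f a ≤ f b := by
  by_cases h : a < c ∧ c < b
  · obtain ⟨h1, h2⟩ := h
    refine le_trans (mono_aux (f' := f') h1.le (hc.mono (Icc_subset_Icc le_rfl h2.le)) ?_)
      (mono_aux (f' := f') h2.le (hc.mono (Icc_subset_Icc h1.le le_rfl)) ?_)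
    · intro t h3 h4
      exact hd t h3 (h4.trans h2) h4.ne
    · intro t h3 h4
      exact hd t (h1.trans h3) h4 h3.ne'
  · refine mono_aux (f' := f') hab hc ?_
    intro t h3 h4
    refine hd t h3 h4 ?_
    rintro rfl
    exact h ⟨h3, h4⟩

section

variable {δ : ℝ} {A dA : ℝ → ℝ} {x u : ℝ → ℝ → ℝ} (h : Prof δ A dA x u)

include h

theorem A0 : A 0 = 0 := by
  have := h.Aodd 0
  rw [neg_zero] at this
  linarith

theorem A1 : A 1 = 0 := h.Az 1 le_rfl

theorem rho0 (e : ℝ) : rho A x e 0 = 0 := by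
  unfold rho
  rw [A0 h]; ring

theorem rho1 (e : ℝ) : rho A x e 1 = 3 := by
  unfold rho
  rw [A1 h, h.x1 e]; ring

theorem Ac : Continuous A := continuous_iff_continuousAt.2 fun t => (h.hA t).continuousAt

theorem rho_cont (e : ℝ) : ContinuousOn (rho A x e) (Icc 0 1) := by
  unfold rho
  exact (continuousOn_id.mul (h.xc e)).sub ((continuous_const.mul (Ac h)).continuousOn)

theorem rho_deriv {e : ℝ} (he : e = 1 ∨ e = -1) (t : ℝ) (h0 : 0 < t) (h1 : t < 1)
    (h2 : t ≠ 1 / 2) : HasDerivAt (rho A x e) (drho δ dA x u e t) t := by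
  have := ((hasDerivAt_id t).mul (h.hx e he t h0 h1 h2)).sub ((h.hA t).const_mul e)
  unfold drho
  refine this.congr_deriv ?_
  simp only [id]
  ring

/-- monotonicity of `c₁ x + c₂ rho + c₃ t` -/
theorem key {e : ℝ} (he : e = 1 ∨ e = -1) (c₁ c₂ c₃ a b : ℝ) (ha : 0 ≤ a) (hab : a ≤ b)
    (hb : b ≤ 1)
    (hp : ∀ t, a < t → t < b → 0 ≤ c₁ * (δ ^ 2 * u e t) + c₂ * drho δ dA x u e t + c₃) :
    c₁ * x e a + c₂ * rho A x e a + c₃ * a ≤ c₁ * x e b + c₂ * rho A x e b + c₃ * b := by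
  refine mono_except (f := fun t => c₁ * x e t + c₂ * rho A x e t + c₃ * t)
    (f' := fun t => c₁ * (δ ^ 2 * u e t) + c₂ * drho δ dA x u e t + c₃) (c := 1 / 2) hab ?_ ?_
  · have h1 := (h.xc e).mono (Icc_subset_Icc ha hb)
    have h2 := (rho_cont h e).mono (Icc_subset_Icc ha hb)
    exact ((continuousOn_const.mul h1).add (continuousOn_const.mul h2)).add
      (continuousOn_const.mul continuousOn_id)
  · intro t h1 h2 h3
    have h4 : 0 < t := lt_of_le_of_lt ha h1
    have h5 : t < 1 := lt_of_lt_of_le h2 hb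
    refine ⟨?_, hp t h1 h2⟩
    have := (((h.hx e he t h4 h5 h3).const_mul c₁).add
      ((rho_deriv h he t h4 h5 h3).const_mul c₂)).add ((hasDerivAt_id t).const_mul c₃)
    refine this.congr_deriv ?_
    ring

theorem x_bd {e : ℝ} (he : e = 1 ∨ e = -1) (t : ℝ) (h0 : 0 ≤ t) (h1 : t ≤ 1) :
    3 ≤ x e t ∧ x e t ≤ 3 + 5 * δ ^ 2 := by
  have hδ := h.δ0
  have hδ2 : 0 < δ ^ 2 := by positivity
  constructor
  · have := key h he (-1) 0 0 t 1 h0 h1 le_rfl (by
      intro s h2 h3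
      have := (h.ub e he s (h0.trans h2.le) h3.le).2
      nlinarith)
    have h3 := h.x1 e
    linarith
  · have := key h he 1 0 (5 * δ ^ 2) t 1 h0 h1 le_rfl (by
      intro s h2 h3
      have := (h.ub e he s (h0.trans h2.le) h3.le).1
      nlinarith)
    have h3 := h.x1 e
    nlinarith

theorem drho_bd {e : ℝ} (he : e = 1 ∨ e = -1) (t : ℝ) (h0 : 0 ≤ t) (h1 : t ≤ 1) :
    2 ≤ drho δ dA x u e t ∧ drho δ dA x u e t ≤ 4 := by
  have hδ := h.δ0
  have hδ1 := h.δ1
  have hδ2 : δ ^ 2 ≤ 1 / 10000 := by nlinarith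
  have hδ3 : 0 < δ ^ 2 := by positivity
  obtain ⟨h2, h3⟩ := x_bd h he t h0 h1
  obtain ⟨h4, h5⟩ := h.ub e he t h0 h1
  have h6 := abs_le.1 (h.dAb t)
  have h7 : -(1 / 10) ≤ e * dA t ∧ e * dA t ≤ 1 / 10 := by
    rcases he with rfl | rfl
    · constructor <;> linarith [h6.1, h6.2]
    · constructor <;> linarith [h6.1, h6.2]
  have h8 : 0 ≤ t * δ ^ 2 := by positivity
  have h9 : t * δ ^ 2 ≤ 1 / 10000 := by nlinarith
  have h10 : t * δ ^ 2 * u e t ≤ 0 := by nlinarith
  have h11 : -(5 / 10000) ≤ t * δ ^ 2 * u e t := by nlinarith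
  unfold drho
  constructor
  · linarith [h7.2]
  · linarith [h7.1]

theorem x_strict {e : ℝ} (he : e = 1 ∨ e = -1) (a b : ℝ) (h0 : 0 ≤ a) (hab : a < b)
    (h1 : b ≤ 1) : x e b < x e a := by
  have hδ := h.δ0
  have hδ3 : 0 < δ ^ 2 := by positivity
  have := key h he (-1) 0 (-(δ ^ 2 / 20)) a b h0 hab.le h1 (by
    intro s h2 h3
    have := (h.ub e he s (h0.trans h2.le) (h3.le.trans h1)).2
    nlinarith)
  nlinarith

theorem rho_mono {e : ℝ} (he : e = 1 ∨ e = -1) (a b : ℝ) (h0 : 0 ≤ a) (hab : a ≤ b)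
    (h1 : b ≤ 1) : rho A x e a ≤ rho A x e b := by
  have := key h he 0 1 0 a b h0 hab h1 (by
    intro s h2 h3
    have := (drho_bd h he s (h0.trans h2.le) (h3.le.trans h1)).1
    linarith)
  linarith

theorem rho_bd {e : ℝ} (he : e = 1 ∨ e = -1) (t : ℝ) (h0 : 0 ≤ t) (h1 : t ≤ 1) :
    0 ≤ rho A x e t ∧ rho A x e t ≤ 3 := by
  constructor
  · have := rho_mono h he 0 t le_rfl h0 h1
    rwa [rho0 h] at this
  · have := rho_mono h he t 1 h0 h1 le_rfl
    rwa [rho1 h] at this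

theorem cone_ineq {e : ℝ} (he : e = 1 ∨ e = -1) (t : ℝ) (h0 : 0 ≤ t) (h1 : t ≤ 1) :
    x e t + 3 / 4 * (δ * rho A x e t) ≤ 3 + 9 / 4 * δ := by
  have hδ := h.δ0
  have hδ1 := h.δ1
  have := key h he 1 (3 / 4 * δ) 0 t 1 h0 h1 le_rfl (by
    intro s h2 h3
    have h4 := (drho_bd h he s (h0.trans h2.le) h3.le).1
    have h5 := (h.ub e he s (h0.trans h2.le) h3.le).1
    have h6 : 3 / 4 * δ * 2 ≤ 3 / 4 * δ * drho δ dA x u e s :=
      mul_le_mul_of_nonneg_left h4 (by positivity)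
    have h7 : δ ^ 2 * (-5) ≤ δ ^ 2 * u e s := mul_le_mul_of_nonneg_left h5 (by positivity)
    nlinarith)
  rw [h.x1 e, rho1 h] at this
  nlinarith

end

/-- minus the slope of the profile -/
noncomputable def sl (δ : ℝ) (dA : ℝ → ℝ) (x u : ℝ → ℝ → ℝ) (e t : ℝ) : ℝ :=
  -(u e t / drho δ dA x u e t)

section

variable {δ : ℝ} {A dA : ℝ → ℝ} {x u : ℝ → ℝ → ℝ} (h : Prof δ A dA x u)

include h

theorem sl_bd {e : ℝ} (he : e = 1 ∨ e = -1) (t : ℝ) (h0 : 0 ≤ t) (h1 : t ≤ 1) :
    0 < sl δ dA x u e t ∧ sl δ dA x u e t ≤ 5 / 2 := by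
  obtain ⟨h2, h3⟩ := h.ub e he t h0 h1
  obtain ⟨h4, h5⟩ := drho_bd h he t h0 h1
  have h6 : 0 < drho δ dA x u e t := by linarith
  unfold sl
  constructor
  · rw [← neg_div]
    exact div_pos (by linarith) h6
  · rw [← neg_div, div_le_iff₀ h6]
    nlinarith

theorem tangent {e : ℝ} (he : e = 1 ∨ e = -1) (s t : ℝ) (hs0 : 0 ≤ s) (hs1 : s ≤ 1)
    (ht0 : 0 ≤ t) (ht1 : t ≤ 1) :
    x e s + δ ^ 2 * sl δ dA x u e t * rho A x e s ≤
      x e t + δ ^ 2 * sl δ dA x u e t * rho A x e t := by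
  have hδ := h.δ0
  have hδ3 : 0 < δ ^ 2 := by positivity
  set c := sl δ dA x u e t with hc
  have hd : ∀ r, 0 ≤ r → r ≤ 1 → δ ^ 2 * u e r + δ ^ 2 * c * drho δ dA x u e r =
      δ ^ 2 * drho δ dA x u e r * (u e r / drho δ dA x u e r - u e t / drho δ dA x u e t) := by
    intro r h1 h2
    have h6 : 0 < drho δ dA x u e r := by linarith [(drho_bd h he r h1 h2).1]
    have h7 : drho δ dA x u e r ≠ 0 := h6.ne'
    rw [hc]
    unfold sl
    have h8 : u e r = drho δ dA x u e r * (u e r / drho δ dA x u e r) := by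
      field_simp
    linear_combination δ ^ 2 * h8
  rcases lt_trichotomy s t with hst | hst | hst
  · have := key h he 1 (δ ^ 2 * c) 0 s t hs0 hst.le ht1 (by
      intro r h1 h2
      have h3 : 0 ≤ r := hs0.trans h1.le
      have h4 : r ≤ 1 := h2.le.trans ht1
      have h5 := h.slope e he r t h3 h2 ht1
      have h6 : 0 < drho δ dA x u e r := by linarith [(drho_bd h he r h3 h4).1]
      rw [one_mul, hd r h3 h4, add_zero]
      exact mul_nonneg (by positivity) (by linarith))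
    linarith
  · rw [hst]
  · have := key h he (-1) (-(δ ^ 2 * c)) 0 t s ht0 hst.le hs1 (by
      intro r h1 h2
      have h3 : 0 ≤ r := ht0.trans h1.le
      have h4 : r ≤ 1 := h2.le.trans hs1
      have h5 := h.slope e he t r ht0 h1 h4
      have h6 : 0 < drho δ dA x u e r := by linarith [(drho_bd h he r h3 h4).1]
      have h7 := hd r h3 h4
      have h8 : δ ^ 2 * drho δ dA x u e r *
        (u e r / drho δ dA x u e r - u e t / drho δ dA x u e t) ≤ 0 :=
        mul_nonpos_of_nonneg_of_nonpos (by positivity) (by linarith)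
      linarith)
    linarith

end

/-- the half spaces -/
def Hs (e c d : ℝ) : Set E3 := {P | e * P 0 + c * vr P ≤ d}

theorem Hs_closed (e c d : ℝ) : IsClosed (Hs e c d) := by
  unfold Hs
  refine isClosed_le ?_ continuous_const
  have := vr_cont
  fun_prop

theorem Hs_convex (e c d : ℝ) (hc : 0 ≤ c) : Convex ℝ (Hs e c d) := by
  intro P hP Q hQ a b ha hb hab
  simp only [Hs, mem_setOf_eq] at hP hQ ⊢
  have h1 : vr (a • P + b • Q) ≤ a * vr P + b * vr Q := by
    refine (vr_add _ _).trans ?_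
    rw [vr_smul, vr_smul, abs_of_nonneg ha, abs_of_nonneg hb]
  have h2 : (a • P + b • Q) 0 = a * P 0 + b * Q 0 := by simp
  rw [h2]
  have h3 := mul_le_mul_of_nonneg_left h1 hc
  have h4 := mul_le_mul_of_nonneg_left hP ha
  have h5 := mul_le_mul_of_nonneg_left hQ hb
  have h6 : a * d + b * d = d := by rw [← add_mul, hab, one_mul]
  nlinarith

/-- the body as an intersection of convex sets -/
def KI (δ : ℝ) (A dA : ℝ → ℝ) (x u : ℝ → ℝ → ℝ) : Set E3 :=
  {P | ∀ e, (e = 1 ∨ e = -1) → P ∈ Hs e (3 / 4) (3 + 9 / 4 * δ) ∧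
    ∀ t, 0 ≤ t → t ≤ 1 → P ∈ Hs e (δ * sl δ dA x u e t)
      (x e t + δ ^ 2 * sl δ dA x u e t * rho A x e t)}

section

variable {δ : ℝ} {A dA : ℝ → ℝ} {x u : ℝ → ℝ → ℝ} (h : Prof δ A dA x u)

include h

theorem cap_sub {e : ℝ} (he : e = 1 ∨ e = -1) : Kcap δ A x e ⊆ KI δ A dA x u := by
  rintro P ⟨s, hs0, hs1, hP0, hP1⟩
  have hδ := h.δ0
  have hδ1 := h.δ1
  have hv := vr_nonneg P
  obtain ⟨hx1, hx2⟩ := x_bd h he s hs0 hs1
  obtain ⟨hr1, hr2⟩ := rho_bd h he s hs0 hs1
  intro e' he'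
  have hcase : e' = e ∨ e' = -e := by
    rcases he with rfl | rfl <;> rcases he' with rfl | rfl <;> simp
  rcases hcase with rfl | rfl
  · constructor
    · have := cone_ineq h he s hs0 hs1
      simp only [Hs, mem_setOf_eq]
      rw [hP0]
      linarith
    · intro t ht0 ht1
      have h1 := tangent h he s t hs0 hs1 ht0 ht1
      have h2 := (sl_bd h he t ht0 ht1).1
      simp only [Hs, mem_setOf_eq]
      rw [hP0]
      have h3 : δ * sl δ dA x u e' t * vr P ≤ δ * sl δ dA x u e' t * (δ * rho A x e' s) :=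
        mul_le_mul_of_nonneg_left hP1 (by positivity)
      nlinarith
  · have hneg : -e * P 0 = -(x e s) := by rw [neg_mul, hP0]
    have hvr : vr P ≤ 3 * δ := by nlinarith
    constructor
    · simp only [Hs, mem_setOf_eq]
      rw [hneg]
      linarith
    · intro t ht0 ht1
      obtain ⟨h2, h2'⟩ := sl_bd h he' t ht0 ht1
      obtain ⟨hx3, hx4⟩ := x_bd h he' t ht0 ht1
      obtain ⟨hr3, hr4⟩ := rho_bd h he' t ht0 ht1
      simp only [Hs, mem_setOf_eq]
      rw [hneg]
      have h3 : 0 ≤ δ ^ 2 * sl δ dA x u (-e) t * rho A x (-e) t := by positivity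
      have h4 : δ * sl δ dA x u (-e) t ≤ 1 := by nlinarith
      have h5 : δ * sl δ dA x u (-e) t * vr P ≤ 1 * vr P := mul_le_mul_of_nonneg_right h4 hv
      nlinarith

theorem mid_sub : Kmid δ ⊆ KI δ A dA x u := by
  rintro P ⟨hP0, hP1⟩
  have hδ := h.δ0
  have hδ1 := h.δ1
  have hv := vr_nonneg P
  intro e he
  have hle : e * P 0 ≤ |P 0| := by
    rcases he with rfl | rfl
    · rw [one_mul]; exact le_abs_self _
    · rw [neg_one_mul]; exact neg_le_abs _
  constructor
  · simp only [Hs, mem_setOf_eq]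
    linarith
  · intro t ht0 ht1
    obtain ⟨h2, h2'⟩ := sl_bd h he t ht0 ht1
    have h1 := tangent h he 1 t zero_le_one le_rfl ht0 ht1
    rw [h.x1 e, rho1 h] at h1
    simp only [Hs, mem_setOf_eq]
    have h3 : vr P ≤ 4 / 3 * (3 + 9 / 4 * δ - e * P 0) := by linarith
    have h4 : 0 ≤ δ * sl δ dA x u e t := by positivity
    have h5 : δ * sl δ dA x u e t ≤ 3 / 4 := by nlinarith
    have h6 := mul_le_mul_of_nonneg_left h3 h4
    have h7 : e * P 0 ≤ 3 := hle.trans hP0
    nlinarith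

theorem KI_sub : KI δ A dA x u ⊆ KK δ A x := by
  intro P hP
  have hδ := h.δ0
  by_cases h3 : |P 0| ≤ 3
  · left; left
    refine ⟨h3, ?_⟩
    have h1 := (hP 1 (Or.inl rfl)).1
    have h2 := (hP (-1) (Or.inr rfl)).1
    simp only [Hs, mem_setOf_eq] at h1 h2
    rcases abs_cases (P 0) with ⟨h4, -⟩ | ⟨h4, -⟩ <;> rw [h4] <;> linarith
  · push_neg at h3
    have hmain : ∀ e, (e = 1 ∨ e = -1) → 3 < e * P 0 → P ∈ Kcap δ A x e := by
      intro e he he3
      have h0 := (hP e he).2 0 le_rfl zero_le_one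
      simp only [Hs, mem_setOf_eq] at h0
      rw [rho0 h, mul_zero, add_zero] at h0
      have h1 := (sl_bd h he 0 le_rfl zero_le_one).1
      have h2 : 0 ≤ δ * sl δ dA x u e 0 * vr P := by
        have := vr_nonneg P
        positivity
      have h4 : e * P 0 ∈ Icc (x e 1) (x e 0) := by
        rw [h.x1 e]
        exact ⟨he3.le, by linarith⟩
      obtain ⟨s, hs, hs2⟩ := intermediate_value_Icc' zero_le_one (h.xc e) h4
      refine ⟨s, hs.1, hs.2, hs2.symm, ?_⟩
      have h5 := (hP e he).2 s hs.1 hs.2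
      simp only [Hs, mem_setOf_eq] at h5
      rw [hs2] at h5
      have h6 := (sl_bd h he s hs.1 hs.2).1
      have h7 : δ * sl δ dA x u e s * vr P ≤ δ * sl δ dA x u e s * (δ * rho A x e s) := by
        nlinarith
      exact le_of_mul_le_mul_left h7 (by positivity)
    rcases abs_cases (P 0) with ⟨h4, -⟩ | ⟨h4, -⟩
    · left; right
      exact hmain 1 (Or.inl rfl) (by rw [one_mul]; linarith)
    · right
      exact hmain (-1) (Or.inr rfl) (by rw [neg_one_mul]; linarith)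

theorem KK_eq : KK δ A x = KI δ A dA x u := by
  apply Subset.antisymm
  · rintro P ((hP | hP) | hP)
    · exact mid_sub h hP
    · exact cap_sub h (Or.inl rfl) hP
    · exact cap_sub h (Or.inr rfl) hP
  · exact KI_sub h

theorem KK_closed : IsClosed (KK δ A x) := by
  rw [KK_eq h]
  have : KI δ A dA x u = ⋂ e : ℝ, ⋂ _ : (e = 1 ∨ e = -1), (Hs e (3 / 4) (3 + 9 / 4 * δ) ∩
      ⋂ t : ℝ, ⋂ _ : 0 ≤ t, ⋂ _ : t ≤ 1, Hs e (δ * sl δ dA x u e t)
      (x e t + δ ^ 2 * sl δ dA x u e t * rho A x e t)) := by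
    ext P
    simp only [KI, mem_setOf_eq, mem_iInter, mem_inter_iff]
  rw [this]
  refine isClosed_iInter fun e => isClosed_iInter fun _ => ?_
  refine (Hs_closed _ _ _).inter ?_
  exact isClosed_iInter fun t => isClosed_iInter fun _ => isClosed_iInter fun _ =>
    Hs_closed _ _ _

theorem KK_convex : Convex ℝ (KK δ A x) := by
  rw [KK_eq h]
  have : KI δ A dA x u = ⋂ e : ℝ, ⋂ _ : (e = 1 ∨ e = -1), (Hs e (3 / 4) (3 + 9 / 4 * δ) ∩
      ⋂ t : ℝ, ⋂ _ : 0 ≤ t, ⋂ _ : t ≤ 1, Hs e (δ * sl δ dA x u e t)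
      (x e t + δ ^ 2 * sl δ dA x u e t * rho A x e t)) := by
    ext P
    simp only [KI, mem_setOf_eq, mem_iInter, mem_inter_iff]
  rw [this]
  have hδ := h.δ0
  refine convex_iInter fun e => convex_iInter fun he => ?_
  refine (Hs_convex _ _ _ (by norm_num)).inter ?_
  refine convex_iInter fun t => convex_iInter fun ht0 => convex_iInter fun ht1 => ?_
  refine Hs_convex _ _ _ ?_
  have := (sl_bd h he t ht0 ht1).1
  positivity

theorem KK_bdd : Bornology.IsBounded (KK δ A x) := by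
  have hδ := h.δ0
  have hδ1 := h.δ1
  refine (Metric.isBounded_closedBall (x := (0 : E3)) (r := 10)).subset ?_
  intro P hP
  have hb : |P 0| ≤ 4 ∧ vr P ≤ 5 := by
    have hcap : ∀ e, (e = 1 ∨ e = -1) → P ∈ Kcap δ A x e → |P 0| ≤ 4 ∧ vr P ≤ 5 := by
      rintro e he ⟨s, hs0, hs1, hP0, hP1⟩
      obtain ⟨hx1, hx2⟩ := x_bd h he s hs0 hs1
      obtain ⟨hr1, hr2⟩ := rho_bd h he s hs0 hs1
      constructor
      · have : |e * P 0| ≤ 4 := by
          rw [hP0, abs_of_nonneg (by linarith)]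
          nlinarith
        rw [abs_mul] at this
        have he1 : |e| = 1 := by rcases he with rfl | rfl <;> simp
        rwa [he1, one_mul] at this
      · nlinarith
    rcases hP with (hP | hP) | hP
    · obtain ⟨h1, h2⟩ := hP
      refine ⟨by linarith, ?_⟩
      have := abs_nonneg (P 0)
      linarith
    · exact hcap 1 (Or.inl rfl) hP
    · exact hcap (-1) (Or.inr rfl) hP
  rw [mem_closedBall_zero_iff]
  rw [EuclideanSpace.norm_eq]
  rw [Real.sqrt_le_left (by norm_num)]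
  rw [Fin.sum_univ_three]
  simp only [Real.norm_eq_abs, sq_abs]
  have h1 : P 0 ^ 2 ≤ 16 := by
    have := abs_le.1 hb.1
    nlinarith [this.1, this.2]
  have h2 : P 1 ^ 2 + P 2 ^ 2 ≤ 25 := by
    have h3 : vr P ^ 2 = P 1 ^ 2 + P 2 ^ 2 := Real.sq_sqrt (by positivity)
    have := vr_nonneg P
    nlinarith [hb.2]
  nlinarith

/-- the open core -/
theorem open_core : {P : E3 | |P 0| < 3 ∧ vr P < 4 / 3 * (3 + 9 / 4 * δ - |P 0|)} ⊆
    interior (KK δ A x) := by
  apply interior_maximal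
  · intro P hP
    left; left
    exact ⟨hP.1.le, hP.2.le⟩
  · have := vr_cont
    have hc0 : Continuous fun P : E3 => |P 0| := by fun_prop
    exact (isOpen_lt hc0 continuous_const).inter
      (isOpen_lt this (continuous_const.mul (continuous_const.sub hc0)))

theorem zero_int : (0 : E3) ∈ interior (KK δ A x) := by
  apply open_core h
  have hδ := h.δ0
  refine ⟨by simp, ?_⟩
  have : vr (0 : E3) = 0 := by simp [vr]
  rw [this]
  simp only [PiLp.zero_apply, abs_zero]
  nlinarith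

theorem not_int (P : E3) (e c d : ℝ) (he : e = 1 ∨ e = -1)
    (hsub : KK δ A x ⊆ Hs e c d) (heq : e * P 0 + c * vr P = d) : P ∉ interior (KK δ A x) := by
  intro hP
  have hf : Continuous fun η : ℝ => P + η • (EuclideanSpace.single 0 e : E3) := by fun_prop
  have hmem : (0 : ℝ) ∈ (fun η : ℝ => P + η • (EuclideanSpace.single 0 e : E3)) ⁻¹'
      interior (KK δ A x) := by
    simp only [mem_preimage, zero_smul, add_zero]
    exact hP
  have hopen := (isOpen_interior (s := KK δ A x)).preimage hf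
  obtain ⟨ε, hε, hball⟩ := Metric.isOpen_iff.1 hopen 0 (by simpa using hP)
  have h1 : (ε / 2) ∈ Metric.ball (0 : ℝ) ε := by
    rw [Metric.mem_ball, Real.dist_eq, sub_zero, abs_of_pos (by positivity)]
    linarith
  have h2 := hsub (interior_subset (hball h1))
  simp only [Hs, mem_setOf_eq] at h2
  have h3 : vr (P + (ε / 2) • (EuclideanSpace.single 0 e : E3)) = vr P := by
    unfold vr
    congr 1
    simp
  have h4 : (P + (ε / 2) • (EuclideanSpace.single 0 e : E3)) 0 = P 0 + ε / 2 * e := by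
    simp
  rw [h3, h4] at h2
  have h5 : e * e = 1 := by rcases he with rfl | rfl <;> norm_num
  have h6 : e * (P 0 + ε / 2 * e) = e * P 0 + ε / 2 := by
    linear_combination (ε / 2) * h5
  rw [h6] at h2
  linarith

theorem SS_sub : SS δ A x ⊆ KK δ A x := by
  rintro P ((hP | hP) | hP)
  · left; left
    exact ⟨hP.1, hP.2.le⟩
  · left; right
    obtain ⟨t, h0, h1, h2, h3⟩ := hP
    exact ⟨t, h0, h1, h2, h3.le⟩
  · right
    obtain ⟨t, h0, h1, h2, h3⟩ := hP
    exact ⟨t, h0, h1, h2, h3.le⟩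

theorem SS_not_int (P : E3) (hP : P ∈ SS δ A x) : P ∉ interior (KK δ A x) := by
  have hcap : ∀ e, (e = 1 ∨ e = -1) → P ∈ Scap δ A x e → P ∉ interior (KK δ A x) := by
    rintro e he ⟨t, h0, h1, h2, h3⟩
    refine not_int h P e (δ * sl δ dA x u e t)
      (x e t + δ ^ 2 * sl δ dA x u e t * rho A x e t) he ?_ ?_
    · rw [KK_eq h]
      intro Q hQ
      exact (hQ e he).2 t h0 h1
    · rw [h2, h3]; ring
  rcases hP with (hP | hP) | hP
  · have hc : ∀ e, (e = 1 ∨ e = -1) → KK δ A x ⊆ Hs e (3 / 4) (3 + 9 / 4 * δ) := by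
      intro e he
      rw [KK_eq h]
      intro Q hQ
      exact (hQ e he).1
    obtain ⟨h1, h2⟩ := hP
    rcases abs_cases (P 0) with ⟨h4, -⟩ | ⟨h4, -⟩
    · refine not_int h P 1 (3 / 4) (3 + 9 / 4 * δ) (Or.inl rfl) (hc 1 (Or.inl rfl)) ?_
      rw [h2, h4]; ring
    · refine not_int h P (-1) (3 / 4) (3 + 9 / 4 * δ) (Or.inr rfl) (hc (-1) (Or.inr rfl)) ?_
      rw [h2, h4]; ring
  · exact hcap 1 (Or.inl rfl) hP
  · exact hcap (-1) (Or.inr rfl) hP

/-- points strictly inside a cap are interior -/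
theorem cap_int {e : ℝ} (he : e = 1 ∨ e = -1) (P : E3) (t : ℝ) (h0 : 0 ≤ t) (h1 : t ≤ 1)
    (h2 : e * P 0 = x e t) (h3 : vr P < δ * rho A x e t) : P ∈ interior (KK δ A x) := by
  have hδ := h.δ0
  have ht : 0 < t := by
    rcases h0.lt_or_eq with h4 | h4
    · exact h4
    · exfalso
      rw [← h4, rho0 h, mul_zero] at h3
      exact absurd (vr_nonneg P) (not_le.2 h3)
  obtain ⟨hx1, hx2⟩ := x_bd h he t h0 h1
  -- find `s < t` close to `t`
  have hcont : ContinuousOn (fun s => δ * rho A x e s * x e t - vr P * x e s) (Icc 0 t) := by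
    have h5 := (h.xc e).mono (Icc_subset_Icc le_rfl h1)
    have h6 := (rho_cont h e).mono (Icc_subset_Icc le_rfl h1)
    exact ((continuousOn_const.mul h6).mul continuousOn_const).sub (continuousOn_const.mul h5)
  have hpos : 0 < δ * rho A x e t * x e t - vr P * x e t := by
    rw [← sub_mul]
    exact mul_pos (by linarith) (by linarith)
  have hev : ∀ᶠ s in 𝓝[Iio t] t, 0 < δ * rho A x e s * x e t - vr P * x e s := by
    have h7 : Tendsto (fun s => δ * rho A x e s * x e t - vr P * x e s) (𝓝[Ioo 0 t] t)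
        (𝓝 (δ * rho A x e t * x e t - vr P * x e t)) :=
      (hcont t (right_mem_Icc.2 ht.le)).mono_left (nhdsWithin_mono _ Ioo_subset_Icc_self)
    rw [nhdsWithin_Ioo_eq_nhdsLT ht] at h7
    exact h7.eventually (lt_mem_nhds hpos)
  have hev2 : ∀ᶠ s in 𝓝[Iio t] t, s ∈ Ioo 0 t := Ioo_mem_nhdsLT ht
  obtain ⟨s, hs1, hs2⟩ := (hev.and hev2).exists
  have hs3 := x_strict h he s t hs2.1.le hs2.2 h1
  have hxs : 0 < x e s := by linarith
  have hxt : 0 < x e t := by linarith
  -- the point `Q = (x s / x t) P`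
  have hQ : (x e s / x e t) • P ∈ KK δ A x := by
    have hQ' : (x e s / x e t) • P ∈ Kcap δ A x e := by
      refine ⟨s, hs2.1.le, hs2.2.le.trans h1, ?_, ?_⟩
      · have : ((x e s / x e t) • P) 0 = x e s / x e t * P 0 := by simp
        rw [this]
        have h8 : e * (x e s / x e t * P 0) = x e s / x e t * (e * P 0) := by ring
        rw [h8, h2]
        field_simp
      · rw [vr_smul, abs_of_pos (by positivity), div_mul_eq_mul_div, div_le_iff₀ hxt]
        linarith
    rcases he with rfl | rfl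
    · left; right; exact hQ'
    · right; exact hQ'
  have hseg : P ∈ openSegment ℝ (0 : E3) ((x e s / x e t) • P) := by
    refine ⟨1 - x e t / x e s, x e t / x e s, ?_, by positivity, by ring, ?_⟩
    · rw [sub_pos, div_lt_one hxs]
      exact hs3
    · rw [smul_zero, zero_add, smul_smul]
      have : x e t / x e s * (x e s / x e t) = 1 := by field_simp
      rw [this, one_smul]
  exact (KK_convex h).openSegment_interior_self_subset_interior (zero_int h) hQ hseg

theorem int_of (P : E3) (hP : P ∈ KK δ A x) (hS : P ∉ SS δ A x) : P ∈ interior (KK δ A x) := by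
  rcases hP with (hP | hP) | hP
  · obtain ⟨h1, h2⟩ := hP
    have h3 : vr P < 4 / 3 * (3 + 9 / 4 * δ - |P 0|) := by
      refine lt_of_le_of_ne h2 ?_
      intro h4
      exact hS (Or.inl (Or.inl ⟨h1, h4⟩))
    rcases h1.lt_or_eq with h4 | h4
    · exact open_core h ⟨h4, h3⟩
    · rw [h4] at h3
      have h6 : vr P < δ * 3 := by linarith
      rcases abs_cases (P 0) with ⟨h5, -⟩ | ⟨h5, -⟩
      · refine cap_int h (Or.inl rfl) P 1 zero_le_one le_rfl ?_ ?_
        · rw [h.x1 1]; linarith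
        · rw [rho1 h]; exact h6
      · refine cap_int h (Or.inr rfl) P 1 zero_le_one le_rfl ?_ ?_
        · rw [h.x1 (-1)]; linarith
        · rw [rho1 h]; exact h6
  · obtain ⟨t, h0, h1, h2, h3⟩ := hP
    refine cap_int h (Or.inl rfl) P t h0 h1 h2 (lt_of_le_of_ne h3 ?_)
    intro h4
    exact hS (Or.inl (Or.inr ⟨t, h0, h1, h2, h4⟩))
  · obtain ⟨t, h0, h1, h2, h3⟩ := hP
    refine cap_int h (Or.inr rfl) P t h0 h1 h2 (lt_of_le_of_ne h3 ?_)
    intro h4
    exact hS (Or.inr ⟨t, h0, h1, h2, h4⟩)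

end

end GKaux

open GKaux

/-- HV_GK -/
theorem GK : S_GK := by
  intro δ A dA x u h
  refine ⟨?_, KK_convex h, ⟨0, zero_int h⟩, ?_⟩
  · exact Metric.isCompact_of_isClosed_isBounded (KK_closed h) (KK_bdd h)
  · rw [frontier, (KK_closed h).closure_eq]
    apply Subset.antisymm
    · rintro P ⟨hP1, hP2⟩
      by_contra hS
      exact hP2 (int_of h P hP1 hS)
    · intro P hP
      exact ⟨SS_sub h hP, SS_not_int h P hP⟩

end Pool.Agent.HV
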