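import Pool.Agent.HV.Stmts

/-!
# Planar sections of the surface are null (module HV_GN of MP_678b51_gt)   (helper86)
-/

set_option autoImplicit false

open MeasureTheory Set Filter
open scoped Real Topology ENNReal

namespace Pool.Agent.HV

namespace GNaux

lemma inner3 (ν P : E3) : inner ℝ ν P = ν 0 * P 0 + ν 1 * P 1 + ν 2 * P 2 := by
  simp [PiLp.inner_apply, Fin.sum_univ_three]
  ring

/-- the solutions of `a cos θ + b sin θ = c` are countable -/
lemma trig_countable (a b c : ℝ) (h : a ≠ 0 ∨ b ≠ 0) :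
    {θ : ℝ | a * Real.cos θ + b * Real.sin θ = c}.Countable := by
  set z : ℂ := ⟨a, b⟩ with hz
  have hz0 : z ≠ 0 := by
    intro h0
    have h1 := congrArg Complex.re h0
    have h2 := congrArg Complex.im h0
    simp [hz] at h1 h2
    rcases h with h | h
    · exact h h1
    · exact h h2
  have hn : 0 < ‖z‖ := norm_pos_iff.2 hz0
  have hc : ‖z‖ * Real.cos z.arg = a := by
    have := Complex.norm_mul_cos_arg z
    simpa [hz] using this
  have hs : ‖z‖ * Real.sin z.arg = b := by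
    have := Complex.norm_mul_sin_arg z
    simpa [hz] using this
  have e : ∀ θ, a * Real.cos θ + b * Real.sin θ = ‖z‖ * Real.cos (θ - z.arg) := by
    intro θ
    rw [Real.cos_sub]
    calc a * Real.cos θ + b * Real.sin θ = (‖z‖ * Real.cos z.arg) * Real.cos θ +
      (‖z‖ * Real.sin z.arg) * Real.sin θ := by rw [hc, hs]
      _ = _ := by ring
  rcases Set.eq_empty_or_nonempty {θ : ℝ | a * Real.cos θ + b * Real.sin θ = c} with h1 | ⟨θ₀, h1⟩
  · rw [h1]; exact Set.countable_empty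
  · rw [Set.mem_setOf_eq, e] at h1
    have hsub : {θ : ℝ | a * Real.cos θ + b * Real.sin θ = c} ⊆
        (Set.range fun k : ℤ => 2 * k * π + (θ₀ - z.arg) + z.arg) ∪
        (Set.range fun k : ℤ => 2 * k * π - (θ₀ - z.arg) + z.arg) := by
      intro θ hθ
      rw [Set.mem_setOf_eq, e, ← h1] at hθ
      have h2 := mul_left_cancel₀ hn.ne' hθ
      obtain ⟨k, hk | hk⟩ := Real.cos_eq_cos_iff.1 h2.symm
      · exact Or.inl ⟨k, by beta_reduce; linarith⟩
      · exact Or.inr ⟨k, by beta_reduce; linarith⟩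
    exact ((Set.countable_range _).union (Set.countable_range _)).mono hsub

section

variable {δ : ℝ} {A dA : ℝ → ℝ} {x u : ℝ → ℝ → ℝ}

lemma x_ge (h : Prof δ A dA x u) (e : ℝ) (he : e = 1 ∨ e = -1) (s : ℝ) (h0 : 0 ≤ s) (h1 : s ≤ 1) :
    3 ≤ x e s := by
  have hd : ∀ t, 0 < t → t < 1 → t ≠ 1 / 2 → deriv (x e) t ≤ 0 := by
    intro t h2 h3 h4
    rw [(h.hx e he t h2 h3 h4).deriv]
    have h5 := (h.ub e he t h2.le h3.le).2
    have h6 : 0 < δ ^ 2 := by have := h.δ0; positivity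
    nlinarith
  have hL : AntitoneOn (x e) (Icc 0 (1 / 2)) := by
    refine antitoneOn_of_deriv_nonpos (convex_Icc _ _)
      ((h.xc e).mono (Icc_subset_Icc le_rfl (by norm_num))) ?_ ?_
    · intro t ht
      rw [interior_Icc] at ht
      exact (h.hx e he t ht.1 (by linarith [ht.2]) ht.2.ne).differentiableAt.differentiableWithinAt
    · intro t ht
      rw [interior_Icc] at ht
      exact hd t ht.1 (by linarith [ht.2]) ht.2.ne
  have hR : AntitoneOn (x e) (Icc (1 / 2) 1) := by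
    refine antitoneOn_of_deriv_nonpos (convex_Icc _ _)
      ((h.xc e).mono (Icc_subset_Icc (by norm_num) le_rfl)) ?_ ?_
    · intro t ht
      rw [interior_Icc] at ht
      exact (h.hx e he t (by linarith [ht.1]) ht.2 ht.1.ne').differentiableAt.differentiableWithinAt
    · intro t ht
      rw [interior_Icc] at ht
      exact hd t (by linarith [ht.1]) ht.2 ht.1.ne'
  have h12 : 3 ≤ x e (1 / 2) := by
    rw [← h.x1 e]
    exact hR ⟨le_rfl, by norm_num⟩ ⟨by norm_num, le_rfl⟩ (by norm_num)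
  rcases le_total s (1 / 2) with h2 | h2
  · exact h12.trans (hL ⟨h0, h2⟩ ⟨by norm_num, le_rfl⟩ h2)
  · rw [← h.x1 e]
    exact hR ⟨h2, h1⟩ ⟨by norm_num, le_rfl⟩ h1

lemma A_le (h : Prof δ A dA x u) (s : ℝ) (h0 : 0 ≤ s) : |A s| ≤ 1 / 10 * s := by
  have hA0 : A 0 = 0 := by
    have := h.Aodd 0
    rw [neg_zero] at this
    linarith
  have := Convex.norm_image_sub_le_of_norm_hasDerivWithin_le (f := A) (f' := dA)
        (s := univ) (C := 1 / 10) (x := 0) (y := s) (fun x _ => (h.hA x).hasDerivWithinAt)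
        (fun x _ => by simpa using h.dAb x) convex_univ (mem_univ _) (mem_univ _)
  rw [Real.norm_eq_abs, Real.norm_eq_abs, hA0, sub_zero, sub_zero, abs_of_nonneg h0] at this
  exact this

lemma rho_pos (h : Prof δ A dA x u) (e : ℝ) (he : e = 1 ∨ e = -1) (s : ℝ) (h0 : 0 < s)
    (h1 : s ≤ 1) : 0 < rho A x e s := by
  have h2 := x_ge h e he s h0.le h1
  have h3 := A_le h s h0.le
  rw [abs_le] at h3
  unfold rho
  rcases he with rfl | rfl <;> nlinarith [h3.1, h3.2]

end

/-- the inner integral vanishes -/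
lemma inner_zero (ν : E3) (τ : ℝ) (hν : ν 1 ≠ 0 ∨ ν 2 ≠ 0) (X ρ : ℝ) (hρ : 0 < ρ) (k : ℝ≥0∞) :
    ∫⁻ θ in Ioo (-π) π, k * ({P : E3 | inner ℝ ν P = τ}.indicator 1
      (!₂[X, ρ * Real.cos θ, ρ * Real.sin θ] : E3)) = 0 := by
  have hc := trig_countable (ν 1 * ρ) (ν 2 * ρ) (τ - ν 0 * X) (by
    rcases hν with h | h
    · exact Or.inl (mul_ne_zero h hρ.ne')
    · exact Or.inr (mul_ne_zero h hρ.ne'))
  have hae := hc.ae_notMem (volume.restrict (Ioo (-π) π))
  rw [lintegral_congr_ae (g := fun _ => 0), lintegral_zero]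
  filter_upwards [hae] with θ hθ
  rw [Set.indicator_of_notMem, mul_zero]
  intro h
  apply hθ
  rw [Set.mem_setOf_eq, inner3] at h
  simp at h
  linarith

/-- the inner integral vanishes, axis case -/
lemma inner_zero' (ν : E3) (h1 : ν 1 = 0) (h2 : ν 2 = 0) (h0 : ν 0 ≠ 0) (X ρ : ℝ) (hX : X ≠ 0)
    (k : ℝ≥0∞) :
    ∫⁻ θ in Ioo (-π) π, k * ({P : E3 | inner ℝ ν P = 0}.indicator 1
      (!₂[X, ρ * Real.cos θ, ρ * Real.sin θ] : E3)) = 0 := by
  have : ∀ θ : ℝ, k * ({P : E3 | inner ℝ ν P = 0}.indicator 1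
      (!₂[X, ρ * Real.cos θ, ρ * Real.sin θ] : E3)) = 0 := by
    intro θ
    rw [Set.indicator_of_notMem, mul_zero]
    intro h
    rw [Set.mem_setOf_eq, inner3, h1, h2] at h
    simp at h
    rcases h with h | h
    · exact h0 h
    · exact hX h
  simp_rw [this]
  exact lintegral_zero

lemma outer_zero (l r : ℝ) (f : ℝ → ℝ≥0∞) (h : ∀ s ∈ Ioo l r, f s = 0) :
    ∫⁻ s in Ioo l r, f s = 0 := by
  rw [setLIntegral_congr_fun measurableSet_Ioo (g := fun _ => 0) h, lintegral_zero]

end GNaux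

open GNaux

/-- planar sections of the surface are null -/
theorem GN (hSF : S_SF) : S_GN := by
  intro δ A dA x u hP ν τ hν0 hντ
  have hδ := hP.δ0
  have hH : MeasurableSet {P : E3 | inner ℝ ν P = τ} :=
    (isClosed_eq (continuous_const.inner continuous_id) continuous_const).measurableSet
  rw [hSF δ A dA x u hP _ hH]
  have hxr : ∀ r ∈ Ioo 3 (Rh δ), 0 < xr δ r ∧ 0 < δ * r := by
    intro r hr
    constructor
    · have h1 : r - 3 < 4 / δ := by
        have := hr.2
        unfold Rh at this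
        linarith
      rw [lt_div_iff₀ hδ] at h1
      unfold xr
      nlinarith
    · have := hr.1
      positivity
  by_cases hν : ν 1 ≠ 0 ∨ ν 2 ≠ 0
  · have h1 := fun e (he : e = 1 ∨ e = -1) (s : ℝ) (hs : s ∈ Ioo (0 : ℝ) 1) (X : ℝ) (k : ℝ≥0∞) =>
      inner_zero ν τ hν X (δ * rho A x e s) (mul_pos hδ (rho_pos hP e he s hs.1 hs.2.le)) k
    have h2 := fun r (hr : r ∈ Ioo 3 (Rh δ)) (X : ℝ) (k : ℝ≥0∞) =>
      inner_zero ν τ hν X (δ * r) (hxr r hr).2 k
    rw [outer_zero, outer_zero, outer_zero, outer_zero]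
    · simp
    · intro r hr; exact h2 r hr _ _
    · intro s hs; exact h1 (-1) (Or.inr rfl) s hs _ _
    · intro r hr; exact h2 r hr _ _
    · intro s hs; exact h1 1 (Or.inl rfl) s hs _ _
  · push_neg at hν
    obtain ⟨hν1, hν2⟩ := hν
    have hτ := hντ hν1 hν2
    subst hτ
    have h0 : ν 0 ≠ 0 := by
      intro h
      apply hν0
      ext i
      fin_cases i
      · simpa using h
      · simpa using hν1
      · simpa using hν2
    have h1 := fun e (he : e = 1 ∨ e = -1) (s : ℝ) (hs : s ∈ Ioo (0 : ℝ) 1) =>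
      x_ge hP e he s hs.1.le hs.2.le
    rw [outer_zero, outer_zero, outer_zero, outer_zero]
    · simp
    · intro r hr
      exact inner_zero' ν hν1 hν2 h0 _ _ (by have := (hxr r hr).1; linarith) _
    · intro s hs
      exact inner_zero' ν hν1 hν2 h0 _ _ (by have := h1 (-1) (Or.inr rfl) s hs; linarith) _
    · intro r hr
      exact inner_zero' ν hν1 hν2 h0 _ _ (by have := (hxr r hr).1; linarith) _
    · intro s hs
      exact inner_zero' ν hν1 hν2 h0 _ _ (by have := h1 1 (Or.inl rfl) s hs; linarith) _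

end Pool.Agent.HV
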