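import Pool.Agent.HV.Stmts

/-!
# Module HV_GU (MP_678b51_gt): uniqueness of the halving plane of a given direction
-/

set_option autoImplicit false

open MeasureTheory Set Filter Metric
open scoped Real Topology ENNReal

namespace Pool.Agent.HV

namespace GUx

lemma aux {K : Set E3} (hK : IsCompact K) (hc : Convex ℝ K) (hi : (interior K).Nonempty)
    {ν : E3} {τ τ' : ℝ} (hlt : τ < τ')
    (h1 : volume (K ∩ {P | inner ℝ ν P ≤ τ}) = volume K / 2)
    (h2 : volume (K ∩ {P | inner ℝ ν P ≤ τ'}) = volume K / 2) : False := by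
  have hcont : Continuous fun P : E3 => inner ℝ ν P := by fun_prop
  have hfin : volume K ≠ ⊤ := hK.measure_lt_top.ne
  have hpos : volume K ≠ 0 :=
    (lt_of_lt_of_le (isOpen_interior.measure_pos volume hi) (measure_mono interior_subset)).ne'
  have hhalf : volume K / 2 ≠ 0 := (ENNReal.half_pos hpos).ne'
  have hhfin : volume K / 2 ≠ ⊤ := (ENNReal.div_lt_top hfin (by norm_num)).ne
  have hfr : volume (frontier K) = 0 := hc.addHaar_frontier volume
  have hKi : ∀ T : Set E3, volume (K ∩ T) ≠ 0 → (interior K ∩ T).Nonempty := by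
    intro T hT
    by_contra hne
    rw [Set.not_nonempty_iff_eq_empty] at hne
    apply hT
    refine measure_mono_null ?_ hfr
    rintro P ⟨hP, hPT⟩
    refine ⟨subset_closure hP, fun hPi => ?_⟩
    have : P ∈ interior K ∩ T := ⟨hPi, hPT⟩
    rw [hne] at this
    exact this
  have hmeas : ∀ σ : ℝ, MeasurableSet {P : E3 | inner ℝ ν P ≤ σ} := fun σ =>
    (isClosed_le hcont continuous_const).measurableSet
  obtain ⟨P, hPi, hP⟩ := hKi {P | inner ℝ ν P ≤ τ} (by rw [h1]; exact hhalf)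
  have h3 : volume (K \ {P | inner ℝ ν P ≤ τ'}) = volume K / 2 := by
    have h4 := measure_inter_add_sdiff K (μ := volume) (hmeas τ')
    rw [h2] at h4
    have h5 : volume K / 2 + volume K / 2 = volume K := ENNReal.add_halves _
    exact (ENNReal.add_right_inj hhfin).1 (h4.trans h5.symm)
  obtain ⟨Q, hQi, hQ⟩ := hKi {P | inner ℝ ν P ≤ τ'}ᶜ (by
    rw [← Set.sdiff_eq, h3]
    exact hhalf)
  have hP' : inner ℝ ν P ≤ τ := hP
  have hQ' : τ' < inner ℝ ν Q := not_le.1 hQ
  -- a point between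
  obtain ⟨R, hR, hRv⟩ : ∃ R ∈ segment ℝ P Q, inner ℝ ν R = (τ + τ') / 2 := by
    have hseg : IsPreconnected (segment ℝ P Q) := (convex_segment P Q).isPreconnected
    have hiv := hseg.intermediate_value (left_mem_segment ℝ P Q) (right_mem_segment ℝ P Q)
      hcont.continuousOn
    have hm : (τ + τ') / 2 ∈ Icc (inner ℝ ν P) (inner ℝ ν Q) := ⟨by linarith, by linarith⟩
    obtain ⟨R, hR, hRv⟩ := hiv hm
    exact ⟨R, hR, hRv⟩
  have hRi : R ∈ interior K := hc.interior.segment_subset hPi hQi hR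
  have hopen : IsOpen (interior K ∩ {P : E3 | τ < inner ℝ ν P ∧ inner ℝ ν P < τ'}) :=
    isOpen_interior.inter ((isOpen_lt continuous_const hcont).inter
      (isOpen_lt hcont continuous_const))
  have hRm : R ∈ interior K ∩ {P : E3 | τ < inner ℝ ν P ∧ inner ℝ ν P < τ'} := by
    refine ⟨hRi, ?_, ?_⟩
    · rw [hRv]; linarith
    · rw [hRv]; linarith
  have hp := hopen.measure_pos volume ⟨R, hRm⟩
  have hzero : volume ((K ∩ {P | inner ℝ ν P ≤ τ'}) \ (K ∩ {P | inner ℝ ν P ≤ τ})) = 0 := by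
    have hsub : K ∩ {P : E3 | inner ℝ ν P ≤ τ} ⊆ K ∩ {P : E3 | inner ℝ ν P ≤ τ'} :=
      fun x hx => ⟨hx.1, le_trans hx.2 hlt.le⟩
    rw [measure_sdiff hsub
      ((hK.measurableSet.inter (hmeas τ)).nullMeasurableSet) (by rw [h1]; exact hhfin), h1, h2,
      tsub_self]
  refine hp.ne' (measure_mono_null ?_ hzero)
  rintro x ⟨hx1, hx2, hx3⟩
  exact ⟨⟨interior_subset hx1, hx3.le⟩, fun hx => absurd hx.2 (not_le.2 hx2)⟩

end GUx

theorem GU : S_GU := by
  intro K hK hc hi ν τ τ' _ h1 h2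
  rcases lt_trichotomy τ τ' with h | h | h
  · exact (GUx.aux hK hc hi h h1 h2).elim
  · exact h
  · exact (GUx.aux hK hc hi h h2 h1).elim

end Pool.Agent.HV
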