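import Pool.Agent.HV.Stmts

/-!
# Module HV_GV (§1.2) for MP_678b51_gt   (helper18)

The planes `y = δ(tx - A(t))` halve the volume of the body.
-/

set_option autoImplicit false

open MeasureTheory Set Filter
open scoped Real Topology ENNReal

namespace Pool.Agent.HV

namespace GVm

/-! ## Slicing `E3` -/

/-- coordinates -/
noncomputable def mk3 (p : ℝ × ℝ × ℝ) : E3 := !₂[p.1, p.2.1, p.2.2]

/-- the measurable equivalence `ℝ × ℝ × ℝ ≃ E3` -/
noncomputable def eqv3 : (ℝ × ℝ × ℝ) ≃ᵐ E3 :=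
  ((MeasurableEquiv.refl ℝ).prodCongr MeasurableEquiv.finTwoArrow.symm).trans
    ((MeasurableEquiv.piFinSuccAbove (fun _ : Fin 3 => ℝ) 0).symm.trans
      (MeasurableEquiv.toLp 2 (Fin 3 → ℝ)))

theorem eqv3_apply (p : ℝ × ℝ × ℝ) : eqv3 p = mk3 p := by
  ext i
  fin_cases i <;> rfl

theorem mp_eqv3 : MeasurePreserving eqv3 := by
  have h1 : MeasurePreserving ((MeasurableEquiv.refl ℝ).prodCongr
      (MeasurableEquiv.finTwoArrow (α := ℝ)).symm) (volume : Measure (ℝ × ℝ × ℝ)) volume :=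
    (MeasurePreserving.id volume).prod (volume_preserving_finTwoArrow ℝ).symm
  have h2 : MeasurePreserving (MeasurableEquiv.piFinSuccAbove (fun _ : Fin 3 => ℝ) 0).symm :=
    (volume_preserving_piFinSuccAbove (fun _ : Fin 3 => ℝ) 0).symm
  have h3 : MeasurePreserving (MeasurableEquiv.toLp 2 (Fin 3 → ℝ)) :=
    (EuclideanSpace.volume_preserving_symm_measurableEquiv_toLp (Fin 3)).symm
  exact (h3.comp h2).comp h1

theorem meas_mk3 : Measurable mk3 := by
  have : mk3 = eqv3 := by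
    funext p
    exact (eqv3_apply p).symm
  rw [this]
  exact eqv3.measurable

theorem vol_slice (B : Set E3) (hB : MeasurableSet B) :
    volume B = ∫⁻ x : ℝ, volume {p : ℝ × ℝ | mk3 (x, p) ∈ B} := by
  have h1 : volume B = volume (mk3 ⁻¹' B) := by
    have : mk3 = eqv3 := by
      funext p
      exact (eqv3_apply p).symm
    rw [this]
    exact (mp_eqv3.measure_preimage hB.nullMeasurableSet).symm
  rw [h1]
  have h2 : (volume : Measure (ℝ × ℝ × ℝ)) = (volume : Measure ℝ).prod volume := rfl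
  rw [h2, Measure.prod_apply (meas_mk3 hB)]
  rfl

/-! ## The area of a cut disc -/

/-- `∫_{-ϱ}^m 2√(ϱ²-y²) dy` -/
noncomputable def Hd (q m : ℝ) : ℝ := ∫ y in (-q)..m, 2 * √(q ^ 2 - y ^ 2)

theorem Hd_nonneg {q m : ℝ} (hq : 0 ≤ q) : 0 ≤ Hd q m := by
  rcases le_total (-q) m with h | h
  · exact intervalIntegral.integral_nonneg h fun y _ => by positivity
  · unfold Hd
    rw [intervalIntegral.integral_symm]
    have : ∫ y in m..(-q), 2 * √(q ^ 2 - y ^ 2) = ∫ y in m..(-q), (0 : ℝ) := by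
      apply intervalIntegral.integral_congr
      intro y hy
      rw [uIcc_of_le h] at hy
      have : q ^ 2 - y ^ 2 ≤ 0 := by nlinarith [hy.1, hy.2]
      simp [Real.sqrt_eq_zero_of_nonpos this]
    rw [this]
    simp

theorem ms_disc (q m : ℝ) : MeasurableSet {p : ℝ × ℝ | √(p.1 ^ 2 + p.2 ^ 2) ≤ q ∧ p.1 ≤ m} := by
  have h1 : MeasurableSet {p : ℝ × ℝ | √(p.1 ^ 2 + p.2 ^ 2) ≤ q} :=
    measurableSet_le (f := fun p : ℝ × ℝ => √(p.1 ^ 2 + p.2 ^ 2)) (by fun_prop) measurable_const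
  have h2 : MeasurableSet {p : ℝ × ℝ | p.1 ≤ m} := measurableSet_le measurable_fst measurable_const
  exact h1.inter h2

theorem vol_disc {q m : ℝ} (hq : 0 ≤ q) :
    volume {p : ℝ × ℝ | √(p.1 ^ 2 + p.2 ^ 2) ≤ q ∧ p.1 ≤ m} = ENNReal.ofReal (Hd q m) := by
  have h2 : (volume : Measure (ℝ × ℝ)) = (volume : Measure ℝ).prod volume := rfl
  rw [h2, Measure.prod_apply (ms_disc q m)]
  have h3 : ∀ y : ℝ, volume (Prod.mk y ⁻¹' {p : ℝ × ℝ | √(p.1 ^ 2 + p.2 ^ 2) ≤ q ∧ p.1 ≤ m}) =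
      (Iic m).indicator (fun y => ENNReal.ofReal (2 * √(q ^ 2 - y ^ 2))) y := by
    intro y
    by_cases hy : y ≤ m
    · rw [indicator_of_mem (show y ∈ Iic m from hy)]
      by_cases hyq : y ^ 2 ≤ q ^ 2
      · have : Prod.mk y ⁻¹' {p : ℝ × ℝ | √(p.1 ^ 2 + p.2 ^ 2) ≤ q ∧ p.1 ≤ m} =
            Icc (-√(q ^ 2 - y ^ 2)) (√(q ^ 2 - y ^ 2)) := by
          ext z
          simp only [mem_preimage, mem_ofPred_eq, hy, and_true, mem_Icc]
          rw [Real.sqrt_le_left hq, ← abs_le, Real.le_sqrt (abs_nonneg z) (by linarith), sq_abs]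
          constructor <;> intro h <;> linarith
        rw [this, Real.volume_Icc]
        congr 1
        ring
      · have h4 : q ^ 2 - y ^ 2 ≤ 0 := by linarith
        rw [Real.sqrt_eq_zero_of_nonpos h4]
        have : Prod.mk y ⁻¹' {p : ℝ × ℝ | √(p.1 ^ 2 + p.2 ^ 2) ≤ q ∧ p.1 ≤ m} = ∅ := by
          ext z
          simp only [mem_preimage, mem_ofPred_eq, hy, and_true, mem_empty_iff_false, iff_false,
            not_le]
          apply Real.lt_sqrt_of_sq_lt
          nlinarith [sq_nonneg z]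
        rw [this]
        simp
    · rw [indicator_of_notMem (show y ∉ Iic m from hy)]
      have : Prod.mk y ⁻¹' {p : ℝ × ℝ | √(p.1 ^ 2 + p.2 ^ 2) ≤ q ∧ p.1 ≤ m} = ∅ := by
        ext z
        simp [hy]
      rw [this]
      simp
  simp only [h3]
  rw [lintegral_indicator measurableSet_Iic]
  have h4 : ∀ y, y ∉ Ioc (-q) q → ENNReal.ofReal (2 * √(q ^ 2 - y ^ 2)) = 0 := by
    intro y hy
    have : q ^ 2 - y ^ 2 ≤ 0 := by
      simp only [mem_Ioc, not_and_or, not_lt, not_le] at hy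
      rcases hy with h | h <;> nlinarith
    simp [Real.sqrt_eq_zero_of_nonpos this]
  rcases le_total (-q) m with h | h
  · have h5 : Iic m = Iic (-q) ∪ Ioc (-q) m := (Iic_union_Ioc_eq_Iic h).symm
    rw [h5, lintegral_union measurableSet_Ioc (by
      rw [Set.disjoint_left]
      intro y hy hy'
      exact absurd hy'.1 (not_lt.mpr hy))]
    have h6 : ∫⁻ y in Iic (-q), ENNReal.ofReal (2 * √(q ^ 2 - y ^ 2)) = 0 := by
      rw [setLIntegral_congr_fun (g := fun _ => 0) measurableSet_Iic]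
      · simp
      · intro y hy
        exact h4 y (fun h => absurd h.1 (not_lt.mpr hy))
    rw [h6, zero_add, Hd, intervalIntegral.integral_of_le h, ofReal_integral_eq_lintegral_ofReal]
    · have : Continuous fun y : ℝ => 2 * √(q ^ 2 - y ^ 2) := by fun_prop
      exact (this.integrableOn_Icc).mono_set Ioc_subset_Icc_self
    · exact Eventually.of_forall fun y => by positivity
  · have h6 : ∫⁻ y in Iic m, ENNReal.ofReal (2 * √(q ^ 2 - y ^ 2)) = 0 := by
      rw [setLIntegral_congr_fun (g := fun _ => 0) measurableSet_Iic]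
      · simp
      · intro y hy
        exact h4 y (fun h' => absurd h'.1 (not_lt.mpr (le_trans hy h)))
    rw [h6]
    symm
    rw [ENNReal.ofReal_eq_zero]
    unfold Hd
    rw [intervalIntegral.integral_symm]
    have : 0 ≤ ∫ y in m..(-q), 2 * √(q ^ 2 - y ^ 2) :=
      intervalIntegral.integral_nonneg h fun y _ => by positivity
    linarith

/-- half of the disc -/
theorem vol_disc_all {q : ℝ} (hq : 0 ≤ q) :
    volume {p : ℝ × ℝ | √(p.1 ^ 2 + p.2 ^ 2) ≤ q} = 2 * ENNReal.ofReal (Hd q 0) := by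
  have h1 : {p : ℝ × ℝ | √(p.1 ^ 2 + p.2 ^ 2) ≤ q} =
      {p : ℝ × ℝ | √(p.1 ^ 2 + p.2 ^ 2) ≤ q ∧ p.1 ≤ q} := by
    ext p
    simp only [mem_ofPred_eq]
    constructor
    · intro h
      refine ⟨h, ?_⟩
      rw [Real.sqrt_le_left hq] at h
      nlinarith [sq_nonneg p.2]
    · exact fun h => h.1
  rw [h1, vol_disc hq]
  have hc : Continuous fun y : ℝ => 2 * √(q ^ 2 - y ^ 2) := by fun_prop
  have h2 : Hd q q = 2 * Hd q 0 := by
    unfold Hd
    rw [← intervalIntegral.integral_add_adjacent_intervals (hc.intervalIntegrable (-q) 0)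
      (hc.intervalIntegrable 0 q)]
    have h3 : ∫ y in (-q)..0, 2 * √(q ^ 2 - y ^ 2) = ∫ y in (0:ℝ)..q, 2 * √(q ^ 2 - y ^ 2) := by
      have := intervalIntegral.integral_comp_neg (a := 0) (b := q)
        (fun y => 2 * √(q ^ 2 - y ^ 2))
      simp only [neg_sq, neg_zero] at this
      exact this.symm
    rw [h3]
    ring
  rw [h2, ENNReal.ofReal_mul (by norm_num)]
  norm_num

/-- `Hd` is jointly continuous -/
theorem cont_Hd : Continuous fun z : ℝ × ℝ => Hd z.1 z.2 := by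
  have h1 : Continuous fun z : ℝ × ℝ => ∫ y in (0 : ℝ)..z.2, 2 * √(z.1 ^ 2 - y ^ 2) := by
    apply intervalIntegral.continuous_parametric_intervalIntegral_of_continuous
    · fun_prop
    · fun_prop
  have h2 : Continuous fun z : ℝ × ℝ => ∫ y in (0 : ℝ)..(-z.1), 2 * √(z.1 ^ 2 - y ^ 2) := by
    apply intervalIntegral.continuous_parametric_intervalIntegral_of_continuous
    · fun_prop
    · fun_prop
  have h3 : (fun z : ℝ × ℝ => Hd z.1 z.2) = fun z =>
      (∫ y in (0 : ℝ)..z.2, 2 * √(z.1 ^ 2 - y ^ 2)) -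
        ∫ y in (0 : ℝ)..(-z.1), 2 * √(z.1 ^ 2 - y ^ 2) := by
    funext z
    have hc : Continuous fun y : ℝ => 2 * √(z.1 ^ 2 - y ^ 2) := by fun_prop
    unfold Hd
    rw [intervalIntegral.integral_interval_sub_left (hc.intervalIntegrable _ _)
      (hc.intervalIntegrable _ _)]
  rw [h3]
  exact h1.sub h2

theorem deriv_Hd (q m : ℝ) : HasDerivAt (fun m => Hd q m) (2 * √(q ^ 2 - m ^ 2)) m := by
  have hc : Continuous fun y : ℝ => 2 * √(q ^ 2 - y ^ 2) := by fun_prop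
  exact intervalIntegral.integral_hasDerivAt_right (hc.intervalIntegrable _ _)
    (hc.stronglyMeasurableAtFilter _ _) hc.continuousAt

/-! ## The body -/

section Body

variable {δ : ℝ} {A dA : ℝ → ℝ} {x u : ℝ → ℝ → ℝ}

theorem x_anti (hP : Prof δ A dA x u) {e : ℝ} (he : e = 1 ∨ e = -1) :
    StrictAntiOn (x e) (Icc 0 1) := by
  have hδ := hP.δ0
  have h1 : StrictAntiOn (x e) (Icc 0 (1 / 2)) := by
    apply strictAntiOn_of_deriv_neg (convex_Icc _ _)
    · exact (hP.xc e).mono (Icc_subset_Icc le_rfl (by norm_num))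
    · intro t ht
      rw [interior_Icc] at ht
      rw [(hP.hx e he t ht.1 (by linarith [ht.2]) ht.2.ne).deriv]
      have := (hP.ub e he t ht.1.le (by linarith [ht.2])).2
      have : 0 < δ ^ 2 := by positivity
      nlinarith
  have h2 : StrictAntiOn (x e) (Icc (1 / 2) 1) := by
    apply strictAntiOn_of_deriv_neg (convex_Icc _ _)
    · exact (hP.xc e).mono (Icc_subset_Icc (by norm_num) le_rfl)
    · intro t ht
      rw [interior_Icc] at ht
      rw [(hP.hx e he t (by linarith [ht.1]) ht.2 ht.1.ne').deriv]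
      have := (hP.ub e he t (by linarith [ht.1]) ht.2.le).2
      have : 0 < δ ^ 2 := by positivity
      nlinarith
  have h3 := h1.union h2 (c := 1 / 2) (isGreatest_Icc (by norm_num)) (isLeast_Icc (by norm_num))
  rwa [Icc_union_Icc_eq_Icc (by norm_num) (by norm_num)] at h3

theorem x_gt (hP : Prof δ A dA x u) {e : ℝ} (he : e = 1 ∨ e = -1) {s : ℝ} (h0 : 0 ≤ s)
    (h1 : s < 1) : 3 < x e s := by
  have := x_anti hP he ⟨h0, h1.le⟩ (right_mem_Icc.mpr zero_le_one) h1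
  rwa [hP.x1 e] at this

theorem x_ge (hP : Prof δ A dA x u) {e : ℝ} (he : e = 1 ∨ e = -1) {s : ℝ} (h0 : 0 ≤ s)
    (h1 : s ≤ 1) : 3 ≤ x e s := by
  have := (x_anti hP he).antitoneOn ⟨h0, h1⟩ (right_mem_Icc.mpr zero_le_one) h1
  rwa [hP.x1 e] at this

theorem A_zero (hP : Prof δ A dA x u) : A 0 = 0 := by
  have := hP.Aodd 0
  simp only [neg_zero] at this
  linarith

theorem A_lip (hP : Prof δ A dA x u) (a b : ℝ) : |A b - A a| ≤ 1 / 10 * |b - a| := by
  have := convex_univ.norm_image_sub_le_of_norm_hasDerivWithin_le (f := A) (f' := dA)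
    (C := 1 / 10) (fun t _ => (hP.hA t).hasDerivWithinAt) (fun t _ => hP.dAb t)
    (mem_univ a) (mem_univ b)
  simpa [Real.norm_eq_abs] using this

theorem A_cont (hP : Prof δ A dA x u) : Continuous A :=
  continuous_iff_continuousAt.mpr fun t => (hP.hA t).continuousAt

theorem e_sq {e : ℝ} (he : e = 1 ∨ e = -1) : e * e = 1 := by
  rcases he with h | h <;> rw [h] <;> norm_num

theorem e_abs {e : ℝ} (he : e = 1 ∨ e = -1) : |e| = 1 := by
  rcases he with h | h <;> rw [h] <;> norm_num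

theorem rho_nonneg (hP : Prof δ A dA x u) {e : ℝ} (he : e = 1 ∨ e = -1) {s : ℝ} (h0 : 0 ≤ s)
    (h1 : s ≤ 1) : 0 ≤ rho A x e s := by
  have h3 := x_ge hP he h0 h1
  have h4 := A_lip hP 0 s
  rw [A_zero hP, sub_zero, sub_zero, abs_of_nonneg h0] at h4
  have h5 : |e * A s| ≤ 1 / 10 * s := by rw [abs_mul, e_abs he, one_mul]; exact h4
  unfold rho
  have := (abs_le.mp h5).2
  nlinarith

/-- for `s ≤ τ` the line of parameter `τ` passes above the point of parameter `s` -/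
theorem rho_le (hP : Prof δ A dA x u) {e : ℝ} (he : e = 1 ∨ e = -1) {s τ : ℝ} (h0 : 0 ≤ s)
    (h1 : s ≤ τ) (h2 : τ ≤ 1) : rho A x e s ^ 2 - (τ * x e s - e * A τ) ^ 2 ≤ 0 := by
  have h3 := x_ge hP he h0 (h1.trans h2)
  have h4 := A_lip hP s τ
  rw [abs_of_nonneg (sub_nonneg.mpr h1)] at h4
  have h5 : |e * (A τ - A s)| ≤ 1 / 10 * (τ - s) := by rw [abs_mul, e_abs he, one_mul]; exact h4
  have h6 := rho_nonneg hP he h0 (h1.trans h2)
  have h7 : rho A x e s ≤ τ * x e s - e * A τ := by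
    have := (abs_le.mp h5).2
    unfold rho
    nlinarith
  nlinarith

/-! ### closedness -/

theorem cont_vr : Continuous vr := by
  unfold vr
  fun_prop

theorem closed_mid : IsClosed (Kmid δ) := by
  unfold Kmid
  apply IsClosed.inter (s₁ := {P : E3 | |P 0| ≤ 3})
    (s₂ := {P : E3 | vr P ≤ 4 / 3 * (3 + 9 / 4 * δ - |P 0|)})
  · exact isClosed_le (by fun_prop) continuous_const
  · exact isClosed_le cont_vr (by fun_prop)

theorem closed_cap (hP : Prof δ A dA x u) (e : ℝ) : IsClosed (Kcap δ A x e) := by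
  have hx : Continuous fun t : Icc (0 : ℝ) 1 => x e t := by
    have := hP.xc e
    rw [continuousOn_iff_continuous_domRestrict] at this
    exact this
  have hr : Continuous fun t : Icc (0 : ℝ) 1 => rho A x e t := by
    exact (continuous_subtype_val.mul hx).sub
      (continuous_const.mul ((A_cont hP).comp continuous_subtype_val))
  have hcl : IsClosed {z : Icc (0 : ℝ) 1 × E3 | e * z.2 0 = x e z.1 ∧
      vr z.2 ≤ δ * rho A x e z.1} := by
    apply IsClosed.inter (s₁ := {z : Icc (0 : ℝ) 1 × E3 | e * z.2 0 = x e z.1})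
      (s₂ := {z : Icc (0 : ℝ) 1 × E3 | vr z.2 ≤ δ * rho A x e z.1})
    · exact isClosed_eq (by fun_prop) (hx.comp continuous_fst)
    · exact isClosed_le (cont_vr.comp continuous_snd) (continuous_const.mul (hr.comp continuous_fst))
  have h := isClosedMap_snd_of_compactSpace (X := Icc (0 : ℝ) 1) (Y := E3) _ hcl
  convert h using 1
  ext P
  constructor
  · rintro ⟨t, h0, h1, h2, h3⟩
    exact ⟨(⟨t, h0, h1⟩, P), ⟨h2, h3⟩, rfl⟩
  · rintro ⟨⟨⟨t, h0, h1⟩, Q⟩, ⟨h2, h3⟩, rfl⟩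
    exact ⟨t, h0, h1, h2, h3⟩

theorem meas_KK (hP : Prof δ A dA x u) : MeasurableSet (KK δ A x) :=
  ((closed_mid.measurableSet).union (closed_cap hP 1).measurableSet).union
    (closed_cap hP (-1)).measurableSet

/-! ### slices of the body -/

theorem mk3_0 (y : ℝ) (p : ℝ × ℝ) : mk3 (y, p) 0 = y := rfl

theorem mk3_1 (y : ℝ) (p : ℝ × ℝ) : mk3 (y, p) 1 = p.1 := rfl

theorem vr_mk3 (y : ℝ) (p : ℝ × ℝ) : vr (mk3 (y, p)) = √(p.1 ^ 2 + p.2 ^ 2) := rfl

theorem mem_KK_cap (hP : Prof δ A dA x u) {e : ℝ} (he : e = 1 ∨ e = -1) {s : ℝ} (h0 : 0 ≤ s)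
    (h1 : s < 1) (p : ℝ × ℝ) :
    mk3 (e * x e s, p) ∈ KK δ A x ↔ √(p.1 ^ 2 + p.2 ^ 2) ≤ δ * rho A x e s := by
  have hx := x_gt hP he h0 h1
  unfold KK Kmid Kcap
  simp only [mem_union, mem_ofPred_eq, mk3_0, vr_mk3]
  have key : ∀ t, 0 ≤ t → t ≤ 1 → x e s = x e t → t = s := fun t h2 h3 h4 =>
    (x_anti hP he).injOn ⟨h2, h3⟩ ⟨h0, h1.le⟩ h4.symm
  constructor
  · rintro ((⟨h2, -⟩ | ⟨t, h2, h3, h4, h5⟩) | ⟨t, h2, h3, h4, h5⟩)
    · rw [abs_mul, e_abs he, one_mul] at h2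
      exact absurd h2 (not_le.mpr (lt_of_lt_of_le hx (le_abs_self _)))
    · rcases he with rfl | rfl
      · have : x 1 s = x 1 t := by linarith
        rw [key t h2 h3 this] at h5
        exact h5
      · have := x_ge hP (Or.inl rfl) h2 h3
        linarith
    · rcases he with rfl | rfl
      · have := x_ge hP (Or.inr rfl) h2 h3
        linarith
      · have : x (-1) s = x (-1) t := by linarith
        rw [key t h2 h3 this] at h5
        exact h5
  · intro h
    rcases he with rfl | rfl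
    · exact Or.inl (Or.inr ⟨s, h0, h1.le, by ring, h⟩)
    · exact Or.inr ⟨s, h0, h1.le, by ring, h⟩

theorem mem_KK_mid (hP : Prof δ A dA x u) {e : ℝ} (he : e = 1 ∨ e = -1) {y : ℝ} (h0 : 0 < y)
    (h1 : y < 3) (p : ℝ × ℝ) :
    mk3 (e * y, p) ∈ KK δ A x ↔ √(p.1 ^ 2 + p.2 ^ 2) ≤ 4 / 3 * (3 + 9 / 4 * δ - y) := by
  unfold KK Kmid Kcap
  simp only [mem_union, mem_ofPred_eq, mk3_0, vr_mk3]
  have ha : |e * y| = y := by rw [abs_mul, e_abs he, one_mul, abs_of_pos h0]
  have hb : |e * y| < 3 := by rw [ha]; exact h1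
  have hb' := abs_lt.mp hb
  constructor
  · rintro ((⟨h2, h3⟩ | ⟨t, h2, h3, h4, h5⟩) | ⟨t, h2, h3, h4, h5⟩)
    · rwa [ha] at h3
    · have := x_ge hP (Or.inl rfl) h2 h3
      linarith
    · have := x_ge hP (Or.inr rfl) h2 h3
      linarith
  · intro h
    refine Or.inl (Or.inl ⟨hb.le, ?_⟩)
    rwa [ha]

theorem mem_KK_out (hP : Prof δ A dA x u) {e : ℝ} (he : e = 1 ∨ e = -1) {y : ℝ}
    (h1 : x e 0 < y) (p : ℝ × ℝ) : mk3 (e * y, p) ∉ KK δ A x := by
  have hx := x_ge hP he le_rfl zero_le_one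
  unfold KK Kmid Kcap
  simp only [mem_union, mem_ofPred_eq, mk3_0, vr_mk3]
  rintro ((⟨h2, -⟩ | ⟨t, h2, h3, h4, h5⟩) | ⟨t, h2, h3, h4, h5⟩)
  · rw [abs_mul, e_abs he, one_mul] at h2
    have := le_abs_self y
    linarith
  · have h6 := x_ge hP (Or.inl rfl) h2 h3
    rcases he with rfl | rfl
    · have := (x_anti hP (Or.inl rfl)).antitoneOn (left_mem_Icc.mpr zero_le_one) ⟨h2, h3⟩ h2
      linarith
    · linarith
  · have h6 := x_ge hP (Or.inr rfl) h2 h3
    rcases he with rfl | rfl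
    · linarith
    · have := (x_anti hP (Or.inr rfl)).antitoneOn (left_mem_Icc.mpr zero_le_one) ⟨h2, h3⟩ h2
      linarith

/-! ### volume as integrals over the profile -/

/-- contribution of the end `e` -/
noncomputable def VE (δ : ℝ) (A : ℝ → ℝ) (x u : ℝ → ℝ → ℝ) (D : ℝ → ℝ → ℝ≥0∞) (e : ℝ) : ℝ≥0∞ :=
  (∫⁻ s in Ioo (0 : ℝ) 1, ENNReal.ofReal (-(δ ^ 2 * u e s)) * D (e * x e s) (δ * rho A x e s)) +
    ∫⁻ r in Ioo 3 (Rh δ), ENNReal.ofReal (3 / 4 * δ) * D (e * xr δ r) (δ * r)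

theorem int_cap (hP : Prof δ A dA x u) {e : ℝ} (he : e = 1 ∨ e = -1) (V : ℝ → ℝ≥0∞) :
    ∫⁻ y in x e '' (Ioo 0 1 \ {1 / 2}), V y =
      ∫⁻ s in Ioo (0 : ℝ) 1, ENNReal.ofReal (-(δ ^ 2 * u e s)) * V (x e s) := by
  have hδ := hP.δ0
  have hms : MeasurableSet (Ioo (0 : ℝ) 1 \ {1 / 2}) :=
    measurableSet_Ioo.diff (measurableSet_singleton _)
  rw [lintegral_image_eq_lintegral_abs_deriv_mul (f' := fun s => δ ^ 2 * u e s) hms]
  · have h1 : (Ioo (0 : ℝ) 1 \ {1 / 2} : Set ℝ) =ᵐ[volume] Ioo (0 : ℝ) 1 :=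
      sdiff_null_ae_eq_self (by simp)
    rw [setLIntegral_congr h1]
    apply setLIntegral_congr_fun measurableSet_Ioo
    intro s hs
    have := (hP.ub e he s hs.1.le hs.2.le).2
    have h2 : δ ^ 2 * u e s ≤ 0 := by
      have : 0 < δ ^ 2 := by positivity
      nlinarith
    simp only [abs_of_nonpos h2]
  · intro s hs
    exact (hP.hx e he s hs.1.1 hs.1.2 (fun h => hs.2 h)).hasDerivWithinAt
  · have hsub : Ioo (0 : ℝ) 1 \ {1 / 2} ⊆ Icc 0 1 := fun s hs => ⟨hs.1.1.le, hs.1.2.le⟩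
    exact (x_anti hP he).injOn.mono hsub

theorem xr_image (hδ : 0 < δ) : xr δ '' Ioo 3 (Rh δ) = Ioo 0 3 := by
  ext y
  simp only [mem_image, mem_Ioo, xr, Rh]
  constructor
  · rintro ⟨r, ⟨h1, h2⟩, rfl⟩
    have h3 : δ * (r - 3) < 4 := by
      have : r - 3 < 4 / δ := by linarith
      calc δ * (r - 3) < δ * (4 / δ) := by gcongr
        _ = 4 := by field_simp
    have h4 : 0 < δ * (r - 3) := mul_pos hδ (by linarith)
    constructor <;> linarith
  · rintro ⟨h1, h2⟩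
    refine ⟨3 + 4 / 3 * (3 - y) / δ, ⟨?_, ?_⟩, ?_⟩
    · have : 0 < 4 / 3 * (3 - y) / δ := by
        have : 0 < 3 - y := by linarith
        positivity
      linarith
    · have : 4 / 3 * (3 - y) / δ < 4 / δ := by
        gcongr
        linarith
      linarith
    · field_simp
      ring

theorem int_mid (hδ : 0 < δ) (V : ℝ → ℝ≥0∞) :
    ∫⁻ y in Ioo (0 : ℝ) 3, V y = ∫⁻ r in Ioo 3 (Rh δ), ENNReal.ofReal (3 / 4 * δ) * V (xr δ r) := by
  rw [← xr_image hδ, lintegral_image_eq_lintegral_abs_deriv_mul (f' := fun _ => -(3 / 4 * δ))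
    measurableSet_Ioo]
  · apply setLIntegral_congr_fun measurableSet_Ioo
    intro r hr
    simp only [abs_neg]
    rw [abs_of_pos (by positivity)]
  · intro r hr
    have h1 : HasDerivAt (fun r => 3 - 3 / 4 * δ * (r - 3)) (-(3 / 4 * δ * 1)) r :=
      ((((hasDerivAt_id r).sub_const 3).const_mul (3 / 4 * δ))).const_sub 3
    rw [mul_one] at h1
    exact h1.hasDerivWithinAt
  · intro a _ b _ h
    simp only [xr] at h
    have : δ * (a - b) = 0 := by linarith
    rcases mul_eq_zero.mp this with h | h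
    · exact absurd h hδ.ne'
    · linarith

theorem int_half (hP : Prof δ A dA x u) {e : ℝ} (he : e = 1 ∨ e = -1) (H : Set E3)
    (D : ℝ → ℝ → ℝ≥0∞)
    (hD : ∀ y q, 0 ≤ q → volume {p : ℝ × ℝ | √(p.1 ^ 2 + p.2 ^ 2) ≤ q ∧ mk3 (y, p) ∈ H} = D y q) :
    ∫⁻ y in Ioi (0 : ℝ), volume {p : ℝ × ℝ | mk3 (e * y, p) ∈ KK δ A x ∩ H} = VE δ A x u D e := by
  have hδ := hP.δ0
  set V : ℝ → ℝ≥0∞ := fun y => volume {p : ℝ × ℝ | mk3 (e * y, p) ∈ KK δ A x ∩ H} with hV
  set E1 : Set ℝ := x e '' (Ioo 0 1 \ {1 / 2}) with hE1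
  have hsub : Ioo (0 : ℝ) 1 \ {1 / 2} ⊆ Icc 0 1 := fun s hs => ⟨hs.1.1.le, hs.1.2.le⟩
  have hE1m : MeasurableSet E1 :=
    (measurableSet_Ioo.diff (measurableSet_singleton _)).image_of_continuousOn_injOn
      ((hP.xc e).mono hsub) ((x_anti hP he).injOn.mono hsub)
  have hE1r : ∀ y ∈ E1, 3 < y ∧ y < x e 0 := by
    rintro y ⟨s, hs, rfl⟩
    exact ⟨x_gt hP he hs.1.1.le hs.1.2,
      x_anti hP he (left_mem_Icc.mpr zero_le_one) ⟨hs.1.1.le, hs.1.2.le⟩ hs.1.1⟩
  have hx0 : 3 < x e 0 := x_gt hP he le_rfl zero_lt_one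
  have hae : (Ioi (0 : ℝ) : Set ℝ) =ᵐ[volume] (Ioo 0 3 ∪ (E1 ∪ Ioi (x e 0)) : Set ℝ) := by
    have hfin : volume ({3, x e 0, x e (1 / 2)} : Set ℝ) = 0 :=
      (Set.toFinite _).measure_zero _
    rw [ae_eq_set]
    constructor
    · refine measure_mono_null ?_ hfin
      rintro y ⟨h1, h2⟩
      simp only [mem_union, mem_Ioo, mem_Ioi, not_or, not_and, not_lt] at h2
      simp only [mem_insert_iff, mem_singleton_iff]
      by_contra hcon
      simp only [not_or] at hcon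
      have h3 : 3 < y := lt_of_le_of_ne (h2.1 h1) (Ne.symm hcon.1)
      have h4 : y < x e 0 := lt_of_le_of_ne h2.2.2 hcon.2.1
      have h5 := intermediate_value_Icc' zero_le_one (hP.xc e)
      rw [hP.x1 e] at h5
      obtain ⟨s, hs, hsy⟩ := h5 ⟨h3.le, h4.le⟩
      apply h2.2.1
      refine ⟨s, ⟨⟨lt_of_le_of_ne hs.1 ?_, lt_of_le_of_ne hs.2 ?_⟩, ?_⟩, hsy⟩
      · rintro rfl
        exact hcon.2.1 hsy.symm
      · rintro rfl
        rw [hP.x1 e] at hsy
        exact hcon.1 hsy.symm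
      · rintro h
        rw [mem_singleton_iff] at h
        rw [h] at hsy
        exact hcon.2.2 hsy.symm
    · refine measure_mono_null (t := ∅) ?_ measure_empty
      rintro y ⟨h1, h2⟩
      exfalso
      apply h2
      rcases h1 with h1 | h1 | h1
      · exact h1.1
      · exact lt_trans (by norm_num) (hE1r y h1).1
      · exact lt_trans (lt_trans (by norm_num) hx0) h1
  have hsplit : ∫⁻ y in Ioi (0 : ℝ), V y =
      (∫⁻ y in Ioo (0 : ℝ) 3, V y) + ((∫⁻ y in E1, V y) + ∫⁻ y in Ioi (x e 0), V y) := by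
    rw [setLIntegral_congr hae, lintegral_union (hE1m.union measurableSet_Ioi),
      lintegral_union measurableSet_Ioi]
    · rw [Set.disjoint_left]
      intro y h1 h2
      exact absurd (hE1r y h1).2 (not_lt.mpr (le_of_lt h2))
    · rw [Set.disjoint_left]
      rintro y h1 (h2 | h2)
      · exact absurd (hE1r y h2).1 (not_lt.mpr h1.2.le)
      · exact absurd (lt_trans hx0 h2) (not_lt.mpr h1.2.le)
  have hout : ∫⁻ y in Ioi (x e 0), V y = 0 := by
    rw [setLIntegral_congr_fun (g := fun _ => 0) measurableSet_Ioi]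
    · simp
    · intro y hy
      have : {p : ℝ × ℝ | mk3 (e * y, p) ∈ KK δ A x ∩ H} = ∅ := by
        ext p
        simp only [mem_ofPred_eq, mem_inter_iff, mem_empty_iff_false, iff_false, not_and]
        intro h
        exact absurd h (mem_KK_out hP he hy p)
      simp only [hV, this, measure_empty]
  have hcap : ∫⁻ y in E1, V y = ∫⁻ s in Ioo (0 : ℝ) 1,
      ENNReal.ofReal (-(δ ^ 2 * u e s)) * D (e * x e s) (δ * rho A x e s) := by
    rw [int_cap hP he V]
    apply setLIntegral_congr_fun measurableSet_Ioo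
    intro s hs
    have hr := rho_nonneg hP he hs.1.le hs.2.le
    simp only [hV]
    rw [← hD _ _ (mul_nonneg hδ.le hr)]
    congr 3
    ext p
    simp only [mem_inter_iff, mem_KK_cap hP he hs.1.le hs.2]
  have hmid : ∫⁻ y in Ioo (0 : ℝ) 3, V y =
      ∫⁻ r in Ioo 3 (Rh δ), ENNReal.ofReal (3 / 4 * δ) * D (e * xr δ r) (δ * r) := by
    rw [int_mid hδ V]
    apply setLIntegral_congr_fun measurableSet_Ioo
    intro r hr
    have hy : xr δ r ∈ Ioo (0 : ℝ) 3 := by
      rw [← xr_image hδ]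
      exact ⟨r, hr, rfl⟩
    have hr0 : 0 < r := by linarith [hr.1]
    simp only [hV]
    rw [← hD _ _ (mul_nonneg hδ.le hr0.le)]
    congr 3
    ext p
    simp only [mem_inter_iff, mem_KK_mid hP he hy.1 hy.2]
    have : 4 / 3 * (3 + 9 / 4 * δ - xr δ r) = δ * r := by
      unfold xr
      ring
    rw [this]
  rw [hsplit, hout, add_zero, hcap, hmid, VE, add_comm]

theorem vol_KK (hP : Prof δ A dA x u) (H : Set E3) (hH : MeasurableSet H) (D : ℝ → ℝ → ℝ≥0∞)
    (hD : ∀ y q, 0 ≤ q → volume {p : ℝ × ℝ | √(p.1 ^ 2 + p.2 ^ 2) ≤ q ∧ mk3 (y, p) ∈ H} = D y q) :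
    volume (KK δ A x ∩ H) = VE δ A x u D 1 + VE δ A x u D (-1) := by
  rw [vol_slice _ ((meas_KK hP).inter hH), ← int_half hP (Or.inl rfl) H D hD,
    ← int_half hP (Or.inr rfl) H D hD]
  rw [← lintegral_add_compl _ (measurableSet_Ioi (a := (0 : ℝ)))]
  congr 1
  · simp only [one_mul]
  · rw [compl_Ioi, ← setLIntegral_congr (Iio_ae_eq_Iic (a := (0 : ℝ)))]
    have h1 := (Measure.measurePreserving_neg (volume : Measure ℝ)).setLIntegral_comp_preimage_emb
      (MeasurableEquiv.neg ℝ).measurableEmbedding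
      (fun y => volume {p : ℝ × ℝ | mk3 (y, p) ∈ KK δ A x ∩ H}) (Iio 0)
    rw [← h1]
    simp

/-! ### one piece of the profile -/

theorem Hd_bd (q m : ℝ) : |Hd q m| ≤ 2 * |q| * (|m| + |q|) := by
  have h := intervalIntegral.norm_integral_le_of_norm_le_const (a := -q) (b := m) (C := 2 * |q|)
    (f := fun y => 2 * √(q ^ 2 - y ^ 2)) (fun y _ => by
      rw [Real.norm_eq_abs, abs_of_nonneg (by positivity)]
      have : √(q ^ 2 - y ^ 2) ≤ |q| := by
        rw [← Real.sqrt_sq_eq_abs]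
        exact Real.sqrt_le_sqrt (by nlinarith [sq_nonneg y])
      linarith)
  rw [Real.norm_eq_abs] at h
  refine h.trans ?_
  have h2 : |m - -q| ≤ |m| + |q| := by
    rw [sub_neg_eq_add]
    exact abs_add_le _ _
  gcongr

/-- the function `φ` of a piece -/
noncomputable def ph (δ : ℝ) (A w q X : ℝ → ℝ) (t s : ℝ) : ℝ :=
  w s * Hd (q s) (δ * (t * X s - A t))

/-- its derivative -/
noncomputable def dph (δ : ℝ) (A dA w q X : ℝ → ℝ) (t s : ℝ) : ℝ :=
  w s * (2 * √(q s ^ 2 - (δ * (t * X s - A t)) ^ 2) * (δ * (X s - dA t)))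

theorem ph_int (_hP : Prof δ A dA x u) {μ : Measure ℝ} [IsFiniteMeasure μ] {w q X : ℝ → ℝ}
    (hw : AEStronglyMeasurable w μ) (hq : AEStronglyMeasurable q μ) (hX : AEStronglyMeasurable X μ)
    {W : ℝ} (hb : ∀ᵐ s ∂μ, |w s| ≤ W ∧ |q s| ≤ W ∧ |X s| ≤ W) (t : ℝ) :
    Integrable (ph δ A w q X t) μ := by
  have hm : AEStronglyMeasurable (ph δ A w q X t) μ := by
    unfold ph
    apply hw.mul
    have h1 : Continuous fun v : ℝ × ℝ => Hd v.1 (δ * (t * v.2 - A t)) :=
      cont_Hd.comp (continuous_fst.prodMk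
        (continuous_const.mul ((continuous_const.mul continuous_snd).sub continuous_const)))
    exact h1.comp_aestronglyMeasurable (hq.prodMk hX)
  refine Integrable.of_bound hm (W * (2 * W * (|δ| * (|t| * W + |A t|) + W))) ?_
  filter_upwards [hb] with s hs
  have hW : 0 ≤ W := (abs_nonneg _).trans hs.1
  rw [Real.norm_eq_abs, ph, abs_mul]
  have h1 := Hd_bd (q s) (δ * (t * X s - A t))
  have h2 : |δ * (t * X s - A t)| ≤ |δ| * (|t| * W + |A t|) := by
    rw [abs_mul]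
    gcongr
    calc |t * X s - A t| ≤ |t * X s| + |A t| := abs_sub _ _
      _ ≤ |t| * W + |A t| := by
        rw [abs_mul]
        gcongr
        exact hs.2.2
  calc |w s| * |Hd (q s) (δ * (t * X s - A t))|
      ≤ W * (2 * |q s| * (|δ * (t * X s - A t)| + |q s|)) := by
        gcongr
        exact hs.1
    _ ≤ W * (2 * W * (|δ| * (|t| * W + |A t|) + W)) := by
        gcongr
        · exact hs.2.1
        · exact hs.2.1

theorem dph_bd (hP : Prof δ A dA x u) {w q X : ℝ → ℝ} {W : ℝ} {s : ℝ}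
    (hs : |w s| ≤ W ∧ |q s| ≤ W ∧ |X s| ≤ W) (τ : ℝ) :
    |dph δ A dA w q X τ s| ≤ |W| * (2 * |W| * (|δ| * (|W| + 1 / 10))) := by
  have hs1 : |w s| ≤ |W| := hs.1.trans (le_abs_self _)
  have hs2 : |q s| ≤ |W| := hs.2.1.trans (le_abs_self _)
  have hs3 : |X s| ≤ |W| := hs.2.2.trans (le_abs_self _)
  unfold dph
  rw [abs_mul, abs_mul, abs_mul, abs_mul, abs_of_nonneg (Real.sqrt_nonneg _), abs_two]
  have h1 : √(q s ^ 2 - (δ * (τ * X s - A τ)) ^ 2) ≤ |W| := by
    refine le_trans ?_ hs2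
    rw [← Real.sqrt_sq_eq_abs]
    exact Real.sqrt_le_sqrt (by nlinarith [sq_nonneg (δ * (τ * X s - A τ))])
  have h2 : |X s - dA τ| ≤ |W| + 1 / 10 := (abs_sub _ _).trans (add_le_add hs3 (hP.dAb τ))
  gcongr

theorem ph_deriv (hP : Prof δ A dA x u) (w q X : ℝ → ℝ) (s τ : ℝ) :
    HasDerivAt (fun t => ph δ A w q X t s) (dph δ A dA w q X τ s) τ := by
  have h1 : HasDerivAt (fun t => δ * (t * X s - A t)) (δ * (X s - dA τ)) τ := by
    have h0 : HasDerivAt (fun t => t * X s - A t) (1 * X s - dA τ) τ :=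
      ((hasDerivAt_id τ).mul_const (X s)).sub (hP.hA τ)
    rw [one_mul] at h0
    exact h0.const_mul δ
  have h2 : HasDerivAt (fun t => Hd (q s) (δ * (t * X s - A t)))
      (2 * √(q s ^ 2 - (δ * (τ * X s - A τ)) ^ 2) * (δ * (X s - dA τ))) τ :=
    HasDerivAt.comp (h₂ := fun m => Hd (q s) m) (h := fun t => δ * (t * X s - A t)) τ
      (deriv_Hd (q s) (δ * (τ * X s - A τ))) h1
  exact h2.const_mul (w s)

theorem dph_meas (hP : Prof δ A dA x u) {ν μ : Measure ℝ} [IsFiniteMeasure μ] [IsFiniteMeasure ν]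
    {w q X : ℝ → ℝ}
    (hw : AEStronglyMeasurable w μ) (hq : AEStronglyMeasurable q μ)
    (hX : AEStronglyMeasurable X μ) :
    AEStronglyMeasurable (fun z : ℝ × ℝ => dph δ A dA w q X z.1 z.2) (ν.prod μ) := by
  have h1 : Continuous fun v : ℝ × ℝ × ℝ =>
      2 * √(v.2.1 ^ 2 - (δ * (v.1 * v.2.2 - A v.1)) ^ 2) * (δ * (v.2.2 - dA v.1)) := by
    have hA := A_cont hP
    have hdA := hP.dAc
    fun_prop
  have h2 : AEStronglyMeasurable (fun z : ℝ × ℝ => (z.1, q z.2, X z.2)) (ν.prod μ) :=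
    (measurable_fst.aestronglyMeasurable).prodMk ((hq.comp_snd).prodMk hX.comp_snd)
  exact (hw.comp_snd (μ := ν)).mul (h1.comp_aestronglyMeasurable h2)

theorem ph_inc (hI : S_INE) (hP : Prof δ A dA x u) {μ : Measure ℝ} [IsFiniteMeasure μ]
    {w q X : ℝ → ℝ}
    (hw : AEStronglyMeasurable w μ) (hq : AEStronglyMeasurable q μ) (hX : AEStronglyMeasurable X μ)
    {W : ℝ} (hb : ∀ᵐ s ∂μ, |w s| ≤ W ∧ |q s| ≤ W ∧ |X s| ≤ W) {t : ℝ} (ht : 0 ≤ t) :
    IntervalIntegrable (fun τ => ∫ s, dph δ A dA w q X τ s ∂μ) volume 0 t ∧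
    ∫ s, ph δ A w q X t s ∂μ - ∫ s, ph δ A w q X 0 s ∂μ =
      ∫ τ in (0 : ℝ)..t, ∫ s, dph δ A dA w q X τ s ∂μ := by
  set M : ℝ := |W| * (2 * |W| * (|δ| * (|W| + 1 / 10))) with hM
  have hM0 : 0 ≤ M := by positivity
  have hjm : AEStronglyMeasurable (fun z : ℝ × ℝ => dph δ A dA w q X z.1 z.2)
      ((volume.restrict (Ioo 0 t)).prod μ) := dph_meas hP hw hq hX
  have hmain := hI μ (ph δ A w q X) (dph δ A dA w q X) (fun _ _ => ENNReal.ofReal M) 0 t ht
    measurable_const ?_ ?_ (ph_int hP hw hq hX hb 0) (ph_int hP hw hq hX hb t).1 hjm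
  · refine ⟨?_, hmain.2⟩
    rw [intervalIntegrable_iff_integrableOn_Ioo_of_le ht]
    have h3 : Integrable (fun z : ℝ × ℝ => dph δ A dA w q X z.1 z.2)
        ((volume.restrict (Ioo 0 t)).prod μ) := by
      refine Integrable.of_bound hjm M ?_
      have h4 := (Measure.quasiMeasurePreserving_snd (μ := volume.restrict (Ioo 0 t))
        (ν := μ)).ae hb
      filter_upwards [h4] with z hz
      exact dph_bd hP hz z.1
    exact h3.integral_prod_left
  · filter_upwards [hb] with s hs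
    refine ⟨fun τ _ => (ph_deriv hP w q X s τ).continuousAt.continuousWithinAt,
      fun τ _ => ⟨ph_deriv hP w q X s τ, ?_⟩⟩
    exact ENNReal.ofReal_le_ofReal (dph_bd hP hs τ)
  · simp only [lintegral_const]
    refine ENNReal.mul_lt_top (ENNReal.mul_lt_top ENNReal.ofReal_lt_top (measure_lt_top _ _)) ?_
    simp

/-! ### the two pieces of an end -/

/-- the measure of the cap piece -/
noncomputable abbrev μ1 : Measure ℝ := volume.restrict (Ioo (0 : ℝ) 1)

/-- the measure of the cone piece -/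
noncomputable abbrev μ2 (δ : ℝ) : Measure ℝ := volume.restrict (Ioo 3 (Rh δ))

theorem x_meas (hP : Prof δ A dA x u) (e : ℝ) : AEStronglyMeasurable (x e) μ1 :=
  ((hP.xc e).mono Ioo_subset_Icc_self).aestronglyMeasurable measurableSet_Ioo

theorem u_meas (hP : Prof δ A dA x u) (e : ℝ) : AEStronglyMeasurable (u e) μ1 := by
  have h1 : AEStronglyMeasurable (u e) (volume.restrict (Ico 0 (1 / 2))) :=
    (hP.ucL e).aestronglyMeasurable measurableSet_Ico
  have h2 : AEStronglyMeasurable (u e) (volume.restrict (Icc (1 / 2) 1)) :=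
    (hP.ucR e).aestronglyMeasurable measurableSet_Icc
  have h3 : AEStronglyMeasurable (u e) (volume.restrict (Ico 0 (1 / 2) ∪ Icc (1 / 2) 1)) :=
    aestronglyMeasurable_union_iff.mpr ⟨h1, h2⟩
  rw [Ico_union_Icc_eq_Icc (by norm_num) (by norm_num)] at h3
  exact h3.mono_measure (Measure.restrict_mono Ioo_subset_Icc_self le_rfl)

/-- weight, radius, abscissa on the cap -/
noncomputable def w1 (δ : ℝ) (u : ℝ → ℝ → ℝ) (e : ℝ) (s : ℝ) : ℝ := -(δ ^ 2 * u e s)

theorem cap_meas (hP : Prof δ A dA x u) (e : ℝ) :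
    AEStronglyMeasurable (w1 δ u e) μ1 ∧
    AEStronglyMeasurable (fun s => δ * rho A x e s) μ1 ∧
    AEStronglyMeasurable (fun s => e * x e s) μ1 := by
  have hx := x_meas hP e
  have hu := u_meas hP e
  refine ⟨(hu.const_mul (δ ^ 2)).neg, ?_, hx.const_mul e⟩
  have h1 : AEStronglyMeasurable (fun s => s * x e s) μ1 :=
    (measurable_id.aestronglyMeasurable).mul hx
  have h2 : AEStronglyMeasurable (fun s => e * A s) μ1 :=
    ((A_cont hP).aestronglyMeasurable).const_mul e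
  exact (h1.sub h2).const_mul δ

theorem cap_bd (hP : Prof δ A dA x u) {e : ℝ} (he : e = 1 ∨ e = -1) :
    ∃ W : ℝ, ∀ᵐ s ∂μ1, |w1 δ u e s| ≤ W ∧ |δ * rho A x e s| ≤ W ∧ |e * x e s| ≤ W := by
  have hδ := hP.δ0
  have hδ1 := hP.δ1
  obtain ⟨B, hB⟩ := isCompact_Icc.exists_bound_of_continuousOn (hP.xc e)
  refine ⟨5 + (B + 1), ?_⟩
  filter_upwards [ae_restrict_mem measurableSet_Ioo] with s hs
  have hB1 := hB s ⟨hs.1.le, hs.2.le⟩
  rw [Real.norm_eq_abs] at hB1
  have hB0 : 0 ≤ B := (abs_nonneg _).trans hB1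
  have hu := hP.ub e he s hs.1.le hs.2.le
  have hA := A_lip hP 0 s
  rw [A_zero hP, sub_zero, sub_zero, abs_of_pos hs.1] at hA
  refine ⟨?_, ?_, ?_⟩
  · have h1 : δ ^ 2 ≤ 1 := by nlinarith
    have h2 : |u e s| ≤ 5 := by rw [abs_le]; constructor <;> linarith [hu.1, hu.2]
    unfold w1
    rw [abs_neg, abs_mul, abs_of_pos (by positivity)]
    nlinarith [abs_nonneg (u e s)]
  · have h1 : |rho A x e s| ≤ B + 1 / 10 := by
      unfold rho
      refine (abs_sub _ _).trans ?_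
      rw [abs_mul, abs_mul, e_abs he, one_mul, abs_of_pos hs.1]
      have : s * |x e s| ≤ 1 * B := by
        gcongr
        exact hs.2.le
      linarith [hs.2]
    rw [abs_mul, abs_of_pos hδ]
    nlinarith [abs_nonneg (rho A x e s)]
  · rw [abs_mul, e_abs he, one_mul]
    linarith

theorem cone_meas (δ e : ℝ) :
    AEStronglyMeasurable (fun _ : ℝ => 3 / 4 * δ) (μ2 δ) ∧
    AEStronglyMeasurable (fun r : ℝ => δ * r) (μ2 δ) ∧
    AEStronglyMeasurable (fun r => e * xr δ r) (μ2 δ) := by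
  refine ⟨aestronglyMeasurable_const, ?_, ?_⟩
  · have : Continuous fun r : ℝ => δ * r := by fun_prop
    exact this.aestronglyMeasurable
  · have : Continuous fun r : ℝ => e * xr δ r := by
      unfold xr
      fun_prop
    exact this.aestronglyMeasurable

theorem cone_bd (hP : Prof δ A dA x u) {e : ℝ} (he : e = 1 ∨ e = -1) :
    ∃ W : ℝ, ∀ᵐ r ∂(μ2 δ), |3 / 4 * δ| ≤ W ∧ |δ * r| ≤ W ∧ |e * xr δ r| ≤ W := by
  have hδ := hP.δ0
  have hδ1 := hP.δ1
  refine ⟨7, ?_⟩
  filter_upwards [ae_restrict_mem measurableSet_Ioo] with r hr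
  have hx : xr δ r ∈ Ioo (0 : ℝ) 3 := by
    rw [← xr_image hδ]
    exact ⟨r, hr, rfl⟩
  have h1 : δ * r < 3 * δ + 4 := by
    have : r < 3 + 4 / δ := hr.2
    calc δ * r < δ * (3 + 4 / δ) := by gcongr
      _ = 3 * δ + 4 := by field_simp
  have h2 : 0 < δ * r := mul_pos hδ (by linarith [hr.1])
  refine ⟨?_, ?_, ?_⟩
  · rw [abs_of_pos (by positivity)]
    linarith
  · rw [abs_of_pos h2]
    linarith
  · rw [abs_mul, e_abs he, one_mul, abs_of_pos hx.1]
    linarith [hx.2]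

/-- contribution of the end `e` to the volume of `K ∩ H_t`, as a real number -/
noncomputable def Phe (δ : ℝ) (A : ℝ → ℝ) (x u : ℝ → ℝ → ℝ) (e t : ℝ) : ℝ :=
  (∫ s, ph δ A (w1 δ u e) (fun s => δ * rho A x e s) (fun s => e * x e s) t s ∂μ1) +
    ∫ r, ph δ A (fun _ => 3 / 4 * δ) (fun r => δ * r) (fun r => e * xr δ r) t r ∂(μ2 δ)

theorem cap_inner (hP : Prof δ A dA x u) {e : ℝ} (he : e = 1 ∨ e = -1) {τ : ℝ} (h0 : 0 ≤ τ)
    (h1 : τ ≤ 1) :
    ∫ s, dph δ A dA (w1 δ u e) (fun s => δ * rho A x e s) (fun s => e * x e s) τ s ∂μ1 =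
      2 * δ ^ 2 * e * ∫ s in τ..1, √(rho A x e s ^ 2 - (τ * x e s - e * A τ) ^ 2) *
        (x e s - e * dA τ) * (-(δ ^ 2 * u e s)) := by
  have hδ := hP.δ0
  have hpt : ∀ s, dph δ A dA (w1 δ u e) (fun s => δ * rho A x e s) (fun s => e * x e s) τ s =
      2 * δ ^ 2 * e * (√(rho A x e s ^ 2 - (τ * x e s - e * A τ) ^ 2) *
        (x e s - e * dA τ) * (-(δ ^ 2 * u e s))) := by
    intro s
    unfold dph w1
    have h2 : (δ * rho A x e s) ^ 2 - (δ * (τ * (e * x e s) - A τ)) ^ 2 =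
        δ ^ 2 * (rho A x e s ^ 2 - (τ * x e s - e * A τ) ^ 2) := by
      have := e_sq he
      linear_combination (-(δ ^ 2 * τ ^ 2 * x e s ^ 2) + δ ^ 2 * A τ ^ 2) * this
    simp only
    rw [h2, Real.sqrt_mul (by positivity), Real.sqrt_sq hδ.le]
    have h3 : e * x e s - dA τ = e * (x e s - e * dA τ) := by
      have := e_sq he
      linear_combination (dA τ) * this
    rw [h3]
    ring
  simp only [hpt]
  rw [integral_const_mul, intervalIntegral.integral_of_le h1]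
  congr 1
  rw [integral_Ioc_eq_integral_Ioo]
  apply setIntegral_eq_of_subset_of_forall_sdiff_eq_zero measurableSet_Ioo
  · exact Ioo_subset_Ioo h0 le_rfl
  · intro s hs
    have h2 : s ≤ τ := by
      by_contra hcon
      exact hs.2 ⟨not_le.mp hcon, hs.1.2⟩
    rw [Real.sqrt_eq_zero_of_nonpos (rho_le hP he hs.1.1.le h2 h1)]
    ring

theorem cone_inner (hP : Prof δ A dA x u) {e : ℝ} (he : e = 1 ∨ e = -1) (τ : ℝ) :
    ∫ r, dph δ A dA (fun _ => 3 / 4 * δ) (fun r => δ * r) (fun r => e * xr δ r) τ r ∂(μ2 δ) =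
      2 * δ ^ 2 * e * (3 / 4 * δ * ∫ r in (3 : ℝ)..Rh δ,
        √(r ^ 2 - (τ * xr δ r - e * A τ) ^ 2) * (xr δ r - e * dA τ)) := by
  have hδ := hP.δ0
  have hR : 3 ≤ Rh δ := by
    unfold Rh
    have : 0 < 4 / δ := by positivity
    linarith
  have hpt : ∀ r, dph δ A dA (fun _ => 3 / 4 * δ) (fun r => δ * r) (fun r => e * xr δ r) τ r =
      2 * δ ^ 2 * e * (3 / 4 * δ) * (√(r ^ 2 - (τ * xr δ r - e * A τ) ^ 2) *
        (xr δ r - e * dA τ)) := by
    intro r
    unfold dph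
    have h2 : (δ * r) ^ 2 - (δ * (τ * (e * xr δ r) - A τ)) ^ 2 =
        δ ^ 2 * (r ^ 2 - (τ * xr δ r - e * A τ) ^ 2) := by
      have := e_sq he
      linear_combination (-(δ ^ 2 * τ ^ 2 * xr δ r ^ 2) + δ ^ 2 * A τ ^ 2) * this
    simp only
    rw [h2, Real.sqrt_mul (by positivity), Real.sqrt_sq hδ.le]
    have h3 : e * xr δ r - dA τ = e * (xr δ r - e * dA τ) := by
      have := e_sq he
      linear_combination (dA τ) * this
    rw [h3]
    ring
  simp only [hpt]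
  rw [integral_const_mul, intervalIntegral.integral_of_le hR, integral_Ioc_eq_integral_Ioo]
  ring

theorem Phe_inc (hI : S_INE) (hP : Prof δ A dA x u) {e : ℝ} (he : e = 1 ∨ e = -1) {t : ℝ}
    (h0 : 0 ≤ t) (h1 : t ≤ 1) :
    IntervalIntegrable (fun τ => 2 * δ ^ 2 * e * Ve δ A dA x u e τ) volume 0 t ∧
    Phe δ A x u e t - Phe δ A x u e 0 = ∫ τ in (0 : ℝ)..t, 2 * δ ^ 2 * e * Ve δ A dA x u e τ := by
  obtain ⟨W1, hW1⟩ := cap_bd hP he
  obtain ⟨W2, hW2⟩ := cone_bd hP he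
  obtain ⟨m1, m2, m3⟩ := cap_meas hP e
  obtain ⟨n1, n2, n3⟩ := cone_meas δ e
  have i1 := ph_inc hI hP m1 m2 m3 hW1 h0
  have i2 := ph_inc hI hP n1 n2 n3 hW2 h0
  have hsum : ∀ τ ∈ Ioc 0 t,
      (∫ s, dph δ A dA (w1 δ u e) (fun s => δ * rho A x e s) (fun s => e * x e s) τ s ∂μ1) +
      (∫ r, dph δ A dA (fun _ => 3 / 4 * δ) (fun r => δ * r) (fun r => e * xr δ r) τ r ∂(μ2 δ)) =
      2 * δ ^ 2 * e * Ve δ A dA x u e τ := by
    intro τ hτ
    rw [cap_inner hP he hτ.1.le (hτ.2.trans h1), cone_inner hP he τ, Ve]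
    ring
  constructor
  · refine (i1.1.add i2.1).congr ?_
    rw [uIoc_of_le h0]
    intro τ hτ
    exact hsum τ hτ
  · have h3 : ∫ τ in (0 : ℝ)..t, 2 * δ ^ 2 * e * Ve δ A dA x u e τ =
        ∫ τ in (0 : ℝ)..t,
        ((∫ s, dph δ A dA (w1 δ u e) (fun s => δ * rho A x e s) (fun s => e * x e s) τ s ∂μ1) +
        (∫ r, dph δ A dA (fun _ => 3 / 4 * δ) (fun r => δ * r)
          (fun r => e * xr δ r) τ r ∂(μ2 δ))) := by
      rw [intervalIntegral.integral_of_le h0, intervalIntegral.integral_of_le h0]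
      exact setIntegral_congr_fun measurableSet_Ioc (fun τ hτ => (hsum τ hτ).symm)
    rw [h3, intervalIntegral.integral_add i1.1 i2.1, ← i1.2, ← i2.2]
    unfold Phe
    ring

theorem Phe_nonneg (hP : Prof δ A dA x u) {e : ℝ} (he : e = 1 ∨ e = -1) (t : ℝ) :
    0 ≤ Phe δ A x u e t := by
  have hδ := hP.δ0
  unfold Phe
  apply add_nonneg
  · apply setIntegral_nonneg measurableSet_Ioo
    intro s hs
    have hu := (hP.ub e he s hs.1.le hs.2.le).2
    have hr := rho_nonneg hP he hs.1.le hs.2.le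
    unfold ph w1
    apply mul_nonneg
    · have : 0 < δ ^ 2 := by positivity
      nlinarith
    · exact Hd_nonneg (mul_nonneg hδ.le hr)
  · apply setIntegral_nonneg measurableSet_Ioo
    intro r hr
    unfold ph
    apply mul_nonneg
    · positivity
    · exact Hd_nonneg (mul_nonneg hδ.le (by linarith [hr.1]))

theorem VE_eq (hP : Prof δ A dA x u) {e : ℝ} (he : e = 1 ∨ e = -1) (t : ℝ) :
    VE δ A x u (fun y q => ENNReal.ofReal (Hd q (δ * (t * y - A t)))) e =
      ENNReal.ofReal (Phe δ A x u e t) := by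
  have hδ := hP.δ0
  obtain ⟨W1, hW1⟩ := cap_bd hP he
  obtain ⟨W2, hW2⟩ := cone_bd hP he
  obtain ⟨m1, m2, m3⟩ := cap_meas hP e
  obtain ⟨n1, n2, n3⟩ := cone_meas δ e
  have i1 := ph_int hP m1 m2 m3 hW1 t
  have i2 := ph_int hP n1 n2 n3 hW2 t
  have p1 : ∀ s ∈ Ioo (0 : ℝ) 1,
      0 ≤ ph δ A (w1 δ u e) (fun s => δ * rho A x e s) (fun s => e * x e s) t s := by
    intro s hs
    have hu := (hP.ub e he s hs.1.le hs.2.le).2
    have hr := rho_nonneg hP he hs.1.le hs.2.le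
    unfold ph w1
    apply mul_nonneg
    · have : 0 < δ ^ 2 := by positivity
      nlinarith
    · exact Hd_nonneg (mul_nonneg hδ.le hr)
  have p2 : ∀ r ∈ Ioo 3 (Rh δ),
      0 ≤ ph δ A (fun _ => 3 / 4 * δ) (fun r => δ * r) (fun r => e * xr δ r) t r := by
    intro r hr
    unfold ph
    apply mul_nonneg
    · positivity
    · exact Hd_nonneg (mul_nonneg hδ.le (by linarith [hr.1]))
  unfold VE Phe
  rw [ENNReal.ofReal_add (setIntegral_nonneg measurableSet_Ioo p1)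
    (setIntegral_nonneg measurableSet_Ioo p2)]
  congr 1
  · rw [ofReal_integral_eq_lintegral_ofReal i1
      ((ae_restrict_mem measurableSet_Ioo).mono fun s hs => p1 s hs)]
    apply setLIntegral_congr_fun measurableSet_Ioo
    intro s hs
    have hu := (hP.ub e he s hs.1.le hs.2.le).2
    have : 0 ≤ -(δ ^ 2 * u e s) := by
      have : 0 < δ ^ 2 := by positivity
      nlinarith
    simp only [ph, w1]
    rw [← ENNReal.ofReal_mul this]
  · rw [ofReal_integral_eq_lintegral_ofReal i2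
      ((ae_restrict_mem measurableSet_Ioo).mono fun s hs => p2 s hs)]
    apply setLIntegral_congr_fun measurableSet_Ioo
    intro r hr
    simp only [ph]
    rw [← ENNReal.ofReal_mul (by positivity)]

theorem VE_all (hP : Prof δ A dA x u) {e : ℝ} (he : e = 1 ∨ e = -1) :
    VE δ A x u (fun _ q => 2 * ENNReal.ofReal (Hd q 0)) e =
      2 * ENNReal.ofReal (Phe δ A x u e 0) := by
  rw [← VE_eq hP he 0]
  unfold VE
  rw [mul_add, ← lintegral_const_mul' _ _ (by norm_num), ← lintegral_const_mul' _ _ (by norm_num)]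
  simp only [zero_mul, A_zero hP, sub_zero, mul_zero]
  congr 1
  · congr 1
    funext s
    ring
  · congr 1
    funext s
    ring

end Body

end GVm

open GVm in
/-- §1.2 -/
theorem GV (hI : S_INE) : S_GV := by
  intro δ A dA x u hP t h0 h1
  have hH : MeasurableSet {P : E3 | P 1 ≤ δ * (t * P 0 - A t)} :=
    (isClosed_le (by fun_prop) (by fun_prop)).measurableSet
  have hv1 := vol_KK hP {P : E3 | P 1 ≤ δ * (t * P 0 - A t)} hH
    (fun y q => ENNReal.ofReal (Hd q (δ * (t * y - A t)))) (fun y q hq =>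
      vol_disc (m := δ * (t * y - A t)) hq)
  have hv2 := vol_KK hP univ MeasurableSet.univ
    (fun _ q => 2 * ENNReal.ofReal (Hd q 0)) (fun y q hq => by
      simp only [mem_univ, and_true]
      exact vol_disc_all hq)
  rw [inter_univ] at hv2
  have j1 := Phe_inc hI hP (e := 1) (Or.inl rfl) h0 h1
  have j2 := Phe_inc hI hP (e := -1) (Or.inr rfl) h0 h1
  have h3 : Phe δ A x u 1 t + Phe δ A x u (-1) t = Phe δ A x u 1 0 + Phe δ A x u (-1) 0 := by
    have h4 : (∫ τ in (0 : ℝ)..t, 2 * δ ^ 2 * 1 * Ve δ A dA x u 1 τ) +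
        ∫ τ in (0 : ℝ)..t, 2 * δ ^ 2 * (-1) * Ve δ A dA x u (-1) τ = 0 := by
      rw [← intervalIntegral.integral_add j1.1 j2.1, intervalIntegral.integral_of_le h0,
        integral_Ioc_eq_integral_Ioo]
      apply setIntegral_eq_zero_of_forall_eq_zero
      intro τ hτ
      have := hP.V τ hτ.1 (lt_of_lt_of_le hτ.2 h1)
      linear_combination 2 * δ ^ 2 * this
    linarith [j1.2, j2.2]
  have p1 := Phe_nonneg hP (e := 1) (Or.inl rfl)
  have p2 := Phe_nonneg hP (e := -1) (Or.inr rfl)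
  rw [hv1, hv2, VE_eq hP (Or.inl rfl), VE_eq hP (Or.inr rfl), VE_all hP (Or.inl rfl),
    VE_all hP (Or.inr rfl), ← ENNReal.ofReal_add (p1 _) (p2 _), h3,
    ENNReal.ofReal_add (p1 _) (p2 _), ← mul_add]
  rw [ENNReal.eq_div_iff (by norm_num) (by norm_num)]

end Pool.Agent.HV
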