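import Pool.Agent.HV.Stmts

/-!
# Module IE of MP_678b51_gt (§4.5): the function `Î`
-/

set_option autoImplicit false

open MeasureTheory Set Filter
open scoped Real Topology

namespace Pool.Agent.HV

lemma IE_sqrt_int (a c : ℝ) (h : a ≤ c) :
    IntervalIntegrable (fun s => 1 / √(s - a)) volume a c ∧
      ∫ s in a..c, 1 / √(s - a) = 2 * √(c - a) := by
  have hcont : ContinuousOn (fun s => 2 * √(s - a)) (Icc a c) := by fun_prop
  have hderiv : ∀ x ∈ Ioo a c, HasDerivAt (fun s => 2 * √(s - a)) (1 / √(x - a)) x := by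
    intro x hx
    have h0 : 0 < x - a := by linarith [hx.1]
    have h1 : HasDerivAt (fun s => s - a) 1 x := (hasDerivAt_id x).sub_const a
    have h2 := (h1.sqrt h0.ne').const_mul 2
    have h3 : 0 < √(x - a) := Real.sqrt_pos.2 h0
    have e : 2 * (1 / (2 * √(x - a))) = 1 / √(x - a) := by field_simp
    rwa [e] at h2
  have hint : IntegrableOn (fun s => 1 / √(s - a)) (Ioc a c) volume :=
    intervalIntegral.integrableOn_deriv_of_nonneg hcont hderiv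
      (fun x _ => by positivity)
  have hint' : IntervalIntegrable (fun s => 1 / √(s - a)) volume a c :=
    (intervalIntegrable_iff_integrableOn_Ioc_of_le h).2 hint
  refine ⟨hint', ?_⟩
  rw [intervalIntegral.integral_eq_sub_of_hasDerivAt_of_le h hcont hderiv hint']
  simp

lemma IE_xr {δ r : ℝ} (hδ : 0 < δ) (h3 : 3 ≤ r) (hr : r ≤ Rh δ) : 0 ≤ xr δ r ∧ xr δ r ≤ 3 := by
  unfold xr
  unfold Rh at hr
  have h1 : δ * (r - 3) ≤ 4 := by
    have h2 : r - 3 ≤ 4 / δ := by linarith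
    calc δ * (r - 3) ≤ δ * (4 / δ) := by gcongr
      _ = 4 := by field_simp
  have h2 : 0 ≤ δ * (r - 3) := mul_nonneg hδ.le (by linarith)
  constructor <;> nlinarith

lemma IE_abs_e {e : ℝ} (he : e = 1 ∨ e = -1) : |e| = 1 := by
  rcases he with rfl | rfl <;> simp

lemma IE_al_lip {S : St} (F : FactsA S) (a b : ℝ) : |al S b - al S a| ≤ 8 * |b - a| := by
  have := Convex.norm_image_sub_le_of_norm_hasDerivWithin_le (f := al S) (f' := da S) (s := univ)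
    (C := 8) (x := a) (y := b) (fun t _ => (F.al_deriv t).hasDerivWithinAt)
    (fun t _ => by simpa using F.da_bd t) convex_univ (mem_univ _) (mem_univ _)
  simpa using this

lemma IE_dd_lip {S : St} (F : FactsA S) (s a b : ℝ) : |dd S s b - dd S s a| ≤ 12 * |b - a| := by
  have := Convex.norm_image_sub_le_of_norm_hasDerivWithin_le (f := fun b => dd S s b)
    (f' := fun b => Gm S s b) (s := univ)
    (C := 12) (x := a) (y := b) (fun t _ => (F.dd_deriv s t).hasDerivWithinAt)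
    (fun t _ => by simpa using F.Gm_bd s t) convex_univ (mem_univ _) (mem_univ _)
  simpa using this

section

variable {δ : ℝ} {S : St}

lemma IE_d3 (hδ : 0 < δ) (hδ1 : δ ≤ 1 / 100) : 0 < δ ^ 3 ∧ δ ^ 3 ≤ 1 / 1000000 := by
  refine ⟨by positivity, ?_⟩
  calc δ ^ 3 ≤ (1 / 100) ^ 3 := by gcongr
    _ = _ := by norm_num

lemma IE_yr_bd (hδ : 0 < δ) (hδ1 : δ ≤ 1 / 100) (F : FactsA S) {e : ℝ} (he : e = 1 ∨ e = -1)
    {t r : ℝ} (h0 : 0 ≤ t) (h1 : t ≤ 1) (h3 : 3 ≤ r) (hr : r ≤ Rh δ) :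
    |yr δ S e t r| ≤ 31 / 10 := by
  obtain ⟨x0, x3⟩ := IE_xr hδ h3 hr
  obtain ⟨d0, d1⟩ := IE_d3 hδ hδ1
  have ha := F.al_le' t h0
  unfold yr
  have h4 : |e * δ ^ 3 * al S t| ≤ 1 / 1000000 * 8 := by
    rw [abs_mul, abs_mul, IE_abs_e he, one_mul, abs_of_pos d0]
    have : |al S t| ≤ 8 := by linarith
    gcongr
  have h5 : |t * xr δ r| ≤ 3 := by
    rw [abs_of_nonneg (by positivity)]
    nlinarith
  calc |t * xr δ r - e * δ ^ 3 * al S t| ≤ |t * xr δ r| + |e * δ ^ 3 * al S t| := abs_sub _ _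
    _ ≤ _ := by linarith

lemma IE_yr_lip (hδ : 0 < δ) (hδ1 : δ ≤ 1 / 100) (F : FactsA S) {e : ℝ} (he : e = 1 ∨ e = -1)
    {a b r : ℝ} (h : a ≤ b) (h3 : 3 ≤ r) (hr : r ≤ Rh δ) :
    |yr δ S e b r - yr δ S e a r| ≤ 31 / 10 * (b - a) := by
  obtain ⟨x0, x3⟩ := IE_xr hδ h3 hr
  obtain ⟨d0, d1⟩ := IE_d3 hδ hδ1
  have ha := IE_al_lip F a b
  rw [abs_of_nonneg (by linarith : 0 ≤ b - a)] at ha
  unfold yr
  have h4 : |e * δ ^ 3 * (al S b - al S a)| ≤ 1 / 1000000 * (8 * (b - a)) := by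
    rw [abs_mul, abs_mul, IE_abs_e he, one_mul, abs_of_pos d0]
    gcongr
  have h5 : |(b - a) * xr δ r| ≤ (b - a) * 3 := by
    rw [abs_of_nonneg (mul_nonneg (by linarith) x0)]
    gcongr
  have e1 : b * xr δ r - e * δ ^ 3 * al S b - (a * xr δ r - e * δ ^ 3 * al S a) =
      (b - a) * xr δ r - e * δ ^ 3 * (al S b - al S a) := by ring
  rw [e1]
  calc |(b - a) * xr δ r - e * δ ^ 3 * (al S b - al S a)| ≤
      |(b - a) * xr δ r| + |e * δ ^ 3 * (al S b - al S a)| := abs_sub _ _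
    _ ≤ (b - a) * 3 + 1 / 1000000 * (8 * (b - a)) := add_le_add h5 h4
    _ ≤ _ := by nlinarith

/-- `3 (r-3) ≤ r² - y²` -/
lemma IE_w2 (hδ : 0 < δ) (FB : FactsB δ S) {e : ℝ} (he : e = 1 ∨ e = -1)
    {t r : ℝ} (h0 : 0 ≤ t) (h1 : t ≤ 1) (h3 : 3 ≤ r) (hr : r ≤ Rh δ) :
    r - 3 ≤ r ^ 2 - yr δ S e t r ^ 2 := by
  have := FB.wr_lb e he t r h0 h1 h3 hr
  nlinarith

lemma IE_wr_val (hδ : 0 < δ) (hδ1 : δ ≤ 1 / 100) (F : FactsA S) (FB : FactsB δ S) {e : ℝ}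
    (he : e = 1 ∨ e = -1) {t r : ℝ} (h0 : 0 ≤ t) (h1 : t ≤ 1) (h3 : 3 ≤ r) (hr : r ≤ Rh δ) :
    |wr δ S e t r - r| ≤ 4 := by
  have hy := IE_yr_bd hδ hδ1 F he h0 h1 h3 hr
  have h2 := IE_w2 hδ FB he h0 h1 h3 hr
  have hy2 : yr δ S e t r ^ 2 ≤ (31 / 10) ^ 2 := by
    rw [← sq_abs]
    gcongr
  have hw0 : 0 ≤ wr δ S e t r := Real.sqrt_nonneg _
  have hw : wr δ S e t r ^ 2 = r ^ 2 - yr δ S e t r ^ 2 := Real.sq_sqrt (by linarith)
  rw [abs_le]
  constructor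
  · nlinarith
  · have : wr δ S e t r ≤ r := by
      refine (sq_le_sq₀ hw0 (by linarith)).1 ?_
      nlinarith [sq_nonneg (yr δ S e t r)]
    linarith

lemma IE_wr_lip (hδ : 0 < δ) (hδ1 : δ ≤ 1 / 100) (F : FactsA S) (FB : FactsB δ S) {e : ℝ}
    (he : e = 1 ∨ e = -1) {a b r : ℝ} (h0 : 0 ≤ a) (h : a ≤ b) (h1 : b ≤ 1) (h3 : 3 < r)
    (hr : r ≤ Rh δ) :
    |wr δ S e b r - wr δ S e a r| ≤ 20 * (b - a) * (1 / √(r - 3)) := by
  have hya := IE_yr_bd hδ hδ1 F he h0 (h.trans h1) h3.le hr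
  have hyb := IE_yr_bd hδ hδ1 F he (h0.trans h) h1 h3.le hr
  have hyl := IE_yr_lip hδ hδ1 F he h h3.le hr
  have h2a := IE_w2 hδ FB he h0 (h.trans h1) h3.le hr
  have h2b := IE_w2 hδ FB he (h0.trans h) h1 h3.le hr
  have hs : 0 < √(r - 3) := Real.sqrt_pos.2 (by linarith)
  have hwa : √(r - 3) ≤ wr δ S e a r := Real.sqrt_le_sqrt h2a
  have hwb : √(r - 3) ≤ wr δ S e b r := Real.sqrt_le_sqrt h2b
  have ea : wr δ S e a r ^ 2 = r ^ 2 - yr δ S e a r ^ 2 := Real.sq_sqrt (by linarith)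
  have eb : wr δ S e b r ^ 2 = r ^ 2 - yr δ S e b r ^ 2 := Real.sq_sqrt (by linarith)
  have key : |wr δ S e b r - wr δ S e a r| * √(r - 3) ≤ 20 * (b - a) := by
    calc |wr δ S e b r - wr δ S e a r| * √(r - 3)
        ≤ |wr δ S e b r - wr δ S e a r| * (wr δ S e b r + wr δ S e a r) := by
          gcongr
          linarith
      _ = |wr δ S e b r ^ 2 - wr δ S e a r ^ 2| := by
          rw [← abs_of_nonneg (by linarith : 0 ≤ wr δ S e b r + wr δ S e a r), ← abs_mul]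
          congr 1
          ring
      _ = |yr δ S e b r - yr δ S e a r| * |yr δ S e b r + yr δ S e a r| := by
          rw [ea, eb, ← abs_mul, ← abs_neg]
          congr 1
          ring
      _ ≤ 31 / 10 * (b - a) * (31 / 10 + 31 / 10) := by
          gcongr
          exact (abs_add_le _ _).trans (by linarith)
      _ ≤ _ := by nlinarith
  rw [mul_one_div, le_div_iff₀ hs]
  exact key

lemma IE_Rh (hδ : 0 < δ) : 3 ≤ Rh δ := by
  unfold Rh
  have : 0 < 4 / δ := by positivity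
  linarith

lemma IE_wr_cont (δ : ℝ) (S : St) (e t : ℝ) : Continuous (fun r => wr δ S e t r) := by
  unfold wr yr xr
  fun_prop

/-- the cone part: value -/
lemma IE_cone_val (hδ : 0 < δ) (hδ1 : δ ≤ 1 / 100) (F : FactsA S) (FB : FactsB δ S) {e : ℝ}
    (he : e = 1 ∨ e = -1) {t : ℝ} (h0 : 0 ≤ t) (h1 : t ≤ 1) :
    |3 / 4 * δ ^ 2 * (∫ r in (3 : ℝ)..Rh δ, wr δ S e t r) - 6| ≤ 21 * δ := by
  have hR := IE_Rh hδ
  have hi : ∫ r in (3 : ℝ)..Rh δ, r = (Rh δ ^ 2 - 3 ^ 2) / 2 := integral_id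
  have h2 : |(∫ r in (3 : ℝ)..Rh δ, wr δ S e t r) - ∫ r in (3 : ℝ)..Rh δ, r| ≤
      4 * |Rh δ - 3| := by
    rw [← intervalIntegral.integral_sub
      ((IE_wr_cont δ S e t).intervalIntegrable _ _)
      ((by fun_prop : Continuous fun r : ℝ => r).intervalIntegrable _ _)]
    have := intervalIntegral.norm_integral_le_of_norm_le_const (a := 3) (b := Rh δ)
      (f := fun r => wr δ S e t r - r) (C := 4) (fun r hr => by
        rw [uIoc_of_le hR] at hr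
        simpa using IE_wr_val hδ hδ1 F FB he h0 h1 hr.1.le hr.2)
    simpa using this
  have e2 : |Rh δ - 3| = 4 / δ := by
    unfold Rh
    rw [abs_of_pos (by have : 0 < 4 / δ := by positivity
                       linarith)]
    ring
  rw [e2, hi] at h2
  have e3 : 3 / 4 * δ ^ 2 * ((Rh δ ^ 2 - 3 ^ 2) / 2) = 6 + 9 * δ := by
    unfold Rh
    field_simp
    ring
  have e4 : 3 / 4 * δ ^ 2 * (∫ r in (3 : ℝ)..Rh δ, wr δ S e t r) - 6 =
      3 / 4 * δ ^ 2 * ((∫ r in (3 : ℝ)..Rh δ, wr δ S e t r) - (Rh δ ^ 2 - 3 ^ 2) / 2) +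
        9 * δ := by
    rw [mul_sub, e3]
    ring
  rw [e4]
  calc _ ≤ |3 / 4 * δ ^ 2 * ((∫ r in (3 : ℝ)..Rh δ, wr δ S e t r) - (Rh δ ^ 2 - 3 ^ 2) / 2)| +
        |9 * δ| := abs_add_le _ _
    _ ≤ 3 / 4 * δ ^ 2 * (4 * (4 / δ)) + 9 * δ := by
        rw [abs_mul, abs_of_pos (by positivity : 0 < 3 / 4 * δ ^ 2),
          abs_of_pos (by positivity : 0 < 9 * δ)]
        gcongr
    _ = 21 * δ := by
        field_simp
        ring

/-- the cone part: increments -/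
lemma IE_cone_lip (hδ : 0 < δ) (hδ1 : δ ≤ 1 / 100) (F : FactsA S) (FB : FactsB δ S) {e : ℝ}
    (he : e = 1 ∨ e = -1) {a b : ℝ} (h0 : 0 ≤ a) (h : a ≤ b) (h1 : b ≤ 1) :
    |3 / 4 * δ ^ 2 * (∫ r in (3 : ℝ)..Rh δ, wr δ S e b r) -
      3 / 4 * δ ^ 2 * (∫ r in (3 : ℝ)..Rh δ, wr δ S e a r)| ≤ 60 * δ * (b - a) := by
  have hR := IE_Rh hδ
  obtain ⟨i1, i2⟩ := IE_sqrt_int 3 (Rh δ) hR
  have h2 : |(∫ r in (3 : ℝ)..Rh δ, wr δ S e b r) - ∫ r in (3 : ℝ)..Rh δ, wr δ S e a r| ≤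
      20 * (b - a) * (2 * √(Rh δ - 3)) := by
    rw [← intervalIntegral.integral_sub
      ((IE_wr_cont δ S e b).intervalIntegrable _ _) ((IE_wr_cont δ S e a).intervalIntegrable _ _),
      ← i2, ← intervalIntegral.integral_const_mul]
    have := intervalIntegral.norm_integral_le_of_norm_le (a := 3) (b := Rh δ) (μ := volume)
      (f := fun r => wr δ S e b r - wr δ S e a r)
      (g := fun r => 20 * (b - a) * (1 / √(r - 3))) hR
      (Filter.Eventually.of_forall fun r hr => by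
        simpa using IE_wr_lip hδ hδ1 F FB he h0 h h1 hr.1 hr.2) (i1.const_mul _)
    simpa using this
  have e2 : Rh δ - 3 = 4 / δ := by
    unfold Rh
    ring
  rw [e2] at h2
  have h5 : δ * √(4 / δ) ≤ 1 := by
    have : √(4 / δ) ≤ 1 / δ := by
      rw [Real.sqrt_le_left (by positivity)]
      rw [div_pow, div_le_div_iff₀ hδ (by positivity)]
      nlinarith
    calc δ * √(4 / δ) ≤ δ * (1 / δ) := by gcongr
      _ = 1 := by field_simp
  rw [← mul_sub, abs_mul, abs_of_pos (by positivity : 0 < 3 / 4 * δ ^ 2)]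
  calc _ ≤ 3 / 4 * δ ^ 2 * (20 * (b - a) * (2 * √(4 / δ))) := by gcongr
    _ = 30 * δ * (b - a) * (δ * √(4 / δ)) := by ring
    _ ≤ 30 * δ * (b - a) * 1 := by
        have : 0 ≤ b - a := by linarith
        gcongr
    _ ≤ _ := by
        have : 0 ≤ δ * (b - a) := mul_nonneg hδ.le (by linarith)
        nlinarith

/-! ### The cap part -/

/-- the integrand of the cap part -/
noncomputable def IEc (δ : ℝ) (S : St) (e t s : ℝ) : ℝ :=
  √(s ^ 2 - t ^ 2) * GG δ S e s t * (-uu S e s)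

lemma IE_uu_meas (FB : FactsB δ S) (e : ℝ) :
    AEStronglyMeasurable (uu S e) (volume.restrict (Icc 0 1)) := by
  have h : Icc (0 : ℝ) 1 = Ico 0 (1 / 2) ∪ Icc (1 / 2) 1 := by
    rw [Ico_union_Icc_eq_Icc] <;> norm_num
  rw [h, aestronglyMeasurable_union_iff]
  exact ⟨(FB.u_ctL e).aestronglyMeasurable measurableSet_Ico,
    (FB.u_ctR e).aestronglyMeasurable measurableSet_Icc⟩

lemma IE_GG_cont (F : FactsA S) (FB : FactsB δ S) (e t : ℝ) :
    ContinuousOn (fun s => GG δ S e s t) (Icc 0 1) := by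
  have h1 : Continuous fun s => dd S s t := F.dd_cont.comp (by fun_prop : Continuous fun s : ℝ => (s, t))
  have h2 : Continuous fun s => dd S s (-t) :=
    F.dd_cont.comp (by fun_prop : Continuous fun s : ℝ => (s, -t))
  have hx := FB.x_cont e
  unfold GG P1 P2
  exact ((hx.sub (continuousOn_const.mul h1.continuousOn)).mul
    (hx.sub (continuousOn_const.mul h2.continuousOn))).sqrt

lemma IE_c_meas (F : FactsA S) (FB : FactsB δ S) (e t : ℝ) :
    AEStronglyMeasurable (IEc δ S e t) (volume.restrict (Icc 0 1)) := by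
  unfold IEc
  exact (((by fun_prop : Continuous fun s : ℝ => √(s ^ 2 - t ^ 2)).aestronglyMeasurable).mul
    ((IE_GG_cont F FB e t).aestronglyMeasurable measurableSet_Icc)).mul (IE_uu_meas FB e).neg

lemma IE_c_bd (FB : FactsB δ S) {e : ℝ} (he : e = 1 ∨ e = -1) {t s : ℝ} (hs : 0 ≤ s)
    (hs1 : s ≤ 1) : |IEc δ S e t s| ≤ 20 := by
  unfold IEc
  obtain ⟨g1, g2⟩ := FB.GG_bd e he s t hs hs1
  obtain ⟨u1, u2⟩ := FB.u_bd e he s hs hs1
  have h1 : √(s ^ 2 - t ^ 2) ≤ 1 :=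
    Real.sqrt_le_iff.2 ⟨zero_le_one, by nlinarith [sq_nonneg t]⟩
  rw [abs_mul, abs_mul, abs_of_nonneg (Real.sqrt_nonneg _), abs_of_pos (by linarith : 0 < GG δ S e s t),
    abs_of_pos (by linarith : 0 < -uu S e s)]
  calc √(s ^ 2 - t ^ 2) * GG δ S e s t * (-uu S e s) ≤ 1 * 4 * 5 := by
        gcongr
        all_goals linarith
    _ = 20 := by norm_num

lemma IE_c_int (F : FactsA S) (FB : FactsB δ S) {e : ℝ} (he : e = 1 ∨ e = -1) (t : ℝ) {a b : ℝ}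
    (ha : 0 ≤ a) (hab : a ≤ b) (hb : b ≤ 1) :
    IntervalIntegrable (IEc δ S e t) volume a b := by
  rw [intervalIntegrable_iff_integrableOn_Ioc_of_le hab]
  have hsub : Ioc a b ⊆ Icc 0 1 := fun x hx => ⟨ha.trans hx.1.le, hx.2.trans hb⟩
  refine Integrable.of_bound ((IE_c_meas F FB e t).mono_measure
    (Measure.restrict_mono hsub le_rfl)) 20 ?_
  rw [ae_restrict_iff' measurableSet_Ioc]
  exact Filter.Eventually.of_forall fun s hs => by
    simpa using IE_c_bd FB he (hsub hs).1 (hsub hs).2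

lemma IE_c_zero (δ : ℝ) (S : St) (e : ℝ) {t s : ℝ} (h0 : 0 ≤ s) (h : s ≤ t) :
    IEc δ S e t s = 0 := by
  unfold IEc
  rw [Real.sqrt_eq_zero_of_nonpos (by nlinarith)]
  ring

lemma IE_sqrt_diff {a b s : ℝ} (h0 : 0 ≤ a) (h : a ≤ b) (h1 : b ≤ 1) (hs : a < s) (hs1 : s ≤ 1) :
    |√(s ^ 2 - b ^ 2) - √(s ^ 2 - a ^ 2)| ≤ 2 * (b - a) * (1 / √(s - a)) := by
  have hp : 0 < √(s - a) := Real.sqrt_pos.2 (by linarith)
  have hp2 : √(s - a) ^ 2 = s - a := Real.sq_sqrt (by linarith)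
  have hle : √(s ^ 2 - b ^ 2) ≤ √(s ^ 2 - a ^ 2) := Real.sqrt_le_sqrt (by nlinarith)
  have hA : √(s ^ 2 - a ^ 2) ^ 2 = s ^ 2 - a ^ 2 := Real.sq_sqrt (by nlinarith)
  have hA0 : 0 ≤ √(s ^ 2 - a ^ 2) := Real.sqrt_nonneg _
  have hB0 : 0 ≤ √(s ^ 2 - b ^ 2) := Real.sqrt_nonneg _
  rw [abs_sub_comm, abs_of_nonneg (by linarith), mul_one_div, le_div_iff₀ hp]
  rcases le_total s b with hsb | hsb
  · have hB : √(s ^ 2 - b ^ 2) = 0 := Real.sqrt_eq_zero_of_nonpos (by nlinarith)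
    rw [hB, sub_zero]
    refine (abs_le_of_sq_le_sq' ?_ (by linarith)).2
    rw [mul_pow, hA, hp2, mul_pow]
    have h3 : (s - a) ^ 2 ≤ (b - a) ^ 2 := by
      have : 0 ≤ s - a := by linarith
      gcongr
    nlinarith [sq_nonneg (s - a)]
  · have hB : √(s ^ 2 - b ^ 2) ^ 2 = s ^ 2 - b ^ 2 := Real.sq_sqrt (by nlinarith)
    -- `√(s-a) (a+b) ≤ 2 √(s²-a²)`
    have h4 : √(s - a) * (a + b) ≤ 2 * √(s ^ 2 - a ^ 2) := by
      refine (abs_le_of_sq_le_sq' ?_ (by linarith)).2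
      rw [mul_pow, mul_pow, hA, hp2]
      have : (a + b) ^ 2 ≤ 2 * (s + a) * 2 := by nlinarith
      nlinarith
    have hsum : 0 < √(s ^ 2 - a ^ 2) + √(s ^ 2 - b ^ 2) := by
      have : 0 < √(s ^ 2 - a ^ 2) := Real.sqrt_pos.2 (by nlinarith)
      linarith
    have h5 : (√(s ^ 2 - a ^ 2) - √(s ^ 2 - b ^ 2)) * (√(s ^ 2 - a ^ 2) + √(s ^ 2 - b ^ 2)) =
        (b - a) * (a + b) := by ring_nf; rw [hA, hB]; ring
    refine le_of_mul_le_mul_right ?_ hsum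
    calc (√(s ^ 2 - a ^ 2) - √(s ^ 2 - b ^ 2)) * √(s - a) *
          (√(s ^ 2 - a ^ 2) + √(s ^ 2 - b ^ 2)) = (b - a) * (√(s - a) * (a + b)) := by
          rw [mul_right_comm, h5]; ring
      _ ≤ (b - a) * (2 * √(s ^ 2 - a ^ 2)) := by
          have : 0 ≤ b - a := by linarith
          gcongr
      _ ≤ _ := by nlinarith [mul_nonneg (by linarith : 0 ≤ b - a) hB0]

lemma IE_GG_lip (hδ : 0 < δ) (hδ1 : δ ≤ 1 / 100) (F : FactsA S) (FB : FactsB δ S) {e : ℝ}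
    (he : e = 1 ∨ e = -1) {a b s : ℝ} (h : a ≤ b) (hs : 0 ≤ s) (hs1 : s ≤ 1) :
    |GG δ S e s b - GG δ S e s a| ≤ b - a := by
  obtain ⟨d0, d1⟩ := IE_d3 hδ hδ1
  obtain ⟨p1, p2⟩ := FB.P1_bd e he s b hs hs1
  obtain ⟨p3, p4⟩ := FB.P1_bd e he s a hs hs1
  obtain ⟨q1, q2⟩ := FB.P2_bd e he s b hs hs1
  obtain ⟨q3, q4⟩ := FB.P2_bd e he s a hs hs1
  obtain ⟨g1, g2⟩ := FB.GG_bd e he s b hs hs1
  obtain ⟨g3, g4⟩ := FB.GG_bd e he s a hs hs1
  have gb := FB.GG_sq e he s b hs hs1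
  have ga := FB.GG_sq e he s a hs hs1
  have hab : 0 ≤ b - a := by linarith
  have l1 : |P1 δ S e s b - P1 δ S e s a| ≤ 1 / 10000 * (b - a) := by
    have := IE_dd_lip F s a b
    rw [abs_of_nonneg hab] at this
    have e1 : P1 δ S e s b - P1 δ S e s a = -(e * δ ^ 3 * (dd S s b - dd S s a)) := by
      unfold P1
      ring
    rw [e1, abs_neg, abs_mul, abs_mul, IE_abs_e he, one_mul, abs_of_pos d0]
    calc δ ^ 3 * |dd S s b - dd S s a| ≤ 1 / 1000000 * (12 * (b - a)) := by gcongr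
      _ ≤ _ := by nlinarith
  have l2 : |P2 δ S e s b - P2 δ S e s a| ≤ 1 / 10000 * (b - a) := by
    have := IE_dd_lip F s (-a) (-b)
    have e0 : |(-b) - (-a)| = b - a := by
      rw [show -b - -a = -(b - a) by ring, abs_neg, abs_of_nonneg hab]
    rw [e0] at this
    have e1 : P2 δ S e s b - P2 δ S e s a = -(e * δ ^ 3 * (dd S s (-b) - dd S s (-a))) := by
      unfold P2
      ring
    rw [e1, abs_neg, abs_mul, abs_mul, IE_abs_e he, one_mul, abs_of_pos d0]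
    calc δ ^ 3 * |dd S s (-b) - dd S s (-a)| ≤ 1 / 1000000 * (12 * (b - a)) := by gcongr
      _ ≤ _ := by nlinarith
  have key : |GG δ S e s b - GG δ S e s a| * 4 ≤ (b - a) * 4 := by
    calc |GG δ S e s b - GG δ S e s a| * 4
        ≤ |GG δ S e s b - GG δ S e s a| * |GG δ S e s b + GG δ S e s a| := by
          gcongr
          rw [abs_of_pos (by linarith)]
          linarith
      _ = |GG δ S e s b ^ 2 - GG δ S e s a ^ 2| := by
          rw [← abs_mul]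
          congr 1
          ring
      _ = |(P1 δ S e s b - P1 δ S e s a) * P2 δ S e s b +
            P1 δ S e s a * (P2 δ S e s b - P2 δ S e s a)| := by
          rw [gb, ga]
          congr 1
          ring
      _ ≤ |(P1 δ S e s b - P1 δ S e s a) * P2 δ S e s b| +
            |P1 δ S e s a * (P2 δ S e s b - P2 δ S e s a)| := abs_add_le _ _
      _ ≤ 1 / 10000 * (b - a) * 4 + 4 * (1 / 10000 * (b - a)) := by
          rw [abs_mul, abs_mul, abs_of_pos (by linarith : 0 < P2 δ S e s b),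
            abs_of_pos (by linarith : 0 < P1 δ S e s a)]
          gcongr
      _ ≤ _ := by nlinarith
  linarith

lemma IE_c_diff (hδ : 0 < δ) (hδ1 : δ ≤ 1 / 100) (F : FactsA S) (FB : FactsB δ S) {e : ℝ}
    (he : e = 1 ∨ e = -1) {a b s : ℝ} (h0 : 0 ≤ a) (h : a ≤ b) (h1 : b ≤ 1) (hs : a < s)
    (hs1 : s ≤ 1) :
    |IEc δ S e b s - IEc δ S e a s| ≤ 40 * (b - a) * (1 / √(s - a)) + 5 * (b - a) := by
  have d1 := IE_sqrt_diff h0 h h1 hs hs1
  have hs0 : 0 ≤ s := h0.trans hs.le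
  have d2 := IE_GG_lip hδ hδ1 F FB he h hs0 hs1
  obtain ⟨g1, g2⟩ := FB.GG_bd e he s b hs0 hs1
  obtain ⟨u1, u2⟩ := FB.u_bd e he s hs0 hs1
  have hq : √(s ^ 2 - a ^ 2) ≤ 1 :=
    Real.sqrt_le_iff.2 ⟨zero_le_one, by nlinarith [sq_nonneg a]⟩
  have hq0 : 0 ≤ √(s ^ 2 - a ^ 2) := Real.sqrt_nonneg _
  have e1 : IEc δ S e b s - IEc δ S e a s =
      ((√(s ^ 2 - b ^ 2) - √(s ^ 2 - a ^ 2)) * GG δ S e s b +
        √(s ^ 2 - a ^ 2) * (GG δ S e s b - GG δ S e s a)) * (-uu S e s) := by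
    unfold IEc
    ring
  have hab : 0 ≤ b - a := by linarith
  rw [e1, abs_mul, abs_of_pos (by linarith : 0 < -uu S e s)]
  calc |(√(s ^ 2 - b ^ 2) - √(s ^ 2 - a ^ 2)) * GG δ S e s b +
        √(s ^ 2 - a ^ 2) * (GG δ S e s b - GG δ S e s a)| * (-uu S e s)
      ≤ (2 * (b - a) * (1 / √(s - a)) * 4 + 1 * (b - a)) * 5 := by
        refine mul_le_mul ((abs_add_le _ _).trans (add_le_add ?_ ?_)) (by linarith)
          (by linarith) ?_
        · rw [abs_mul, abs_of_pos (by linarith : 0 < GG δ S e s b)]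
          gcongr
        · rw [abs_mul, abs_of_nonneg hq0]
          gcongr
        · have : 0 ≤ 1 / √(s - a) := by positivity
          positivity
    _ = _ := by ring

lemma IE_cap_val (FB : FactsB δ S) {e : ℝ} (he : e = 1 ∨ e = -1) {t : ℝ} (h0 : 0 ≤ t)
    (h1 : t ≤ 1) : |∫ s in t..1, IEc δ S e t s| ≤ 20 := by
  have := intervalIntegral.norm_integral_le_of_norm_le_const (a := t) (b := 1)
    (f := IEc δ S e t) (C := 20) (fun s hs => by
      rw [uIoc_of_le h1] at hs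
      simpa using IE_c_bd FB he (h0.trans hs.1.le) hs.2)
  rw [Real.norm_eq_abs, abs_of_nonneg (by linarith : 0 ≤ 1 - t)] at this
  nlinarith

lemma IE_cap_lip (hδ : 0 < δ) (hδ1 : δ ≤ 1 / 100) (F : FactsA S) (FB : FactsB δ S) {e : ℝ}
    (he : e = 1 ∨ e = -1) {a b : ℝ} (h0 : 0 ≤ a) (h : a ≤ b) (h1 : b ≤ 1) :
    |(∫ s in b..1, IEc δ S e b s) - ∫ s in a..1, IEc δ S e a s| ≤ 85 * (b - a) := by
  have ha1 : a ≤ 1 := h.trans h1
  obtain ⟨i1, i2⟩ := IE_sqrt_int a 1 ha1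
  have hz : ∫ s in a..b, IEc δ S e b s = 0 := by
    rw [intervalIntegral.integral_congr (g := fun _ => (0 : ℝ)) (fun s hs => by
      rw [uIcc_of_le h] at hs
      exact IE_c_zero δ S e (h0.trans hs.1) hs.2)]
    simp
  have hsplit : ∫ s in b..1, IEc δ S e b s = ∫ s in a..1, IEc δ S e b s := by
    rw [← intervalIntegral.integral_add_adjacent_intervals (IE_c_int F FB he b h0 h h1)
      (IE_c_int F FB he b (h0.trans h) h1 le_rfl), hz, zero_add]
  rw [hsplit, ← intervalIntegral.integral_sub (IE_c_int F FB he b h0 ha1 le_rfl)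
    (IE_c_int F FB he a h0 ha1 le_rfl)]
  have hab : 0 ≤ b - a := by linarith
  have := intervalIntegral.norm_integral_le_of_norm_le (a := a) (b := 1) (μ := volume)
    (f := fun s => IEc δ S e b s - IEc δ S e a s)
    (g := fun s => 40 * (b - a) * (1 / √(s - a)) + 5 * (b - a)) ha1
    (Filter.Eventually.of_forall fun s hs => by
      simpa using IE_c_diff hδ hδ1 F FB he h0 h h1 hs.1 hs.2)
    ((i1.const_mul _).add intervalIntegrable_const)
  rw [intervalIntegral.integral_add (i1.const_mul _) intervalIntegrable_const,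
    intervalIntegral.integral_const_mul, i2, intervalIntegral.integral_const, smul_eq_mul,
    Real.norm_eq_abs] at this
  have hs : √(1 - a) ≤ 1 := Real.sqrt_le_iff.2 ⟨zero_le_one, by linarith⟩
  have hs0 : 0 ≤ √(1 - a) := Real.sqrt_nonneg _
  refine this.trans ?_
  calc 40 * (b - a) * (2 * √(1 - a)) + (1 - a) * (5 * (b - a))
      ≤ 40 * (b - a) * (2 * 1) + 1 * (5 * (b - a)) := by
        gcongr
        linarith
    _ = _ := by ring

lemma IE_end_val (hδ : 0 < δ) (hδ1 : δ ≤ 1 / 100) (F : FactsA S) (FB : FactsB δ S) {e : ℝ}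
    (he : e = 1 ∨ e = -1) {t : ℝ} (h0 : 0 ≤ t) (h1 : t ≤ 1) : |Ihe δ S e t - 6| ≤ 50 * δ := by
  have c1 := IE_cone_val hδ hδ1 F FB he h0 h1
  have c2 := IE_cap_val FB he h0 h1
  have e1 : Ihe δ S e t - 6 = δ ^ 3 * (∫ s in t..1, IEc δ S e t s) +
      (3 / 4 * δ ^ 2 * (∫ r in (3 : ℝ)..Rh δ, wr δ S e t r) - 6) := by
    unfold Ihe IEc
    ring
  rw [e1]
  have d : δ ^ 3 ≤ δ := by
    have : δ ^ 2 ≤ 1 := by nlinarith
    calc δ ^ 3 = δ ^ 2 * δ := by ring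
      _ ≤ 1 * δ := by gcongr
      _ = δ := one_mul _
  calc _ ≤ |δ ^ 3 * (∫ s in t..1, IEc δ S e t s)| +
        |3 / 4 * δ ^ 2 * (∫ r in (3 : ℝ)..Rh δ, wr δ S e t r) - 6| := abs_add_le _ _
    _ ≤ δ * 20 + 21 * δ := by
        rw [abs_mul, abs_of_pos (by positivity : 0 < δ ^ 3)]
        gcongr
    _ ≤ _ := by linarith

lemma IE_end_lip (hδ : 0 < δ) (hδ1 : δ ≤ 1 / 100) (F : FactsA S) (FB : FactsB δ S) {e : ℝ}
    (he : e = 1 ∨ e = -1) {a b : ℝ} (h0 : 0 ≤ a) (h : a ≤ b) (h1 : b ≤ 1) :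
    |Ihe δ S e b - Ihe δ S e a| ≤ 150 * δ * (b - a) := by
  have c1 := IE_cone_lip hδ hδ1 F FB he h0 h h1
  have c2 := IE_cap_lip hδ hδ1 F FB he h0 h h1
  have e1 : Ihe δ S e b - Ihe δ S e a =
      δ ^ 3 * ((∫ s in b..1, IEc δ S e b s) - ∫ s in a..1, IEc δ S e a s) +
      (3 / 4 * δ ^ 2 * (∫ r in (3 : ℝ)..Rh δ, wr δ S e b r) -
        3 / 4 * δ ^ 2 * (∫ r in (3 : ℝ)..Rh δ, wr δ S e a r)) := by
    unfold Ihe IEc
    ring
  rw [e1]
  have d : δ ^ 3 ≤ δ := by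
    have : δ ^ 2 ≤ 1 := by nlinarith
    calc δ ^ 3 = δ ^ 2 * δ := by ring
      _ ≤ 1 * δ := by gcongr
      _ = δ := one_mul _
  have hab : 0 ≤ b - a := by linarith
  calc _ ≤ |δ ^ 3 * ((∫ s in b..1, IEc δ S e b s) - ∫ s in a..1, IEc δ S e a s)| +
        |3 / 4 * δ ^ 2 * (∫ r in (3 : ℝ)..Rh δ, wr δ S e b r) -
        3 / 4 * δ ^ 2 * (∫ r in (3 : ℝ)..Rh δ, wr δ S e a r)| := abs_add_le _ _
    _ ≤ δ * (85 * (b - a)) + 60 * δ * (b - a) := by
        rw [abs_mul, abs_of_pos (by positivity : 0 < δ ^ 3)]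
        gcongr
    _ ≤ _ := by nlinarith [mul_nonneg hδ.le hab]

end

/-- §4.5 -/
theorem IE (hA : S_FactsA) (hB : S_FactsB) (_hI : S_INC) : S_IE := by
  obtain ⟨δ₁, h1, h2, hB⟩ := hB
  refine ⟨300, by norm_num, δ₁, h1, fun δ hδ hδ1 S hS => ?_⟩
  have F := hA S hS
  have FB := hB δ hδ hδ1 S hS
  have hd : δ ≤ 1 / 100 := hδ1.trans h2
  constructor
  · intro t h0 h1
    have c1 := IE_end_val hδ hd F FB (Or.inl rfl) h0 h1
    have c2 := IE_end_val hδ hd F FB (Or.inr rfl) h0 h1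
    unfold Ih
    rw [abs_le] at *
    constructor <;> linarith [c1.1, c1.2, c2.1, c2.2]
  · intro a b h0 h h1
    have c1 := IE_end_lip hδ hd F FB (Or.inl rfl) h0 h h1
    have c2 := IE_end_lip hδ hd F FB (Or.inr rfl) h0 h h1
    unfold Ih
    rw [abs_le] at *
    constructor <;> linarith [c1.1, c1.2, c2.1, c2.2]

end Pool.Agent.HV
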