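import Pool.Agent.HV.Stmts

/-!
# Module HV_INC: increments of parameter integrals (fundamental theorem + Tonelli / Fubini)
-/

set_option autoImplicit false

open MeasureTheory Set
open scoped Real Topology ENNReal

namespace Pool.Agent.HV

/-- one dimensional version: if `|f'| ≤ ψ` with `∫⁻ ψ < ∞` then `f'` is integrable and the
fundamental theorem holds -/
lemma inc_ftc {f f' : ℝ → ℝ} {ψ : ℝ → ℝ≥0∞} {a b : ℝ} (hab : a ≤ b)
    (hc : ContinuousOn f (Icc a b))
    (hd : ∀ t ∈ Ioo a b, HasDerivAt f (f' t) t ∧ ENNReal.ofReal |f' t| ≤ ψ t)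
    (hfin : ∫⁻ t in Ioo a b, ψ t ≠ ⊤) :
    IntervalIntegrable f' volume a b ∧ ∫ t in a..b, f' t = f b - f a := by
  have hm : AEStronglyMeasurable f' (volume.restrict (Ioo a b)) := by
    have h1 : AEStronglyMeasurable (deriv f) (volume.restrict (Ioo a b)) :=
      (measurable_deriv f).aestronglyMeasurable
    refine h1.congr ?_
    rw [Filter.EventuallyEq, ae_restrict_iff' measurableSet_Ioo]
    exact Filter.Eventually.of_forall fun t ht => (hd t ht).1.deriv
  have hi : IntegrableOn f' (Ioo a b) volume := by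
    refine ⟨hm, ?_⟩
    rw [HasFiniteIntegral]
    refine lt_of_le_of_lt ?_ (lt_top_iff_ne_top.2 hfin)
    refine lintegral_mono_ae ?_
    rw [ae_restrict_iff' measurableSet_Ioo]
    refine Filter.Eventually.of_forall fun t ht => ?_
    have := (hd t ht).2
    rwa [← Real.norm_eq_abs, ofReal_norm] at this
  have hii : IntervalIntegrable f' volume a b := by
    rw [intervalIntegrable_iff_integrableOn_Ioo_of_le hab]
    exact hi
  exact ⟨hii, intervalIntegral.integral_eq_sub_of_hasDerivAt_of_le hab hc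
    (fun t ht => (hd t ht).1) hii⟩

lemma inc_ptw {f f' : ℝ → ℝ} {ψ : ℝ → ℝ≥0∞} {a b : ℝ} (hab : a ≤ b)
    (hc : ContinuousOn f (Icc a b))
    (hd : ∀ t ∈ Ioo a b, HasDerivAt f (f' t) t ∧ ENNReal.ofReal |f' t| ≤ ψ t) :
    ENNReal.ofReal |f b - f a| ≤ ∫⁻ t in Ioo a b, ψ t := by
  by_cases hfin : ∫⁻ t in Ioo a b, ψ t = ⊤
  · rw [hfin]; exact le_top
  obtain ⟨_, h2⟩ := inc_ftc hab hc hd hfin
  rw [← h2, intervalIntegral.integral_of_le hab, integral_Ioc_eq_integral_Ioo,
    ← Real.norm_eq_abs, ofReal_norm]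
  refine (enorm_integral_le_lintegral_enorm _).trans ?_
  refine lintegral_mono_ae ?_
  rw [ae_restrict_iff' measurableSet_Ioo]
  refine Filter.Eventually.of_forall fun t ht => ?_
  have := (hd t ht).2
  rwa [← Real.norm_eq_abs, ofReal_norm] at this

theorem INC : S_INC := by
  intro μ _ φ dφ ψ a b hab hψ h
  rw [lintegral_lintegral_swap (f := ψ) (hψ.aemeasurable)]
  refine lintegral_mono_ae ?_
  filter_upwards [h] with r hr
  exact inc_ptw hab hr.1 hr.2

theorem INE : S_INE := by
  intro μ _ φ dφ ψ a b hab hψ h hfin hia hmb hmd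
  have hinc := INC μ φ dφ ψ a b hab hψ h
  have hsub : Integrable (fun r => φ b r - φ a r) μ := by
    refine ⟨hmb.sub hia.1, ?_⟩
    rw [HasFiniteIntegral]
    refine lt_of_le_of_lt ?_ (lt_of_le_of_lt hinc hfin)
    refine lintegral_mono fun r => ?_
    rw [← Real.norm_eq_abs, ofReal_norm]
  have hib : Integrable (φ b) μ := by
    have := hsub.add hia
    refine this.congr (Filter.Eventually.of_forall fun r => ?_)
    simp
  refine ⟨hib, ?_⟩
  have hprod : Integrable (fun z : ℝ × ℝ => dφ z.1 z.2) ((volume.restrict (Ioo a b)).prod μ) := by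
    refine ⟨hmd, ?_⟩
    rw [HasFiniteIntegral, lintegral_prod _ hmd.enorm]
    refine lt_of_le_of_lt ?_ hfin
    refine lintegral_mono_ae ?_
    rw [ae_restrict_iff' measurableSet_Ioo]
    refine Filter.Eventually.of_forall fun t ht => ?_
    refine lintegral_mono_ae ?_
    filter_upwards [h] with r hr
    have := (hr.2 t ht).2
    rwa [← Real.norm_eq_abs, ofReal_norm] at this
  have hae : ∀ᵐ r ∂μ, ∫⁻ t in Ioo a b, ψ t r ≠ ⊤ := by
    have h2 : ∫⁻ r, (∫⁻ t in Ioo a b, ψ t r) ∂μ ≠ ⊤ := by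
      rw [← lintegral_lintegral_swap (f := ψ) (hψ.aemeasurable)]
      exact hfin.ne
    have hm : Measurable fun r => ∫⁻ t in Ioo a b, ψ t r := by
      have : Measurable (fun z : ℝ × ℝ => ψ z.2 z.1) := hψ.comp measurable_swap
      exact this.lintegral_prod_right'
    exact (ae_lt_top hm h2).mono fun r hr => hr.ne
  rw [← integral_sub hib hia, intervalIntegral.integral_of_le hab, integral_Ioc_eq_integral_Ioo,
    integral_integral_swap (f := dφ) hprod]
  refine integral_congr_ae ?_
  filter_upwards [h, hae] with r hr hr2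
  obtain ⟨_, h3⟩ := inc_ftc hab hr.1 hr.2 hr2
  rw [← h3, intervalIntegral.integral_of_le hab, integral_Ioc_eq_integral_Ioo]

end Pool.Agent.HV
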