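import Pool.Agent.HV.Stmts

/-!
# Module K1 (§3.1): the Abel operator on functions with increments bounded by `Ω`
-/

set_option autoImplicit false

open MeasureTheory Set Filter
open scoped Real Topology ENNReal

namespace Pool.Agent.HV

namespace K1aux

/-- Lower integral of a nonnegative derivative. -/
theorem lint_deriv {H H' : ℝ → ℝ} {a b : ℝ} (hab : a ≤ b) (hc : ContinuousOn H (Icc a b))
    (hd : ∀ x ∈ Ioo a b, HasDerivAt H (H' x) x) (hpos : ∀ x ∈ Ioo a b, 0 ≤ H' x) :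
    ∫⁻ x in Ioo a b, ENNReal.ofReal (H' x) = ENNReal.ofReal (H b - H a) := by
  have hint : IntegrableOn H' (Ioc a b) := intervalIntegral.integrableOn_deriv_of_nonneg hc hd hpos
  have hint' : IntegrableOn H' (Ioo a b) := hint.mono_set Ioo_subset_Ioc_self
  rw [← ofReal_integral_eq_lintegral_ofReal hint']
  · rw [← integral_Ioc_eq_integral_Ioo, ← intervalIntegral.integral_of_le hab,
      intervalIntegral.integral_eq_sub_of_hasDerivAt_of_le hab hc hd
        ((intervalIntegrable_iff_integrableOn_Ioc_of_le hab).2 hint)]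
  · exact (ae_restrict_iff' measurableSet_Ioo).2 (Eventually.of_forall fun x hx => hpos x hx)

theorem sqrt_hasDeriv {t : ℝ} (ht : 0 < t) : HasDerivAt (fun x => √x) (1 / (2 * √t)) t :=
  Real.hasDerivAt_sqrt ht.ne'

theorem lint_nine {a b : ℝ} (ha : 0 ≤ a) (hab : a ≤ b) :
    ∫⁻ t in Ioo a b, ENNReal.ofReal (9 * π / √t) = ENNReal.ofReal (18 * π * (√b - √a)) := by
  have h := lint_deriv (H := fun x => 18 * π * √x) (H' := fun x => 9 * π / √x) hab
    (by fun_prop) (fun x hx => by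
      have hx0 : 0 < x := lt_of_le_of_lt ha hx.1
      refine ((sqrt_hasDeriv hx0).const_mul (18 * π)).congr_deriv ?_
      have : √x ≠ 0 := (Real.sqrt_pos.2 hx0).ne'
      field_simp
      norm_num) (fun x hx => by positivity)
  rw [h]
  congr 1
  ring

theorem sqrt_deriv (p : ℝ) {t : ℝ} (h : t ^ 2 < p ^ 2) :
    HasDerivAt (fun x => -√(p ^ 2 - x ^ 2)) (t / √(p ^ 2 - t ^ 2)) t := by
  have hpos : 0 < p ^ 2 - t ^ 2 := by linarith
  have h0 : HasDerivAt (fun x : ℝ => p ^ 2 - x ^ 2) (-(2 * t)) t := by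
    have := ((hasDerivAt_id t).pow 2).const_sub (p ^ 2)
    simpa using this
  refine ((h0.sqrt hpos.ne').fun_neg).congr_deriv ?_
  have : √(p ^ 2 - t ^ 2) ≠ 0 := (Real.sqrt_pos.2 hpos).ne'
  field_simp

theorem len_le {a b p : ℝ} (ha : 0 ≤ a) (hab : a ≤ b) (hp : 0 < p) :
    ENNReal.ofReal (√(p ^ 2 - a ^ 2) - √(p ^ 2 - b ^ 2)) ≤
      ∫⁻ t in Ioo a b, ENNReal.ofReal (t / √(p ^ 2 - t ^ 2)) := by
  rcases le_or_gt p a with hpa | hpa
  · have : √(p ^ 2 - a ^ 2) = 0 := Real.sqrt_eq_zero_of_nonpos (by nlinarith)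
    rw [this, ENNReal.ofReal_of_nonpos]
    · exact zero_le
    · have := Real.sqrt_nonneg (p ^ 2 - b ^ 2)
      linarith
  · set m := min b p with hm
    have ham : a ≤ m := le_min hab hpa.le
    have hmb : √(p ^ 2 - b ^ 2) = √(p ^ 2 - m ^ 2) := by
      rcases le_total b p with h | h
      · rw [hm, min_eq_left h]
      · rw [hm, min_eq_right h, sub_self, Real.sqrt_zero]
        exact Real.sqrt_eq_zero_of_nonpos (by nlinarith)
    have h := lint_deriv (H := fun x => -√(p ^ 2 - x ^ 2)) (H' := fun t => t / √(p ^ 2 - t ^ 2)) ham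
      (by fun_prop) (fun x hx => sqrt_deriv p (by
        have : x < p := lt_of_lt_of_le hx.2 (min_le_right _ _)
        have : 0 ≤ x := ha.trans hx.1.le
        nlinarith)) (fun x hx => by
        have : 0 ≤ x := ha.trans hx.1.le
        positivity)
    rw [hmb]
    calc ENNReal.ofReal (√(p ^ 2 - a ^ 2) - √(p ^ 2 - m ^ 2))
        = ENNReal.ofReal (-√(p ^ 2 - m ^ 2) - -√(p ^ 2 - a ^ 2)) := by
          congr 1
          ring
      _ = ∫⁻ t in Ioo a m, ENNReal.ofReal (t / √(p ^ 2 - t ^ 2)) := h.symm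
      _ ≤ _ := lintegral_mono_set (Ioo_subset_Ioo_right (min_le_left _ _))

theorem lam_nonneg {p : ℝ} (hp : 0 < p) : 0 ≤ lam p := by
  unfold lam
  positivity

theorem lam_meas : Measurable lam := by
  unfold lam
  fun_prop

/-- The double integral. -/
theorem double (hK : S_KI) {a b : ℝ} (ha : 0 ≤ a) (hab : a ≤ b) (hb : b ≤ 1) :
    ∫⁻ v in Ioi (0 : ℝ), ∫⁻ p in Ioo (0 : ℝ) 1,
      (if √(a ^ 2 + v ^ 2) < p ∧ p < √(b ^ 2 + v ^ 2) then ENNReal.ofReal (lam p) else 0) ≤
      ENNReal.ofReal (18 * π * (√b - √a)) := by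
  have hms : MeasurableSet {z : ℝ × ℝ | √(a ^ 2 + z.1 ^ 2) < z.2 ∧ z.2 < √(b ^ 2 + z.1 ^ 2)} := by
    have h1 : MeasurableSet {z : ℝ × ℝ | √(a ^ 2 + z.1 ^ 2) < z.2} :=
      measurableSet_lt (by fun_prop) (by fun_prop)
    have h2 : MeasurableSet {z : ℝ × ℝ | z.2 < √(b ^ 2 + z.1 ^ 2)} :=
      measurableSet_lt (by fun_prop) (by fun_prop)
    exact h1.inter h2
  rw [lintegral_lintegral_swap]
  · calc ∫⁻ p in Ioo (0 : ℝ) 1, ∫⁻ v in Ioi (0 : ℝ),
          (if √(a ^ 2 + v ^ 2) < p ∧ p < √(b ^ 2 + v ^ 2) then ENNReal.ofReal (lam p) else 0)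
        ≤ ∫⁻ p in Ioo (0 : ℝ) 1, ∫⁻ t in Ioo a b,
            ENNReal.ofReal (lam p) * ENNReal.ofReal (t / √(p ^ 2 - t ^ 2)) := by
          refine setLIntegral_mono' measurableSet_Ioo fun p hp => ?_
          rw [lintegral_const_mul' _ _ ENNReal.ofReal_ne_top]
          calc ∫⁻ v in Ioi (0 : ℝ),
                (if √(a ^ 2 + v ^ 2) < p ∧ p < √(b ^ 2 + v ^ 2) then ENNReal.ofReal (lam p) else 0)
              ≤ ∫⁻ v in Ioi (0 : ℝ), (Ioo (√(p ^ 2 - b ^ 2)) (√(p ^ 2 - a ^ 2))).indicator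
                  (fun _ => ENNReal.ofReal (lam p)) v := by
                refine setLIntegral_mono' measurableSet_Ioi fun v hv => ?_
                split_ifs with h
                · rw [Set.indicator_of_mem]
                  have hv0 : (0 : ℝ) < v := hv
                  have h1 : a ^ 2 + v ^ 2 < p ^ 2 := (Real.sqrt_lt' hp.1).1 h.1
                  have h2 : p ^ 2 < b ^ 2 + v ^ 2 := (Real.lt_sqrt hp.1.le).1 h.2
                  constructor
                  · rw [Real.sqrt_lt' hv0]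
                    linarith
                  · rw [Real.lt_sqrt hv0.le]
                    linarith
                · exact zero_le
            _ ≤ ∫⁻ v, (Ioo (√(p ^ 2 - b ^ 2)) (√(p ^ 2 - a ^ 2))).indicator
                  (fun _ => ENNReal.ofReal (lam p)) v := setLIntegral_le_lintegral _ _
            _ = ENNReal.ofReal (lam p) * ENNReal.ofReal (√(p ^ 2 - a ^ 2) - √(p ^ 2 - b ^ 2)) := by
                rw [lintegral_indicator_const measurableSet_Ioo, Real.volume_Ioo]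
            _ ≤ _ := mul_le_mul_right (len_le ha hab hp.1) _
      _ = ∫⁻ t in Ioo a b, ∫⁻ p in Ioo (0 : ℝ) 1,
            ENNReal.ofReal (lam p) * ENNReal.ofReal (t / √(p ^ 2 - t ^ 2)) := by
          rw [lintegral_lintegral_swap]
          refine Measurable.aemeasurable ?_
          have := lam_meas
          unfold Function.uncurry
          fun_prop
      _ ≤ ∫⁻ t in Ioo a b, ENNReal.ofReal (9 * π / √t) := by
          refine setLIntegral_mono' measurableSet_Ioo fun t ht => ?_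
          have ht0 : 0 < t := lt_of_le_of_lt ha ht.1
          have ht1 : t < 1 := lt_of_lt_of_le ht.2 hb
          refine le_trans ?_ (hK t ht0 ht1)
          rw [← lintegral_indicator measurableSet_Ioo, ← lintegral_indicator measurableSet_Ioo]
          refine lintegral_mono fun p => ?_
          by_cases hp : p ∈ Ioo (0 : ℝ) 1
          · rw [Set.indicator_of_mem hp]
            by_cases hpt : t < p
            · rw [Set.indicator_of_mem (show p ∈ Ioo t 1 from ⟨hpt, hp.2⟩),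
                ENNReal.ofReal_mul (lam_nonneg hp.1)]
            · have : √(p ^ 2 - t ^ 2) = 0 := Real.sqrt_eq_zero_of_nonpos (by
                have := hp.1
                have := not_lt.1 hpt
                nlinarith)
              simp [this]
          · rw [Set.indicator_of_notMem hp]
            exact zero_le
      _ = _ := lint_nine ha hab
  · refine Measurable.aemeasurable ?_
    refine Measurable.ite hms ?_ measurable_const
    exact (lam_meas.comp measurable_snd).ennreal_ofReal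

/-- `φ(p) = g(p)/p` on `(0, 1]`, zero elsewhere. -/
noncomputable def phi (g : ℝ → ℝ) : ℝ → ℝ := (Ioc (0 : ℝ) 1).indicator fun p => g p / p

theorem image_eq {t : ℝ} (ht0 : 0 ≤ t) :
    (fun v : ℝ => √(t ^ 2 + v ^ 2)) '' Ioi 0 = Ioi t := by
  ext s
  constructor
  · rintro ⟨v, hv, rfl⟩
    have hv0 : (0 : ℝ) < v := hv
    exact (Real.lt_sqrt ht0).2 (by nlinarith)
  · intro hs
    have hs' : t < s := hs
    refine ⟨√(s ^ 2 - t ^ 2), Real.sqrt_pos.2 (by nlinarith), ?_⟩
    simp only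
    rw [Real.sq_sqrt (by nlinarith), add_sub_cancel, Real.sqrt_sq (by linarith)]

theorem aop_eq (g : ℝ → ℝ) {t : ℝ} (ht0 : 0 ≤ t) (ht1 : t ≤ 1) :
    Aop g t = ∫ v in Ioi (0 : ℝ), phi g (√(t ^ 2 + v ^ 2)) := by
  have h1 : Aop g t = ∫ s in Ioi t, (Iic (1 : ℝ)).indicator (fun s => g s / √(s ^ 2 - t ^ 2)) s := by
    unfold Aop
    rw [intervalIntegral.integral_of_le ht1, setIntegral_indicator measurableSet_Iic]
    rfl
  rw [h1, ← image_eq ht0, integral_image_eq_integral_abs_deriv_smul measurableSet_Ioi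
    (f' := fun v => v / √(t ^ 2 + v ^ 2))]
  · refine setIntegral_congr_fun measurableSet_Ioi fun v hv => ?_
    have hv0 : (0 : ℝ) < v := hv
    have hp : 0 < t ^ 2 + v ^ 2 := by positivity
    have hsp : 0 < √(t ^ 2 + v ^ 2) := Real.sqrt_pos.2 hp
    simp only [phi]
    by_cases h : √(t ^ 2 + v ^ 2) ≤ 1
    · rw [Set.indicator_of_mem (show √(t ^ 2 + v ^ 2) ∈ Iic (1 : ℝ) from h),
        Set.indicator_of_mem (show √(t ^ 2 + v ^ 2) ∈ Ioc (0 : ℝ) 1 from ⟨hsp, h⟩),
        Real.sq_sqrt hp.le, add_sub_cancel_left, Real.sqrt_sq hv0.le, abs_of_pos (by positivity),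
        smul_eq_mul]
      field_simp
    · rw [Set.indicator_of_notMem (show √(t ^ 2 + v ^ 2) ∉ Iic (1 : ℝ) from h),
        Set.indicator_of_notMem (show √(t ^ 2 + v ^ 2) ∉ Ioc (0 : ℝ) 1 from fun h' => h h'.2),
        smul_zero]
  · intro v hv
    have hv0 : (0 : ℝ) < v := hv
    have hp : 0 < t ^ 2 + v ^ 2 := by positivity
    have h0 : HasDerivAt (fun x : ℝ => t ^ 2 + x ^ 2) (2 * v) v := by
      have := ((hasDerivAt_id v).pow 2).const_add (t ^ 2)
      simpa using this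
    refine (((h0.sqrt hp.ne')).congr_deriv ?_).hasDerivWithinAt
    have : √(t ^ 2 + v ^ 2) ≠ 0 := (Real.sqrt_pos.2 hp).ne'
    field_simp
  · intro v hv w hw h
    have hv0 : (0 : ℝ) < v := hv
    have hw0 : (0 : ℝ) < w := hw
    simp only at h
    rw [Real.sqrt_inj (by positivity) (by positivity)] at h
    have : v ^ 2 = w ^ 2 := by linarith
    exact (pow_left_inj₀ hv0.le hw0.le two_ne_zero).1 this

section

variable {g : ℝ → ℝ} {B : ℝ}

theorem om_bound {p : ℝ} (hp0 : 0 ≤ p) : Om p - Om 0 ≤ 6 * √p := by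
  unfold Om
  rw [Real.sqrt_zero, sub_zero, sub_zero]
  have key : ∀ c : ℝ, 0 ≤ c → √c ≤ √p + √(c - p) := by
    intro c hc
    rcases le_total c p with h | h
    · have := Real.sqrt_le_sqrt h
      have := Real.sqrt_nonneg (c - p)
      linarith
    · rw [Real.sqrt_le_left (by positivity), add_sq, Real.sq_sqrt hp0,
        Real.sq_sqrt (by linarith)]
      have : 0 ≤ 2 * √p * √(c - p) := by positivity
      linarith
  have h1 := key (1 / 2) (by norm_num)
  have h2 := key 1 (by norm_num)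
  rw [Real.sqrt_one] at h2 ⊢
  generalize √(1 / 2 : ℝ) = A at h1 ⊢
  generalize √(1 / 2 - p) = B at h1 ⊢
  linarith

theorem g_bound (hB : 0 ≤ B) (g0 : g 0 = 0)
    (hg : ∀ a b, 0 ≤ a → a ≤ b → b ≤ 1 → |g b - g a| ≤ B * (Om b - Om a)) {p : ℝ} (hp0 : 0 ≤ p)
    (hp1 : p ≤ 1) : |g p| ≤ 6 * B * √p := by
  have h := hg 0 p le_rfl hp0 hp1
  rw [g0, sub_zero] at h
  have := mul_le_mul_of_nonneg_left (om_bound hp0) hB
  linarith

theorem g_cont (hB : 0 ≤ B)
    (hg : ∀ a b, 0 ≤ a → a ≤ b → b ≤ 1 → |g b - g a| ≤ B * (Om b - Om a)) :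
    ContinuousOn g (Icc 0 1) := by
  have hOm : Continuous Om := by
    unfold Om
    fun_prop
  intro x hx
  have hb : ∀ y ∈ Icc (0 : ℝ) 1, |g y - g x| ≤ B * |Om y - Om x| := by
    intro y hy
    rcases le_total x y with h | h
    · exact (hg x y hx.1 h hy.2).trans (mul_le_mul_of_nonneg_left (le_abs_self _) hB)
    · rw [abs_sub_comm (g y), abs_sub_comm (Om y)]
      exact (hg y x hy.1 h hx.2).trans (mul_le_mul_of_nonneg_left (le_abs_self _) hB)
  unfold ContinuousWithinAt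
  rw [tendsto_iff_dist_tendsto_zero]
  refine squeeze_zero' (Eventually.of_forall fun _ => dist_nonneg)
    (eventually_nhdsWithin_of_forall fun y hy => ?_) (t₀ := 𝓝[Icc 0 1] x)
    (g := fun y => B * |Om y - Om x|) ?_
  · rw [Real.dist_eq]
    exact hb y hy
  · have : Tendsto (fun y => B * |Om y - Om x|) (𝓝 x) (𝓝 (B * |Om x - Om x|)) := by
      have : Continuous fun y => B * |Om y - Om x| := by fun_prop
      exact this.tendsto x
    rw [sub_self, abs_zero, mul_zero] at this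
    exact this.mono_left nhdsWithin_le_nhds

theorem phi_meas (hB : 0 ≤ B)
    (hg : ∀ a b, 0 ≤ a → a ≤ b → b ≤ 1 → |g b - g a| ≤ B * (Om b - Om a)) :
    Measurable (phi g) := by
  classical
  have hc : ContinuousOn (fun p => g p / p) (Ioc 0 1) :=
    ((g_cont hB hg).mono Ioc_subset_Icc_self).div continuousOn_id fun p hp => hp.1.ne'
  have := ContinuousOn.measurable_piecewise hc (continuousOn_const (c := (0 : ℝ)))
    measurableSet_Ioc
  unfold phi
  rw [← Set.piecewise_eq_indicator]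
  exact this

theorem phi_bound (hB : 0 ≤ B) (g0 : g 0 = 0)
    (hg : ∀ a b, 0 ≤ a → a ≤ b → b ≤ 1 → |g b - g a| ≤ B * (Om b - Om a)) (t : ℝ) {v : ℝ}
    (hv : 0 < v) :
    |phi g (√(t ^ 2 + v ^ 2))| ≤ (Ioc (0 : ℝ) 1).indicator (fun v => 6 * B / √v) v := by
  have hp : 0 < t ^ 2 + v ^ 2 := by positivity
  have hsp : 0 < √(t ^ 2 + v ^ 2) := Real.sqrt_pos.2 hp
  have hvs : v ≤ √(t ^ 2 + v ^ 2) := Real.le_sqrt_of_sq_le (by nlinarith [sq_nonneg t])
  unfold phi
  by_cases h : √(t ^ 2 + v ^ 2) ≤ 1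
  · rw [Set.indicator_of_mem (show √(t ^ 2 + v ^ 2) ∈ Ioc (0 : ℝ) 1 from ⟨hsp, h⟩),
      Set.indicator_of_mem (show v ∈ Ioc (0 : ℝ) 1 from ⟨hv, hvs.trans h⟩)]
    set q := √(t ^ 2 + v ^ 2) with hq
    have h1 := g_bound hB g0 hg hsp.le h
    rw [abs_div, abs_of_pos hsp]
    have h2 : √v ≤ √q := Real.sqrt_le_sqrt hvs
    have h3 : 0 < √v := Real.sqrt_pos.2 hv
    have h4 : 0 < √q := h3.trans_le h2
    calc |g q| / q ≤ 6 * B * √q / q := by gcongr
      _ = 6 * B / √q := by
        have : q = √q * √q := (Real.mul_self_sqrt hsp.le).symm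
        rw [div_eq_div_iff hsp.ne' h4.ne']
        calc 6 * B * √q * √q = 6 * B * (√q * √q) := by ring
          _ = 6 * B * q := by rw [← this]
      _ ≤ 6 * B / √v := by gcongr
  · rw [Set.indicator_of_notMem (show √(t ^ 2 + v ^ 2) ∉ Ioc (0 : ℝ) 1 from fun h' => h h'.2),
      abs_zero]
    exact Set.indicator_nonneg (fun v _ => by positivity) v

theorem bd_int (hB : 0 ≤ B) : IntegrableOn (fun v : ℝ => 6 * B / √v) (Ioc 0 1) := by
  refine intervalIntegral.integrableOn_deriv_of_nonneg (g := fun x => 12 * B * √x) (by fun_prop)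
    (fun x hx => ?_) (fun x _ => by positivity)
  refine ((sqrt_hasDeriv hx.1).const_mul (12 * B)).congr_deriv ?_
  have : √x ≠ 0 := (Real.sqrt_pos.2 hx.1).ne'
  field_simp
  ring

theorem bd_val (hB : 0 ≤ B) : ∫ v in Ioc (0 : ℝ) 1, 6 * B / √v = 12 * B := by
  rw [← intervalIntegral.integral_of_le zero_le_one,
    intervalIntegral.integral_eq_sub_of_hasDerivAt_of_le (f := fun x => 12 * B * √x) zero_le_one
      (by fun_prop) (fun x hx => ?_)
      ((intervalIntegrable_iff_integrableOn_Ioc_of_le zero_le_one).2 (bd_int hB))]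
  · simp
  · refine ((sqrt_hasDeriv hx.1).const_mul (12 * B)).congr_deriv ?_
    have : √x ≠ 0 := (Real.sqrt_pos.2 hx.1).ne'
    field_simp
    ring

theorem phi_int (hB : 0 ≤ B) (g0 : g 0 = 0)
    (hg : ∀ a b, 0 ≤ a → a ≤ b → b ≤ 1 → |g b - g a| ≤ B * (Om b - Om a)) (t : ℝ) :
    IntegrableOn (fun v => phi g (√(t ^ 2 + v ^ 2))) (Ioi 0) := by
  have h1 : Integrable ((Ioc (0 : ℝ) 1).indicator (fun v => 6 * B / √v)) :=
    (integrable_indicator_iff measurableSet_Ioc).2 (bd_int hB)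
  refine Integrable.mono' h1.integrableOn ?_ ?_
  · refine Measurable.aestronglyMeasurable ?_
    have := phi_meas hB hg
    fun_prop
  · refine (ae_restrict_iff' measurableSet_Ioi).2 (Eventually.of_forall fun v hv => ?_)
    rw [Real.norm_eq_abs]
    exact phi_bound hB g0 hg t hv

theorem aop_bound (hB : 0 ≤ B) (g0 : g 0 = 0)
    (hg : ∀ a b, 0 ≤ a → a ≤ b → b ≤ 1 → |g b - g a| ≤ B * (Om b - Om a)) {t : ℝ}
    (ht0 : 0 ≤ t) (ht1 : t ≤ 1) : |Aop g t| ≤ 12 * B := by
  rw [aop_eq g ht0 ht1, ← Real.norm_eq_abs]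
  have h1 : Integrable ((Ioc (0 : ℝ) 1).indicator (fun v => 6 * B / √v)) :=
    (integrable_indicator_iff measurableSet_Ioc).2 (bd_int hB)
  refine (norm_integral_le_of_norm_le h1.integrableOn (g := (Ioc (0 : ℝ) 1).indicator
    (fun v => 6 * B / √v)) ?_).trans ?_
  · refine (ae_restrict_iff' measurableSet_Ioi).2 (Eventually.of_forall fun v hv => ?_)
    rw [Real.norm_eq_abs]
    exact phi_bound hB g0 hg t hv
  · rw [setIntegral_indicator measurableSet_Ioc, ← bd_val hB]
    have : Ioi (0 : ℝ) ∩ Ioc 0 1 = Ioc 0 1 := by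
      ext x
      simp only [mem_inter_iff, mem_Ioi, mem_Ioc]
      tauto
    rw [this]

theorem point (hL : S_LAM) (hB : 0 ≤ B) (g0 : g 0 = 0) (g1 : g 1 = 0)
    (hg : ∀ a b, 0 ≤ a → a ≤ b → b ≤ 1 → |g b - g a| ≤ B * (Om b - Om a)) {a b v : ℝ}
    (ha : 0 ≤ a) (hab : a ≤ b) (hv : 0 < v) :
    ENNReal.ofReal ‖phi g (√(b ^ 2 + v ^ 2)) - phi g (√(a ^ 2 + v ^ 2))‖ ≤
      ENNReal.ofReal B * ∫⁻ p in Ioo (0 : ℝ) 1,
      (if √(a ^ 2 + v ^ 2) < p ∧ p < √(b ^ 2 + v ^ 2) then ENNReal.ofReal (lam p) else 0) := by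
  set x := √(a ^ 2 + v ^ 2) with hx
  set y := √(b ^ 2 + v ^ 2) with hy
  have hx0 : 0 < x := Real.sqrt_pos.2 (by positivity)
  have hxy : x ≤ y := Real.sqrt_le_sqrt (by nlinarith)
  have hbig : ∀ z : ℝ, 1 ≤ z → phi g z = 0 := by
    intro z hz
    unfold phi
    rcases eq_or_lt_of_le hz with h | h
    · rw [← h, Set.indicator_of_mem (by norm_num), g1, zero_div]
    · exact Set.indicator_of_notMem (fun h' => absurd h'.2 (not_le.2 h)) _
  have hsmall : ∀ z : ℝ, 0 < z → z ≤ 1 → phi g z = g z / z := by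
    intro z hz0 hz1
    exact Set.indicator_of_mem (show z ∈ Ioc (0 : ℝ) 1 from ⟨hz0, hz1⟩) _
  rcases le_or_gt 1 x with h1 | h1
  · rw [hbig x h1, hbig y (h1.trans hxy), sub_zero, norm_zero, ENNReal.ofReal_zero]
    exact zero_le
  · set m := min y 1 with hm
    have hxm : x ≤ m := le_min hxy h1.le
    have hm0 : 0 < m := hx0.trans_le hxm
    have hym : phi g y = g m / m := by
      rcases le_total y 1 with h | h
      · rw [hm, min_eq_left h]
        exact hsmall y (hx0.trans_le hxy) h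
      · rw [hm, min_eq_right h, g1, zero_div]
        exact hbig y h
    rw [hym, hsmall x hx0 h1.le, Real.norm_eq_abs]
    refine (hL g B 1 hB le_rfl (fun p hp0 hp1 => g_bound hB g0 hg hp0.le hp1)
      (fun a b ha hab hb => hg a b ha.le hab hb) x m hx0 hxm (min_le_right _ _)).trans ?_
    refine mul_le_mul_right ?_ _
    rw [← lintegral_indicator measurableSet_Ioo, ← lintegral_indicator measurableSet_Ioo]
    refine lintegral_mono fun p => ?_
    by_cases hp : p ∈ Ioo x m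
    · have hp1 : p < 1 := lt_of_lt_of_le hp.2 (min_le_right _ _)
      have hpy : p < y := lt_of_lt_of_le hp.2 (min_le_left _ _)
      rw [Set.indicator_of_mem hp,
        Set.indicator_of_mem (show p ∈ Ioo (0 : ℝ) 1 from ⟨hx0.trans hp.1, hp1⟩),
        if_pos ⟨hp.1, hpy⟩]
    · rw [Set.indicator_of_notMem hp]
      exact zero_le

end

end K1aux

open K1aux in
/-- §3.1 -/
theorem K1 (hK : S_KI) (hL : S_LAM) : S_K1 := by
  refine ⟨18 * π, by positivity, fun g B hB g0 g1 hg => ⟨fun t ht0 ht1 => ?_,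
    fun a b ha hab hb => ?_⟩⟩
  · refine (aop_bound hB g0 hg ht0 ht1).trans ?_
    have : (12 : ℝ) ≤ 18 * π := by linarith [Real.pi_gt_three]
    exact mul_le_mul_of_nonneg_right this hB
  · have hs : 0 ≤ √b - √a := sub_nonneg.2 (Real.sqrt_le_sqrt hab)
    rw [aop_eq g (ha.trans hab) hb, aop_eq g ha (hab.trans hb),
      ← integral_sub (phi_int hB g0 hg b) (phi_int hB g0 hg a), ← Real.norm_eq_abs]
    refine (norm_integral_le_lintegral_norm _).trans ?_
    refine ENNReal.toReal_le_of_le_ofReal (by positivity) ?_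
    calc ∫⁻ v in Ioi (0 : ℝ),
          ENNReal.ofReal ‖phi g (√(b ^ 2 + v ^ 2)) - phi g (√(a ^ 2 + v ^ 2))‖
        ≤ ∫⁻ v in Ioi (0 : ℝ), ENNReal.ofReal B * ∫⁻ p in Ioo (0 : ℝ) 1,
            (if √(a ^ 2 + v ^ 2) < p ∧ p < √(b ^ 2 + v ^ 2) then ENNReal.ofReal (lam p) else 0) :=
          setLIntegral_mono' measurableSet_Ioi fun v hv => point hL hB g0 g1 hg ha hab hv
      _ = ENNReal.ofReal B * ∫⁻ v in Ioi (0 : ℝ), ∫⁻ p in Ioo (0 : ℝ) 1,
            (if √(a ^ 2 + v ^ 2) < p ∧ p < √(b ^ 2 + v ^ 2) then ENNReal.ofReal (lam p) else 0) :=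
          lintegral_const_mul' _ _ ENNReal.ofReal_ne_top
      _ ≤ ENNReal.ofReal B * ENNReal.ofReal (18 * π * (√b - √a)) :=
          mul_le_mul_right (double hK ha hab hb) _
      _ = ENNReal.ofReal (18 * π * B * (√b - √a)) := by
          rw [← ENNReal.ofReal_mul hB]
          congr 1
          ring

end Pool.Agent.HV
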