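import Pool.Agent.HV.Stmts

/-!
# Kernel lemma 3.2: increments of `𝒞 g`   (module HV_K2, helper29)

Scaling `s = t σ` instead of the substitution `s = √(t² + v²)`.
-/

set_option autoImplicit false

open MeasureTheory Set Filter
open scoped Real Topology

namespace Pool.Agent.HV

/-- the kernel after scaling -/
noncomputable def k2w (s : ℝ) : ℝ := 1 / √(s ^ 2 - 1)

lemma k2_deriv {t s : ℝ} (hs : t < s) :
    HasDerivAt (fun s : ℝ => 2 * √(s - t)) (1 / √(s - t)) s := by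
  have h0 : √(s - t) ≠ 0 := (Real.sqrt_pos.2 (sub_pos.2 hs)).ne'
  have h1 : HasDerivAt (fun s : ℝ => s - t) 1 s := (hasDerivAt_id s).sub_const t
  have h2 := (h1.sqrt (sub_pos.2 hs).ne').const_mul 2
  have e : 2 * (1 / (2 * √(s - t))) = 1 / √(s - t) := by field_simp
  rw [e] at h2
  exact h2

lemma k2_int1 {t c : ℝ} (h : t ≤ c) :
    IntervalIntegrable (fun s => 1 / √(s - t)) volume t c := by
  refine intervalIntegral.intervalIntegrable_deriv_of_nonneg (g := fun s => 2 * √(s - t)) ?_ ?_ ?_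
  · exact (Continuous.continuousOn (by fun_prop))
  · intro x hx
    rw [min_eq_left h, max_eq_right h] at hx
    exact k2_deriv hx.1
  · intro x _
    positivity

lemma k2_kernel_le {t s : ℝ} (ht : 0 < t) (hs : t < s) :
    1 / √(s ^ 2 - t ^ 2) ≤ 1 / √t * (1 / √(s - t)) := by
  have h1 : √t * √(s - t) ≤ √(s ^ 2 - t ^ 2) := by
    rw [← Real.sqrt_mul ht.le]
    apply Real.sqrt_le_sqrt
    nlinarith
  have h2 : 0 < √t * √(s - t) := mul_pos (Real.sqrt_pos.2 ht) (Real.sqrt_pos.2 (sub_pos.2 hs))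
  rw [one_div_mul_one_div]
  exact one_div_le_one_div_of_le h2 h1

lemma k2_kernel_int {t c : ℝ} (ht : 0 < t) (h : t ≤ c) :
    IntervalIntegrable (fun s => 1 / √(s ^ 2 - t ^ 2)) volume t c := by
  refine ((k2_int1 h).const_mul (1 / √t)).mono_fun ?_ ?_
  · exact (Measurable.aestronglyMeasurable (by fun_prop))
  · rw [EventuallyLE, ae_restrict_iff' measurableSet_uIoc]
    refine Eventually.of_forall fun x hx => ?_
    rw [uIoc_of_le h] at hx
    rw [Real.norm_of_nonneg (by positivity), Real.norm_of_nonneg (by positivity)]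
    exact k2_kernel_le ht hx.1

lemma k2w_int {a b : ℝ} (ha : 1 ≤ a) (h : a ≤ b) : IntervalIntegrable k2w volume a b := by
  have h1 := k2_kernel_int one_pos (ha.trans h)
  simp only [one_pow] at h1
  exact h1.mono_set (by rw [uIcc_of_le h, uIcc_of_le (ha.trans h)]; exact Icc_subset_Icc ha le_rfl)

lemma k2w_nonneg (s : ℝ) : 0 ≤ k2w s := by unfold k2w; positivity

lemma k2w_sqrt_le {s : ℝ} (hs : 1 < s) : √s * k2w s ≤ 1 / √(s - 1) := by
  have h1 : √s * √(s - 1) ≤ √(s ^ 2 - 1) := by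
    rw [← Real.sqrt_mul (by linarith)]
    apply Real.sqrt_le_sqrt
    nlinarith
  have h2 : 0 < √(s - 1) := Real.sqrt_pos.2 (by linarith)
  have h3 : 0 < √s := Real.sqrt_pos.2 (by linarith)
  have h4 : 0 < √(s ^ 2 - 1) := Real.sqrt_pos.2 (by nlinarith)
  unfold k2w
  rw [mul_one_div, div_le_div_iff₀ h4 h2]
  linarith

lemma k2w_le {s : ℝ} (hs : 1 < s) : k2w s ≤ 1 / √(s - 1) := by
  refine le_trans ?_ (k2w_sqrt_le hs)
  have h1 : (1 : ℝ) ≤ √s := by rw [Real.one_le_sqrt]; exact hs.le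
  nlinarith [k2w_nonneg s]

lemma k2_sqrtw_int {X : ℝ} (h : 1 ≤ X) :
    IntervalIntegrable (fun s => √s * k2w s) volume 1 X :=
  (k2w_int le_rfl h).continuousOn_mul (Continuous.continuousOn (by fun_prop))

lemma k2_ftc {X : ℝ} (h : 1 ≤ X) {φ : ℝ → ℝ} (hφ : IntervalIntegrable φ volume 1 X)
    (hle : ∀ s, 1 < s → φ s ≤ 1 / √(s - 1)) : ∫ s in (1 : ℝ)..X, φ s ≤ 2 * √(X - 1) := by
  have h1 := intervalIntegral.integral_le_sub_of_hasDeriv_right_of_le (g := fun s => 2 * √(s - 1))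
    (g' := fun s => 1 / √(s - 1)) (φ := φ) h (Continuous.continuousOn (by fun_prop))
    (fun x hx => (k2_deriv hx.1).hasDerivWithinAt)
    ((intervalIntegrable_iff_integrableOn_Icc_of_le h).1 hφ) (fun x hx => hle x hx.1)
  simpa using h1

/-- scaling -/
lemma k2_scale (h : ℝ → ℝ) {t : ℝ} (ht : 0 < t) (c : ℝ) :
    ∫ s in t..c, h s / √(s ^ 2 - t ^ 2) = ∫ s in (1 : ℝ)..c / t, h (t * s) * k2w s := by
  have h1 := intervalIntegral.integral_comp_mul_left (a := 1) (b := c / t)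
    (fun s => h s / √(s ^ 2 - t ^ 2)) ht.ne'
  rw [mul_one, mul_div_cancel₀ _ ht.ne', smul_eq_mul] at h1
  have h2 : ∫ s in t..c, h s / √(s ^ 2 - t ^ 2) =
      t * ∫ s in (1 : ℝ)..c / t, h (t * s) / √((t * s) ^ 2 - t ^ 2) := by
    rw [h1, ← mul_assoc, mul_inv_cancel₀ ht.ne', one_mul]
  rw [h2, ← intervalIntegral.integral_const_mul]
  congr 1
  funext s
  have h3 : √((t * s) ^ 2 - t ^ 2) = t * √(s ^ 2 - 1) := by
    rw [show (t * s) ^ 2 - t ^ 2 = t ^ 2 * (s ^ 2 - 1) by ring, Real.sqrt_mul (sq_nonneg t),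
      Real.sqrt_sq ht.le]
  rw [h3, k2w]
  by_cases h4 : √(s ^ 2 - 1) = 0
  · simp [h4]
  · field_simp

/-- the second part of the increment -/
lemma k2_tail {c t₁ t₂ : ℝ} (h1 : 0 < t₁) (h12 : t₁ ≤ t₂) (h2 : t₂ ≤ c) :
    t₁ * ∫ s in c / t₂..c / t₁, k2w s ≤ √c * (2 * √(c - t₁) - 2 * √(c - t₂)) := by
  have ht2 : 0 < t₂ := h1.trans_le h12
  have hc : 0 < c := ht2.trans_le h2
  have hX2 : 1 ≤ c / t₂ := (one_le_div ht2).2 h2
  have hX : c / t₂ ≤ c / t₁ := div_le_div_of_nonneg_left hc.le h1 h12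
  have key := intervalIntegral.integral_le_sub_of_hasDeriv_right_of_le
    (g := fun s => √c * (2 * √(c - c / s))) (g' := fun s => c / (s * √s * √(s - 1)))
    (φ := fun s => t₁ * k2w s) hX ?_ ?_ ?_ ?_
  · rw [intervalIntegral.integral_const_mul] at key
    refine key.trans (le_of_eq ?_)
    rw [div_div_cancel₀ hc.ne', div_div_cancel₀ hc.ne']
    ring
  · refine ContinuousOn.mul continuousOn_const (ContinuousOn.mul continuousOn_const
      (ContinuousOn.sqrt (continuousOn_const.sub (continuousOn_const.div continuousOn_id ?_))))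
    intro x hx
    exact (by linarith [hx.1] : (0 : ℝ) < x).ne'
  · intro x hx
    have hx1 : 1 < x := lt_of_le_of_lt hX2 hx.1
    have hx0 : 0 < x := by linarith
    have hpos : 0 < c - c / x := by
      rw [sub_pos, div_lt_iff₀ hx0]; nlinarith
    have hd1 : HasDerivAt (fun s : ℝ => c - c / s) (c / x ^ 2) x := by
      have := ((hasDerivAt_inv hx0.ne').const_mul c).const_sub c
      have e2 : -(c * -(x ^ 2)⁻¹) = c / x ^ 2 := by ring
      rw [e2] at this
      exact this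
    have hd := ((hd1.sqrt hpos.ne').const_mul 2).const_mul (√c)
    have e : √c * (2 * (c / x ^ 2 / (2 * √(c - c / x)))) = c / (x * √x * √(x - 1)) := by
      have e1 : √(c - c / x) = √c * √(x - 1) / √x := by
        rw [show c - c / x = c * (x - 1) / x by field_simp, Real.sqrt_div' _ hx0.le,
          Real.sqrt_mul hc.le]
      have s1 : 0 < √c := Real.sqrt_pos.2 hc
      have s2 : 0 < √x := Real.sqrt_pos.2 hx0
      have s3 : 0 < √(x - 1) := Real.sqrt_pos.2 (by linarith)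
      have s4 : √x ^ 2 = x := Real.sq_sqrt hx0.le
      rw [e1]
      field_simp
      nlinarith
    rw [e] at hd
    exact hd.hasDerivWithinAt
  · exact (intervalIntegrable_iff_integrableOn_Icc_of_le hX).1 ((k2w_int hX2 hX).const_mul _)
  · intro x hx
    have hx1 : 1 < x := lt_of_le_of_lt hX2 hx.1
    have hx0 : 0 < x := by linarith
    have h3 := k2w_sqrt_le hx1
    have s2 : 0 < √x := Real.sqrt_pos.2 hx0
    have s3 : 0 < √(x - 1) := Real.sqrt_pos.2 (by linarith)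
    have h4 : t₁ * x ≤ c := ((lt_div_iff₀' h1).1 hx.2).le
    have h5 : k2w x ≤ 1 / (√x * √(x - 1)) := by
      rw [le_div_iff₀ (by positivity)]
      rw [le_div_iff₀ s3] at h3
      nlinarith
    calc t₁ * k2w x ≤ c / x * (1 / (√x * √(x - 1))) := by
          apply mul_le_mul ((le_div_iff₀ hx0).2 h4) h5 (k2w_nonneg x) (by positivity)
      _ = c / (x * √x * √(x - 1)) := by field_simp

lemma k2_cont {c H : ℝ} {h : ℝ → ℝ}
    (hi : ∀ a b, 0 ≤ a → a ≤ b → b ≤ c → |h b - h a| ≤ H * (√b - √a)) :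
    ContinuousOn h (Icc 0 c) := by
  intro x hx
  rw [ContinuousWithinAt, tendsto_iff_dist_tendsto_zero]
  have hlim : Tendsto (fun y => |H| * |√y - √x|) (𝓝[Icc 0 c] x) (𝓝 0) := by
    have h1 : Continuous fun y => |H| * |√y - √x| := by fun_prop
    have h2 := (h1.tendsto x).mono_left (nhdsWithin_le_nhds (s := Icc 0 c))
    simpa using h2
  refine squeeze_zero' (Eventually.of_forall fun y => dist_nonneg) ?_ hlim
  filter_upwards [self_mem_nhdsWithin] with y hy
  rw [Real.dist_eq]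
  rcases le_total x y with hxy | hxy
  · refine (hi x y hx.1 hxy hy.2).trans ?_
    rw [← abs_mul]
    exact le_abs_self _
  · rw [abs_sub_comm]
    refine (hi y x hy.1 hxy hx.2).trans ?_
    rw [← abs_mul, ← abs_neg]
    refine le_trans (le_of_eq ?_) (le_abs_self _)
    ring

lemma k2_sqrt_id {c t : ℝ} (ht : 0 < t) : √t * √(c / t - 1) = √(c - t) := by
  rw [← Real.sqrt_mul ht.le]
  congr 1
  field_simp

/-- the core estimate -/
lemma k2_core {c M H : ℝ} (hM : 0 ≤ M) (hH : 0 ≤ H) (h : ℝ → ℝ)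
    (hb : ∀ t, 0 ≤ t → t ≤ c → |h t| ≤ M)
    (hi : ∀ a b, 0 ≤ a → a ≤ b → b ≤ c → |h b - h a| ≤ H * (√b - √a))
    {t₁ t₂ : ℝ} (h1 : 0 ≤ t₁) (h12 : t₁ ≤ t₂) (h2 : t₂ ≤ c) :
    |t₂ * (∫ s in t₂..c, h s / √(s ^ 2 - t₂ ^ 2)) -
        t₁ * (∫ s in t₁..c, h s / √(s ^ 2 - t₁ ^ 2))| ≤
      (c * H + 4 * √c * M) * (√t₂ - √t₁) + M * √c * (2 * √(c - t₁) - 2 * √(c - t₂)) := by
  have hcont := k2_cont hi
  have hcn : 0 ≤ c := h1.trans (h12.trans h2)
  have hsq12 : √t₁ ≤ √t₂ := Real.sqrt_le_sqrt h12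
  have hsqc : √(c - t₂) ≤ √(c - t₁) := Real.sqrt_le_sqrt (by linarith)
  rcases (h1.trans h12).eq_or_lt with ht2 | ht2
  · have ht1 : t₁ = 0 := le_antisymm (by rw [ht2]; exact h12) h1
    rw [← ht2, ht1]
    simp
  have hX2 : 1 ≤ c / t₂ := (one_le_div ht2).2 h2
  have hr : √t₂ * √(c / t₂ - 1) = √(c - t₂) := k2_sqrt_id ht2
  have s2 : 0 < √t₂ := Real.sqrt_pos.2 ht2
  have s22 : √t₂ * √t₂ = t₂ := Real.mul_self_sqrt ht2.le
  have hcle : √(c - t₂) ≤ √c := Real.sqrt_le_sqrt (by linarith)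
  have hr0 : 0 ≤ √(c / t₂ - 1) := Real.sqrt_nonneg _
  -- continuity after scaling
  have hcs : ∀ t, 0 < t → t ≤ c → ContinuousOn (fun s => h (t * s)) (uIcc 1 (c / t)) := by
    intro t ht htc
    rw [uIcc_of_le ((one_le_div ht).2 htc)]
    refine hcont.comp (Continuous.continuousOn (by fun_prop)) ?_
    intro s hs
    have hs2 := (le_div_iff₀' ht).1 hs.2
    exact ⟨mul_nonneg ht.le (by linarith [hs.1]), hs2⟩
  have hI2 : IntervalIntegrable (fun s => h (t₂ * s) * k2w s) volume 1 (c / t₂) :=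
    (k2w_int le_rfl hX2).continuousOn_mul (hcs t₂ ht2 h2)
  have hw := k2_ftc hX2 (k2w_int le_rfl hX2) fun s hs => k2w_le hs
  have hsw := k2_ftc hX2 (k2_sqrtw_int hX2) fun s hs => k2w_sqrt_le hs
  rcases h1.eq_or_lt with ht1 | ht1
  · rw [← ht1, zero_mul, sub_zero, Real.sqrt_zero, sub_zero, sub_zero, k2_scale h ht2, abs_mul,
      abs_of_pos ht2]
    have e1 : |∫ s in (1 : ℝ)..c / t₂, h (t₂ * s) * k2w s| ≤
        ∫ s in (1 : ℝ)..c / t₂, M * k2w s := by
      rw [← Real.norm_eq_abs]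
      refine intervalIntegral.norm_integral_le_of_norm_le hX2 (Eventually.of_forall fun s hs => ?_)
        ((k2w_int le_rfl hX2).const_mul _)
      rw [norm_mul, Real.norm_of_nonneg (k2w_nonneg s)]
      exact mul_le_mul_of_nonneg_right (hb _ (mul_nonneg ht2.le (by linarith [hs.1]))
        ((le_div_iff₀' ht2).1 hs.2)) (k2w_nonneg s)
    rw [intervalIntegral.integral_const_mul] at e1
    have e2 : t₂ * |∫ s in (1 : ℝ)..c / t₂, h (t₂ * s) * k2w s| ≤
        t₂ * (M * (2 * √(c / t₂ - 1))) := by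
      apply mul_le_mul_of_nonneg_left (e1.trans _) ht2.le
      exact mul_le_mul_of_nonneg_left hw hM
    refine e2.trans ?_
    have e3 : t₂ * (M * (2 * √(c / t₂ - 1))) = 2 * M * √t₂ * √(c - t₂) := by
      rw [← hr]; linear_combination (-(M * 2 * √(c / t₂ - 1))) * s22
    rw [e3]
    have e4 : 2 * M * √t₂ * √(c - t₂) ≤ 2 * M * √t₂ * √c :=
      mul_le_mul_of_nonneg_left hcle (by positivity)
    have e5 : 0 ≤ M * √c * (2 * √c - 2 * √(c - t₂)) := by
      apply mul_nonneg (by positivity); linarith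
    have e6 : 0 ≤ c * H * √t₂ := by positivity
    have e7 : 0 ≤ M * √t₂ * √c := by positivity
    nlinarith
  -- the main case
  have hX1 : 1 ≤ c / t₁ := (one_le_div ht1).2 (h12.trans h2)
  have hX : c / t₂ ≤ c / t₁ := div_le_div_of_nonneg_left hcn ht1 h12
  have hI1 : IntervalIntegrable (fun s => h (t₁ * s) * k2w s) volume 1 (c / t₁) :=
    (k2w_int le_rfl hX1).continuousOn_mul (hcs t₁ ht1 (h12.trans h2))
  have hI1a : IntervalIntegrable (fun s => h (t₁ * s) * k2w s) volume 1 (c / t₂) :=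
    hI1.mono_set (by rw [uIcc_of_le hX1, uIcc_of_le hX2]; exact Icc_subset_Icc le_rfl hX)
  have hI1b : IntervalIntegrable (fun s => h (t₁ * s) * k2w s) volume (c / t₂) (c / t₁) :=
    hI1.mono_set (by rw [uIcc_of_le hX1, uIcc_of_le hX]; exact Icc_subset_Icc hX2 le_rfl)
  rw [k2_scale h ht2, k2_scale h ht1, ← intervalIntegral.integral_add_adjacent_intervals hI1a hI1b]
  have e0 : t₂ * (∫ s in (1 : ℝ)..c / t₂, h (t₂ * s) * k2w s) -
      t₁ * ((∫ s in (1 : ℝ)..c / t₂, h (t₁ * s) * k2w s) +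
        ∫ s in c / t₂..c / t₁, h (t₁ * s) * k2w s) =
      (∫ s in (1 : ℝ)..c / t₂, (t₂ * (h (t₂ * s) * k2w s) - t₁ * (h (t₁ * s) * k2w s))) -
        t₁ * ∫ s in c / t₂..c / t₁, h (t₁ * s) * k2w s := by
    rw [intervalIntegral.integral_sub (hI2.const_mul _) (hI1a.const_mul _),
      intervalIntegral.integral_const_mul, intervalIntegral.integral_const_mul]
    ring
  rw [e0]
  have hd0 : 0 ≤ √t₂ - √t₁ := sub_nonneg.2 hsq12
  -- first part
  have e1 : |∫ s in (1 : ℝ)..c / t₂, (t₂ * (h (t₂ * s) * k2w s) - t₁ * (h (t₁ * s) * k2w s))| ≤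
      ∫ s in (1 : ℝ)..c / t₂, (t₂ * H * (√t₂ - √t₁) * (√s * k2w s) +
        (t₂ - t₁) * M * k2w s) := by
    rw [← Real.norm_eq_abs]
    refine intervalIntegral.norm_integral_le_of_norm_le hX2 (Eventually.of_forall fun s hs => ?_)
      (((k2_sqrtw_int hX2).const_mul _).add ((k2w_int le_rfl hX2).const_mul _))
    have hs0 : 0 ≤ s := by linarith [hs.1]
    have hs2 : t₂ * s ≤ c := (le_div_iff₀' ht2).1 hs.2
    have hs1 : t₁ * s ≤ t₂ * s := mul_le_mul_of_nonneg_right h12 hs0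
    have hs10 : 0 ≤ t₁ * s := mul_nonneg h1 hs0
    have k1 := hi (t₁ * s) (t₂ * s) hs10 hs1 hs2
    have k2 := hb (t₁ * s) hs10 (hs1.trans hs2)
    rw [Real.sqrt_mul ht2.le, Real.sqrt_mul h1] at k1
    have e : t₂ * (h (t₂ * s) * k2w s) - t₁ * (h (t₁ * s) * k2w s) =
      (t₂ * (h (t₂ * s) - h (t₁ * s)) + (t₂ - t₁) * h (t₁ * s)) * k2w s := by ring
    rw [e, norm_mul, Real.norm_of_nonneg (k2w_nonneg s)]
    have k3 : ‖t₂ * (h (t₂ * s) - h (t₁ * s)) + (t₂ - t₁) * h (t₁ * s)‖ ≤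
        t₂ * (H * (√t₂ * √s - √t₁ * √s)) + (t₂ - t₁) * M := by
      refine (norm_add_le _ _).trans (add_le_add ?_ ?_)
      · rw [norm_mul, Real.norm_of_nonneg ht2.le]
        exact mul_le_mul_of_nonneg_left k1 ht2.le
      · rw [norm_mul, Real.norm_of_nonneg (sub_nonneg.2 h12)]
        exact mul_le_mul_of_nonneg_left k2 (sub_nonneg.2 h12)
    refine (mul_le_mul_of_nonneg_right k3 (k2w_nonneg s)).trans (le_of_eq ?_)
    ring
  rw [intervalIntegral.integral_add ((k2_sqrtw_int hX2).const_mul _)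
    ((k2w_int le_rfl hX2).const_mul _), intervalIntegral.integral_const_mul,
    intervalIntegral.integral_const_mul] at e1
  have e2 : t₂ * H * (√t₂ - √t₁) * ∫ s in (1 : ℝ)..c / t₂, √s * k2w s ≤
      t₂ * H * (√t₂ - √t₁) * (2 * √(c / t₂ - 1)) :=
    mul_le_mul_of_nonneg_left hsw (by positivity)
  have e3 : (t₂ - t₁) * M * ∫ s in (1 : ℝ)..c / t₂, k2w s ≤
      (t₂ - t₁) * M * (2 * √(c / t₂ - 1)) :=
    mul_le_mul_of_nonneg_left hw (mul_nonneg (sub_nonneg.2 h12) hM)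
  have e4 : t₂ * (2 * √(c / t₂ - 1)) ≤ c := by
    have a1 : t₂ * (2 * √(c / t₂ - 1)) = 2 * √t₂ * √(c - t₂) := by
      rw [← hr]; linear_combination (-(2 * √(c / t₂ - 1))) * s22
    have a2 : √(c - t₂) * √(c - t₂) = c - t₂ := Real.mul_self_sqrt (by linarith)
    rw [a1]
    nlinarith [sq_nonneg (√t₂ - √(c - t₂))]
  have e5 : (t₂ - t₁) * (2 * √(c / t₂ - 1)) ≤ 4 * √c * (√t₂ - √t₁) := by
    have a1 : t₂ - t₁ = (√t₂ - √t₁) * (√t₂ + √t₁) := by
      have s11 : √t₁ * √t₁ = t₁ := Real.mul_self_sqrt h1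
      linear_combination -s22 + s11
    have a2 : (t₂ - t₁) * (2 * √(c / t₂ - 1)) ≤
        ((√t₂ - √t₁) * (2 * √t₂)) * (2 * √(c / t₂ - 1)) := by
      apply mul_le_mul_of_nonneg_right _ (by positivity)
      rw [a1]
      exact mul_le_mul_of_nonneg_left (by linarith) hd0
    refine a2.trans ?_
    have a3 : ((√t₂ - √t₁) * (2 * √t₂)) * (2 * √(c / t₂ - 1)) =
        4 * (√t₂ - √t₁) * √(c - t₂) := by rw [← hr]; ring
    rw [a3]
    have a4 := mul_le_mul_of_nonneg_left hcle (by linarith : 0 ≤ 4 * (√t₂ - √t₁))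
    linarith
  have e2' : t₂ * H * (√t₂ - √t₁) * (2 * √(c / t₂ - 1)) ≤ c * H * (√t₂ - √t₁) := by
    have := mul_le_mul_of_nonneg_right e4 (mul_nonneg hH hd0)
    nlinarith
  have e3' : (t₂ - t₁) * M * (2 * √(c / t₂ - 1)) ≤ 4 * √c * M * (√t₂ - √t₁) := by
    have := mul_le_mul_of_nonneg_right e5 hM
    nlinarith
  -- second part
  have e6 : |t₁ * ∫ s in c / t₂..c / t₁, h (t₁ * s) * k2w s| ≤
      M * √c * (2 * √(c - t₁) - 2 * √(c - t₂)) := by
    have a1 : |∫ s in c / t₂..c / t₁, h (t₁ * s) * k2w s| ≤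
        ∫ s in c / t₂..c / t₁, M * k2w s := by
      rw [← Real.norm_eq_abs]
      refine intervalIntegral.norm_integral_le_of_norm_le hX (Eventually.of_forall fun s hs => ?_)
        ((k2w_int hX2 hX).const_mul _)
      rw [norm_mul, Real.norm_of_nonneg (k2w_nonneg s)]
      exact mul_le_mul_of_nonneg_right (hb _ (mul_nonneg h1 (by linarith [hs.1]))
        ((le_div_iff₀' ht1).1 hs.2)) (k2w_nonneg s)
    rw [intervalIntegral.integral_const_mul] at a1
    rw [abs_mul, abs_of_pos ht1]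
    have a2 := mul_le_mul_of_nonneg_left a1 h1
    have a3 := mul_le_mul_of_nonneg_left (k2_tail ht1 h12 h2) hM
    nlinarith
  have e7 := abs_sub (∫ s in (1 : ℝ)..c / t₂, (t₂ * (h (t₂ * s) * k2w s) -
    t₁ * (h (t₁ * s) * k2w s))) (t₁ * ∫ s in c / t₂..c / t₁, h (t₁ * s) * k2w s)
  linarith

/-- the right branch, continued by a constant -/
lemma k2_ext {gR : ℝ → ℝ} {B : ℝ} (hB : 0 ≤ B)
    (hRi : ∀ a b, 1 / 2 ≤ a → a ≤ b → b ≤ 1 → |gR b - gR a| ≤ B * (√b - √a)) {a b : ℝ}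
    (hab : a ≤ b) (hb : b ≤ 1) :
    |gR (max b (1 / 2)) - gR (max a (1 / 2))| ≤ B * (√b - √a) := by
  rcases le_total (1 / 2) a with h1 | h1
  · rw [max_eq_left h1, max_eq_left (h1.trans hab)]
    exact hRi a b h1 hab hb
  · rcases le_total b (1 / 2) with h2 | h2
    · rw [max_eq_right h1, max_eq_right h2, sub_self, abs_zero]
      exact mul_nonneg hB (sub_nonneg.2 (Real.sqrt_le_sqrt hab))
    · rw [max_eq_right h1, max_eq_left h2]
      refine (hRi (1 / 2) b le_rfl h2 hb).trans (mul_le_mul_of_nonneg_left ?_ hB)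
      linarith [Real.sqrt_le_sqrt h1]

/-- decomposition of `𝒞 g` -/
lemma k2_split {gL gR : ℝ → ℝ} {B : ℝ} (hB : 0 ≤ B)
    (hLi : ∀ a b, 0 ≤ a → a ≤ b → b ≤ 1 / 2 → |gL b - gL a| ≤ B * (√b - √a))
    (hRi : ∀ a b, 1 / 2 ≤ a → a ≤ b → b ≤ 1 → |gR b - gR a| ≤ B * (√b - √a))
    {t : ℝ} (h0 : 0 ≤ t) (h1 : t ≤ 1) :
    Cop (fun t => if t < 1 / 2 then gL t else gR t) t =
      t * (∫ s in t..1, gR (max s (1 / 2)) / √(s ^ 2 - t ^ 2)) +
        min t (1 / 2) * ∫ s in (min t (1 / 2))..(1 / 2),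
          (gL s - gR (1 / 2)) / √(s ^ 2 - (min t (1 / 2)) ^ 2) := by
  rcases h0.eq_or_lt with ht | ht
  · rw [← ht]
    simp [Cop]
  rcases le_or_gt (1 / 2) t with h2 | h2
  · rw [min_eq_right h2, intervalIntegral.integral_same, mul_zero, add_zero]
    unfold Cop Aop
    congr 1
    refine intervalIntegral.integral_congr fun s hs => ?_
    rw [uIcc_of_le h1] at hs
    have hs2 : 1 / 2 ≤ s := h2.trans hs.1
    simp only [not_lt.2 hs2, if_false, max_eq_left hs2]
  · rw [min_eq_left h2.le, ← mul_add]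
    unfold Cop Aop
    congr 1
    have hK1 : IntervalIntegrable (fun s => 1 / √(s ^ 2 - t ^ 2)) volume t 1 :=
      k2_kernel_int ht h1
    have hK2 : IntervalIntegrable (fun s => 1 / √(s ^ 2 - t ^ 2)) volume t (1 / 2) :=
      k2_kernel_int ht h2.le
    have hRc : ContinuousOn (fun s => gR (max s (1 / 2))) (Icc 0 1) :=
      k2_cont fun a b _ hab hb => k2_ext hB hRi hab hb
    have hLc : ContinuousOn gL (Icc 0 (1 / 2)) := k2_cont hLi
    have hRI : IntervalIntegrable (fun s => gR (max s (1 / 2)) / √(s ^ 2 - t ^ 2)) volume t 1 := by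
      have := hK1.continuousOn_mul (g := fun s => gR (max s (1 / 2)))
        (hRc.mono (by rw [uIcc_of_le h1]; exact Icc_subset_Icc h0 le_rfl))
      simpa only [mul_one_div] using this
    have hLI : IntervalIntegrable (fun s => gL s / √(s ^ 2 - t ^ 2)) volume t (1 / 2) := by
      have := hK2.continuousOn_mul (g := gL)
        (hLc.mono (by rw [uIcc_of_le h2.le]; exact Icc_subset_Icc h0 le_rfl))
      simpa only [mul_one_div] using this
    have hRIa : IntervalIntegrable (fun s => gR (max s (1 / 2)) / √(s ^ 2 - t ^ 2)) volume t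
        (1 / 2) := hRI.mono_set (by
      rw [uIcc_of_le h1, uIcc_of_le h2.le]; exact Icc_subset_Icc le_rfl (by norm_num))
    have hRIb : IntervalIntegrable (fun s => gR (max s (1 / 2)) / √(s ^ 2 - t ^ 2)) volume
        (1 / 2) 1 := hRI.mono_set (by
      rw [uIcc_of_le h1, uIcc_of_le (by norm_num)]; exact Icc_subset_Icc h2.le le_rfl)
    have hae : (fun s => gL s / √(s ^ 2 - t ^ 2)) =ᵐ[volume.restrict (Set.uIoc t (1 / 2))]
        (fun s => (if s < 1 / 2 then gL s else gR s) / √(s ^ 2 - t ^ 2)) := by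
      rw [EventuallyEq, ae_restrict_iff' measurableSet_uIoc]
      have h3 : ∀ᵐ s : ℝ ∂volume, s ≠ 1 / 2 := by
        rw [ae_iff]
        simp
      filter_upwards [h3] with s hs hs2
      rw [uIoc_of_le h2.le] at hs2
      rw [if_pos (lt_of_le_of_ne hs2.2 hs)]
    have hgI : IntervalIntegrable (fun s => (if s < 1 / 2 then gL s else gR s) /
        √(s ^ 2 - t ^ 2)) volume t (1 / 2) := hLI.congr_ae hae
    have hcg : ∀ s ∈ uIcc (1 / 2 : ℝ) 1, (if s < 1 / 2 then gL s else gR s) / √(s ^ 2 - t ^ 2) =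
        gR (max s (1 / 2)) / √(s ^ 2 - t ^ 2) := by
      intro s hs
      rw [uIcc_of_le (by norm_num)] at hs
      rw [if_neg (not_lt.2 hs.1), max_eq_left hs.1]
    have hgIb : IntervalIntegrable (fun s => (if s < 1 / 2 then gL s else gR s) /
        √(s ^ 2 - t ^ 2)) volume (1 / 2) 1 := by
      refine hRIb.congr_ae ?_
      rw [EventuallyEq, ae_restrict_iff' measurableSet_uIoc]
      exact Eventually.of_forall fun s hs => (hcg s (uIoc_subset_uIcc hs)).symm
    rw [← intervalIntegral.integral_add_adjacent_intervals hgI hgIb,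
      ← intervalIntegral.integral_add_adjacent_intervals hRIa hRIb,
      ← intervalIntegral.integral_congr_ae_restrict hae, intervalIntegral.integral_congr hcg]
    have e1 : ∫ s in t..(1 / 2), gR (max s (1 / 2)) / √(s ^ 2 - t ^ 2) =
        ∫ s in t..(1 / 2), gR (1 / 2) / √(s ^ 2 - t ^ 2) := by
      refine intervalIntegral.integral_congr fun s hs => ?_
      rw [uIcc_of_le h2.le] at hs
      simp only [max_eq_right hs.2]
    have hcI : IntervalIntegrable (fun s => gR (1 / 2) / √(s ^ 2 - t ^ 2)) volume t (1 / 2) := by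
      have := hK2.const_mul (gR (1 / 2))
      simpa only [mul_one_div] using this
    have e2 : ∫ s in t..(1 / 2), (gL s - gR (1 / 2)) / √(s ^ 2 - t ^ 2) =
        (∫ s in t..(1 / 2), gL s / √(s ^ 2 - t ^ 2)) -
          ∫ s in t..(1 / 2), gR (1 / 2) / √(s ^ 2 - t ^ 2) := by
      rw [← intervalIntegral.integral_sub hLI hcI]
      simp only [sub_div]
    rw [e1, e2]
    ring

lemma k2_sqrt_min (a : ℝ) : √(1 / 2 - min a (1 / 2)) = √(1 / 2 - a) := by
  rcases le_total a (1 / 2) with h | h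
  · rw [min_eq_left h]
  · rw [min_eq_right h, sub_self, Real.sqrt_zero, Real.sqrt_eq_zero_of_nonpos (by linarith)]

lemma abs_le_of_add {x y z w p q : ℝ} (h1 : |x - y| ≤ p) (h2 : |z - w| ≤ q) :
    |x + z - (y + w)| ≤ p + q := by
  have : x + z - (y + w) = (x - y) + (z - w) := by ring
  rw [this]
  exact (abs_add_le _ _).trans (add_le_add h1 h2)

/-- §3.2 -/
theorem K2 : S_K2 := by
  intro gL gR B hB hL hR hLi hRi a b ha hab hb
  rw [k2_split hB hLi hRi (ha.trans hab) hb, k2_split hB hLi hRi ha (hab.trans hb)]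
  have c1 := k2_core (c := 1) hB hB (fun s => gR (max s (1 / 2)))
    (fun t _ ht => hR _ (le_max_right _ _) (max_le ht (by norm_num)))
    (fun a b _ hab hb => k2_ext hB hRi hab hb) ha hab hb
  have hmin : min a (1 / 2) ≤ min b (1 / 2) := min_le_min_right _ hab
  have c2 := k2_core (c := 1 / 2) (M := 2 * B) (by positivity) hB (fun s => gL s - gR (1 / 2))
    (fun t ht0 ht => by
      have e1 := hL t ht0 ht
      have e2 := hR (1 / 2) le_rfl (by norm_num)
      have e3 := abs_sub (gL t) (gR (1 / 2))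
      linarith)
    (fun a b ha hab hb => by
      have := hLi a b ha hab hb
      simpa using this)
    (t₁ := min a (1 / 2)) (t₂ := min b (1 / 2)) (le_min ha (by norm_num)) hmin (min_le_right _ _)
  rw [k2_sqrt_min, k2_sqrt_min] at c2
  simp only [Real.sqrt_one, mul_one, one_mul] at c1
  have hs : √(1 / 2 : ℝ) ≤ 71 / 100 := by
    rw [Real.sqrt_le_left (by norm_num)]
    norm_num
  have hs0 : 0 ≤ √(1 / 2 : ℝ) := Real.sqrt_nonneg _
  have d1 : 0 ≤ √b - √a := sub_nonneg.2 (Real.sqrt_le_sqrt hab)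
  have d2 : 0 ≤ √(1 / 2 - a) - √(1 / 2 - b) := sub_nonneg.2 (Real.sqrt_le_sqrt (by linarith))
  have d3 : 0 ≤ √(1 - a) - √(1 - b) := sub_nonneg.2 (Real.sqrt_le_sqrt (by linarith))
  have d4 : √(min b (1 / 2)) - √(min a (1 / 2)) ≤ √b - √a := by
    rcases le_total b (1 / 2) with h1 | h1
    · rw [min_eq_left h1, min_eq_left (hab.trans h1)]
    · rw [min_eq_right h1]
      rcases le_total a (1 / 2) with h2 | h2
      · rw [min_eq_left h2]
        linarith [Real.sqrt_le_sqrt h1]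
      · rw [min_eq_right h2, sub_self]
        exact d1
  have d5 : 0 ≤ √(min b (1 / 2)) - √(min a (1 / 2)) := sub_nonneg.2 (Real.sqrt_le_sqrt hmin)
  have m1 : (1 / 2 * B + 4 * √(1 / 2) * (2 * B)) * (√(min b (1 / 2)) - √(min a (1 / 2))) ≤
      7 * B * (√b - √a) := by
    apply mul_le_mul _ d4 d5 (by positivity)
    nlinarith
  have m2 : 2 * B * √(1 / 2) * (2 * √(1 / 2 - a) - 2 * √(1 / 2 - b)) ≤
      3 * B * (√(1 / 2 - a) - √(1 / 2 - b)) := by
    have e1 : 2 * B * √(1 / 2) * (2 * √(1 / 2 - a) - 2 * √(1 / 2 - b)) =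
      (4 * √(1 / 2)) * (B * (√(1 / 2 - a) - √(1 / 2 - b))) := by ring
    rw [e1, show 3 * B * (√(1 / 2 - a) - √(1 / 2 - b)) =
      3 * (B * (√(1 / 2 - a) - √(1 / 2 - b))) by ring]
    exact mul_le_mul_of_nonneg_right (by linarith) (mul_nonneg hB d2)
  have p1 := mul_nonneg hB d1
  have p2 := mul_nonneg hB d2
  have p3 := mul_nonneg hB d3
  refine (abs_le_of_add c1 c2).trans ?_
  unfold Om
  nlinarith

end Pool.Agent.HV
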