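import Pool.Agent.HV.Stmts

/-!
# Module HV_KB of MP_678b51_gt (helper47)
-/

set_option autoImplicit false

open MeasureTheory Set Filter
open scoped Real Topology ENNReal

namespace Pool.Agent.HV

namespace KBaux

/-- rescaling an antitone function -/
theorem shrink (ψ : ℝ → ℝ) (hψ : AntitoneOn ψ (Icc 0 1)) (l : ℝ) (hl0 : 0 ≤ l) (hl1 : l ≤ 1) :
    (∫ η in (0 : ℝ)..1, ψ ((1 - l) * η)) - ∫ η in (0 : ℝ)..1, ψ η ≤ l * (ψ 0 - ψ 1) := by
  have hint : ∀ a b : ℝ, 0 ≤ a → a ≤ b → b ≤ 1 → IntervalIntegrable ψ volume a b := by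
    intro a b ha hab hb
    apply AntitoneOn.intervalIntegrable
    rw [uIcc_of_le hab]
    exact hψ.mono (Icc_subset_Icc ha hb)
  have hcv : (1 - l) * ∫ η in (0 : ℝ)..1, ψ ((1 - l) * η) = ∫ η in (0 : ℝ)..(1 - l), ψ η := by
    have := intervalIntegral.smul_integral_comp_mul_left (a := 0) (b := 1) ψ (1 - l)
    simp only [mul_zero, mul_one, smul_eq_mul] at this
    exact this
  have hψ' : AntitoneOn (fun η => ψ ((1 - l) * η)) (Icc 0 1) := by
    intro x hx y hy hxy
    apply hψ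
    · exact ⟨mul_nonneg (by linarith) hx.1, by nlinarith [hx.2, hx.1]⟩
    · exact ⟨mul_nonneg (by linarith) hy.1, by nlinarith [hy.2, hy.1]⟩
    · exact mul_le_mul_of_nonneg_left hxy (by linarith)
  have hI : (∫ η in (0 : ℝ)..1, ψ ((1 - l) * η)) ≤ ψ 0 := by
    have h1 : (∫ η in (0 : ℝ)..1, ψ ((1 - l) * η)) ≤ ∫ η in (0 : ℝ)..1, ψ 0 := by
      apply intervalIntegral.integral_mono_on (by norm_num)
      · apply AntitoneOn.intervalIntegrable
        rw [uIcc_of_le (by norm_num)]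
        exact hψ'
      · simp
      · intro x hx
        apply hψ (by simp) ⟨mul_nonneg (by linarith) hx.1, by nlinarith [hx.2, hx.1]⟩
        exact mul_nonneg (by linarith) hx.1
    simpa using h1
  have hsplit : (∫ η in (0 : ℝ)..1, ψ η) =
      (∫ η in (0 : ℝ)..(1 - l), ψ η) + ∫ η in (1 - l)..1, ψ η := by
    rw [intervalIntegral.integral_add_adjacent_intervals]
    · exact hint _ _ le_rfl (by linarith) (by linarith)
    · exact hint _ _ (by linarith) (by linarith) le_rfl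
  have htail : l * ψ 1 ≤ ∫ η in (1 - l)..1, ψ η := by
    have h1 : (∫ η in (1 - l)..1, ψ 1) ≤ ∫ η in (1 - l)..1, ψ η := by
      apply intervalIntegral.integral_mono_on (by linarith)
      · simp
      · exact hint _ _ (by linarith) (by linarith) le_rfl
      · intro x hx
        exact hψ ⟨by linarith [hx.1], hx.2⟩ (by simp) hx.2
    simpa using h1
  nlinarith

theorem sqrt_part (c a b s : ℝ) (hab : a ≤ b) (hbs : b ≤ s) :
    (√(c - a) - √(c - s)) * (b - a) ≤ 2 * ((√(c - a) - √(c - b)) * (s - a)) := by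
  rcases le_or_gt c a with hca | hca
  · rw [Real.sqrt_eq_zero_of_nonpos (by linarith : c - a ≤ 0),
      Real.sqrt_eq_zero_of_nonpos (by linarith : c - b ≤ 0),
      Real.sqrt_eq_zero_of_nonpos (by linarith : c - s ≤ 0)]
    simp
  · have hX := Real.sq_sqrt (by linarith : 0 ≤ c - a)
    have hX0 := Real.sqrt_nonneg (c - a)
    have hY0 := Real.sqrt_nonneg (c - b)
    have hZ0 := Real.sqrt_nonneg (c - s)
    have hYX := Real.sqrt_le_sqrt (by linarith : c - b ≤ c - a)
    have hZX := Real.sqrt_le_sqrt (by linarith : c - s ≤ c - a)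
    rcases le_or_gt b c with hbc | hbc
    · have hY := Real.sq_sqrt (by linarith : 0 ≤ c - b)
      have hsa : √(c - a) ^ 2 - √(c - s) ^ 2 ≤ s - a := by
        rcases le_or_gt s c with hsc | hsc
        · rw [hX, Real.sq_sqrt (by linarith : 0 ≤ c - s)]
          linarith
        · rw [Real.sqrt_eq_zero_of_nonpos (by linarith : c - s ≤ 0), hX]
          nlinarith
      have hba : b - a = (√(c - a) - √(c - b)) * (√(c - a) + √(c - b)) := by
        have : (√(c - a) - √(c - b)) * (√(c - a) + √(c - b)) = √(c - a) ^ 2 - √(c - b) ^ 2 := by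
          ring
        rw [this, hX, hY]
        ring
      have h1 : (√(c - a) - √(c - b)) * (√(c - a) ^ 2 - √(c - s) ^ 2) ≤
          (√(c - a) - √(c - b)) * (s - a) :=
        mul_le_mul_of_nonneg_left hsa (by linarith)
      have h2 : 0 ≤ (√(c - a) - √(c - b)) * (√(c - a) - √(c - s)) :=
        mul_nonneg (by linarith) (by linarith)
      rw [hba]
      nlinarith [mul_nonneg h2 (by linarith : 0 ≤ √(c - a) - √(c - b) + 2 * √(c - s))]
    · rw [Real.sqrt_eq_zero_of_nonpos (by linarith : c - b ≤ 0),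
        Real.sqrt_eq_zero_of_nonpos (by linarith : c - s ≤ 0)]
      nlinarith

theorem sqrt_conc (a b s : ℝ) (ha : 0 ≤ a) (hab : a ≤ b) (hbs : b ≤ s) :
    (√s - √a) * (b - a) ≤ (√b - √a) * (s - a) := by
  have h1 := Real.sq_sqrt ha
  have h2 := Real.sq_sqrt (ha.trans hab)
  have h3 := Real.sq_sqrt (ha.trans (hab.trans hbs))
  have h4 := Real.sqrt_le_sqrt hab
  have h5 := Real.sqrt_le_sqrt hbs
  have e1 : b - a = (√b - √a) * (√b + √a) := by
    nlinarith
  have e2 : s - a = (√s - √a) * (√s + √a) := by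
    nlinarith
  rw [e1, e2]
  have : 0 ≤ (√s - √a) * (√b - √a) * (√s - √b) :=
    mul_nonneg (mul_nonneg (by linarith) (by linarith)) (by linarith)
  nlinarith

theorem Om_mono {a b : ℝ} (hab : a ≤ b) : Om a ≤ Om b := by
  unfold Om
  have h1 := Real.sqrt_le_sqrt hab
  have h2 := Real.sqrt_le_sqrt (by linarith : 1 / 2 - b ≤ 1 / 2 - a)
  have h3 := Real.sqrt_le_sqrt (by linarith : 1 - b ≤ 1 - a)
  linarith

theorem Om_ge_sqrt {a b : ℝ} (hab : a ≤ b) : 2 * (√b - √a) ≤ Om b - Om a := by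
  unfold Om
  have h2 := Real.sqrt_le_sqrt (by linarith : 1 / 2 - b ≤ 1 / 2 - a)
  have h3 := Real.sqrt_le_sqrt (by linarith : 1 - b ≤ 1 - a)
  linarith

theorem Om_ge_lin {a b : ℝ} (ha : 0 ≤ a) (hab : a ≤ b) (hb : b ≤ 1) : b - a ≤ Om b - Om a := by
  refine le_trans ?_ (Om_ge_sqrt hab)
  have h1 := Real.sq_sqrt ha
  have h2 := Real.sq_sqrt (ha.trans hab)
  have h4 := Real.sqrt_le_sqrt hab
  have h5 : √b ≤ 1 := Real.sqrt_le_one.mpr hb
  have e1 : b - a = (√b - √a) * (√b + √a) := by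
    nlinarith
  rw [e1]
  nlinarith

theorem Om_slope (a b s : ℝ) (ha : 0 ≤ a) (hab : a ≤ b) (hbs : b ≤ s) :
    (Om s - Om a) * (b - a) ≤ 2 * ((Om b - Om a) * (s - a)) := by
  have h1 := sqrt_conc a b s ha hab hbs
  have h2 := sqrt_part (1 / 2) a b s hab hbs
  have h3 := sqrt_part 1 a b s hab hbs
  have h4 : 0 ≤ (√b - √a) * (s - a) :=
    mul_nonneg (by linarith [Real.sqrt_le_sqrt hab]) (by linarith)
  unfold Om
  nlinarith

theorem Om_zero_le {x : ℝ} (hx : 0 ≤ x) : Om x - Om 0 ≤ 6 * √x := by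
  have key : ∀ c : ℝ, 0 ≤ c → √c - √(c - x) ≤ √x := by
    intro c hc
    rcases le_or_gt x c with h | h
    · have e1 := Real.sq_sqrt (by linarith : 0 ≤ c - x)
      have e2 := Real.sq_sqrt hx
      have e3 := Real.sqrt_nonneg (c - x)
      have e4 := Real.sqrt_nonneg x
      have h1 : √c ≤ √(c - x) + √x := by
        rw [← Real.sqrt_sq (by positivity : 0 ≤ √(c - x) + √x)]
        apply Real.sqrt_le_sqrt
        nlinarith
      linarith
    · rw [Real.sqrt_eq_zero_of_nonpos (by linarith : c - x ≤ 0)]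
      have := Real.sqrt_le_sqrt h.le
      linarith
  have h1 := key (1 / 2) (by norm_num)
  have h2 := key 1 (by norm_num)
  have e : Om 0 = - 2 * √(1 / 2) - 2 * √1 := by
    unfold Om
    rw [sub_zero, sub_zero, Real.sqrt_zero]
    ring
  rw [e]
  unfold Om
  generalize √(1 / 2) = X at *
  generalize √(1 / 2 - x) = Y at *
  generalize √1 = Z at *
  generalize √(1 - x) = W at *
  generalize √x = V at *
  linarith


theorem sub_int (f g h : ℝ → ℝ) (hf : Continuous f) (hg : Continuous g)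
    (hh : IntervalIntegrable h volume 0 1)
    (hb : ∀ θ, 0 ≤ θ → θ ≤ 1 → |f θ - g θ| ≤ h θ) :
    |(∫ θ in (0 : ℝ)..1, (1 - θ) * f θ) - ∫ θ in (0 : ℝ)..1, (1 - θ) * g θ| ≤
      ∫ θ in (0 : ℝ)..1, h θ := by
  have hi1 : IntervalIntegrable (fun θ : ℝ => (1 - θ) * f θ) volume 0 1 :=
    (by fun_prop : Continuous fun θ : ℝ => (1 - θ) * f θ).intervalIntegrable _ _
  have hi2 : IntervalIntegrable (fun θ : ℝ => (1 - θ) * g θ) volume 0 1 :=
    (by fun_prop : Continuous fun θ : ℝ => (1 - θ) * g θ).intervalIntegrable _ _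
  rw [← intervalIntegral.integral_sub hi1 hi2]
  have h1 := intervalIntegral.norm_integral_le_integral_norm (μ := volume) (a := 0) (b := 1)
    (f := fun θ : ℝ => (1 - θ) * f θ - (1 - θ) * g θ) (by norm_num)
  rw [Real.norm_eq_abs] at h1
  refine h1.trans ?_
  apply intervalIntegral.integral_mono_on (by norm_num)
  · apply Continuous.intervalIntegrable
    fun_prop
  · exact hh
  · intro θ hθ
    have h2 := hb θ hθ.1 hθ.2
    rw [Real.norm_eq_abs, ← mul_sub, abs_mul, abs_of_nonneg (by linarith [hθ.2] : 0 ≤ 1 - θ)]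
    have h3 := abs_nonneg (f θ - g θ)
    nlinarith [hθ.1, hθ.2]

theorem Gm1 (S : St) (hS : Crude S) (a b s : ℝ) (ha : 0 ≤ a) (hab : a ≤ b) (hbs : b ≤ s)
    (hs : s ≤ 1) : |Gm S s b - Gm S s a| ≤ 4 * (Om b - Om a) := by
  rcases eq_or_lt_of_le (hab.trans hbs) with has | has
  · have : b = a := by linarith
    rw [this]
    simp
  have hgC := hS.gC
  have hmono : Monotone Om := fun x y h => Om_mono h
  have hI1 : ∀ c : ℝ, c ≤ s → IntervalIntegrable (fun θ => Om (c + θ * (s - c))) volume 0 1 := by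
    intro c hc
    apply Monotone.intervalIntegrable
    intro x y hxy
    apply hmono
    nlinarith
  have h1 := sub_int (fun θ => S.g (b + θ * (s - b))) (fun θ => S.g (a + θ * (s - a)))
    (fun θ => 2 * (Om (b + θ * (s - b)) - Om (a + θ * (s - a)))) (by fun_prop) (by fun_prop)
    (((hI1 b hbs).sub (hI1 a has.le)).const_mul 2) ?_
  swap
  · intro θ h0 h1
    apply hS.ginc
    · nlinarith
    · nlinarith
    · nlinarith
  refine h1.trans ?_
  rw [intervalIntegral.integral_const_mul, intervalIntegral.integral_sub (hI1 b hbs)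
    (hI1 a has.le)]
  have hψ : AntitoneOn (fun η => Om (s - η * (s - a))) (Icc 0 1) := by
    intro x _ y _ hxy
    apply hmono
    nlinarith
  have hsa : 0 < s - a := by linarith
  have h2 := shrink (fun η => Om (s - η * (s - a))) hψ ((b - a) / (s - a)) (by
    apply div_nonneg <;> linarith) (by rw [div_le_one hsa]; linarith)
  have e1 : (∫ η in (0 : ℝ)..1, Om (s - (1 - (b - a) / (s - a)) * η * (s - a))) =
      ∫ θ in (0 : ℝ)..1, Om (b + θ * (s - b)) := by
    have := intervalIntegral.integral_comp_sub_left (a := 0) (b := 1)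
      (fun θ => Om (b + θ * (s - b))) 1
    simp only [sub_self, sub_zero] at this
    rw [← this]
    congr 1
    ext η
    congr 1
    field_simp
    ring
  have e2 : (∫ η in (0 : ℝ)..1, Om (s - η * (s - a))) =
      ∫ θ in (0 : ℝ)..1, Om (a + θ * (s - a)) := by
    have := intervalIntegral.integral_comp_sub_left (a := 0) (b := 1)
      (fun θ => Om (a + θ * (s - a))) 1
    simp only [sub_self, sub_zero] at this
    rw [← this]
    congr 1
    ext η
    congr 1
    ring
  rw [← e1, ← e2]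
  have h3 := Om_slope a b s ha hab hbs
  have h4 : (b - a) / (s - a) * (Om (s - 0 * (s - a)) - Om (s - 1 * (s - a))) ≤
      2 * (Om b - Om a) := by
    have : Om (s - 0 * (s - a)) - Om (s - 1 * (s - a)) = Om s - Om a := by
      congr 2 <;> ring_nf
    rw [this, div_mul_eq_mul_div, div_le_iff₀ hsa]
    linarith
  linarith

/-- the odd version of `Om - Om 0` -/
noncomputable def OO (y : ℝ) : ℝ := if 0 ≤ y then Om y - Om 0 else Om 0 - Om (-y)

theorem OO_mono : Monotone OO := by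
  intro x y hxy
  unfold OO
  split_ifs with h1 h2 h2
  · linarith [Om_mono hxy]
  · linarith
  · have := Om_mono (by linarith : 0 ≤ -x)
    have := Om_mono h2
    linarith
  · linarith [Om_mono (by linarith : -y ≤ -x)]

theorem g_OO (S : St) (hS : Crude S) (x y : ℝ) (hx : -1 ≤ x) (hxy : x ≤ y) (hy : y ≤ 1) :
    |S.g y - S.g x| ≤ 2 * (OO y - OO x) := by
  have h0 : S.g 0 = 0 := by
    have := hS.godd 0
    rw [neg_zero] at this
    linarith
  unfold OO
  split_ifs with h1 h2 h2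
  · have := hS.ginc x y h2 hxy hy
    linarith
  · have e1 := hS.ginc 0 y le_rfl h1 hy
    have e2 := hS.ginc 0 (-x) le_rfl (by linarith) (by linarith)
    rw [h0, hS.godd] at e2
    rw [h0] at e1
    have : |S.g y - S.g x| ≤ |S.g y - 0| + |-S.g x - 0| := by
      rw [sub_zero, sub_zero, sub_eq_add_neg]
      exact abs_add_le _ _
    linarith
  · exact absurd (by linarith : 0 ≤ y) h1
  · have e2 := hS.ginc (-y) (-x) (by linarith) (by linarith) (by linarith)
    rw [hS.godd, hS.godd] at e2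
    have : |-S.g x - -S.g y| = |S.g y - S.g x| := by
      congr 1
      ring
    rw [this] at e2
    linarith

theorem Gm2 (S : St) (hS : Crude S) (a b s : ℝ) (ha : 0 ≤ a) (hab : a ≤ b) (hbs : b ≤ s)
    (hs : s ≤ 1) : |Gm S s (-b) - Gm S s (-a)| ≤ 12 * (Om b - Om a) := by
  rcases eq_or_lt_of_le (by linarith : 0 ≤ s + b) with has | has
  · have h1 : b = 0 := by linarith
    have h2 : a = 0 := by linarith
    rw [h1, h2]
    simp
  have hgC := hS.gC
  have hI1 : ∀ c : ℝ, c ≤ s → IntervalIntegrable (fun θ => OO (c + θ * (s - c))) volume 0 1 := by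
    intro c hc
    apply Monotone.intervalIntegrable
    intro x y hxy
    apply OO_mono
    nlinarith
  have h1 := sub_int (fun θ => S.g (-b + θ * (s - -b))) (fun θ => S.g (-a + θ * (s - -a)))
    (fun θ => 2 * (OO (-a + θ * (s - -a)) - OO (-b + θ * (s - -b)))) (by fun_prop) (by fun_prop)
    (((hI1 (-a) (by linarith)).sub (hI1 (-b) (by linarith))).const_mul 2) ?_
  swap
  · intro θ h0 h1
    rw [abs_sub_comm]
    apply g_OO S hS
    · nlinarith
    · nlinarith
    · nlinarith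
  refine h1.trans ?_
  rw [intervalIntegral.integral_const_mul, intervalIntegral.integral_sub (hI1 (-a) (by linarith))
    (hI1 (-b) (by linarith))]
  have hψ : AntitoneOn (fun η => OO (s - η * (s + b))) (Icc 0 1) := by
    intro x _ y _ hxy
    apply OO_mono
    nlinarith
  have h2 := shrink (fun η => OO (s - η * (s + b))) hψ ((b - a) / (s + b)) (by
    apply div_nonneg <;> linarith) (by rw [div_le_one has]; linarith)
  have e1 : (∫ η in (0 : ℝ)..1, OO (s - (1 - (b - a) / (s + b)) * η * (s + b))) =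
      ∫ θ in (0 : ℝ)..1, OO (-a + θ * (s - -a)) := by
    have := intervalIntegral.integral_comp_sub_left (a := 0) (b := 1)
      (fun θ => OO (-a + θ * (s - -a))) 1
    simp only [sub_self, sub_zero] at this
    rw [← this]
    congr 1
    ext η
    congr 1
    field_simp
    ring
  have e2 : (∫ η in (0 : ℝ)..1, OO (s - η * (s + b))) =
      ∫ θ in (0 : ℝ)..1, OO (-b + θ * (s - -b)) := by
    have := intervalIntegral.integral_comp_sub_left (a := 0) (b := 1)
      (fun θ => OO (-b + θ * (s - -b))) 1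
    simp only [sub_self, sub_zero] at this
    rw [← this]
    congr 1
    ext η
    congr 1
    ring
  rw [← e1, ← e2]
  have hs0 : 0 ≤ s := by linarith
  have hb0 : 0 ≤ b := by linarith
  have h3 : OO (s - 0 * (s + b)) - OO (s - 1 * (s + b)) ≤ 6 * (√s + √b) := by
    have e3 : s - 0 * (s + b) = s := by ring
    have e4 : s - 1 * (s + b) = -b := by ring
    rw [e3, e4]
    have h5 := Om_zero_le hs0
    have h6 := Om_zero_le hb0
    have h7 := Om_mono hb0
    unfold OO
    rw [if_pos hs0]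
    split_ifs with h8
    · have : b = 0 := by linarith
      rw [this] at h6 ⊢
      rw [neg_zero]
      nlinarith [Real.sqrt_nonneg 0]
    · rw [neg_neg]
      linarith
  have h4 : (b - a) / (s + b) * (OO (s - 0 * (s + b)) - OO (s - 1 * (s + b))) ≤
      6 * (Om b - Om a) := by
    rw [div_mul_eq_mul_div, div_le_iff₀ has]
    have h5 := Om_ge_sqrt hab
    have h6 : (b - a) * (OO (s - 0 * (s + b)) - OO (s - 1 * (s + b))) ≤
        (b - a) * (6 * (√s + √b)) := mul_le_mul_of_nonneg_left h3 (by linarith)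
    have q1 := Real.sq_sqrt ha
    have q2 := Real.sq_sqrt hb0
    have q3 := Real.sq_sqrt hs0
    have q4 := Real.sqrt_le_sqrt hab
    have q5 := Real.sqrt_le_sqrt hbs
    have q6 := Real.sqrt_nonneg a
    have h7 : b - a = (√b - √a) * (√b + √a) := by nlinarith
    have h8 : (√b + √a) * (√s + √b) ≤ 2 * (s + b) := by
      nlinarith [sq_nonneg (√s - √b)]
    have h9 : (b - a) * (6 * (√s + √b)) ≤ 12 * (√b - √a) * (s + b) := by
      rw [h7]
      nlinarith [mul_le_mul_of_nonneg_left h8 (by linarith : 0 ≤ √b - √a)]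
    nlinarith
  linarith

theorem div_diff {x y P Q M : ℝ} (hP : 2 ≤ P) (hQ : 2 ≤ Q) (hy : |y| ≤ M) :
    |x / P - y / Q| ≤ |x - y| / 2 + M / 4 * |Q - P| := by
  have hP0 : 0 < P := by linarith
  have hQ0 : 0 < Q := by linarith
  have e : x / P - y / Q = (x - y) / P + y * (Q - P) / (P * Q) := by
    field_simp
    ring
  rw [e]
  refine (abs_add_le _ _).trans ?_
  rw [abs_div, abs_div, abs_mul, abs_of_pos hP0, abs_of_pos (mul_pos hP0 hQ0)]
  have h1 : |x - y| / P ≤ |x - y| / 2 := by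
    apply div_le_div_of_nonneg_left (abs_nonneg _) (by norm_num) hP
  have h2 : |y| * |Q - P| / (P * Q) ≤ M / 4 * |Q - P| := by
    have h3 : |y| * |Q - P| / (P * Q) ≤ |y| * |Q - P| / 4 := by
      apply div_le_div_of_nonneg_left (by positivity) (by norm_num)
      nlinarith
    have h4 : |y| * |Q - P| ≤ M * |Q - P| := mul_le_mul_of_nonneg_right hy (abs_nonneg _)
    linarith
  linarith

/-- the bracket in `kk` -/
noncomputable def Br (δ : ℝ) (S : St) (e s t : ℝ) : ℝ :=
  -S.g t / P0 δ S e s t + Gm S s t / (2 * P1 δ S e s t) - Gm S s (-t) / (2 * P2 δ S e s t)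

theorem Br_bd (δ : ℝ) (S : St) (hA : FactsA S) (hB : FactsB δ S) (e : ℝ)
    (he : e = 1 ∨ e = -1) (s t : ℝ) (h0 : 0 ≤ s) (h1 : s ≤ 1) : |Br δ S e s t| ≤ 12 := by
  unfold Br
  have p0 := (hB.P0_bd e he s t h0 h1).1
  have p1 := (hB.P1_bd e he s t h0 h1).1
  have p2 := (hB.P2_bd e he s t h0 h1).1
  have a1 : |-S.g t / P0 δ S e s t| ≤ 6 := by
    rw [abs_div, abs_neg, abs_of_pos (by linarith : 0 < P0 δ S e s t),
      div_le_iff₀ (by linarith)]
    linarith [hA.g_bd t]
  have a2 : |Gm S s t / (2 * P1 δ S e s t)| ≤ 3 := by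
    rw [abs_div, abs_of_pos (by linarith : 0 < 2 * P1 δ S e s t), div_le_iff₀ (by linarith)]
    linarith [hA.Gm_bd s t]
  have a3 : |Gm S s (-t) / (2 * P2 δ S e s t)| ≤ 3 := by
    rw [abs_div, abs_of_pos (by linarith : 0 < 2 * P2 δ S e s t), div_le_iff₀ (by linarith)]
    linarith [hA.Gm_bd s (-t)]
  rw [abs_le] at *
  constructor <;> linarith [a1.1, a1.2, a2.1, a2.2, a3.1, a3.2]

theorem kap_bd (δ : ℝ) (S : St) (hB : FactsB δ S) (e : ℝ)
    (he : e = 1 ∨ e = -1) (s t : ℝ) (h0 : 0 ≤ s) (h1 : s ≤ 1) : |kap δ S e s t| ≤ 2 := by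
  unfold kap
  have p0 := (hB.P0_bd e he s t h0 h1)
  have p1 := (hB.GG_bd e he s t h0 h1)
  rw [abs_div, abs_of_pos (by linarith : 0 < P0 δ S e s t),
    abs_of_pos (by linarith : 0 < GG δ S e s t), div_le_iff₀ (by linarith)]
  linarith

theorem kk_eq (δ : ℝ) (S : St) (e s t : ℝ) :
    kk δ S e s t = kap δ S e s t * (e * δ ^ 3) * Br δ S e s t := rfl

theorem abs_e {e : ℝ} (he : e = 1 ∨ e = -1) : |e| = 1 := by
  rcases he with h | h <;> simp [h]

theorem kk_bd (δ : ℝ) (hδ : 0 < δ) (S : St) (hA : FactsA S) (hB : FactsB δ S) (e : ℝ)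
    (he : e = 1 ∨ e = -1) (s t : ℝ) (h0 : 0 ≤ s) (h1 : s ≤ 1) :
    |kk δ S e s t| ≤ 24 * δ ^ 3 := by
  have hδ3 : 0 < δ ^ 3 := by positivity
  rw [kk_eq, abs_mul, abs_mul, abs_mul, abs_e he, one_mul, abs_of_pos hδ3]
  have a := Br_bd δ S hA hB e he s t h0 h1
  have b := kap_bd δ S hB e he s t h0 h1
  calc |kap δ S e s t| * δ ^ 3 * |Br δ S e s t| ≤ 2 * δ ^ 3 * 12 := by
        gcongr
    _ = _ := by ring

/-- mean value inequality -/
theorem mvt (f f' : ℝ → ℝ) (hf : ∀ t, HasDerivAt f (f' t) t) (C : ℝ) (hC : ∀ t, |f' t| ≤ C)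
    (a b : ℝ) (hab : a ≤ b) : |f b - f a| ≤ C * (b - a) := by
  have := Convex.norm_image_sub_le_of_norm_hasDerivWithin_le (f := f) (f' := f') (s := univ)
    (C := C) (x := a) (y := b) (fun x _ => (hf x).hasDerivWithinAt)
    (fun x _ => by rw [Real.norm_eq_abs]; exact hC x) convex_univ (mem_univ _) (mem_univ _)
  rw [Real.norm_eq_abs, Real.norm_eq_abs, abs_of_nonneg (by linarith : 0 ≤ b - a)] at this
  exact this

theorem P0_lip (δ : ℝ) (hδ : 0 < δ) (S : St) (hA : FactsA S) (e : ℝ)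
    (he : e = 1 ∨ e = -1) (s a b : ℝ) (hab : a ≤ b) :
    |P0 δ S e s a - P0 δ S e s b| ≤ 12 * δ ^ 3 * (b - a) := by
  have h := mvt (da S) S.g hA.da_deriv 12 hA.g_bd a b hab
  have hδ3 : 0 < δ ^ 3 := by positivity
  have : P0 δ S e s a - P0 δ S e s b = e * δ ^ 3 * (da S b - da S a) := by
    unfold P0
    ring
  rw [this, abs_mul, abs_mul, abs_e he, abs_of_pos hδ3]
  nlinarith

theorem P1_lip (δ : ℝ) (hδ : 0 < δ) (S : St) (hA : FactsA S) (e : ℝ)
    (he : e = 1 ∨ e = -1) (s a b : ℝ) (hab : a ≤ b) :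
    |P1 δ S e s a - P1 δ S e s b| ≤ 12 * δ ^ 3 * (b - a) := by
  have h := mvt (dd S s) (Gm S s) (hA.dd_deriv s) 12 (hA.Gm_bd s) a b hab
  have hδ3 : 0 < δ ^ 3 := by positivity
  have : P1 δ S e s a - P1 δ S e s b = e * δ ^ 3 * (dd S s b - dd S s a) := by
    unfold P1
    ring
  rw [this, abs_mul, abs_mul, abs_e he, abs_of_pos hδ3]
  nlinarith

theorem P2_lip (δ : ℝ) (hδ : 0 < δ) (S : St) (hA : FactsA S) (e : ℝ)
    (he : e = 1 ∨ e = -1) (s a b : ℝ) (hab : a ≤ b) :
    |P2 δ S e s a - P2 δ S e s b| ≤ 12 * δ ^ 3 * (b - a) := by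
  have h := P1_lip δ hδ S hA e he s (-b) (-a) (by linarith)
  rw [abs_sub_comm] at h
  have : P2 δ S e s a - P2 δ S e s b = P1 δ S e s (-a) - P1 δ S e s (-b) := rfl
  rw [this]
  refine h.trans (le_of_eq ?_)
  ring

theorem Br_diff (δ : ℝ) (hδ : 0 < δ) (hδ1 : δ ≤ 1 / 100) (S : St) (hS : Crude S) (hA : FactsA S)
    (hB : FactsB δ S) (e : ℝ) (he : e = 1 ∨ e = -1) (s a b : ℝ) (h0 : 0 ≤ s) (h1 : s ≤ 1)
    (ha : 0 ≤ a) (hab : a ≤ b) (hbs : b ≤ s) :
    |Br δ S e s b - Br δ S e s a| ≤ 6 * (Om b - Om a) := by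
  have hδ3 : 0 < δ ^ 3 := by positivity
  have hδ4 : δ ^ 3 ≤ 1 / 1000000 := by
    calc δ ^ 3 ≤ (1 / 100) ^ 3 := by gcongr
      _ = _ := by norm_num
  have g0 := hS.ginc a b ha hab (hbs.trans h1)
  have g1 := Gm1 S hS a b s ha hab hbs h1
  have g2 := Gm2 S hS a b s ha hab hbs h1
  have l0 := P0_lip δ hδ S hA e he s a b hab
  have l1 := P1_lip δ hδ S hA e he s a b hab
  have l2 := P2_lip δ hδ S hA e he s a b hab
  have d0 := div_diff (x := S.g b) (y := S.g a) (M := 12) (hB.P0_bd e he s b h0 h1).1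
    (hB.P0_bd e he s a h0 h1).1 (hA.g_bd a)
  have d1 := div_diff (x := Gm S s b) (y := Gm S s a) (M := 12) (hB.P1_bd e he s b h0 h1).1
    (hB.P1_bd e he s a h0 h1).1 (hA.Gm_bd s a)
  have d2 := div_diff (x := Gm S s (-b)) (y := Gm S s (-a)) (M := 12) (hB.P2_bd e he s b h0 h1).1
    (hB.P2_bd e he s a h0 h1).1 (hA.Gm_bd s (-a))
  have hlin := Om_ge_lin ha hab (hbs.trans h1)
  have hba : 0 ≤ b - a := by linarith
  have hsm : δ ^ 3 * (b - a) ≤ 1 / 1000000 * (b - a) := by gcongr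
  have q0 : |S.g b / P0 δ S e s b - S.g a / P0 δ S e s a| ≤
      (Om b - Om a) + 36 * (δ ^ 3 * (b - a)) := by
    linarith
  have q1 : |Gm S s b / P1 δ S e s b - Gm S s a / P1 δ S e s a| ≤
      2 * (Om b - Om a) + 36 * (δ ^ 3 * (b - a)) := by
    linarith
  have q2 : |Gm S s (-b) / P2 δ S e s b - Gm S s (-a) / P2 δ S e s a| ≤
      6 * (Om b - Om a) + 36 * (δ ^ 3 * (b - a)) := by
    linarith
  have : Br δ S e s b - Br δ S e s a =
      -(S.g b / P0 δ S e s b - S.g a / P0 δ S e s a) +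
      1 / 2 * (Gm S s b / P1 δ S e s b - Gm S s a / P1 δ S e s a) -
      1 / 2 * (Gm S s (-b) / P2 δ S e s b - Gm S s (-a) / P2 δ S e s a) := by
    unfold Br
    ring
  rw [this]
  rw [abs_le] at *
  constructor <;> linarith [q0.1, q0.2, q1.1, q1.2, q2.1, q2.2]

theorem Br_small (δ : ℝ) (hδ : 0 < δ) (hδ1 : δ ≤ 1 / 100) (S : St) (hS : Crude S)
    (hA : FactsA S) (hB : FactsB δ S) (e : ℝ) (he : e = 1 ∨ e = -1) (s p : ℝ) (h0 : 0 ≤ s)
    (h1 : s ≤ 1) (hp : 0 ≤ p) (hps : p ≤ s) :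
    |Br δ S e s p| ≤ 20 * √p := by
  have hδ3 : 0 < δ ^ 3 := by positivity
  have hδ4 : δ ^ 3 ≤ 1 / 1000000 := by
    calc δ ^ 3 ≤ (1 / 100) ^ 3 := by gcongr
      _ = _ := by norm_num
  have hgC := hS.gC
  have hsp := Real.sqrt_nonneg p
  have hp1 : p ≤ √p := by
    have e1 := Real.sq_sqrt hp
    have e2 : √p ≤ 1 := Real.sqrt_le_one.mpr (by linarith)
    nlinarith
  have g1 : |Gm S s p - Gm S s (-p)| ≤ 48 * √p := by
    have h2 := sub_int (fun θ => S.g (p + θ * (s - p))) (fun θ => S.g (-p + θ * (s - -p)))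
      (fun θ => 48 * √p) (by fun_prop) (by fun_prop) (by simp) ?_
    · have h3 : (∫ _θ in (0 : ℝ)..1, 48 * √p) = 48 * √p := by simp
      rw [h3] at h2
      exact h2
    · intro θ t0 t1
      refine (hA.g_hol _ _).trans ?_
      have : √|p + θ * (s - p) - (-p + θ * (s - -p))| ≤ √(4 * p) := by
        apply Real.sqrt_le_sqrt
        rw [abs_le]
        constructor <;> nlinarith
      have h4 : √(4 * p) = 2 * √p := by
        rw [Real.sqrt_mul (by norm_num)]
        congr 1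
        rw [show (4 : ℝ) = 2 ^ 2 by norm_num, Real.sqrt_sq (by norm_num)]
      linarith
  have l1 : |P2 δ S e s p - P1 δ S e s p| ≤ 12 * δ ^ 3 * (p - -p) := by
    have : P2 δ S e s p = P1 δ S e s (-p) := rfl
    rw [this]
    exact P1_lip δ hδ S hA e he s (-p) p (by linarith)
  have d1 := div_diff (x := Gm S s p) (y := Gm S s (-p)) (M := 12) (hB.P1_bd e he s p h0 h1).1
    (hB.P2_bd e he s p h0 h1).1 (hA.Gm_bd s (-p))
  have p0 := (hB.P0_bd e he s p h0 h1).1
  have a1 : |-S.g p / P0 δ S e s p| ≤ 6 * √p := by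
    rw [abs_div, abs_neg, abs_of_pos (by linarith : 0 < P0 δ S e s p),
      div_le_iff₀ (by linarith)]
    have := hA.g_le p hp (hps.trans h1)
    nlinarith
  have hsm : δ ^ 3 * p ≤ 1 / 1000000 * p := by gcongr
  have q1 : |Gm S s p / P1 δ S e s p - Gm S s (-p) / P2 δ S e s p| ≤
      24 * √p + 72 * (δ ^ 3 * p) := by
    linarith
  have : Br δ S e s p = -S.g p / P0 δ S e s p +
      1 / 2 * (Gm S s p / P1 δ S e s p - Gm S s (-p) / P2 δ S e s p) := by
    unfold Br
    ring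
  rw [this]
  rw [abs_le] at *
  constructor <;> linarith [q1.1, q1.2, a1.1, a1.2]

end KBaux

open KBaux in
/-- §4.1 -/
theorem KB (hA : S_FactsA) (hB : S_FactsB) : S_KB := by
  obtain ⟨δ₁, h1, h2, h3⟩ := hB
  refine ⟨100, by norm_num, δ₁, h1, ?_⟩
  intro δ hδ hδ1 S hS e he s hs0 hs1
  have fA := hA S hS
  have fB := h3 δ hδ hδ1 S hS
  have hδ3 : 0 < δ ^ 3 := by positivity
  have hδ2 : δ ≤ 1 / 100 := hδ1.trans h2
  have hδ4 : δ ^ 3 ≤ 1 / 1000000 := by
    calc δ ^ 3 ≤ (1 / 100) ^ 3 := by gcongr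
      _ = _ := by norm_num
  constructor
  · intro p hp hps
    rw [kk_eq, abs_mul, abs_mul, abs_mul, abs_e he, one_mul, abs_of_pos hδ3]
    have a := Br_small δ hδ hδ2 S hS fA fB e he s p hs0 hs1 hp hps
    have b := kap_bd δ S fB e he s p hs0 hs1
    calc |kap δ S e s p| * δ ^ 3 * |Br δ S e s p| ≤ 2 * δ ^ 3 * (20 * √p) := by
          gcongr
      _ ≤ 100 * δ ^ 3 * √p := by
          have := mul_nonneg hδ3.le (Real.sqrt_nonneg p)
          linarith
  · intro a b ha hab hbs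
    have d := Br_diff δ hδ hδ2 S hS fA fB e he s a b hs0 hs1 ha.le hab hbs
    have k := mvt (fun t => kap δ S e s t) (fun t => kk δ S e s t)
      (fun t => fB.kap_deriv e he s t hs0 hs1) (24 * δ ^ 3)
      (fun t => kk_bd δ hδ S fA fB e he s t hs0 hs1) a b hab
    have kb := kap_bd δ S fB e he s b hs0 hs1
    have ba := Br_bd δ S fA fB e he s a hs0 hs1
    have hlin := Om_ge_lin ha.le hab (hbs.trans hs1)
    have hOm := Om_mono hab
    have : kk δ S e s b - kk δ S e s a =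
        (e * δ ^ 3) * (kap δ S e s b * (Br δ S e s b - Br δ S e s a) +
          (kap δ S e s b - kap δ S e s a) * Br δ S e s a) := by
      rw [kk_eq, kk_eq]
      ring
    rw [this, abs_mul, abs_mul, abs_e he, one_mul, abs_of_pos hδ3]
    have h5 : |kap δ S e s b * (Br δ S e s b - Br δ S e s a) +
          (kap δ S e s b - kap δ S e s a) * Br δ S e s a| ≤ 100 * (Om b - Om a) := by
      refine (abs_add_le _ _).trans ?_
      rw [abs_mul, abs_mul]
      have h6 : |kap δ S e s b| * |Br δ S e s b - Br δ S e s a| ≤ 2 * (6 * (Om b - Om a)) := by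
        gcongr
      have h7 : |kap δ S e s b - kap δ S e s a| * |Br δ S e s a| ≤
          (24 * δ ^ 3 * (b - a)) * 12 := by
        gcongr
      have h8 : δ ^ 3 * (b - a) ≤ 1 / 1000000 * (b - a) := by
        gcongr
      linarith
    calc δ ^ 3 * |kap δ S e s b * (Br δ S e s b - Br δ S e s a) +
          (kap δ S e s b - kap δ S e s a) * Br δ S e s a|
        ≤ δ ^ 3 * (100 * (Om b - Om a)) := by gcongr
      _ = _ := by ring

end Pool.Agent.HV
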