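import Pool.Agent.HV.Stmts

/-!
# Inequality (K) of §3.1 (MP_678b51_gt)

Mathematics: helper76; formalisation: helper65.
-/

set_option autoImplicit false

open MeasureTheory Set Filter
open scoped Real Topology ENNReal

namespace Pool.Agent.HV

namespace KIaux

/-- the lower integral of a nonnegative derivative -/
theorem lintegral_deriv {F f : ℝ → ℝ} {a b : ℝ} (hab : a ≤ b) (hc : ContinuousOn F (Icc a b))
    (hd : ∀ x ∈ Ioo a b, HasDerivAt F (f x) x) (hp : ∀ x ∈ Ioo a b, 0 ≤ f x) :
    ∫⁻ x in Ioo a b, ENNReal.ofReal (f x) = ENNReal.ofReal (F b - F a) := by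
  have hi : IntegrableOn f (Ioc a b) volume :=
    intervalIntegral.integrableOn_deriv_of_nonneg hc hd hp
  have hi' : IntegrableOn f (Ioo a b) volume := hi.mono_set Ioo_subset_Ioc_self
  have h1 : ∫ x in a..b, f x = F b - F a :=
    intervalIntegral.integral_eq_sub_of_hasDerivAt_of_le hab hc hd
      ((intervalIntegrable_iff_integrableOn_Ioc_of_le hab).2 hi)
  have h2 : ∫ x in Ioo a b, f x = F b - F a := by
    rw [← h1, intervalIntegral.integral_of_le hab, integral_Ioc_eq_integral_Ioo]
  rw [← h2, ofReal_integral_eq_lintegral_ofReal hi']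
  exact (ae_restrict_iff' measurableSet_Ioo).2 (Eventually.of_forall hp)

/-- first integral -/
theorem int1 {t c : ℝ} (ht : 0 < t) (htc : t ≤ c) :
    ∫⁻ p in Ioo t c, ENNReal.ofReal (1 / (p * √(p - t))) ≤ ENNReal.ofReal (π / √t) := by
  have hst : 0 < √t := Real.sqrt_pos.2 ht
  rw [lintegral_deriv (F := fun p => 2 * Real.arctan (√((p - t) / t)) / √t) htc ?_ ?_ ?_]
  · refine ENNReal.ofReal_le_ofReal ?_
    have h1 : Real.arctan (√((c - t) / t)) ≤ π / 2 := (Real.arctan_lt_pi_div_two _).le
    simp only [sub_self, zero_div, Real.sqrt_zero, Real.arctan_zero, mul_zero, sub_zero]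
    gcongr
    linarith
  · fun_prop
  · intro p hp
    have hpt : 0 < p - t := sub_pos.2 hp.1
    have hp0 : 0 < p := ht.trans hp.1
    have h1 : HasDerivAt (fun p => (p - t) / t) (1 / t) p :=
      ((hasDerivAt_id p).sub_const t).div_const t
    have h2 := h1.sqrt (div_pos hpt ht).ne'
    have h3 := (((h2.arctan).const_mul 2).div_const (√t))
    refine h3.congr_deriv ?_
    have hs : √((p - t) / t) ^ 2 = (p - t) / t := Real.sq_sqrt (div_pos hpt ht).le
    have hs2 : √((p - t) / t) = √(p - t) / √t := Real.sqrt_div hpt.le t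
    have hspt : 0 < √(p - t) := Real.sqrt_pos.2 hpt
    have hstt : √t ^ 2 = t := Real.sq_sqrt ht.le
    rw [hs, hs2]
    have h4 : 1 + (p - t) / t = p / t := by field_simp; ring
    rw [h4]
    field_simp
  · intro p hp
    have hpt : 0 < p - t := sub_pos.2 hp.1
    have hp0 : 0 < p := ht.trans hp.1
    positivity

/-- second integral -/
theorem int2 {t c : ℝ} (htc : t < c) :
    ∫⁻ p in Ioo t c, ENNReal.ofReal (1 / (√(c - p) * √(p - t))) ≤ ENNReal.ofReal π := by
  have hct : 0 < c - t := sub_pos.2 htc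
  rw [lintegral_deriv (F := fun p => Real.arcsin ((2 * p - t - c) / (c - t))) htc.le ?_ ?_ ?_]
  · refine ENNReal.ofReal_le_ofReal ?_
    have h1 := Real.arcsin_le_pi_div_two ((2 * c - t - c) / (c - t))
    have h2 := Real.neg_pi_div_two_le_arcsin ((2 * t - t - c) / (c - t))
    linarith
  · exact (Real.continuous_arcsin.comp (by fun_prop)).continuousOn
  · intro p hp
    have hpt : 0 < p - t := sub_pos.2 hp.1
    have hcp : 0 < c - p := sub_pos.2 hp.2
    have h1 : HasDerivAt (fun p => (2 * p - t - c) / (c - t)) (2 / (c - t)) p := by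
      have h := ((((hasDerivAt_id p).const_mul 2).sub_const t).sub_const c).div_const (c - t)
      refine h.congr_deriv ?_
      simp
    have hlt : (2 * p - t - c) / (c - t) < 1 := by
      rw [div_lt_one hct]; linarith
    have hgt : -1 < (2 * p - t - c) / (c - t) := by
      rw [lt_div_iff₀ hct]; linarith
    have h2 := (Real.hasDerivAt_arcsin hgt.ne' hlt.ne).comp p h1
    refine h2.congr_deriv ?_
    have h3 : 1 - ((2 * p - t - c) / (c - t)) ^ 2 = (2 * (√(c - p) * √(p - t)) / (c - t)) ^ 2 := by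
      have e1 : √(c - p) ^ 2 = c - p := Real.sq_sqrt hcp.le
      have e2 : √(p - t) ^ 2 = p - t := Real.sq_sqrt hpt.le
      rw [div_pow, div_pow, mul_pow, mul_pow, e1, e2]
      field_simp
      ring
    have h4 : 0 < √(c - p) := Real.sqrt_pos.2 hcp
    have h5 : 0 < √(p - t) := Real.sqrt_pos.2 hpt
    rw [h3, Real.sqrt_sq (by positivity)]
    field_simp
  · intro p hp
    positivity

/-- `√(p²-t²) ≥ √p √(p-t)` -/
theorem sqrt_lb {t p : ℝ} (ht : 0 < t) (hp : t < p) : √p * √(p - t) ≤ √(p ^ 2 - t ^ 2) := by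
  rw [← Real.sqrt_mul (ht.trans hp).le]
  refine Real.sqrt_le_sqrt ?_
  nlinarith

theorem term2 {t c : ℝ} (ht : 0 < t) :
    ∫⁻ p in Ioo t 1, ENNReal.ofReal (1 / (√(c - p) * p) * (t / √(p ^ 2 - t ^ 2))) ≤
      ENNReal.ofReal (π / √t) := by
  have hst : 0 < √t := Real.sqrt_pos.2 ht
  rcases le_or_gt c t with hct | htc
  · have h0 : ∫⁻ p in Ioo t 1, ENNReal.ofReal (1 / (√(c - p) * p) * (t / √(p ^ 2 - t ^ 2))) = 0 := by
      rw [← lintegral_zero (μ := volume.restrict (Ioo t 1))]
      refine setLIntegral_congr_fun measurableSet_Ioo fun p hp => ?_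
      have : √(c - p) = 0 := Real.sqrt_eq_zero_of_nonpos (by linarith [hp.1])
      simp [this]
    rw [h0]
    exact zero_le
  · have hb : ∀ p ∈ Ioo t 1, ENNReal.ofReal (1 / (√(c - p) * p) * (t / √(p ^ 2 - t ^ 2))) ≤
        (Ioo t c).indicator (fun p => ENNReal.ofReal (1 / √t) *
          ENNReal.ofReal (1 / (√(c - p) * √(p - t)))) p := by
      intro p hp
      have hp0 : 0 < p := ht.trans hp.1
      rcases lt_or_ge p c with hpc | hcp
      · rw [indicator_of_mem (show p ∈ Ioo t c from ⟨hp.1, hpc⟩), ← ENNReal.ofReal_mul (by positivity)]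
        refine ENNReal.ofReal_le_ofReal ?_
        have hspt : 0 < √(p - t) := Real.sqrt_pos.2 (sub_pos.2 hp.1)
        have hscp : 0 < √(c - p) := Real.sqrt_pos.2 (sub_pos.2 hpc)
        have hsp : 0 < √p := Real.sqrt_pos.2 hp0
        have hspp : √t ≤ √p := Real.sqrt_le_sqrt hp.1.le
        have h1 := sqrt_lb ht hp.1
        have h2 : t / √(p ^ 2 - t ^ 2) ≤ t / (√p * √(p - t)) := by gcongr
        have h3 : 1 / (√(c - p) * p) * (t / (√p * √(p - t))) ≤
            1 / √t * (1 / (√(c - p) * √(p - t))) := by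
          have h4 : t / (p * √p) ≤ 1 / √t := by
            rw [div_le_div_iff₀ (by positivity) hst]
            nlinarith [mul_le_mul hp.1.le hspp hst.le hp0.le]
          have h5 : 1 / (√(c - p) * p) * (t / (√p * √(p - t))) =
              t / (p * √p) * (1 / (√(c - p) * √(p - t))) := by
            field_simp
          rw [h5]
          exact mul_le_mul_of_nonneg_right h4 (by positivity)
        exact (mul_le_mul_of_nonneg_left h2 (by positivity)).trans h3
      · have : √(c - p) = 0 := Real.sqrt_eq_zero_of_nonpos (by linarith)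
        simp [this]
    refine (setLIntegral_mono' measurableSet_Ioo hb).trans ?_
    rw [lintegral_indicator measurableSet_Ioo, Measure.restrict_restrict measurableSet_Ioo]
    refine (lintegral_mono_set inter_subset_left).trans ?_
    rw [lintegral_const_mul' _ _ ENNReal.ofReal_ne_top]
    refine (mul_le_mul_right (int2 htc) _).trans ?_
    rw [← ENNReal.ofReal_mul (by positivity)]
    refine ENNReal.ofReal_le_ofReal (le_of_eq ?_)
    ring

theorem term1 {t : ℝ} (ht : 0 < t) (ht1 : t < 1) :
    ∫⁻ p in Ioo t 1, ENNReal.ofReal (7 / (p * √p) * (t / √(p ^ 2 - t ^ 2))) ≤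
      ENNReal.ofReal (7 * (π / √t)) := by
  have hb : ∀ p ∈ Ioo t 1, ENNReal.ofReal (7 / (p * √p) * (t / √(p ^ 2 - t ^ 2))) ≤
      ENNReal.ofReal 7 * ENNReal.ofReal (1 / (p * √(p - t))) := by
    intro p hp
    have hp0 : 0 < p := ht.trans hp.1
    rw [← ENNReal.ofReal_mul (by norm_num)]
    refine ENNReal.ofReal_le_ofReal ?_
    have hspt : 0 < √(p - t) := Real.sqrt_pos.2 (sub_pos.2 hp.1)
    have hsp : 0 < √p := Real.sqrt_pos.2 hp0
    have h1 := sqrt_lb ht hp.1
    have h2 : t / √(p ^ 2 - t ^ 2) ≤ t / (√p * √(p - t)) := by gcongr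
    have h3 : 7 / (p * √p) * (t / (√p * √(p - t))) ≤ 7 * (1 / (p * √(p - t))) := by
      have hs : √p * √p = p := Real.mul_self_sqrt hp0.le
      have h4 : 7 / (p * √p) * (t / (√p * √(p - t))) = 7 * (t / p) * (1 / (p * √(p - t))) := by
        have : 7 / (p * √p) * (t / (√p * √(p - t))) = 7 * t / (p * (√p * √p) * √(p - t)) := by
          field_simp
        rw [this, hs]
        field_simp
      rw [h4]
      have h5 : t / p ≤ 1 := (div_le_one hp0).2 hp.1.le
      refine mul_le_mul_of_nonneg_right ?_ (by positivity)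
      linarith
    exact (mul_le_mul_of_nonneg_left h2 (by positivity)).trans h3
  refine (setLIntegral_mono' measurableSet_Ioo hb).trans ?_
  rw [lintegral_const_mul' _ _ ENNReal.ofReal_ne_top, ENNReal.ofReal_mul (by norm_num)]
  exact mul_le_mul_right (int1 ht ht1.le) _

end KIaux

open KIaux in
/-- inequality (K) of §3.1 -/
theorem KI : S_KI := by
  intro t ht ht1
  have hb : ∀ p ∈ Ioo t 1, ENNReal.ofReal (lam p * (t / √(p ^ 2 - t ^ 2))) ≤
      ENNReal.ofReal (7 / (p * √p) * (t / √(p ^ 2 - t ^ 2))) +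
        (ENNReal.ofReal (1 / (√(1 / 2 - p) * p) * (t / √(p ^ 2 - t ^ 2))) +
          ENNReal.ofReal (1 / (√(1 - p) * p) * (t / √(p ^ 2 - t ^ 2)))) := by
    intro p hp
    have hp0 : 0 < p := ht.trans hp.1
    rw [← ENNReal.ofReal_add (by positivity) (by positivity),
      ← ENNReal.ofReal_add (by positivity) (by positivity)]
    refine ENNReal.ofReal_le_ofReal (le_of_eq ?_)
    unfold lam
    ring
  refine (setLIntegral_mono' measurableSet_Ioo hb).trans ?_
  rw [lintegral_add_left (by fun_prop), lintegral_add_left (by fun_prop)]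
  refine (add_le_add (term1 ht ht1) (add_le_add (term2 (c := 1 / 2) ht)
    (term2 (c := 1) ht))).trans ?_
  rw [← ENNReal.ofReal_add (by positivity) (by positivity),
    ← ENNReal.ofReal_add (by positivity) (by positivity)]
  refine ENNReal.ofReal_le_ofReal (le_of_eq ?_)
  ring

end Pool.Agent.HV
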