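import Pool.Agent.HV.Stmts

/-!
# Increments of `g(p)/p` (§3.1)
-/

set_option autoImplicit false

open MeasureTheory Set Filter
open scoped Real Topology ENNReal

namespace Pool.Agent.HV

theorem LAM_sqrt (c x : ℝ) :
    HasDerivWithinAt (fun t => -(2 * √(c - t))) (1 / √(c - x)) (Ioi x) x := by
  rcases lt_or_ge x c with h | h
  · have h1 : HasDerivAt (fun t => c - t) (-1) x := by
      simpa using (hasDerivAt_id x).const_sub c
    have h0 : 0 < √(c - x) := Real.sqrt_pos.2 (by linarith)
    have h2 := h1.sqrt (by linarith : c - x ≠ 0)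
    have h3 := (h2.const_mul 2).fun_neg
    refine (h3.congr_deriv ?_).hasDerivWithinAt
    field_simp
  · have h0 : √(c - x) = 0 := Real.sqrt_eq_zero_of_nonpos (by linarith)
    rw [h0, div_zero]
    refine (hasDerivWithinAt_const x (Ioi x) (0 : ℝ)).congr (fun t ht => ?_) ?_
    · have : √(c - t) = 0 :=
        Real.sqrt_eq_zero_of_nonpos (by have := mem_Ioi.1 ht; linarith)
      simp [this]
    · simp [h0]

theorem LAM_Om {x : ℝ} (hx : 0 < x) :
    HasDerivWithinAt Om (1 / √x + 1 / √(1 / 2 - x) + 1 / √(1 - x)) (Ioi x) x := by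
  have h0 : 0 < √x := Real.sqrt_pos.2 hx
  have h1 : HasDerivAt (fun t => 2 * √t) (1 / √x) x := by
    refine ((Real.hasDerivAt_sqrt hx.ne').const_mul 2).congr_deriv ?_
    field_simp
  have h2 := (h1.hasDerivWithinAt (s := Ioi x)).fun_add (LAM_sqrt (1 / 2) x)
  have h3 := h2.fun_add (LAM_sqrt 1 x)
  refine h3.congr (fun t _ => ?_) ?_
  · unfold Om; ring
  · unfold Om; ring

theorem LAM_Omc : Continuous Om := by
  unfold Om
  fun_prop

theorem LAM : S_LAM := by
  intro g B c hB hc hg hgi a b ha hab hb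
  have hb0 : 0 < b := lt_of_lt_of_le ha hab
  have hsa : 0 < √a := Real.sqrt_pos.2 ha
  set G : ℝ → ℝ := fun p => Om p / b - 6 * √a / p with hG
  set G' : ℝ → ℝ := fun p =>
    (1 / √p + 1 / √(1 / 2 - p) + 1 / √(1 - p)) / b + 6 * √a / p ^ 2 with hG'
  have hGc : ContinuousOn G (Icc a b) := by
    apply ContinuousOn.sub
    · exact (LAM_Omc.div_const b).continuousOn
    · exact continuousOn_const.div continuousOn_id fun x hx => by
        have := hx.1
        exact (ha.trans_le this).ne'
  have hGd : ∀ x ∈ Ioo a b, HasDerivWithinAt G (G' x) (Ioi x) x := by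
    intro x hx
    have hx0 : 0 < x := ha.trans hx.1
    have h1 := (LAM_Om hx0).div_const b
    have h2 : HasDerivAt (fun p => 6 * √a / p) (-(6 * √a / x ^ 2)) x := by
      have h3 := (hasDerivAt_inv hx0.ne').const_mul (6 * √a)
      refine (h3.congr_deriv ?_)
      field_simp
    have h4 := h1.fun_sub (h2.hasDerivWithinAt (s := Ioi x))
    refine h4.congr_deriv ?_
    rw [hG']
    ring
  have hG'0 : ∀ x ∈ Ioo a b, 0 ≤ G' x := by
    intro x hx
    have hx0 : 0 < x := ha.trans hx.1
    rw [hG']
    positivity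
  have hle : ∀ x ∈ Ioo a b, G' x ≤ lam x := by
    intro x hx
    have hx0 : 0 < x := ha.trans hx.1
    have hxb : x ≤ b := hx.2.le
    have hsx : 0 < √x := Real.sqrt_pos.2 hx0
    have e1 : lam x = (1 / √x + 1 / √(1 / 2 - x) + 1 / √(1 - x)) / x + 6 / (x * √x) := by
      unfold lam
      have e2 : ∀ y : ℝ, 1 / (y * x) = 1 / y / x := fun y => by rw [div_div]
      rw [e2, e2, add_div, add_div, div_div 1 (√x) x, mul_comm (√x) x]
      ring
    rw [e1, hG']
    refine add_le_add ?_ ?_
    · exact div_le_div_of_nonneg_left (by positivity) hx0 hxb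
    · rw [div_le_div_iff₀ (by positivity) (by positivity)]
      have h1 : √a ≤ √x := Real.sqrt_le_sqrt hx.1.le
      have h2 : √x * √x = x := Real.mul_self_sqrt hx0.le
      have h3 : √a * √x ≤ x :=
        (mul_le_mul_of_nonneg_right h1 hsx.le).trans (le_of_eq h2)
      nlinarith [mul_le_mul_of_nonneg_left h3 hx0.le]
  have hint : IntegrableOn G' (Ioc a b) volume :=
    intervalIntegral.integrableOn_deriv_right_of_nonneg hGc hGd hG'0
  have hii : IntervalIntegrable G' volume a b :=
    (intervalIntegrable_iff_integrableOn_Ioc_of_le hab).2 hint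
  have hval : ∫ p in a..b, G' p = G b - G a :=
    intervalIntegral.integral_eq_sub_of_hasDeriv_right_of_le hab hGc hGd hii
  have hkey : ENNReal.ofReal (G b - G a) ≤ ∫⁻ p in Ioo a b, ENNReal.ofReal (lam p) := by
    rw [← hval, intervalIntegral.integral_of_le hab, integral_Ioc_eq_integral_Ioo,
      ofReal_integral_eq_lintegral_ofReal (hint.mono_set Ioo_subset_Ioc_self)
      (ae_restrict_of_forall_mem measurableSet_Ioo hG'0)]
    exact setLIntegral_mono' measurableSet_Ioo fun x hx => ENNReal.ofReal_le_ofReal (hle x hx)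
  have hfin : |g b / b - g a / a| ≤ B * (G b - G a) := by
    have e1 : g b / b - g a / a = (g b - g a) / b - g a * (1 / a - 1 / b) := by
      field_simp
      ring
    have h1 := hgi a b ha hab hb
    have h2 := hg a ha (hab.trans hb)
    have h3 : 0 ≤ 1 / a - 1 / b := by
      have := one_div_le_one_div_of_le ha hab
      linarith
    have e2 : B * (G b - G a) = B * (Om b - Om a) / b + 6 * B * √a * (1 / a - 1 / b) := by
      rw [hG]
      ring
    rw [e1, e2]
    refine (abs_sub _ _).trans (add_le_add ?_ ?_)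
    · rw [abs_div, abs_of_pos hb0]
      exact div_le_div_of_nonneg_right h1 hb0.le
    · rw [abs_mul, abs_of_nonneg h3]
      exact mul_le_mul_of_nonneg_right h2 h3
  calc ENNReal.ofReal |g b / b - g a / a| ≤ ENNReal.ofReal (B * (G b - G a)) :=
        ENNReal.ofReal_le_ofReal hfin
    _ = ENNReal.ofReal B * ENNReal.ofReal (G b - G a) := ENNReal.ofReal_mul hB
    _ ≤ _ := mul_le_mul' le_rfl hkey

end Pool.Agent.HV
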