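import Pool.Agent.HV.Stmts

/-!
# Module M0 of MP_678b51_gt, Q2 (§5.2): equation (V)   (helper17)
-/

set_option autoImplicit false

open MeasureTheory Set Filter
open scoped Real Topology ENNReal

namespace Pool.Agent.HV

/-! ## Fundamental theorem and Fubini -/

private lemma m0_fub (μ : Measure ℝ) [SFinite μ] (φ D : ℝ → ℝ → ℝ) (a b : ℝ) (hab : a ≤ b)
    (e : ℝ → ℝ)
    (h : ∀ᵐ s ∂μ, a ≤ e s ∧ e s ≤ b ∧ ContinuousOn (fun t => φ t s) (Icc a (e s)) ∧
      (∀ t ∈ Ioo a (e s), HasDerivAt (fun t => φ t s) (D t s) t) ∧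
      (∀ t, e s ≤ t → t < b → D t s = 0))
    (hD : Integrable (fun z : ℝ × ℝ => D z.1 z.2) ((volume.restrict (Ioo a b)).prod μ)) :
    ∫ s, (φ (e s) s - φ a s) ∂μ = ∫ t in a..b, ∫ s, D t s ∂μ := by
  rw [intervalIntegral.integral_of_le hab, integral_Ioc_eq_integral_Ioo,
    integral_integral_swap (f := D) hD]
  apply integral_congr_ae
  filter_upwards [h, hD.prod_left_ae] with s hs hi
  obtain ⟨h1, h2, h3, h4, h5⟩ := hs
  have hsub : Ioo a (e s) ⊆ Ioo a b := Ioo_subset_Ioo_right h2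
  rw [setIntegral_eq_of_subset_of_forall_sdiff_eq_zero measurableSet_Ioo hsub (fun t ht => ?_)]
  · rw [← integral_Ioc_eq_integral_Ioo, ← intervalIntegral.integral_of_le h1,
      intervalIntegral.integral_eq_sub_of_hasDerivAt_of_le h1 h3 h4]
    rw [intervalIntegrable_iff_integrableOn_Ioo_of_le h1]
    exact hi.mono_measure (Measure.restrict_mono hsub le_rfl)
  · obtain ⟨ht1, ht2⟩ := ht
    exact h5 t (by by_contra hc; exact ht2 ⟨ht1.1, not_le.mp hc⟩) ht1.2

private lemma m0_two (μ : Measure ℝ) [SFinite μ] (φ D₁ D₂ : ℝ → ℝ → ℝ) (a b : ℝ) (hab : a ≤ b)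
    (e : ℝ → ℝ)
    (h : ∀ᵐ s ∂μ, a ≤ e s ∧ e s ≤ b ∧ ContinuousOn (fun t => φ t s) (Icc a (e s)) ∧
      (∀ t ∈ Ioo a (e s), HasDerivAt (fun t => φ t s) (D₁ t s + D₂ t s) t) ∧
      (∀ t, e s ≤ t → t < b → D₁ t s = 0 ∧ D₂ t s = 0))
    (hD₁ : Integrable (fun z : ℝ × ℝ => D₁ z.1 z.2) ((volume.restrict (Ioo a b)).prod μ))
    (hD₂ : Integrable (fun z : ℝ × ℝ => D₂ z.1 z.2) ((volume.restrict (Ioo a b)).prod μ)) :
    IntervalIntegrable (fun t => ∫ s, D₁ t s ∂μ) volume a b ∧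
    IntervalIntegrable (fun t => ∫ s, D₂ t s ∂μ) volume a b ∧
    ∫ s, (φ (e s) s - φ a s) ∂μ = (∫ t in a..b, ∫ s, D₁ t s ∂μ) + ∫ t in a..b, ∫ s, D₂ t s ∂μ := by
  have h1 : IntervalIntegrable (fun t => ∫ s, D₁ t s ∂μ) volume a b := by
    rw [intervalIntegrable_iff_integrableOn_Ioo_of_le hab]
    exact hD₁.integral_prod_left
  have h2 : IntervalIntegrable (fun t => ∫ s, D₂ t s ∂μ) volume a b := by
    rw [intervalIntegrable_iff_integrableOn_Ioo_of_le hab]
    exact hD₂.integral_prod_left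
  refine ⟨h1, h2, ?_⟩
  rw [m0_fub μ φ (fun t s => D₁ t s + D₂ t s) a b hab e ?_ (hD₁.add hD₂)]
  · rw [← intervalIntegral.integral_add h1 h2, intervalIntegral.integral_of_le hab,
      intervalIntegral.integral_of_le hab, integral_Ioc_eq_integral_Ioo,
      integral_Ioc_eq_integral_Ioo]
    apply integral_congr_ae
    filter_upwards [hD₁.prod_right_ae, hD₂.prod_right_ae] with t h3 h4
    exact integral_add h3 h4
  · filter_upwards [h] with s hs
    obtain ⟨g1, g2, g3, g4, g5⟩ := hs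
    refine ⟨g1, g2, g3, g4, fun t ht ht' => ?_⟩
    obtain ⟨k1, k2⟩ := g5 t ht ht'
    rw [k1, k2, add_zero]

/-! ## Integrability of the kernels -/

private lemma m0_sq (c d : ℝ) : IntegrableOn (fun r => 1 / √(r - c)) (Ioo c d) := by
  rcases le_or_gt d c with h | h
  · rw [Ioo_eq_empty (not_lt.mpr h)]; exact integrableOn_empty
  have h1 : IntervalIntegrable (fun x : ℝ => x ^ (-(1 / 2) : ℝ)) volume 0 (d - c) :=
    intervalIntegral.intervalIntegrable_rpow' (by norm_num)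
  have h2 := h1.comp_sub_right c
  have h3 : IntervalIntegrable (fun x : ℝ => (x - c) ^ (-(1 / 2) : ℝ)) volume c d := by
    simpa using h2
  rw [intervalIntegrable_iff_integrableOn_Ioo_of_le h.le] at h3
  refine h3.congr_fun (fun x hx => ?_) measurableSet_Ioo
  have : 0 < x - c := by linarith [hx.1]
  show (x - c) ^ (-(1 / 2) : ℝ) = 1 / √(x - c)
  rw [Real.rpow_neg this.le, Real.sqrt_eq_rpow, one_div, one_div]

private lemma m0_ker (a : ℝ) (ha : 0 ≤ a) :
    Integrable (fun z : ℝ × ℝ => if z.1 < z.2 then 1 / √(z.2 - z.1) else 0)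
      ((volume.restrict (Ioo a 1)).prod (volume.restrict (Ioo a 1))) := by
  have h1 : Integrable ((Ioo (0 : ℝ) 1).indicator fun v => 1 / √v) volume := by
    rw [integrable_indicator_iff measurableSet_Ioo]
    simpa using m0_sq 0 1
  have h2 := h1.comp_neg
  have h3 : Integrable ((Ioo a 1).indicator fun _ => (1 : ℝ)) volume := by
    rw [integrable_indicator_iff measurableSet_Ioo]
    simp
  have h4 := Integrable.convolution_integrand (ContinuousLinearMap.mul ℝ ℝ) h3 h2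
  rw [Measure.prod_restrict]
  have h5 := h4.mono_measure (Measure.restrict_le_self (s := Ioo a 1 ×ˢ Ioo a 1))
  refine h5.congr ?_
  filter_upwards [ae_restrict_mem (measurableSet_Ioo.prod measurableSet_Ioo)] with z hz
  obtain ⟨hz1, hz2⟩ := hz
  simp only [ContinuousLinearMap.mul_apply']
  rw [indicator_of_mem hz2, one_mul]
  by_cases hlt : z.1 < z.2
  · rw [if_pos hlt, indicator_of_mem]
    · congr 2; ring
    · exact ⟨by linarith, by linarith [hz1.1, hz2.2]⟩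
  · rw [if_neg hlt, indicator_of_notMem]
    intro hc
    exact hlt (by linarith [hc.1])

/-! ## The cap -/

section Cap

variable {δ : ℝ} {S : St} {e : ℝ}

private lemma m0_u_meas (B : FactsB δ S) (a : ℝ) (ha : 0 ≤ a) :
    AEMeasurable (uu S e) (volume.restrict (Ioo a 1)) := by
  have h1 : AEMeasurable (uu S e) (volume.restrict (Ico 0 (1 / 2))) :=
    (B.u_ctL e).aemeasurable measurableSet_Ico
  have h2 : AEMeasurable (uu S e) (volume.restrict (Icc (1 / 2) 1)) :=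
    (B.u_ctR e).aemeasurable measurableSet_Icc
  have h3 : AEMeasurable (uu S e) (volume.restrict (Ico 0 (1 / 2) ∪ Icc (1 / 2) 1)) :=
    aemeasurable_union_iff.mpr ⟨h1, h2⟩
  refine h3.mono_measure (Measure.restrict_mono (fun t ht => ?_) le_rfl)
  rcases lt_or_ge t (1 / 2) with h | h
  · exact Or.inl ⟨ha.trans ht.1.le, h⟩
  · exact Or.inr ⟨h, ht.2.le⟩

private lemma m0_x_meas (B : FactsB δ S) (a : ℝ) (ha : 0 ≤ a) :
    AEMeasurable (xx δ S e) (volume.restrict (Ioo a 1)) :=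
  ((B.x_cont e).mono (fun _ ht => ⟨ha.trans ht.1.le, ht.2.le⟩)).aemeasurable measurableSet_Ioo

private lemma m0_da_cont (A : FactsA S) : Continuous (da S) :=
  continuous_iff_continuousAt.mpr fun t => (A.da_deriv t).continuousAt

private lemma m0_al_cont (A : FactsA S) : Continuous (al S) :=
  continuous_iff_continuousAt.mpr fun t => (A.al_deriv t).continuousAt

private lemma m0_ab_cont (A : FactsA S) : Continuous (ab S) := by
  have : LipschitzWith 12 (ab S) := LipschitzWith.of_dist_le_mul fun x y => by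
    rw [Real.dist_eq, Real.dist_eq]
    exact A.ab_lip y x
  exact this.continuous

private lemma m0_P0_meas (A : FactsA S) (B : FactsB δ S) (a : ℝ) (ha : 0 ≤ a) :
    AEMeasurable (fun z : ℝ × ℝ => P0 δ S e z.2 z.1)
      ((volume.restrict (Ioo a 1)).prod (volume.restrict (Ioo a 1))) := by
  have h1 : AEMeasurable (fun z : ℝ × ℝ => xx δ S e z.2)
      ((volume.restrict (Ioo a 1)).prod (volume.restrict (Ioo a 1))) :=
    (m0_x_meas B a ha).comp_snd
  have h2 : Measurable (fun z : ℝ × ℝ => da S z.1) :=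
    ((m0_da_cont A).comp continuous_fst).measurable
  exact h1.sub (h2.aemeasurable.const_mul _)

private lemma m0_G_meas (A : FactsA S) (B : FactsB δ S) (a : ℝ) (ha : 0 ≤ a) :
    AEMeasurable (fun z : ℝ × ℝ => GG δ S e z.2 z.1)
      ((volume.restrict (Ioo a 1)).prod (volume.restrict (Ioo a 1))) := by
  have h1 : AEMeasurable (fun z : ℝ × ℝ => xx δ S e z.2)
      ((volume.restrict (Ioo a 1)).prod (volume.restrict (Ioo a 1))) :=
    (m0_x_meas B a ha).comp_snd
  have h2 : Measurable (fun z : ℝ × ℝ => dd S z.2 z.1) :=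
    (A.dd_cont.comp (continuous_snd.prodMk continuous_fst)).measurable
  have h3 : Measurable (fun z : ℝ × ℝ => dd S z.2 (-z.1)) :=
    (A.dd_cont.comp (continuous_snd.prodMk continuous_fst.neg)).measurable
  exact ((h1.sub (h2.aemeasurable.const_mul _)).mul
    (h1.sub (h3.aemeasurable.const_mul _))).sqrt

private lemma m0_Th_meas (A : FactsA S) (B : FactsB δ S) (a : ℝ) (ha : 0 ≤ a) :
    AEMeasurable (fun z : ℝ × ℝ => Th δ S e z.2 z.1)
      ((volume.restrict (Ioo a 1)).prod (volume.restrict (Ioo a 1))) := by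
  have h1 : AEMeasurable (fun z : ℝ × ℝ => xx δ S e z.2)
      ((volume.restrict (Ioo a 1)).prod (volume.restrict (Ioo a 1))) :=
    (m0_x_meas B a ha).comp_snd
  have h2 : Measurable (fun z : ℝ × ℝ => ab S z.1) :=
    ((m0_ab_cont A).comp continuous_fst).measurable
  exact ((h1.sub (h2.aemeasurable.const_mul _)).mul ((m0_P0_meas A B a ha).pow_const 2)).div
    (m0_G_meas A B a ha)

private lemma m0_Th_bd (hδ : 0 < δ) (hδ1 : δ ≤ 1 / 100) (A : FactsA S) (B : FactsB δ S)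
    (he : e = 1 ∨ e = -1) (s t : ℝ) (h0 : 0 ≤ s) (h1 : s ≤ 1) : |Th δ S e s t| ≤ 32 := by
  have hx := abs_le.mp (B.x_bd e he s h0 h1)
  have hab := abs_le.mp (A.ab_bd t)
  have hP := B.P0_bd e he s t h0 h1
  have hG := B.GG_bd e he s t h0 h1
  have hδ2 : δ ^ 2 ≤ 1 / 10000 := by nlinarith
  have hδ3 : δ ^ 3 ≤ 1 / 1000000 := by nlinarith [sq_nonneg δ]
  have hδ3' : 0 < δ ^ 3 := by positivity
  have h2 : |δ ^ 3 * ab S t| ≤ 1 / 100 := by
    rw [abs_mul, abs_of_pos hδ3']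
    have := A.ab_bd t
    nlinarith [abs_nonneg (ab S t)]
  have h2' := abs_le.mp h2
  have h3 : |xx δ S e s - e * δ ^ 3 * ab S t| ≤ 4 := by
    rw [abs_le]
    rcases he with rfl | rfl
    · constructor <;> linarith
    · constructor <;> linarith
  have h4 : P0 δ S e s t ^ 2 ≤ 16 := by nlinarith
  have h5 : 0 < GG δ S e s t := by linarith
  unfold Th
  rw [abs_div, abs_mul, abs_of_pos h5, abs_of_nonneg (sq_nonneg (P0 δ S e s t)), div_le_iff₀ h5]
  have h6 := sq_nonneg (P0 δ S e s t)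
  calc |xx δ S e s - e * δ ^ 3 * ab S t| * P0 δ S e s t ^ 2 ≤ 4 * 16 :=
        mul_le_mul h3 h4 h6 (by norm_num)
    _ ≤ 32 * GG δ S e s t := by linarith

/-- the first part of the derivative of the cap integrand -/
private noncomputable def m0D1 (δ : ℝ) (S : St) (e t s : ℝ) : ℝ :=
  δ ^ 2 * t * (uu S e s * Th δ S e s t / √(s ^ 2 - t ^ 2))

/-- the second part -/
private noncomputable def m0D2 (δ : ℝ) (S : St) (e t s : ℝ) : ℝ :=
  -(e * δ ^ 2 * S.g t) * (δ ^ 3 * (√(s ^ 2 - t ^ 2) * GG δ S e s t * (-uu S e s)))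

private lemma m0_sqrt0 {s t : ℝ} (h0 : 0 ≤ s) (h : s ≤ t) : √(s ^ 2 - t ^ 2) = 0 :=
  Real.sqrt_eq_zero_of_nonpos (by nlinarith)

private lemma m0_D1_int (hδ : 0 < δ) (hδ1 : δ ≤ 1 / 100) (A : FactsA S) (B : FactsB δ S)
    (he : e = 1 ∨ e = -1) (a : ℝ) (ha : 0 < a) :
    Integrable (fun z : ℝ × ℝ => m0D1 δ S e z.1 z.2)
      ((volume.restrict (Ioo a 1)).prod (volume.restrict (Ioo a 1))) := by
  have hk := (m0_ker a ha.le).const_mul (160 / √a)
  have hm : AEMeasurable (fun z : ℝ × ℝ => m0D1 δ S e z.1 z.2)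
      ((volume.restrict (Ioo a 1)).prod (volume.restrict (Ioo a 1))) := by
    have h1 : AEMeasurable (fun z : ℝ × ℝ => uu S e z.2)
      ((volume.restrict (Ioo a 1)).prod (volume.restrict (Ioo a 1))) :=
      (m0_u_meas B a ha.le).comp_snd
    have h2 := m0_Th_meas (e := e) A B a ha.le
    have h3 : Measurable (fun z : ℝ × ℝ => √(z.2 ^ 2 - z.1 ^ 2)) := by fun_prop
    have h4 : Measurable (fun z : ℝ × ℝ => δ ^ 2 * z.1) := by fun_prop
    exact h4.aemeasurable.mul ((h1.mul h2).div h3.aemeasurable)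
  refine hk.mono' hm.aestronglyMeasurable ?_
  rw [Measure.prod_restrict]
  filter_upwards [ae_restrict_mem (measurableSet_Ioo.prod measurableSet_Ioo)] with z hz
  obtain ⟨⟨hz1, hz2⟩, hz3, hz4⟩ := hz
  unfold m0D1
  rw [Real.norm_eq_abs]
  by_cases hlt : z.1 < z.2
  · rw [if_pos hlt]
    have hs0 : 0 < z.2 := by linarith
    have ht0 : 0 < z.1 := by linarith
    have hu := B.u_bd e he z.2 hs0.le hz4.le
    have hu' : |uu S e z.2| ≤ 5 := abs_le.mpr ⟨by linarith [hu.1], by linarith [hu.2]⟩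
    have hT := m0_Th_bd hδ hδ1 A B he z.2 z.1 hs0.le hz4.le
    have hd : 0 < z.2 - z.1 := by linarith
    have hq : 0 < √(z.2 - z.1) := Real.sqrt_pos.mpr hd
    have hsa : 0 < √a := Real.sqrt_pos.mpr ha
    have hle : √a * √(z.2 - z.1) ≤ √(z.2 ^ 2 - z.1 ^ 2) := by
      rw [← Real.sqrt_mul ha.le]
      apply Real.sqrt_le_sqrt
      nlinarith
    have hδ2 : δ ^ 2 * z.1 ≤ 1 := by nlinarith
    have hδ2' : 0 ≤ δ ^ 2 * z.1 := by positivity
    rw [abs_mul, abs_of_nonneg hδ2', abs_div, abs_mul, abs_of_nonneg (Real.sqrt_nonneg _)]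
    calc δ ^ 2 * z.1 * (|uu S e z.2| * |Th δ S e z.2 z.1| / √(z.2 ^ 2 - z.1 ^ 2))
        ≤ 1 * (5 * 32 / (√a * √(z.2 - z.1))) := by
          apply mul_le_mul hδ2 _ (by positivity) (by norm_num)
          apply div_le_div₀ (by norm_num) _ (by positivity) hle
          exact mul_le_mul hu' hT (abs_nonneg _) (by norm_num)
      _ = 160 / √a * (1 / √(z.2 - z.1)) := by
          field_simp
          norm_num
  · rw [if_neg hlt, m0_sqrt0 (by linarith) (not_lt.mp hlt)]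
    simp

private lemma m0_D2_int (hδ : 0 < δ) (hδ1 : δ ≤ 1 / 100) (A : FactsA S) (B : FactsB δ S)
    (gC : Continuous S.g) (he : e = 1 ∨ e = -1) (a : ℝ) (ha : 0 < a) :
    Integrable (fun z : ℝ × ℝ => m0D2 δ S e z.1 z.2)
      ((volume.restrict (Ioo a 1)).prod (volume.restrict (Ioo a 1))) := by
  have hm : AEMeasurable (fun z : ℝ × ℝ => m0D2 δ S e z.1 z.2)
      ((volume.restrict (Ioo a 1)).prod (volume.restrict (Ioo a 1))) := by
    have h1 : AEMeasurable (fun z : ℝ × ℝ => uu S e z.2)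
      ((volume.restrict (Ioo a 1)).prod (volume.restrict (Ioo a 1))) :=
      (m0_u_meas B a ha.le).comp_snd
    have h2 := m0_G_meas (e := e) A B a ha.le
    have h3 : Measurable (fun z : ℝ × ℝ => √(z.2 ^ 2 - z.1 ^ 2)) := by fun_prop
    have h4 : Measurable (fun z : ℝ × ℝ => -(e * δ ^ 2 * S.g z.1)) :=
      ((gC.comp continuous_fst).measurable.const_mul _).neg
    exact h4.aemeasurable.mul (((h3.aemeasurable.mul h2).mul h1.neg).const_mul _)
  refine Integrable.of_bound hm.aestronglyMeasurable 240 ?_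
  rw [Measure.prod_restrict]
  filter_upwards [ae_restrict_mem (measurableSet_Ioo.prod measurableSet_Ioo)] with z hz
  obtain ⟨⟨hz1, hz2⟩, hz3, hz4⟩ := hz
  have hs0 : 0 < z.2 := by linarith
  have ht0 : 0 < z.1 := by linarith
  have hu := B.u_bd e he z.2 hs0.le hz4.le
  have hu' : |uu S e z.2| ≤ 5 := abs_le.mpr ⟨by linarith [hu.1], by linarith [hu.2]⟩
  have hG := B.GG_bd e he z.2 z.1 hs0.le hz4.le
  have hg := A.g_bd z.1
  have hsq : √(z.2 ^ 2 - z.1 ^ 2) ≤ 1 := by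
    rw [Real.sqrt_le_one]
    nlinarith
  have hsq0 := Real.sqrt_nonneg (z.2 ^ 2 - z.1 ^ 2)
  have he1 : |e| = 1 := by rcases he with rfl | rfl <;> simp
  have hδ2 : δ ^ 2 ≤ 1 := by nlinarith
  have hδ3 : δ ^ 3 ≤ 1 := by nlinarith [sq_nonneg δ]
  unfold m0D2
  rw [Real.norm_eq_abs]
  simp only [abs_mul, abs_neg, he1, abs_of_pos (pow_pos hδ 2), abs_of_pos (pow_pos hδ 3),
    abs_of_nonneg hsq0, abs_of_pos (show (0 : ℝ) < GG δ S e z.2 z.1 by linarith), one_mul]
  calc δ ^ 2 * |S.g z.1| * (δ ^ 3 * (√(z.2 ^ 2 - z.1 ^ 2) * GG δ S e z.2 z.1 * |uu S e z.2|))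
      ≤ (1 * 12) * (1 * ((1 * 4) * 5)) := by
        have : 0 ≤ GG δ S e z.2 z.1 := by linarith
        gcongr
        exact hG.2
    _ = 240 := by norm_num

private lemma m0_D1_eq (a t : ℝ) (ha : 0 < a) (ht : t ∈ Ioo a 1) :
    ∫ s in Ioo a 1, m0D1 δ S e t s = δ ^ 2 * t * Pae δ S e t := by
  rw [setIntegral_eq_of_subset_of_forall_sdiff_eq_zero measurableSet_Ioo
    (Ioo_subset_Ioo_left ht.1.le) (fun s hs => ?_)]
  · unfold m0D1 Pae
    rw [integral_const_mul, intervalIntegral.integral_of_le ht.2.le, integral_Ioc_eq_integral_Ioo]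
  · obtain ⟨hs1, hs2⟩ := hs
    have hst : s ≤ t := by
      by_contra hc
      exact hs2 ⟨not_le.mp hc, hs1.2⟩
    unfold m0D1
    rw [m0_sqrt0 (by linarith [hs1.1]) hst]
    simp

private lemma m0_D2_eq (a t : ℝ) (ha : 0 < a) (ht : t ∈ Ioo a 1) :
    ∫ s in Ioo a 1, m0D2 δ S e t s = -(e * δ ^ 2 * S.g t) *
      (δ ^ 3 * ∫ s in t..1, √(s ^ 2 - t ^ 2) * GG δ S e s t * (-uu S e s)) := by
  rw [setIntegral_eq_of_subset_of_forall_sdiff_eq_zero measurableSet_Ioo
    (Ioo_subset_Ioo_left ht.1.le) (fun s hs => ?_)]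
  · unfold m0D2
    rw [integral_const_mul, integral_const_mul, intervalIntegral.integral_of_le ht.2.le,
      integral_Ioc_eq_integral_Ioo]
  · obtain ⟨hs1, hs2⟩ := hs
    have hst : s ≤ t := by
      by_contra hc
      exact hs2 ⟨not_le.mp hc, hs1.2⟩
    unfold m0D2
    rw [m0_sqrt0 (by linarith [hs1.1]) hst]
    simp

private lemma m0_cap_deriv (A : FactsA S) (B : FactsB δ S)
    (he : e = 1 ∨ e = -1) (s t : ℝ) (ht : 0 < t) (hts : t < s) (hs : s < 1) :
    HasDerivAt (fun t => √((s * xx δ S e s - e * (δ ^ 3 * al S s)) ^ 2 -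
      (t * xx δ S e s - e * (δ ^ 3 * al S t)) ^ 2) * (xx δ S e s - e * (δ ^ 3 * da S t)) *
      (-(δ ^ 2 * uu S e s))) (m0D1 δ S e t s + m0D2 δ S e t s) t := by
  have hs0 : 0 ≤ s := by linarith
  have hid := B.GG_id e he s t hs0 hs.le
  have hG := B.GG_bd e he s t hs0 hs.le
  have hG0 : 0 < GG δ S e s t := by linarith
  have hd : 0 < s ^ 2 - t ^ 2 := by nlinarith
  have hq : 0 < √(s ^ 2 - t ^ 2) := Real.sqrt_pos.mpr hd
  have hW : √((s * xx δ S e s - e * (δ ^ 3 * al S s)) ^ 2 -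
      (t * xx δ S e s - e * (δ ^ 3 * al S t)) ^ 2) = √(s ^ 2 - t ^ 2) * GG δ S e s t := by
    rw [hid, Real.sqrt_mul hd.le, Real.sqrt_sq hG0.le]
  have hne : (s * xx δ S e s - e * (δ ^ 3 * al S s)) ^ 2 -
      (t * xx δ S e s - e * (δ ^ 3 * al S t)) ^ 2 ≠ 0 := by
    rw [hid]; positivity
  have h1 : HasDerivAt (fun t => t * xx δ S e s - e * (δ ^ 3 * al S t))
      (1 * xx δ S e s - e * (δ ^ 3 * da S t)) t :=
    ((hasDerivAt_id t).mul_const (xx δ S e s)).sub (((A.al_deriv t).const_mul (δ ^ 3)).const_mul e)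
  have h2 := ((h1.pow 2).const_sub ((s * xx δ S e s - e * (δ ^ 3 * al S s)) ^ 2)).sqrt hne
  have h3 : HasDerivAt (fun t => xx δ S e s - e * (δ ^ 3 * da S t)) (-(e * (δ ^ 3 * S.g t))) t :=
    (((A.da_deriv t).const_mul (δ ^ 3)).const_mul e).const_sub _
  refine ((h2.mul h3).mul_const (-(δ ^ 2 * uu S e s))).congr_deriv ?_
  simp only [Pi.pow_apply]
  rw [hW]
  unfold m0D1 m0D2 Th P0
  rw [← A.ab_mul t]
  simp only [Nat.cast_ofNat, Nat.add_one_sub_one, pow_one]
  field_simp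
  ring

private lemma m0_cap (hδ : 0 < δ) (hδ1 : δ ≤ 1 / 100) (A : FactsA S) (B : FactsB δ S)
    (gC : Continuous S.g) (he : e = 1 ∨ e = -1) (a : ℝ) (ha : 0 < a) (ha1 : a < 1) :
    IntervalIntegrable (fun t => δ ^ 2 * t * Pae δ S e t) volume a 1 ∧
    IntervalIntegrable (fun t => -(e * δ ^ 2 * S.g t) *
      (δ ^ 3 * ∫ s in t..1, √(s ^ 2 - t ^ 2) * GG δ S e s t * (-uu S e s))) volume a 1 ∧
    -(∫ s in a..1, √((s * xx δ S e s - e * (δ ^ 3 * al S s)) ^ 2 -
      (a * xx δ S e s - e * (δ ^ 3 * al S a)) ^ 2) * (xx δ S e s - e * (δ ^ 3 * da S a)) *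
      (-(δ ^ 2 * uu S e s))) = (∫ t in a..1, δ ^ 2 * t * Pae δ S e t) +
      ∫ t in a..1, -(e * δ ^ 2 * S.g t) *
      (δ ^ 3 * ∫ s in t..1, √(s ^ 2 - t ^ 2) * GG δ S e s t * (-uu S e s)) := by
  have hda := m0_da_cont A
  have hal := m0_al_cont A
  obtain ⟨h1, h2, h3⟩ := m0_two (volume.restrict (Ioo a 1))
    (fun t s => √((s * xx δ S e s - e * (δ ^ 3 * al S s)) ^ 2 -
      (t * xx δ S e s - e * (δ ^ 3 * al S t)) ^ 2) * (xx δ S e s - e * (δ ^ 3 * da S t)) *
      (-(δ ^ 2 * uu S e s))) (m0D1 δ S e) (m0D2 δ S e) a 1 ha1.le id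
    (by
      filter_upwards [ae_restrict_mem measurableSet_Ioo] with s hs
      refine ⟨hs.1.le, hs.2.le, Continuous.continuousOn (by fun_prop), fun t ht => ?_,
        fun t ht ht1 => ?_⟩
      · exact m0_cap_deriv A B he s t (ha.trans ht.1) ht.2 hs.2
      · have hst : s ≤ t := ht
        constructor
        · unfold m0D1
          rw [m0_sqrt0 (by linarith [hs.1]) hst]
          simp
        · unfold m0D2
          rw [m0_sqrt0 (by linarith [hs.1]) hst]
          simp)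
    (m0_D1_int hδ hδ1 A B he a ha) (m0_D2_int hδ hδ1 A B gC he a ha)
  rw [intervalIntegrable_iff_integrableOn_Ioo_of_le ha1.le] at h1 h2
  refine ⟨?_, ?_, ?_⟩
  · rw [intervalIntegrable_iff_integrableOn_Ioo_of_le ha1.le]
    exact h1.congr_fun (fun t ht => m0_D1_eq a t ha ht) measurableSet_Ioo
  · rw [intervalIntegrable_iff_integrableOn_Ioo_of_le ha1.le]
    exact h2.congr_fun (fun t ht => m0_D2_eq a t ha ht) measurableSet_Ioo
  · rw [intervalIntegral.integral_of_le ha1.le, intervalIntegral.integral_of_le ha1.le,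
      integral_Ioc_eq_integral_Ioo, integral_Ioc_eq_integral_Ioo,
      setIntegral_congr_fun measurableSet_Ioo (fun t ht => m0_D1_eq a t ha ht),
      setIntegral_congr_fun measurableSet_Ioo (fun t ht => m0_D2_eq a t ha ht)] at h3
    rw [intervalIntegral.integral_of_le ha1.le, intervalIntegral.integral_of_le ha1.le,
      intervalIntegral.integral_of_le ha1.le, integral_Ioc_eq_integral_Ioo,
      integral_Ioc_eq_integral_Ioo, integral_Ioc_eq_integral_Ioo, ← h3, ← integral_neg]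
    apply integral_congr_ae
    filter_upwards with s
    simp

end Cap

/-! ## The cone -/

section Cone

variable {δ : ℝ} {S : St} {e : ℝ}

private lemma m0_Rh (hδ : 0 < δ) : 3 < Rh δ := by
  unfold Rh
  have : 0 < 4 / δ := by positivity
  linarith

private lemma m0_xr_bd (hδ : 0 < δ) (r : ℝ) (h1 : 3 ≤ r) (h2 : r ≤ Rh δ) :
    0 ≤ xr δ r ∧ xr δ r ≤ 3 := by
  unfold Rh at h2
  unfold xr
  have h3 : δ * (r - 3) ≤ 4 := by
    have : r - 3 ≤ 4 / δ := by linarith
    rw [le_div_iff₀ hδ] at this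
    linarith
  have h4 : 0 ≤ δ * (r - 3) := mul_nonneg hδ.le (by linarith)
  constructor <;> nlinarith

private lemma m0_cone_deriv (A : FactsA S) (B : FactsB δ S) (hδ : 0 < δ)
    (he : e = 1 ∨ e = -1) (r t : ℝ) (ht : 0 < t) (ht1 : t < 1) (hr : 3 < r) (hr1 : r ≤ Rh δ) :
    HasDerivAt (fun t => √(r ^ 2 - (t * xr δ r - e * (δ ^ 3 * al S t)) ^ 2) *
      (xr δ r - e * (δ ^ 3 * da S t)))
      (-(yr δ S e t r * (xr δ r - e * δ ^ 3 * da S t) ^ 2 / wr δ S e t r) +
        -(e * δ ^ 3 * S.g t) * wr δ S e t r) t := by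
  have hlb := B.wr_lb e he t r ht.le ht1.le hr.le hr1
  have hpos : 0 < r ^ 2 - yr δ S e t r ^ 2 := by
    have : 0 < r * ((r - 3) + 2 * (1 - t)) := by
      apply mul_pos <;> linarith
    linarith
  have hy : yr δ S e t r = t * xr δ r - e * (δ ^ 3 * al S t) := by unfold yr; ring
  have hw : 0 < wr δ S e t r := Real.sqrt_pos.mpr hpos
  have hne : r ^ 2 - (t * xr δ r - e * (δ ^ 3 * al S t)) ^ 2 ≠ 0 := by
    rw [← hy]; exact hpos.ne'
  have h1 : HasDerivAt (fun t => t * xr δ r - e * (δ ^ 3 * al S t))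
      (1 * xr δ r - e * (δ ^ 3 * da S t)) t :=
    ((hasDerivAt_id t).mul_const (xr δ r)).sub (((A.al_deriv t).const_mul (δ ^ 3)).const_mul e)
  have h2 := ((h1.pow 2).const_sub (r ^ 2)).sqrt hne
  have h3 : HasDerivAt (fun t => xr δ r - e * (δ ^ 3 * da S t)) (-(e * (δ ^ 3 * S.g t))) t :=
    (((A.da_deriv t).const_mul (δ ^ 3)).const_mul e).const_sub _
  refine (h2.mul h3).congr_deriv ?_
  have hW : √(r ^ 2 - (t * xr δ r - e * (δ ^ 3 * al S t)) ^ 2) = wr δ S e t r := by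
    unfold wr; rw [hy]
  simp only [Pi.pow_apply]
  rw [hW, hy]
  simp only [Nat.cast_ofNat, Nat.add_one_sub_one, pow_one]
  field_simp

private lemma m0_yr_cont (A : FactsA S) : Continuous fun z : ℝ × ℝ => yr δ S e z.1 z.2 := by
  have := m0_al_cont A
  unfold yr xr
  fun_prop

private lemma m0_wr_cont (A : FactsA S) : Continuous fun z : ℝ × ℝ => wr δ S e z.1 z.2 := by
  have := m0_yr_cont (δ := δ) (e := e) A
  unfold wr
  fun_prop

private lemma m0_cone_bd (B : FactsB δ S) (he : e = 1 ∨ e = -1) (t r : ℝ)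
    (ht : 0 ≤ t) (ht1 : t ≤ 1) (hr : 3 ≤ r) (hr1 : r ≤ Rh δ) :
    |yr δ S e t r| ≤ Rh δ ∧ wr δ S e t r ≤ Rh δ ∧ √(r - 3) ≤ wr δ S e t r := by
  have hlb := B.wr_lb e he t r ht ht1 hr hr1
  have h0 : 0 ≤ r * ((r - 3) + 2 * (1 - t)) := by
    apply mul_nonneg <;> linarith
  refine ⟨?_, ?_, ?_⟩
  · refine le_trans (abs_le_of_sq_le_sq (by linarith) (by linarith)) hr1
  · refine le_trans ?_ hr1
    unfold wr
    rw [Real.sqrt_le_left (by linarith)]
    nlinarith [sq_nonneg (yr δ S e t r)]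
  · unfold wr
    apply Real.sqrt_le_sqrt
    nlinarith

private lemma m0_cone (hδ : 0 < δ) (hδ1 : δ ≤ 1 / 100) (A : FactsA S) (B : FactsB δ S)
    (gC : Continuous S.g) (he : e = 1 ∨ e = -1) (a : ℝ) (ha : 0 < a) (ha1 : a < 1) :
    IntervalIntegrable (fun t => -Kce δ S e t) volume a 1 ∧
    IntervalIntegrable (fun t => -(e * δ ^ 3 * S.g t) * ∫ r in (3 : ℝ)..Rh δ, wr δ S e t r)
      volume a 1 ∧
    (∫ r in (3 : ℝ)..Rh δ, √(r ^ 2 - (1 * xr δ r - e * (δ ^ 3 * al S 1)) ^ 2) *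
      (xr δ r - e * (δ ^ 3 * da S 1))) -
    (∫ r in (3 : ℝ)..Rh δ, √(r ^ 2 - (a * xr δ r - e * (δ ^ 3 * al S a)) ^ 2) *
      (xr δ r - e * (δ ^ 3 * da S a))) =
    (∫ t in a..1, -Kce δ S e t) +
      ∫ t in a..1, -(e * δ ^ 3 * S.g t) * ∫ r in (3 : ℝ)..Rh δ, wr δ S e t r := by
  have hda := m0_da_cont A
  have hal := m0_al_cont A
  have hR := m0_Rh hδ
  have hR0 : 0 < Rh δ := by linarith
  have he1 : |e| = 1 := by rcases he with rfl | rfl <;> simp
  have hδ3 : δ ^ 3 ≤ 1 / 1000000 := by nlinarith [sq_nonneg δ]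
  have hyc := m0_yr_cont (δ := δ) (e := e) A
  have hwc := m0_wr_cont (δ := δ) (e := e) A
  -- integrability of the two parts
  have hD1 : Integrable (fun z : ℝ × ℝ => -(yr δ S e z.1 z.2 *
      (xr δ z.2 - e * δ ^ 3 * da S z.1) ^ 2 / wr δ S e z.1 z.2))
      ((volume.restrict (Ioo a 1)).prod (volume.restrict (Ioo 3 (Rh δ)))) := by
    have hk : Integrable (fun z : ℝ × ℝ => (16 * Rh δ) * ((1 : ℝ) * (1 / √(z.2 - 3))))
        ((volume.restrict (Ioo a 1)).prod (volume.restrict (Ioo 3 (Rh δ)))) := by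
      refine Integrable.const_mul ?_ _
      exact Integrable.mul_prod (f := fun _ : ℝ => (1 : ℝ)) (g := fun r : ℝ => 1 / √(r - 3))
        (integrable_const _) (m0_sq 3 (Rh δ))
    have hm : Measurable (fun z : ℝ × ℝ => -(yr δ S e z.1 z.2 *
        (xr δ z.2 - e * δ ^ 3 * da S z.1) ^ 2 / wr δ S e z.1 z.2)) := by
      have h5 : Continuous fun z : ℝ × ℝ => (xr δ z.2 - e * δ ^ 3 * da S z.1) ^ 2 := by
        unfold xr
        fun_prop
      exact ((hyc.measurable.mul h5.measurable).div hwc.measurable).neg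
    refine hk.mono' hm.aestronglyMeasurable ?_
    rw [Measure.prod_restrict]
    filter_upwards [ae_restrict_mem (measurableSet_Ioo.prod measurableSet_Ioo)] with z hz
    obtain ⟨⟨hz1, hz2⟩, hz3, hz4⟩ := hz
    obtain ⟨hb1, hb2, hb3⟩ := m0_cone_bd B he z.1 z.2 (by linarith) hz2.le hz3.le hz4.le
    have hq : 0 < √(z.2 - 3) := Real.sqrt_pos.mpr (by linarith)
    have hxr := m0_xr_bd hδ z.2 hz3.le hz4.le
    have hd := A.da_bd z.1
    have h2 : |e * δ ^ 3 * da S z.1| ≤ 1 / 100 := by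
      rw [abs_mul, abs_mul, he1, abs_of_pos (pow_pos hδ 3), one_mul]
      nlinarith [abs_nonneg (da S z.1)]
    have h2' := abs_le.mp h2
    have h3 : (xr δ z.2 - e * δ ^ 3 * da S z.1) ^ 2 ≤ 16 := by
      apply le_trans (sq_le_sq' (b := 4) (by linarith) (by linarith)); norm_num
    rw [Real.norm_eq_abs, abs_neg, abs_div, abs_mul,
      abs_of_nonneg (sq_nonneg (xr δ z.2 - e * δ ^ 3 * da S z.1)),
      abs_of_nonneg (hq.le.trans hb3)]
    calc |yr δ S e z.1 z.2| * (xr δ z.2 - e * δ ^ 3 * da S z.1) ^ 2 / wr δ S e z.1 z.2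
        ≤ (Rh δ * 16) / √(z.2 - 3) := by
          apply div_le_div₀ (by positivity) _ hq hb3
          exact mul_le_mul hb1 h3 (sq_nonneg _) hR0.le
      _ = 16 * Rh δ * (1 * (1 / √(z.2 - 3))) := by ring
  have hD2 : Integrable (fun z : ℝ × ℝ => -(e * δ ^ 3 * S.g z.1) * wr δ S e z.1 z.2)
      ((volume.restrict (Ioo a 1)).prod (volume.restrict (Ioo 3 (Rh δ)))) := by
    have hm : Continuous (fun z : ℝ × ℝ => -(e * δ ^ 3 * S.g z.1) * wr δ S e z.1 z.2) := by
      fun_prop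
    refine Integrable.of_bound hm.aestronglyMeasurable (12 * Rh δ) ?_
    rw [Measure.prod_restrict]
    filter_upwards [ae_restrict_mem (measurableSet_Ioo.prod measurableSet_Ioo)] with z hz
    obtain ⟨⟨hz1, hz2⟩, hz3, hz4⟩ := hz
    obtain ⟨hb1, hb2, hb3⟩ := m0_cone_bd B he z.1 z.2 (by linarith) hz2.le hz3.le hz4.le
    have hg := A.g_bd z.1
    have hw0 : 0 ≤ wr δ S e z.1 z.2 := Real.sqrt_nonneg _
    rw [Real.norm_eq_abs, abs_mul, abs_neg, abs_mul, abs_mul, he1, abs_of_pos (pow_pos hδ 3),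
      one_mul, abs_of_nonneg hw0]
    apply mul_le_mul _ hb2 hw0 (by norm_num)
    nlinarith [abs_nonneg (S.g z.1), pow_pos hδ 3]
  obtain ⟨h1, h2, h3⟩ := m0_two (volume.restrict (Ioo 3 (Rh δ)))
    (fun t r => √(r ^ 2 - (t * xr δ r - e * (δ ^ 3 * al S t)) ^ 2) *
      (xr δ r - e * (δ ^ 3 * da S t)))
    (fun t r => -(yr δ S e t r * (xr δ r - e * δ ^ 3 * da S t) ^ 2 / wr δ S e t r))
    (fun t r => -(e * δ ^ 3 * S.g t) * wr δ S e t r) a 1 ha1.le (fun _ => 1)
    (by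
      filter_upwards [ae_restrict_mem measurableSet_Ioo] with r hr
      refine ⟨ha1.le, le_rfl, Continuous.continuousOn (by fun_prop), fun t ht => ?_,
        fun t ht ht1 => absurd ht (not_le.mpr ht1)⟩
      exact m0_cone_deriv A B hδ he r t (ha.trans ht.1) ht.2 hr.1 hr.2.le) hD1 hD2
  have e1 : ∀ t, ∫ r in Ioo 3 (Rh δ), -(yr δ S e t r * (xr δ r - e * δ ^ 3 * da S t) ^ 2 /
      wr δ S e t r) = -Kce δ S e t := fun t => by
    unfold Kce
    rw [integral_neg, intervalIntegral.integral_of_le hR.le, integral_Ioc_eq_integral_Ioo]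
  have e2 : ∀ t, ∫ r in Ioo 3 (Rh δ), -(e * δ ^ 3 * S.g t) * wr δ S e t r =
      -(e * δ ^ 3 * S.g t) * ∫ r in (3 : ℝ)..Rh δ, wr δ S e t r := fun t => by
    rw [integral_const_mul, intervalIntegral.integral_of_le hR.le, integral_Ioc_eq_integral_Ioo]
  simp only [e1] at h1 h3
  simp only [e2] at h2 h3
  refine ⟨h1, h2, ?_⟩
  rw [← h3, ← intervalIntegral.integral_sub, intervalIntegral.integral_of_le hR.le,
    integral_Ioc_eq_integral_Ioo]
  · apply Continuous.intervalIntegrable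
    unfold xr
    fun_prop
  · apply Continuous.intervalIntegrable
    unfold xr
    fun_prop

end Cone

/-! ## Equation (V) -/

private lemma m0_end {δ : ℝ} {S : St} {e : ℝ} (hδ : 0 < δ) (hδ1 : δ ≤ 1 / 100) (A : FactsA S)
    (B : FactsB δ S) (gC : Continuous S.g) (he : e = 1 ∨ e = -1) (a : ℝ) (ha : 0 < a)
    (ha1 : a < 1) :
    IntervalIntegrable (fun t => δ ^ 2 * t * Pae δ S e t - 3 / 4 * δ * Kce δ S e t -
      e * δ ^ 2 * S.g t * Ihe δ S e t) volume a 1 ∧
    Ve δ (fun t => δ ^ 3 * al S t) (fun t => δ ^ 3 * da S t) (xx δ S) (uu S) e 1 -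
    Ve δ (fun t => δ ^ 3 * al S t) (fun t => δ ^ 3 * da S t) (xx δ S) (uu S) e a =
    ∫ t in a..1, (δ ^ 2 * t * Pae δ S e t - 3 / 4 * δ * Kce δ S e t -
      e * δ ^ 2 * S.g t * Ihe δ S e t) := by
  obtain ⟨c1, c2, c3⟩ := m0_cap hδ hδ1 A B gC he a ha ha1
  obtain ⟨k1, k2, k3⟩ := m0_cone hδ hδ1 A B gC he a ha ha1
  have hcongr : (fun t => δ ^ 2 * t * Pae δ S e t - 3 / 4 * δ * Kce δ S e t -
      e * δ ^ 2 * S.g t * Ihe δ S e t) = fun t =>
      (δ ^ 2 * t * Pae δ S e t + -(e * δ ^ 2 * S.g t) *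
      (δ ^ 3 * ∫ s in t..1, √(s ^ 2 - t ^ 2) * GG δ S e s t * (-uu S e s))) +
      3 / 4 * δ * (-Kce δ S e t +
        -(e * δ ^ 3 * S.g t) * ∫ r in (3 : ℝ)..Rh δ, wr δ S e t r) := by
    funext t
    unfold Ihe
    ring
  rw [hcongr]
  refine ⟨(c1.add c2).add ((k1.add k2).const_mul _), ?_⟩
  rw [intervalIntegral.integral_add (c1.add c2) ((k1.add k2).const_mul _),
    intervalIntegral.integral_add c1 c2, intervalIntegral.integral_const_mul,
    intervalIntegral.integral_add k1 k2, ← c3, ← k3]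
  unfold Ve rho
  rw [intervalIntegral.integral_same]
  ring

theorem M0 (hA : S_FactsA) (hB : S_FactsB) (_hJ : S_INE) : S_M0 := by
  obtain ⟨δ₁, hδ₁, hδ₁', hB⟩ := hB
  refine ⟨δ₁, hδ₁, fun δ hδ hδ1 S hS hg a ha ha1 => ?_⟩
  have B := hB δ hδ hδ1 S hS
  have A := hA S hS
  have hδ' : δ ≤ 1 / 100 := hδ1.trans hδ₁'
  have gC := hS.gC
  obtain ⟨i1, v1⟩ := m0_end (e := 1) hδ hδ' A B gC (Or.inl rfl) a ha ha1
  obtain ⟨i2, v2⟩ := m0_end (e := -1) hδ hδ' A B gC (Or.inr rfl) a ha ha1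
  have hR := m0_Rh hδ
  have hIpos : ∀ e : ℝ, (e = 1 ∨ e = -1) → ∀ t, 0 ≤ t → t ≤ 1 → 0 < Ihe δ S e t := by
    intro e he t ht0 ht1
    have p1 : 0 ≤ ∫ s in t..1, √(s ^ 2 - t ^ 2) * GG δ S e s t * (-uu S e s) := by
      apply intervalIntegral.integral_nonneg ht1
      intro s hs
      have hG := B.GG_bd e he s t (ht0.trans hs.1) hs.2
      have hu := B.u_bd e he s (ht0.trans hs.1) hs.2
      apply mul_nonneg (mul_nonneg (Real.sqrt_nonneg _) (by linarith)) (by linarith)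
    have p2 : 0 < ∫ r in (3 : ℝ)..Rh δ, wr δ S e t r := by
      apply intervalIntegral.intervalIntegral_pos_of_pos_on
      · apply Continuous.intervalIntegrable
        exact (m0_wr_cont (δ := δ) (e := e) A).comp (continuous_const.prodMk continuous_id)
      · intro r hr
        obtain ⟨-, -, h3⟩ := m0_cone_bd B he t r ht0 ht1 hr.1.le hr.2.le
        have : 0 < √(r - 3) := Real.sqrt_pos.mpr (by linarith [hr.1])
        linarith
      · exact hR
    unfold Ihe
    positivity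
  have hM1 : Ve δ (fun t => δ ^ 3 * al S t) (fun t => δ ^ 3 * da S t) (xx δ S) (uu S) 1 1 =
      Ve δ (fun t => δ ^ 3 * al S t) (fun t => δ ^ 3 * da S t) (xx δ S) (uu S) (-1) 1 := by
    unfold Ve
    rw [intervalIntegral.integral_same, intervalIntegral.integral_same]
    simp only [A.al_zero 1 le_rfl, A.da_zero 1 le_rfl]
    simp
  have hz : (∫ t in a..1, (δ ^ 2 * t * Pae δ S 1 t - 3 / 4 * δ * Kce δ S 1 t -
      1 * δ ^ 2 * S.g t * Ihe δ S 1 t)) -
      (∫ t in a..1, (δ ^ 2 * t * Pae δ S (-1) t - 3 / 4 * δ * Kce δ S (-1) t -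
      (-1) * δ ^ 2 * S.g t * Ihe δ S (-1) t)) = 0 := by
    rw [← intervalIntegral.integral_sub i1 i2]
    apply intervalIntegral.integral_zero_ae
    filter_upwards with t ht
    rw [uIoc_of_le ha1.le] at ht
    have h0 : 0 ≤ t := by linarith [ht.1]
    have hI : 0 < Ih δ S t :=
      add_pos (hIpos 1 (Or.inl rfl) t h0 ht.2) (hIpos (-1) (Or.inr rfl) t h0 ht.2)
    have hgt := hg t h0 ht.2
    unfold gA at hgt
    rw [eq_div_iff hI.ne'] at hgt
    unfold Pa Kc Ih at hgt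
    have hgt' : δ ^ 2 * (S.g t * (Ihe δ S 1 t + Ihe δ S (-1) t)) =
      δ ^ 2 * (t * (Pae δ S 1 t - Pae δ S (-1) t)) -
        3 / 4 * δ * (Kce δ S 1 t - Kce δ S (-1) t) := by
      rw [hgt]
      field_simp
    linear_combination -hgt'
  linarith [v1, v2, hM1, hz]

end Pool.Agent.HV
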