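import Pool.Agent.HV.Stmts

/-!
# The theorem from its parts
-/

set_option autoImplicit false

open MeasureTheory Set Filter
open scoped Real Topology ENNReal

namespace Pool.Agent.HV

theorem MainOf (hPR : S_PR) (hK : S_GK) (hS : S_GS) (hD : S_GD) (hU : S_GU) (hC : S_GC) :
    S_Main := by
  obtain ⟨δ, A, dA, x, u, hP⟩ := hPR
  obtain ⟨k1, k2, k3, k4⟩ := hK δ A dA x u hP
  obtain ⟨s1, s2, -⟩ := hS δ A dA x u hP
  refine ⟨KK δ A x, k1, k2, k3, ?_, ?_, ?_, hC δ A dA x u hP⟩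
  · rw [k4]; exact s1
  · rw [k4]; exact s2
  · intro ν τ hν hτ
    obtain ⟨τ', h1, h2⟩ := hD δ A dA x u hP ν hν
    have h3 : τ = τ' := hU (KK δ A x) k1 k2 k3 ν τ τ' hν hτ h1
    rw [k4, h3]
    exact h2

end Pool.Agent.HV
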