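import Pool.Agent.HV.Stmts

/-!
# §4.7: the function `𝒫`
-/

set_option autoImplicit false

open MeasureTheory Set Filter
open scoped Real Topology ENNReal

namespace Pool.Agent.HV

namespace PAm

/-! ## Elementary inequalities -/

lemma phi_lip {A B P Q A' B' P' Q' : ℝ} (hA : 2 ≤ A ∧ A ≤ 4) (hB : 2 ≤ B ∧ B ≤ 4)
    (hP : 2 ≤ P ∧ P ≤ 4) (hQ : 2 ≤ Q ∧ Q ≤ 4) (hA' : 2 ≤ A' ∧ A' ≤ 4) (hB' : 2 ≤ B' ∧ B' ≤ 4)
    (hP' : 2 ≤ P' ∧ P' ≤ 4) (hQ' : 2 ≤ Q' ∧ Q' ≤ 4) :
    |A * B ^ 2 / √(P * Q) - A' * B' ^ 2 / √(P' * Q')| ≤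
      16 * (|A - A'| + |B - B'| + |P - P'| + |Q - Q'|) := by
  obtain ⟨hA1, hA2⟩ := hA
  obtain ⟨hB1, hB2⟩ := hB
  obtain ⟨hP1, hP2⟩ := hP
  obtain ⟨hQ1, hQ2⟩ := hQ
  obtain ⟨hA1', hA2'⟩ := hA'
  obtain ⟨hB1', hB2'⟩ := hB'
  obtain ⟨hP1', hP2'⟩ := hP'
  obtain ⟨hQ1', hQ2'⟩ := hQ'
  set G := √(P * Q) with hG
  set G' := √(P' * Q') with hG'
  have sG : G ^ 2 = P * Q := Real.sq_sqrt (by positivity)
  have sG' : G' ^ 2 = P' * Q' := Real.sq_sqrt (by positivity)
  have G1 : 2 ≤ G := Real.le_sqrt_of_sq_le (by nlinarith)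
  have G1' : 2 ≤ G' := Real.le_sqrt_of_sq_le (by nlinarith)
  have dG : |G - G'| ≤ |P - P'| + |Q - Q'| := by
    have e : (G - G') * (G + G') = P * (Q - Q') + Q' * (P - P') := by nlinarith
    have h1 : |G - G'| * (G + G') ≤ 4 * |Q - Q'| + 4 * |P - P'| := by
      rw [← abs_of_pos (show 0 < G + G' by linarith), ← abs_mul, e]
      refine (abs_add_le _ _).trans ?_
      rw [abs_mul, abs_mul, abs_of_pos (show 0 < P by linarith), abs_of_pos (show 0 < Q' by linarith)]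
      have := abs_nonneg (Q - Q')
      have := abs_nonneg (P - P')
      nlinarith
    have h2 : |G - G'| * 4 ≤ |G - G'| * (G + G') :=
      mul_le_mul_of_nonneg_left (by linarith) (abs_nonneg _)
    linarith
  have dN : |A * B ^ 2 - A' * B' ^ 2| ≤ 16 * |A - A'| + 32 * |B - B'| := by
    have e : A * B ^ 2 - A' * B' ^ 2 = (A - A') * B ^ 2 + (B - B') * (A' * (B + B')) := by ring
    rw [e]
    refine (abs_add_le _ _).trans ?_
    rw [abs_mul, abs_mul, abs_of_pos (show 0 < B ^ 2 by positivity),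
      abs_of_pos (show 0 < A' * (B + B') by nlinarith)]
    have k1 : B ^ 2 ≤ 16 := by nlinarith
    have k2 : A' * (B + B') ≤ 32 := by nlinarith
    have := mul_le_mul_of_nonneg_left k1 (abs_nonneg (A - A'))
    have := mul_le_mul_of_nonneg_left k2 (abs_nonneg (B - B'))
    linarith
  have hG0 : 0 < G := by linarith
  have hG0' : 0 < G' := by linarith
  have e : A * B ^ 2 / G - A' * B' ^ 2 / G' = (A * B ^ 2 - A' * B' ^ 2) / G
      + A' * B' ^ 2 / (G * G') * (G' - G) := by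
    field_simp
    ring
  rw [e]
  refine (abs_add_le _ _).trans ?_
  have t1 : |(A * B ^ 2 - A' * B' ^ 2) / G| ≤ (16 * |A - A'| + 32 * |B - B'|) / 2 := by
    rw [abs_div, abs_of_pos hG0]
    have := abs_nonneg (A - A')
    have := abs_nonneg (B - B')
    exact div_le_div₀ (by positivity) dN (by norm_num) G1
  have t2 : |A' * B' ^ 2 / (G * G') * (G' - G)| ≤ 16 * (|P - P'| + |Q - Q'|) := by
    rw [abs_mul, abs_sub_comm G' G]
    have k : |A' * B' ^ 2 / (G * G')| ≤ 16 := by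
      rw [abs_of_pos (by positivity), div_le_iff₀ (by positivity)]
      have k1 : A' * B' ^ 2 ≤ 4 * 16 := mul_le_mul hA2' (by nlinarith) (by positivity) (by norm_num)
      nlinarith
    exact mul_le_mul k dG (abs_nonneg _) (by norm_num)
  have := abs_nonneg (A - A')
  linarith

lemma sq1 {x : ℝ} (h : x ≤ 1) : √x ≤ 1 := by
  simpa using Real.sqrt_le_sqrt h

lemma ker1 {t s : ℝ} (h0 : 0 ≤ t) (h1 : t < s) (h2 : s ≤ 1) :
    t / √(s ^ 2 - t ^ 2) ≤ 1 / √(s - t) := by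
  have e : √(s ^ 2 - t ^ 2) = √(s - t) * √(s + t) := by
    rw [← Real.sqrt_mul (by linarith)]; congr 1; ring
  have hp : 0 < √(s - t) := Real.sqrt_pos.mpr (by linarith)
  have hq : 0 < √(s + t) := Real.sqrt_pos.mpr (by linarith)
  rw [e, div_le_div_iff₀ (by positivity) hp, one_mul, mul_comm]
  refine mul_le_mul_of_nonneg_left ?_ hp.le
  exact Real.le_sqrt_of_sq_le (by nlinarith)

lemma ker2 {a b s : ℝ} (h0 : 0 ≤ a) (hab : a ≤ b) (h1 : b < s) (h2 : s ≤ 1) :
    (b / √(s ^ 2 - b ^ 2) - a / √(s ^ 2 - a ^ 2)) * (s - b) ≤ (b - a) / √(s - b) := by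
  have e : √(s ^ 2 - b ^ 2) = √(s - b) * √(s + b) := by
    rw [← Real.sqrt_mul (by linarith)]; congr 1; ring
  have hp : 0 < √(s - b) := Real.sqrt_pos.mpr (by linarith)
  have hq : 0 < √(s + b) := Real.sqrt_pos.mpr (by linarith)
  have hp2 : √(s - b) ^ 2 = s - b := Real.sq_sqrt (by linarith)
  have hq2 : √(s + b) ^ 2 = s + b := Real.sq_sqrt (by linarith)
  set p := √(s - b) with hpdef
  set q := √(s + b) with hqdef
  set W := √(s ^ 2 - b ^ 2) with hW
  set V := √(s ^ 2 - a ^ 2) with hV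
  have hb0 : 0 ≤ b := h0.trans hab
  have hs0 : 0 < s := by linarith
  have W0 : 0 < W := Real.sqrt_pos.mpr (by nlinarith)
  have WV : W ≤ V := Real.sqrt_le_sqrt (by nlinarith)
  have V0 : 0 < V := by linarith
  have W2 : W ^ 2 = s ^ 2 - b ^ 2 := Real.sq_sqrt (by nlinarith)
  have V2 : V ^ 2 = s ^ 2 - a ^ 2 := Real.sq_sqrt (by nlinarith)
  rcases hb0.eq_or_lt with hb | hb
  · have ha : a = 0 := by linarith
    subst ha
    rw [← hb]
    simp
  · have key : b / W - a / V ≤ (b - a) * s ^ 2 / W ^ 3 := by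
      rw [div_sub_div _ _ W0.ne' V0.ne', div_le_div_iff₀ (by positivity) (by positivity)]
      have e1 : (b * V - W * a) * (b * V + a * W) = s ^ 2 * (b ^ 2 - a ^ 2) := by
        have : (b * V - W * a) * (b * V + a * W) = b ^ 2 * V ^ 2 - a ^ 2 * W ^ 2 := by ring
        rw [this, V2, W2]; ring
      have hc : 0 < b * V + a * W := by positivity
      have e2 : (b * V - W * a) * W ^ 2 ≤ (b - a) * s ^ 2 * V := by
        have : (b * V - W * a) * W ^ 2 * (b * V + a * W) ≤ (b - a) * s ^ 2 * V * (b * V + a * W) := by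
          have l1 : (b * V - W * a) * W ^ 2 * (b * V + a * W) = (b - a) * s ^ 2 * ((b + a) * W ^ 2) := by
            calc (b * V - W * a) * W ^ 2 * (b * V + a * W)
                = ((b * V - W * a) * (b * V + a * W)) * W ^ 2 := by ring
              _ = (b - a) * s ^ 2 * ((b + a) * W ^ 2) := by rw [e1]; ring
          have l2 : (b - a) * s ^ 2 * V * (b * V + a * W)
              = (b - a) * s ^ 2 * (b * V ^ 2 + a * (W * V)) := by ring
          rw [l1, l2]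
          refine mul_le_mul_of_nonneg_left ?_ (mul_nonneg (by linarith) (by positivity))
          have m1 : W ^ 2 ≤ V ^ 2 := by nlinarith
          have m2 : W ^ 2 ≤ W * V := by nlinarith
          nlinarith
        exact le_of_mul_le_mul_right this hc
      calc (b * V - W * a) * W ^ 3 = (b * V - W * a) * W ^ 2 * W := by ring
        _ ≤ (b - a) * s ^ 2 * V * W := mul_le_mul_of_nonneg_right e2 W0.le
        _ = (b - a) * s ^ 2 * (W * V) := by ring
    have hsq : s ^ 2 ≤ q ^ 3 := by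
      have q1 : s ≤ q ^ 2 := by rw [hq2]; linarith
      have q2 : s ≤ q := by
        refine Real.le_sqrt_of_sq_le ?_
        nlinarith
      calc s ^ 2 = s * s := by ring
        _ ≤ q ^ 2 * q := mul_le_mul q1 q2 hs0.le (by positivity)
        _ = q ^ 3 := by ring
    have : (b / W - a / V) * (s - b) ≤ (b - a) * s ^ 2 / W ^ 3 * (s - b) :=
      mul_le_mul_of_nonneg_right key (by linarith)
    refine this.trans ?_
    rw [e, ← hp2, div_mul_eq_mul_div, div_le_div_iff₀ (by positivity) hp]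
    calc (b - a) * s ^ 2 * p ^ 2 * p = (b - a) * p ^ 3 * s ^ 2 := by ring
      _ ≤ (b - a) * p ^ 3 * q ^ 3 :=
        mul_le_mul_of_nonneg_left hsq (mul_nonneg (by linarith) (by positivity))
      _ = (b - a) * (p * q) ^ 3 := by ring

lemma ker0 {a b s : ℝ} (h0 : 0 ≤ a) (hab : a ≤ b) (h1 : b < s) :
    a / √(s ^ 2 - a ^ 2) ≤ b / √(s ^ 2 - b ^ 2) := by
  have W0 : 0 < √(s ^ 2 - b ^ 2) := Real.sqrt_pos.mpr (by nlinarith)
  have WV : √(s ^ 2 - b ^ 2) ≤ √(s ^ 2 - a ^ 2) := Real.sqrt_le_sqrt (by nlinarith)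
  exact div_le_div₀ (by linarith) hab W0 WV

lemma om_mono {a b : ℝ} (h0 : 0 ≤ a) (hab : a ≤ b) (hb : b ≤ 1) : b - a ≤ Om b - Om a := by
  unfold Om
  have h1 : √(1 / 2 - b) ≤ √(1 / 2 - a) := Real.sqrt_le_sqrt (by linarith)
  have h2 : √(1 - b) ≤ √(1 - a) := Real.sqrt_le_sqrt (by linarith)
  have h3 : √a ≤ √b := Real.sqrt_le_sqrt hab
  have h4 : √b ≤ 1 := sq1 hb
  have h5 : √a ^ 2 = a := Real.sq_sqrt h0
  have h6 : √b ^ 2 = b := Real.sq_sqrt (h0.trans hab)
  have : b - a ≤ 2 * √b - 2 * √a := by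
    have h7 := Real.sqrt_nonneg a
    nlinarith
  linarith

/-! ## The kernel `(s - c)^{-1/2}` -/

lemma isq (c d : ℝ) (h : c ≤ d) : IntervalIntegrable (fun s => 1 / √(s - c)) volume c d ∧
    ∫ s in c..d, 1 / √(s - c) = 2 * √(d - c) := by
  have hc : ContinuousOn (fun s : ℝ => 2 * √(s - c)) (Icc c d) :=
    (continuous_const.mul (Real.continuous_sqrt.comp (continuous_id.sub continuous_const))).continuousOn
  have hd : ∀ s ∈ Ioo c d, HasDerivAt (fun s : ℝ => 2 * √(s - c)) (1 / √(s - c)) s := by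
    intro s hs
    have hs' : s - c ≠ 0 := by linarith [hs.1]
    have h1 := (((hasDerivAt_id s).sub_const c).sqrt hs').const_mul 2
    have h2 : 2 * (1 / (2 * √(s - c))) = 1 / √(s - c) := by
      rw [mul_one_div, mul_comm 2 (√(s - c)), ← div_div, div_right_comm]
      norm_num
    exact h2 ▸ h1
  have hi : IntervalIntegrable (fun s => 1 / √(s - c)) volume c d := by
    rw [intervalIntegrable_iff_integrableOn_Ioc_of_le h]
    exact intervalIntegral.integrableOn_deriv_of_nonneg hc hd (fun s _ => by positivity)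
  refine ⟨hi, ?_⟩
  rw [intervalIntegral.integral_eq_sub_of_hasDerivAt_of_le h hc hd hi]
  simp

/-! ## The remainder -/

section rem

variable {D : ℝ → ℝ → ℝ} {M : ℝ}

lemma F_ii (hM : 0 ≤ M)
    (h1 : ∀ s t, 0 ≤ t → t ≤ s → s ≤ 1 → |D s t| ≤ M * (s - t))
    (hm : ∀ t, AEStronglyMeasurable (fun s => D s t) (volume.restrict (Icc 0 1)))
    {a : ℝ} (h0 : 0 ≤ a) (ha : a ≤ 1) :
    (∀ s, a < s → s ≤ 1 → |a * (D s a / √(s ^ 2 - a ^ 2))| ≤ M) ∧
    IntervalIntegrable (fun s => a * (D s a / √(s ^ 2 - a ^ 2))) volume a 1 := by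
  have hb : ∀ s, a < s → s ≤ 1 → |a * (D s a / √(s ^ 2 - a ^ 2))| ≤ M := by
    intro s hs1 hs2
    have hp : 0 < √(s - a) := Real.sqrt_pos.mpr (by linarith)
    have hp2 : √(s - a) ^ 2 = s - a := Real.sq_sqrt (by linarith)
    have hp1 : √(s - a) ≤ 1 := sq1 (by linarith)
    have e : |a * (D s a / √(s ^ 2 - a ^ 2))| = a / √(s ^ 2 - a ^ 2) * |D s a| := by
      rw [abs_mul, abs_div, abs_of_nonneg h0, abs_of_nonneg (Real.sqrt_nonneg _)]; ring
    rw [e]
    calc a / √(s ^ 2 - a ^ 2) * |D s a| ≤ 1 / √(s - a) * (M * (s - a)) :=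
          mul_le_mul (ker1 h0 hs1 hs2) (h1 s a h0 hs1.le hs2) (abs_nonneg _) (by positivity)
      _ = M * √(s - a) := by
          rw [div_mul_eq_mul_div, one_mul, div_eq_iff hp.ne', mul_assoc,
            Real.mul_self_sqrt (by linarith)]
      _ ≤ M * 1 := mul_le_mul_of_nonneg_left hp1 hM
      _ = M := mul_one M
  refine ⟨hb, ?_⟩
  rw [intervalIntegrable_iff_integrableOn_Ioc_of_le ha]
  have hmeas : AEStronglyMeasurable (fun s => a * (D s a / √(s ^ 2 - a ^ 2)))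
      (volume.restrict (Ioc a 1)) := by
    have hm' : AEStronglyMeasurable (fun s => D s a) (volume.restrict (Ioc a 1)) :=
      (hm a).mono_measure (Measure.restrict_mono
        (show Ioc a 1 ⊆ Icc 0 1 from fun s hs => ⟨by linarith [hs.1], hs.2⟩) le_rfl)
    have hq : AEStronglyMeasurable (fun s : ℝ => √(s ^ 2 - a ^ 2)) (volume.restrict (Ioc a 1)) := by
      apply Continuous.aestronglyMeasurable
      fun_prop
    exact (hm'.aemeasurable.div hq.aemeasurable).aestronglyMeasurable.const_mul a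
  refine Integrable.of_bound hmeas M ?_
  rw [ae_restrict_iff' measurableSet_Ioc]
  exact Eventually.of_forall fun s hs => by
    rw [Real.norm_eq_abs]; exact hb s hs.1 hs.2

lemma rem_lip (hM : 0 ≤ M)
    (h1 : ∀ s t, 0 ≤ t → t ≤ s → s ≤ 1 → |D s t| ≤ M * (s - t))
    (h2 : ∀ s t t', 0 ≤ s → s ≤ 1 → |D s t - D s t'| ≤ M * |t - t'|)
    (hm : ∀ t, AEStronglyMeasurable (fun s => D s t) (volume.restrict (Icc 0 1)))
    {a b : ℝ} (h0 : 0 ≤ a) (hab : a ≤ b) (hb : b ≤ 1) :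
    |(∫ s in b..1, b * (D s b / √(s ^ 2 - b ^ 2))) -
      (∫ s in a..1, a * (D s a / √(s ^ 2 - a ^ 2)))| ≤ 5 * M * (b - a) := by
  obtain ⟨ba, ia⟩ := F_ii hM h1 hm h0 (hab.trans hb)
  obtain ⟨bb', ib⟩ := F_ii hM h1 hm (h0.trans hab) hb
  have ia1 : IntervalIntegrable (fun s => a * (D s a / √(s ^ 2 - a ^ 2))) volume a b :=
    ia.mono_set (by
      rw [uIcc_of_le hab, uIcc_of_le (hab.trans hb)]
      exact Icc_subset_Icc le_rfl hb)
  have ia2 : IntervalIntegrable (fun s => a * (D s a / √(s ^ 2 - a ^ 2))) volume b 1 :=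
    ia.mono_set (by
      rw [uIcc_of_le hb, uIcc_of_le (hab.trans hb)]
      exact Icc_subset_Icc hab le_rfl)
  rw [← intervalIntegral.integral_add_adjacent_intervals ia1 ia2]
  have e : (∫ s in b..1, b * (D s b / √(s ^ 2 - b ^ 2))) -
      ((∫ s in a..b, a * (D s a / √(s ^ 2 - a ^ 2))) +
        ∫ s in b..1, a * (D s a / √(s ^ 2 - a ^ 2)))
      = (∫ s in b..1, (b * (D s b / √(s ^ 2 - b ^ 2)) - a * (D s a / √(s ^ 2 - a ^ 2)))) -
        ∫ s in a..b, a * (D s a / √(s ^ 2 - a ^ 2)) := by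
    rw [intervalIntegral.integral_sub ib ia2]; ring
  rw [e]
  have p1 : |∫ s in a..b, a * (D s a / √(s ^ 2 - a ^ 2))| ≤ M * (b - a) := by
    have := intervalIntegral.norm_integral_le_of_norm_le_const (a := a) (b := b) (C := M)
      (f := fun s => a * (D s a / √(s ^ 2 - a ^ 2))) (fun s hs => by
        rw [uIoc_of_le hab] at hs
        rw [Real.norm_eq_abs]
        exact ba s hs.1 (hs.2.trans hb))
    rwa [Real.norm_eq_abs, abs_of_nonneg (by linarith : 0 ≤ b - a)] at this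
  have p2 : |∫ s in b..1, (b * (D s b / √(s ^ 2 - b ^ 2)) - a * (D s a / √(s ^ 2 - a ^ 2)))|
      ≤ 4 * M * (b - a) := by
    obtain ⟨i1, i2⟩ := isq b 1 hb
    have := intervalIntegral.norm_integral_le_of_norm_le hb (μ := volume)
      (f := fun s => b * (D s b / √(s ^ 2 - b ^ 2)) - a * (D s a / √(s ^ 2 - a ^ 2)))
      (g := fun s => 2 * M * (b - a) * (1 / √(s - b)))
      (Eventually.of_forall fun s hs => by
        have hs1 : b < s := hs.1
        have hs2 : s ≤ 1 := hs.2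
        rw [Real.norm_eq_abs]
        have hp : 0 < √(s - b) := Real.sqrt_pos.mpr (by linarith)
        have e1 : b * (D s b / √(s ^ 2 - b ^ 2)) - a * (D s a / √(s ^ 2 - a ^ 2))
            = (b / √(s ^ 2 - b ^ 2) - a / √(s ^ 2 - a ^ 2)) * D s b
              + a / √(s ^ 2 - a ^ 2) * (D s b - D s a) := by ring
        rw [e1]
        refine (abs_add_le _ _).trans ?_
        have t1 : |(b / √(s ^ 2 - b ^ 2) - a / √(s ^ 2 - a ^ 2)) * D s b|
            ≤ M * (b - a) * (1 / √(s - b)) := by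
          have k0 := ker0 h0 hab hs1
          rw [abs_mul, abs_of_nonneg (by linarith)]
          calc (b / √(s ^ 2 - b ^ 2) - a / √(s ^ 2 - a ^ 2)) * |D s b|
              ≤ (b / √(s ^ 2 - b ^ 2) - a / √(s ^ 2 - a ^ 2)) * (M * (s - b)) :=
                mul_le_mul_of_nonneg_left (h1 s b (h0.trans hab) hs1.le hs2) (by linarith)
            _ = M * ((b / √(s ^ 2 - b ^ 2) - a / √(s ^ 2 - a ^ 2)) * (s - b)) := by ring
            _ ≤ M * ((b - a) / √(s - b)) := mul_le_mul_of_nonneg_left (ker2 h0 hab hs1 hs2) hM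
            _ = M * (b - a) * (1 / √(s - b)) := by ring
        have t2 : |a / √(s ^ 2 - a ^ 2) * (D s b - D s a)| ≤ M * (b - a) * (1 / √(s - b)) := by
          rw [abs_mul, abs_of_nonneg (div_nonneg h0 (Real.sqrt_nonneg _))]
          have k1 : a / √(s ^ 2 - a ^ 2) ≤ 1 / √(s - b) :=
            (ker0 h0 hab hs1).trans (ker1 (h0.trans hab) hs1 hs2)
          have k2 : |D s b - D s a| ≤ M * (b - a) := by
            have := h2 s b a (by linarith) hs2
            rwa [abs_of_nonneg (by linarith : 0 ≤ b - a)] at this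
          calc a / √(s ^ 2 - a ^ 2) * |D s b - D s a| ≤ 1 / √(s - b) * (M * (b - a)) :=
                mul_le_mul k1 k2 (abs_nonneg _) (by positivity)
            _ = M * (b - a) * (1 / √(s - b)) := by ring
        linarith)
      (i1.const_mul _)
    rw [Real.norm_eq_abs, intervalIntegral.integral_const_mul, i2] at this
    refine this.trans ?_
    have hq : √(1 - b) ≤ 1 := sq1 (by linarith)
    have : 0 ≤ 2 * M * (b - a) := mul_nonneg (by positivity) (by linarith)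
    nlinarith
  refine (abs_sub _ _).trans ?_
  linarith

end rem

/-! ## The function `Θ` -/

section theta

variable {δ : ℝ} {S : St}

lemma da_lip (hA : FactsA S) (t t' : ℝ) : |da S t - da S t'| ≤ 12 * |t - t'| := by
  have := Convex.norm_image_sub_le_of_norm_hasDerivWithin_le (f := da S) (f' := S.g) (s := univ)
    (C := 12) (x := t') (y := t) (fun x _ => (hA.da_deriv x).hasDerivWithinAt)
    (fun x _ => by rw [Real.norm_eq_abs]; exact hA.g_bd x) convex_univ (mem_univ _) (mem_univ _)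
  simpa [Real.norm_eq_abs] using this

lemma dd_lip (hA : FactsA S) (s t t' : ℝ) : |dd S s t - dd S s t'| ≤ 12 * |t - t'| := by
  have := Convex.norm_image_sub_le_of_norm_hasDerivWithin_le (f := fun b => dd S s b)
    (f' := fun b => Gm S s b) (s := univ)
    (C := 12) (x := t') (y := t) (fun x _ => (hA.dd_deriv s x).hasDerivWithinAt)
    (fun x _ => by rw [Real.norm_eq_abs]; exact hA.Gm_bd s x) convex_univ (mem_univ _) (mem_univ _)
  simpa [Real.norm_eq_abs] using this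

lemma e_abs {e : ℝ} (he : e = 1 ∨ e = -1) : |e| = 1 := by
  rcases he with h | h <;> simp [h]

lemma A_bd (h0 : 0 < δ) (h1 : δ ≤ 1 / 100) (hA : FactsA S) (hB : FactsB δ S) {e : ℝ}
    (he : e = 1 ∨ e = -1) {s : ℝ} (hs : 0 ≤ s) (hs' : s ≤ 1) (t : ℝ) :
    |xx δ S e s - e * δ ^ 3 * ab S t - 3| ≤ 6 * δ ^ 2 := by
  have k1 := hB.x_bd e he s hs hs'
  have k2 : |e * δ ^ 3 * ab S t| ≤ 8 * δ ^ 3 := by
    rw [abs_mul, abs_mul, e_abs he, abs_of_pos (by positivity : 0 < δ ^ 3)]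
    have := hA.ab_bd t
    have h3 : 0 < δ ^ 3 := by positivity
    nlinarith
  have k3 : 8 * δ ^ 3 ≤ δ ^ 2 := by nlinarith [sq_nonneg δ]
  have : xx δ S e s - e * δ ^ 3 * ab S t - 3 = (xx δ S e s - 3) - e * δ ^ 3 * ab S t := by ring
  rw [this]
  refine (abs_sub _ _).trans ?_
  linarith

lemma bd24 {δ y : ℝ} (h0 : 0 < δ) (h1 : δ ≤ 1 / 100) (h : |y - 3| ≤ 6 * δ ^ 2) :
    2 ≤ y ∧ y ≤ 4 := by
  have : 6 * δ ^ 2 ≤ 1 := by nlinarith
  rw [abs_le] at h
  constructor <;> linarith [h.1, h.2]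

lemma scal {e δ x y c : ℝ} (he : e = 1 ∨ e = -1) (h0 : 0 < δ) (h : |x - y| ≤ c) :
    |e * δ ^ 3 * x - e * δ ^ 3 * y| ≤ c * δ ^ 3 := by
  have : e * δ ^ 3 * x - e * δ ^ 3 * y = e * (δ ^ 3 * (x - y)) := by ring
  rw [this, abs_mul, abs_mul, e_abs he, abs_of_pos (by positivity : 0 < δ ^ 3)]
  have h3 : 0 < δ ^ 3 := by positivity
  nlinarith

lemma Th_lip (h0 : 0 < δ) (h1 : δ ≤ 1 / 100) (hA : FactsA S) (hB : FactsB δ S) {e : ℝ}
    (he : e = 1 ∨ e = -1) {s : ℝ} (hs : 0 ≤ s) (hs' : s ≤ 1) (t t' : ℝ) :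
    |Th δ S e s t - Th δ S e s t'| ≤ 768 * δ ^ 3 * |t - t'| := by
  unfold Th GG
  have h := phi_lip (bd24 h0 h1 (A_bd h0 h1 hA hB he hs hs' t)) (hB.P0_bd e he s t hs hs')
    (hB.P1_bd e he s t hs hs') (hB.P2_bd e he s t hs hs')
    (bd24 h0 h1 (A_bd h0 h1 hA hB he hs hs' t')) (hB.P0_bd e he s t' hs hs')
    (hB.P1_bd e he s t' hs hs') (hB.P2_bd e he s t' hs hs')
  refine h.trans ?_
  have a1 : |xx δ S e s - e * δ ^ 3 * ab S t - (xx δ S e s - e * δ ^ 3 * ab S t')|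
      ≤ 12 * |t - t'| * δ ^ 3 := by
    have : xx δ S e s - e * δ ^ 3 * ab S t - (xx δ S e s - e * δ ^ 3 * ab S t')
      = e * δ ^ 3 * ab S t' - e * δ ^ 3 * ab S t := by ring
    rw [this]
    refine scal he h0 ?_
    have := hA.ab_lip t t'
    rwa [abs_sub_comm t' t] at this
  have a2 : |P0 δ S e s t - P0 δ S e s t'| ≤ 12 * |t - t'| * δ ^ 3 := by
    have : P0 δ S e s t - P0 δ S e s t' = e * δ ^ 3 * da S t' - e * δ ^ 3 * da S t := by
      unfold P0; ring
    rw [this]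
    refine scal he h0 ?_
    have := da_lip hA t' t
    rwa [abs_sub_comm t' t] at this
  have a3 : |P1 δ S e s t - P1 δ S e s t'| ≤ 12 * |t - t'| * δ ^ 3 := by
    have : P1 δ S e s t - P1 δ S e s t' = e * δ ^ 3 * dd S s t' - e * δ ^ 3 * dd S s t := by
      unfold P1; ring
    rw [this]
    refine scal he h0 ?_
    have := dd_lip hA s t' t
    rwa [abs_sub_comm t' t] at this
  have a4 : |P2 δ S e s t - P2 δ S e s t'| ≤ 12 * |t - t'| * δ ^ 3 := by
    have : P2 δ S e s t - P2 δ S e s t' = e * δ ^ 3 * dd S s (-t') - e * δ ^ 3 * dd S s (-t) := by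
      unfold P2; ring
    rw [this]
    refine scal he h0 ?_
    have := dd_lip hA s (-t') (-t)
    have e2 : -t' - -t = t - t' := by ring
    rwa [e2] at this
  nlinarith

/-- `Θ̄` -/
noncomputable def Tb (δ : ℝ) (S : St) (e s : ℝ) : ℝ := Th δ S e s s

lemma Q_bd {z : ℝ} (h0 : 0 < δ) (h1 : δ ≤ 1 / 100) (hB : FactsB δ S) {e : ℝ}
    (he : e = 1 ∨ e = -1) {s : ℝ} (hs : 0 ≤ s) (hs' : s ≤ 1) (hz : |z| ≤ 8) :
    |xx δ S e s - e * δ ^ 3 * z - 3| ≤ 6 * δ ^ 2 := by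
  have k1 := hB.x_bd e he s hs hs'
  have k2 : |e * δ ^ 3 * z| ≤ 8 * δ ^ 3 := by
    rw [abs_mul, abs_mul, e_abs he, abs_of_pos (by positivity : 0 < δ ^ 3)]
    have h3 : 0 < δ ^ 3 := by positivity
    nlinarith
  have k3 : 8 * δ ^ 3 ≤ δ ^ 2 := by nlinarith [sq_nonneg δ]
  have : xx δ S e s - e * δ ^ 3 * z - 3 = (xx δ S e s - 3) - e * δ ^ 3 * z := by ring
  rw [this]
  refine (abs_sub _ _).trans ?_
  linarith

lemma Tb_bd (h0 : 0 < δ) (h1 : δ ≤ 1 / 100) (hA : FactsA S) (hB : FactsB δ S) {e : ℝ}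
    (he : e = 1 ∨ e = -1) {s : ℝ} (hs : 0 ≤ s) (hs' : s ≤ 1) :
    |Tb δ S e s - 9| ≤ 384 * δ ^ 2 := by
  unfold Tb Th GG
  have h := phi_lip (bd24 h0 h1 (A_bd h0 h1 hA hB he hs hs' s)) (hB.P0_bd e he s s hs hs')
    (hB.P1_bd e he s s hs hs') (hB.P2_bd e he s s hs hs')
    (A' := 3) (B' := 3) (P' := 3) (Q' := 3) (by norm_num) (by norm_num) (by norm_num) (by norm_num)
  have e3 : √((3 : ℝ) * 3) = 3 := Real.sqrt_mul_self (by norm_num)
  rw [e3] at h
  have e9 : (3 : ℝ) * 3 ^ 2 / 3 = 9 := by norm_num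
  rw [e9] at h
  refine h.trans ?_
  have a1 := A_bd h0 h1 hA hB he hs hs' s
  have a2 : |P0 δ S e s s - 3| ≤ 6 * δ ^ 2 := Q_bd h0 h1 hB he hs hs' (hA.da_bd s)
  have a3 : |P1 δ S e s s - 3| ≤ 6 * δ ^ 2 := Q_bd h0 h1 hB he hs hs' (hA.dd_bd s s)
  have a4 : |P2 δ S e s s - 3| ≤ 6 * δ ^ 2 := Q_bd h0 h1 hB he hs hs' (hA.dd_bd s (-s))
  linarith

lemma Q_lip {z z' : ℝ} (h0 : 0 < δ) (h1 : δ ≤ 1 / 100) (hB : FactsB δ S) {e : ℝ}
    (he : e = 1 ∨ e = -1) {a b : ℝ} (h0a : 0 ≤ a) (hab : a ≤ b) (hb : b ≤ 1)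
    (hz : |z' - z| ≤ 12 * (b - a)) :
    |(xx δ S e b - e * δ ^ 3 * z) - (xx δ S e a - e * δ ^ 3 * z')| ≤ 6 * δ ^ 2 * (b - a) := by
  have k1 := hB.x_lip e he a b h0a hab hb
  have k2 := scal he h0 hz
  have k3 : 12 * (b - a) * δ ^ 3 ≤ δ ^ 2 * (b - a) := by
    have : 12 * δ ^ 3 ≤ δ ^ 2 := by nlinarith [sq_nonneg δ]
    nlinarith
  have : (xx δ S e b - e * δ ^ 3 * z) - (xx δ S e a - e * δ ^ 3 * z')
      = (xx δ S e b - xx δ S e a) + (e * δ ^ 3 * z' - e * δ ^ 3 * z) := by ring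
  rw [this]
  refine (abs_add_le _ _).trans ?_
  linarith

lemma Tb_lip (h0 : 0 < δ) (h1 : δ ≤ 1 / 100) (hA : FactsA S) (hB : FactsB δ S) {e : ℝ}
    (he : e = 1 ∨ e = -1) {a b : ℝ} (h0a : 0 ≤ a) (hab : a ≤ b) (hb : b ≤ 1) :
    |Tb δ S e b - Tb δ S e a| ≤ 384 * δ ^ 2 * (b - a) := by
  unfold Tb Th GG
  have hb0 : 0 ≤ b := h0a.trans hab
  have ha1 : a ≤ 1 := hab.trans hb
  have h := phi_lip (bd24 h0 h1 (A_bd h0 h1 hA hB he hb0 hb b)) (hB.P0_bd e he b b hb0 hb)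
    (hB.P1_bd e he b b hb0 hb) (hB.P2_bd e he b b hb0 hb)
    (bd24 h0 h1 (A_bd h0 h1 hA hB he h0a ha1 a)) (hB.P0_bd e he a a h0a ha1)
    (hB.P1_bd e he a a h0a ha1) (hB.P2_bd e he a a h0a ha1)
  refine h.trans ?_
  have u1 : |ab S a - ab S b| ≤ 12 * (b - a) := by
    have := hA.ab_lip b a
    rwa [abs_sub_comm a b, abs_of_nonneg (by linarith : 0 ≤ b - a)] at this
  have u2 : |da S a - da S b| ≤ 12 * (b - a) := by
    have := da_lip hA a b
    rwa [abs_sub_comm a b, abs_of_nonneg (by linarith : 0 ≤ b - a)] at this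
  have a1 := Q_lip h0 h1 hB he h0a hab hb u1
  have a2 : |P0 δ S e b b - P0 δ S e a a| ≤ 6 * δ ^ 2 * (b - a) :=
    Q_lip h0 h1 hB he h0a hab hb u2
  have a3 : |P1 δ S e b b - P1 δ S e a a| ≤ 6 * δ ^ 2 * (b - a) := by
    unfold P1
    refine Q_lip h0 h1 hB he h0a hab hb ?_
    rw [hA.dd_self, hA.dd_self]; exact u2
  have a4 : |P2 δ S e b b - P2 δ S e a a| ≤ 6 * δ ^ 2 * (b - a) := by
    unfold P2
    refine Q_lip h0 h1 hB he h0a hab hb ?_
    rw [hA.dd_neg, hA.dd_neg]; exact u1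
  linarith

/-- continuity of `Θ(·,t)` -/
lemma Th_cont (h0 : 0 < δ) (h1 : δ ≤ 1 / 100) (hA : FactsA S) (hB : FactsB δ S) {e : ℝ}
    (he : e = 1 ∨ e = -1) (t : ℝ) : ContinuousOn (fun s => Th δ S e s t) (Icc 0 1) := by
  unfold Th GG P0 P1 P2
  have hx := hB.x_cont e
  have hd1 : Continuous fun s => dd S s t :=
    hA.dd_cont.comp (continuous_id.prodMk continuous_const)
  have hd2 : Continuous fun s => dd S s (-t) :=
    hA.dd_cont.comp (continuous_id.prodMk continuous_const)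
  refine ContinuousOn.div ?_ ?_ ?_
  · exact (hx.sub continuousOn_const).mul ((hx.sub continuousOn_const).pow 2)
  · refine ContinuousOn.sqrt ?_
    exact (hx.sub (hd1.continuousOn.const_mul _)).mul (hx.sub (hd2.continuousOn.const_mul _))
  · intro s hs
    have b1 := hB.P1_bd e he s t hs.1 hs.2
    have b2 := hB.P2_bd e he s t hs.1 hs.2
    unfold P1 at b1
    unfold P2 at b2
    exact (Real.sqrt_pos.mpr (mul_pos (by linarith [b1.1]) (by linarith [b2.1]))).ne'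

lemma Tb_cont (h0 : 0 < δ) (h1 : δ ≤ 1 / 100) (hA : FactsA S) (hB : FactsB δ S) {e : ℝ}
    (he : e = 1 ∨ e = -1) : ContinuousOn (Tb δ S e) (Icc 0 1) := by
  have : LipschitzOnWith (Real.toNNReal (384 * δ ^ 2)) (Tb δ S e) (Icc 0 1) := by
    refine LipschitzOnWith.of_dist_le_mul ?_
    intro x hx y hy
    rw [Real.coe_toNNReal _ (by positivity), Real.dist_eq, Real.dist_eq]
    rcases le_total x y with h | h
    · rw [abs_sub_comm, abs_sub_comm x y, abs_of_nonneg (by linarith : 0 ≤ y - x)]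
      exact Tb_lip h0 h1 hA hB he hx.1 h hy.2
    · rw [abs_of_nonneg (by linarith : 0 ≤ x - y)]
      exact Tb_lip h0 h1 hA hB he hy.1 h hx.2
  exact this.continuousOn

lemma uu_meas (hB : FactsB δ S) (e : ℝ) :
    AEStronglyMeasurable (uu S e) (volume.restrict (Icc 0 1)) := by
  have e1 : (Icc (0 : ℝ) 1) = Ico 0 (1 / 2) ∪ Icc (1 / 2) 1 :=
    (Ico_union_Icc_eq_Icc (by norm_num) (by norm_num)).symm
  rw [e1, aestronglyMeasurable_union_iff]
  exact ⟨(hB.u_ctL e).aestronglyMeasurable measurableSet_Ico,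
    (hB.u_ctR e).aestronglyMeasurable measurableSet_Icc⟩

lemma uu_abs (hB : FactsB δ S) {e : ℝ} (he : e = 1 ∨ e = -1) {s : ℝ} (hs : 0 ≤ s) (hs' : s ≤ 1) :
    |uu S e s| ≤ 5 := by
  have := hB.u_bd e he s hs hs'
  rw [abs_le]
  constructor <;> linarith [this.1, this.2]

end theta

/-! ## The decomposition -/

section dec

variable {δ : ℝ} {S : St}

lemma ii_div {h : ℝ → ℝ} {M t : ℝ} (ht : 0 < t) (ht1 : t ≤ 1)
    (hm : AEStronglyMeasurable h (volume.restrict (Icc 0 1)))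
    (hb : ∀ s, 0 ≤ s → s ≤ 1 → |h s| ≤ M) :
    IntervalIntegrable (fun s => h s / √(s ^ 2 - t ^ 2)) volume t 1 := by
  have hM : 0 ≤ M := (abs_nonneg _).trans (hb 1 (by norm_num) le_rfl)
  obtain ⟨i1, -⟩ := isq t 1 ht1
  refine IntervalIntegrable.mono_fun' (i1.const_mul (M / t)) ?_ ?_
  · rw [uIoc_of_le ht1]
    have hm' : AEStronglyMeasurable h (volume.restrict (Ioc t 1)) :=
      hm.mono_measure (Measure.restrict_mono
        (show Ioc t 1 ⊆ Icc 0 1 from fun s hs => ⟨by linarith [hs.1], hs.2⟩) le_rfl)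
    have hq : AEStronglyMeasurable (fun s : ℝ => √(s ^ 2 - t ^ 2)) (volume.restrict (Ioc t 1)) := by
      apply Continuous.aestronglyMeasurable
      fun_prop
    exact (hm'.aemeasurable.div hq.aemeasurable).aestronglyMeasurable
  · rw [uIoc_of_le ht1]
    refine (ae_restrict_iff' measurableSet_Ioc).mpr (Eventually.of_forall fun s hs => ?_)
    have hs1 : t < s := hs.1
    have hs2 : s ≤ 1 := hs.2
    have k := ker1 ht.le hs1 hs2
    have k2 := hb s (by linarith) hs2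
    change ‖h s / √(s ^ 2 - t ^ 2)‖ ≤ M / t * (1 / √(s - t))
    rw [Real.norm_eq_abs, abs_div, abs_of_nonneg (Real.sqrt_nonneg _)]
    calc |h s| / √(s ^ 2 - t ^ 2) = |h s| * (t / √(s ^ 2 - t ^ 2)) / t := by
          field_simp
      _ ≤ M * (1 / √(s - t)) / t := by
          refine div_le_div_of_nonneg_right ?_ ht.le
          exact mul_le_mul k2 k (by positivity) hM
      _ = M / t * (1 / √(s - t)) := by ring

/-- the part of order `δ²` -/
noncomputable def g1 (δ : ℝ) (S : St) (s : ℝ) : ℝ :=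
  uu S 1 s * (Tb δ S 1 s - 9) - uu S (-1) s * (Tb δ S (-1) s - 9)

/-- the remainder -/
noncomputable def De (δ : ℝ) (S : St) (s t : ℝ) : ℝ :=
  uu S 1 s * (Th δ S 1 s t - Tb δ S 1 s) - uu S (-1) s * (Th δ S (-1) s t - Tb δ S (-1) s)

lemma De_bd (h0 : 0 < δ) (h1 : δ ≤ 1 / 100) (hA : FactsA S) (hB : FactsB δ S) (s t : ℝ)
    (ht : 0 ≤ t) (hts : t ≤ s) (hs : s ≤ 1) : |De δ S s t| ≤ 7680 * δ ^ 3 * (s - t) := by
  have hs0 : 0 ≤ s := ht.trans hts
  unfold De Tb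
  refine (abs_sub _ _).trans ?_
  rw [abs_mul, abs_mul]
  have a1 := Th_lip h0 h1 hA hB (e := 1) (Or.inl rfl) hs0 hs t s
  have a2 := Th_lip h0 h1 hA hB (e := -1) (Or.inr rfl) hs0 hs t s
  rw [abs_sub_comm t s, abs_of_nonneg (by linarith : 0 ≤ s - t)] at a1 a2
  have b1 := uu_abs hB (e := 1) (Or.inl rfl) hs0 hs
  have b2 := uu_abs hB (e := -1) (Or.inr rfl) hs0 hs
  have c1 := mul_le_mul b1 a1 (abs_nonneg _) (by norm_num)
  have c2 := mul_le_mul b2 a2 (abs_nonneg _) (by norm_num)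
  linarith

lemma De_lip (h0 : 0 < δ) (h1 : δ ≤ 1 / 100) (hA : FactsA S) (hB : FactsB δ S) (s t t' : ℝ)
    (hs0 : 0 ≤ s) (hs : s ≤ 1) : |De δ S s t - De δ S s t'| ≤ 7680 * δ ^ 3 * |t - t'| := by
  unfold De
  have a1 := Th_lip h0 h1 hA hB (e := 1) (Or.inl rfl) hs0 hs t t'
  have a2 := Th_lip h0 h1 hA hB (e := -1) (Or.inr rfl) hs0 hs t t'
  have b1 := uu_abs hB (e := 1) (Or.inl rfl) hs0 hs
  have b2 := uu_abs hB (e := -1) (Or.inr rfl) hs0 hs
  have c1 := mul_le_mul b1 a1 (abs_nonneg _) (by norm_num)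
  have c2 := mul_le_mul b2 a2 (abs_nonneg _) (by norm_num)
  have e : uu S 1 s * (Th δ S 1 s t - Tb δ S 1 s) -
      uu S (-1) s * (Th δ S (-1) s t - Tb δ S (-1) s) -
      (uu S 1 s * (Th δ S 1 s t' - Tb δ S 1 s) -
        uu S (-1) s * (Th δ S (-1) s t' - Tb δ S (-1) s))
      = uu S 1 s * (Th δ S 1 s t - Th δ S 1 s t')
        - uu S (-1) s * (Th δ S (-1) s t - Th δ S (-1) s t') := by ring
  rw [e]
  refine (abs_sub _ _).trans ?_
  rw [abs_mul, abs_mul]
  linarith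

lemma De_meas (h0 : 0 < δ) (h1 : δ ≤ 1 / 100) (hA : FactsA S) (hB : FactsB δ S) (t : ℝ) :
    AEStronglyMeasurable (fun s => De δ S s t) (volume.restrict (Icc 0 1)) := by
  unfold De
  have c1 := (Th_cont h0 h1 hA hB (e := 1) (Or.inl rfl) t).sub
    (Tb_cont h0 h1 hA hB (e := 1) (Or.inl rfl))
  have c2 := (Th_cont h0 h1 hA hB (e := -1) (Or.inr rfl) t).sub
    (Tb_cont h0 h1 hA hB (e := -1) (Or.inr rfl))
  exact ((uu_meas hB 1).mul (c1.aestronglyMeasurable measurableSet_Icc)).sub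
    ((uu_meas hB (-1)).mul (c2.aestronglyMeasurable measurableSet_Icc))

lemma uTh_meas (h0 : 0 < δ) (h1 : δ ≤ 1 / 100) (hA : FactsA S) (hB : FactsB δ S) {e : ℝ}
    (he : e = 1 ∨ e = -1) (t : ℝ) :
    AEStronglyMeasurable (fun s => uu S e s * Th δ S e s t) (volume.restrict (Icc 0 1)) :=
  (uu_meas hB e).mul ((Th_cont h0 h1 hA hB he t).aestronglyMeasurable measurableSet_Icc)

lemma uTb_meas (h0 : 0 < δ) (h1 : δ ≤ 1 / 100) (hA : FactsA S) (hB : FactsB δ S) {e : ℝ}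
    (he : e = 1 ∨ e = -1) :
    AEStronglyMeasurable (fun s => uu S e s * (Tb δ S e s - 9)) (volume.restrict (Icc 0 1)) :=
  (uu_meas hB e).mul (((Tb_cont h0 h1 hA hB he).sub
    continuousOn_const).aestronglyMeasurable measurableSet_Icc)

lemma dec (h0 : 0 < δ) (h1 : δ ≤ 1 / 100) (hA : FactsA S) (hB : FactsB δ S) {t : ℝ}
    (ht : 0 ≤ t) (ht1 : t ≤ 1) :
    Pa δ S t - 18 * Cop (fp S.p) t =
      Cop (g1 δ S) t + ∫ s in t..1, t * (De δ S s t / √(s ^ 2 - t ^ 2)) := by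
  rcases ht.eq_or_lt with h | h
  · subst h
    simp [Pa, Cop]
  · have hfp : ∀ s, fp S.p s = (uu S 1 s - uu S (-1) s) / 2 := by
      intro s; unfold uu; ring
    -- integrability
    have bTh : ∀ e, (e = 1 ∨ e = -1) → ∀ s, 0 ≤ s → s ≤ 1 → |uu S e s * Th δ S e s t| ≤ 5 * 32 := by
      intro e he s hs hs'
      rw [abs_mul]
      have b1 := uu_abs hB he hs hs'
      have b2 : |Th δ S e s t| ≤ 32 := by
        obtain ⟨p1, p2⟩ := bd24 h0 h1 (A_bd h0 h1 hA hB he hs hs' t)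
        obtain ⟨p3, p4⟩ := hB.P0_bd e he s t hs hs'
        obtain ⟨p5, p6⟩ := hB.GG_bd e he s t hs hs'
        unfold Th
        have hG : 0 < GG δ S e s t := by linarith
        have hN : 0 ≤ (xx δ S e s - e * δ ^ 3 * ab S t) * P0 δ S e s t ^ 2 :=
          mul_nonneg (by linarith) (sq_nonneg _)
        rw [abs_of_nonneg (div_nonneg hN hG.le), div_le_iff₀ hG]
        have : (xx δ S e s - e * δ ^ 3 * ab S t) * P0 δ S e s t ^ 2 ≤ 4 * 16 :=
          mul_le_mul p2 (by nlinarith) (sq_nonneg _) (by norm_num)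
        linarith
      exact mul_le_mul b1 b2 (abs_nonneg _) (by norm_num)
    have iA : ∀ e, (e = 1 ∨ e = -1) →
        IntervalIntegrable (fun s => uu S e s * Th δ S e s t / √(s ^ 2 - t ^ 2)) volume t 1 :=
      fun e he => ii_div h ht1 (uTh_meas h0 h1 hA hB he t) (bTh e he)
    have bTb : ∀ e, (e = 1 ∨ e = -1) → ∀ s, 0 ≤ s → s ≤ 1 →
        |uu S e s * (Tb δ S e s - 9)| ≤ 5 * (384 * δ ^ 2) := by
      intro e he s hs hs'
      rw [abs_mul]
      exact mul_le_mul (uu_abs hB he hs hs') (Tb_bd h0 h1 hA hB he hs hs') (abs_nonneg _)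
        (by norm_num)
    have iG : IntervalIntegrable (fun s => g1 δ S s / √(s ^ 2 - t ^ 2)) volume t 1 := by
      refine ii_div (M := 5 * (384 * δ ^ 2) + 5 * (384 * δ ^ 2)) h ht1 ?_ ?_
      · exact (uTb_meas h0 h1 hA hB (Or.inl rfl)).sub (uTb_meas h0 h1 hA hB (Or.inr rfl))
      · intro s hs hs'
        unfold g1
        refine (abs_sub _ _).trans ?_
        exact add_le_add (bTb 1 (Or.inl rfl) s hs hs') (bTb (-1) (Or.inr rfl) s hs hs')
    have iF : IntervalIntegrable (fun s => fp S.p s / √(s ^ 2 - t ^ 2)) volume t 1 := by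
      refine ii_div (M := 5) h ht1 ?_ ?_
      · have : fp S.p = fun s => (uu S 1 s - uu S (-1) s) / 2 := funext hfp
        rw [this]
        exact (((uu_meas hB 1).sub (uu_meas hB (-1))).aemeasurable.div_const 2).aestronglyMeasurable
      · intro s hs hs'
        rw [hfp]
        have b1 := uu_abs hB (e := 1) (Or.inl rfl) hs hs'
        have b2 := uu_abs hB (e := -1) (Or.inr rfl) hs hs'
        rw [abs_le] at b1 b2 ⊢
        constructor <;> linarith [b1.1, b1.2, b2.1, b2.2]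
    have iD : IntervalIntegrable (fun s => De δ S s t / √(s ^ 2 - t ^ 2)) volume t 1 := by
      refine ii_div (M := 5 * 32 + 5 * 32 + (5 * 41 + 5 * 41)) h ht1 (De_meas h0 h1 hA hB t) ?_
      intro s hs hs'
      have e : De δ S s t = (uu S 1 s * Th δ S 1 s t - uu S (-1) s * Th δ S (-1) s t)
          - (uu S 1 s * Tb δ S 1 s - uu S (-1) s * Tb δ S (-1) s) := by
        unfold De; ring
      have bT : ∀ e, (e = 1 ∨ e = -1) → |uu S e s * Tb δ S e s| ≤ 5 * 41 := by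
        intro e he
        rw [abs_mul]
        refine mul_le_mul (uu_abs hB he hs hs') ?_ (abs_nonneg _) (by norm_num)
        have := Tb_bd h0 h1 hA hB he hs hs'
        have k : 384 * δ ^ 2 ≤ 1 := by nlinarith
        rw [abs_le] at this ⊢
        constructor <;> linarith [this.1, this.2]
      rw [e]
      refine (abs_sub _ _).trans (add_le_add ?_ ?_)
      · exact (abs_sub _ _).trans (add_le_add (bTh 1 (Or.inl rfl) s hs hs')
          (bTh (-1) (Or.inr rfl) s hs hs'))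
      · exact (abs_sub _ _).trans (add_le_add (bT 1 (Or.inl rfl)) (bT (-1) (Or.inr rfl)))
    have key : Pae δ S 1 t - Pae δ S (-1) t = 18 * Aop (fp S.p) t + Aop (g1 δ S) t
        + ∫ s in t..1, De δ S s t / √(s ^ 2 - t ^ 2) := by
      unfold Pae Aop
      rw [← intervalIntegral.integral_sub (iA 1 (Or.inl rfl)) (iA (-1) (Or.inr rfl)),
        ← intervalIntegral.integral_const_mul,
        ← intervalIntegral.integral_add (iF.const_mul 18) iG,
        ← intervalIntegral.integral_add ((iF.const_mul 18).add iG) iD]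
      refine intervalIntegral.integral_congr fun s _ => ?_
      simp only [hfp, g1, De]
      ring
    have e2 : Pa δ S t - 18 * Cop (fp S.p) t = t * (Pae δ S 1 t - Pae δ S (-1) t)
        - 18 * (t * Aop (fp S.p) t) := rfl
    rw [e2, key, intervalIntegral.integral_const_mul]
    unfold Cop
    ring

lemma sqrt_lip {a b : ℝ} (h0 : 0 ≤ a) (hab : a ≤ b) (hb : b ≤ 1) : b - a ≤ 2 * (√b - √a) := by
  have h3 : √a ≤ √b := Real.sqrt_le_sqrt hab
  have h4 : √b ≤ 1 := sq1 hb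
  have h5 : √a ^ 2 = a := Real.sq_sqrt h0
  have h6 : √b ^ 2 = b := Real.sq_sqrt (h0.trans hab)
  have h7 := Real.sqrt_nonneg a
  nlinarith

lemma half_lip {a b : ℝ} (hab : a ≤ b) : |√(b / 2) - √(a / 2)| ≤ √b - √a := by
  have e1 : ∀ x : ℝ, √(x / 2) = √x * √(1 / 2) := by
    intro x
    rw [← Real.sqrt_mul' x (by norm_num : (0 : ℝ) ≤ 1 / 2)]; congr 1; ring
  have h3 : √a ≤ √b := Real.sqrt_le_sqrt hab
  have h4 : √(1 / 2 : ℝ) ≤ 1 := sq1 (by norm_num)
  have h5 : 0 ≤ √(1 / 2 : ℝ) := Real.sqrt_nonneg _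
  rw [e1 b, e1 a, ← sub_mul, abs_mul, abs_of_nonneg (by linarith), abs_of_nonneg h5]
  nlinarith

lemma prod_inc {δ va vb Ta Tb' a b : ℝ} (hv : |va| ≤ 5) (hvi : |vb - va| ≤ 5 * (√b - √a))
    (hT : |Tb' - 9| ≤ 384 * δ ^ 2) (hTi : |Tb' - Ta| ≤ 384 * δ ^ 2 * (b - a))
    (h0 : 0 ≤ a) (hab : a ≤ b) (hb : b ≤ 1) :
    |vb * (Tb' - 9) - va * (Ta - 9)| ≤ 5760 * δ ^ 2 * (√b - √a) := by
  have e : vb * (Tb' - 9) - va * (Ta - 9) = (vb - va) * (Tb' - 9) + va * (Tb' - Ta) := by ring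
  rw [e]
  refine (abs_add_le _ _).trans ?_
  rw [abs_mul, abs_mul]
  have h3 : √a ≤ √b := Real.sqrt_le_sqrt hab
  have c1 := mul_le_mul hvi hT (abs_nonneg _) (by linarith)
  have c2 := mul_le_mul hv hTi (abs_nonneg _) (by norm_num)
  have c3 := sqrt_lip h0 hab hb
  have c4 : 384 * δ ^ 2 * (b - a) ≤ 384 * δ ^ 2 * (2 * (√b - √a)) :=
    mul_le_mul_of_nonneg_left c3 (by positivity)
  linarith

lemma g1_inc (hK2 : S_K2) (hS : Crude S) (h0 : 0 < δ) (h1 : δ ≤ 1 / 100) (hA : FactsA S)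
    (hB : FactsB δ S) {a b : ℝ} (ha : 0 ≤ a) (hab : a ≤ b) (hb : b ≤ 1) :
    |Cop (g1 δ S) b - Cop (g1 δ S) a| ≤ 17 / 2 * (11520 * δ ^ 2) * (Om b - Om a) := by
  have e : g1 δ S = fun t => if t < 1 / 2
      then (S.UL t + fL S.p t) * (Tb δ S 1 t - 9) - (S.UL t - fL S.p t) * (Tb δ S (-1) t - 9)
      else (S.UR t - bb) * (Tb δ S 1 t - 9) - (S.UR t + bb) * (Tb δ S (-1) t - 9) := by
    funext t
    unfold g1 uu St.U fp
    split_ifs <;> ring
  rw [e]
  have hp := hS.pb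
  rw [abs_le] at hp
  have vL : ∀ t, 0 ≤ t → t ≤ 1 / 2 → |S.UL t + fL S.p t| ≤ 5 ∧ |S.UL t - fL S.p t| ≤ 5 := by
    intro t ht ht'
    have hu := hS.ULb t ht ht'
    have hq : √(t / 2) ≤ 1 := sq1 (by linarith)
    have hq0 := Real.sqrt_nonneg (t / 2)
    unfold fL fL0 bb
    constructor <;> rw [abs_le] <;> constructor <;> linarith [hu.1, hu.2, hp.1, hp.2]
  have vR : ∀ t, 1 / 2 ≤ t → t ≤ 1 → |S.UR t - bb| ≤ 5 ∧ |S.UR t + bb| ≤ 5 := by
    intro t ht ht'
    have hu := hS.URb t ht ht'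
    unfold bb
    constructor <;> rw [abs_le] <;> constructor <;> linarith [hu.1, hu.2]
  have vLi : ∀ a b, 0 ≤ a → a ≤ b → b ≤ 1 / 2 →
      |(S.UL b + fL S.p b) - (S.UL a + fL S.p a)| ≤ 5 * (√b - √a) ∧
      |(S.UL b - fL S.p b) - (S.UL a - fL S.p a)| ≤ 5 * (√b - √a) := by
    intro a b ha hab hb
    have hu := hS.ULi a b ha hab hb
    have hh := half_lip hab
    have hf : |fL S.p b - fL S.p a| ≤ √b - √a := by
      have : fL S.p b - fL S.p a = -(7 * bb) * (√(b / 2) - √(a / 2)) := by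
        unfold fL fL0; ring
      rw [this, abs_mul]
      have : |(-(7 * bb))| ≤ 1 := by unfold bb; rw [abs_le]; norm_num
      calc |(-(7 * bb))| * |√(b / 2) - √(a / 2)| ≤ 1 * (√b - √a) :=
            mul_le_mul this hh (abs_nonneg _) (by norm_num)
        _ = √b - √a := one_mul _
    constructor
    · have : (S.UL b + fL S.p b) - (S.UL a + fL S.p a)
          = (S.UL b - S.UL a) + (fL S.p b - fL S.p a) := by ring
      rw [this]
      refine (abs_add_le _ _).trans ?_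
      linarith
    · have : (S.UL b - fL S.p b) - (S.UL a - fL S.p a)
          = (S.UL b - S.UL a) - (fL S.p b - fL S.p a) := by ring
      rw [this]
      refine (abs_sub _ _).trans ?_
      linarith
  have vRi : ∀ a b, 1 / 2 ≤ a → a ≤ b → b ≤ 1 →
      |(S.UR b - bb) - (S.UR a - bb)| ≤ 5 * (√b - √a) ∧
      |(S.UR b + bb) - (S.UR a + bb)| ≤ 5 * (√b - √a) := by
    intro a b ha hab hb
    have hu := hS.URi a b ha hab hb
    have h3 : √a ≤ √b := Real.sqrt_le_sqrt hab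
    constructor
    · have : (S.UR b - bb) - (S.UR a - bb) = S.UR b - S.UR a := by ring
      rw [this]; linarith
    · have : (S.UR b + bb) - (S.UR a + bb) = S.UR b - S.UR a := by ring
      rw [this]; linarith
  refine hK2 _ _ (11520 * δ ^ 2) (by positivity) ?_ ?_ ?_ ?_ a b ha hab hb
  · intro t ht ht'
    obtain ⟨v1, v2⟩ := vL t ht ht'
    have T1 := Tb_bd h0 h1 hA hB (e := 1) (Or.inl rfl) ht (by linarith)
    have T2 := Tb_bd h0 h1 hA hB (e := -1) (Or.inr rfl) ht (by linarith)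
    refine (abs_sub _ _).trans ?_
    rw [abs_mul, abs_mul]
    have c1 := mul_le_mul v1 T1 (abs_nonneg _) (by norm_num)
    have c2 := mul_le_mul v2 T2 (abs_nonneg _) (by norm_num)
    nlinarith [sq_nonneg δ]
  · intro t ht ht'
    obtain ⟨v1, v2⟩ := vR t ht ht'
    have T1 := Tb_bd h0 h1 hA hB (e := 1) (Or.inl rfl) (by linarith) ht'
    have T2 := Tb_bd h0 h1 hA hB (e := -1) (Or.inr rfl) (by linarith) ht'
    refine (abs_sub _ _).trans ?_
    rw [abs_mul, abs_mul]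
    have c1 := mul_le_mul v1 T1 (abs_nonneg _) (by norm_num)
    have c2 := mul_le_mul v2 T2 (abs_nonneg _) (by norm_num)
    nlinarith [sq_nonneg δ]
  · intro a b ha hab hb
    obtain ⟨v1, v2⟩ := vL a ha (hab.trans hb)
    obtain ⟨w1, w2⟩ := vLi a b ha hab hb
    have hb1 : b ≤ 1 := by linarith
    have hb0 : 0 ≤ b := ha.trans hab
    have p1 := prod_inc v1 w1 (Tb_bd h0 h1 hA hB (e := 1) (Or.inl rfl) hb0 hb1)
      (Tb_lip h0 h1 hA hB (e := 1) (Or.inl rfl) ha hab hb1) ha hab hb1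
    have p2 := prod_inc v2 w2 (Tb_bd h0 h1 hA hB (e := -1) (Or.inr rfl) hb0 hb1)
      (Tb_lip h0 h1 hA hB (e := -1) (Or.inr rfl) ha hab hb1) ha hab hb1
    have e3 : ∀ x y z w : ℝ, (x - y) - (z - w) = (x - z) - (y - w) := by intros; ring
    rw [e3]
    refine (abs_sub _ _).trans ?_
    linarith
  · intro a b ha hab hb
    obtain ⟨v1, v2⟩ := vR a ha (hab.trans hb)
    obtain ⟨w1, w2⟩ := vRi a b ha hab hb
    have ha0 : 0 ≤ a := by linarith
    have hb0 : 0 ≤ b := ha0.trans hab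
    have p1 := prod_inc v1 w1 (Tb_bd h0 h1 hA hB (e := 1) (Or.inl rfl) hb0 hb)
      (Tb_lip h0 h1 hA hB (e := 1) (Or.inl rfl) ha0 hab hb) ha0 hab hb
    have p2 := prod_inc v2 w2 (Tb_bd h0 h1 hA hB (e := -1) (Or.inr rfl) hb0 hb)
      (Tb_lip h0 h1 hA hB (e := -1) (Or.inr rfl) ha0 hab hb) ha0 hab hb
    have e3 : ∀ x y z w : ℝ, (x - y) - (z - w) = (x - z) - (y - w) := by intros; ring
    rw [e3]
    refine (abs_sub _ _).trans ?_
    linarith

end dec

end PAm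

/-- §4.7 -/
theorem PA (hA : S_FactsA) (hB : S_FactsB) (hK2 : S_K2) : S_PA := by
  obtain ⟨δ₁, hδ₁, hδ₁', hB⟩ := hB
  refine ⟨200000, by norm_num, δ₁, hδ₁, ?_⟩
  intro δ h0 hδ S hS a b ha hab hb
  have h1 : δ ≤ 1 / 100 := hδ.trans hδ₁'
  have fA := hA S hS
  have fB := hB δ h0 hδ S hS
  rw [PAm.dec h0 h1 fA fB (ha.trans hab) hb, PAm.dec h0 h1 fA fB ha (hab.trans hb)]
  have p1 := PAm.g1_inc hK2 hS h0 h1 fA fB ha hab hb
  have p2 := PAm.rem_lip (D := PAm.De δ S) (M := 7680 * δ ^ 3) (by positivity)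
    (PAm.De_bd h0 h1 fA fB) (PAm.De_lip h0 h1 fA fB) (PAm.De_meas h0 h1 fA fB) ha hab hb
  have p3 := PAm.om_mono ha hab hb
  have e : ∀ x y z w : ℝ, (x + y) - (z + w) = (x - z) + (y - w) := by intros; ring
  rw [e]
  refine (abs_add_le _ _).trans ?_
  have hO : 0 ≤ Om b - Om a := by linarith
  have q1 : δ ^ 2 ≤ δ := by nlinarith
  have q2 : δ ^ 3 ≤ δ := by nlinarith [sq_nonneg δ]
  have r1 : 17 / 2 * (11520 * δ ^ 2) * (Om b - Om a) ≤ 97920 * δ * (Om b - Om a) :=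
    mul_le_mul_of_nonneg_right (by linarith) hO
  have r2 : 5 * (7680 * δ ^ 3) * (b - a) ≤ 38400 * δ * (Om b - Om a) :=
    mul_le_mul (by linarith) p3 (by linarith) (by positivity)
  have r3 : 0 ≤ δ * (Om b - Om a) := mul_nonneg h0.le hO
  linarith

end Pool.Agent.HV
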