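import Pool.Agent.HV.Stmts

/-!
# Module PR: the data for the geometry exist, from the analytic statements
-/

set_option autoImplicit false

open MeasureTheory Set Filter
open scoped Real Topology

namespace Pool.Agent.HV

namespace PRPf

lemma fL_pos {p t : ℝ} (hp : |p| ≤ 1 / 1000) (ht : t ≤ 1 / 2) : 0 < fL p t := by
  have h1 : √(t / 2) ≤ 1 / 2 := by
    rw [show (1 / 2 : ℝ) = √((1 / 2) ^ 2) by rw [Real.sqrt_sq (by norm_num)]]
    apply Real.sqrt_le_sqrt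
    linarith
  have h2 := (abs_le.1 hp).1
  unfold fL fL0 bb
  linarith

/-- At a fixed point of `T` the equation for `U` holds. -/
lemma eqU {δ : ℝ} {S : St} (hp : |S.p| ≤ 1 / 1000)
    (hL : ∀ t, 0 ≤ t → t ≤ 1 / 2 → (TT δ S).UL t = S.UL t)
    (hR : ∀ t, 1 / 2 ≤ t → t ≤ 1 → (TT δ S).UR t = S.UR t) :
    ∀ t, 0 < t → t < 1 → DD δ S (uu S 1 t) (uu S (-1) t) t = 2 / π * Rhs δ S t := by
  intro t ht0 ht1
  by_cases h : t < 1 / 2
  · have h1 : uu S 1 t = S.UL t + fL S.p t := by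
      unfold uu St.U fp
      rw [if_pos h, if_pos h]
      ring
    have h2 : uu S (-1) t = S.UL t - fL S.p t := by
      unfold uu St.U fp
      rw [if_pos h, if_pos h]
      ring
    have h3 := hL t ht0.le h.le
    have h4 := fL_pos (t := t) hp h.le
    rw [h1, h2]
    simp only [TT] at h3
    have h5 : (DD δ S (S.UL t + fL S.p t) (S.UL t - fL S.p t) t - 2 / π * Rhs δ S t) /
        (2 * fL S.p t) = 0 := by linarith
    rcases div_eq_zero_iff.1 h5 with h6 | h6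
    · linarith
    · exfalso
      linarith
  · have h1 : uu S 1 t = S.UR t - bb := by
      unfold uu St.U fp
      rw [if_neg h, if_neg h]
      ring
    have h2 : uu S (-1) t = S.UR t + bb := by
      unfold uu St.U fp
      rw [if_neg h, if_neg h]
      ring
    have h3 := hR t (not_lt.1 h) ht1.le
    rw [h1, h2]
    simp only [TT] at h3
    have h5 : (DD δ S (S.UR t - bb) (S.UR t + bb) t - 2 / π * Rhs δ S t) /
        (2 * (-bb)) = 0 := by linarith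
    rcases div_eq_zero_iff.1 h5 with h6 | h6
    · linarith
    · exfalso
      unfold bb at h6
      linarith

/-- At a fixed point of `T` the equation for `γ` holds. -/
lemma eqg {δ : ℝ} {S : St} (hz : S.g 1 = 0) (hA : gA δ S 1 = 0)
    (hg : ∀ t, (TT δ S).g t = S.g t) (hp : (TT δ S).p = S.p) :
    ∀ t, 0 ≤ t → t ≤ 1 → S.g t = gA δ S t := by
  have hq : qq δ S = 0 := by
    simp only [TT] at hp
    have h1 : 64 / π * qq δ S = 0 := by linarith
    rcases mul_eq_zero.1 h1 with h2 | h2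
    · exact absurd h2 (by positivity)
    · exact h2
  intro t ht0 ht1
  rcases ht1.lt_or_eq with h | rfl
  · have h1 := hg t
    simp only [TT, oddext] at h1
    rw [if_pos ht0, if_pos h, hq] at h1
    linarith
  · rw [hz, hA]

end PRPf

open PRPf

/-- the data for the geometry exist -/
theorem PR (hTB : S_TB) (hTC : S_TC) (hFIX : S_FIX) (hFA : S_FactsA) (hFB : S_FactsB)
    (hGA : S_GA) (hE0 : S_E0) (hM0 : S_M0) (hCV : S_CV) : S_PR := by
  obtain ⟨K₁, K₂, K₃, d₁, hK₁, hK₂, hK₃, hd₁, hB⟩ := hTB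
  obtain ⟨d₂, hd₂, hC⟩ := hTC
  obtain ⟨d₃, hd₃, hd₃', hF⟩ := hFB
  obtain ⟨_, _, d₄, hd₄, hG⟩ := hGA
  obtain ⟨d₅, hd₅, hE⟩ := hE0
  obtain ⟨d₆, hd₆, hM⟩ := hM0
  obtain ⟨d₇, hd₇, hV⟩ := hCV K₁ K₂ K₃ hK₁.le hK₂.le hK₃.le
  obtain ⟨δ, h0, h1, h2, h3, h4, h5, h6, h7⟩ : ∃ δ : ℝ, 0 < δ ∧ δ ≤ d₁ ∧ δ ≤ d₂ ∧ δ ≤ d₃ ∧
      δ ≤ d₄ ∧ δ ≤ d₅ ∧ δ ≤ d₆ ∧ δ ≤ d₇ := by
    refine ⟨min d₁ (min d₂ (min d₃ (min d₄ (min d₅ (min d₆ d₇))))), ?_, ?_⟩
    · simp only [lt_min_iff]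
      exact ⟨hd₁, hd₂, hd₃, hd₄, hd₅, hd₆, hd₇⟩
    · have := le_refl (min d₁ (min d₂ (min d₃ (min d₄ (min d₅ (min d₆ d₇))))))
      simp only [le_min_iff] at this
      exact this
  have hδ : δ ≤ 1 / 100 := h3.trans hd₃'
  obtain ⟨hcr, hbb⟩ := hB δ h0 h1
  obtain ⟨S, hS, hL, hR, hg, hp⟩ := hFIX K₁ K₂ K₃ δ hK₁.le hK₂.le hK₃.le h0.le (TT δ) hbb
    (fun Sn S hn hS hc => hC δ h0 h2 Sn S (fun n => hcr _ (hn n)) (hcr _ hS) hc)
  have hc := hcr S hS
  have fA := hFA S hc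
  have fB := hF δ h0 h3 S hc
  have hga := (hG δ h0 h4 S hc).2.1
  have hgg := eqg (hc.gz 1 le_rfl) hga hg hp
  have hUU := eqU hc.pb hL hR
  have hcv := hV δ h0 h7 S hc hS
  refine ⟨δ, fun t => δ ^ 3 * al S t, fun t => δ ^ 3 * da S t, xx δ S, uu S, ?_⟩
  constructor
  · exact h0
  · exact hδ
  · intro t
    exact (fA.al_deriv t).const_mul _
  · exact continuous_const.mul
      (continuous_iff_continuousAt.2 fun t => (fA.da_deriv t).continuousAt)
  · intro t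
    rw [fA.al_odd t]
    ring
  · intro t ht
    rw [fA.al_zero t ht, mul_zero]
  · intro t
    have h8 := fA.da_bd t
    have h9 : δ ^ 3 ≤ (1 / 100) ^ 3 := pow_le_pow_left₀ h0.le hδ 3
    have h10 : 0 ≤ δ ^ 3 := by positivity
    rw [abs_mul, abs_of_nonneg h10]
    calc δ ^ 3 * |da S t| ≤ (1 / 100) ^ 3 * 8 :=
          mul_le_mul h9 h8 (abs_nonneg _) (by norm_num)
      _ ≤ 1 / 10 := by norm_num
  · exact fB.x_one
  · exact fB.x_cont
  · intro e _ t ht0 ht1 ht2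
    exact fB.x_deriv e t ht0 ht1 ht2
  · exact fB.u_ctL
  · exact fB.u_ctR
  · exact fB.u_bd
  · exact hcv.1
  · exact hM δ h0 h6 S hc hgg
  · exact hE δ h0 h5 S hc hUU
  · exact hcv.2

end Pool.Agent.HV
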