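import Pool.Agent.HV.Stmts

/-!
# Estimates of `Q'` (module QE, §4.3)
-/

set_option autoImplicit false

open MeasureTheory Set Filter
open scoped Real Topology ENNReal

namespace Pool.Agent.HV

namespace QEaux

/-! ### Two integrals -/

/-- the majorant in `r` -/
noncomputable def mj (c r : ℝ) : ℝ := 1 / (((r - 3) + 2 * c) * √((r - 3) + 2 * c))

lemma mj_nonneg {c r : ℝ} : 0 ≤ mj c r := by
  unfold mj
  rcases le_total 0 ((r - 3) + 2 * c) with h | h
  · positivity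
  · rw [Real.sqrt_eq_zero_of_nonpos h]
    simp

lemma mj_lint {c R : ℝ} (hc : 0 < c) (hR : 3 ≤ R) :
    ∫⁻ r in Ioc 3 R, ENNReal.ofReal (mj c r) ≤ ENNReal.ofReal (2 / √(2 * c)) := by
  have pos : ∀ r ∈ Icc 3 R, 0 < (r - 3) + 2 * c := by
    intro r hr
    have := hr.1
    linarith
  have hcont : ContinuousOn (mj c) (Icc 3 R) := by
    unfold mj
    apply ContinuousOn.div continuousOn_const
    · fun_prop
    · intro r hr
      have h1 := pos r hr
      have h2 := Real.sqrt_pos.2 h1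
      positivity
  have hd : ∀ r ∈ uIcc 3 R, HasDerivAt (fun r => -2 / √((r - 3) + 2 * c)) (mj c r) r := by
    intro r hr
    rw [uIcc_of_le hR] at hr
    have h1 := pos r hr
    have h2 := Real.sqrt_pos.2 h1
    have h3 : HasDerivAt (fun r : ℝ => √((r - 3) + 2 * c)) (1 / (2 * √((r - 3) + 2 * c))) r := by
      apply HasDerivAt.sqrt
      · exact ((hasDerivAt_id' r).sub_const 3).add_const _
      · exact h1.ne'
    have h4 := (h3.inv h2.ne').const_mul (-2)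
    refine (h4.congr_deriv ?_).congr_of_eventuallyEq (Eventually.of_forall fun x => ?_)
    · unfold mj
      have h5 : √((r - 3) + 2 * c) ^ 2 = (r - 3) + 2 * c := Real.sq_sqrt h1.le
      rw [h5]
      field_simp
    · simp [div_eq_mul_inv]
  have hint : IntervalIntegrable (mj c) volume 3 R := by
    apply ContinuousOn.intervalIntegrable
    rwa [uIcc_of_le hR]
  have h1 := intervalIntegral.integral_eq_sub_of_hasDerivAt hd hint
  rw [← ofReal_integral_eq_lintegral_ofReal]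
  · rw [← intervalIntegral.integral_of_le hR, h1]
    apply ENNReal.ofReal_le_ofReal
    have h2 : 0 < √((R - 3) + 2 * c) := Real.sqrt_pos.2 (pos R ⟨hR, le_rfl⟩)
    have h3 : 0 ≤ 2 / √((R - 3) + 2 * c) := by positivity
    have h4 : -2 / √((R - 3) + 2 * c) = -(2 / √((R - 3) + 2 * c)) := by ring
    have h5 : -2 / √((3 : ℝ) - 3 + 2 * c) = -(2 / √(2 * c)) := by
      rw [sub_self, zero_add]
      ring
    rw [h4, h5]
    linarith
  · exact (intervalIntegrable_iff_integrableOn_Ioc_of_le hR).1 hint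
  · exact Eventually.of_forall fun r => mj_nonneg

lemma sq_lint {a b : ℝ} (hab : a ≤ b) (hb : b < 1) :
    ∫⁻ t in Ioo a b, ENNReal.ofReal (1 / √(1 - t)) ≤
      ENNReal.ofReal (2 * (√(1 - a) - √(1 - b))) := by
  have hcont : ContinuousOn (fun t : ℝ => 1 / √(1 - t)) (Icc a b) := by
    apply ContinuousOn.div continuousOn_const
    · fun_prop
    · intro t ht
      have : 0 < 1 - t := by linarith [ht.2]
      exact (Real.sqrt_pos.2 this).ne'
  have hd : ∀ t ∈ uIcc a b, HasDerivAt (fun t => -2 * √(1 - t)) (1 / √(1 - t)) t := by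
    intro t ht
    rw [uIcc_of_le hab] at ht
    have h1 : 0 < 1 - t := by linarith [ht.2]
    have h2 := Real.sqrt_pos.2 h1
    have h3 : HasDerivAt (fun t : ℝ => √(1 - t)) (-1 / (2 * √(1 - t))) t := by
      apply HasDerivAt.sqrt
      · exact (hasDerivAt_id' t).const_sub 1
      · exact h1.ne'
    refine (h3.const_mul (-2)).congr_deriv ?_
    field_simp
  have hint : IntervalIntegrable (fun t : ℝ => 1 / √(1 - t)) volume a b := by
    apply ContinuousOn.intervalIntegrable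
    rwa [uIcc_of_le hab]
  have h1 := intervalIntegral.integral_eq_sub_of_hasDerivAt hd hint
  rw [← ofReal_integral_eq_lintegral_ofReal]
  · rw [← integral_Ioc_eq_integral_Ioo, ← intervalIntegral.integral_of_le hab, h1]
    apply ENNReal.ofReal_le_ofReal
    linarith
  · exact (intervalIntegrable_iff_integrableOn_Ioo_of_le hab).1 hint
  · exact Eventually.of_forall fun r => by positivity

/-- from the integral of `|f - g|` to the difference of the integrals -/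
lemma diff_le {f g : ℝ → ℝ} {R M : ℝ} (hR : 3 ≤ R) (hf : IntervalIntegrable f volume 3 R)
    (hg : IntervalIntegrable g volume 3 R) (hM : 0 ≤ M)
    (h : ∫⁻ r in Ioc 3 R, ENNReal.ofReal |f r - g r| ≤ ENNReal.ofReal M) :
    |(∫ r in (3 : ℝ)..R, f r) - ∫ r in (3 : ℝ)..R, g r| ≤ M := by
  rw [← intervalIntegral.integral_sub hf hg, intervalIntegral.integral_of_le hR,
    ← Real.norm_eq_abs]
  refine (norm_integral_le_lintegral_norm _).trans ?_
  apply ENNReal.toReal_le_of_le_ofReal hM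
  simpa only [Real.norm_eq_abs] using h

/-! ### Algebra -/

lemma alg {x t a a1 a2 u u' v : ℝ} (hx0 : 0 ≤ x) (hx : x ≤ 3) (ht0 : 0 ≤ t) (ht : t ≤ 1)
    (ha : |a| ≤ 1) (ha1 : |a1| ≤ 1) (hu0 : 0 < u) (hu : u ≤ v) (hu0' : 0 < u') (hu' : u' ≤ v)
    (huu : u ^ 2 - u' ^ 2 = -(4 * t * x * a) * (u ^ 2 * u' ^ 2)) :
    |(-(2 * a2) * (x - a1) * (t * x - a) * u ^ 3 +
        ((x - a1) ^ 3 * u ^ 3 + 3 * (x - a1) ^ 3 * (t * x - a) ^ 2 * u ^ 5)) +
      (-(2 * a2) * (x + a1) * (t * x + a) * u' ^ 3 -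
        ((x + a1) ^ 3 * u' ^ 3 + 3 * (x + a1) ^ 3 * (t * x + a) ^ 2 * u' ^ 5))| ≤
      64 * |a2| * v ^ 3 + 96 * |a1| * v ^ 3 + 4608 * |a| * v ^ 5 + 4608 * |a1| * v ^ 5 +
        184320 * |a| * v ^ 7 := by
  have hv : 0 < v := hu0.trans_le hu
  set X := x - a1 with hX
  set X' := x + a1 with hX'
  set y := t * x - a with hy
  set y' := t * x + a with hy'
  have htx0 : 0 ≤ t * x := mul_nonneg ht0 hx0
  have htx : t * x ≤ 3 := by nlinarith
  have bX : |X| ≤ 4 := by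
    rw [abs_le] at ha1 ⊢
    constructor <;> linarith
  have bX' : |X'| ≤ 4 := by
    rw [abs_le] at ha1 ⊢
    constructor <;> linarith
  have by0 : |y| ≤ 4 := by
    rw [abs_le] at ha ⊢
    constructor <;> linarith
  have by1 : |y'| ≤ 4 := by
    rw [abs_le] at ha ⊢
    constructor <;> linarith
  have bu : |u| ≤ v := by rwa [abs_of_pos hu0]
  have bu' : |u'| ≤ v := by rwa [abs_of_pos hu0']
  have a0 := abs_nonneg a
  have a10 := abs_nonneg a1
  have a20 := abs_nonneg a2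
  -- u - u'
  have d0 : |u - u'| ≤ 12 * |a| * v ^ 3 := by
    have h1 : |u - u'| * (u + u') = |u ^ 2 - u' ^ 2| := by
      rw [show u ^ 2 - u' ^ 2 = (u - u') * (u + u') by ring, abs_mul,
        abs_of_pos (show 0 < u + u' by linarith)]
    have h2 : |u ^ 2 - u' ^ 2| ≤ 12 * |a| * (u ^ 2 * u' ^ 2) := by
      rw [huu, abs_mul, abs_neg, abs_mul, abs_of_nonneg (show 0 ≤ 4 * t * x by nlinarith),
        abs_of_nonneg (show 0 ≤ u ^ 2 * u' ^ 2 by positivity)]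
      apply mul_le_mul_of_nonneg_right _ (by positivity)
      apply mul_le_mul_of_nonneg_right _ a0
      nlinarith
    have h3 : u ^ 2 * u' ^ 2 ≤ v ^ 3 * (u + u') := by
      have h4 : u * (u' ^ 2) ≤ v * v ^ 2 :=
        mul_le_mul hu (pow_le_pow_left₀ hu0'.le hu' 2) (by positivity) hv.le
      have h5 : u * (u * u' ^ 2) ≤ u * (v * v ^ 2) := mul_le_mul_of_nonneg_left h4 hu0.le
      have h6 : 0 ≤ v ^ 3 * u' := by positivity
      nlinarith
    have h7 : |u - u'| * (u + u') ≤ (12 * |a| * v ^ 3) * (u + u') := by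
      rw [h1]
      refine h2.trans ?_
      calc 12 * |a| * (u ^ 2 * u' ^ 2) ≤ 12 * |a| * (v ^ 3 * (u + u')) :=
            mul_le_mul_of_nonneg_left h3 (by positivity)
        _ = (12 * |a| * v ^ 3) * (u + u') := by ring
    exact le_of_mul_le_mul_right h7 (by linarith)
  have p2 : ∀ z : ℝ, |z| ≤ v → ∀ n : ℕ, |z ^ n| ≤ v ^ n := by
    intro z hz n
    rw [abs_pow]
    exact pow_le_pow_left₀ (abs_nonneg _) hz n
  have d3 : |u ^ 3 - u' ^ 3| ≤ 36 * |a| * v ^ 5 := by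
    rw [show u ^ 3 - u' ^ 3 = (u - u') * (u ^ 2 + u * u' + u' ^ 2) by ring, abs_mul]
    have h1 : |u ^ 2 + u * u' + u' ^ 2| ≤ 3 * v ^ 2 := by
      rw [abs_of_nonneg (by positivity)]
      nlinarith
    calc |u - u'| * |u ^ 2 + u * u' + u' ^ 2| ≤ (12 * |a| * v ^ 3) * (3 * v ^ 2) :=
          mul_le_mul d0 h1 (abs_nonneg _) (by positivity)
      _ = 36 * |a| * v ^ 5 := by ring
  have d5 : |u ^ 5 - u' ^ 5| ≤ 60 * |a| * v ^ 7 := by
    rw [show u ^ 5 - u' ^ 5 = (u - u') * (u ^ 4 + u ^ 3 * u' + u ^ 2 * u' ^ 2 + u * u' ^ 3 +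
      u' ^ 4) by ring, abs_mul]
    have h1 : |u ^ 4 + u ^ 3 * u' + u ^ 2 * u' ^ 2 + u * u' ^ 3 + u' ^ 4| ≤ 5 * v ^ 4 := by
      rw [abs_of_nonneg (by positivity)]
      have q : ∀ i j : ℕ, u ^ i * u' ^ j ≤ v ^ i * v ^ j := fun i j =>
        mul_le_mul (pow_le_pow_left₀ hu0.le hu i) (pow_le_pow_left₀ hu0'.le hu' j) (by positivity)
          (by positivity)
      have q0 := q 4 0
      have q1 := q 3 1
      have q2 := q 2 2
      have q3 := q 1 3
      have q4 := q 0 4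
      simp only [pow_zero, mul_one, one_mul, pow_one] at q0 q1 q2 q3 q4
      have e1 : v ^ 3 * v = v ^ 4 := by ring
      have e2 : v ^ 2 * v ^ 2 = v ^ 4 := by ring
      have e3 : v * v ^ 3 = v ^ 4 := by ring
      linarith
    calc |u - u'| * |u ^ 4 + u ^ 3 * u' + u ^ 2 * u' ^ 2 + u * u' ^ 3 + u' ^ 4|
        ≤ (12 * |a| * v ^ 3) * (5 * v ^ 4) := mul_le_mul d0 h1 (abs_nonneg _) (by positivity)
      _ = 60 * |a| * v ^ 7 := by ring
  have dX : |X ^ 3 - X' ^ 3| ≤ 96 * |a1| := by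
    rw [show X ^ 3 - X' ^ 3 = (X - X') * (X ^ 2 + X * X' + X' ^ 2) by ring, abs_mul]
    have h1 : |X - X'| = 2 * |a1| := by
      rw [show X - X' = -(2 * a1) by rw [hX, hX']; ring, abs_neg, abs_mul]
      norm_num
    have h2 : |X ^ 2 + X * X' + X' ^ 2| ≤ 48 := by
      have h3 : |X| * |X'| ≤ 4 * 4 := mul_le_mul bX bX' (abs_nonneg _) (by norm_num)
      have h4 : X ^ 2 ≤ 16 := by
        rw [← sq_abs]
        nlinarith [abs_nonneg X]
      have h5 : X' ^ 2 ≤ 16 := by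
        rw [← sq_abs]
        nlinarith [abs_nonneg X']
      have h6 : |X * X'| ≤ 16 := by rw [abs_mul]; linarith
      rw [abs_le] at h6 ⊢
      constructor <;> nlinarith [sq_nonneg X, sq_nonneg X']
    rw [h1]
    nlinarith
  have dy : |y ^ 2 - y' ^ 2| ≤ 12 * |a| := by
    rw [show y ^ 2 - y' ^ 2 = -(4 * (t * x)) * a by rw [hy, hy']; ring, abs_mul, abs_neg,
      abs_of_nonneg (by linarith)]
    apply mul_le_mul_of_nonneg_right _ a0
    linarith
  have bX3 : |X' ^ 3| ≤ 64 := by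
    rw [abs_pow]
    calc |X'| ^ 3 ≤ 4 ^ 3 := pow_le_pow_left₀ (abs_nonneg _) bX' 3
      _ = 64 := by norm_num
  have bX3' : |X ^ 3| ≤ 64 := by
    rw [abs_pow]
    calc |X| ^ 3 ≤ 4 ^ 3 := pow_le_pow_left₀ (abs_nonneg _) bX 3
      _ = 64 := by norm_num
  have by2 : |y ^ 2| ≤ 16 := by
    rw [abs_pow]
    calc |y| ^ 2 ≤ 4 ^ 2 := pow_le_pow_left₀ (abs_nonneg _) by0 2
      _ = 16 := by norm_num
  have by2' : |y' ^ 2| ≤ 16 := by
    rw [abs_pow]
    calc |y'| ^ 2 ≤ 4 ^ 2 := pow_le_pow_left₀ (abs_nonneg _) by1 2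
      _ = 16 := by norm_num
  have t1 : |-(2 * a2) * X * y * u ^ 3| ≤ 32 * |a2| * v ^ 3 := by
    rw [abs_mul, abs_mul, abs_mul, abs_neg, abs_mul, abs_of_pos (by norm_num : (0 : ℝ) < 2)]
    have h1 : 2 * |a2| * |X| ≤ 2 * |a2| * 4 := mul_le_mul_of_nonneg_left bX (by positivity)
    have h2 : 2 * |a2| * |X| * |y| ≤ 2 * |a2| * 4 * 4 :=
      mul_le_mul h1 by0 (abs_nonneg _) (by positivity)
    have h3 : 2 * |a2| * |X| * |y| * |u ^ 3| ≤ 2 * |a2| * 4 * 4 * v ^ 3 :=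
      mul_le_mul h2 (p2 u bu 3) (abs_nonneg _) (by positivity)
    linarith
  have t2 : |-(2 * a2) * X' * y' * u' ^ 3| ≤ 32 * |a2| * v ^ 3 := by
    rw [abs_mul, abs_mul, abs_mul, abs_neg, abs_mul, abs_of_pos (by norm_num : (0 : ℝ) < 2)]
    have h1 : 2 * |a2| * |X'| ≤ 2 * |a2| * 4 := mul_le_mul_of_nonneg_left bX' (by positivity)
    have h2 : 2 * |a2| * |X'| * |y'| ≤ 2 * |a2| * 4 * 4 :=
      mul_le_mul h1 by1 (abs_nonneg _) (by positivity)
    have h3 : 2 * |a2| * |X'| * |y'| * |u' ^ 3| ≤ 2 * |a2| * 4 * 4 * v ^ 3 :=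
      mul_le_mul h2 (p2 u' bu' 3) (abs_nonneg _) (by positivity)
    linarith
  have t3 : |(X ^ 3 - X' ^ 3) * u ^ 3| ≤ 96 * |a1| * v ^ 3 := by
    rw [abs_mul]
    exact mul_le_mul dX (p2 u bu 3) (abs_nonneg _) (by positivity)
  have t4 : |X' ^ 3 * (u ^ 3 - u' ^ 3)| ≤ 2304 * |a| * v ^ 5 := by
    rw [abs_mul]
    calc |X' ^ 3| * |u ^ 3 - u' ^ 3| ≤ 64 * (36 * |a| * v ^ 5) :=
          mul_le_mul bX3 d3 (abs_nonneg _) (by norm_num)
      _ = 2304 * |a| * v ^ 5 := by ring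
  have t5 : |3 * (X ^ 3 - X' ^ 3) * y ^ 2 * u ^ 5| ≤ 4608 * |a1| * v ^ 5 := by
    rw [abs_mul, abs_mul, abs_mul, abs_of_pos (by norm_num : (0 : ℝ) < 3)]
    calc 3 * |X ^ 3 - X' ^ 3| * |y ^ 2| * |u ^ 5| ≤ 3 * (96 * |a1|) * 16 * v ^ 5 := by
          apply mul_le_mul _ (p2 u bu 5) (abs_nonneg _) (by positivity)
          apply mul_le_mul _ by2 (abs_nonneg _) (by positivity)
          exact mul_le_mul_of_nonneg_left dX (by norm_num)
      _ = 4608 * |a1| * v ^ 5 := by ring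
  have t6 : |3 * X' ^ 3 * (y ^ 2 - y' ^ 2) * u ^ 5| ≤ 2304 * |a| * v ^ 5 := by
    rw [abs_mul, abs_mul, abs_mul, abs_of_pos (by norm_num : (0 : ℝ) < 3)]
    calc 3 * |X' ^ 3| * |y ^ 2 - y' ^ 2| * |u ^ 5| ≤ 3 * 64 * (12 * |a|) * v ^ 5 := by
          apply mul_le_mul _ (p2 u bu 5) (abs_nonneg _) (by positivity)
          apply mul_le_mul _ dy (abs_nonneg _) (by positivity)
          exact mul_le_mul_of_nonneg_left bX3 (by norm_num)
      _ = 2304 * |a| * v ^ 5 := by ring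
  have t7 : |3 * X' ^ 3 * y' ^ 2 * (u ^ 5 - u' ^ 5)| ≤ 184320 * |a| * v ^ 7 := by
    rw [abs_mul, abs_mul, abs_mul, abs_of_pos (by norm_num : (0 : ℝ) < 3)]
    calc 3 * |X' ^ 3| * |y' ^ 2| * |u ^ 5 - u' ^ 5| ≤ 3 * 64 * 16 * (60 * |a| * v ^ 7) := by
          apply mul_le_mul _ d5 (abs_nonneg _) (by positivity)
          apply mul_le_mul _ by2' (abs_nonneg _) (by positivity)
          exact mul_le_mul_of_nonneg_left bX3 (by norm_num)
      _ = 184320 * |a| * v ^ 7 := by ring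
  have e : (-(2 * a2) * X * y * u ^ 3 + (X ^ 3 * u ^ 3 + 3 * X ^ 3 * y ^ 2 * u ^ 5)) +
      (-(2 * a2) * X' * y' * u' ^ 3 - (X' ^ 3 * u' ^ 3 + 3 * X' ^ 3 * y' ^ 2 * u' ^ 5)) =
      -(2 * a2) * X * y * u ^ 3 + (-(2 * a2) * X' * y' * u' ^ 3) + (X ^ 3 - X' ^ 3) * u ^ 3 +
      X' ^ 3 * (u ^ 3 - u' ^ 3) + 3 * (X ^ 3 - X' ^ 3) * y ^ 2 * u ^ 5 +
      3 * X' ^ 3 * (y ^ 2 - y' ^ 2) * u ^ 5 + 3 * X' ^ 3 * y' ^ 2 * (u ^ 5 - u' ^ 5) := by ring
  rw [e]
  refine (abs_add_le _ _).trans ?_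
  have s6 := abs_add_le (-(2 * a2) * X * y * u ^ 3 + (-(2 * a2) * X' * y' * u' ^ 3) +
    (X ^ 3 - X' ^ 3) * u ^ 3 + X' ^ 3 * (u ^ 3 - u' ^ 3) + 3 * (X ^ 3 - X' ^ 3) * y ^ 2 * u ^ 5)
    (3 * X' ^ 3 * (y ^ 2 - y' ^ 2) * u ^ 5)
  have s5 := abs_add_le (-(2 * a2) * X * y * u ^ 3 + (-(2 * a2) * X' * y' * u' ^ 3) +
    (X ^ 3 - X' ^ 3) * u ^ 3 + X' ^ 3 * (u ^ 3 - u' ^ 3)) (3 * (X ^ 3 - X' ^ 3) * y ^ 2 * u ^ 5)
  have s4 := abs_add_le (-(2 * a2) * X * y * u ^ 3 + (-(2 * a2) * X' * y' * u' ^ 3) +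
    (X ^ 3 - X' ^ 3) * u ^ 3) (X' ^ 3 * (u ^ 3 - u' ^ 3))
  have s3 := abs_add_le (-(2 * a2) * X * y * u ^ 3 + (-(2 * a2) * X' * y' * u' ^ 3))
    ((X ^ 3 - X' ^ 3) * u ^ 3)
  have s2 := abs_add_le (-(2 * a2) * X * y * u ^ 3) (-(2 * a2) * X' * y' * u' ^ 3)
  linarith

/-! ### The integrands -/

/-- the second term of the integrand of `Q'` -/
noncomputable def Tq (δ : ℝ) (S : St) (e t r : ℝ) : ℝ :=
  e * (xr δ r - e * δ ^ 3 * da S t) ^ 2 * yr δ S e t r / wr δ S e t r ^ 3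

/-- its derivative in `t` -/
noncomputable def dTq (δ : ℝ) (S : St) (e t r : ℝ) : ℝ :=
  -(2 * (δ ^ 3 * S.g t)) * (xr δ r - e * δ ^ 3 * da S t) * yr δ S e t r *
      (1 / wr δ S e t r) ^ 3 +
    e * ((xr δ r - e * δ ^ 3 * da S t) ^ 3 * (1 / wr δ S e t r) ^ 3 +
      3 * (xr δ r - e * δ ^ 3 * da S t) ^ 3 * yr δ S e t r ^ 2 * (1 / wr δ S e t r) ^ 5)

variable {δ : ℝ} {S : St}

lemma xr_bd (hδ : 0 < δ) {r : ℝ} (h3 : 3 ≤ r) (hr : r ≤ Rh δ) : 0 ≤ xr δ r ∧ xr δ r ≤ 3 := by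
  unfold xr
  unfold Rh at hr
  have h1 : δ * (r - 3) ≤ 4 := by
    have h2 : r - 3 ≤ 4 / δ := by linarith
    calc δ * (r - 3) ≤ δ * (4 / δ) := mul_le_mul_of_nonneg_left h2 hδ.le
      _ = 4 := by field_simp
  have h2 : 0 ≤ δ * (r - 3) := mul_nonneg hδ.le (by linarith)
  constructor <;> nlinarith

lemma Rh_ge (hδ : 0 < δ) : 3 ≤ Rh δ := by
  unfold Rh
  have : 0 < 4 / δ := by positivity
  linarith

/-- positivity and lower bound for `w` -/
lemma w_facts (B : FactsB δ S) {e t r : ℝ} (he : e = 1 ∨ e = -1) (ht0 : 0 ≤ t) (ht1 : t ≤ 1)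
    (h3 : 3 ≤ r) (hr : r ≤ Rh δ) (hW : 0 < (r - 3) + 2 * (1 - t)) :
    0 < r ^ 2 - yr δ S e t r ^ 2 ∧ 0 < wr δ S e t r ∧
      wr δ S e t r ^ 2 = r ^ 2 - yr δ S e t r ^ 2 ∧
      1 / wr δ S e t r ≤ 1 / √(r * ((r - 3) + 2 * (1 - t))) := by
  have h1 := B.wr_lb e he t r ht0 ht1 h3 hr
  have h2 : 0 < r * ((r - 3) + 2 * (1 - t)) := mul_pos (by linarith) hW
  have h4 : 0 < r ^ 2 - yr δ S e t r ^ 2 := h2.trans_le h1
  refine ⟨h4, Real.sqrt_pos.2 h4, Real.sq_sqrt h4.le, ?_⟩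
  exact one_div_le_one_div_of_le (Real.sqrt_pos.2 h2) (Real.sqrt_le_sqrt h1)

lemma yr_deriv (A : FactsA S) (e t r : ℝ) :
    HasDerivAt (fun t => yr δ S e t r) (xr δ r - e * δ ^ 3 * da S t) t := by
  unfold yr
  have h1 := ((hasDerivAt_id' t).mul_const (xr δ r)).sub ((A.al_deriv t).const_mul (e * δ ^ 3))
  refine h1.congr_deriv ?_
  ring

lemma X_deriv (A : FactsA S) (e t r : ℝ) :
    HasDerivAt (fun t => xr δ r - e * δ ^ 3 * da S t) (-(e * δ ^ 3 * S.g t)) t :=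
  ((A.da_deriv t).const_mul (e * δ ^ 3)).const_sub (xr δ r)

lemma wr_deriv (A : FactsA S) {e t r : ℝ} (h : 0 < r ^ 2 - yr δ S e t r ^ 2) :
    HasDerivAt (fun t => wr δ S e t r)
      (-(yr δ S e t r * (xr δ r - e * δ ^ 3 * da S t) / wr δ S e t r)) t := by
  unfold wr
  have h1 := (((yr_deriv (δ := δ) A e t r).fun_pow 2).const_sub (r ^ 2)).sqrt h.ne'
  refine h1.congr_deriv ?_
  have h2 := (Real.sqrt_pos.2 h).ne'
  field_simp
  norm_num
  ring

lemma Tq_deriv (A : FactsA S) {e t r : ℝ} (he : e = 1 ∨ e = -1)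
    (h : 0 < r ^ 2 - yr δ S e t r ^ 2) :
    HasDerivAt (fun t => Tq δ S e t r) (dTq δ S e t r) t := by
  have hw : 0 < wr δ S e t r := Real.sqrt_pos.2 h
  have h1 := ((((X_deriv (δ := δ) A e t r).fun_pow 2).const_mul e).fun_mul
    (yr_deriv (δ := δ) A e t r)).fun_div ((wr_deriv A h).fun_pow 3) (pow_pos hw 3).ne'
  have he2 : e * e = 1 := by rcases he with rfl | rfl <;> norm_num
  unfold Tq
  refine h1.congr_deriv ?_
  unfold dTq
  have hw' := hw.ne'
  generalize wr δ S e t r = w at *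
  generalize hX : xr δ r - e * δ ^ 3 * da S t = X at *
  generalize yr δ S e t r = y at *
  have e1 : -(2 * (δ ^ 3 * S.g t)) * X * y * (1 / w) ^ 3 =
      -(2 * (δ ^ 3 * S.g t)) * (e * e) * X * y * (1 / w) ^ 3 := by rw [he2]; ring
  rw [e1]
  norm_num
  field_simp
  ring

lemma rw_deriv (A : FactsA S) {e t r : ℝ} (h : 0 < r ^ 2 - yr δ S e t r ^ 2) :
    HasDerivAt (fun t => r / wr δ S e t r)
      (r * (yr δ S e t r * (xr δ r - e * δ ^ 3 * da S t) * (1 / wr δ S e t r) ^ 3)) t := by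
  have hw : 0 < wr δ S e t r := Real.sqrt_pos.2 h
  have h1 := ((wr_deriv A h).inv hw.ne').const_mul r
  refine (h1.congr_deriv ?_).congr_of_eventuallyEq (Eventually.of_forall fun x => ?_)
  · have hw' := hw.ne'
    generalize wr δ S e t r = w at *
    field_simp
  · simp [div_eq_mul_inv]

lemma mj_ge {c r : ℝ} (hr : 3 ≤ r) (hW : 0 < (r - 3) + 2 * c) :
    r * (1 / √(r * ((r - 3) + 2 * c))) ^ 3 ≤ mj c r := by
  unfold mj
  set W := (r - 3) + 2 * c with hWd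
  have hr0 : 0 < r := by linarith
  have h1 : 0 < r * W := mul_pos hr0 hW
  have h2 : 0 < √(r * W) := Real.sqrt_pos.2 h1
  have h3 : 0 < √W := Real.sqrt_pos.2 hW
  have h4 : √W ≤ √(r * W) := Real.sqrt_le_sqrt (by nlinarith)
  have h5 : √(r * W) ^ 2 = r * W := Real.sq_sqrt h1.le
  have h6 : r * (1 / √(r * W)) ^ 3 = 1 / (W * √(r * W)) := by
    rw [one_div_pow, show √(r * W) ^ 3 = √(r * W) ^ 2 * √(r * W) by ring, h5]
    field_simp
  rw [h6]
  apply one_div_le_one_div_of_le (by positivity)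
  exact mul_le_mul_of_nonneg_left h4 hW.le

lemma v_sq {c r : ℝ} (hr : 3 ≤ r) (hc : 0 < c) :
    c * (1 / √(r * ((r - 3) + 2 * c))) ^ 2 ≤ 1 / 6 := by
  have hW : 2 * c ≤ (r - 3) + 2 * c := by linarith
  have h1 : 6 * c ≤ r * ((r - 3) + 2 * c) := by nlinarith
  have h0 : 0 < r * ((r - 3) + 2 * c) := by linarith
  rw [one_div_pow, Real.sq_sqrt h0.le, mul_one_div, div_le_iff₀ h0]
  linarith

lemma dTq_bd (hδ : 0 < δ) (hδ1 : δ ≤ 1 / 100) (A : FactsA S) (B : FactsB δ S) {t r : ℝ}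
    (ht0 : 0 ≤ t) (ht1 : t < 1) (h3 : 3 ≤ r) (hr : r ≤ Rh δ) :
    |r * (dTq δ S 1 t r + dTq δ S (-1) t r)| ≤
      32000 * δ ^ 3 * √(1 - t) * mj (1 - t) r := by
  have hc : 0 < 1 - t := by linarith
  have hW : 0 < (r - 3) + 2 * (1 - t) := by linarith
  obtain ⟨x0, x3⟩ := xr_bd hδ h3 hr
  obtain ⟨p1, w1, q1, m1⟩ := w_facts B (Or.inl rfl : (1 : ℝ) = 1 ∨ (1 : ℝ) = -1) ht0 ht1.le h3 hr hW
  obtain ⟨p2, w2, q2, m2⟩ := w_facts B (Or.inr rfl : (-1 : ℝ) = 1 ∨ (-1 : ℝ) = -1) ht0 ht1.le h3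
    hr hW
  have hδ3 : 0 < δ ^ 3 := by positivity
  have hδ3' : δ ^ 3 ≤ 1 / 1000000 := by
    calc δ ^ 3 ≤ (1 / 100) ^ 3 := pow_le_pow_left₀ hδ.le hδ1 3
      _ = 1 / 1000000 := by norm_num
  have bal := A.al_le t ht0 ht1.le
  have bda := A.da_le t ht0 ht1.le
  have bg := A.g_le' t ht0 ht1.le
  set c := 1 - t with hcd
  have hc1 : c ≤ 1 := by linarith
  have hs0 : 0 ≤ √c := Real.sqrt_nonneg _
  have hs1 : √c ≤ 1 := Real.sqrt_le_one.2 hc1
  have ba : |δ ^ 3 * al S t| ≤ δ ^ 3 * (4 * (c ^ 2 * √c)) := by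
    rw [abs_mul, abs_of_pos hδ3]
    exact mul_le_mul_of_nonneg_left bal hδ3.le
  have ba1 : |δ ^ 3 * da S t| ≤ δ ^ 3 * (8 * (c * √c)) := by
    rw [abs_mul, abs_of_pos hδ3]
    exact mul_le_mul_of_nonneg_left bda hδ3.le
  have ba2 : |δ ^ 3 * S.g t| ≤ δ ^ 3 * (12 * √c) := by
    rw [abs_mul, abs_of_pos hδ3]
    exact mul_le_mul_of_nonneg_left bg hδ3.le
  have i1 : c * √c ≤ 1 := by nlinarith
  have i2 : c ^ 2 * √c ≤ 1 := by nlinarith
  have ba' : |δ ^ 3 * al S t| ≤ 1 := by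
    refine ba.trans ?_
    have : 0 ≤ c ^ 2 * √c := by positivity
    nlinarith
  have ba1' : |δ ^ 3 * da S t| ≤ 1 := by
    refine ba1.trans ?_
    have : 0 ≤ c * √c := by positivity
    nlinarith
  set x := xr δ r with hx
  set a := δ ^ 3 * al S t with ha
  set a1 := δ ^ 3 * da S t with ha1
  set a2 := δ ^ 3 * S.g t with ha2
  have y1 : yr δ S 1 t r = t * x - a := by
    unfold yr
    rw [ha]
    ring
  have y2 : yr δ S (-1) t r = t * x + a := by
    unfold yr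
    rw [ha]
    ring
  have X1 : x - 1 * δ ^ 3 * da S t = x - a1 := by
    rw [ha1]
    ring
  have X2 : x - -1 * δ ^ 3 * da S t = x + a1 := by
    rw [ha1]
    ring
  set u := 1 / wr δ S 1 t r with hu
  set u' := 1 / wr δ S (-1) t r with hu'
  set v := 1 / √(r * ((r - 3) + 2 * c)) with hv
  have hu0 : 0 < u := by positivity
  have hu0' : 0 < u' := by positivity
  have huu : u ^ 2 - u' ^ 2 = -(4 * t * x * a) * (u ^ 2 * u' ^ 2) := by
    rw [hu, hu', one_div_pow, one_div_pow]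
    have e1 : wr δ S (-1) t r ^ 2 - wr δ S 1 t r ^ 2 = -(4 * t * x * a) := by
      rw [q1, q2, y1, y2]
      ring
    rw [← e1]
    have := w1.ne'
    have := w2.ne'
    field_simp
  have hal := alg (a2 := a2) x0 x3 ht0 ht1.le ba' ba1' hu0 m1 hu0' m2 huu
  have hsum : dTq δ S 1 t r + dTq δ S (-1) t r =
      (-(2 * a2) * (x - a1) * (t * x - a) * u ^ 3 +
        ((x - a1) ^ 3 * u ^ 3 + 3 * (x - a1) ^ 3 * (t * x - a) ^ 2 * u ^ 5)) +
      (-(2 * a2) * (x + a1) * (t * x + a) * u' ^ 3 -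
        ((x + a1) ^ 3 * u' ^ 3 + 3 * (x + a1) ^ 3 * (t * x + a) ^ 2 * u' ^ 5)) := by
    unfold dTq
    rw [← hx, y1, y2, X1, X2]
    ring
  have hv0 : 0 < v := hu0.trans_le m1
  have hq := v_sq (c := c) h3 hc
  rw [← hv] at hq
  have hmj := mj_ge (c := c) h3 hW
  rw [← hv] at hmj
  set K := δ ^ 3 * √c * v ^ 3 with hK
  have hK0 : 0 ≤ K := by positivity
  set q := c * v ^ 2 with hqd
  have hq0 : 0 ≤ q := by positivity
  have s1 : 64 * |a2| * v ^ 3 ≤ 768 * K := by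
    calc 64 * |a2| * v ^ 3 ≤ 64 * (δ ^ 3 * (12 * √c)) * v ^ 3 := by gcongr
      _ = 768 * K := by rw [hK]; ring
  have s2 : 96 * |a1| * v ^ 3 ≤ 768 * K := by
    calc 96 * |a1| * v ^ 3 ≤ 96 * (δ ^ 3 * (8 * (c * √c))) * v ^ 3 := by gcongr
      _ = 768 * K * c := by rw [hK]; ring
      _ ≤ 768 * K * 1 := mul_le_mul_of_nonneg_left hc1 (by positivity)
      _ = 768 * K := by ring
  have s3 : 4608 * |a| * v ^ 5 ≤ 3072 * K := by
    calc 4608 * |a| * v ^ 5 ≤ 4608 * (δ ^ 3 * (4 * (c ^ 2 * √c))) * v ^ 5 := by gcongr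
      _ = 18432 * K * (c * q) := by rw [hK, hqd]; ring
      _ ≤ 18432 * K * (1 * (1 / 6)) := by gcongr
      _ = 3072 * K := by ring
  have s4 : 4608 * |a1| * v ^ 5 ≤ 6144 * K := by
    calc 4608 * |a1| * v ^ 5 ≤ 4608 * (δ ^ 3 * (8 * (c * √c))) * v ^ 5 := by gcongr
      _ = 36864 * K * q := by rw [hK, hqd]; ring
      _ ≤ 36864 * K * (1 / 6) := by gcongr
      _ = 6144 * K := by ring
  have s5 : 184320 * |a| * v ^ 7 ≤ 20480 * K := by
    calc 184320 * |a| * v ^ 7 ≤ 184320 * (δ ^ 3 * (4 * (c ^ 2 * √c))) * v ^ 7 := by gcongr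
      _ = 737280 * K * (q * q) := by rw [hK, hqd]; ring
      _ ≤ 737280 * K * (1 / 6 * (1 / 6)) := by gcongr
      _ = 20480 * K := by ring
  have hr0 : 0 < r := by linarith
  rw [abs_mul, abs_of_pos hr0, hsum]
  calc r * _ ≤ r * (32000 * K) := by
        apply mul_le_mul_of_nonneg_left _ hr0.le
        refine hal.trans ?_
        linarith
    _ = 32000 * δ ^ 3 * √c * (r * v ^ 3) := by rw [hK]; ring
    _ ≤ 32000 * δ ^ 3 * √c * mj c r := by
        apply mul_le_mul_of_nonneg_left hmj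
        positivity

lemma drw_bd (hδ : 0 < δ) (hδ1 : δ ≤ 1 / 100) (A : FactsA S) (B : FactsB δ S) {e t r : ℝ}
    (he : e = 1 ∨ e = -1) (ht0 : 0 ≤ t) (ht1 : t < 1) (h3 : 3 ≤ r) (hr : r ≤ Rh δ) :
    |r * (yr δ S e t r * (xr δ r - e * δ ^ 3 * da S t) * (1 / wr δ S e t r) ^ 3)| ≤
      16 * mj (1 - t) r := by
  have hW : 0 < (r - 3) + 2 * (1 - t) := by linarith
  obtain ⟨x0, x3⟩ := xr_bd hδ h3 hr
  obtain ⟨p1, w1, q1, m1⟩ := w_facts B he ht0 ht1.le h3 hr hW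
  have hδ3 : 0 < δ ^ 3 := by positivity
  have hδ3' : δ ^ 3 ≤ 1 / 1000000 := by
    calc δ ^ 3 ≤ (1 / 100) ^ 3 := pow_le_pow_left₀ hδ.le hδ1 3
      _ = 1 / 1000000 := by norm_num
  have bal := A.al_le t ht0 ht1.le
  have bda := A.da_bd t
  have hc1 : 1 - t ≤ 1 := by linarith
  have hc0 : 0 ≤ 1 - t := by linarith
  have hs0 : 0 ≤ √(1 - t) := Real.sqrt_nonneg _
  have hs1 : √(1 - t) ≤ 1 := Real.sqrt_le_one.2 hc1
  have i2 : (1 - t) ^ 2 * √(1 - t) ≤ 1 := by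
    have : (1 - t) ^ 2 ≤ 1 := by nlinarith
    nlinarith
  have bal' : |al S t| ≤ 4 := by linarith
  have hmul : ∀ z : ℝ, |e * δ ^ 3 * z| = δ ^ 3 * |z| := by
    intro z
    rcases he with rfl | rfl
    · rw [one_mul, abs_mul, abs_of_pos hδ3]
    · rw [abs_mul, neg_one_mul, abs_neg, abs_of_pos hδ3]
  have hX : |xr δ r - e * δ ^ 3 * da S t| ≤ 4 := by
    have h1 : |e * δ ^ 3 * da S t| ≤ 1 := by
      rw [hmul]
      nlinarith [abs_nonneg (da S t)]
    rw [abs_le] at h1 ⊢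
    constructor <;> linarith
  have hy : |yr δ S e t r| ≤ 4 := by
    unfold yr
    have h1 : |e * δ ^ 3 * al S t| ≤ 1 := by
      rw [hmul]
      nlinarith [abs_nonneg (al S t)]
    have h2 : 0 ≤ t * xr δ r := mul_nonneg ht0 x0
    have h4 : t * xr δ r ≤ 3 := by nlinarith
    rw [abs_le] at h1 ⊢
    constructor <;> linarith
  have hr0 : 0 < r := by linarith
  have hu0 : 0 < 1 / wr δ S e t r := by positivity
  have hmj := mj_ge (c := 1 - t) h3 hW
  rw [abs_mul, abs_of_pos hr0, abs_mul, abs_mul, abs_of_pos (pow_pos hu0 3)]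
  calc r * (|yr δ S e t r| * |xr δ r - e * δ ^ 3 * da S t| * (1 / wr δ S e t r) ^ 3)
      ≤ r * (4 * 4 * (1 / √(r * ((r - 3) + 2 * (1 - t)))) ^ 3) := by gcongr
    _ = 16 * (r * (1 / √(r * ((r - 3) + 2 * (1 - t)))) ^ 3) := by ring
    _ ≤ 16 * mj (1 - t) r := by linarith

/-! ### The two integrals as functions of `t` -/

/-- integrand of `H` -/
noncomputable def fH (δ : ℝ) (S : St) (t r : ℝ) : ℝ :=
  r * (Tq δ S 1 t r + Tq δ S (-1) t r)

/-- integrand of `B` -/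
noncomputable def fB (δ : ℝ) (S : St) (t r : ℝ) : ℝ :=
  (r / wr δ S 1 t r - 1) + (r / wr δ S (-1) t r - 1)

/-- `H` -/
noncomputable def HH (δ : ℝ) (S : St) (t : ℝ) : ℝ := ∫ r in (3 : ℝ)..Rh δ, fH δ S t r

/-- `B` -/
noncomputable def BB (δ : ℝ) (S : St) (t : ℝ) : ℝ := ∫ r in (3 : ℝ)..Rh δ, fB δ S t r

lemma wr_cont (e t : ℝ) : Continuous (fun r => wr δ S e t r) := by
  unfold wr yr xr
  fun_prop

lemma w_ne (B : FactsB δ S) {e t r : ℝ} (he : e = 1 ∨ e = -1) (ht0 : 0 ≤ t) (ht1 : t < 1)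
    (h3 : 3 ≤ r) (hr : r ≤ Rh δ) : wr δ S e t r ≠ 0 :=
  (w_facts B he ht0 ht1.le h3 hr (by linarith)).2.1.ne'

lemma fB_int (hδ : 0 < δ) (B : FactsB δ S) {t : ℝ} (ht0 : 0 ≤ t) (ht1 : t < 1) :
    IntervalIntegrable (fB δ S t) volume 3 (Rh δ) := by
  apply ContinuousOn.intervalIntegrable
  rw [uIcc_of_le (Rh_ge hδ)]
  unfold fB
  apply ContinuousOn.add
  · apply ContinuousOn.sub _ continuousOn_const
    exact ContinuousOn.div continuousOn_id (wr_cont 1 t).continuousOn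
      fun r hr => w_ne B (Or.inl rfl) ht0 ht1 hr.1 hr.2
  · apply ContinuousOn.sub _ continuousOn_const
    exact ContinuousOn.div continuousOn_id (wr_cont (-1) t).continuousOn
      fun r hr => w_ne B (Or.inr rfl) ht0 ht1 hr.1 hr.2

lemma Tq_cont (B : FactsB δ S) {e t : ℝ} (he : e = 1 ∨ e = -1) (ht0 : 0 ≤ t) (ht1 : t < 1) :
    ContinuousOn (fun r => Tq δ S e t r) (Icc 3 (Rh δ)) := by
  unfold Tq
  apply ContinuousOn.div
  · unfold yr xr
    fun_prop
  · exact ((wr_cont e t).pow 3).continuousOn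
  · intro r hr
    exact pow_ne_zero 3 (w_ne B he ht0 ht1 hr.1 hr.2)

lemma fH_one (A : FactsA S) (r : ℝ) : fH δ S 1 r = 0 := by
  unfold fH Tq wr yr
  rw [A.al_zero 1 le_rfl, A.da_zero 1 le_rfl]
  simp only [mul_zero, sub_zero]
  ring

lemma fH_int (hδ : 0 < δ) (A : FactsA S) (B : FactsB δ S) {t : ℝ} (ht0 : 0 ≤ t) (ht1 : t ≤ 1) :
    IntervalIntegrable (fH δ S t) volume 3 (Rh δ) := by
  rcases ht1.eq_or_lt with rfl | ht1
  · have : fH δ S 1 = fun _ => 0 := funext fun r => fH_one A r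
    rw [this]
    exact intervalIntegrable_const
  · apply ContinuousOn.intervalIntegrable
    rw [uIcc_of_le (Rh_ge hδ)]
    unfold fH
    exact continuousOn_id.mul ((Tq_cont B (Or.inl rfl) ht0 ht1).add
      (Tq_cont B (Or.inr rfl) ht0 ht1))

lemma HH_one (A : FactsA S) : HH δ S 1 = 0 := by
  unfold HH
  simp [fH_one A]

lemma al_z (A : FactsA S) : al S 0 = 0 := by
  have h := A.al_le' 0 le_rfl
  rw [mul_zero] at h
  exact abs_eq_zero.1 (le_antisymm h (abs_nonneg _))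

lemma g_z (A : FactsA S) : S.g 0 = 0 := by
  have h := A.g_le 0 le_rfl zero_le_one
  rw [Real.sqrt_zero, mul_zero] at h
  exact abs_eq_zero.1 (le_antisymm h (abs_nonneg _))

lemma g_o (A : FactsA S) : S.g 1 = 0 := by
  have h := A.g_le' 1 zero_le_one le_rfl
  rw [sub_self, Real.sqrt_zero, mul_zero] at h
  exact abs_eq_zero.1 (le_antisymm h (abs_nonneg _))

lemma BB_zero (hδ : 0 < δ) (A : FactsA S) : BB δ S 0 = 0 := by
  unfold BB
  have h : EqOn (fB δ S 0) (fun _ => 0) (uIcc 3 (Rh δ)) := by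
    intro r hr
    rw [uIcc_of_le (Rh_ge hδ)] at hr
    have hr0 : 0 < r := by linarith [hr.1]
    unfold fB wr yr
    rw [al_z A]
    simp only [zero_mul, mul_zero, sub_zero, ne_eq, OfNat.ofNat_ne_zero, not_false_eq_true,
      zero_pow]
    rw [Real.sqrt_sq hr0.le, div_self hr0.ne']
    norm_num
  rw [intervalIntegral.integral_congr h]
  simp

lemma mj_meas : Measurable (fun z : ℝ × ℝ => mj (1 - z.1) z.2) := by
  unfold mj
  fun_prop

lemma sqrt_two_ge : 1 ≤ √(2 : ℝ) := by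
  rw [Real.one_le_sqrt]
  norm_num

lemma HH_inc (hI : S_INC) (hδ : 0 < δ) (hδ1 : δ ≤ 1 / 100) (A : FactsA S) (B : FactsB δ S)
    {a b : ℝ} (ha : 0 ≤ a) (hab : a ≤ b) (hb : b ≤ 1) :
    |HH δ S b - HH δ S a| ≤ 64000 * δ ^ 3 * (b - a) := by
  have hR := Rh_ge hδ
  have hδ3 : 0 < δ ^ 3 := by positivity
  unfold HH
  apply diff_le hR (fH_int hδ A B (ha.trans hab) hb) (fH_int hδ A B ha (hab.trans hb))
    (mul_nonneg (by positivity) (by linarith))
  have key := hI (volume.restrict (Ioc 3 (Rh δ))) (fH δ S)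
    (fun t r => r * (dTq δ S 1 t r + dTq δ S (-1) t r))
    (fun t r => ENNReal.ofReal (32000 * δ ^ 3 * √(1 - t) * mj (1 - t) r)) a b hab ?_ ?_
  · refine key.trans ?_
    calc ∫⁻ t in Ioo a b, ∫⁻ r in Ioc 3 (Rh δ),
          ENNReal.ofReal (32000 * δ ^ 3 * √(1 - t) * mj (1 - t) r)
        ≤ ∫⁻ t in Ioo a b, ENNReal.ofReal (64000 * δ ^ 3) := by
          apply setLIntegral_mono' measurableSet_Ioo
          intro t ht
          have hc : 0 < 1 - t := by linarith [ht.2]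
          have hs : 0 < √(1 - t) := Real.sqrt_pos.2 hc
          have e1 : ∀ r, ENNReal.ofReal (32000 * δ ^ 3 * √(1 - t) * mj (1 - t) r) =
              ENNReal.ofReal (32000 * δ ^ 3 * √(1 - t)) * ENNReal.ofReal (mj (1 - t) r) :=
            fun r => ENNReal.ofReal_mul (by positivity)
          simp only [e1]
          rw [lintegral_const_mul' _ _ ENNReal.ofReal_ne_top]
          refine (mul_le_mul_right (mj_lint hc hR) _).trans ?_
          rw [← ENNReal.ofReal_mul (by positivity)]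
          apply ENNReal.ofReal_le_ofReal
          have h2 := sqrt_two_ge
          rw [Real.sqrt_mul (by norm_num)]
          have h3 : 32000 * δ ^ 3 * √(1 - t) * (2 / (√2 * √(1 - t))) =
              64000 * δ ^ 3 * (1 / √2) := by
            have : √(2 : ℝ) ≠ 0 := by positivity
            field_simp
            ring
          rw [h3]
          have h4 : 1 / √(2 : ℝ) ≤ 1 := by
            rw [div_le_one (by positivity)]
            exact h2
          calc 64000 * δ ^ 3 * (1 / √2) ≤ 64000 * δ ^ 3 * 1 :=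
                mul_le_mul_of_nonneg_left h4 (by positivity)
            _ = 64000 * δ ^ 3 := by ring
      _ = ENNReal.ofReal (64000 * δ ^ 3 * (b - a)) := by
          rw [setLIntegral_const, Real.volume_Ioo, ← ENNReal.ofReal_mul (by positivity)]
  · apply Measurable.ennreal_ofReal
    apply Measurable.mul _ mj_meas
    fun_prop
  · apply ae_restrict_of_forall_mem measurableSet_Ioc
    intro r hr
    have hd : ∀ t ∈ Icc a b, HasDerivAt (fun t => fH δ S t r)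
        (r * (dTq δ S 1 t r + dTq δ S (-1) t r)) t := by
      intro t ht
      have ht0 : 0 ≤ t := ha.trans ht.1
      have ht1 : t ≤ 1 := ht.2.trans hb
      have hW : 0 < (r - 3) + 2 * (1 - t) := by linarith [hr.1]
      have p1 := (w_facts B (Or.inl rfl : (1 : ℝ) = 1 ∨ (1 : ℝ) = -1) ht0 ht1 hr.1.le hr.2 hW).1
      have p2 := (w_facts B (Or.inr rfl : (-1 : ℝ) = 1 ∨ (-1 : ℝ) = -1) ht0 ht1 hr.1.le hr.2
        hW).1
      exact ((Tq_deriv A (Or.inl rfl) p1).fun_add (Tq_deriv A (Or.inr rfl) p2)).const_mul r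
    refine ⟨fun t ht => (hd t ht).continuousAt.continuousWithinAt, fun t ht =>
      ⟨hd t ⟨ht.1.le, ht.2.le⟩, ?_⟩⟩
    apply ENNReal.ofReal_le_ofReal
    exact dTq_bd hδ hδ1 A B (ha.trans ht.1.le) (ht.2.trans_le hb) hr.1.le hr.2

lemma BB_inc (hI : S_INC) (hδ : 0 < δ) (hδ1 : δ ≤ 1 / 100) (A : FactsA S) (B : FactsB δ S)
    {a b : ℝ} (ha : 0 ≤ a) (hab : a ≤ b) (hb : b < 1) :
    |BB δ S b - BB δ S a| ≤ 128 * (√(1 - a) - √(1 - b)) := by
  have hR := Rh_ge hδ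
  have hmono : √(1 - b) ≤ √(1 - a) := Real.sqrt_le_sqrt (by linarith)
  unfold BB
  apply diff_le hR (fB_int hδ B (ha.trans hab) hb) (fB_int hδ B ha (hab.trans_lt hb))
    (mul_nonneg (by norm_num) (by linarith))
  have key := hI (volume.restrict (Ioc 3 (Rh δ))) (fB δ S)
    (fun t r => r * (yr δ S 1 t r * (xr δ r - 1 * δ ^ 3 * da S t) * (1 / wr δ S 1 t r) ^ 3) +
      r * (yr δ S (-1) t r * (xr δ r - -1 * δ ^ 3 * da S t) * (1 / wr δ S (-1) t r) ^ 3))
    (fun t r => ENNReal.ofReal (32 * mj (1 - t) r)) a b hab ?_ ?_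
  · refine key.trans ?_
    calc ∫⁻ t in Ioo a b, ∫⁻ r in Ioc 3 (Rh δ), ENNReal.ofReal (32 * mj (1 - t) r)
        ≤ ∫⁻ t in Ioo a b, ENNReal.ofReal (64 * (1 / √(1 - t))) := by
          apply setLIntegral_mono' measurableSet_Ioo
          intro t ht
          have hc : 0 < 1 - t := by linarith [ht.2]
          have hs : 0 < √(1 - t) := Real.sqrt_pos.2 hc
          have e1 : ∀ r, ENNReal.ofReal (32 * mj (1 - t) r) =
              ENNReal.ofReal 32 * ENNReal.ofReal (mj (1 - t) r) :=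
            fun r => ENNReal.ofReal_mul (by positivity)
          simp only [e1]
          rw [lintegral_const_mul' _ _ ENNReal.ofReal_ne_top]
          refine (mul_le_mul_right (mj_lint hc hR) _).trans ?_
          rw [← ENNReal.ofReal_mul (by positivity)]
          apply ENNReal.ofReal_le_ofReal
          have h2 := sqrt_two_ge
          rw [Real.sqrt_mul (by norm_num)]
          have h3 : 32 * (2 / (√2 * √(1 - t))) = 64 * (1 / √(1 - t)) * (1 / √2) := by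
            have : √(2 : ℝ) ≠ 0 := by positivity
            field_simp
            ring
          rw [h3]
          have h4 : 1 / √(2 : ℝ) ≤ 1 := by
            rw [div_le_one (by positivity)]
            exact h2
          calc 64 * (1 / √(1 - t)) * (1 / √2) ≤ 64 * (1 / √(1 - t)) * 1 :=
                mul_le_mul_of_nonneg_left h4 (by positivity)
            _ = 64 * (1 / √(1 - t)) := by ring
      _ = ENNReal.ofReal 64 * ∫⁻ t in Ioo a b, ENNReal.ofReal (1 / √(1 - t)) := by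
          rw [← lintegral_const_mul' _ _ ENNReal.ofReal_ne_top]
          apply lintegral_congr
          intro t
          exact ENNReal.ofReal_mul (by norm_num)
      _ ≤ ENNReal.ofReal 64 * ENNReal.ofReal (2 * (√(1 - a) - √(1 - b))) :=
          mul_le_mul_right (sq_lint hab hb) _
      _ = ENNReal.ofReal (128 * (√(1 - a) - √(1 - b))) := by
          rw [← ENNReal.ofReal_mul (by norm_num)]
          congr 1
          ring
  · apply Measurable.ennreal_ofReal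
    exact measurable_const.mul mj_meas
  · apply ae_restrict_of_forall_mem measurableSet_Ioc
    intro r hr
    have hd : ∀ t ∈ Icc a b, HasDerivAt (fun t => fB δ S t r)
        (r * (yr δ S 1 t r * (xr δ r - 1 * δ ^ 3 * da S t) * (1 / wr δ S 1 t r) ^ 3) +
          r * (yr δ S (-1) t r * (xr δ r - -1 * δ ^ 3 * da S t) *
            (1 / wr δ S (-1) t r) ^ 3)) t := by
      intro t ht
      have ht0 : 0 ≤ t := ha.trans ht.1
      have ht1 : t ≤ 1 := ht.2.trans hb.le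
      have hW : 0 < (r - 3) + 2 * (1 - t) := by linarith [hr.1]
      have p1 := (w_facts B (Or.inl rfl : (1 : ℝ) = 1 ∨ (1 : ℝ) = -1) ht0 ht1 hr.1.le hr.2 hW).1
      have p2 := (w_facts B (Or.inr rfl : (-1 : ℝ) = 1 ∨ (-1 : ℝ) = -1) ht0 ht1 hr.1.le hr.2
        hW).1
      exact ((rw_deriv A p1).sub_const 1).fun_add ((rw_deriv A p2).sub_const 1)
    refine ⟨fun t ht => (hd t ht).continuousAt.continuousWithinAt, fun t ht =>
      ⟨hd t ⟨ht.1.le, ht.2.le⟩, ?_⟩⟩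
    apply ENNReal.ofReal_le_ofReal
    have b1 := drw_bd hδ hδ1 A B (Or.inl rfl) (ha.trans ht.1.le) (ht.2.trans hb) hr.1.le hr.2
    have b2 := drw_bd hδ hδ1 A B (Or.inr rfl) (ha.trans ht.1.le) (ht.2.trans hb) hr.1.le hr.2
    refine (abs_add_le _ _).trans ?_
    linarith

lemma Qd_eq (hδ : 0 < δ) (A : FactsA S) (B : FactsB δ S) {t : ℝ} (ht0 : 0 ≤ t) (ht1 : t < 1) :
    Qd δ S t = 5 / 4 * (-(δ ^ 3 * S.g t) * (BB δ S t + 8 / δ) + HH δ S t) := by
  have e1 : ∀ r, r * (Qi δ S 1 t r + Qi δ S (-1) t r) =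
      -(δ ^ 3 * S.g t) * (fB δ S t r + 2) + fH δ S t r := by
    intro r
    unfold Qi fB fH Tq
    ring
  have i1 := fB_int hδ B ht0 ht1
  have i2 := fH_int hδ A B ht0 ht1.le
  unfold Qd
  simp only [e1]
  rw [intervalIntegral.integral_add ((i1.add intervalIntegrable_const).const_mul _) i2,
    intervalIntegral.integral_const_mul, intervalIntegral.integral_add i1
      intervalIntegrable_const, intervalIntegral.integral_const]
  have e2 : (Rh δ - 3) • (2 : ℝ) = 8 / δ := by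
    unfold Rh
    rw [smul_eq_mul]
    ring
  rw [e2]
  rfl

lemma Qd_one (A : FactsA S) : Qd δ S 1 = 0 := by
  have h : ∀ r, r * (Qi δ S 1 1 r + Qi δ S (-1) 1 r) = 0 := by
    intro r
    unfold Qi wr yr
    rw [A.al_zero 1 le_rfl, A.da_zero 1 le_rfl, g_o A]
    simp only [mul_zero, sub_zero]
    ring
  unfold Qd
  simp [h]

lemma Qd_zero (A : FactsA S) : Qd δ S 0 = 0 := by
  have h : ∀ r, r * (Qi δ S 1 0 r + Qi δ S (-1) 0 r) = 0 := by
    intro r
    unfold Qi wr yr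
    rw [al_z A, g_z A]
    simp
  unfold Qd
  simp [h]

lemma E_eq (hδ : 0 < δ) (A : FactsA S) (B : FactsB δ S) {t : ℝ} (ht0 : 0 ≤ t) (ht1 : t ≤ 1) :
    Qd δ S t / δ ^ 2 + 10 * S.g t =
      -(5 / 4 * δ * (S.g t * BB δ S t)) + 5 / 4 * (HH δ S t / δ ^ 2) := by
  rcases ht1.eq_or_lt with rfl | ht1
  · rw [Qd_one A, g_o A, HH_one A]
    simp
  · rw [Qd_eq hδ A B ht0 ht1]
    field_simp
    ring

lemma Om_ge {a b : ℝ} (ha : 0 ≤ a) (hab : a ≤ b) (hb : b ≤ 1) :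
    2 * (√(1 - a) - √(1 - b)) ≤ Om b - Om a ∧ b - a ≤ Om b - Om a := by
  unfold Om
  have h1 : √a ≤ √b := Real.sqrt_le_sqrt hab
  have h2 : √(1 / 2 - b) ≤ √(1 / 2 - a) := Real.sqrt_le_sqrt (by linarith)
  have h3 : √(1 - b) ≤ √(1 - a) := Real.sqrt_le_sqrt (by linarith)
  refine ⟨by linarith, ?_⟩
  have h4 : √a ^ 2 = a := Real.sq_sqrt ha
  have h5 : √b ^ 2 = b := Real.sq_sqrt (ha.trans hab)
  have h6 : √b ≤ 1 := Real.sqrt_le_one.2 hb
  have h7 : √a ≤ 1 := h1.trans h6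
  have h8 : b - a ≤ 2 * (√b - √a) := by
    have : b - a = (√b - √a) * (√b + √a) := by nlinarith
    rw [this]
    nlinarith
  linarith

/-- increments of `γ B` -/
lemma gB_inc (hI : S_INC) (hδ : 0 < δ) (hδ1 : δ ≤ 1 / 100) (hS : Crude S) (A : FactsA S)
    (B : FactsB δ S) {a b : ℝ} (ha : 0 ≤ a) (hab : a ≤ b) (hb : b ≤ 1) :
    |S.g b * BB δ S b - S.g a * BB δ S a| ≤ 1024 * (Om b - Om a) := by
  obtain ⟨o1, o2⟩ := Om_ge ha hab hb
  have hO : 0 ≤ Om b - Om a := by linarith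
  have gi := hS.ginc a b ha hab hb
  have Bb : ∀ t, 0 ≤ t → t < 1 → |BB δ S t| ≤ 128 := by
    intro t ht0 ht1
    have h1 := BB_inc hI hδ hδ1 A B le_rfl ht0 ht1
    rw [BB_zero hδ A, sub_zero, sub_zero, Real.sqrt_one] at h1
    have h2 := Real.sqrt_nonneg (1 - t)
    linarith
  rcases hb.eq_or_lt with rfl | hb
  · rcases hab.eq_or_lt with rfl | hab
    · simp
    · rw [g_o A, zero_mul, zero_sub, abs_neg, abs_mul]
      rw [g_o A, zero_sub, abs_neg] at gi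
      calc |S.g a| * |BB δ S a| ≤ (2 * (Om 1 - Om a)) * 128 :=
            mul_le_mul gi (Bb a ha hab) (abs_nonneg _) (by linarith)
        _ ≤ 1024 * (Om 1 - Om a) := by linarith
  · have h1 := BB_inc hI hδ hδ1 A B ha hab hb
    have h2 := Bb b (ha.trans hab) hb
    have h3 := A.g_bd a
    have e : S.g b * BB δ S b - S.g a * BB δ S a =
        (S.g b - S.g a) * BB δ S b + S.g a * (BB δ S b - BB δ S a) := by ring
    rw [e]
    refine (abs_add_le _ _).trans ?_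
    rw [abs_mul, abs_mul]
    have h4 : |S.g b - S.g a| * |BB δ S b| ≤ (2 * (Om b - Om a)) * 128 :=
      mul_le_mul gi h2 (abs_nonneg _) (by linarith)
    have h5 : |S.g a| * |BB δ S b - BB δ S a| ≤ 12 * (64 * (Om b - Om a)) :=
      mul_le_mul h3 (by linarith) (abs_nonneg _) (by norm_num)
    linarith

end QEaux

/-- module QE, §4.3 -/
theorem QE (hA : S_FactsA) (hB : S_FactsB) (hI : S_INC) (_hJ : S_INE) : S_QE := by
  obtain ⟨δ₁, hδ₁, hδ₁', hB⟩ := hB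
  refine ⟨100000, by norm_num, δ₁, hδ₁, ?_⟩
  intro δ hδ hδle S hS
  have A := hA S hS
  have B := hB δ hδ hδle S hS
  have hδ1 : δ ≤ 1 / 100 := hδle.trans hδ₁'
  refine ⟨QEaux.Qd_zero A, QEaux.Qd_one A, ?_⟩
  intro a b ha hab hb
  rw [QEaux.E_eq hδ A B (ha.trans hab) hb, QEaux.E_eq hδ A B ha (hab.trans hb)]
  obtain ⟨o1, o2⟩ := QEaux.Om_ge ha hab hb
  have h1 := QEaux.gB_inc hI hδ hδ1 hS A B ha hab hb
  have h2 := QEaux.HH_inc hI hδ hδ1 A B ha hab hb
  have h3 : |QEaux.HH δ S b / δ ^ 2 - QEaux.HH δ S a / δ ^ 2| ≤ 64000 * δ * (Om b - Om a) := by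
    have hd2 : 0 < δ ^ 2 := by positivity
    rw [← sub_div, abs_div, abs_of_pos hd2, div_le_iff₀ hd2]
    refine h2.trans ?_
    calc 64000 * δ ^ 3 * (b - a) ≤ 64000 * δ ^ 3 * (Om b - Om a) :=
          mul_le_mul_of_nonneg_left o2 (by positivity)
      _ = 64000 * δ * (Om b - Om a) * δ ^ 2 := by ring
  have e : -(5 / 4 * δ * (S.g b * QEaux.BB δ S b)) + 5 / 4 * (QEaux.HH δ S b / δ ^ 2) -
      (-(5 / 4 * δ * (S.g a * QEaux.BB δ S a)) + 5 / 4 * (QEaux.HH δ S a / δ ^ 2)) =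
      -(5 / 4 * δ) * (S.g b * QEaux.BB δ S b - S.g a * QEaux.BB δ S a) +
      5 / 4 * (QEaux.HH δ S b / δ ^ 2 - QEaux.HH δ S a / δ ^ 2) := by ring
  rw [e]
  refine (abs_add_le _ _).trans ?_
  rw [abs_mul, abs_mul, abs_neg, abs_of_pos (show (0 : ℝ) < 5 / 4 * δ by positivity),
    abs_of_pos (show (0 : ℝ) < 5 / 4 by norm_num)]
  have hO : 0 ≤ Om b - Om a := by linarith
  have h4 : 5 / 4 * δ * |S.g b * QEaux.BB δ S b - S.g a * QEaux.BB δ S a| ≤
      5 / 4 * δ * (1024 * (Om b - Om a)) := mul_le_mul_of_nonneg_left h1 (by positivity)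
  have h5 : 0 ≤ δ * (Om b - Om a) := mul_nonneg hδ.le hO
  linarith

end Pool.Agent.HV
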