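import Pool.Agent.HV.Stmts

/-!
# Module HV_QI (§5.1 (i)) for MP_678b51_gt   (helper18)

`Q(t) = -∫_t^1 Q'`.
-/

set_option autoImplicit false

open MeasureTheory Set Filter
open scoped Real Topology ENNReal

namespace Pool.Agent.HV

namespace QIm

/-- the pointwise derivative -/
theorem deriv_end {δ : ℝ} {S : St} (hF : FactsA S) (e t r : ℝ) (he : e = 1 ∨ e = -1)
    (hW : 0 < r ^ 2 - yr δ S e t r ^ 2) :
    HasDerivAt (fun t => e * ((xr δ r - e * δ ^ 3 * da S t) / wr δ S e t r)) (Qi δ S e t r) t := by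
  have hy : HasDerivAt (fun t => yr δ S e t r) (xr δ r - e * δ ^ 3 * da S t) t := by
    have h1 := (hasDerivAt_id t).mul_const (xr δ r)
    have h2 := (hF.al_deriv t).const_mul (e * δ ^ 3)
    have h3 : HasDerivAt (fun t => yr δ S e t r) (1 * xr δ r - e * δ ^ 3 * da S t) t := h1.sub h2
    exact h3.congr_deriv (by ring)
  have hW2 : HasDerivAt (fun t => r ^ 2 - yr δ S e t r ^ 2)
      (-(2 * yr δ S e t r * (xr δ r - e * δ ^ 3 * da S t))) t := by
    have h3 : HasDerivAt (fun t => r ^ 2 - yr δ S e t r ^ 2) _ t := (hy.pow 2).const_sub (r ^ 2)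
    exact h3.congr_deriv (by simp)
  have hw : HasDerivAt (fun t => wr δ S e t r)
      (-(2 * yr δ S e t r * (xr δ r - e * δ ^ 3 * da S t)) / (2 * wr δ S e t r)) t :=
    hW2.sqrt hW.ne'
  have hwpos : 0 < wr δ S e t r := Real.sqrt_pos.mpr hW
  have hnum : HasDerivAt (fun t => xr δ r - e * δ ^ 3 * da S t) (-(e * δ ^ 3 * S.g t)) t :=
    ((hF.da_deriv t).const_mul (e * δ ^ 3)).const_sub (xr δ r)
  have hq : HasDerivAt (fun t => e * ((xr δ r - e * δ ^ 3 * da S t) / wr δ S e t r)) _ t :=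
    (hnum.div hw hwpos.ne').const_mul e
  refine hq.congr_deriv ?_
  have he2 : e * e = 1 := by rcases he with h | h <;> rw [h] <;> norm_num
  simp only [Qi]
  generalize wr δ S e t r = w at *
  generalize yr δ S e t r = y at *
  generalize hX : xr δ r - e * δ ^ 3 * da S t = X at *
  field_simp
  linear_combination (-(w ^ 2 * δ ^ 3 * S.g t)) * (he2)

/-- continuity of the auxiliary functions -/
theorem cont_da {S : St} (hF : FactsA S) : Continuous (da S) :=
  continuous_iff_continuousAt.mpr fun t => (hF.da_deriv t).continuousAt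

theorem cont_al {S : St} (hF : FactsA S) : Continuous (al S) :=
  continuous_iff_continuousAt.mpr fun t => (hF.al_deriv t).continuousAt

theorem cont_yr {δ : ℝ} {S : St} (hF : FactsA S) (e : ℝ) :
    Continuous fun z : ℝ × ℝ => yr δ S e z.1 z.2 := by
  have h := cont_al hF
  unfold yr xr
  fun_prop

theorem cont_wr {δ : ℝ} {S : St} (hF : FactsA S) (e : ℝ) :
    Continuous fun z : ℝ × ℝ => wr δ S e z.1 z.2 := by
  have h := cont_yr (δ := δ) hF e
  unfold wr
  fun_prop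

theorem meas_Qi {δ : ℝ} {S : St} (hC : Crude S) (hF : FactsA S) (e : ℝ) :
    Measurable fun z : ℝ × ℝ => Qi δ S e z.1 z.2 := by
  have h1 : Measurable fun z : ℝ × ℝ => yr δ S e z.1 z.2 := (cont_yr hF e).measurable
  have h2 : Measurable fun z : ℝ × ℝ => wr δ S e z.1 z.2 := (cont_wr hF e).measurable
  have h3 : Measurable fun z : ℝ × ℝ => S.g z.1 := (hC.gC.comp continuous_fst).measurable
  have h4 : Measurable fun z : ℝ × ℝ => da S z.1 := ((cont_da hF).comp continuous_fst).measurable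
  have h5 : Measurable fun z : ℝ × ℝ => xr δ z.2 := by
    unfold xr
    fun_prop
  unfold Qi
  fun_prop

/-- the pointwise bound -/
theorem Qi_bd {δ : ℝ} {S : St} (hF : FactsA S) (hB : FactsB δ S) (hδ : 0 < δ) (hδ1 : δ ≤ 1 / 100)
    (e : ℝ) (he : e = 1 ∨ e = -1) (t r : ℝ) (ht0 : 0 ≤ t) (ht1 : t < 1) (hr3 : 3 < r)
    (hrR : r ≤ Rh δ) :
    |Qi δ S e t r| ≤ 28 * r ^ 2 * ((r - 3) ^ (-(3 / 4 : ℝ)) * (1 - t) ^ (-(3 / 4 : ℝ))) := by
  have hlb := hB.wr_lb e he t r ht0 ht1.le hr3.le hrR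
  set W := r ^ 2 - yr δ S e t r ^ 2 with hW
  set w := wr δ S e t r with hw
  have hA : 0 < r - 3 := by linarith
  have hBp : 0 < 1 - t := by linarith
  have hWge : (r - 3) + 2 * (1 - t) ≤ W := by nlinarith
  have hWpos : 0 < W := by nlinarith
  have hwpos : 0 < w := Real.sqrt_pos.mpr hWpos
  have hw2 : w ^ 2 = W := Real.sq_sqrt hWpos.le
  have hy2 : yr δ S e t r ^ 2 ≤ r ^ 2 := by
    have : 0 ≤ r ^ 2 - yr δ S e t r ^ 2 := hWpos.le
    linarith
  have hyr : |yr δ S e t r| ≤ r := abs_le_of_sq_le_sq hy2 (by linarith)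
  have hwr : w ^ 2 ≤ r ^ 2 := by
    rw [hw2, hW]
    nlinarith [sq_nonneg (yr δ S e t r)]
  have hxr0 : 0 ≤ xr δ r := by
    have h1 : r ≤ 3 + 4 / δ := hrR
    have h2 : δ * (r - 3) ≤ 4 := by
      have : r - 3 ≤ 4 / δ := by linarith
      calc δ * (r - 3) ≤ δ * (4 / δ) := by gcongr
        _ = 4 := by field_simp
    unfold xr
    linarith
  have hxr3 : xr δ r ≤ 3 := by
    unfold xr
    nlinarith
  have hda := hF.da_bd t
  have hg := hF.g_bd t
  have hδ3 : δ ^ 3 ≤ 1 / 100 := by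
    have : δ ^ 3 ≤ (1 / 100 : ℝ) ^ 3 := by gcongr
    linarith [this, (by norm_num : ((1 : ℝ) / 100) ^ 3 ≤ 1 / 100)]
  have hδ30 : 0 < δ ^ 3 := by positivity
  have heda : |e * δ ^ 3 * da S t| ≤ 1 / 10 := by
    rw [abs_mul, abs_mul]
    have he1 : |e| = 1 := by rcases he with h | h <;> rw [h] <;> norm_num
    rw [he1, abs_of_pos hδ30]
    nlinarith [abs_nonneg (da S t)]
  have hX : |xr δ r - e * δ ^ 3 * da S t| ≤ 4 := by
    rw [abs_le] at heda ⊢
    constructor <;> linarith [heda.1, heda.2]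
  have hX2 : (xr δ r - e * δ ^ 3 * da S t) ^ 2 ≤ 16 := by
    have := sq_abs (xr δ r - e * δ ^ 3 * da S t)
    nlinarith [abs_nonneg (xr δ r - e * δ ^ 3 * da S t)]
  have hw3 : 0 < w ^ 3 := by positivity
  -- the bound by `w⁻³`
  have h1 : |Qi δ S e t r| ≤ 28 * r ^ 2 / w ^ 3 := by
    have he1 : |e| = 1 := by rcases he with h | h <;> rw [h] <;> norm_num
    unfold Qi
    rw [← hw]
    refine (abs_add_le _ _).trans ?_
    have ha : |-(δ ^ 3 * S.g t) / w| ≤ 12 * r ^ 2 / w ^ 3 := by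
      rw [abs_div, abs_neg, abs_mul, abs_of_pos hδ30, abs_of_pos hwpos]
      have : 12 * r ^ 2 / w ^ 3 = (12 * r ^ 2 / w ^ 2) / w := by field_simp
      rw [this]
      gcongr
      rw [le_div_iff₀ (by positivity)]
      have h5 : δ ^ 3 * |S.g t| ≤ 12 := by nlinarith [abs_nonneg (S.g t)]
      have h6 : 0 ≤ δ ^ 3 * |S.g t| := by positivity
      nlinarith [sq_nonneg w, sq_nonneg r]
    have hb : |e * (xr δ r - e * δ ^ 3 * da S t) ^ 2 * yr δ S e t r / w ^ 3| ≤
        16 * r ^ 2 / w ^ 3 := by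
      rw [abs_div, abs_mul, abs_mul, he1, abs_of_pos hw3, abs_of_nonneg (sq_nonneg _), one_mul]
      gcongr
      nlinarith [abs_nonneg (yr δ S e t r), sq_nonneg (xr δ r - e * δ ^ 3 * da S t)]
    calc _ ≤ 12 * r ^ 2 / w ^ 3 + 16 * r ^ 2 / w ^ 3 := add_le_add ha hb
      _ = 28 * r ^ 2 / w ^ 3 := by ring
  refine h1.trans ?_
  have h2 : (r - 3) ^ (3 / 4 : ℝ) * (1 - t) ^ (3 / 4 : ℝ) ≤ w ^ 3 := by
    rw [← Real.mul_rpow hA.le hBp.le]
    have h4 : (r - 3) * (1 - t) ≤ w ^ 4 := by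
      have : w ^ 4 = W ^ 2 := by rw [← hw2]; ring
      rw [this]
      nlinarith
    have h5 : w ^ 3 = (w ^ 4) ^ (3 / 4 : ℝ) := by
      rw [← Real.rpow_natCast w 4, ← Real.rpow_mul hwpos.le, ← Real.rpow_natCast w 3]
      norm_num
    rw [h5]
    exact Real.rpow_le_rpow (by positivity) h4 (by norm_num)
  rw [Real.rpow_neg hA.le, Real.rpow_neg hBp.le, ← mul_inv, div_eq_mul_inv]
  have h3 : 0 < (r - 3) ^ (3 / 4 : ℝ) * (1 - t) ^ (3 / 4 : ℝ) := by positivity
  gcongr

theorem intA (R : ℝ) (hR : 3 ≤ R) :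
    ∫⁻ r in Ioc 3 R, ENNReal.ofReal ((r - 3) ^ (-(3 / 4 : ℝ))) < ⊤ := by
  have h1 : IntervalIntegrable (fun x : ℝ => x ^ (-(3 / 4 : ℝ))) volume (3 - 3) (R - 3) :=
    intervalIntegral.intervalIntegrable_rpow' (by norm_num)
  have h2 : IntervalIntegrable (fun r : ℝ => (r - 3) ^ (-(3 / 4 : ℝ))) volume 3 R := by
    have := h1.comp_sub_right 3
    simpa using this
  have h3 := (intervalIntegrable_iff_integrableOn_Ioc_of_le hR).mp h2
  exact h3.lintegral_lt_top

theorem intB (a : ℝ) (ha : a ≤ 1) :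
    ∫⁻ t in Ioo a 1, ENNReal.ofReal ((1 - t) ^ (-(3 / 4 : ℝ))) < ⊤ := by
  have h1 : IntervalIntegrable (fun x : ℝ => x ^ (-(3 / 4 : ℝ))) volume (1 - a) (1 - 1) :=
    intervalIntegral.intervalIntegrable_rpow' (by norm_num)
  have h2 : IntervalIntegrable (fun r : ℝ => (1 - r) ^ (-(3 / 4 : ℝ))) volume a 1 := by
    have := h1.comp_sub_left 1
    simpa using this
  have h3 := (intervalIntegrable_iff_integrableOn_Ioo_of_le ha).mp h2
  exact h3.lintegral_lt_top

theorem Rh_gt {δ : ℝ} (hδ : 0 < δ) : 3 ≤ Rh δ := by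
  unfold Rh
  have : 0 < 4 / δ := by positivity
  linarith

/-- `√` is continuous and so is `Om` -/
theorem cont_Om : Continuous Om := by
  unfold Om
  fun_prop

theorem contOn_Qd {δ C : ℝ} {S : St} (hδ : 0 < δ) (hC : Crude S)
    (h : ∀ a b, 0 ≤ a → a ≤ b → b ≤ 1 →
      |(Qd δ S b / δ ^ 2 + 10 * S.g b) - (Qd δ S a / δ ^ 2 + 10 * S.g a)| ≤ C * δ * (Om b - Om a)) :
    ContinuousOn (Qd δ S) (Icc 0 1) := by
  set F : ℝ → ℝ := fun t => Qd δ S t / δ ^ 2 + 10 * S.g t with hF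
  have h2 : ∀ a ∈ Icc (0 : ℝ) 1, ∀ b ∈ Icc (0 : ℝ) 1, |F b - F a| ≤ |C * δ * (Om b - Om a)| := by
    intro a ha b hb
    rcases le_total a b with hab | hab
    · exact (h a b ha.1 hab hb.2).trans (le_abs_self _)
    · have := (h b a hb.1 hab ha.2).trans (le_abs_self _)
      rw [abs_sub_comm]
      refine this.trans (le_of_eq ?_)
      rw [← abs_neg]
      congr 1
      ring
  have hFc : ContinuousOn F (Icc 0 1) := by
    intro a ha
    unfold ContinuousWithinAt
    rw [tendsto_iff_dist_tendsto_zero]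
    have h3 : Tendsto (fun b => |C * δ * (Om b - Om a)|) (𝓝[Icc 0 1] a) (𝓝 0) := by
      have h4 : Continuous fun b => |C * δ * (Om b - Om a)| := by
        have := cont_Om
        fun_prop
      have h5 := (h4.tendsto a).mono_left (nhdsWithin_le_nhds (s := Icc 0 1))
      simpa using h5
    refine squeeze_zero' (Eventually.of_forall fun b => dist_nonneg) ?_ h3
    filter_upwards [self_mem_nhdsWithin] with b hb
    rw [Real.dist_eq]
    exact h2 a ha b hb
  have h6 : Qd δ S = fun t => δ ^ 2 * (F t - 10 * S.g t) := by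
    funext t
    simp only [hF]
    field_simp
    ring
  rw [h6]
  exact continuousOn_const.mul (hFc.sub (continuousOn_const.mul hC.gC.continuousOn))

end QIm

open QIm in
/-- §5.1 (i) -/
theorem QI (hA : S_FactsA) (hB : S_FactsB) (hQ : S_QE) (hJ : S_INE) : S_QI := by
  obtain ⟨δB, hδB0, hδB1, hB⟩ := hB
  obtain ⟨C, hC0, δQ, hδQ0, hQ⟩ := hQ
  refine ⟨min δB δQ, lt_min hδB0 hδQ0, ?_⟩
  intro δ hδ hδ1 S hS
  have hFA := hA S hS
  have hFB := hB δ hδ (hδ1.trans (min_le_left _ _)) S hS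
  obtain ⟨hQ0, hQ1, hQi⟩ := hQ δ hδ (hδ1.trans (min_le_right _ _)) S hS
  have hδ100 : δ ≤ 1 / 100 := (hδ1.trans (min_le_left _ _)).trans hδB1
  have hcont := contOn_Qd hδ hS hQi
  have hint : IntervalIntegrable (Qd δ S) volume 0 1 := by
    apply ContinuousOn.intervalIntegrable
    rw [uIcc_of_le zero_le_one]
    exact hcont
  refine ⟨hint, ?_⟩
  -- the two summands at the end `e`
  set φ : ℝ → ℝ → ℝ := fun t r => r * ((xr δ r - δ ^ 3 * da S t) / wr δ S 1 t r -
    (xr δ r + δ ^ 3 * da S t) / wr δ S (-1) t r) with hφ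
  set dφ : ℝ → ℝ → ℝ := fun t r => r * (Qi δ S 1 t r + Qi δ S (-1) t r) with hdφ
  have hφ' : φ = fun t r => r * (1 * ((xr δ r - 1 * δ ^ 3 * da S t) / wr δ S 1 t r) +
      (-1) * ((xr δ r - (-1) * δ ^ 3 * da S t) / wr δ S (-1) t r)) := by
    funext t r
    simp only [hφ]
    ring
  have hR3 := Rh_gt hδ
  have hφ1 : ∀ r, φ 1 r = 0 := by
    intro r
    have h1 : da S 1 = 0 := hFA.da_zero 1 le_rfl
    have h2 : al S 1 = 0 := hFA.al_zero 1 le_rfl
    simp only [hφ, wr, yr, h1, h2]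
    simp
  have hQf1 : Qf δ S 1 = 0 := by
    have : ∀ r, r * ((xr δ r - δ ^ 3 * da S 1) / wr δ S 1 1 r -
      (xr δ r + δ ^ 3 * da S 1) / wr δ S (-1) 1 r) = 0 := hφ1
    unfold Qf
    simp [this]
  intro t ht0 ht1
  rcases eq_or_lt_of_le ht1 with rfl | ht1
  · rw [hQf1]
    simp
  set μ : Measure ℝ := volume.restrict (Ioc 3 (Rh δ)) with hμ
  set K : ℝ := 56 * Rh δ ^ 3 with hK
  have hK0 : 0 ≤ K := by positivity
  set ψ : ℝ → ℝ → ℝ≥0∞ := fun t r => ENNReal.ofReal K *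
    (ENNReal.ofReal ((r - 3) ^ (-(3 / 4 : ℝ))) * ENNReal.ofReal ((1 - t) ^ (-(3 / 4 : ℝ)))) with hψ
  have hψm : Measurable (fun z : ℝ × ℝ => ψ z.1 z.2) := by
    simp only [hψ]
    fun_prop
  have hWpos : ∀ e, (e = 1 ∨ e = -1) → ∀ τ r, 0 ≤ τ → τ ≤ 1 → 3 < r → r ≤ Rh δ →
      0 < r ^ 2 - yr δ S e τ r ^ 2 := by
    intro e he τ r h0 h1 h3 hr
    have := hFB.wr_lb e he τ r h0 h1 h3.le hr
    refine lt_of_lt_of_le ?_ this
    have : 0 < (r - 3) + 2 * (1 - τ) := by linarith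
    positivity
  have hmain := hJ μ φ dφ ψ t 1 ht1.le hψm ?_ ?_ ?_ ?_ ?_
  · have h1 : ∫ r, φ 1 r ∂μ = 0 := by simp [hφ1]
    have h2 : ∫ r, φ t r ∂μ = ∫ r in (3 : ℝ)..Rh δ, φ t r := by
      rw [intervalIntegral.integral_of_le hR3]
    have h3 : ∀ τ, 5 / 4 * ∫ r, dφ τ r ∂μ = Qd δ S τ := by
      intro τ
      unfold Qd
      rw [intervalIntegral.integral_of_le hR3]
    have h4 : Qf δ S t = 5 / 4 * ∫ r, φ t r ∂μ := by
      unfold Qf
      rw [intervalIntegral.integral_of_le hR3]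
    have h5 := hmain.2
    rw [h1, zero_sub] at h5
    rw [h4]
    have h6 : ∫ p in t..1, Qd δ S p = 5 / 4 * ∫ p in t..1, ∫ r, dφ p r ∂μ := by
      rw [← intervalIntegral.integral_const_mul]
      congr 1
      funext τ
      exact (h3 τ).symm
    rw [h6, ← h5]
    ring
  · -- continuity, derivative, bound
    filter_upwards [ae_restrict_mem measurableSet_Ioc] with r hr
    have hr0 : 0 < r := by linarith [hr.1]
    constructor
    · intro τ hτ
      apply ContinuousAt.continuousWithinAt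
      have h1 := (deriv_end (δ := δ) hFA 1 τ r (Or.inl rfl)
        (hWpos 1 (Or.inl rfl) τ r (ht0.trans hτ.1) hτ.2 hr.1 hr.2))
      have h2 := (deriv_end (δ := δ) hFA (-1) τ r (Or.inr rfl)
        (hWpos (-1) (Or.inr rfl) τ r (ht0.trans hτ.1) hτ.2 hr.1 hr.2))
      rw [hφ']
      exact ((h1.add h2).const_mul r).continuousAt
    · intro τ hτ
      have hτ0 : 0 ≤ τ := ht0.trans hτ.1.le
      constructor
      · have h1 := (deriv_end (δ := δ) hFA 1 τ r (Or.inl rfl)
          (hWpos 1 (Or.inl rfl) τ r hτ0 hτ.2.le hr.1 hr.2))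
        have h2 := (deriv_end (δ := δ) hFA (-1) τ r (Or.inr rfl)
          (hWpos (-1) (Or.inr rfl) τ r hτ0 hτ.2.le hr.1 hr.2))
        rw [hφ']
        exact (h1.add h2).const_mul r
      · have b1 := Qi_bd hFA hFB hδ hδ100 1 (Or.inl rfl) τ r hτ0 hτ.2 hr.1 hr.2
        have b2 := Qi_bd hFA hFB hδ hδ100 (-1) (Or.inr rfl) τ r hτ0 hτ.2 hr.1 hr.2
        have hA0 : 0 ≤ (r - 3) ^ (-(3 / 4 : ℝ)) := Real.rpow_nonneg (by linarith [hr.1]) _
        have hB0 : 0 ≤ (1 - τ) ^ (-(3 / 4 : ℝ)) := Real.rpow_nonneg (by linarith [hτ.2]) _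
        simp only [hψ]
        rw [← ENNReal.ofReal_mul hA0, ← ENNReal.ofReal_mul hK0]
        apply ENNReal.ofReal_le_ofReal
        simp only [hdφ]
        rw [abs_mul, abs_of_pos hr0]
        set M := (r - 3) ^ (-(3 / 4 : ℝ)) * (1 - τ) ^ (-(3 / 4 : ℝ)) with hM
        have hM0 : 0 ≤ M := mul_nonneg hA0 hB0
        calc r * |Qi δ S 1 τ r + Qi δ S (-1) τ r|
            ≤ r * (28 * r ^ 2 * M + 28 * r ^ 2 * M) := by
              gcongr
              exact (abs_add_le _ _).trans (add_le_add b1 b2)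
          _ = 56 * r ^ 3 * M := by ring
          _ ≤ 56 * Rh δ ^ 3 * M := by
              gcongr
              exact hr.2
  · -- finiteness
    have h1 : ∀ τ, ∫⁻ r, ψ τ r ∂μ = ENNReal.ofReal K *
        (∫⁻ r in Ioc 3 (Rh δ), ENNReal.ofReal ((r - 3) ^ (-(3 / 4 : ℝ)))) *
          ENNReal.ofReal ((1 - τ) ^ (-(3 / 4 : ℝ))) := by
      intro τ
      simp only [hψ, hμ]
      rw [lintegral_const_mul _ (by fun_prop), lintegral_mul_const _ (by fun_prop)]
      ring
    simp only [h1]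
    rw [lintegral_const_mul _ (by fun_prop)]
    exact ENNReal.mul_lt_top (ENNReal.mul_lt_top ENNReal.ofReal_lt_top (intA _ hR3))
      (intB t ht1.le)
  · -- integrability of `φ t`
    rw [hμ]
    have hcl : ∀ e, (e = 1 ∨ e = -1) → ContinuousOn (fun r => 1 / wr δ S e t r) (Icc 3 (Rh δ)) := by
      intro e he
      have hc : Continuous fun r => wr δ S e t r := by
        have := cont_wr (δ := δ) hFA e
        exact this.comp (by fun_prop : Continuous fun r : ℝ => (t, r))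
      apply ContinuousOn.div continuousOn_const hc.continuousOn
      intro r hr
      have h1 := hFB.wr_lb e he t r ht0 ht1.le hr.1 hr.2
      have h2 : 0 < r * ((r - 3) + 2 * (1 - t)) := by
        have : 0 < (r - 3) + 2 * (1 - t) := by linarith [hr.1]
        have : 0 < r := by linarith [hr.1]
        positivity
      exact (Real.sqrt_pos.mpr (lt_of_lt_of_le h2 h1)).ne'
    have hφt : φ t = fun r => r * ((xr δ r - δ ^ 3 * da S t) * (1 / wr δ S 1 t r) -
        (xr δ r + δ ^ 3 * da S t) * (1 / wr δ S (-1) t r)) := by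
      funext r
      simp only [hφ]
      ring
    have hx : Continuous fun r => xr δ r := by
      unfold xr
      fun_prop
    have hco : ContinuousOn (φ t) (Icc 3 (Rh δ)) := by
      rw [hφt]
      exact continuousOn_id.mul
        (((hx.sub continuous_const).continuousOn.mul (hcl 1 (Or.inl rfl))).sub
          ((hx.add continuous_const).continuousOn.mul (hcl (-1) (Or.inr rfl))))
    exact (hco.integrableOn_Icc).mono_set Ioc_subset_Icc_self
  · -- measurability of `φ 1`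
    have : φ 1 = fun _ => 0 := by
      funext r
      exact hφ1 r
    rw [this]
    exact aestronglyMeasurable_const
  · have h1 := meas_Qi (δ := δ) hS hFA 1
    have h2 := meas_Qi (δ := δ) hS hFA (-1)
    exact (measurable_snd.mul (h1.add h2)).aestronglyMeasurable

end Pool.Agent.HV
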