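import Pool.Agent.HV.Stmts

/-!
# The function `R` (§4.2)
-/

set_option autoImplicit false

open MeasureTheory Set Filter
open scoped Real Topology ENNReal

namespace Pool.Agent.HV

namespace RPaux

/-! ### Change of variables in lower integrals -/

theorem cov_le {f f' : ℝ → ℝ} {l r A B : ℝ} (hf : ∀ x ∈ Ioo l r, HasDerivAt f (f' x) x)
    (hp : ∀ x ∈ Ioo l r, 0 ≤ f' x) (hi : InjOn f (Ioo l r))
    (hm : ∀ x ∈ Ioo l r, f x ∈ Ioo A B) (g : ℝ → ℝ≥0∞) :
    ∫⁻ x in Ioo l r, ENNReal.ofReal (f' x) * g (f x) ≤ ∫⁻ y in Ioo A B, g y := by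
  have h := lintegral_image_eq_lintegral_abs_deriv_mul measurableSet_Ioo
    (fun x hx => (hf x hx).hasDerivWithinAt) hi g
  have h2 : ∫⁻ x in Ioo l r, ENNReal.ofReal (f' x) * g (f x) =
      ∫⁻ x in Ioo l r, ENNReal.ofReal |f' x| * g (f x) := by
    apply setLIntegral_congr_fun measurableSet_Ioo
    intro x hx
    simp only [abs_of_nonneg (hp x hx)]
  rw [h2, ← h]
  apply lintegral_mono_set
  rintro y ⟨x, hx, rfl⟩
  exact hm x hx

theorem le_cov {f f' : ℝ → ℝ} {l r A B : ℝ} (hf : ∀ x ∈ Ioo l r, HasDerivAt f (f' x) x)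
    (hp : ∀ x ∈ Ioo l r, 0 ≤ f' x) (hi : InjOn f (Ioo l r))
    (hm : Ioo A B ⊆ f '' Ioo l r) (g : ℝ → ℝ≥0∞) :
    ∫⁻ y in Ioo A B, g y ≤ ∫⁻ x in Ioo l r, ENNReal.ofReal (f' x) * g (f x) := by
  have h := lintegral_image_eq_lintegral_abs_deriv_mul measurableSet_Ioo
    (fun x hx => (hf x hx).hasDerivWithinAt) hi g
  have h2 : ∫⁻ x in Ioo l r, ENNReal.ofReal (f' x) * g (f x) =
      ∫⁻ x in Ioo l r, ENNReal.ofReal |f' x| * g (f x) := by
    apply setLIntegral_congr_fun measurableSet_Ioo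
    intro x hx
    simp only [abs_of_nonneg (hp x hx)]
  rw [h2, ← h]
  exact lintegral_mono_set hm

/-- `∫_p^1 s (s²-p²)^{-1/2} ds ≤ 1` -/
theorem L1 {p : ℝ} (hp : 0 < p) :
    ∫⁻ s in Ioo p 1, ENNReal.ofReal (s / √(s ^ 2 - p ^ 2)) ≤ 1 := by
  have h := cov_le (f := fun s => √(s ^ 2 - p ^ 2)) (f' := fun s => s / √(s ^ 2 - p ^ 2))
    (l := p) (r := 1) (A := 0) (B := 1) ?_ ?_ ?_ ?_ (fun _ => 1)
  · simpa using h
  · intro s hs
    have h0 : 0 < s ^ 2 - p ^ 2 := by nlinarith [hs.1]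
    have h1 : HasDerivAt (fun s : ℝ => s ^ 2 - p ^ 2) (2 * s) s := by
      simpa using (hasDerivAt_pow 2 s).sub_const (p ^ 2)
    have h2 := h1.sqrt h0.ne'
    convert h2 using 1
    field_simp
  · intro s hs
    have : 0 < s := hp.trans hs.1
    positivity
  · intro x hx y hy hxy
    have hx0 : 0 ≤ x ^ 2 - p ^ 2 := by nlinarith [hx.1]
    have hy0 : 0 ≤ y ^ 2 - p ^ 2 := by nlinarith [hy.1]
    have h1 : x ^ 2 - p ^ 2 = y ^ 2 - p ^ 2 := (Real.sqrt_inj hx0 hy0).1 hxy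
    have h2 : (x - y) * (x + y) = 0 := by linarith
    rcases mul_eq_zero.1 h2 with h | h
    · linarith
    · linarith [hx.1, hy.1]
  · intro s hs
    have h0 : 0 < s ^ 2 - p ^ 2 := by nlinarith [hs.1]
    refine ⟨Real.sqrt_pos.2 h0, ?_⟩
    rw [Real.sqrt_lt' one_pos]
    nlinarith [hs.1, hs.2, hp]

/-- `∫_a^b c t^{-1/2} dt ≤ 2c(√b-√a)` -/
theorem L2 {a b c : ℝ} (ha : 0 ≤ a) (hc : 0 ≤ c) :
    ∫⁻ t in Ioo a b, ENNReal.ofReal (c / √t) ≤ ENNReal.ofReal (2 * c * (√b - √a)) := by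
  have h := cov_le (f := fun t => √t) (f' := fun t => 1 / (2 * √t))
    (l := a) (r := b) (A := √a) (B := √b) ?_ ?_ ?_ ?_ (fun _ => ENNReal.ofReal (2 * c))
  · calc ∫⁻ t in Ioo a b, ENNReal.ofReal (c / √t)
        = ∫⁻ x in Ioo a b, ENNReal.ofReal (1 / (2 * √x)) * ENNReal.ofReal (2 * c) := by
          apply setLIntegral_congr_fun measurableSet_Ioo
          intro x hx
          have hx0 : 0 < √x := Real.sqrt_pos.2 (ha.trans_lt hx.1)
          simp only
          rw [← ENNReal.ofReal_mul (by positivity)]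
          congr 1
          field_simp
      _ ≤ ∫⁻ y in Ioo (√a) (√b), ENNReal.ofReal (2 * c) := h
      _ = ENNReal.ofReal (2 * c * (√b - √a)) := by
          rw [lintegral_const, Measure.restrict_apply MeasurableSet.univ, univ_inter,
            Real.volume_Ioo, ← ENNReal.ofReal_mul (by positivity)]
  · intro t ht
    exact Real.hasDerivAt_sqrt (ha.trans_lt ht.1).ne'
  · intro t ht
    positivity
  · intro x hx y hy hxy
    exact (Real.sqrt_inj (ha.trans hx.1.le) (ha.trans hy.1.le)).1 hxy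
  · intro t ht
    exact ⟨Real.sqrt_lt_sqrt ha ht.1, Real.sqrt_lt_sqrt (ha.trans ht.1.le) ht.2⟩

/-- `∫_0^{π/2} cos φ (sin φ)^{-1/2} dφ ≤ 2` -/
theorem L3 : ∫⁻ φ in Ioo 0 (π / 2), ENNReal.ofReal (Real.cos φ / √(Real.sin φ)) ≤ 2 := by
  have hs : ∀ φ ∈ Ioo 0 (π / 2), 0 < Real.sin φ := fun φ hφ =>
    Real.sin_pos_of_pos_of_lt_pi hφ.1 (by linarith [hφ.2, Real.pi_pos])
  have hc : ∀ φ ∈ Ioo 0 (π / 2), 0 < Real.cos φ := fun φ hφ =>
    Real.cos_pos_of_mem_Ioo ⟨by linarith [hφ.1, Real.pi_pos], hφ.2⟩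
  have h := cov_le (f := fun φ => √(Real.sin φ)) (f' := fun φ => Real.cos φ / (2 * √(Real.sin φ)))
    (l := 0) (r := π / 2) (A := 0) (B := 1) ?_ ?_ ?_ ?_ (fun _ => 2)
  · calc ∫⁻ φ in Ioo 0 (π / 2), ENNReal.ofReal (Real.cos φ / √(Real.sin φ))
        = ∫⁻ φ in Ioo 0 (π / 2), ENNReal.ofReal (Real.cos φ / (2 * √(Real.sin φ))) * 2 := by
          apply setLIntegral_congr_fun measurableSet_Ioo
          intro φ hφ
          have h0 := hc φ hφ
          have h1 := Real.sqrt_pos.2 (hs φ hφ)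
          simp only
          rw [show (2 : ℝ≥0∞) = ENNReal.ofReal 2 by simp, ← ENNReal.ofReal_mul (by positivity)]
          congr 1
          field_simp
      _ ≤ ∫⁻ y in Ioo (0 : ℝ) 1, 2 := h
      _ = 2 := by simp
  · intro φ hφ
    exact (Real.hasDerivAt_sin φ).sqrt (hs φ hφ).ne'
  · intro φ hφ
    have h0 := hc φ hφ
    positivity
  · intro x hx y hy hxy
    have h1 : Real.sin x = Real.sin y := (Real.sqrt_inj (hs x hx).le (hs y hy).le).1 hxy
    exact Real.injOn_sin ⟨by linarith [hx.1, Real.pi_pos], hx.2.le⟩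
      ⟨by linarith [hy.1, Real.pi_pos], hy.2.le⟩ h1
  · intro φ hφ
    refine ⟨Real.sqrt_pos.2 (hs φ hφ), ?_⟩
    rw [Real.sqrt_lt' one_pos]
    have h1 := Real.sin_sq_add_cos_sq φ
    have h2 := hc φ hφ
    have h3 := hs φ hφ
    nlinarith

/-! ### The function `p_φ` -/

theorem sin_pos {φ : ℝ} (hφ : φ ∈ Ioo 0 (π / 2)) : 0 < Real.sin φ :=
  Real.sin_pos_of_pos_of_lt_pi hφ.1 (by linarith [hφ.2, Real.pi_pos])

theorem cos_pos {φ : ℝ} (hφ : φ ∈ Ioo 0 (π / 2)) : 0 < Real.cos φ :=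
  Real.cos_pos_of_mem_Ioo ⟨by linarith [hφ.1, Real.pi_pos], hφ.2⟩

theorem rad_pos {s t φ : ℝ} (hs : 0 < s) (hφ : φ ∈ Ioo 0 (π / 2)) :
    0 < t ^ 2 * Real.cos φ ^ 2 + s ^ 2 * Real.sin φ ^ 2 := by
  have := sin_pos hφ
  positivity

theorem pph_pos {s t φ : ℝ} (hs : 0 < s) (hφ : φ ∈ Ioo 0 (π / 2)) : 0 < pph s t φ :=
  Real.sqrt_pos.2 (rad_pos hs hφ)

theorem pph_sq {s t φ : ℝ} :
    pph s t φ ^ 2 = t ^ 2 * Real.cos φ ^ 2 + s ^ 2 * Real.sin φ ^ 2 := by
  unfold pph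
  rw [Real.sq_sqrt (by positivity)]

theorem le_pph {s t φ : ℝ} (ht : 0 ≤ t) (hts : t ≤ s) : t ≤ pph s t φ := by
  unfold pph
  apply Real.le_sqrt_of_sq_le
  nlinarith [Real.sin_sq_add_cos_sq φ, sq_nonneg (Real.sin φ), mul_self_le_mul_self ht hts]

theorem pph_le {s t φ : ℝ} (ht : 0 ≤ t) (hts : t ≤ s) : pph s t φ ≤ s := by
  unfold pph
  rw [Real.sqrt_le_left (ht.trans hts)]
  nlinarith [Real.sin_sq_add_cos_sq φ, sq_nonneg (Real.cos φ), mul_self_le_mul_self ht hts]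

theorem sin_le_pph {s t φ : ℝ} : s * Real.sin φ ≤ pph s t φ := by
  unfold pph
  apply Real.le_sqrt_of_sq_le
  nlinarith [sq_nonneg (t * Real.cos φ)]

theorem pph_deriv_t {s t φ : ℝ} (hs : 0 < s) (hφ : φ ∈ Ioo 0 (π / 2)) :
    HasDerivAt (fun t => pph s t φ) (t * Real.cos φ ^ 2 / pph s t φ) t := by
  unfold pph
  have h1 : HasDerivAt (fun t => t ^ 2 * Real.cos φ ^ 2 + s ^ 2 * Real.sin φ ^ 2)
      (2 * t * Real.cos φ ^ 2) t := by
    simpa using (((hasDerivAt_pow 2 t).mul_const (Real.cos φ ^ 2)).add_const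
      (s ^ 2 * Real.sin φ ^ 2))
  have h2 := h1.sqrt (rad_pos hs hφ).ne'
  convert h2 using 1
  have := Real.sqrt_pos.2 (rad_pos (t := t) hs hφ)
  field_simp

theorem pph_deriv_phi {s t φ : ℝ} (hs : 0 < s) (hφ : φ ∈ Ioo 0 (π / 2)) :
    HasDerivAt (fun φ => pph s t φ)
      ((s ^ 2 - t ^ 2) * (Real.sin φ * Real.cos φ) / pph s t φ) φ := by
  unfold pph
  have h1 : HasDerivAt (fun φ => t ^ 2 * Real.cos φ ^ 2 + s ^ 2 * Real.sin φ ^ 2)
      (t ^ 2 * (2 * Real.cos φ * (-Real.sin φ)) + s ^ 2 * (2 * Real.sin φ * Real.cos φ)) φ := by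
    have hc := ((Real.hasDerivAt_cos φ).fun_pow 2).const_mul (t ^ 2)
    have hs := ((Real.hasDerivAt_sin φ).fun_pow 2).const_mul (s ^ 2)
    refine (hc.fun_add hs).congr_deriv ?_
    norm_num
  have h2 := h1.sqrt (rad_pos hs hφ).ne'
  convert h2 using 1
  have := Real.sqrt_pos.2 (rad_pos (t := t) hs hφ)
  field_simp
  ring

/-! ### The kernel estimate -/

theorem lam_nonneg {p : ℝ} (hp : 0 ≤ p) : 0 ≤ lam p := by
  unfold lam
  positivity

theorem lam_meas : Measurable lam := by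
  unfold lam
  fun_prop

/-- substitution `φ → p` -/
theorem M1 {s t : ℝ} (ht : 0 < t) (hts : t < s) :
    ∫⁻ φ in Ioo 0 (π / 2), ENNReal.ofReal (t * Real.cos φ ^ 2 / pph s t φ) *
        ENNReal.ofReal (lam (pph s t φ)) ≤
      ∫⁻ p in Ioo t s, ENNReal.ofReal (lam p * (t / √(p ^ 2 - t ^ 2))) *
        ENNReal.ofReal (1 / √(s ^ 2 - p ^ 2)) := by
  have hs : 0 < s := ht.trans hts
  have hst : 0 < s ^ 2 - t ^ 2 := by nlinarith
  have key : ∀ φ, pph s t φ ^ 2 - t ^ 2 = (s ^ 2 - t ^ 2) * Real.sin φ ^ 2 := by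
    intro φ
    rw [pph_sq]
    have := Real.sin_sq_add_cos_sq φ
    have h2 : Real.cos φ ^ 2 = 1 - Real.sin φ ^ 2 := by linarith
    rw [h2]
    ring
  have key2 : ∀ φ, s ^ 2 - pph s t φ ^ 2 = (s ^ 2 - t ^ 2) * Real.cos φ ^ 2 := by
    intro φ
    rw [pph_sq]
    have := Real.sin_sq_add_cos_sq φ
    have h2 : Real.sin φ ^ 2 = 1 - Real.cos φ ^ 2 := by linarith
    rw [h2]
    ring
  refine le_trans (lintegral_mono_ae ?_) (cov_le (f := fun φ => pph s t φ)
    (f' := fun φ => (s ^ 2 - t ^ 2) * (Real.sin φ * Real.cos φ) / pph s t φ)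
    (l := 0) (r := π / 2) (A := t) (B := s) ?_ ?_ ?_ ?_
    (fun p => ENNReal.ofReal (lam p * (t / √(p ^ 2 - t ^ 2))) *
        ENNReal.ofReal (1 / √(s ^ 2 - p ^ 2))))
  · rw [ae_restrict_iff' measurableSet_Ioo]
    refine ae_of_all _ fun φ hφ => ?_
    have hsin := sin_pos hφ
    have hcos := cos_pos hφ
    have hp := pph_pos (t := t) hs hφ
    have hl := lam_nonneg hp.le
    have e1 : √(pph s t φ ^ 2 - t ^ 2) = √(s ^ 2 - t ^ 2) * Real.sin φ := by
      rw [key, Real.sqrt_mul hst.le, Real.sqrt_sq hsin.le]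
    have e2 : √(s ^ 2 - pph s t φ ^ 2) = √(s ^ 2 - t ^ 2) * Real.cos φ := by
      rw [key2, Real.sqrt_mul hst.le, Real.sqrt_sq hcos.le]
    have hr := Real.sqrt_pos.2 hst
    have hrr : √(s ^ 2 - t ^ 2) * √(s ^ 2 - t ^ 2) = s ^ 2 - t ^ 2 := Real.mul_self_sqrt hst.le
    rw [← ENNReal.ofReal_mul (by positivity), ← ENNReal.ofReal_mul (by positivity),
      ← ENNReal.ofReal_mul (by positivity)]
    apply ENNReal.ofReal_le_ofReal
    rw [e1, e2]
    have e3 : (s ^ 2 - t ^ 2) * (Real.sin φ * Real.cos φ) / pph s t φ *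
        (lam (pph s t φ) * (t / (√(s ^ 2 - t ^ 2) * Real.sin φ)) *
          (1 / (√(s ^ 2 - t ^ 2) * Real.cos φ))) = t * 1 / pph s t φ * lam (pph s t φ) := by
      generalize √(s ^ 2 - t ^ 2) = ρ at hr hrr
      rw [← hrr]
      field_simp
    rw [e3]
    have hc1 : Real.cos φ ^ 2 ≤ 1 := by nlinarith [Real.sin_sq_add_cos_sq φ, sq_nonneg (Real.sin φ)]
    gcongr
  · intro φ hφ
    exact pph_deriv_phi hs hφ
  · intro φ hφ
    have hsin := sin_pos hφ
    have hcos := cos_pos hφ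
    have hp := pph_pos (t := t) hs hφ
    positivity
  · intro x hx y hy hxy
    have h1 : pph s t x ^ 2 - t ^ 2 = pph s t y ^ 2 - t ^ 2 := by
      simp only at hxy
      rw [hxy]
    rw [key, key] at h1
    have h2 : Real.sin x ^ 2 = Real.sin y ^ 2 := mul_left_cancel₀ hst.ne' h1
    have h3 : Real.sin x = Real.sin y := by
      have hx' := sin_pos hx
      have hy' := sin_pos hy
      exact (pow_left_inj₀ hx'.le hy'.le two_ne_zero).1 h2
    exact Real.injOn_sin ⟨by linarith [hx.1, Real.pi_pos], hx.2.le⟩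
      ⟨by linarith [hy.1, Real.pi_pos], hy.2.le⟩ h3
  · intro φ hφ
    have hsin := sin_pos hφ
    have hcos := cos_pos hφ
    have hp := pph_pos (t := t) hs hφ
    have h1 := key φ
    have h2 := key2 φ
    constructor
    · have : 0 < pph s t φ ^ 2 - t ^ 2 := by rw [h1]; positivity
      exact lt_of_pow_lt_pow_left₀ 2 hp.le (by linarith)
    · have : 0 < s ^ 2 - pph s t φ ^ 2 := by rw [h2]; positivity
      exact lt_of_pow_lt_pow_left₀ 2 hs.le (by linarith)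

/-- integration over `s` -/
theorem M2 {t b : ℝ} (ht : 0 < t) (htb : t ≤ b) :
    ∫⁻ s in Ioo b 1, ENNReal.ofReal s * ∫⁻ p in Ioo t s,
        ENNReal.ofReal (lam p * (t / √(p ^ 2 - t ^ 2))) * ENNReal.ofReal (1 / √(s ^ 2 - p ^ 2)) ≤
      ∫⁻ p in Ioo t 1, ENNReal.ofReal (lam p * (t / √(p ^ 2 - t ^ 2))) := by
  have hml := lam_meas
  have e1 : ∫⁻ s in Ioo b 1, ENNReal.ofReal s * ∫⁻ p in Ioo t s,
        ENNReal.ofReal (lam p * (t / √(p ^ 2 - t ^ 2))) * ENNReal.ofReal (1 / √(s ^ 2 - p ^ 2)) ≤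
      ∫⁻ s in Ioo b 1, ∫⁻ p in Ioo t 1, (if p < s then
        ENNReal.ofReal (lam p * (t / √(p ^ 2 - t ^ 2))) * ENNReal.ofReal (s / √(s ^ 2 - p ^ 2))
          else 0) := by
    apply lintegral_mono_ae
    rw [ae_restrict_iff' measurableSet_Ioo]
    refine ae_of_all _ fun s hs => ?_
    have hs0 : 0 < s := ht.trans (htb.trans_lt hs.1)
    rw [← lintegral_const_mul _ (by fun_prop)]
    rw [← lintegral_indicator measurableSet_Ioo, ← lintegral_indicator measurableSet_Ioo]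
    apply lintegral_mono
    intro p
    by_cases hp : p ∈ Ioo t s
    · have hp' : p ∈ Ioo t 1 := ⟨hp.1, hp.2.trans hs.2⟩
      rw [indicator_of_mem hp, indicator_of_mem hp', if_pos hp.2]
      have hl := lam_nonneg (ht.trans hp.1).le
      rw [← ENNReal.ofReal_mul (by positivity), ← ENNReal.ofReal_mul (by positivity),
        ← ENNReal.ofReal_mul (by positivity)]
      apply ENNReal.ofReal_le_ofReal
      apply le_of_eq
      ring
    · rw [indicator_of_notMem hp]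
      exact zero_le
  refine e1.trans ?_
  rw [lintegral_lintegral_swap]
  · apply lintegral_mono_ae
    rw [ae_restrict_iff' measurableSet_Ioo]
    refine ae_of_all _ fun p hp => ?_
    have hp0 : 0 < p := ht.trans hp.1
    calc ∫⁻ s in Ioo b 1, (if p < s then
        ENNReal.ofReal (lam p * (t / √(p ^ 2 - t ^ 2))) * ENNReal.ofReal (s / √(s ^ 2 - p ^ 2))
          else 0)
        ≤ ∫⁻ s in Ioo p 1, ENNReal.ofReal (lam p * (t / √(p ^ 2 - t ^ 2))) *
            ENNReal.ofReal (s / √(s ^ 2 - p ^ 2)) := by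
          rw [← lintegral_indicator measurableSet_Ioo, ← lintegral_indicator measurableSet_Ioo]
          apply lintegral_mono
          intro s
          by_cases hs : s ∈ Ioo b 1
          · rw [indicator_of_mem hs]
            by_cases hps : p < s
            · rw [if_pos hps, indicator_of_mem (show s ∈ Ioo p 1 from ⟨hps, hs.2⟩)]
            · rw [if_neg hps]
              exact zero_le
          · rw [indicator_of_notMem hs]
            exact zero_le
      _ = ENNReal.ofReal (lam p * (t / √(p ^ 2 - t ^ 2))) *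
            ∫⁻ s in Ioo p 1, ENNReal.ofReal (s / √(s ^ 2 - p ^ 2)) := by
          rw [lintegral_const_mul _ (by fun_prop)]
      _ ≤ ENNReal.ofReal (lam p * (t / √(p ^ 2 - t ^ 2))) * 1 := by
          gcongr
          exact L1 hp0
      _ = _ := mul_one _
  · apply Measurable.aemeasurable
    apply Measurable.ite (measurableSet_lt measurable_snd measurable_fst)
    · fun_prop
    · exact measurable_const

/-- the triple integral -/
theorem M3 (hK : S_KI) {a b : ℝ} (ha : 0 ≤ a) (hb : b ≤ 1) :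
    ∫⁻ s in Ioo b 1, ENNReal.ofReal s * ∫⁻ φ in Ioo 0 (π / 2), ∫⁻ t in Ioo a b,
      ENNReal.ofReal (t * Real.cos φ ^ 2 / pph s t φ) * ENNReal.ofReal (lam (pph s t φ)) ≤
    ENNReal.ofReal (18 * π * (√b - √a)) := by
  have hml := lam_meas
  have hmp : Measurable fun z : ℝ × ℝ × ℝ => pph z.1 z.2.1 z.2.2 := by
    unfold pph
    fun_prop
  have hF : Measurable fun z : ℝ × ℝ × ℝ => ENNReal.ofReal (z.2.1 * Real.cos z.2.2 ^ 2 /
      pph z.1 z.2.1 z.2.2) * ENNReal.ofReal (lam (pph z.1 z.2.1 z.2.2)) := by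
    have h1 : Measurable fun z : ℝ × ℝ × ℝ => lam (pph z.1 z.2.1 z.2.2) := hml.comp hmp
    fun_prop
  calc ∫⁻ s in Ioo b 1, ENNReal.ofReal s * ∫⁻ φ in Ioo 0 (π / 2), ∫⁻ t in Ioo a b,
      ENNReal.ofReal (t * Real.cos φ ^ 2 / pph s t φ) * ENNReal.ofReal (lam (pph s t φ))
      = ∫⁻ s in Ioo b 1, ∫⁻ t in Ioo a b, ENNReal.ofReal s * ∫⁻ φ in Ioo 0 (π / 2),
      ENNReal.ofReal (t * Real.cos φ ^ 2 / pph s t φ) * ENNReal.ofReal (lam (pph s t φ)) := by
        apply lintegral_congr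
        intro s
        rw [lintegral_lintegral_swap, lintegral_const_mul]
        · apply Measurable.lintegral_prod_right'
            (f := fun z : ℝ × ℝ => ENNReal.ofReal (z.1 * Real.cos z.2 ^ 2 / pph s z.1 z.2) *
              ENNReal.ofReal (lam (pph s z.1 z.2)))
          exact hF.comp (by fun_prop : Measurable fun z : ℝ × ℝ => ((s, z.1, z.2) : ℝ × ℝ × ℝ))
        · apply Measurable.aemeasurable
          exact hF.comp (by fun_prop : Measurable fun z : ℝ × ℝ => ((s, z.2, z.1) : ℝ × ℝ × ℝ))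
    _ = ∫⁻ t in Ioo a b, ∫⁻ s in Ioo b 1, ENNReal.ofReal s * ∫⁻ φ in Ioo 0 (π / 2),
      ENNReal.ofReal (t * Real.cos φ ^ 2 / pph s t φ) * ENNReal.ofReal (lam (pph s t φ)) := by
        apply lintegral_lintegral_swap
        apply Measurable.aemeasurable
        apply Measurable.mul
        · fun_prop
        · apply Measurable.lintegral_prod_right'
            (f := fun z : (ℝ × ℝ) × ℝ => ENNReal.ofReal (z.1.2 * Real.cos z.2 ^ 2 /
              pph z.1.1 z.1.2 z.2) * ENNReal.ofReal (lam (pph z.1.1 z.1.2 z.2)))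
          exact hF.comp (by fun_prop :
            Measurable fun z : (ℝ × ℝ) × ℝ => ((z.1.1, z.1.2, z.2) : ℝ × ℝ × ℝ))
    _ ≤ ∫⁻ t in Ioo a b, ENNReal.ofReal (9 * π / √t) := by
        apply lintegral_mono_ae
        rw [ae_restrict_iff' measurableSet_Ioo]
        refine ae_of_all _ fun t ht => ?_
        have ht0 : 0 < t := ha.trans_lt ht.1
        refine le_trans ?_ (hK t ht0 (ht.2.trans_le hb))
        refine le_trans ?_ (M2 (b := b) ht0 ht.2.le)
        apply lintegral_mono_ae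
        rw [ae_restrict_iff' measurableSet_Ioo]
        refine ae_of_all _ fun s hs => ?_
        exact mul_le_mul' le_rfl (M1 ht0 (ht.2.trans hs.1))
    _ ≤ ENNReal.ofReal (2 * (9 * π) * (√b - √a)) := L2 ha (by positivity)
    _ = ENNReal.ofReal (18 * π * (√b - √a)) := by ring_nf

/-! ### The function `J` -/

/-- what is used of the kernels `k_e` -/
structure KH (B : ℝ) (k : ℝ → ℝ → ℝ) : Prop where
  B0 : 0 ≤ B
  b1 : ∀ s, 0 ≤ s → s ≤ 1 → ∀ p, 0 ≤ p → p ≤ s → |k s p| ≤ B * √p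
  b2 : ∀ s, 0 ≤ s → s ≤ 1 → ∀ a b, 0 < a → a ≤ b → b ≤ s → |k s b - k s a| ≤ B * (Om b - Om a)
  cont : ContinuousOn (fun z : ℝ × ℝ => k z.1 z.2) (Icc 0 1 ×ˢ univ)

/-- the integrand of `J` -/
noncomputable def Fk (k : ℝ → ℝ → ℝ) (s t φ : ℝ) : ℝ :=
  k s (pph s t φ) * Real.cos φ ^ 2 / pph s t φ

/-- the function `J` -/
noncomputable def Jk (k : ℝ → ℝ → ℝ) (s t : ℝ) : ℝ := ∫ φ in (0 : ℝ)..(π / 2), Fk k s t φ

theorem Jk_eq (k : ℝ → ℝ → ℝ) (s t : ℝ) : Jk k s t = ∫ φ in Ioo 0 (π / 2), Fk k s t φ := by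
  unfold Jk
  rw [intervalIntegral.integral_of_le (by positivity), integral_Ioc_eq_integral_Ioo]

variable {B : ℝ} {k : ℝ → ℝ → ℝ}

theorem F_bd (hk : KH B k) {s t φ : ℝ} (hs : 0 < s) (hs1 : s ≤ 1) (ht : 0 ≤ t) (hts : t ≤ s)
    (hφ : φ ∈ Ioo 0 (π / 2)) : |Fk k s t φ| ≤ B / √s * (Real.cos φ / √(Real.sin φ)) := by
  have hsin := sin_pos hφ
  have hcos := cos_pos hφ
  have hp := pph_pos (t := t) hs hφ
  have h1 := hk.b1 s hs.le hs1 (pph s t φ) hp.le (pph_le ht hts)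
  have hc1 : Real.cos φ ^ 2 ≤ Real.cos φ := by
    nlinarith [Real.cos_le_one φ]
  have h2 : √s * √(Real.sin φ) ≤ √(pph s t φ) := by
    rw [← Real.sqrt_mul hs.le]
    exact Real.sqrt_le_sqrt sin_le_pph
  have hs' := Real.sqrt_pos.2 hs
  have hsin' := Real.sqrt_pos.2 hsin
  have hp' := Real.sqrt_pos.2 hp
  have hB := hk.B0
  unfold Fk
  rw [abs_div, abs_mul, abs_of_pos hp, abs_of_nonneg (sq_nonneg (Real.cos φ))]
  calc |k s (pph s t φ)| * Real.cos φ ^ 2 / pph s t φ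
      ≤ B * √(pph s t φ) * Real.cos φ / pph s t φ := by gcongr
    _ = B * Real.cos φ / √(pph s t φ) := by
        nth_rewrite 2 [← Real.mul_self_sqrt hp.le]
        field_simp
    _ ≤ B * Real.cos φ / (√s * √(Real.sin φ)) := by gcongr
    _ = B / √s * (Real.cos φ / √(Real.sin φ)) := by field_simp

theorem F_lint (hk : KH B k) {s t : ℝ} (hs : 0 < s) (hs1 : s ≤ 1) (ht : 0 ≤ t) (hts : t ≤ s) :
    ∫⁻ φ in Ioo 0 (π / 2), ‖Fk k s t φ‖ₑ ≤ ENNReal.ofReal (2 * B / √s) := by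
  have hB := hk.B0
  calc ∫⁻ φ in Ioo 0 (π / 2), ‖Fk k s t φ‖ₑ
      ≤ ∫⁻ φ in Ioo 0 (π / 2), ENNReal.ofReal (B / √s) *
          ENNReal.ofReal (Real.cos φ / √(Real.sin φ)) := by
        apply lintegral_mono_ae
        rw [ae_restrict_iff' measurableSet_Ioo]
        refine ae_of_all _ fun φ hφ => ?_
        rw [Real.enorm_eq_ofReal_abs, ← ENNReal.ofReal_mul (by positivity)]
        exact ENNReal.ofReal_le_ofReal (F_bd hk hs hs1 ht hts hφ)
    _ = ENNReal.ofReal (B / √s) *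
          ∫⁻ φ in Ioo 0 (π / 2), ENNReal.ofReal (Real.cos φ / √(Real.sin φ)) := by
        rw [lintegral_const_mul _ (by fun_prop)]
    _ ≤ ENNReal.ofReal (B / √s) * 2 := mul_le_mul' le_rfl L3
    _ = ENNReal.ofReal (2 * B / √s) := by
        rw [show (2 : ℝ≥0∞) = ENNReal.ofReal 2 by simp, ← ENNReal.ofReal_mul (by positivity)]
        congr 1
        ring

theorem F_cont (hk : KH B k) (t : ℝ) :
    ContinuousOn (fun z : ℝ × ℝ => Fk k z.1 t z.2) (Ioc 0 1 ×ˢ Ioo 0 (π / 2)) := by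
  unfold Fk
  have hp : Continuous fun z : ℝ × ℝ => pph z.1 t z.2 := by
    unfold pph
    fun_prop
  apply ContinuousOn.div
  · apply ContinuousOn.mul
    · have h1 : ContinuousOn (fun z : ℝ × ℝ => ((z.1, pph z.1 t z.2) : ℝ × ℝ))
          (Ioc 0 1 ×ˢ Ioo 0 (π / 2)) := by fun_prop
      exact hk.cont.comp h1 fun z hz => ⟨⟨hz.1.1.le, hz.1.2⟩, mem_univ _⟩
    · fun_prop
  · exact hp.continuousOn
  · intro z hz
    exact (pph_pos hz.1.1 hz.2).ne'

theorem F_meas (hk : KH B k) {s : ℝ} (t : ℝ) (hs : 0 < s) (hs1 : s ≤ 1) :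
    AEStronglyMeasurable (Fk k s t) (volume.restrict (Ioo 0 (π / 2))) := by
  apply ContinuousOn.aestronglyMeasurable _ measurableSet_Ioo
  exact (F_cont hk t).comp (f := fun φ : ℝ => ((s, φ) : ℝ × ℝ)) (by fun_prop)
    fun φ hφ => ⟨⟨hs, hs1⟩, hφ⟩

theorem F_int (hk : KH B k) {s t : ℝ} (hs : 0 < s) (hs1 : s ≤ 1) (ht : 0 ≤ t) (hts : t ≤ s) :
    Integrable (Fk k s t) (volume.restrict (Ioo 0 (π / 2))) :=
  ⟨F_meas hk t hs hs1, (F_lint hk hs hs1 ht hts).trans_lt ENNReal.ofReal_lt_top⟩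

theorem J_bd (hk : KH B k) {s t : ℝ} (hs : 0 < s) (hs1 : s ≤ 1) (ht : 0 ≤ t) (hts : t ≤ s) :
    |Jk k s t| ≤ 2 * B / √s := by
  have hB := hk.B0
  have h := (enorm_integral_le_lintegral_enorm (μ := volume.restrict (Ioo 0 (π / 2)))
    (Fk k s t)).trans (F_lint hk hs hs1 ht hts)
  rw [← Jk_eq, Real.enorm_eq_ofReal_abs] at h
  exact (ENNReal.ofReal_le_ofReal_iff (by positivity)).1 h

theorem J_meas (hk : KH B k) (t : ℝ) :
    AEStronglyMeasurable (fun s => Jk k s t) (volume.restrict (Ioc 0 1)) := by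
  have h : AEStronglyMeasurable (fun z : ℝ × ℝ => Fk k z.1 t z.2)
      ((volume.restrict (Ioc 0 1)).prod (volume.restrict (Ioo 0 (π / 2)))) := by
    rw [Measure.prod_restrict]
    exact (F_cont hk t).aestronglyMeasurable (measurableSet_Ioc.prod measurableSet_Ioo)
  have h2 := h.integral_prod_right'
  refine h2.congr (ae_of_all _ fun s => ?_)
  simp only [Jk_eq]

theorem J_diff (hL : S_LAM) (hk : KH B k) {s a b : ℝ} (hs : 0 < s) (hs1 : s ≤ 1) (ha : 0 ≤ a)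
    (hab : a ≤ b) (hbs : b ≤ s) :
    ‖Jk k s b - Jk k s a‖ₑ ≤ ENNReal.ofReal B * ∫⁻ φ in Ioo 0 (π / 2), ∫⁻ t in Ioo a b,
      ENNReal.ofReal (t * Real.cos φ ^ 2 / pph s t φ) * ENNReal.ofReal (lam (pph s t φ)) := by
  have hB := hk.B0
  rw [Jk_eq, Jk_eq, ← integral_sub (F_int hk hs hs1 (ha.trans hab) hbs)
    (F_int hk hs hs1 ha (hab.trans hbs))]
  refine (enorm_integral_le_lintegral_enorm _).trans ?_
  rw [← lintegral_const_mul']
  swap
  · exact ENNReal.ofReal_ne_top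
  apply lintegral_mono_ae
  rw [ae_restrict_iff' measurableSet_Ioo]
  refine ae_of_all _ fun φ hφ => ?_
  have hsin := sin_pos hφ
  have hcos := cos_pos hφ
  have hpa := pph_pos (t := a) hs hφ
  have hpb := pph_pos (t := b) hs hφ
  have hmono : ∀ t t', 0 ≤ t → t < t' → pph s t φ < pph s t' φ := by
    intro t t' h0 h1
    apply lt_of_pow_lt_pow_left₀ 2 (pph_pos hs hφ).le
    rw [pph_sq, pph_sq]
    have : t ^ 2 < t' ^ 2 := by nlinarith
    have h2 : 0 < Real.cos φ ^ 2 := by positivity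
    nlinarith
  have hpab : pph s a φ ≤ pph s b φ := by
    rcases hab.eq_or_lt with h | h
    · rw [h]
    · exact (hmono a b ha h).le
  have h1 := hL (fun p => k s p) B s hB hs1
    (fun p hp hps => (hk.b1 s hs.le hs1 p hp.le hps).trans (by
      have := Real.sqrt_nonneg p
      nlinarith [mul_nonneg hB this]))
    (fun a b ha hab hb => hk.b2 s hs.le hs1 a b ha hab hb) (pph s a φ) (pph s b φ) hpa hpab
    (pph_le (ha.trans hab) hbs)
  have h2 := le_cov (f := fun t => pph s t φ) (f' := fun t => t * Real.cos φ ^ 2 / pph s t φ)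
    (l := a) (r := b) (A := pph s a φ) (B := pph s b φ) (fun t _ => pph_deriv_t hs hφ) ?_ ?_ ?_
    (fun p => ENNReal.ofReal (lam p))
  · calc ‖Fk k s b φ - Fk k s a φ‖ₑ
        ≤ ENNReal.ofReal |k s (pph s b φ) / pph s b φ - k s (pph s a φ) / pph s a φ| := by
          rw [Real.enorm_eq_ofReal_abs]
          apply ENNReal.ofReal_le_ofReal
          have e : Fk k s b φ - Fk k s a φ = (k s (pph s b φ) / pph s b φ -
              k s (pph s a φ) / pph s a φ) * Real.cos φ ^ 2 := by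
            unfold Fk
            ring
          rw [e, abs_mul, abs_of_nonneg (sq_nonneg (Real.cos φ))]
          have hc1 : Real.cos φ ^ 2 ≤ 1 := by
            nlinarith [Real.sin_sq_add_cos_sq φ, sq_nonneg (Real.sin φ)]
          exact mul_le_of_le_one_right (abs_nonneg _) hc1
      _ ≤ ENNReal.ofReal B * ∫⁻ p in Ioo (pph s a φ) (pph s b φ), ENNReal.ofReal (lam p) := h1
      _ ≤ _ := mul_le_mul' le_rfl h2
  · intro t ht
    have h0 : 0 < t := ha.trans_lt ht.1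
    have hp := pph_pos (t := t) hs hφ
    positivity
  · intro x hx y hy hxy
    rcases lt_trichotomy x y with h | h | h
    · exact absurd hxy (hmono x y (ha.trans hx.1.le) h).ne
    · exact h
    · exact absurd hxy.symm (hmono y x (ha.trans hy.1.le) h).ne
  · apply intermediate_value_Ioo hab
    exact fun t _ => (pph_deriv_t hs hφ).continuousAt.continuousWithinAt

/-! ### The function `R` -/

/-- what is used of the functions `n_e` -/
structure NH (n : ℝ → ℝ) : Prop where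
  bd : ∀ s, 0 ≤ s → s ≤ 1 → |n s| ≤ 20
  meas : AEStronglyMeasurable n (volume.restrict (Ioc 0 1))

/-- the integrand of `R` -/
noncomputable def hR (n₁ n₂ : ℝ → ℝ) (k₁ k₂ : ℝ → ℝ → ℝ) (s t : ℝ) : ℝ :=
  s * (n₁ s * Jk k₁ s t - n₂ s * Jk k₂ s t)

variable {n₁ n₂ : ℝ → ℝ} {k₁ k₂ : ℝ → ℝ → ℝ}

theorem h_bd (hn₁ : NH n₁) (hn₂ : NH n₂) (hk₁ : KH B k₁) (hk₂ : KH B k₂) {s t : ℝ}
    (hs : 0 < s) (hs1 : s ≤ 1) (ht : 0 ≤ t) (hts : t ≤ s) : |hR n₁ n₂ k₁ k₂ s t| ≤ 80 * B := by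
  have hB := hk₁.B0
  have a1 := hn₁.bd s hs.le hs1
  have a2 := hn₂.bd s hs.le hs1
  have j1 := J_bd hk₁ hs hs1 ht hts
  have j2 := J_bd hk₂ hs hs1 ht hts
  have hq := Real.sqrt_pos.2 hs
  have hq1 : √s ≤ 1 := Real.sqrt_le_one.2 hs1
  have c1 : |n₁ s * Jk k₁ s t| ≤ 20 * (2 * B / √s) := by
    rw [abs_mul]
    exact mul_le_mul a1 j1 (abs_nonneg _) (by norm_num)
  have c2 : |n₂ s * Jk k₂ s t| ≤ 20 * (2 * B / √s) := by
    rw [abs_mul]
    exact mul_le_mul a2 j2 (abs_nonneg _) (by norm_num)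
  have c3 : |n₁ s * Jk k₁ s t - n₂ s * Jk k₂ s t| ≤ 80 * B / √s := by
    refine (abs_sub _ _).trans ((add_le_add c1 c2).trans (le_of_eq ?_))
    ring
  unfold hR
  rw [abs_mul, abs_of_pos hs]
  calc s * |n₁ s * Jk k₁ s t - n₂ s * Jk k₂ s t| ≤ s * (80 * B / √s) := by gcongr
    _ = 80 * B * √s := by
        nth_rewrite 1 [← Real.mul_self_sqrt hs.le]
        field_simp
    _ ≤ 80 * B * 1 := by gcongr
    _ = 80 * B := by ring

theorem h_int (hn₁ : NH n₁) (hn₂ : NH n₂) (hk₁ : KH B k₁) (hk₂ : KH B k₂) {t a b : ℝ}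
    (ht : 0 ≤ t) (hta : t ≤ a) (hab : a ≤ b) (hb : b ≤ 1) :
    IntervalIntegrable (fun s => hR n₁ n₂ k₁ k₂ s t) volume a b := by
  rw [intervalIntegrable_iff_integrableOn_Ioc_of_le hab]
  have hsub : Ioc a b ⊆ Ioc 0 1 := Ioc_subset_Ioc (ht.trans hta) hb
  have hm : AEStronglyMeasurable (fun s => hR n₁ n₂ k₁ k₂ s t) (volume.restrict (Ioc 0 1)) := by
    unfold hR
    exact AEStronglyMeasurable.mul (by fun_prop) ((hn₁.meas.mul (J_meas hk₁ t)).sub
      (hn₂.meas.mul (J_meas hk₂ t)))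
  have hm2 := hm.mono_measure (Measure.restrict_mono hsub le_rfl)
  refine Integrable.of_bound hm2 (80 * B) ?_
  rw [ae_restrict_iff' measurableSet_Ioc]
  refine ae_of_all _ fun s hs => ?_
  rw [Real.norm_eq_abs]
  exact h_bd hn₁ hn₂ hk₁ hk₂ (ht.trans_lt (hta.trans_lt hs.1)) (hs.2.trans hb) ht
    (hta.trans hs.1.le)

/-- bound and increments of `R` -/
theorem R_all (hL : S_LAM) (hK : S_KI) (hn₁ : NH n₁) (hn₂ : NH n₂) (hk₁ : KH B k₁)
    (hk₂ : KH B k₂) :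
    (∀ t, 0 ≤ t → t ≤ 1 → |∫ s in t..1, hR n₁ n₂ k₁ k₂ s t| ≤ 80 * B) ∧
    (∀ a b, 0 ≤ a → a ≤ b → b ≤ 1 →
      |(∫ s in b..1, hR n₁ n₂ k₁ k₂ s b) - ∫ s in a..1, hR n₁ n₂ k₁ k₂ s a| ≤
        (160 + 720 * π) * B * (√b - √a)) := by
  have hB := hk₁.B0
  have hbd : ∀ t a b, 0 ≤ t → t ≤ a → a ≤ b → b ≤ 1 →
      |∫ s in a..b, hR n₁ n₂ k₁ k₂ s t| ≤ 80 * B * (b - a) := by
    intro t a b ht hta hab hb
    have h := intervalIntegral.norm_integral_le_of_norm_le_const (a := a) (b := b)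
      (f := fun s => hR n₁ n₂ k₁ k₂ s t) (C := 80 * B) ?_
    · rw [Real.norm_eq_abs, abs_of_nonneg (by linarith : 0 ≤ b - a)] at h
      exact h
    · intro s hs
      rw [uIoc_of_le hab] at hs
      rw [Real.norm_eq_abs]
      exact h_bd hn₁ hn₂ hk₁ hk₂ (ht.trans_lt (hta.trans_lt hs.1)) (hs.2.trans hb) ht
        (hta.trans hs.1.le)
  refine ⟨fun t ht ht1 => (hbd t t 1 ht le_rfl ht1 le_rfl).trans (by nlinarith), ?_⟩
  intro a b ha hab hb
  have hb0 := ha.trans hab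
  have hsa := Real.sqrt_nonneg a
  have hsab : √a ≤ √b := Real.sqrt_le_sqrt hab
  have hsb : √b ≤ 1 := Real.sqrt_le_one.2 hb
  have split : (∫ s in b..1, hR n₁ n₂ k₁ k₂ s b) - ∫ s in a..1, hR n₁ n₂ k₁ k₂ s a =
      (∫ s in b..1, (hR n₁ n₂ k₁ k₂ s b - hR n₁ n₂ k₁ k₂ s a)) -
        ∫ s in a..b, hR n₁ n₂ k₁ k₂ s a := by
    rw [intervalIntegral.integral_sub (h_int hn₁ hn₂ hk₁ hk₂ hb0 le_rfl hb le_rfl)
      (h_int hn₁ hn₂ hk₁ hk₂ ha hab hb le_rfl),
      ← intervalIntegral.integral_add_adjacent_intervals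
      (h_int hn₁ hn₂ hk₁ hk₂ ha le_rfl hab hb) (h_int hn₁ hn₂ hk₁ hk₂ ha hab hb le_rfl)]
    ring
  rw [split]
  have first : |∫ s in a..b, hR n₁ n₂ k₁ k₂ s a| ≤ 160 * B * (√b - √a) := by
    refine (hbd a a b ha le_rfl hab hb).trans ?_
    have e : b - a = (√b - √a) * (√b + √a) := by
      nth_rewrite 1 [← Real.mul_self_sqrt hb0, ← Real.mul_self_sqrt ha]
      ring
    have e2 : b - a ≤ 2 * (√b - √a) := by
      rw [e]
      nlinarith [mul_nonneg (sub_nonneg.2 hsab) (by linarith : 0 ≤ 2 - (√b + √a))]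
    nlinarith [mul_nonneg hB (sub_nonneg.2 e2)]
  have second : |∫ s in b..1, (hR n₁ n₂ k₁ k₂ s b - hR n₁ n₂ k₁ k₂ s a)| ≤
      720 * π * B * (√b - √a) := by
    rw [intervalIntegral.integral_of_le hb, integral_Ioc_eq_integral_Ioo]
    have h1 := enorm_integral_le_lintegral_enorm (μ := volume.restrict (Ioo b 1))
      (fun s => hR n₁ n₂ k₁ k₂ s b - hR n₁ n₂ k₁ k₂ s a)
    have h2 : ∫⁻ s in Ioo b 1, ‖hR n₁ n₂ k₁ k₂ s b - hR n₁ n₂ k₁ k₂ s a‖ₑ ≤
        ENNReal.ofReal (40 * B) * ENNReal.ofReal (18 * π * (√b - √a)) := by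
      refine le_trans ?_ (mul_le_mul' le_rfl (M3 hK ha hb))
      rw [← lintegral_const_mul']
      swap
      · exact ENNReal.ofReal_ne_top
      apply lintegral_mono_ae
      rw [ae_restrict_iff' measurableSet_Ioo]
      refine ae_of_all _ fun s hs => ?_
      have hs0 : 0 < s := hb0.trans_lt hs.1
      have d1 := J_diff hL hk₁ hs0 hs.2.le ha hab hs.1.le
      have d2 := J_diff hL hk₂ hs0 hs.2.le ha hab hs.1.le
      have e : hR n₁ n₂ k₁ k₂ s b - hR n₁ n₂ k₁ k₂ s a =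
          s * (n₁ s * (Jk k₁ s b - Jk k₁ s a) - n₂ s * (Jk k₂ s b - Jk k₂ s a)) := by
        unfold hR
        ring
      have m1 : ‖n₁ s‖ₑ ≤ ENNReal.ofReal 20 := by
        rw [Real.enorm_eq_ofReal_abs]
        exact ENNReal.ofReal_le_ofReal (hn₁.bd s hs0.le hs.2.le)
      have m2 : ‖n₂ s‖ₑ ≤ ENNReal.ofReal 20 := by
        rw [Real.enorm_eq_ofReal_abs]
        exact ENNReal.ofReal_le_ofReal (hn₂.bd s hs0.le hs.2.le)
      rw [e, enorm_mul]
      generalize (∫⁻ φ in Ioo 0 (π / 2), ∫⁻ t in Ioo a b,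
        ENNReal.ofReal (t * Real.cos φ ^ 2 / pph s t φ) * ENNReal.ofReal (lam (pph s t φ))) = Φ
        at d1 d2 ⊢
      calc ‖s‖ₑ * ‖n₁ s * (Jk k₁ s b - Jk k₁ s a) - n₂ s * (Jk k₂ s b - Jk k₂ s a)‖ₑ
          ≤ ‖s‖ₑ * (‖n₁ s * (Jk k₁ s b - Jk k₁ s a)‖ₑ + ‖n₂ s * (Jk k₂ s b - Jk k₂ s a)‖ₑ) :=
            mul_le_mul' le_rfl (enorm_sub_le)
        _ ≤ ENNReal.ofReal s * (ENNReal.ofReal 20 * (ENNReal.ofReal B * Φ) +
              ENNReal.ofReal 20 * (ENNReal.ofReal B * Φ)) := by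
            rw [enorm_mul, enorm_mul, Real.enorm_eq_ofReal hs0.le]
            exact mul_le_mul' le_rfl (add_le_add (mul_le_mul' m1 d1) (mul_le_mul' m2 d2))
        _ = ENNReal.ofReal (40 * B) * (ENNReal.ofReal s * Φ) := by
            rw [ENNReal.ofReal_mul (by norm_num : (0 : ℝ) ≤ 40)]
            have : ENNReal.ofReal 40 = ENNReal.ofReal 20 + ENNReal.ofReal 20 := by
              rw [← ENNReal.ofReal_add (by norm_num) (by norm_num)]
              norm_num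
            rw [this]
            ring
    have h3 := h1.trans h2
    rw [Real.enorm_eq_ofReal_abs, ← ENNReal.ofReal_mul (by positivity)] at h3
    have h4 : 0 ≤ 40 * B * (18 * π * (√b - √a)) := by
      have := sub_nonneg.2 hsab
      positivity
    have h5 := (ENNReal.ofReal_le_ofReal_iff h4).1 h3
    refine h5.trans (le_of_eq ?_)
    ring
  calc _ ≤ |∫ s in b..1, (hR n₁ n₂ k₁ k₂ s b - hR n₁ n₂ k₁ k₂ s a)| +
        |∫ s in a..b, hR n₁ n₂ k₁ k₂ s a| := abs_sub _ _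
    _ ≤ 720 * π * B * (√b - √a) + 160 * B * (√b - √a) := add_le_add second first
    _ = (160 + 720 * π) * B * (√b - √a) := by ring

end RPaux

open RPaux in
/-- §4.2 -/
theorem RP (_hA : S_FactsA) (hB : S_FactsB) (hk : S_KB) (hK : S_KI) (hL : S_LAM) : S_RP := by
  obtain ⟨δ₁, hδ₁, -, hB⟩ := hB
  obtain ⟨C, hC, δ₂, hδ₂, hk⟩ := hk
  refine ⟨(160 + 720 * π) * C, by positivity, min δ₁ δ₂, lt_min hδ₁ hδ₂, ?_⟩
  intro δ hδ hδm S hS
  have fB := hB δ hδ (hδm.trans (min_le_left _ _)) S hS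
  have fk := hk δ hδ (hδm.trans (min_le_right _ _)) S hS
  have kh : ∀ e, (e = 1 ∨ e = -1) → KH (C * δ ^ 3) (kk δ S e) := fun e he =>
    { B0 := by positivity
      b1 := fun s hs hs1 => (fk e he s hs hs1).1
      b2 := fun s hs hs1 => (fk e he s hs hs1).2
      cont := fB.kk_cont e he }
  have nh : ∀ e, (e = 1 ∨ e = -1) → NH (nn δ S e) := by
    intro e he
    refine ⟨fun s hs hs1 => ?_, ?_⟩
    · have := fB.nn_bd e he s hs hs1
      rw [abs_of_nonneg this.1]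
      exact this.2
    · have h1 := (fB.nn_ctL e he).aestronglyMeasurable (μ := volume) measurableSet_Ico
      have h2 := (fB.nn_ctR e he).aestronglyMeasurable (μ := volume) measurableSet_Icc
      have h3 : AEStronglyMeasurable (nn δ S e) (volume.restrict (Ico 0 (1 / 2) ∪
          Icc (1 / 2) 1)) := aestronglyMeasurable_union_iff.2 ⟨h1, h2⟩
      refine h3.mono_measure (Measure.restrict_mono ?_ le_rfl)
      intro x hx
      rcases lt_or_ge x (1 / 2) with h | h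
      · exact Or.inl ⟨hx.1.le, h⟩
      · exact Or.inr ⟨h, hx.2⟩
  have hall := R_all hL hK (nh 1 (Or.inl rfl)) (nh (-1) (Or.inr rfl)) (kh 1 (Or.inl rfl))
    (kh (-1) (Or.inr rfl))
  have hπ := Real.pi_pos
  refine ⟨fun t ht ht1 => (hall.1 t ht ht1).trans ?_, fun a b ha hab hb => ?_⟩
  · have : 0 < C * δ ^ 3 := by positivity
    nlinarith [mul_pos hπ this]
  · refine (hall.2 a b ha hab hb).trans (le_of_eq ?_)
    ring

end Pool.Agent.HV
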