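import Pool.Agent.HV.Stmts
import Pool.Agent.Lib_helper47.RBrouwer

/-!
# Module HV_SCH (MP_678b51_gt): Schauder's fixed point theorem
-/

set_option autoImplicit false

open MeasureTheory Set Filter Metric
open scoped Real Topology ENNReal

namespace Pool.Agent.HV

namespace SCHx

variable {ι : Type} [Fintype ι]

/-- the defect of a vector from the standard simplex -/
noncomputable def cf (y : EuclideanSpace ℝ ι) : ℝ := |1 - ∑ i, max 0 (y i)|

/-- the denominator of the retraction onto the simplex -/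
noncomputable def den (y : EuclideanSpace ℝ ι) : ℝ := ∑ i, max 0 (y i) + Fintype.card ι * cf y

/-- the retraction onto the standard simplex -/
noncomputable def ret (y : EuclideanSpace ℝ ι) (i : ι) : ℝ := (max 0 (y i) + cf y) / den y

lemma den_pos [Nonempty ι] (y : EuclideanSpace ℝ ι) : 0 < den y := by
  have h1 : 0 ≤ ∑ i, max 0 (y i) := Finset.sum_nonneg fun i _ => le_max_left _ _
  have h2 : 0 ≤ cf y := abs_nonneg _
  have h3 : (1 : ℝ) ≤ Fintype.card ι := by exact_mod_cast Fintype.card_pos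
  have h4 : 1 - ∑ i, max 0 (y i) ≤ cf y := le_abs_self _
  unfold den
  nlinarith

lemma ret_nonneg [Nonempty ι] (y : EuclideanSpace ℝ ι) (i : ι) : 0 ≤ ret y i :=
  div_nonneg (add_nonneg (le_max_left _ _) (abs_nonneg _)) (den_pos y).le

lemma ret_sum [Nonempty ι] (y : EuclideanSpace ℝ ι) : ∑ i, ret y i = 1 := by
  unfold ret
  rw [← Finset.sum_div, Finset.sum_add_distrib, div_eq_one_iff_eq (den_pos y).ne']
  simp [den]

lemma ret_eq [Nonempty ι] (y : EuclideanSpace ℝ ι) (h0 : ∀ i, 0 ≤ y i) (h1 : ∑ i, y i = 1)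
    (i : ι) : ret y i = y i := by
  have h2 : ∑ i, max 0 (y i) = 1 := by
    rw [← h1]
    exact Finset.sum_congr rfl fun i _ => max_eq_right (h0 i)
  have h3 : cf y = 0 := by simp [cf, h2]
  simp [ret, den, h2, h3, max_eq_right (h0 i)]

lemma cf_cont : Continuous (cf : EuclideanSpace ℝ ι → ℝ) := by
  unfold cf
  fun_prop

lemma den_cont : Continuous (den : EuclideanSpace ℝ ι → ℝ) := by
  have := cf_cont (ι := ι)
  unfold den
  fun_prop

lemma ret_cont [Nonempty ι] (i : ι) : Continuous fun y : EuclideanSpace ℝ ι => ret y i := by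
  have h1 := cf_cont (ι := ι)
  have h2 := den_cont (ι := ι)
  unfold ret
  exact (by fun_prop : Continuous fun y : EuclideanSpace ℝ ι => max 0 (y i) + cf y).div h2
    fun y => (den_pos y).ne'

theorem approx {E : Type} [NormedAddCommGroup E] [NormedSpace ℝ E] {K : Set E}
    (hK : IsCompact K) (hc : Convex ℝ K) (hne : K.Nonempty) {f : E → E} (hf : ContinuousOn f K)
    (hm : MapsTo f K K) {ε : ℝ} (hε : 0 < ε) : ∃ x ∈ K, ‖f x - x‖ ≤ ε := by
  obtain ⟨t, htK, htf, hcov⟩ := hK.finite_cover_balls hε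
  have : Fintype t := htf.fintype
  have : Nonempty t := by
    obtain ⟨x, hx⟩ := hne
    obtain ⟨i, hi, _⟩ := mem_iUnion₂.1 (hcov hx)
    exact ⟨⟨i, hi⟩⟩
  set w : t → E → ℝ := fun i z => max 0 (ε - ‖z - (i : E)‖) with hw
  set W : E → ℝ := fun z => ∑ i, w i z with hW
  have w0 : ∀ i z, 0 ≤ w i z := fun i z => le_max_left _ _
  have Wpos : ∀ z ∈ K, 0 < W z := by
    intro z hz
    obtain ⟨i, hi, hzi⟩ := mem_iUnion₂.1 (hcov hz)
    rw [mem_ball, dist_eq_norm] at hzi
    refine Finset.sum_pos' (fun i _ => w0 i z) ⟨⟨i, hi⟩, Finset.mem_univ _, ?_⟩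
    exact lt_max_of_lt_right (by simpa using hzi)
  have wc : ∀ i, Continuous (w i) := by
    intro i
    simp only [hw]
    fun_prop
  have Wc : Continuous W := continuous_finsetSum _ fun i _ => wc i
  set z : EuclideanSpace ℝ t → E := fun y => ∑ i, ret y i • (i : E) with hz
  have zK : ∀ y, z y ∈ K := fun y =>
    hc.sum_mem (fun i _ => ret_nonneg y i) (ret_sum y) (fun i _ => htK i.2)
  have zc : Continuous z := continuous_finsetSum _ fun i _ => (ret_cont i).smul continuous_const
  have fz : Continuous fun y => f (z y) := hf.comp_continuous zc zK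
  set F : EuclideanSpace ℝ t → EuclideanSpace ℝ t := fun y =>
    WithLp.toLp 2 (fun i => w i (f (z y)) / W (f (z y))) with hF
  have Fi : ∀ y i, F y i = w i (f (z y)) / W (f (z y)) := fun y i => rfl
  have F0 : ∀ y i, 0 ≤ F y i := by
    intro y i
    rw [Fi]
    exact div_nonneg (w0 _ _) (Wpos _ (hm (zK y))).le
  have F1 : ∀ y, ∑ i, F y i = 1 := by
    intro y
    simp only [Fi]
    rw [← Finset.sum_div, div_eq_one_iff_eq (Wpos _ (hm (zK y))).ne']
  have Fc : Continuous F := by
    refine (PiLp.continuous_toLp 2 (fun _ : t => ℝ)).comp ?_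
    refine continuous_pi fun i => ?_
    exact ((wc i).comp fz).div (Wc.comp fz) fun y => (Wpos _ (hm (zK y))).ne'
  have Fm : MapsTo F (closedBall 0 1) (closedBall 0 1) := by
    intro y _
    rw [mem_closedBall, dist_zero_right, EuclideanSpace.norm_eq, Real.sqrt_le_one,
      ← F1 y]
    refine Finset.sum_le_sum fun i _ => ?_
    have h1 : F y i ≤ 1 := by
      rw [← F1 y]
      exact Finset.single_le_sum (fun i _ => F0 y i) (Finset.mem_univ i)
    rw [Real.norm_eq_abs, sq_abs]
    nlinarith [F0 y i]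
  obtain ⟨y, _, hy⟩ := Pool.Agent.Lib_helper47.R.brouwer Fc.continuousOn Fm
  have y0 : ∀ i, 0 ≤ y i := fun i => by rw [← hy]; exact F0 y i
  have y1 : ∑ i, y i = 1 := by
    have := F1 y
    rwa [hy] at this
  have hr : ∀ i, ret y i = y i := ret_eq y y0 y1
  refine ⟨z y, zK y, ?_⟩
  have e : f (z y) - z y = ∑ i, y i • (f (z y) - (i : E)) := by
    simp only [smul_sub]
    rw [Finset.sum_sub_distrib, ← Finset.sum_smul, y1, one_smul]
    congr 1
    simp only [hz, hr]
  rw [e]
  calc ‖∑ i, y i • (f (z y) - (i : E))‖ ≤ ∑ i, ‖y i • (f (z y) - (i : E))‖ := norm_sum_le _ _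
    _ ≤ ∑ i, y i * ε := by
        refine Finset.sum_le_sum fun i _ => ?_
        rw [norm_smul, Real.norm_of_nonneg (y0 i)]
        by_cases h : ‖f (z y) - (i : E)‖ ≤ ε
        · exact mul_le_mul_of_nonneg_left h (y0 i)
        · push Not at h
          have h1 : w i (f (z y)) = 0 := max_eq_left (by linarith)
          have h2 : y i = 0 := by
            have := Fi y i
            rw [hy, h1, zero_div] at this
            exact this
          rw [h2]
          simp
    _ = ε := by rw [← Finset.sum_mul, y1, one_mul]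

end SCHx

theorem SCH : S_SCH := by
  intro E _ _ K hK hc hne f hf hm
  obtain ⟨x, hx, hmin⟩ := hK.exists_isMinOn hne (f := fun x => ‖f x - x‖)
    ((hf.sub continuousOn_id).norm)
  refine ⟨x, hx, ?_⟩
  have h0 : ‖f x - x‖ ≤ 0 := by
    refine le_of_forall_pos_le_add fun ε hε => ?_
    obtain ⟨y, hy, hle⟩ := SCHx.approx hK hc hne hf hm hε
    have := hmin hy
    simp only [Set.mem_ofPred_eq] at this
    linarith
  exact sub_eq_zero.1 (norm_le_zero_iff.1 h0)

end Pool.Agent.HV
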