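import Pool.Agent.HV.Stmts

/-!
# Area of a part of `SS` from the area formula (§1.3)   (module 356, helper6)
-/

set_option autoImplicit false

open MeasureTheory Set Filter
open scoped Real Topology ENNReal

namespace Pool.Agent.HV

namespace SFaux

/-- the circle `x = a`, distance `ρ` from the axis -/
def circ (a ρ : ℝ) : Set E3 := {P | P 0 = a ∧ vr P = ρ}

theorem contDiff_circ (a ρ : ℝ) :
    ContDiff ℝ 1 (fun θ : ℝ => (!₂[a, ρ * Real.cos θ, ρ * Real.sin θ] : E3)) := by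
  rw [contDiff_euclidean]
  intro i
  fin_cases i
  · simpa using contDiff_const
  · simpa using contDiff_const.mul Real.contDiff_cos
  · simpa using contDiff_const.mul Real.contDiff_sin

theorem circ_subset (a ρ : ℝ) :
    circ a ρ ⊆ range (fun θ : ℝ => (!₂[a, ρ * Real.cos θ, ρ * Real.sin θ] : E3)) := by
  rintro P ⟨h0, h1⟩
  refine ⟨Complex.arg ⟨P 1, P 2⟩, ?_⟩
  have hn : ‖(⟨P 1, P 2⟩ : ℂ)‖ = ρ := by
    rw [← h1, vr, Complex.norm_def, Complex.normSq_mk]
    congr 1
    ring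
  have hc := Complex.norm_mul_cos_arg ⟨P 1, P 2⟩
  have hs := Complex.norm_mul_sin_arg ⟨P 1, P 2⟩
  rw [hn] at hc hs
  ext i
  fin_cases i
  · simpa using h0.symm
  · simpa using hc
  · simpa using hs

theorem circ_null (a ρ : ℝ) : Measure.euclideanHausdorffMeasure 2 (circ a ρ) = 0 := by
  have h1 : dimH (range (fun θ : ℝ => (!₂[a, ρ * Real.cos θ, ρ * Real.sin θ] : E3))) ≤
      Module.finrank ℝ ℝ := (contDiff_circ a ρ).dimH_range_le
  have h2 : dimH (range (fun θ : ℝ => (!₂[a, ρ * Real.cos θ, ρ * Real.sin θ] : E3))) <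
      ((2 : NNReal) : ℝ≥0∞) := by
    refine lt_of_le_of_lt h1 ?_
    simp
  have h3 := hausdorffMeasure_of_dimH_lt h2
  have h4 : Measure.euclideanHausdorffMeasure 2
      (range (fun θ : ℝ => (!₂[a, ρ * Real.cos θ, ρ * Real.sin θ] : E3))) = 0 := by
    rw [Measure.euclideanHausdorffMeasure_def, Measure.smul_apply]
    have h5 : μH[((2 : ℕ) : ℝ)]
        (range (fun θ : ℝ => (!₂[a, ρ * Real.cos θ, ρ * Real.sin θ] : E3))) = 0 := by
      have h6 : (((2 : ℕ) : ℝ)) = ((2 : NNReal) : ℝ) := by norm_num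
      rw [h6]
      exact h3
    rw [h5]
    simp
  exact measure_mono_null (circ_subset a ρ) h4

theorem meas_vr : Measurable vr := by
  unfold vr
  fun_prop

theorem split {μ : Measure E3} (T : Set E3) (f : E3 → ℝ) (hf : Measurable f) (c : ℝ)
    (h0 : μ (T ∩ {P | f P = c}) = 0) :
    μ T = μ (T ∩ {P | c < f P}) + μ (T ∩ {P | f P < c}) := by
  have m1 : MeasurableSet {P | c < f P} := measurableSet_lt measurable_const hf
  have m2 : MeasurableSet {P | f P < c} := measurableSet_lt hf measurable_const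
  have e1 := measure_inter_add_sdiff (μ := μ) T m1
  have e2 := measure_inter_add_sdiff (μ := μ) (T \ {P | c < f P}) m2
  have e3 : (T \ {P | c < f P}) ∩ {P | f P < c} = T ∩ {P | f P < c} := by
    ext P
    simp only [mem_inter_iff, Set.mem_sdiff, mem_ofPred_eq, not_lt]
    constructor
    · rintro ⟨⟨h1, h2⟩, h3⟩
      exact ⟨h1, h3⟩
    · rintro ⟨h1, h3⟩
      exact ⟨⟨h1, h3.le⟩, h3⟩
  have e4 : μ ((T \ {P | c < f P}) \ {P | f P < c}) = 0 := by
    refine measure_mono_null ?_ h0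
    rintro P ⟨⟨h1, h2⟩, h3⟩
    simp only [mem_ofPred_eq, not_lt] at h2 h3
    exact ⟨h1, le_antisymm h2 h3⟩
  rw [e3, e4, add_zero] at e2
  rw [← e1, e2]

section

variable {δ : ℝ} {A dA : ℝ → ℝ} {x u : ℝ → ℝ → ℝ}

theorem esq {e : ℝ} (he : e = 1 ∨ e = -1) : e * e = 1 := by
  rcases he with h | h <;> rw [h] <;> norm_num

theorem A0 (hP : Prof δ A dA x u) : A 0 = 0 := by
  have := hP.Aodd 0
  simp only [neg_zero] at this
  linarith

theorem Ab (hP : Prof δ A dA x u) (t : ℝ) (ht : 0 ≤ t) : |A t| ≤ t / 10 := by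
  have h := (convex_univ (𝕜 := ℝ) (E := ℝ)).norm_image_sub_le_of_norm_hasDerivWithin_le
    (f := A) (f' := dA) (C := 1 / 10) (x := 0) (y := t)
    (fun s _ => (hP.hA s).hasDerivWithinAt) (fun s _ => by simpa using hP.dAb s)
    (mem_univ _) (mem_univ _)
  rw [A0 hP] at h
  simp only [sub_zero, Real.norm_eq_abs] at h
  rw [abs_of_nonneg ht] at h
  linarith

theorem xanti (hP : Prof δ A dA x u) {e : ℝ} (he : e = 1 ∨ e = -1) :
    StrictAntiOn (x e) (Icc 0 1) := by
  have hd : 0 < δ ^ 2 := pow_pos hP.δ0 2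
  have h1 : StrictAntiOn (x e) (Icc 0 (1 / 2)) := by
    refine strictAntiOn_of_deriv_neg (convex_Icc _ _)
      ((hP.xc e).mono (Icc_subset_Icc le_rfl (by norm_num))) ?_
    intro t ht
    rw [interior_Icc] at ht
    rw [(hP.hx e he t ht.1 (by linarith [ht.2]) ht.2.ne).deriv]
    have := (hP.ub e he t ht.1.le (by linarith [ht.2])).2
    nlinarith
  have h2 : StrictAntiOn (x e) (Icc (1 / 2) 1) := by
    refine strictAntiOn_of_deriv_neg (convex_Icc _ _)
      ((hP.xc e).mono (Icc_subset_Icc (by norm_num) le_rfl)) ?_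
    intro t ht
    rw [interior_Icc] at ht
    rw [(hP.hx e he t (by linarith [ht.1]) ht.2 ht.1.ne').deriv]
    have := (hP.ub e he t (by linarith [ht.1]) ht.2.le).2
    nlinarith
  have h3 := h1.union h2 (isGreatest_Icc (by norm_num)) (isLeast_Icc (by norm_num))
  rwa [Icc_union_Icc_eq_Icc (by norm_num) (by norm_num)] at h3

theorem x_ge (hP : Prof δ A dA x u) {e : ℝ} (he : e = 1 ∨ e = -1) {t : ℝ} (h0 : 0 ≤ t)
    (h1 : t ≤ 1) : 3 ≤ x e t := by
  have := (xanti hP he).antitoneOn ⟨h0, h1⟩ (right_mem_Icc.2 zero_le_one) h1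
  rwa [hP.x1 e] at this

theorem x_gt (hP : Prof δ A dA x u) {e : ℝ} (he : e = 1 ∨ e = -1) {t : ℝ} (h0 : 0 ≤ t)
    (h1 : t < 1) : 3 < x e t := by
  have := (xanti hP he) ⟨h0, h1.le⟩ (right_mem_Icc.2 zero_le_one) h1
  rwa [hP.x1 e] at this

theorem rho_pos (hP : Prof δ A dA x u) {e : ℝ} (he : e = 1 ∨ e = -1) {t : ℝ} (h0 : 0 < t)
    (h1 : t ≤ 1) : 0 < rho A x e t := by
  have h2 := x_ge hP he h0.le h1
  have h3 := Ab hP t h0.le
  have h4 := abs_le.1 h3
  unfold rho
  rcases he with h | h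
  · subst h
    nlinarith [h4.1, h4.2]
  · subst h
    nlinarith [h4.1, h4.2]

/-- the surface swept by a curve -/
def Sw (X ρ : ℝ → ℝ) (l r : ℝ) : Set E3 := {P : E3 | ∃ t ∈ Ioo l r, P 0 = X t ∧ vr P = ρ t}

/-- integral for the cap -/
noncomputable def Ic (δ : ℝ) (A dA : ℝ → ℝ) (x u : ℝ → ℝ → ℝ) (e : ℝ) (H : Set E3) (s : ℝ) :
    ℝ≥0∞ :=
  ∫⁻ θ in Ioo (-π) π, ENNReal.ofReal
        (δ ^ 2 * (rho A x e s * √(drho δ dA x u e s ^ 2 + δ ^ 2 * u e s ^ 2))) *
          H.indicator 1 (!₂[e * x e s, δ * rho A x e s * Real.cos θ,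
            δ * rho A x e s * Real.sin θ] : E3)

theorem cap_af (hAF : S_AF) (hP : Prof δ A dA x u) {e : ℝ} (he : e = 1 ∨ e = -1) {l r : ℝ}
    (hl : 0 ≤ l) (hr : r ≤ 1) (hlr : l < r) (hh : ∀ t ∈ Ioo l r, t ≠ 1 / 2)
    (hu : ContinuousOn (u e) (Ioo l r)) {H : Set E3} (hH : MeasurableSet H) :
    Measure.euclideanHausdorffMeasure 2
      (Sw (fun t => e * x e t) (fun t => δ * rho A x e t) l r ∩ H) =
      ∫⁻ t in Ioo l r, Ic δ A dA x u e H t := by
  have hd := hP.δ0
  have key := hAF (fun t => e * x e t) (fun t => δ * rho A x e t)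
    (fun t => e * (δ ^ 2 * u e t)) (fun t => δ * drho δ dA x u e t) l r hlr ?_ ?_ ?_ ?_ ?_ ?_ ?_
    H hH
  · unfold Sw
    rw [key]
    refine setLIntegral_congr_fun measurableSet_Ioo ?_
    intro t ht
    unfold Ic
    have h1 : δ * rho A x e t * √((e * (δ ^ 2 * u e t)) ^ 2 + (δ * drho δ dA x u e t) ^ 2) =
        δ ^ 2 * (rho A x e t * √(drho δ dA x u e t ^ 2 + δ ^ 2 * u e t ^ 2)) := by
      have h2 : (e * (δ ^ 2 * u e t)) ^ 2 + (δ * drho δ dA x u e t) ^ 2 =
          δ ^ 2 * (drho δ dA x u e t ^ 2 + δ ^ 2 * u e t ^ 2) := by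
        have := esq he
        calc _ = (e * e) * (δ ^ 2 * u e t) ^ 2 + (δ * drho δ dA x u e t) ^ 2 := by ring
          _ = _ := by rw [this]; ring
      rw [h2, Real.sqrt_mul (sq_nonneg δ), Real.sqrt_sq hd.le]
      ring
    simp only [h1]
  · intro t ht
    have h0 : 0 < t := lt_of_le_of_lt hl ht.1
    exact (hP.hx e he t h0 (lt_of_lt_of_le ht.2 hr) (hh t ht)).const_mul e
  · intro t ht
    have h0 : 0 < t := lt_of_le_of_lt hl ht.1
    have h1 := hP.hx e he t h0 (lt_of_lt_of_le ht.2 hr) (hh t ht)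
    have h2 : HasDerivAt (fun t => δ * rho A x e t)
        (δ * ((1 * x e t + t * (δ ^ 2 * u e t)) - e * dA t)) t :=
      (((hasDerivAt_id t).mul h1).sub ((hP.hA t).const_mul e)).const_mul δ
    refine h2.congr_deriv ?_
    simp only [drho]
    ring
  · exact continuousOn_const.mul (continuousOn_const.mul hu)
  · refine continuousOn_const.mul ?_
    unfold drho
    have hx := (hP.xc e).mono (show Ioo l r ⊆ Icc 0 1 from fun t ht =>
      ⟨hl.trans ht.1.le, ht.2.le.trans hr⟩)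
    exact (hx.add ((continuousOn_id.mul continuousOn_const).mul hu)).sub
      (continuousOn_const.mul hP.dAc.continuousOn)
  · intro t ht
    exact mul_pos hd (rho_pos hP he (lt_of_le_of_lt hl ht.1) (ht.2.le.trans hr))
  · intro t ht
    have h0 : 0 < t := lt_of_le_of_lt hl ht.1
    have h1 := (hP.ub e he t h0.le (ht.2.le.trans hr)).2
    have h2 : u e t ≠ 0 := by linarith
    have h3 : e ≠ 0 := by rcases he with h | h <;> rw [h] <;> norm_num
    exact mul_ne_zero h3 (mul_ne_zero (pow_ne_zero 2 hd.ne') h2)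
  · intro s hs t ht hst
    have h3 : e ≠ 0 := by rcases he with h | h <;> rw [h] <;> norm_num
    have h4 := mul_left_cancel₀ h3 hst
    exact (xanti hP he).injOn ⟨hl.trans hs.1.le, hs.2.le.trans hr⟩
      ⟨hl.trans ht.1.le, ht.2.le.trans hr⟩ h4

/-- integral for the cone -/
noncomputable def Ik (δ : ℝ) (e : ℝ) (H : Set E3) (r : ℝ) : ℝ≥0∞ :=
  ∫⁻ θ in Ioo (-π) π, ENNReal.ofReal (5 / 4 * δ ^ 2 * r) *
          H.indicator 1 (!₂[e * xr δ r, δ * r * Real.cos θ, δ * r * Real.sin θ] : E3)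

theorem cone_af (hAF : S_AF) (hP : Prof δ A dA x u) {e : ℝ} (he : e = 1 ∨ e = -1)
    {H : Set E3} (hH : MeasurableSet H) :
    Measure.euclideanHausdorffMeasure 2
      (Sw (fun r => e * xr δ r) (fun r => δ * r) 3 (Rh δ) ∩ H) =
      ∫⁻ r in Ioo 3 (Rh δ), Ik δ e H r := by
  have hd := hP.δ0
  have h3 : e ≠ 0 := by rcases he with h | h <;> rw [h] <;> norm_num
  have hR : 3 < Rh δ := by
    unfold Rh
    have : 0 < 4 / δ := by positivity
    linarith
  have key := hAF (fun r => e * xr δ r) (fun r => δ * r)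
    (fun _ => e * (-(3 / 4 * δ))) (fun _ => δ) 3 (Rh δ) hR ?_ ?_ ?_ ?_ ?_ ?_ ?_ H hH
  · unfold Sw
    rw [key]
    refine setLIntegral_congr_fun measurableSet_Ioo ?_
    intro r hr
    unfold Ik
    have h1 : δ * r * √((e * (-(3 / 4 * δ))) ^ 2 + δ ^ 2) = 5 / 4 * δ ^ 2 * r := by
      have h2 : (e * (-(3 / 4 * δ))) ^ 2 + δ ^ 2 = (5 / 4 * δ) ^ 2 := by
        have := esq he
        calc _ = (e * e) * (3 / 4 * δ) ^ 2 + δ ^ 2 := by ring
          _ = _ := by rw [this]; ring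
      rw [h2, Real.sqrt_sq (by positivity)]
      ring
    simp only [h1]
  · intro r _
    have h1 : HasDerivAt (fun r : ℝ => 3 - 3 / 4 * δ * (r - 3)) (-(3 / 4 * δ)) r := by
      have := (((hasDerivAt_id r).sub_const 3).const_mul (3 / 4 * δ)).const_sub 3
      simpa using this
    exact h1.const_mul e
  · intro r _
    simpa using (hasDerivAt_id r).const_mul δ
  · exact continuousOn_const
  · exact continuousOn_const
  · intro r hr
    have : (0 : ℝ) < r := by linarith [hr.1]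
    positivity
  · intro r _
    refine mul_ne_zero h3 ?_
    have : 3 / 4 * δ ≠ 0 := by positivity
    exact neg_ne_zero.2 this
  · intro s _ t _ hst
    have h4 := mul_left_cancel₀ h3 hst
    simp only [xr] at h4
    have h5 : 3 / 4 * δ * (s - 3) = 3 / 4 * δ * (t - 3) := by linarith
    have h6 := mul_left_cancel₀ (show 3 / 4 * δ ≠ 0 by positivity) h5
    linarith

/-- membership in the surface on the side `e` -/
theorem mem_side (hP : Prof δ A dA x u) {e : ℝ} (he : e = 1 ∨ e = -1) (P : E3)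
    (h0 : 0 < e * P 0) :
    P ∈ SS δ A x ↔ (e * P 0 ≤ 3 ∧ vr P = 4 / 3 * (3 + 9 / 4 * δ - e * P 0)) ∨
      ∃ t, 0 ≤ t ∧ t ≤ 1 ∧ e * P 0 = x e t ∧ vr P = δ * rho A x e t := by
  have habs : |P 0| = e * P 0 := by
    rcases he with h | h
    · subst h
      rw [one_mul] at h0 ⊢
      exact abs_of_pos h0
    · subst h
      have : P 0 < 0 := by linarith
      rw [abs_of_neg this]
      ring
  have hno : ∀ e' : ℝ, (e' = 1 ∨ e' = -1) → P ∈ Scap δ A x e' → e' = e := by
    rintro e' he' ⟨t, t0, t1, h1, _⟩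
    have h2 := x_ge hP he' t0 t1
    rcases he with h | h <;> rcases he' with h' | h' <;> subst h <;> subst h'
    · rfl
    · exfalso; linarith
    · exfalso; linarith
    · rfl
  unfold SS
  constructor
  · rintro ((h | h) | h)
    · left
      obtain ⟨h1, h2⟩ := h
      rw [habs] at h1 h2
      exact ⟨h1, h2⟩
    · right
      have := hno 1 (Or.inl rfl) h
      subst this
      exact h
    · right
      have := hno (-1) (Or.inr rfl) h
      subst this
      exact h
  · rintro (h | h)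
    · left; left
      show |P 0| ≤ 3 ∧ vr P = 4 / 3 * (3 + 9 / 4 * δ - |P 0|)
      rw [habs]
      exact h
    · rcases he with h' | h'
      · subst h'
        left; right
        exact h
      · subst h'
        right
        exact h

theorem e_mul_eq {e : ℝ} (he : e = 1 ∨ e = -1) (a b : ℝ) : e * a = b ↔ a = e * b := by
  rcases he with h | h <;> subst h <;> constructor <;> intro h <;> linarith

theorem SF_end (hAF : S_AF) (hP : Prof δ A dA x u) {e : ℝ} (he : e = 1 ∨ e = -1)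
    {H : Set E3} (hH : MeasurableSet H) :
    Measure.euclideanHausdorffMeasure 2 (SS δ A x ∩ H ∩ {P | 0 < e * P 0}) =
      (∫⁻ s in Ioo 0 1, Ic δ A dA x u e H s) + ∫⁻ r in Ioo 3 (Rh δ), Ik δ e H r := by
  have hd := hP.δ0
  have hee := esq he
  set μ : Measure E3 := Measure.euclideanHausdorffMeasure 2 with hμ
  have hf : Measurable (fun P : E3 => e * P 0) := by fun_prop
  -- split at `3`
  have s3 := split (μ := μ) (SS δ A x ∩ H ∩ {P | 0 < e * P 0}) (fun P => e * P 0) hf 3 (by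
    refine measure_mono_null ?_ (circ_null (e * 3) (3 * δ))
    rintro P ⟨⟨⟨h1, _⟩, h2⟩, h3⟩
    simp only [mem_ofPred_eq] at h2 h3
    refine ⟨(e_mul_eq he _ _).1 h3, ?_⟩
    rcases (mem_side hP he P h2).1 h1 with ⟨_, h4⟩ | ⟨t, t0, t1, h4, h5⟩
    · rw [h4, h3]; ring
    · rw [h3] at h4
      have ht : t = 1 := by
        by_contra hne
        have := x_gt hP he t0 (lt_of_le_of_ne t1 hne)
        linarith
      rw [h5, ht, rho, hP.x1 e, hP.Az 1 le_rfl]
      ring)
  -- the cone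
  have hcone : SS δ A x ∩ H ∩ {P | 0 < e * P 0} ∩ {P | e * P 0 < 3} =
      Sw (fun r => e * xr δ r) (fun r => δ * r) 3 (Rh δ) ∩ H := by
    ext P
    constructor
    · rintro ⟨⟨⟨h1, hHP⟩, h2⟩, h3⟩
      simp only [mem_ofPred_eq] at h2 h3
      refine ⟨?_, hHP⟩
      rcases (mem_side hP he P h2).1 h1 with ⟨_, h4⟩ | ⟨t, t0, t1, h4, h5⟩
      · refine ⟨vr P / δ, ⟨?_, ?_⟩, ?_, ?_⟩
        · rw [lt_div_iff₀ hd, h4]
          nlinarith
        · rw [div_lt_iff₀ hd, h4, Rh, add_mul, div_mul_cancel₀ _ hd.ne']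
          nlinarith
        · apply (e_mul_eq he _ _).1
          rw [xr, h4]
          field_simp
          ring
        · show vr P = δ * (vr P / δ)
          field_simp
      · have := x_ge hP he t0 t1
        exfalso
        linarith
    · rintro ⟨⟨r, ⟨r1, r2⟩, h1, h2⟩, hHP⟩
      simp only at h1 h2
      have h1' : e * P 0 = xr δ r := (e_mul_eq he _ _).2 h1
      have h0 : 0 < e * P 0 := by
        rw [h1', xr]
        rw [Rh] at r2
        have : δ * (r - 3) < 4 := by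
          have h5 : r - 3 < 4 / δ := by linarith
          rw [lt_div_iff₀ hd] at h5
          linarith
        nlinarith
      have h3 : e * P 0 < 3 := by
        rw [h1', xr]
        have : 0 < δ * (r - 3) := mul_pos hd (by linarith)
        nlinarith
      refine ⟨⟨⟨?_, hHP⟩, h0⟩, h3⟩
      rw [mem_side hP he P h0]
      left
      refine ⟨h3.le, ?_⟩
      rw [h1', h2, xr]
      ring
  -- the cap
  set xm := x e (1 / 2) with hxm
  have s2 := split (μ := μ) (SS δ A x ∩ H ∩ {P | 0 < e * P 0} ∩ {P | 3 < e * P 0})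
    (fun P => e * P 0) hf xm (by
    refine measure_mono_null ?_ (circ_null (e * xm) (δ * rho A x e (1 / 2)))
    rintro P ⟨⟨⟨⟨h1, _⟩, h2⟩, h3⟩, h4⟩
    simp only [mem_ofPred_eq] at h2 h3 h4
    refine ⟨(e_mul_eq he _ _).1 h4, ?_⟩
    rcases (mem_side hP he P h2).1 h1 with ⟨h5, _⟩ | ⟨t, t0, t1, h5, h6⟩
    · exfalso; linarith
    · have ht : t = 1 / 2 := (xanti hP he).injOn ⟨t0, t1⟩ (by norm_num) (by rw [← h5, h4])
      rw [h6, ht])
  have hxm3 : 3 < xm := x_gt hP he (by norm_num) (by norm_num)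
  -- right part of the cap, `1/2 < t < 1`
  have hR : SS δ A x ∩ H ∩ {P | 0 < e * P 0} ∩ {P | 3 < e * P 0} ∩ {P | e * P 0 < xm} =
      Sw (fun t => e * x e t) (fun t => δ * rho A x e t) (1 / 2) 1 ∩ H := by
    ext P
    constructor
    · rintro ⟨⟨⟨⟨h1, hHP⟩, h2⟩, h3⟩, h4⟩
      simp only [mem_ofPred_eq] at h2 h3 h4
      refine ⟨?_, hHP⟩
      rcases (mem_side hP he P h2).1 h1 with ⟨h5, _⟩ | ⟨t, t0, t1, h5, h6⟩
      · exfalso; linarith
      · refine ⟨t, ⟨?_, ?_⟩, (e_mul_eq he _ _).1 h5, h6⟩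
        · by_contra hh
          have h7 := (xanti hP he).antitoneOn ⟨t0, t1⟩ (show (1 / 2 : ℝ) ∈ Icc 0 1 by norm_num)
            (not_lt.1 hh)
          linarith
        · refine lt_of_le_of_ne t1 ?_
          rintro rfl
          rw [hP.x1 e] at h5
          linarith
    · rintro ⟨⟨t, ⟨t1, t2⟩, h1, h2⟩, hHP⟩
      simp only at h1 h2
      have h1' : e * P 0 = x e t := (e_mul_eq he _ _).2 h1
      have h3 : 3 < e * P 0 := by
        rw [h1']; exact x_gt hP he (by linarith) t2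
      have h4 : e * P 0 < xm := by
        rw [h1']
        exact (xanti hP he) (show (1 / 2 : ℝ) ∈ Icc 0 1 by norm_num) ⟨by linarith, t2.le⟩ t1
      have h0 : 0 < e * P 0 := by linarith
      refine ⟨⟨⟨⟨?_, hHP⟩, h0⟩, h3⟩, h4⟩
      rw [mem_side hP he P h0]
      right
      exact ⟨t, by linarith, t2.le, h1', h2⟩
  -- left part of the cap, `0 ≤ t < 1/2`
  have hL1 : Sw (fun t => e * x e t) (fun t => δ * rho A x e t) 0 (1 / 2) ∩ H ⊆
      SS δ A x ∩ H ∩ {P | 0 < e * P 0} ∩ {P | 3 < e * P 0} ∩ {P | xm < e * P 0} := by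
    rintro P ⟨⟨t, ⟨t1, t2⟩, h1, h2⟩, hHP⟩
    simp only at h1 h2
    have h1' : e * P 0 = x e t := (e_mul_eq he _ _).2 h1
    have h4 : xm < e * P 0 := by
      rw [h1']
      exact (xanti hP he) ⟨t1.le, by linarith⟩ (show (1 / 2 : ℝ) ∈ Icc 0 1 by norm_num) t2
    have h3 : 3 < e * P 0 := by linarith
    have h0 : 0 < e * P 0 := by linarith
    refine ⟨⟨⟨⟨?_, hHP⟩, h0⟩, h3⟩, h4⟩
    rw [mem_side hP he P h0]
    right
    exact ⟨t, t1.le, by linarith, h1', h2⟩
  have hL2 : SS δ A x ∩ H ∩ {P | 0 < e * P 0} ∩ {P | 3 < e * P 0} ∩ {P | xm < e * P 0} ⊆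
      (Sw (fun t => e * x e t) (fun t => δ * rho A x e t) 0 (1 / 2) ∩ H) ∪
        circ (e * x e 0) (δ * rho A x e 0) := by
    rintro P ⟨⟨⟨⟨h1, hHP⟩, h2⟩, h3⟩, h4⟩
    simp only [mem_ofPred_eq] at h2 h3 h4
    rcases (mem_side hP he P h2).1 h1 with ⟨h5, _⟩ | ⟨t, t0, t1, h5, h6⟩
    · exfalso; linarith
    · rcases t0.eq_or_lt with h | h
      · right
        subst h
        exact ⟨(e_mul_eq he _ _).1 h5, h6⟩
      · left
        refine ⟨⟨t, ⟨h, ?_⟩, (e_mul_eq he _ _).1 h5, h6⟩, hHP⟩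
        by_contra hh
        have h7 := (xanti hP he).antitoneOn (show (1 / 2 : ℝ) ∈ Icc 0 1 by norm_num) ⟨t0, t1⟩
          (not_lt.1 hh)
        linarith
  have hL : μ (SS δ A x ∩ H ∩ {P | 0 < e * P 0} ∩ {P | 3 < e * P 0} ∩ {P | xm < e * P 0}) =
      μ (Sw (fun t => e * x e t) (fun t => δ * rho A x e t) 0 (1 / 2) ∩ H) := by
    refine le_antisymm ?_ (measure_mono hL1)
    refine (measure_mono hL2).trans ((measure_union_le _ _).trans ?_)
    rw [circ_null, add_zero]
  rw [s3, hcone, cone_af hAF hP he hH, s2, hR, hL,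
    cap_af hAF hP he le_rfl (by norm_num) (by norm_num) (fun t ht => ht.2.ne)
      ((hP.ucL e).mono Ioo_subset_Ico_self) hH,
    cap_af hAF hP he (by norm_num) le_rfl (by norm_num) (fun t ht => ht.1.ne')
      ((hP.ucR e).mono Ioo_subset_Icc_self) hH]
  congr 1
  have h1 : (Ioo 0 1 : Set ℝ) =ᵐ[volume] (Ioo 0 (1 / 2) ∪ Ioo (1 / 2) 1 : Set ℝ) := by
    have h2 : (Ioo 0 1 : Set ℝ) = (Ioo 0 (1 / 2) ∪ Ioo (1 / 2) 1) ∪ {1 / 2} := by
      ext t
      simp only [mem_union, mem_Ioo, mem_singleton_iff]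
      constructor
      · rintro ⟨h1, h2⟩
        rcases lt_trichotomy t (1 / 2) with h | h | h
        · left; left; exact ⟨h1, h⟩
        · right; exact h
        · left; right; exact ⟨h, h2⟩
      · rintro ((⟨h1, h2⟩ | ⟨h1, h2⟩) | h)
        · exact ⟨h1, by linarith⟩
        · exact ⟨by linarith, h2⟩
        · rw [h]; norm_num
    rw [h2]
    exact union_ae_eq_left_of_ae_eq_empty (by simp)
  rw [setLIntegral_congr h1, lintegral_union measurableSet_Ioo]
  rw [disjoint_left]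
  intro t h1 h2
  exact absurd h1.2 (not_lt.2 h2.1.le)

end

end SFaux

open SFaux in
theorem SF (hAF : S_AF) : S_SF := by
  intro δ A dA x u hP H hH
  have hf : Measurable (fun P : E3 => (1 : ℝ) * P 0) := by fun_prop
  have s0 := split (μ := Measure.euclideanHausdorffMeasure 2) (SS δ A x ∩ H)
    (fun P => (1 : ℝ) * P 0) hf 0 (by
      refine measure_mono_null ?_ (circ_null 0 (4 / 3 * (3 + 9 / 4 * δ)))
      rintro P ⟨⟨h1, _⟩, h2⟩
      simp only [mem_ofPred_eq, one_mul] at h2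
      refine ⟨h2, ?_⟩
      rcases h1 with ((h | h) | h)
      · rw [h.2, h2]
        simp
      · obtain ⟨t, t0, t1, h3, _⟩ := h
        have := x_ge hP (Or.inl rfl) t0 t1
        rw [h2] at h3
        exfalso
        linarith
      · obtain ⟨t, t0, t1, h3, _⟩ := h
        have := x_ge hP (Or.inr rfl) t0 t1
        rw [h2] at h3
        exfalso
        linarith)
  have hm : {P : E3 | (1 : ℝ) * P 0 < 0} = {P : E3 | 0 < (-1 : ℝ) * P 0} := by
    ext P
    simp only [mem_ofPred_eq]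
    constructor <;> intro h <;> linarith
  rw [s0, hm, SF_end hAF hP (Or.inl rfl) hH, SF_end hAF hP (Or.inr rfl) hH]
  simp only [Ic, Ik, one_mul, neg_mul]

end Pool.Agent.HV
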