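import Pool.Agent.HV.Stmts
import Pool.Agent.HV.LAM

/-!
# The map `T` maps the ball into itself, §4.10 (MP_678b51_gt)

Mathematics: helper76; formalisation: helper46.
-/

set_option autoImplicit false

open MeasureTheory Set Filter
open scoped Real Topology ENNReal

namespace Pool.Agent.HV

namespace TBaux

/-! ### elementary facts -/

theorem om_ge {a b : ℝ} (hab : a ≤ b) : 2 * (√b - √a) ≤ Om b - Om a := by
  unfold Om
  have h1 : √(1 / 2 - b) ≤ √(1 / 2 - a) := Real.sqrt_le_sqrt (by linarith)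
  have h2 : √(1 - b) ≤ √(1 - a) := Real.sqrt_le_sqrt (by linarith)
  linarith

theorem sqrt_mono' {a b : ℝ} (hab : a ≤ b) : 0 ≤ √b - √a := by
  have := Real.sqrt_le_sqrt hab
  linarith

theorem om_nonneg {a b : ℝ} (hab : a ≤ b) : 0 ≤ Om b - Om a := by
  have h1 := om_ge hab
  have h2 := sqrt_mono' hab
  linarith

theorem sub_le_sqrt {a b : ℝ} (ha : 0 ≤ a) (hab : a ≤ b) (hb : b ≤ 1) :
    b - a ≤ 2 * (√b - √a) := by
  have h1 : √b ^ 2 = b := Real.sq_sqrt (ha.trans hab)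
  have h2 : √a ^ 2 = a := Real.sq_sqrt ha
  have h3 : √b ≤ 1 := Real.sqrt_le_one.2 hb
  have h4 : √a ≤ √b := Real.sqrt_le_sqrt hab
  have h5 := Real.sqrt_nonneg a
  have h6 : b - a = (√b - √a) * (√b + √a) := by nlinarith
  rw [h6]
  have h7 : 0 ≤ √b - √a := by linarith
  nlinarith

theorem sqrt_add_le' {x y : ℝ} (hx : 0 ≤ x) (hy : 0 ≤ y) : √(x + y) ≤ √x + √y := by
  refine Real.sqrt_le_iff.2 ⟨by positivity, ?_⟩
  nlinarith [Real.sq_sqrt hx, Real.sq_sqrt hy, mul_nonneg (Real.sqrt_nonneg x) (Real.sqrt_nonneg y)]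

theorem om_zero_le {s : ℝ} (hs : 0 ≤ s) (hs1 : s ≤ 1) : Om s - Om 0 ≤ 6 * √s := by
  unfold Om
  have e0 : √(0 : ℝ) = 0 := Real.sqrt_zero
  have e1 : √(1 - 0 : ℝ) = 1 := by simp
  have h1 : √(1 / 2 - 0 : ℝ) ≤ √(1 / 2 - s) + √s := by
    rcases le_or_gt s (1 / 2) with h | h
    · have := sqrt_add_le' (x := 1 / 2 - s) (y := s) (by linarith) hs
      have e : (1 / 2 - 0 : ℝ) = 1 / 2 - s + s := by ring
      rw [e]; exact this
    · have h2 : √(1 / 2 - 0 : ℝ) ≤ √s := Real.sqrt_le_sqrt (by linarith)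
      have := Real.sqrt_nonneg (1 / 2 - s)
      linarith
  have h2 : (1 : ℝ) ≤ √(1 - s) + √s := by
    have := sqrt_add_le' (x := 1 - s) (y := s) (by linarith) hs
    have e : (1 - s + s : ℝ) = 1 := by ring
    rw [e, Real.sqrt_one] at this
    exact this
  rw [e0, e1]
  linarith

theorem om_le_six {s : ℝ} (hs : 0 ≤ s) (hs1 : s ≤ 1) : Om s - Om 0 ≤ 6 := by
  have h := om_zero_le hs hs1
  have h1 : √s ≤ 1 := Real.sqrt_le_one.2 hs1
  linarith

/-- functions with increments bounded by those of `Om` are continuous -/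
theorem cont_of_inc {f : ℝ → ℝ} {B : ℝ}
    (h : ∀ a b, 0 ≤ a → a ≤ b → b ≤ 1 → |f b - f a| ≤ B * (Om b - Om a)) :
    ContinuousOn f (Icc 0 1) := by
  intro x hx
  have key : ∀ y ∈ Icc (0 : ℝ) 1, |f y - f x| ≤ |B * (Om y - Om x)| := by
    intro y hy
    rcases le_total x y with hxy | hxy
    · exact (h x y hx.1 hxy hy.2).trans (le_abs_self _)
    · rw [abs_sub_comm]
      refine (h y x hy.1 hxy hx.2).trans ?_
      have : B * (Om x - Om y) = -(B * (Om y - Om x)) := by ring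
      rw [this]
      exact neg_le_abs _
  have ht : Tendsto (fun y => |B * (Om y - Om x)|) (𝓝[Icc 0 1] x) (𝓝 0) := by
    have h1 : Continuous fun y => |B * (Om y - Om x)| :=
      (continuous_const.mul (LAM_Omc.sub continuous_const)).abs
    have h2 := (h1.tendsto x).mono_left (nhdsWithin_le_nhds (s := Icc 0 1))
    simpa using h2
  rw [ContinuousWithinAt, tendsto_iff_norm_sub_tendsto_zero]
  refine squeeze_zero' (Eventually.of_forall fun _ => norm_nonneg _) ?_ ht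
  filter_upwards [self_mem_nhdsWithin] with y hy
  rw [Real.norm_eq_abs]
  exact key y hy

/-! ### integrability of the kernels -/

theorem int_inv_sqrt {t : ℝ} (ht1 : t ≤ 1) :
    IntervalIntegrable (fun s => 1 / √(s - t)) volume t 1 := by
  rw [intervalIntegrable_iff_integrableOn_Ioc_of_le ht1]
  refine intervalIntegral.integrableOn_deriv_of_nonneg (g := fun s => 2 * √(s - t)) ?_ ?_ ?_
  · fun_prop
  · intro s hs
    have h0 : 0 < s - t := sub_pos.2 hs.1
    have h1 := (((hasDerivAt_id s).sub_const t).sqrt h0.ne').const_mul 2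
    refine h1.congr_deriv ?_
    have : 0 < √(s - t) := Real.sqrt_pos.2 h0
    simp only [id]
    field_simp
  · intro s hs
    positivity

theorem ker_le {s t : ℝ} (ht : 0 ≤ t) (hs : t < s) : √s / √(s ^ 2 - t ^ 2) ≤ 1 / √(s - t) := by
  have hs0 : 0 < s := ht.trans_lt hs
  have h1 : 0 < s - t := sub_pos.2 hs
  have h2 : 0 < s ^ 2 - t ^ 2 := by nlinarith
  have h3 : √s * √(s - t) ≤ √(s ^ 2 - t ^ 2) := by
    rw [← Real.sqrt_mul hs0.le]
    exact Real.sqrt_le_sqrt (by nlinarith)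
  rw [div_le_div_iff₀ (Real.sqrt_pos.2 h2) (Real.sqrt_pos.2 h1)]
  linarith

/-- `g(s)/√(s²-t²)` is integrable if `|g| ≤ M √s` -/
theorem ker_int {g : ℝ → ℝ} {M t : ℝ} (ht : 0 ≤ t) (ht1 : t ≤ 1) (hg : Measurable g)
    (hM : ∀ s, t < s → s ≤ 1 → |g s| ≤ M * √s) :
    IntervalIntegrable (fun s => g s / √(s ^ 2 - t ^ 2)) volume t 1 := by
  have h1 := (int_inv_sqrt ht1).const_mul M
  rw [intervalIntegrable_iff_integrableOn_Ioc_of_le ht1] at h1 ⊢
  refine Integrable.mono' h1 ?_ ?_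
  · exact (hg.div (by fun_prop)).aestronglyMeasurable
  · refine (ae_restrict_iff' measurableSet_Ioc).2 (Eventually.of_forall fun s hs => ?_)
    have h0 : 0 < s ^ 2 - t ^ 2 := by nlinarith [hs.1]
    rw [Real.norm_eq_abs, abs_div, abs_of_pos (Real.sqrt_pos.2 h0)]
    have h2 := hM s hs.1 hs.2
    have h3 := ker_le ht hs.1
    have hM0 : 0 ≤ M := by
      have hs0 : 0 < √s := Real.sqrt_pos.2 (ht.trans_lt hs.1)
      by_contra hc
      push Not at hc
      have := (abs_nonneg (g s)).trans h2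
      nlinarith
    calc |g s| / √(s ^ 2 - t ^ 2) ≤ M * √s / √(s ^ 2 - t ^ 2) := by gcongr
      _ = M * (√s / √(s ^ 2 - t ^ 2)) := by ring
      _ ≤ M * (1 / √(s - t)) := by gcongr

/-- for `t > 0` boundedness is enough -/
theorem ker_int_bdd {g : ℝ → ℝ} {M t : ℝ} (ht : 0 < t) (ht1 : t ≤ 1) (hg : Measurable g)
    (hM : ∀ s, t < s → s ≤ 1 → |g s| ≤ M) :
    IntervalIntegrable (fun s => g s / √(s ^ 2 - t ^ 2)) volume t 1 := by
  have hst : 0 < √t := Real.sqrt_pos.2 ht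
  refine ker_int (M := |M| / √t) ht.le ht1 hg fun s hs hs1 => ?_
  have h1 := hM s hs hs1
  have h2 : √t ≤ √s := Real.sqrt_le_sqrt hs.le
  have h3 : |M| ≤ |M| / √t * √s := by
    rw [div_mul_eq_mul_div, le_div_iff₀ hst]
    exact mul_le_mul_of_nonneg_left h2 (abs_nonneg M)
  exact h1.trans ((le_abs_self M).trans h3)

theorem Aop_sub' {g h : ℝ → ℝ} {M M' t : ℝ} (ht : 0 ≤ t) (ht1 : t ≤ 1) (hg : Measurable g)
    (hh : Measurable h) (hM : ∀ s, t < s → s ≤ 1 → |g s| ≤ M * √s)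
    (hM' : ∀ s, t < s → s ≤ 1 → |h s| ≤ M' * √s) :
    Aop (fun s => g s - h s) t = Aop g t - Aop h t := by
  unfold Aop
  rw [← intervalIntegral.integral_sub (ker_int ht ht1 hg hM) (ker_int ht ht1 hh hM')]
  refine intervalIntegral.integral_congr fun s _ => ?_
  simp only [sub_div]

theorem Cop_sub' {g h : ℝ → ℝ} {M M' t : ℝ} (ht : 0 ≤ t) (ht1 : t ≤ 1) (hg : Measurable g)
    (hh : Measurable h) (hM : ∀ s, 0 ≤ s → s ≤ 1 → |g s| ≤ M)
    (hM' : ∀ s, 0 ≤ s → s ≤ 1 → |h s| ≤ M') :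
    Cop (fun s => g s - h s) t = Cop g t - Cop h t := by
  rcases ht.eq_or_lt with rfl | ht0
  · simp [Cop]
  unfold Cop Aop
  rw [← mul_sub, ← intervalIntegral.integral_sub
    (ker_int_bdd ht0 ht1 hg fun s hs hs1 => hM s (ht.trans hs.le) hs1)
    (ker_int_bdd ht0 ht1 hh fun s hs hs1 => hM' s (ht.trans hs.le) hs1)]
  congr 1
  refine intervalIntegral.integral_congr fun s _ => ?_
  simp only [sub_div]

/-! ### reference functions -/

theorem bb_pos : 0 < bb := by unfold bb; norm_num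

theorem measurable_fL (p : ℝ) : Measurable (fL p) := by
  unfold fL fL0; fun_prop

theorem measurable_fp (p : ℝ) : Measurable (fp p) := by
  unfold fp
  exact Measurable.ite measurableSet_Iio (measurable_fL p) measurable_const

theorem sqrt_half_le {t : ℝ} (ht : t ≤ 1 / 2) : √(t / 2) ≤ 1 / 2 := by
  rw [show (1 / 2 : ℝ) = √(1 / 4) by
    rw [show (1 / 4 : ℝ) = (1 / 2) ^ 2 by norm_num]
    exact (Real.sqrt_sq (by norm_num)).symm]
  exact Real.sqrt_le_sqrt (by linarith)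

theorem fL0_bd {t : ℝ} (ht : t ≤ 1 / 2) : 13 / 200 ≤ fL0 t ∧ fL0 t ≤ 1 / 10 := by
  unfold fL0 bb
  have h1 := sqrt_half_le ht
  have h2 := Real.sqrt_nonneg (t / 2)
  constructor <;> linarith

theorem fp_bd {p : ℝ} (hp : |p| ≤ 1 / 1000) (t : ℝ) : |fp p t| ≤ 1 := by
  unfold fp
  have hp' := abs_le.1 hp
  split_ifs with h
  · have h1 := fL0_bd h.le
    unfold fL
    rw [abs_le]; constructor <;> linarith
  · unfold bb; rw [abs_le]; constructor <;> norm_num

theorem fL0_inc {a b : ℝ} (ha : 0 ≤ a) (hab : a ≤ b) :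
    |fL0 b - fL0 a| ≤ 1 / 10 * (√b - √a) := by
  unfold fL0 bb
  have e1 : √(a / 2) = √a / √2 := Real.sqrt_div ha 2
  have e2 : √(b / 2) = √b / √2 := Real.sqrt_div (ha.trans hab) 2
  have h2 : (1 : ℝ) ≤ √2 := by
    rw [show (1 : ℝ) = √1 by simp]; exact Real.sqrt_le_sqrt (by norm_num)
  have h3 := sqrt_mono' hab
  rw [e1, e2]
  have e3 : 1 / 100 * (10 - 7 * (√b / √2)) - 1 / 100 * (10 - 7 * (√a / √2)) =
      -(7 / 100 * ((√b - √a) / √2)) := by ring
  rw [e3, abs_neg, abs_of_nonneg (by positivity)]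
  have h4 : (√b - √a) / √2 ≤ √b - √a := div_le_self h3 h2
  linarith

theorem fL0_half : fL0 (1 / 2) = 13 / 200 := by
  unfold fL0 bb
  have : √((1 : ℝ) / 2 / 2) = 1 / 2 := by
    rw [show ((1 : ℝ) / 2 / 2) = (1 / 2) ^ 2 by norm_num]
    exact Real.sqrt_sq (by norm_num)
  rw [this]; norm_num

theorem FL0_half : FL0 (1 / 2) = bb / 2 := by
  unfold FL0
  have : √((1 : ℝ) / 2 / 2) = 1 / 2 := by
    rw [show ((1 : ℝ) / 2 / 2) = (1 / 2) ^ 2 by norm_num]
    exact Real.sqrt_sq (by norm_num)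
  rw [this]; ring

theorem FL0_deriv {t : ℝ} (ht : 0 < t) : HasDerivAt FL0 (fL0 t) t := by
  have h2 : 0 < t / 2 := by positivity
  have h3 : HasDerivAt (fun t : ℝ => √(t / 2)) (1 / 2 / (2 * √(t / 2))) t :=
    ((hasDerivAt_id t).div_const 2).sqrt h2.ne'
  have h4 := (h3.pow 3)
  have h5 := ((((hasDerivAt_id t).const_mul 10).const_add (-(10 / 3))).sub
    (h4.const_mul (28 / 3))).const_mul bb
  unfold FL0
  refine h5.congr_deriv ?_
  unfold fL0
  have hs : 0 < √(t / 2) := Real.sqrt_pos.2 h2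
  field_simp
  ring

theorem FL0_cont : Continuous FL0 := by unfold FL0; fun_prop

theorem fL0_cont : Continuous fL0 := by unfold fL0; fun_prop

theorem F0_int {t : ℝ} (ht : 0 ≤ t) (ht1 : t ≤ 1) : ∫ s in t..1, fp 0 s = -F0 t := by
  have hR : ∀ r : ℝ, 1 / 2 ≤ r → r ≤ 1 → ∫ s in r..1, fp 0 s = -(bb * (1 - r)) := by
    intro r hr hr1
    have : ∫ s in r..1, fp 0 s = ∫ s in r..1, -bb := by
      refine intervalIntegral.integral_congr fun s hs => ?_
      rw [uIcc_of_le hr1] at hs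
      have : ¬ s < 1 / 2 := by linarith [hs.1]
      rw [fp, if_neg this]
    rw [this, intervalIntegral.integral_const, smul_eq_mul]
    ring
  unfold F0
  split_ifs with h
  · have hL : ∫ s in t..(1 / 2), fp 0 s = FL0 (1 / 2) - FL0 t := by
      have e : ∫ s in t..(1 / 2), fp 0 s = ∫ s in t..(1 / 2), fL0 s := by
        refine intervalIntegral.integral_congr_ae ?_
        rw [uIoc_of_le h.le]
        have hne : ∀ᵐ s : ℝ, s ≠ 1 / 2 := by
          simp [ae_iff, measure_singleton]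
        filter_upwards [hne] with s hs hs'
        have : s < 1 / 2 := lt_of_le_of_ne hs'.2 hs
        rw [fp, if_pos this, fL, add_zero]
      rw [e]
      refine intervalIntegral.integral_eq_sub_of_hasDerivAt_of_le h.le FL0_cont.continuousOn
        (fun s hs => FL0_deriv (ht.trans_lt hs.1)) (fL0_cont.intervalIntegrable _ _)
    have i1 : IntervalIntegrable (fp 0) volume t (1 / 2) := by
      rw [intervalIntegrable_iff_integrableOn_Ioc_of_le h.le]
      refine Measure.integrableOn_of_bounded (M := 1) (by simp) (measurable_fp 0).aestronglyMeasurable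
        (Eventually.of_forall fun s => ?_)
      rw [Real.norm_eq_abs]
      exact fp_bd (by norm_num) s
    have i2 : IntervalIntegrable (fp 0) volume (1 / 2) 1 := by
      rw [intervalIntegrable_iff_integrableOn_Ioc_of_le (by norm_num)]
      refine Measure.integrableOn_of_bounded (M := 1) (by simp) (measurable_fp 0).aestronglyMeasurable
        (Eventually.of_forall fun s => ?_)
      rw [Real.norm_eq_abs]
      exact fp_bd (by norm_num) s
    rw [← intervalIntegral.integral_add_adjacent_intervals i1 i2, hL,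
      hR (1 / 2) le_rfl (by norm_num), FL0_half]
    ring
  · exact hR t (not_lt.1 h) ht1

/-- bounds on `U₀` on the left piece, with `y = √(t/2)` -/
theorem UL0_eq {t : ℝ} (ht : 0 ≤ t) (ht1 : t ≤ 1 / 2) :
    UL0 t = (-5 - 30 * √(t / 2) ^ 2 + 28 * √(t / 2) ^ 3) / (10 - 7 * √(t / 2)) := by
  have h1 := sqrt_half_le ht1
  have h0 := Real.sqrt_nonneg (t / 2)
  have h2 : √(t / 2) ^ 2 = t / 2 := Real.sq_sqrt (by positivity)
  have h3 : 10 - 7 * √(t / 2) ≠ 0 := by linarith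
  have hb : bb ≠ 0 := bb_pos.ne'
  unfold UL0 FL0 fL0
  set y := √(t / 2) with hy
  have ht2 : t = 2 * y ^ 2 := by linarith
  have key : ∀ N D : ℝ, D ≠ 0 → 3 / 2 * (N / D) * D = 3 / 2 * N := by
    intro N D hD
    rw [mul_assoc, div_mul_cancel₀ _ hD]
  rw [mul_div_mul_left _ _ hb, eq_div_iff h3, ht2, sub_mul, key _ _ h3]
  ring

theorem UL0_bd {t : ℝ} (ht : 0 ≤ t) (ht1 : t ≤ 1 / 2) : -(3 / 2) ≤ UL0 t ∧ UL0 t ≤ -(1 / 2) := by
  rw [UL0_eq ht ht1]
  have h1 := sqrt_half_le ht1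
  have h0 := Real.sqrt_nonneg (t / 2)
  set y := √(t / 2) with hy
  have h3 : 0 < 10 - 7 * y := by linarith
  constructor
  · rw [le_div_iff₀ h3]
    nlinarith [mul_nonneg h0 h0, mul_nonneg (mul_nonneg h0 h0) h0,
      mul_nonneg h0 (sub_nonneg.2 h1), mul_nonneg (mul_nonneg h0 h0) (sub_nonneg.2 h1)]
  · rw [div_le_iff₀ h3]
    nlinarith [mul_nonneg h0 h0, mul_nonneg (mul_nonneg h0 h0) h0,
      mul_nonneg h0 (sub_nonneg.2 h1), mul_nonneg (mul_nonneg h0 h0) (sub_nonneg.2 h1)]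

theorem UL0_inc {a b : ℝ} (ha : 0 ≤ a) (hab : a ≤ b) (hb : b ≤ 1 / 2) :
    |UL0 b - UL0 a| ≤ 3 * (√b - √a) := by
  rw [UL0_eq ha (hab.trans hb), UL0_eq (ha.trans hab) hb]
  have h1 := sqrt_half_le hb
  have h0 := Real.sqrt_nonneg (a / 2)
  have h2 : √(a / 2) ≤ √(b / 2) := Real.sqrt_le_sqrt (by linarith)
  have e1 : √a = √2 * √(a / 2) := by
    rw [← Real.sqrt_mul (by norm_num)]; congr 1; ring
  have e2 : √b = √2 * √(b / 2) := by
    rw [← Real.sqrt_mul (by norm_num)]; congr 1; ring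
  have h5 : (7 / 5 : ℝ) ≤ √2 := by
    rw [show (7 / 5 : ℝ) = √((7 / 5) ^ 2) by rw [Real.sqrt_sq (by norm_num)]]
    exact Real.sqrt_le_sqrt (by norm_num)
  rw [e1, e2]
  set y := √(a / 2) with hy
  set z := √(b / 2) with hz
  have hy1 : y ≤ 1 / 2 := h2.trans h1
  have hz0 : 0 ≤ z := h0.trans h2
  have h3 : 0 < 10 - 7 * y := by linarith
  have h4 : 0 < 10 - 7 * z := by linarith
  have h6 : 4 * (z - y) ≤ 3 * (√2 * z - √2 * y) := by nlinarith
  refine le_trans ?_ h6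
  have e3 : (-5 - 30 * z ^ 2 + 28 * z ^ 3) / (10 - 7 * z) -
      (-5 - 30 * y ^ 2 + 28 * y ^ 3) / (10 - 7 * y) =
      (z - y) * ((-(35) - 300 * (y + z) + 280 * (y ^ 2 + y * z + z ^ 2) + 210 * y * z
        - 196 * y * z * (y + z)) / ((10 - 7 * z) * (10 - 7 * y))) := by
    rw [div_sub_div _ _ h4.ne' h3.ne', ← mul_div_assoc]
    congr 1
    ring
  have hzy : 0 ≤ z - y := by linarith
  rw [e3, abs_mul, abs_of_nonneg hzy, mul_comm]
  refine mul_le_mul_of_nonneg_right ?_ hzy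
  have hD : 0 < (10 - 7 * z) * (10 - 7 * y) := mul_pos h4 h3
  have q1 : 0 ≤ y * z := mul_nonneg h0 hz0
  have q2 : 0 ≤ (1 / 2 - y) * (1 / 2 - z) := mul_nonneg (by linarith) (by linarith)
  have q3 : 0 ≤ y * (1 / 2 - z) := mul_nonneg h0 (by linarith)
  have q4 : 0 ≤ z * (1 / 2 - y) := mul_nonneg hz0 (by linarith)
  have q5 : 0 ≤ y * (1 / 2 - y) := mul_nonneg h0 (by linarith)
  have q6 : 0 ≤ z * (1 / 2 - z) := mul_nonneg hz0 (by linarith)
  rw [abs_div, abs_of_pos hD, div_le_iff₀ hD, abs_le]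
  constructor
  · nlinarith [mul_nonneg q1 (sub_nonneg.2 hy1), mul_nonneg q1 (sub_nonneg.2 h1),
      mul_nonneg q1 h0, mul_nonneg q1 hz0, sq_nonneg (y - z)]
  · nlinarith [mul_nonneg q1 (sub_nonneg.2 hy1), mul_nonneg q1 (sub_nonneg.2 h1),
      mul_nonneg q1 h0, mul_nonneg q1 hz0, sq_nonneg (y - z)]

/-! ### bounded functions with `√`-increments -/

/-- bounded by `B` and `√`-increments bounded by `B` on `[l, r]` -/
def BI (l r B : ℝ) (f : ℝ → ℝ) : Prop :=
  (∀ t, l ≤ t → t ≤ r → |f t| ≤ B) ∧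
    ∀ a b, l ≤ a → a ≤ b → b ≤ r → |f b - f a| ≤ B * (√b - √a)

theorem BI.mono {l r B B' : ℝ} {f : ℝ → ℝ} (h : BI l r B f) (hB : B ≤ B') : BI l r B' f :=
  ⟨fun t h1 h2 => (h.1 t h1 h2).trans hB, fun a b h1 h2 h3 =>
    (h.2 a b h1 h2 h3).trans (mul_le_mul_of_nonneg_right hB (sqrt_mono' h2))⟩

theorem BI.congr {l r B : ℝ} {f g : ℝ → ℝ} (h : BI l r B f)
    (hg : ∀ t, l ≤ t → t ≤ r → g t = f t) : BI l r B g := by
  refine ⟨fun t h1 h2 => ?_, fun a b h1 h2 h3 => ?_⟩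
  · rw [hg t h1 h2]; exact h.1 t h1 h2
  · rw [hg b (h1.trans h2) h3, hg a h1 (h2.trans h3)]; exact h.2 a b h1 h2 h3

theorem BI.add {l r B B' : ℝ} {f g : ℝ → ℝ} (h : BI l r B f) (h' : BI l r B' g) :
    BI l r (B + B') fun t => f t + g t := by
  refine ⟨fun t h1 h2 => ?_, fun a b h1 h2 h3 => ?_⟩
  · exact (abs_add_le _ _).trans (add_le_add (h.1 t h1 h2) (h'.1 t h1 h2))
  · have e : f b + g b - (f a + g a) = (f b - f a) + (g b - g a) := by ring
    rw [e, add_mul]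
    exact (abs_add_le _ _).trans (add_le_add (h.2 a b h1 h2 h3) (h'.2 a b h1 h2 h3))

theorem BI.smul {l r B : ℝ} {f : ℝ → ℝ} (c : ℝ) (h : BI l r B f) :
    BI l r (|c| * B) fun t => c * f t := by
  refine ⟨fun t h1 h2 => ?_, fun a b h1 h2 h3 => ?_⟩
  · rw [abs_mul]
    exact mul_le_mul_of_nonneg_left (h.1 t h1 h2) (abs_nonneg _)
  · rw [← mul_sub, abs_mul, mul_assoc]
    exact mul_le_mul_of_nonneg_left (h.2 a b h1 h2 h3) (abs_nonneg _)

theorem BI.mul {l r B B' : ℝ} {f g : ℝ → ℝ} (hB : 0 ≤ B) (hB' : 0 ≤ B') (h : BI l r B f)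
    (h' : BI l r B' g) : BI l r (2 * B * B') fun t => f t * g t := by
  refine ⟨fun t h1 h2 => ?_, fun a b h1 h2 h3 => ?_⟩
  · have h3 : |f t * g t| ≤ B * B' := by
      rw [abs_mul]
      exact mul_le_mul (h.1 t h1 h2) (h'.1 t h1 h2) (abs_nonneg _) hB
    have h4 : 0 ≤ B * B' := mul_nonneg hB hB'
    linarith
  · have e : f b * g b - f a * g a = f b * (g b - g a) + (f b - f a) * g a := by ring
    have h4 : 0 ≤ √b - √a := sqrt_mono' h2
    have k1 : |f b * (g b - g a)| ≤ B * (B' * (√b - √a)) := by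
      rw [abs_mul]
      exact mul_le_mul (h.1 b (h1.trans h2) h3) (h'.2 a b h1 h2 h3) (abs_nonneg _) hB
    have k2 : |(f b - f a) * g a| ≤ (B * (√b - √a)) * B' := by
      rw [abs_mul]
      exact mul_le_mul (h.2 a b h1 h2 h3) (h'.1 a h1 (h2.trans h3)) (abs_nonneg _)
        (mul_nonneg hB h4)
    rw [e]
    refine (abs_add_le _ _).trans ((add_le_add k1 k2).trans (le_of_eq ?_))
    ring

theorem fL0_inv {p : ℝ} (hp : |p| ≤ 1 / 1000) : BI 0 (1 / 2) 25 fun t => 1 / fL p t := by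
  have hp' := abs_le.1 hp
  have hb : ∀ t, t ≤ 1 / 2 → 16 / 250 ≤ fL p t := by
    intro t ht
    have := (fL0_bd ht).1
    unfold fL
    linarith
  refine ⟨fun t _ h2 => ?_, fun a b h1 h2 h3 => ?_⟩
  · have h4 := hb t h2
    have h5 : 0 < fL p t := by linarith
    rw [abs_of_pos (by positivity), div_le_iff₀ h5]
    linarith
  · have h4 := hb a (h2.trans h3)
    have h5 := hb b h3
    have h6 : 0 < fL p a := by linarith
    have h7 : 0 < fL p b := by linarith
    have h8 : |fL p b - fL p a| ≤ 1 / 10 * (√b - √a) := by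
      have e : fL p b - fL p a = fL0 b - fL0 a := by unfold fL; ring
      rw [e]
      exact fL0_inc h1 h2
    have e : 1 / fL p b - 1 / fL p a = -((fL p b - fL p a) / (fL p b * fL p a)) := by
      field_simp
      ring
    rw [e, abs_neg, abs_div, abs_of_pos (mul_pos h7 h6), div_le_iff₀ (mul_pos h7 h6)]
    have h9 : 16 / 250 * (16 / 250) ≤ fL p b * fL p a := by
      exact mul_le_mul h5 h4 (by norm_num) h7.le
    have h10 := sqrt_mono' h2
    calc |fL p b - fL p a| ≤ 1 / 10 * (√b - √a) := h8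
      _ ≤ 25 * (16 / 250 * (16 / 250)) * (√b - √a) := by
        apply mul_le_mul_of_nonneg_right _ h10
        norm_num
      _ = 25 * (√b - √a) * (16 / 250 * (16 / 250)) := by ring
      _ ≤ 25 * (√b - √a) * (fL p b * fL p a) := by gcongr

theorem FL0_BI : BI 0 (1 / 2) (3 / 10) FL0 := by
  refine ⟨fun t h1 h2 => ?_, fun a b h1 h2 h3 => ?_⟩
  · have h4 := sqrt_half_le h2
    have h5 := Real.sqrt_nonneg (t / 2)
    have h6 : √(t / 2) ^ 3 ≤ (1 / 2) ^ 3 := pow_le_pow_left₀ h5 h4 3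
    have h7 : 0 ≤ √(t / 2) ^ 3 := by positivity
    unfold FL0 bb
    rw [abs_le]
    constructor <;> linarith
  · have h4 := sqrt_half_le h3
    have h5 := Real.sqrt_nonneg (a / 2)
    have h6 : √(a / 2) ≤ √(b / 2) := Real.sqrt_le_sqrt (by linarith)
    have h7 := sub_le_sqrt h1 h2 (h3.trans (by norm_num))
    have h8 := sqrt_mono' h2
    have h2' : (1 : ℝ) ≤ √2 := by
      rw [show (1 : ℝ) = √1 by simp]; exact Real.sqrt_le_sqrt (by norm_num)
    have h9 : √(b / 2) - √(a / 2) ≤ √b - √a := by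
      rw [Real.sqrt_div h1 2, Real.sqrt_div (h1.trans h2) 2, ← sub_div]
      exact div_le_self h8 h2'
    unfold FL0 bb
    set y := √(a / 2) with hy
    set z := √(b / 2) with hz
    have hy1 : y ≤ 1 / 2 := h6.trans h4
    have hz0 : 0 ≤ z := h5.trans h6
    have h10 : z ^ 3 - y ^ 3 = (z - y) * (z ^ 2 + z * y + y ^ 2) := by ring
    have h11 : z ^ 2 + z * y + y ^ 2 ≤ 3 / 4 := by nlinarith
    have h12 : 0 ≤ z ^ 2 + z * y + y ^ 2 := by positivity
    have h13 : 0 ≤ z - y := by linarith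
    have h14 : z ^ 3 - y ^ 3 ≤ (z - y) * (3 / 4) := by
      rw [h10]; exact mul_le_mul_of_nonneg_left h11 h13
    have h15 : 0 ≤ z ^ 3 - y ^ 3 := by
      rw [h10]; exact mul_nonneg h13 h12
    rw [abs_le]
    constructor <;> linarith

theorem half_BI : BI 0 (1 / 2) 2 fun t => 1 / 2 - t := by
  refine ⟨fun t h1 h2 => ?_, fun a b h1 h2 h3 => ?_⟩
  · rw [abs_le]; constructor <;> linarith
  · have h7 := sub_le_sqrt h1 h2 (h3.trans (by norm_num))
    have e : 1 / 2 - b - (1 / 2 - a) = -(b - a) := by ring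
    rw [e, abs_neg, abs_of_nonneg (by linarith)]
    exact h7

/-! ### the centre of the ball -/

theorem base0 (h0 : S_B0) : Base ⟨UL0, UR0, g0, 0⟩ :=
  (h0.1 0 0 0 0 le_rfl le_rfl le_rfl le_rfl).toBase

theorem g0_eq (h0 : S_B0) {t : ℝ} (ht : 0 ≤ t) (ht1 : t ≤ 1) : g0 t = 3 / 2 * Cop (fp 0) t := by
  rcases ht1.lt_or_eq with h | rfl
  · unfold g0 oddext
    rw [if_pos ht]
    exact if_pos h
  · have h1 : g0 1 = 0 := (base0 h0).gz 1 le_rfl
    rw [h1]; simp [Cop, Aop]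

theorem bdd_ii {f : ℝ → ℝ} {M a b : ℝ} (hab : a ≤ b) (hf : Measurable f)
    (hM : ∀ s, a ≤ s → s ≤ b → |f s| ≤ M) : IntervalIntegrable f volume a b := by
  rw [intervalIntegrable_iff_integrableOn_Ioc_of_le hab]
  refine Measure.integrableOn_of_bounded (M := M) (by simp) hf.aestronglyMeasurable ?_
  refine (ae_restrict_iff' measurableSet_Ioc).2 (Eventually.of_forall fun s hs => ?_)
  rw [Real.norm_eq_abs]; exact hM s hs.1.le hs.2

theorem sq_mom0 (hAC : S_AC) (h0 : S_B0) : ∫ s in (0 : ℝ)..1, s ^ 2 * fp 0 s = 0 := by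
  have h2 := (hAC (fp 0) 1 (measurable_fp 0) (fp_bd (by norm_num))).2
  have h3 : ∫ t in (0 : ℝ)..1, t * g0 t = 3 / 2 * ∫ t in (0 : ℝ)..1, t * Cop (fp 0) t := by
    rw [← intervalIntegral.integral_const_mul]
    refine intervalIntegral.integral_congr fun s hs => ?_
    rw [uIcc_of_le zero_le_one] at hs
    simp only [g0_eq h0 hs.1 hs.2]
    ring
  have h1 : ∫ t in (0 : ℝ)..1, t * g0 t = 0 := (base0 h0).gmom
  rw [h3, h2] at h1
  have hpi : (0 : ℝ) < π := Real.pi_pos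
  rcases mul_eq_zero.1 h1 with h | h
  · norm_num at h
  · rcases mul_eq_zero.1 h with h | h
    · linarith
    · exact h

theorem sq_mom (hAC : S_AC) (h0 : S_B0) {p : ℝ} : ∫ s in (0 : ℝ)..1, s ^ 2 * fp p s = p / 24 := by
  have e : ∀ s, s ^ 2 * fp p s = s ^ 2 * fp 0 s + s ^ 2 * (if s < 1 / 2 then p else 0) := by
    intro s; unfold fp fL; split_ifs <;> ring
  have m2 : Measurable fun s : ℝ => s ^ 2 * (if s < 1 / 2 then p else 0) :=
    (measurable_id.pow_const 2).mul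
      (Measurable.ite measurableSet_Iio measurable_const measurable_const)
  have b2 : ∀ s : ℝ, 0 ≤ s → s ≤ 1 → |s ^ 2 * (if s < 1 / 2 then p else 0)| ≤ |p| := by
    intro s hs hs1
    have h1 : s ^ 2 ≤ 1 := pow_le_one₀ hs hs1
    rw [abs_mul, abs_of_nonneg (sq_nonneg s)]
    split_ifs
    · nlinarith [abs_nonneg p]
    · simp
  have i1 : IntervalIntegrable (fun s => s ^ 2 * fp 0 s) volume 0 1 := by
    refine bdd_ii (M := 1) zero_le_one ((measurable_id.pow_const 2).mul (measurable_fp 0)) ?_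
    intro s hs hs1
    have h1 : s ^ 2 ≤ 1 := pow_le_one₀ hs hs1
    rw [abs_mul, abs_of_nonneg (sq_nonneg s)]
    have h2 := fp_bd (p := 0) (by norm_num) s
    nlinarith [abs_nonneg (fp 0 s), sq_nonneg s]
  have i2 : IntervalIntegrable (fun s : ℝ => s ^ 2 * (if s < 1 / 2 then p else 0)) volume 0 1 :=
    bdd_ii zero_le_one m2 b2
  have e2 : ∫ s in (0 : ℝ)..1, s ^ 2 * (if s < 1 / 2 then p else 0) = p / 24 := by
    have j1 : IntervalIntegrable (fun s : ℝ => s ^ 2 * (if s < 1 / 2 then p else 0)) volume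
        0 (1 / 2) := bdd_ii (by norm_num) m2 fun s hs hs1 => b2 s hs (by linarith)
    have j2 : IntervalIntegrable (fun s : ℝ => s ^ 2 * (if s < 1 / 2 then p else 0)) volume
        (1 / 2) 1 := bdd_ii (by norm_num) m2 fun s hs hs1 => b2 s (by linarith) hs1
    have k1 : ∫ s in (0 : ℝ)..(1 / 2), s ^ 2 * (if s < 1 / 2 then p else 0) = p / 24 := by
      have : ∫ s in (0 : ℝ)..(1 / 2), s ^ 2 * (if s < 1 / 2 then p else 0) =
          ∫ s in (0 : ℝ)..(1 / 2), s ^ 2 * p := by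
        refine intervalIntegral.integral_congr_ae ?_
        rw [uIoc_of_le (by norm_num)]
        have hne : ∀ᵐ s : ℝ, s ≠ 1 / 2 := by
          simp [ae_iff, measure_singleton]
        filter_upwards [hne] with s hs hs'
        have : s < 1 / 2 := lt_of_le_of_ne hs'.2 hs
        rw [if_pos this]
      rw [this, intervalIntegral.integral_mul_const, integral_pow]
      norm_num
      ring
    have k2 : ∫ s in (1 / 2 : ℝ)..1, s ^ 2 * (if s < 1 / 2 then p else 0) = 0 := by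
      have : ∫ s in (1 / 2 : ℝ)..1, s ^ 2 * (if s < 1 / 2 then p else 0) =
          ∫ s in (1 / 2 : ℝ)..1, (0 : ℝ) := by
        refine intervalIntegral.integral_congr fun s hs => ?_
        rw [uIcc_of_le (by norm_num)] at hs
        have : ¬ s < 1 / 2 := by linarith [hs.1]
        simp only [if_neg this, mul_zero]
      rw [this]; simp
    rw [← intervalIntegral.integral_add_adjacent_intervals j1 j2, k1, k2, add_zero]
  rw [intervalIntegral.integral_congr fun s _ => e s, intervalIntegral.integral_add i1 i2,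
    sq_mom0 hAC h0, e2, zero_add]

/-! ### the function `γ_A` -/

theorem Cop_fp_inc (hK2 : S_K2) {p : ℝ} (hp : |p| ≤ 1 / 1000) (a b : ℝ) (ha : 0 ≤ a)
    (hab : a ≤ b) (hb : b ≤ 1) :
    |Cop (fp p) b - Cop (fp p) a| ≤ 17 / 2 * 1 * (Om b - Om a) := by
  have hp' := abs_le.1 hp
  refine hK2 (fL p) (fun _ => -bb) 1 zero_le_one ?_ ?_ ?_ ?_ a b ha hab hb
  · intro t h1 h2
    have h3 := fL0_bd h2
    unfold fL
    rw [abs_le]; constructor <;> linarith
  · intro t h1 h2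
    unfold bb; rw [abs_le]; constructor <;> norm_num
  · intro a b h1 h2 h3
    have e : fL p b - fL p a = fL0 b - fL0 a := by unfold fL; ring
    rw [e]
    have := fL0_inc h1 h2
    have := sqrt_mono' h2
    linarith
  · intro a b h1 h2 h3
    have := sqrt_mono' h2
    simp only [sub_self, abs_zero]
    linarith

theorem Cop_zero (g : ℝ → ℝ) : Cop g 0 = 0 := by simp [Cop]

theorem Cop_diff_inc (hK2 : S_K2) {p : ℝ} (hp : |p| ≤ 1 / 1000) (a b : ℝ) (ha : 0 ≤ a)
    (hab : a ≤ b) (hb : b ≤ 1) :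
    |(Cop (fp p) b - Cop (fp 0) b) - (Cop (fp p) a - Cop (fp 0) a)| ≤
      17 / 2 * |p| * (Om b - Om a) := by
  have hz : |(0 : ℝ)| ≤ 1 / 1000 := by norm_num
  have e : ∀ t, 0 ≤ t → t ≤ 1 →
      Cop (fp p) t - Cop (fp 0) t = Cop (fun s => if s < 1 / 2 then p else 0) t := by
    intro t h1 h2
    rw [← Cop_sub' h1 h2 (measurable_fp p) (measurable_fp 0) (fun s _ _ => fp_bd hp s)
      (fun s _ _ => fp_bd hz s)]
    congr 1
    funext s
    unfold fp fL
    split_ifs <;> ring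
  rw [e b (ha.trans hab) hb, e a ha (hab.trans hb)]
  refine hK2 (fun _ => p) (fun _ => 0) |p| (abs_nonneg p) ?_ ?_ ?_ ?_ a b ha hab hb
  · intro t _ _; exact le_rfl
  · intro t _ _; simp
  · intro a b _ h2 _
    simp only [sub_self, abs_zero]
    exact mul_nonneg (abs_nonneg _) (sqrt_mono' h2)
  · intro a b _ h2 _
    simp only [sub_self, abs_zero]
    exact mul_nonneg (abs_nonneg _) (sqrt_mono' h2)

/-- the hypotheses on `γ_A` -/
structure GAH (C δ : ℝ) (S : St) : Prop where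
  g0 : gA δ S 0 = 0
  g1 : gA δ S 1 = 0
  gi : ∀ a b, 0 ≤ a → a ≤ b → b ≤ 1 →
    |(gA δ S b - 3 / 2 * Cop (fp S.p) b) - (gA δ S a - 3 / 2 * Cop (fp S.p) a)|
      ≤ C * δ * (Om b - Om a)
  pb : |S.p| ≤ 1 / 1000

theorem GAH.cE {C δ : ℝ} {S : St} (h : GAH C δ S) :
    ContinuousOn (fun t => gA δ S t - 3 / 2 * Cop (fp S.p) t) (Icc 0 1) :=
  cont_of_inc h.gi

theorem GAH.cC {C δ : ℝ} {S : St} (h : GAH C δ S) (hK2 : S_K2) :
    ContinuousOn (Cop (fp S.p)) (Icc 0 1) :=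
  cont_of_inc (Cop_fp_inc hK2 h.pb)

theorem GAH.cg {C δ : ℝ} {S : St} (h : GAH C δ S) (hK2 : S_K2) :
    ContinuousOn (gA δ S) (Icc 0 1) := by
  have h1 := h.cE.add ((h.cC hK2).const_smul (3 / 2 : ℝ))
  refine h1.congr fun t _ => ?_
  simp

theorem GAH.qq_eq {C δ : ℝ} {S : St} (h : GAH C δ S) (hC : 0 ≤ C * δ) (hK2 : S_K2) (hAC : S_AC)
    (h0 : S_B0) : ∃ E : ℝ, |E| ≤ 3 * (C * δ) ∧ qq δ S = E + π * S.p / 64 := by
  refine ⟨∫ t in (0 : ℝ)..1, t * (gA δ S t - 3 / 2 * Cop (fp S.p) t), ?_, ?_⟩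
  · rw [← Real.norm_eq_abs]
    have hI : ∫ t in (0 : ℝ)..1, t * (6 * (C * δ)) = 3 * (C * δ) := by
      rw [intervalIntegral.integral_mul_const, integral_id]
      ring
    rw [← hI]
    refine intervalIntegral.norm_integral_le_of_norm_le zero_le_one
      (Eventually.of_forall fun t ht => ?_)
      ((continuous_id.mul continuous_const).intervalIntegrable _ _)
    have h1 := h.gi 0 t le_rfl ht.1.le ht.2
    rw [h.g0, Cop_zero, mul_zero, sub_zero, sub_zero] at h1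
    have h2 := om_le_six ht.1.le ht.2
    rw [Real.norm_eq_abs, abs_mul, abs_of_pos ht.1]
    refine mul_le_mul_of_nonneg_left (h1.trans ?_) ht.1.le
    nlinarith
  · have i1 : IntervalIntegrable (fun t => t * (gA δ S t - 3 / 2 * Cop (fp S.p) t)) volume 0 1 :=
      ContinuousOn.intervalIntegrable_of_Icc zero_le_one (continuousOn_id.mul h.cE)
    have i2 : IntervalIntegrable (fun t => 3 / 2 * (t * Cop (fp S.p) t)) volume 0 1 :=
      ContinuousOn.intervalIntegrable_of_Icc zero_le_one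
        (continuousOn_const.mul (continuousOn_id.mul (h.cC hK2)))
    have e : ∀ t, t * gA δ S t = t * (gA δ S t - 3 / 2 * Cop (fp S.p) t) +
        3 / 2 * (t * Cop (fp S.p) t) := fun t => by ring
    unfold qq
    rw [intervalIntegral.integral_congr fun t _ => e t, intervalIntegral.integral_add i1 i2,
      intervalIntegral.integral_const_mul,
      (hAC (fp S.p) 1 (measurable_fp _) (fp_bd h.pb)).2, sq_mom hAC h0]
    ring

theorem Tg_eq {C δ : ℝ} {S : St} (h : GAH C δ S) {t : ℝ} (ht : 0 ≤ t) (ht1 : t ≤ 1) :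
    (TT δ S).g t = gA δ S t - 12 * qq δ S * t * (1 - t) := by
  change oddext (fun t => if t < 1 then gA δ S t - 12 * qq δ S * t * (1 - t) else 0) t = _
  unfold oddext
  rw [if_pos ht]
  rcases ht1.lt_or_eq with h1 | rfl
  · exact if_pos h1
  · refine (if_neg (lt_irrefl _)).trans ?_
    rw [h.g1]; ring

theorem Tg_base {C δ : ℝ} {S : St} (h : GAH C δ S) (hK2 : S_K2) : Base (TT δ S) := by
  set H : ℝ → ℝ := fun t => gA δ S t - 12 * qq δ S * t * (1 - t) with hH
  have hHc : ContinuousOn H (Icc 0 1) := by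
    refine (h.cg hK2).sub (Continuous.continuousOn ?_)
    fun_prop
  set P : ℝ → ℝ := fun t => max 0 (min t 1) with hP
  have hPc : Continuous P := by
    rw [hP]; fun_prop
  have hPm : ∀ t, P t ∈ Icc (0 : ℝ) 1 := fun t =>
    ⟨le_max_left _ _, max_le zero_le_one (min_le_right _ _)⟩
  have hHP : Continuous fun t => H (P t) := hHc.comp_continuous hPc hPm
  have hH0 : H 0 = 0 := by simp [hH, h.g0]
  have hH1 : H 1 = 0 := by simp [hH, h.g1]
  have hneg : ∀ t, t ≤ 0 → H (P t) = 0 := by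
    intro t ht
    have : P t = 0 := by
      simp only [hP]
      rw [min_eq_left (ht.trans zero_le_one), max_eq_left ht]
    rw [this, hH0]
  have hpos : ∀ t, 0 ≤ t → H (P t) = if t < 1 then H t else 0 := by
    intro t ht
    split_ifs with h1
    · have : P t = t := by
        simp only [hP]
        rw [min_eq_left h1.le, max_eq_right ht]
      rw [this]
    · have : P t = 1 := by
        simp only [hP]
        rw [min_eq_right (not_lt.1 h1), max_eq_right zero_le_one]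
      rw [this, hH1]
  have key : ∀ t, (TT δ S).g t = H (P t) - H (P (-t)) := by
    intro t
    change oddext (fun t => if t < 1 then gA δ S t - 12 * qq δ S * t * (1 - t) else 0) t = _
    unfold oddext
    by_cases h1 : 0 ≤ t
    · rw [if_pos h1, hneg (-t) (by linarith), sub_zero]
      exact (hpos t h1).symm
    · rw [if_neg h1, hneg t (by linarith), zero_sub]
      exact congrArg Neg.neg (hpos (-t) (by linarith)).symm
  refine ⟨?_, ?_, ?_, ?_⟩
  · have e : (TT δ S).g = fun t => H (P t) - H (P (-t)) := funext key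
    rw [e]
    exact hHP.sub (hHP.comp continuous_neg)
  · intro t
    rw [key, key, neg_neg]; ring
  · intro t ht
    rw [key, hpos t (by linarith), hneg (-t) (by linarith), if_neg (by linarith), sub_zero]
  · have e : ∫ t in (0 : ℝ)..1, t * (TT δ S).g t =
        ∫ t in (0 : ℝ)..1, (t * gA δ S t - 12 * qq δ S * (t ^ 2 - t ^ 3)) := by
      refine intervalIntegral.integral_congr fun t ht => ?_
      rw [uIcc_of_le zero_le_one] at ht
      simp only [Tg_eq h ht.1 ht.2]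
      ring
    have i1 : IntervalIntegrable (fun t => t * gA δ S t) volume 0 1 :=
      ContinuousOn.intervalIntegrable_of_Icc zero_le_one (continuousOn_id.mul (h.cg hK2))
    have i2 : IntervalIntegrable (fun t : ℝ => 12 * qq δ S * (t ^ 2 - t ^ 3)) volume 0 1 :=
      Continuous.intervalIntegrable (by fun_prop) _ _
    have e2 : ∫ t in (0 : ℝ)..1, (t ^ 2 - t ^ 3) = 1 / 12 := by
      rw [intervalIntegral.integral_sub (Continuous.intervalIntegrable (by fun_prop) _ _)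
        (Continuous.intervalIntegrable (by fun_prop) _ _), integral_pow, integral_pow]
      norm_num
    rw [e, intervalIntegral.integral_sub i1 i2, intervalIntegral.integral_const_mul, e2]
    unfold qq
    ring

theorem Tg_inc {C δ : ℝ} {S : St} (h : GAH C δ S) (hK2 : S_K2) (h0 : S_B0) (a b : ℝ)
    (ha : 0 ≤ a) (hab : a ≤ b) (hb : b ≤ 1) :
    |((TT δ S).g b - g0 b) - ((TT δ S).g a - g0 a)| ≤
      (C * δ + 13 * |S.p| + 12 * |qq δ S|) * (Om b - Om a) := by
  have ha1 := hab.trans hb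
  have hb0 := ha.trans hab
  rw [Tg_eq h hb0 hb, Tg_eq h ha ha1, g0_eq h0 hb0 hb, g0_eq h0 ha ha1]
  have h1 := h.gi a b ha hab hb
  have h2 := Cop_diff_inc hK2 h.pb a b ha hab hb
  have h3 := om_ge hab
  have h4 := sub_le_sqrt ha hab hb
  have h5 := om_nonneg hab
  have h6 : |b * (1 - b) - a * (1 - a)| ≤ Om b - Om a := by
    have e : b * (1 - b) - a * (1 - a) = (b - a) * (1 - (a + b)) := by ring
    rw [e, abs_mul, abs_of_nonneg (sub_nonneg.2 hab)]
    have h7 : |1 - (a + b)| ≤ 1 := by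
      rw [abs_le]; constructor <;> linarith
    have h8 : (b - a) * |1 - (a + b)| ≤ (b - a) * 1 :=
      mul_le_mul_of_nonneg_left h7 (by linarith)
    linarith
  have e : (gA δ S b - 12 * qq δ S * b * (1 - b) - 3 / 2 * Cop (fp 0) b) -
      (gA δ S a - 12 * qq δ S * a * (1 - a) - 3 / 2 * Cop (fp 0) a) =
      ((gA δ S b - 3 / 2 * Cop (fp S.p) b) - (gA δ S a - 3 / 2 * Cop (fp S.p) a)) +
      (3 / 2 * ((Cop (fp S.p) b - Cop (fp 0) b) - (Cop (fp S.p) a - Cop (fp 0) a)) +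
      -(12 * qq δ S) * (b * (1 - b) - a * (1 - a))) := by ring
  rw [e]
  have k2 : |3 / 2 * ((Cop (fp S.p) b - Cop (fp 0) b) - (Cop (fp S.p) a - Cop (fp 0) a))| ≤
      13 * |S.p| * (Om b - Om a) := by
    rw [abs_mul, abs_of_pos (by norm_num : (0 : ℝ) < 3 / 2)]
    have h9 : 0 ≤ |S.p| * (Om b - Om a) := mul_nonneg (abs_nonneg _) h5
    linarith
  have k3 : |-(12 * qq δ S) * (b * (1 - b) - a * (1 - a))| ≤
      12 * |qq δ S| * (Om b - Om a) := by
    rw [abs_mul, abs_neg, abs_mul, abs_of_pos (by norm_num : (0 : ℝ) < 12)]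
    exact mul_le_mul_of_nonneg_left h6 (by positivity)
  calc _ ≤ _ := abs_add_le _ _
    _ ≤ C * δ * (Om b - Om a) + (13 * |S.p| * (Om b - Om a) + 12 * |qq δ S| * (Om b - Om a)) := by
      refine add_le_add h1 ((abs_add_le _ _).trans (add_le_add k2 k3))
    _ = _ := by ring

/-! ### the crude class -/

theorem crude_of_ball {K₁ K₂ K₃ δ : ℝ} (h0 : S_B0) (h1 : K₁ * δ ≤ 1 / 1000)
    (h2 : K₂ * δ ≤ 1 / 2) (h3 : K₃ * δ ≤ 3 / 10) {S : St} (hB : Ball K₁ K₂ K₃ δ S) :
    Crude S := by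
  refine ⟨hB.toBase, ?_, hB.pb.trans h1, ?_, ?_, ?_, ?_⟩
  · intro a b ha hab hb
    have k1 := hB.ginc a b ha hab hb
    have k2 := h0.2 a b ha hab hb
    have k3 := om_nonneg hab
    have e : S.g b - S.g a = ((S.g b - g0 b) - (S.g a - g0 a)) + (g0 b - g0 a) := by ring
    rw [e]
    have k4 : K₂ * δ * (Om b - Om a) ≤ 1 / 2 * (Om b - Om a) :=
      mul_le_mul_of_nonneg_right h2 k3
    have := abs_add_le ((S.g b - g0 b) - (S.g a - g0 a)) (g0 b - g0 a)
    linarith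
  · intro t ht ht1
    have k1 := abs_le.1 ((hB.ULb t ht ht1).trans h3)
    have k2 := UL0_bd ht ht1
    constructor <;> linarith
  · intro t ht ht1
    have k1 := abs_le.1 ((hB.URb t ht ht1).trans h3)
    unfold UR0 at k1
    constructor <;> linarith
  · intro a b ha hab hb
    have k1 := hB.ULi a b ha hab hb
    have k2 := UL0_inc ha hab hb
    have k3 := sqrt_mono' hab
    have e : S.UL b - S.UL a = ((S.UL b - UL0 b) - (S.UL a - UL0 a)) + (UL0 b - UL0 a) := by ring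
    rw [e]
    have k4 : K₃ * δ * (√b - √a) ≤ 3 / 10 * (√b - √a) :=
      mul_le_mul_of_nonneg_right h3 k3
    have := abs_add_le ((S.UL b - UL0 b) - (S.UL a - UL0 a)) (UL0 b - UL0 a)
    linarith
  · intro a b ha hab hb
    have k1 := hB.URi a b ha hab hb
    have k2 : |UR0 b - UR0 a| ≤ 3 * (√b - √a) := by
      have e : UR0 b - UR0 a = -(3 / 2 * (b - a)) := by unfold UR0; ring
      rw [e, abs_neg, abs_of_nonneg (by linarith)]
      have := sub_le_sqrt (by linarith) hab hb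
      linarith
    have k3 := sqrt_mono' hab
    have e : S.UR b - S.UR a = ((S.UR b - UR0 b) - (S.UR a - UR0 a)) + (UR0 b - UR0 a) := by ring
    rw [e]
    have k4 : K₃ * δ * (√b - √a) ≤ 3 / 10 * (√b - √a) :=
      mul_le_mul_of_nonneg_right h3 k3
    have := abs_add_le ((S.UR b - UR0 b) - (S.UR a - UR0 a)) (UR0 b - UR0 a)
    linarith

/-! ### `𝒜 γ` -/

theorem g_small {S : St} (hS : Crude S) {s : ℝ} (hs : 0 ≤ s) (hs1 : s ≤ 1) :
    |S.g s| ≤ 12 * √s := by
  have h0 : S.g 0 = 0 := by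
    have := hS.godd 0
    rw [neg_zero] at this
    linarith
  have h1 := hS.ginc 0 s le_rfl hs hs1
  rw [h0, sub_zero] at h1
  have := om_zero_le hs hs1
  linarith

theorem g0_zero (h0 : S_B0) : g0 0 = 0 := by
  rw [g0_eq h0 le_rfl zero_le_one, Cop_zero, mul_zero]

theorem g0_small (h0 : S_B0) {s : ℝ} (hs : 0 ≤ s) (hs1 : s ≤ 1) : |g0 s| ≤ 9 * √s := by
  have h1 := h0.2 0 s le_rfl hs hs1
  rw [g0_zero h0, sub_zero] at h1
  have := om_zero_le hs hs1
  linarith

theorem Aop_g0 (hAC : S_AC) (h0 : S_B0) {t : ℝ} (ht : 0 ≤ t) (ht1 : t ≤ 1) :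
    Aop g0 t = -(3 * π / 4 * F0 t) := by
  have e : Aop g0 t = 3 / 2 * Aop (Cop (fp 0)) t := by
    unfold Aop
    rw [← intervalIntegral.integral_const_mul]
    refine intervalIntegral.integral_congr fun s hs => ?_
    rw [uIcc_of_le ht1] at hs
    simp only [g0_eq h0 (ht.trans hs.1) hs.2]
    ring
  rw [e, (hAC (fp 0) 1 (measurable_fp 0) (fp_bd (by norm_num))).1 t ht ht1, F0_int ht ht1]
  ring

theorem Aop_g (hAC : S_AC) (h0 : S_B0) {S : St} (hS : Crude S) {t : ℝ} (ht : 0 ≤ t)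
    (ht1 : t ≤ 1) : Aop S.g t = -(3 * π / 4 * F0 t) + Aop (fun s => S.g s - g0 s) t := by
  have hc : Continuous g0 := (base0 h0).gC
  rw [Aop_sub' ht ht1 hS.gC.measurable hc.measurable
    (fun s hs hs1 => g_small hS (ht.trans hs.le) hs1)
    (fun s hs hs1 => g0_small h0 (ht.trans hs.le) hs1), Aop_g0 hAC h0 ht ht1]
  ring

theorem F0_left {t : ℝ} (ht : t ≤ 1 / 2) : F0 t = FL0 t := by
  unfold F0
  rcases ht.lt_or_eq with h | rfl
  · rw [if_pos h]
  · rw [if_neg (lt_irrefl _), FL0_half]; ring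

theorem F0_right {t : ℝ} (ht : 1 / 2 ≤ t) : F0 t = bb * (1 - t) := by
  unfold F0
  rw [if_neg (not_lt.2 ht)]

theorem TUL_eq (hAC : S_AC) (h0 : S_B0) {δ : ℝ} {S : St} (hS : Crude S) {t : ℝ} (ht : 0 ≤ t)
    (ht1 : t ≤ 1 / 2) : (TT δ S).UL t - UL0 t =
      EL δ S t + ((-(3 / 2) * S.p) * (FL0 t * (1 / fL S.p t) * (1 / fL 0 t)) +
      ((6 * S.p) * ((1 / 2 - t) * (1 / fL S.p t)) +
      (-(10 / π)) * (Aop (fun s => S.g s - g0 s) t * (1 / fL S.p t)))) := by
  have hp' := abs_le.1 hS.pb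
  have h1 := (fL0_bd ht1).1
  have h2 : fL S.p t ≠ 0 := by unfold fL; linarith
  have h3 : fL0 t ≠ 0 := by linarith
  have h4 : fL 0 t = fL0 t := by unfold fL; ring
  have h5 : fL S.p t = fL0 t + S.p := rfl
  have hpi : π ≠ 0 := Real.pi_ne_zero
  have h6 := Aop_g hAC h0 hS ht (ht1.trans (by norm_num))
  rw [F0_left ht1] at h6
  unfold EL UL0
  rw [h6, h4]
  set A := Aop (fun s => S.g s - g0 s) t
  set f := fL S.p t
  set T := (TT δ S).UL t
  set F := FL0 t
  have h7 : S.p = f - fL0 t := by rw [h5]; ring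
  rw [h7]
  set k := fL0 t
  field_simp
  ring

theorem TUR_eq (hAC : S_AC) (h0 : S_B0) {δ : ℝ} {S : St} (hS : Crude S) {t : ℝ}
    (ht : 1 / 2 ≤ t) (ht1 : t ≤ 1) : (TT δ S).UR t - UR0 t =
      ER δ S t + (1000 / π) * Aop (fun s => S.g s - g0 s) t := by
  have hpi : π ≠ 0 := Real.pi_ne_zero
  have h6 := Aop_g hAC h0 hS (by linarith) ht1
  rw [F0_right ht] at h6
  unfold ER UR0
  rw [h6]
  set A := Aop (fun s => S.g s - g0 s) t
  set T := (TT δ S).UR t
  unfold bb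
  field_simp
  ring

end TBaux

open TBaux in
/-- §4.10 -/
theorem TB (hG : S_GA) (hU : S_UE) (hK1 : S_K1) (hK2 : S_K2) (hAC : S_AC) (h0 : S_B0) : S_TB := by
  obtain ⟨CG, hCG, dG, hdG, HG⟩ := hG
  obtain ⟨CU, hCU, dU, hdU, HU⟩ := hU
  obtain ⟨C1, hC1, HK1⟩ := hK1
  obtain ⟨K₁, hK₁⟩ : ∃ K, K = 64 * CG := ⟨_, rfl⟩
  obtain ⟨K₂, hK₂⟩ : ∃ K, K = 37 * CG + 14 * K₁ := ⟨_, rfl⟩
  obtain ⟨K₃, hK₃⟩ : ∃ K, K = CU + 1725 * K₁ + 400 * C1 * K₂ := ⟨_, rfl⟩
  have p1 : 0 < K₁ := by rw [hK₁]; positivity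
  have p2 : 0 < K₂ := by rw [hK₂]; positivity
  have p3 : 0 < K₃ := by rw [hK₃]; positivity
  refine ⟨K₁, K₂, K₃, min (min dG dU) (min (1 / 1000 / K₁) (min (1 / 2 / K₂) (3 / 10 / K₃))),
    p1, p2, p3, by positivity, ?_⟩
  intro δ hδ hδ1
  have a1 : δ ≤ dG := hδ1.trans ((min_le_left _ _).trans (min_le_left _ _))
  have a2 : δ ≤ dU := hδ1.trans ((min_le_left _ _).trans (min_le_right _ _))
  have c1 : K₁ * δ ≤ 1 / 1000 := by
    have : δ ≤ 1 / 1000 / K₁ := hδ1.trans ((min_le_right _ _).trans (min_le_left _ _))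
    rwa [le_div_iff₀ p1, mul_comm] at this
  have c2 : K₂ * δ ≤ 1 / 2 := by
    have : δ ≤ 1 / 2 / K₂ :=
      hδ1.trans ((min_le_right _ _).trans ((min_le_right _ _).trans (min_le_left _ _)))
    rwa [le_div_iff₀ p2, mul_comm] at this
  have c3 : K₃ * δ ≤ 3 / 10 := by
    have : δ ≤ 3 / 10 / K₃ :=
      hδ1.trans ((min_le_right _ _).trans ((min_le_right _ _).trans (min_le_right _ _)))
    rwa [le_div_iff₀ p3, mul_comm] at this
  have hcr : ∀ S, Ball K₁ K₂ K₃ δ S → Crude S := fun S hB => crude_of_ball h0 c1 c2 c3 hB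
  refine ⟨hcr, fun S hB => ?_⟩
  have hS := hcr S hB
  obtain ⟨g1, g2, g3⟩ := HG δ hδ a1 S hS
  have hA : GAH CG δ S := ⟨g1, g2, g3, hS.pb⟩
  have hGd : 0 ≤ CG * δ := by positivity
  obtain ⟨E, hE, hq⟩ := hA.qq_eq hGd hK2 hAC h0
  have hpb := hB.pb
  have hpi3 := Real.pi_gt_three
  have hpi4 := Real.pi_le_four
  have hpi := Real.pi_pos
  have hK1d : 0 < K₁ * δ := mul_pos p1 hδ
  have hK2d : 0 < K₂ * δ := mul_pos p2 hδ
  have hqb : |qq δ S| ≤ 3 * (CG * δ) + K₁ * δ / 16 := by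
    rw [hq]
    have : |π * S.p / 64| ≤ K₁ * δ / 16 := by
      rw [abs_div, abs_mul, abs_of_pos hpi, abs_of_pos (by norm_num : (0 : ℝ) < 64)]
      have : π * |S.p| ≤ 4 * (K₁ * δ) := mul_le_mul hpi4 hpb (abs_nonneg _) (by norm_num)
      linarith
    exact (abs_add_le _ _).trans (add_le_add hE this)
  have hTp : (TT δ S).p = -(64 / π) * E := by
    change S.p - 64 / π * qq δ S = _
    rw [hq]; field_simp; ring
  obtain ⟨u1, u2, u3, u4⟩ := HU δ hδ a2 S hS
  have hz0 : S.g 0 = 0 := by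
    have := hS.godd 0
    rw [neg_zero] at this
    linarith
  have hz1 : g0 1 = 0 := (base0 h0).gz 1 le_rfl
  have hA1 := HK1 (fun s => S.g s - g0 s) (K₂ * δ) hK2d.le
    (by simp only [hz0, g0_zero h0, sub_zero])
    (by simp only [hS.gz 1 le_rfl, hz1, sub_zero]) hB.ginc
  have A0 : BI 0 (1 / 2) (C1 * (K₂ * δ)) (Aop fun s => S.g s - g0 s) :=
    ⟨fun t h1 h2 => hA1.1 t h1 (by linarith), fun a b h1 h2 h3 => hA1.2 a b h1 h2 (by linarith)⟩
  have A2 : BI (1 / 2) 1 (C1 * (K₂ * δ)) (Aop fun s => S.g s - g0 s) :=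
    ⟨fun t h1 h2 => hA1.1 t (by linarith) h2, fun a b h1 h2 h3 => hA1.2 a b (by linarith) h2 h3⟩
  have bE : BI 0 (1 / 2) (CU * δ) (EL δ S) := ⟨u1, u3⟩
  have bR : BI (1 / 2) 1 (CU * δ) (ER δ S) := ⟨u2, u4⟩
  have hC1K : 0 ≤ C1 * (K₂ * δ) := by positivity
  have bL' : BI 0 (1 / 2) (K₃ * δ) (fun t => (TT δ S).UL t - UL0 t) := by
    have m1 := ((FL0_BI.mul (by norm_num) (by norm_num) (fL0_inv hS.pb)).mul (by norm_num)
      (by norm_num) (fL0_inv (p := 0) (by norm_num))).smul (-(3 / 2) * S.p)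
    have m2 := (half_BI.mul (by norm_num) (by norm_num) (fL0_inv hS.pb)).smul (6 * S.p)
    have m3 := (A0.mul hC1K (by norm_num) (fL0_inv hS.pb)).smul (-(10 / π))
    refine ((bE.add (m1.add (m2.add m3))).congr fun t h1 h2 => TUL_eq hAC h0 hS h1 h2).mono ?_
    have e1 : |-(3 / 2) * S.p| = 3 / 2 * |S.p| := by
      rw [abs_mul, abs_neg, abs_of_pos (by norm_num : (0 : ℝ) < 3 / 2)]
    have e2 : |6 * S.p| = 6 * |S.p| := by
      rw [abs_mul, abs_of_pos (by norm_num : (0 : ℝ) < 6)]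
    have e3 : |-(10 / π)| ≤ 4 := by
      rw [abs_neg, abs_of_pos (by positivity), div_le_iff₀ hpi]
      linarith
    have e4 : |-(10 / π)| * (2 * (C1 * (K₂ * δ)) * 25) ≤ 4 * (2 * (C1 * (K₂ * δ)) * 25) :=
      mul_le_mul_of_nonneg_right e3 (by positivity)
    rw [e1, e2, hK₃]
    nlinarith
  have bR' : BI (1 / 2) 1 (K₃ * δ) (fun t => (TT δ S).UR t - UR0 t) := by
    have m1 := A2.smul (1000 / π)
    refine ((bR.add m1).congr fun t h1 h2 => TUR_eq hAC h0 hS h1 h2).mono ?_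
    have e3 : |1000 / π| ≤ 400 := by
      rw [abs_of_pos (by positivity), div_le_iff₀ hpi]
      linarith
    have e4 : |1000 / π| * (C1 * (K₂ * δ)) ≤ 400 * (C1 * (K₂ * δ)) :=
      mul_le_mul_of_nonneg_right e3 hC1K
    rw [hK₃]
    nlinarith
  refine ⟨Tg_base hA hK2, ?_, ?_, bL'.1, bR'.1, bL'.2, bR'.2⟩
  · intro a b ha hab hb
    refine (Tg_inc hA hK2 h0 a b ha hab hb).trans
      (mul_le_mul_of_nonneg_right ?_ (om_nonneg hab))
    rw [hK₂]
    nlinarith
  · rw [hTp, abs_mul, abs_neg, abs_of_pos (by positivity), hK₁]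
    have h1 : 64 / π ≤ 64 / 3 := by
      apply div_le_div_of_nonneg_left <;> linarith
    calc 64 / π * |E| ≤ 64 / 3 * (3 * (CG * δ)) :=
          mul_le_mul h1 hE (abs_nonneg _) (by norm_num)
      _ = 64 * CG * δ := by ring

end Pool.Agent.HV
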