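import Pool.Agent.HV.Stmts

/-!
# The new `U` (§4.9)
-/

set_option autoImplicit false

open MeasureTheory Set Filter
open scoped Real Topology ENNReal

namespace Pool.Agent.HV

theorem UE_sq {c s : ℝ} (hs : 0 ≤ s) : √c ≤ √(c - s) + √s := by
  rw [Real.sqrt_le_iff]
  refine ⟨by positivity, ?_⟩
  have h1 : √s ^ 2 = s := Real.sq_sqrt hs
  have h2 : √(c - s) ^ 2 = max (c - s) 0 := Real.sq_sqrt'
  have h3 : c - s ≤ max (c - s) 0 := le_max_left _ _
  have h4 : 0 ≤ √(c - s) * √s := by positivity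
  nlinarith

theorem UE_Om {s : ℝ} (hs : 0 ≤ s) : Om s - Om 0 ≤ 6 * √s := by
  have h1 := UE_sq (c := 1 / 2) hs
  have h2 := UE_sq (c := 1) hs
  unfold Om
  simp only [Real.sqrt_zero, sub_zero]
  generalize √(1 / 2 - s) = A at *
  generalize √(1 - s) = A' at *
  generalize √(1 / 2 : ℝ) = A'' at *
  generalize √(1 : ℝ) = A''' at *
  linarith

theorem UE_Omc : Continuous Om := by
  unfold Om
  fun_prop

theorem UE_cont {g : ℝ → ℝ} {B : ℝ}
    (hg : ∀ a b, 0 ≤ a → a ≤ b → b ≤ 1 → |g b - g a| ≤ B * (Om b - Om a)) :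
    ContinuousOn g (Icc 0 1) := by
  intro x hx
  have hb : ∀ y ∈ Icc (0 : ℝ) 1, |g y - g x| ≤ |B| * |Om y - Om x| := by
    intro y hy
    rcases le_total x y with h | h
    · refine (hg x y hx.1 h hy.2).trans ?_
      rw [← abs_mul]
      exact le_abs_self _
    · rw [abs_sub_comm]
      refine (hg y x hy.1 h hx.2).trans ?_
      rw [← abs_mul, abs_mul, abs_sub_comm (Om y), ← abs_mul]
      exact le_abs_self _
  have hlim : Tendsto (fun y => |B| * |Om y - Om x|) (𝓝[Icc 0 1] x) (𝓝 0) := by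
    have h1 : Tendsto (fun y => |B| * |Om y - Om x|) (𝓝 x) (𝓝 (|B| * |Om x - Om x|)) :=
      ((UE_Omc.sub continuous_const).abs.const_mul |B|).tendsto x
    rw [sub_self, abs_zero, mul_zero] at h1
    exact h1.mono_left nhdsWithin_le_nhds
  show Tendsto g (𝓝[Icc 0 1] x) (𝓝 (g x))
  rw [tendsto_iff_dist_tendsto_zero]
  refine squeeze_zero' (Eventually.of_forall fun y => dist_nonneg) ?_ hlim
  filter_upwards [self_mem_nhdsWithin] with y hy
  rw [Real.dist_eq]
  exact hb y hy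

theorem UE_int {g : ℝ → ℝ} {B : ℝ} (hB : 0 ≤ B) (h0 : g 0 = 0)
    (hg : ∀ a b, 0 ≤ a → a ≤ b → b ≤ 1 → |g b - g a| ≤ B * (Om b - Om a)) {t : ℝ} (ht : 0 ≤ t)
    (ht1 : t ≤ 1) : IntervalIntegrable (fun s => g s / √(s ^ 2 - t ^ 2)) volume t 1 := by
  rw [intervalIntegrable_iff_integrableOn_Ioc_of_le ht1]
  have hbase : IntegrableOn (fun s => 1 / √(s - t)) (Ioc t 1) volume := by
    refine intervalIntegral.integrableOn_deriv_of_nonneg (g := fun s => 2 * √(s - t)) ?_ ?_ ?_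
    · fun_prop
    · intro x hx
      have h1 : HasDerivAt (fun s => s - t) 1 x := (hasDerivAt_id x).sub_const t
      have hx0 : 0 < x - t := by linarith [hx.1]
      have h2 := (h1.sqrt hx0.ne').const_mul 2
      refine h2.congr_deriv ?_
      have : 0 < √(x - t) := Real.sqrt_pos.2 hx0
      field_simp
    · intro x _
      positivity
  have hdom : IntegrableOn (fun s => 6 * B * (1 / √(s - t))) (Ioc t 1) volume :=
    hbase.const_mul (6 * B)
  refine Integrable.mono' hdom ?_ ?_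
  · have hc := (UE_cont hg).mono (fun s hs => ⟨ht.trans (le_of_lt hs.1), hs.2⟩ :
      Ioc t 1 ⊆ Icc 0 1)
    have h1 : AEMeasurable g (volume.restrict (Ioc t 1)) :=
      (hc.aestronglyMeasurable measurableSet_Ioc).aemeasurable
    have h2 : AEMeasurable (fun s : ℝ => √(s ^ 2 - t ^ 2)) (volume.restrict (Ioc t 1)) :=
      (by fun_prop : Continuous fun s : ℝ => √(s ^ 2 - t ^ 2)).aemeasurable
    exact (h1.div h2).aestronglyMeasurable
  · refine ae_restrict_of_forall_mem measurableSet_Ioc fun s hs => ?_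
    have hs0 : 0 < s := lt_of_le_of_lt ht hs.1
    have hst : 0 < s - t := by linarith [hs.1]
    have h1 : |g s| ≤ 6 * B * √s := by
      have h2 := hg 0 s le_rfl hs0.le hs.2
      rw [h0, sub_zero] at h2
      refine h2.trans ?_
      calc B * (Om s - Om 0) ≤ B * (6 * √s) := mul_le_mul_of_nonneg_left (UE_Om hs0.le) hB
        _ = _ := by ring
    have h2 : √(s - t) * √s ≤ √(s ^ 2 - t ^ 2) := by
      rw [← Real.sqrt_mul hst.le]
      apply Real.sqrt_le_sqrt
      nlinarith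
    have h3 : 0 < √(s - t) := Real.sqrt_pos.2 hst
    have h4 : 0 < √s := Real.sqrt_pos.2 hs0
    have h5 : 0 < √(s ^ 2 - t ^ 2) := lt_of_lt_of_le (by positivity) h2
    rw [norm_div, Real.norm_eq_abs, Real.norm_eq_abs, abs_of_pos h5]
    rw [div_le_iff₀ h5]
    calc |g s| ≤ 6 * B * √s := h1
      _ = 6 * B * (1 / √(s - t)) * (√(s - t) * √s) := by field_simp
      _ ≤ _ := mul_le_mul_of_nonneg_left h2 (by positivity)

theorem UE_comb {X f : ℝ → ℝ} {M : ℝ} (hM : 0 ≤ M) {l r : ℝ}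
    (hX : ∀ t, l ≤ t → t ≤ r → |X t| ≤ M)
    (hXi : ∀ a b, l ≤ a → a ≤ b → b ≤ r → |X b - X a| ≤ M * (√b - √a))
    (hf : ∀ t, l ≤ t → t ≤ r → 1 / 20 ≤ f t)
    (hfi : ∀ a b, l ≤ a → a ≤ b → b ≤ r → |f b - f a| ≤ √b - √a) :
    (∀ t, l ≤ t → t ≤ r → |X t / f t| ≤ 420 * M) ∧
      ∀ a b, l ≤ a → a ≤ b → b ≤ r → |X b / f b - X a / f a| ≤ 420 * M * (√b - √a) := by
  have hq : ∀ t, l ≤ t → t ≤ r → |X t / f t| ≤ 20 * M := by
    intro t h1 h2
    have h3 := hf t h1 h2
    have h4 : 0 < f t := by linarith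
    rw [abs_div, abs_of_pos h4, div_le_iff₀ h4]
    nlinarith [hX t h1 h2]
  refine ⟨fun t h1 h2 => (hq t h1 h2).trans (by linarith), fun a b h1 h2 h3 => ?_⟩
  have ha : a ≤ r := h2.trans h3
  have hb : l ≤ b := h1.trans h2
  have f1 := hf a h1 ha
  have f2 := hf b hb h3
  have f1' : 0 < f a := by linarith
  have f2' : 0 < f b := by linarith
  have hd : 0 ≤ √b - √a := by linarith [Real.sqrt_le_sqrt h2]
  have e1 : X b / f b - X a / f a = (X b - X a) / f b - X a / f a * (f b - f a) / f b := by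
    field_simp
    ring
  have hX1 : |(X b - X a) / f b| ≤ 20 * M * (√b - √a) := by
    rw [abs_div, abs_of_pos f2', div_le_iff₀ f2']
    have h4 := hXi a b h1 h2 h3
    have h5 : 0 ≤ M * (√b - √a) := mul_nonneg hM hd
    nlinarith
  have hX2 : |X a / f a * (f b - f a) / f b| ≤ 400 * M * (√b - √a) := by
    rw [abs_div, abs_of_pos f2', div_le_iff₀ f2', abs_mul]
    have h4 := hq a h1 ha
    have h5 := hfi a b h1 h2 h3
    have h6 : |X a / f a| * |f b - f a| ≤ 20 * M * (√b - √a) :=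
      mul_le_mul h4 h5 (abs_nonneg _) (by positivity)
    have h7 : 0 ≤ M * (√b - √a) := mul_nonneg hM hd
    nlinarith
  rw [e1]
  refine (abs_sub _ _).trans ?_
  linarith

set_option linter.unusedVariables false in
theorem UE (hA : S_FactsA) (hB : S_FactsB) (hD : S_DE) (hQ : S_QE) (hR : S_RP)
    (hK1 : S_K1) : S_UE := by
  obtain ⟨CD, hCD, δD, hδD, hD⟩ := hD
  obtain ⟨CQ, hCQ, δQ, hδQ, hQ⟩ := hQ
  obtain ⟨CR, hCR, δR, hδR, hR⟩ := hR
  obtain ⟨CK, hCK, hK⟩ := hK1
  refine ⟨420 * (CD + CK * CQ + CR), by positivity, min δD (min δQ δR),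
    lt_min hδD (lt_min hδQ hδR), ?_⟩
  intro δ hδ hδ1 S hS
  have hδD' : δ ≤ δD := hδ1.trans (min_le_left _ _)
  have hδQ' : δ ≤ δQ := hδ1.trans ((min_le_right _ _).trans (min_le_left _ _))
  have hδR' : δ ≤ δR := hδ1.trans ((min_le_right _ _).trans (min_le_right _ _))
  have hDS := hD δ hδ hδD' S hS
  obtain ⟨hQ0, hQ1, hQi⟩ := hQ δ hδ hδQ' S hS
  obtain ⟨hRb, hRi⟩ := hR δ hδ hδR' S hS
  have hδ2 : (0 : ℝ) < δ ^ 2 := by positivity
  have hg0 : S.g 0 = 0 := by
    have := hS.godd 0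
    rw [neg_zero] at this
    linarith
  have hg1 : S.g 1 = 0 := hS.gz 1 le_rfl
  set h : ℝ → ℝ := fun t => Qd δ S t / δ ^ 2 + 10 * S.g t with hh
  have hh0 : h 0 = 0 := by rw [hh]; simp [hQ0, hg0]
  have hh1 : h 1 = 0 := by rw [hh]; simp [hQ1, hg1]
  have hhi : ∀ a b, 0 ≤ a → a ≤ b → b ≤ 1 → |h b - h a| ≤ CQ * δ * (Om b - Om a) := hQi
  obtain ⟨hKb, hKi⟩ := hK h (CQ * δ) (by positivity) hh0 hh1 hhi
  -- splitting of `Rhs`
  have hRhs : ∀ t, 0 ≤ t → t ≤ 1 →
      Rhs δ S t = Aop h t - 10 * Aop S.g t + Rp δ S t / δ ^ 2 := by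
    intro t ht ht1
    have i1 := UE_int (B := CQ * δ) (by positivity) hh0 hhi ht ht1
    have i2 := UE_int (B := 2) (by norm_num) hg0 hS.ginc ht ht1
    have e1 : Aop (Qd δ S) t / δ ^ 2 = Aop h t - 10 * Aop S.g t := by
      unfold Aop
      rw [← intervalIntegral.integral_const_mul, ← intervalIntegral.integral_sub i1
        (i2.const_mul 10), ← intervalIntegral.integral_div]
      apply intervalIntegral.integral_congr
      intro s _
      simp only [hh]
      field_simp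
      ring
    unfold Rhs
    rw [add_div, e1]
  -- the common error term
  have hM : 0 ≤ (CD + CK * CQ + CR) * δ := by positivity
  have hpi : (1 : ℝ) ≤ π := by linarith [Real.pi_gt_three]
  have key : ∀ (D₁ : ℝ → ℝ) (l r : ℝ), 0 ≤ l → r ≤ 1 →
      (∀ t, l ≤ t → t ≤ r → |D₁ t| ≤ CD * δ) →
      (∀ a b, l ≤ a → a ≤ b → b ≤ r → |D₁ b - D₁ a| ≤ CD * δ * (√b - √a)) →
      (∀ t, l ≤ t → t ≤ r → |-(D₁ t / 2) + 1 / π * (Aop h t + Rp δ S t / δ ^ 2)| ≤
        (CD + CK * CQ + CR) * δ) ∧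
      ∀ a b, l ≤ a → a ≤ b → b ≤ r →
        |(-(D₁ b / 2) + 1 / π * (Aop h b + Rp δ S b / δ ^ 2)) -
          (-(D₁ a / 2) + 1 / π * (Aop h a + Rp δ S a / δ ^ 2))| ≤
        (CD + CK * CQ + CR) * δ * (√b - √a) := by
    intro D₁ l r hl hr h1 h2
    have hpi1 : ∀ y : ℝ, |1 / π * y| ≤ |y| := by
      intro y
      rw [abs_mul, abs_of_pos (by positivity : (0 : ℝ) < 1 / π)]
      have : 1 / π ≤ 1 := by
        rw [div_le_one (by positivity)]; exact hpi
      nlinarith [abs_nonneg y]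
    have hhalf : ∀ y : ℝ, |y / 2| ≤ |y| := by
      intro y
      rw [abs_div, abs_of_pos (by norm_num : (0 : ℝ) < 2)]
      linarith [abs_nonneg y]
    constructor
    · intro t ht ht1
      have a1 := h1 t ht ht1
      have a2 := hKb t (hl.trans ht) (ht1.trans hr)
      have a3 := hRb t (hl.trans ht) (ht1.trans hr)
      have a4 : |Rp δ S t / δ ^ 2| ≤ CR * δ := by
        rw [abs_div, abs_of_pos hδ2, div_le_iff₀ hδ2]
        refine a3.trans (le_of_eq ?_)
        ring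
      calc |-(D₁ t / 2) + 1 / π * (Aop h t + Rp δ S t / δ ^ 2)|
          ≤ |-(D₁ t / 2)| + |1 / π * (Aop h t + Rp δ S t / δ ^ 2)| := abs_add_le _ _
        _ ≤ |D₁ t| + (|Aop h t| + |Rp δ S t / δ ^ 2|) := by
            rw [abs_neg]
            exact add_le_add (hhalf _) ((hpi1 _).trans (abs_add_le _ _))
        _ ≤ CD * δ + (CK * (CQ * δ) + CR * δ) := by linarith
        _ = _ := by ring
    · intro a b ha hab hb
      have a1 := h2 a b ha hab hb
      have a2 := hKi a b (hl.trans ha) hab (hb.trans hr)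
      have a3 := hRi a b (hl.trans ha) hab (hb.trans hr)
      have a4 : |Rp δ S b / δ ^ 2 - Rp δ S a / δ ^ 2| ≤ CR * δ * (√b - √a) := by
        rw [← sub_div, abs_div, abs_of_pos hδ2, div_le_iff₀ hδ2]
        refine a3.trans (le_of_eq ?_)
        ring
      have e1 : (-(D₁ b / 2) + 1 / π * (Aop h b + Rp δ S b / δ ^ 2)) -
          (-(D₁ a / 2) + 1 / π * (Aop h a + Rp δ S a / δ ^ 2)) =
          -((D₁ b - D₁ a) / 2) + 1 / π * ((Aop h b - Aop h a) +
            (Rp δ S b / δ ^ 2 - Rp δ S a / δ ^ 2)) := by ring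
      rw [e1]
      calc |-((D₁ b - D₁ a) / 2) + 1 / π * ((Aop h b - Aop h a) +
            (Rp δ S b / δ ^ 2 - Rp δ S a / δ ^ 2))|
          ≤ |-((D₁ b - D₁ a) / 2)| + |1 / π * ((Aop h b - Aop h a) +
            (Rp δ S b / δ ^ 2 - Rp δ S a / δ ^ 2))| := abs_add_le _ _
        _ ≤ |D₁ b - D₁ a| + (|Aop h b - Aop h a| +
            |Rp δ S b / δ ^ 2 - Rp δ S a / δ ^ 2|) := by
            rw [abs_neg]
            exact add_le_add (hhalf _) ((hpi1 _).trans (abs_add_le _ _))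
        _ ≤ CD * δ * (√b - √a) + (CK * (CQ * δ) * (√b - √a) + CR * δ * (√b - √a)) := by
            linarith
        _ = _ := by ring
  have hsqrt : ∀ a b : ℝ, a ≤ b → 0 ≤ √b - √a := fun a b hab => by
    linarith [Real.sqrt_le_sqrt hab]
  -- left piece
  have hp := abs_le.1 hS.pb
  have hfL : ∀ t, 0 ≤ t → t ≤ 1 / 2 → 1 / 20 ≤ fL S.p t ∧ fL S.p t ≤ 1 := by
    intro t ht ht1
    have h1 : √(t / 2) ≤ 1 / 2 := by
      rw [Real.sqrt_le_left (by norm_num)]
      linarith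
    have h2 : 0 ≤ √(t / 2) := Real.sqrt_nonneg _
    unfold fL fL0 bb
    constructor <;> nlinarith [hp.1, hp.2]
  have hfLi : ∀ a b, 0 ≤ a → a ≤ b → b ≤ 1 / 2 → |fL S.p b - fL S.p a| ≤ √b - √a := by
    intro a b ha hab hb
    have e1 : fL S.p b - fL S.p a = -(7 / 100 * (√(b / 2) - √(a / 2))) := by
      unfold fL fL0 bb
      ring
    have h2 : √(b / 2) - √(a / 2) = (√b - √a) / √2 := by
      rw [Real.sqrt_div (ha.trans hab), Real.sqrt_div ha]
      ring
    have h3 : (1 : ℝ) ≤ √2 := by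
      rw [Real.one_le_sqrt]; norm_num
    have h4 := hsqrt a b hab
    have h5 : (√b - √a) / √2 ≤ √b - √a := div_le_self h4 h3
    have h6 : 0 ≤ (√b - √a) / √2 := by positivity
    rw [e1, abs_neg, h2, abs_of_nonneg (by positivity)]
    linarith
  obtain ⟨dL, dLi⟩ := hDS 0 (1 / 2) (Or.inl ⟨rfl, rfl⟩) S.UL (fL S.p)
    (fun t ht ht1 => by
      have h1 := hS.ULb t ht ht1
      have h2 := hfL t ht ht1
      constructor
      · rw [abs_le]; constructor <;> linarith
      · rw [abs_le]; constructor <;> linarith)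
    (fun a b ha hab hb => by
      have h1 := hS.ULi a b ha hab hb
      have h2 := hfLi a b ha hab hb
      have h3 := hsqrt a b hab
      constructor <;> nlinarith)
  simp only [if_true] at dL dLi
  obtain ⟨kL, kLi⟩ := key _ 0 (1 / 2) le_rfl (by norm_num) dL dLi
  obtain ⟨cL, cLi⟩ := UE_comb (f := fL S.p) hM kL kLi (fun t ht ht1 => (hfL t ht ht1).1) hfLi
  have eL : ∀ t, 0 ≤ t → t ≤ 1 / 2 → EL δ S t =
      (-((DD δ S (S.UL t + fL S.p t) (S.UL t - fL S.p t) t
        - 12 * (FL0 t - S.p * (1 / 2 - t)) - 2 * fL S.p t * (S.UL t + 3 * t)) / 2) +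
        1 / π * (Aop h t + Rp δ S t / δ ^ 2)) / fL S.p t := by
    intro t ht ht1
    have h1 := hfL t ht ht1
    have h2 : fL S.p t ≠ 0 := by linarith [h1.1]
    have h3 := Real.pi_pos.ne'
    unfold EL
    show S.UL t - (DD δ S (S.UL t + fL S.p t) (S.UL t - fL S.p t) t - 2 / π * Rhs δ S t) /
      (2 * fL S.p t) - _ = _
    rw [hRhs t ht (by linarith)]
    field_simp
    ring
  -- right piece
  obtain ⟨dR, dRi⟩ := hDS (1 / 2) 1 (Or.inr ⟨rfl, rfl⟩) S.UR (fun _ => -bb)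
    (fun t ht ht1 => by
      have h1 := hS.URb t ht ht1
      constructor
      · rw [abs_le]; constructor <;> linarith
      · unfold bb; rw [abs_le]; constructor <;> norm_num)
    (fun a b ha hab hb => by
      have h1 := hS.URi a b ha hab hb
      have h3 := hsqrt a b hab
      constructor
      · nlinarith
      · rw [sub_self, abs_zero]; positivity)
  have h12 : ¬ ((1 : ℝ) = 1 / 2) := by norm_num
  simp only [h12, if_false] at dR dRi
  obtain ⟨kR, kRi⟩ := key _ (1 / 2) 1 (by norm_num) le_rfl dR dRi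
  have eR : ∀ t, 1 / 2 ≤ t → t ≤ 1 → ER δ S t =
      -100 * (-((DD δ S (S.UR t + -bb) (S.UR t - -bb) t
        - 12 * (bb * (1 - t)) - 2 * -bb * (S.UR t + 3 * t)) / 2) +
        1 / π * (Aop h t + Rp δ S t / δ ^ 2)) := by
    intro t ht ht1
    have h3 := Real.pi_pos.ne'
    unfold ER
    show S.UR t - (DD δ S (S.UR t - bb) (S.UR t + bb) t - 2 / π * Rhs δ S t) /
      (2 * (-bb)) - _ = _
    rw [hRhs t (by linarith) ht1, sub_neg_eq_add, ← sub_eq_add_neg]
    unfold bb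
    field_simp
    ring
  have e0 : 420 * (CD + CK * CQ + CR) * δ = 420 * ((CD + CK * CQ + CR) * δ) := by ring
  rw [e0]
  refine ⟨fun t ht ht1 => ?_, fun t ht ht1 => ?_, fun a b ha hab hb => ?_,
    fun a b ha hab hb => ?_⟩
  · rw [eL t ht ht1]
    exact cL t ht ht1
  · rw [eR t ht ht1, abs_mul]
    have := kR t ht ht1
    have e : |(-100 : ℝ)| = 100 := by norm_num
    rw [e]
    linarith
  · rw [eL b (ha.trans hab) hb, eL a ha (hab.trans hb)]
    exact cLi a b ha hab hb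
  · rw [eR b (ha.trans hab) hb, eR a ha (hab.trans hb), ← mul_sub, abs_mul]
    have h1 := kRi a b ha hab hb
    have h2 := mul_nonneg hM (hsqrt a b hab)
    have e : |(-100 : ℝ)| = 100 := by norm_num
    rw [e]
    linarith

end Pool.Agent.HV
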