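import Pool.Agent.HV.AC
import Pool.Agent.HV.AF
import Pool.Agent.HV.B0
import Pool.Agent.HV.CA
import Pool.Agent.HV.CV
import Pool.Agent.HV.CVA
import Pool.Agent.HV.CVg
import Pool.Agent.HV.CVr
import Pool.Agent.HV.DE
import Pool.Agent.HV.E0
import Pool.Agent.HV.EK
import Pool.Agent.HV.FA
import Pool.Agent.HV.FB
import Pool.Agent.HV.FIX
import Pool.Agent.HV.GA
import Pool.Agent.HV.GC
import Pool.Agent.HV.GD
import Pool.Agent.HV.GK
import Pool.Agent.HV.GN
import Pool.Agent.HV.GS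
import Pool.Agent.HV.GU
import Pool.Agent.HV.GV
import Pool.Agent.HV.IE
import Pool.Agent.HV.INC
import Pool.Agent.HV.K1
import Pool.Agent.HV.K2
import Pool.Agent.HV.KB
import Pool.Agent.HV.KI
import Pool.Agent.HV.LAM
import Pool.Agent.HV.M0
import Pool.Agent.HV.Main
import Pool.Agent.HV.PA
import Pool.Agent.HV.PR
import Pool.Agent.HV.QE
import Pool.Agent.HV.QI
import Pool.Agent.HV.RP
import Pool.Agent.HV.SCH
import Pool.Agent.HV.SF
import Pool.Agent.HV.TB
import Pool.Agent.HV.TC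
import Pool.Agent.HV.UE

/-!
# Assembly for MP_678b51_gt, Q2
-/

set_option autoImplicit false

namespace Pool.Agent.HV

theorem main : S_Main := by
  have hFB : S_FactsB := FB FA
  have hK1 : S_K1 := K1 KI LAM
  have hB0 : S_B0 := B0 K2 AC
  have hKB : S_KB := KB FA hFB
  have hRP : S_RP := RP FA hFB hKB KI LAM
  have hQE : S_QE := QE FA hFB INC INE
  have hDE : S_DE := DE FA hFB
  have hIE : S_IE := IE FA hFB INC
  have hCA : S_CA := CA FA hFB INC
  have hPA : S_PA := PA FA hFB K2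
  have hGA : S_GA := GA hFB hPA hCA hIE K2
  have hUE : S_UE := UE FA hFB hDE hQE hRP hK1
  have hTB : S_TB := TB hGA hUE hK1 K2 AC hB0
  have hCVA : S_CVA := CVA FA hFB
  have hCVg : S_CVg := CVg FA hFB hCVA hIE hGA K2
  have hCVr : S_CVr := CVr FA hFB hKB hQE hCVA
  have hTC : S_TC := TC FA hFB hCVA hCVg hCVr
  have hFIX : S_FIX := FIX hB0 SCH
  have hQI : S_QI := QI FA hFB hQE INE
  have hE0 : S_E0 := E0 FA hFB hKB AC hQE hQI EK
  have hM0 : S_M0 := M0 FA hFB INE
  have hCV : S_CV := CV FA hFB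
  have hPR : S_PR := PR hTB hTC hFIX FA hFB hGA hE0 hM0 hCV
  have hSF : S_SF := SF AF
  have hGS : S_GS := GS hSF INE
  exact MainOf hPR GK hGS (GD GK (GV INE) hGS (GN hSF)) GU GC

end Pool.Agent.HV
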