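import Pool.Agent.HV.Stmts

/-!
# Area of the part of the surface below a plane (§1.3)
-/

set_option autoImplicit false

open MeasureTheory Set Filter
open scoped Real Topology ENNReal

namespace Pool.Agent.HV

namespace GSaux

/-- `cos θ ≤ m` in terms of `arccos` -/
lemma cos_le_iff {θ m : ℝ} (h : |θ| < π) : Real.cos θ ≤ m ↔ Real.arccos m ≤ |θ| := by
  rw [← Real.cos_abs]
  rcases lt_or_ge m (-1) with h1 | h1
  · rw [Real.arccos_of_le_neg_one h1.le]
    constructor
    · intro h2; linarith [Real.neg_one_le_cos |θ|]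
    · intro h2; linarith
  rcases lt_or_ge 1 m with h3 | h3
  · rw [Real.arccos_of_one_le h3.le]
    exact ⟨fun _ => abs_nonneg _, fun _ => (Real.cos_le_one _).trans h3.le⟩
  constructor
  · intro h2
    by_contra h4
    push Not at h4
    have := Real.cos_lt_cos_of_nonneg_of_le_pi (abs_nonneg θ) (Real.arccos_le_pi m) h4
    rw [Real.cos_arccos h1 h3] at this
    linarith
  · intro h2
    have := Real.cos_le_cos_of_nonneg_of_le_pi (Real.arccos_nonneg m) h.le h2
    rwa [Real.cos_arccos h1 h3] at this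

lemma circ (m : ℝ) (c : ℝ≥0∞) (f : ℝ → ℝ≥0∞)
    (hf : ∀ θ, |θ| < π → f θ = if Real.cos θ ≤ m then 1 else 0) :
    ∫⁻ θ in Ioo (-π) π, c * f θ = c * ENNReal.ofReal (π + 2 * Real.arcsin m) := by
  have hpi := Real.pi_pos
  set a := Real.arccos m with ha
  have a0 : 0 ≤ a := Real.arccos_nonneg m
  have a1 : a ≤ π := Real.arccos_le_pi m
  have e1 : ∫⁻ θ in Ioo (-π) π, c * f θ =
      ∫⁻ θ in Ioo (-π) π, c * (Ioo (-a) a)ᶜ.indicator 1 θ := by
    apply setLIntegral_congr_fun measurableSet_Ioo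
    intro θ hθ
    have h1 : |θ| < π := abs_lt.2 ⟨hθ.1, hθ.2⟩
    simp only
    rw [hf θ h1]
    congr 1
    simp only [indicator, mem_compl_iff, mem_Ioo, ← abs_lt, not_lt, Pi.one_apply]
    simp only [cos_le_iff h1, ha]
  rw [e1, lintegral_const_mul _ ((measurable_one.indicator measurableSet_Ioo.compl))]
  congr 1
  rw [lintegral_indicator_one measurableSet_Ioo.compl,
    Measure.restrict_apply measurableSet_Ioo.compl]
  have e2 : (Ioo (-a) a)ᶜ ∩ Ioo (-π) π = Ioo (-π) π \ Ioo (-a) a := by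
    ext θ; simp [and_comm]
  rw [e2, measure_sdiff (Ioo_subset_Ioo (by linarith) a1) measurableSet_Ioo.nullMeasurableSet
    (by simp), Real.volume_Ioo, Real.volume_Ioo, ← ENNReal.ofReal_sub _ (by linarith)]
  congr 1
  rw [ha, Real.arccos_eq_pi_div_two_sub_arcsin]
  ring



/-- monotonicity with one exceptional point -/
lemma mono_of {f f' : ℝ → ℝ} (hc : ContinuousOn f (Icc 0 1))
    (hd : ∀ t, 0 < t → t < 1 → t ≠ 1 / 2 → HasDerivAt f (f' t) t)
    (hn : ∀ t, 0 < t → t < 1 → t ≠ 1 / 2 → 0 ≤ f' t) : MonotoneOn f (Icc 0 1) := by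
  have h1 : MonotoneOn f (Icc 0 (1 / 2)) := by
    apply monotoneOn_of_deriv_nonneg (convex_Icc _ _)
    · exact hc.mono (Icc_subset_Icc_right (by norm_num))
    · rw [interior_Icc]
      intro t ht
      exact (hd t ht.1 (by linarith [ht.2]) ht.2.ne).differentiableAt.differentiableWithinAt
    · rw [interior_Icc]
      intro t ht
      rw [(hd t ht.1 (by linarith [ht.2]) ht.2.ne).deriv]
      exact hn t ht.1 (by linarith [ht.2]) ht.2.ne
  have h2 : MonotoneOn f (Icc (1 / 2) 1) := by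
    apply monotoneOn_of_deriv_nonneg (convex_Icc _ _)
    · exact hc.mono (Icc_subset_Icc_left (by norm_num))
    · rw [interior_Icc]
      intro t ht
      exact (hd t (by linarith [ht.1]) ht.2 ht.1.ne').differentiableAt.differentiableWithinAt
    · rw [interior_Icc]
      intro t ht
      rw [(hd t (by linarith [ht.1]) ht.2 ht.1.ne').deriv]
      exact hn t (by linarith [ht.1]) ht.2 ht.1.ne'
  have h3 := h1.union_right h2 (isGreatest_Icc (by norm_num)) (isLeast_Icc (by norm_num))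
  rwa [Icc_union_Icc_eq_Icc (by norm_num) (by norm_num)] at h3

variable {δ : ℝ} {A dA : ℝ → ℝ} {x u : ℝ → ℝ → ℝ}

lemma x_ge (h : Prof δ A dA x u) {e : ℝ} (he : e = 1 ∨ e = -1) {t : ℝ} (h0 : 0 ≤ t)
    (h1 : t ≤ 1) : 3 ≤ x e t := by
  have m := mono_of (f := fun t => -x e t) (f' := fun t => -(δ ^ 2 * u e t)) (h.xc e).neg
    (fun t a b c => (h.hx e he t a b c).neg) (fun t a b _ => by
      have := (h.ub e he t a.le b.le).2
      have := h.δ0
      nlinarith [sq_nonneg δ])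
  have := m ⟨h0, h1⟩ ⟨zero_le_one, le_rfl⟩ h1
  simp only [h.x1] at this
  linarith

lemma x_le (h : Prof δ A dA x u) {e : ℝ} (he : e = 1 ∨ e = -1) {t : ℝ} (h0 : 0 ≤ t)
    (h1 : t ≤ 1) : x e t ≤ 4 := by
  have m := mono_of (f := fun t => x e t + 5 * δ ^ 2 * t) (f' := fun t => δ ^ 2 * u e t + 5 * δ ^ 2)
    ((h.xc e).add (by fun_prop))
    (fun t a b c => (h.hx e he t a b c).add (by
      simpa using (hasDerivAt_id t).const_mul (5 * δ ^ 2))) (fun t a b _ => by
      have := (h.ub e he t a.le b.le).1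
      have := h.δ0
      nlinarith [sq_nonneg δ])
  have := m ⟨h0, h1⟩ ⟨zero_le_one, le_rfl⟩ h1
  simp only [h.x1] at this
  have d0 := h.δ0
  have d1 := h.δ1
  have : 0 ≤ 5 * δ ^ 2 * t := by positivity
  nlinarith

lemma A_lip (h : Prof δ A dA x u) (a b : ℝ) : |A a - A b| ≤ 1 / 10 * |a - b| := by
  have := Convex.norm_image_sub_le_of_norm_hasDerivWithin_le (f := A) (f' := dA) (C := 1 / 10)
    (s := univ) (x := b) (y := a) (fun t _ => (h.hA t).hasDerivWithinAt)
    (fun t _ => h.dAb t) convex_univ (mem_univ _) (mem_univ _)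
  simpa [Real.norm_eq_abs] using this

lemma A_zero (h : Prof δ A dA x u) : A 0 = 0 := by
  have := h.Aodd 0
  simp only [neg_zero] at this
  linarith

/-- the sign -/
lemma esq {e : ℝ} (he : e = 1 ∨ e = -1) : |e| = 1 := by
  rcases he with rfl | rfl <;> simp

lemma eA_sub (h : Prof δ A dA x u) {e : ℝ} (he : e = 1 ∨ e = -1) {t s : ℝ} (hts : t ≤ s) :
    |e * A s - e * A t| ≤ 1 / 10 * (s - t) := by
  rw [← mul_sub, abs_mul, esq he, one_mul]
  have := A_lip h s t
  rwa [abs_of_nonneg (by linarith : 0 ≤ s - t)] at this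

lemma eA_add (h : Prof δ A dA x u) {e : ℝ} (he : e = 1 ∨ e = -1) {t s : ℝ} (h0 : 0 ≤ t)
    (hts : t ≤ s) : |e * A s + e * A t| ≤ 1 / 10 * (s + t) := by
  rw [← mul_add, abs_mul, esq he, one_mul]
  have := A_lip h s (-t)
  rw [h.Aodd, sub_neg_eq_add, sub_neg_eq_add] at this
  rwa [abs_of_nonneg (by linarith : 0 ≤ s + t)] at this

lemma edA (h : Prof δ A dA x u) {e : ℝ} (he : e = 1 ∨ e = -1) (t : ℝ) :
    |e * dA t| ≤ 1 / 10 := by
  rw [abs_mul, esq he, one_mul]
  exact h.dAb t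

/-- the cap: lower bound of the expression under the root -/
lemma D_ge (h : Prof δ A dA x u) {e : ℝ} (he : e = 1 ∨ e = -1) {t s : ℝ} (h0 : 0 ≤ t)
    (hts : t ≤ s) (h1 : s ≤ 1) :
    8 * (s ^ 2 - t ^ 2) ≤ rho A x e s ^ 2 - (t * x e s - e * A t) ^ 2 := by
  have hx := x_ge h he (h0.trans hts) h1
  have a1 := abs_le.1 (eA_sub h he hts)
  have a2 := abs_le.1 (eA_add h he h0 hts)
  unfold rho
  have e1 : (s * x e s - e * A s) ^ 2 - (t * x e s - e * A t) ^ 2 =
      ((s - t) * x e s - (e * A s - e * A t)) * ((s + t) * x e s - (e * A s + e * A t)) := by ring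
  rw [e1]
  have b1 : 29 / 10 * (s - t) ≤ (s - t) * x e s - (e * A s - e * A t) := by
    nlinarith [mul_le_mul_of_nonneg_left hx (by linarith : 0 ≤ s - t)]
  have b2 : 29 / 10 * (s + t) ≤ (s + t) * x e s - (e * A s + e * A t) := by
    nlinarith [mul_le_mul_of_nonneg_left hx (by linarith : 0 ≤ s + t)]
  have b3 : (29 / 10 * (s - t)) * (29 / 10 * (s + t)) ≤ _ :=
    mul_le_mul b1 b2 (by linarith) (by nlinarith)
  nlinarith [mul_nonneg (by linarith : 0 ≤ s - t) (by linarith : 0 ≤ s + t)]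

lemma rho_ge (h : Prof δ A dA x u) {e : ℝ} (he : e = 1 ∨ e = -1) {s : ℝ} (h0 : 0 ≤ s)
    (h1 : s ≤ 1) : 2 * s ≤ rho A x e s := by
  have hx := x_ge h he h0 h1
  have a1 := abs_le.1 (eA_sub h he h0)
  rw [A_zero h] at a1
  unfold rho
  nlinarith [mul_le_mul_of_nonneg_left hx h0]

lemma rho_le (h : Prof δ A dA x u) {e : ℝ} (he : e = 1 ∨ e = -1) {s : ℝ} (h0 : 0 ≤ s)
    (h1 : s ≤ 1) : rho A x e s ≤ 5 := by
  have hx := x_le h he h0 h1
  have a1 := abs_le.1 (eA_sub h he h0)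
  rw [A_zero h] at a1
  unfold rho
  nlinarith [mul_le_mul_of_nonneg_left hx h0]

lemma y_mono (h : Prof δ A dA x u) {e : ℝ} (he : e = 1 ∨ e = -1) {s a b : ℝ} (h0 : 0 ≤ s)
    (h1 : s ≤ 1) (hab : a ≤ b) : a * x e s - e * A a ≤ b * x e s - e * A b := by
  have hx := x_ge h he h0 h1
  have a1 := abs_le.1 (eA_sub h he hab)
  nlinarith [mul_le_mul_of_nonneg_left hx (by linarith : 0 ≤ b - a)]

lemma y_nonneg (h : Prof δ A dA x u) {e : ℝ} (he : e = 1 ∨ e = -1) {s t : ℝ} (h0 : 0 ≤ s)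
    (h1 : s ≤ 1) (ht : 0 ≤ t) : 0 ≤ t * x e s - e * A t := by
  have := y_mono h he h0 h1 ht
  rw [A_zero h] at this
  linarith

/-- the derivative of the angle of the cap -/
lemma cap_deriv (h : Prof δ A dA x u) {e : ℝ} (he : e = 1 ∨ e = -1) {s t : ℝ} (h0 : 0 < s)
    (h1 : s ≤ 1) (ht : 0 ≤ t) (hts : t < s) :
    HasDerivAt (fun t => Real.arcsin ((t * x e s - e * A t) / rho A x e s))
      ((x e s - e * dA t) / √(rho A x e s ^ 2 - (t * x e s - e * A t) ^ 2)) t := by
  have hD := D_ge h he ht hts.le h1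
  have hDp : 0 < rho A x e s ^ 2 - (t * x e s - e * A t) ^ 2 := by nlinarith
  have hr : 0 < rho A x e s := by linarith [rho_ge h he h0.le h1]
  have hy := y_nonneg h he h0.le h1 ht
  have hyr : t * x e s - e * A t < rho A x e s := by
    by_contra hc
    push Not at hc
    nlinarith
  have d1 : HasDerivAt (fun t => (t * x e s - e * A t) / rho A x e s)
      ((x e s - e * dA t) / rho A x e s) t := by
    have := ((hasDerivAt_id t).mul_const (x e s)).sub ((h.hA t).const_mul e)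
    simpa using this.div_const (rho A x e s)
  have hne1 : (t * x e s - e * A t) / rho A x e s ≠ -1 := by
    have : 0 ≤ (t * x e s - e * A t) / rho A x e s := by positivity
    linarith
  have hne2 : (t * x e s - e * A t) / rho A x e s ≠ 1 := by
    have : (t * x e s - e * A t) / rho A x e s < 1 := by rwa [div_lt_one hr]
    linarith
  have d2 := (Real.hasDerivAt_arcsin hne1 hne2).comp t d1
  refine HasDerivAt.congr_deriv d2 ?_
  have e1 : 1 - ((t * x e s - e * A t) / rho A x e s) ^ 2 =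
      (rho A x e s ^ 2 - (t * x e s - e * A t) ^ 2) / rho A x e s ^ 2 := by
    field_simp
  rw [e1, Real.sqrt_div hDp.le, Real.sqrt_sq hr.le]
  have := Real.sqrt_pos.2 hDp
  field_simp

/-- the angle of the cap is the integral of its derivative -/
lemma cap_ftc (h : Prof δ A dA x u) {e : ℝ} (he : e = 1 ∨ e = -1) {s t : ℝ} (h0 : 0 < s)
    (h1 : s ≤ 1) (ht : 0 ≤ t) :
    ENNReal.ofReal (Real.arcsin ((t * x e s - e * A t) / rho A x e s)) =
      ∫⁻ τ in Ioo 0 t, (Iio s).indicator (fun τ => ENNReal.ofReal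
        ((x e s - e * dA τ) / √(rho A x e s ^ 2 - (τ * x e s - e * A τ) ^ 2))) τ := by
  have hr : 0 < rho A x e s := by linarith [rho_ge h he h0.le h1]
  have hAc : Continuous A := continuous_iff_continuousAt.2 fun t => (h.hA t).continuousAt
  have hx := x_ge h he h0.le h1
  -- reduction to `t ≤ s`
  have main : ∀ t, 0 ≤ t → t ≤ s →
      ENNReal.ofReal (Real.arcsin ((t * x e s - e * A t) / rho A x e s)) =
      ∫⁻ τ in Ioo 0 t, ENNReal.ofReal
        ((x e s - e * dA τ) / √(rho A x e s ^ 2 - (τ * x e s - e * A τ) ^ 2)) := by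
    intro t ht hts
    have hc : ContinuousOn (fun t => Real.arcsin ((t * x e s - e * A t) / rho A x e s))
        (Icc 0 t) := by
      apply Continuous.continuousOn
      fun_prop
    have hd : ∀ τ ∈ Ioo 0 t,
        HasDerivAt (fun t => Real.arcsin ((t * x e s - e * A t) / rho A x e s))
        ((x e s - e * dA τ) / √(rho A x e s ^ 2 - (τ * x e s - e * A τ) ^ 2)) τ :=
      fun τ hτ => cap_deriv h he h0 h1 hτ.1.le (hτ.2.trans_le hts)
    have hn : ∀ τ, 0 ≤ (x e s - e * dA τ) / √(rho A x e s ^ 2 - (τ * x e s - e * A τ) ^ 2) := by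
      intro τ
      have := abs_le.1 (edA h he τ)
      apply div_nonneg _ (Real.sqrt_nonneg _)
      linarith
    have hi := intervalIntegral.integrableOn_deriv_of_nonneg hc hd (fun τ _ => hn τ)
    have hii : IntervalIntegrable (fun τ => (x e s - e * dA τ) /
        √(rho A x e s ^ 2 - (τ * x e s - e * A τ) ^ 2)) volume 0 t := by
      rwa [intervalIntegrable_iff_integrableOn_Ioc_of_le ht]
    have key := intervalIntegral.integral_eq_sub_of_hasDerivAt_of_le ht hc hd hii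
    rw [intervalIntegral.integral_of_le ht] at key
    simp only [zero_mul, A_zero h, mul_zero, sub_zero, zero_div, Real.arcsin_zero] at key
    rw [← key, ofReal_integral_eq_lintegral_ofReal hi (Eventually.of_forall hn),
      setLIntegral_congr Ioo_ae_eq_Ioc]
  rcases le_total t s with hts | hts
  · rw [main t ht hts]
    apply setLIntegral_congr_fun measurableSet_Ioo
    intro τ hτ
    simp only
    rw [indicator_of_mem (show τ ∈ Iio s from hτ.2.trans_le hts)]
  · have e1 : Real.arcsin ((t * x e s - e * A t) / rho A x e s) =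
        Real.arcsin ((s * x e s - e * A s) / rho A x e s) := by
      have e2 : (s * x e s - e * A s) / rho A x e s = 1 := div_self hr.ne'
      rw [e2, Real.arcsin_one, Real.arcsin_of_one_le]
      rw [one_le_div hr]
      exact y_mono h he h0.le h1 hts
    rw [e1, main s h0.le le_rfl, setLIntegral_indicator measurableSet_Iio]
    have e3 : Iio s ∩ Ioo 0 t = Ioo 0 s := by
      ext τ
      simp only [mem_inter_iff, mem_Iio, mem_Ioo]
      constructor
      · rintro ⟨a, b, c⟩; exact ⟨b, a⟩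
      · rintro ⟨a, b⟩; exact ⟨b, a, b.trans_le hts⟩
    rw [e3]


/-- the weight of the cap -/
noncomputable def W (δ : ℝ) (A dA : ℝ → ℝ) (x u : ℝ → ℝ → ℝ) (e s : ℝ) : ℝ :=
  rho A x e s * √(drho δ dA x u e s ^ 2 + δ ^ 2 * u e s ^ 2)

lemma Acont (h : Prof δ A dA x u) : Continuous A :=
  continuous_iff_continuousAt.2 fun t => (h.hA t).continuousAt

lemma x_aem (h : Prof δ A dA x u) (e : ℝ) : AEMeasurable (x e) (volume.restrict (Ioo 0 1)) :=
  ((h.xc e).mono Ioo_subset_Icc_self).aemeasurable measurableSet_Ioo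

lemma u_aem (h : Prof δ A dA x u) (e : ℝ) : AEMeasurable (u e) (volume.restrict (Ioo 0 1)) := by
  have h1 : AEMeasurable (u e) (volume.restrict (Ico 0 (1 / 2) ∪ Icc (1 / 2) 1)) := by
    rw [aemeasurable_union_iff]
    exact ⟨(h.ucL e).aemeasurable measurableSet_Ico, (h.ucR e).aemeasurable measurableSet_Icc⟩
  apply h1.mono_measure
  apply Measure.restrict_mono _ le_rfl
  intro t ht
  rcases lt_or_ge t (1 / 2) with h2 | h2
  · exact Or.inl ⟨ht.1.le, h2⟩
  · exact Or.inr ⟨h2, ht.2.le⟩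

lemma rho_aem (h : Prof δ A dA x u) (e : ℝ) :
    AEMeasurable (rho A x e) (volume.restrict (Ioo 0 1)) := by
  unfold rho
  have h1 := x_aem h e
  have h2 := (Acont h).measurable
  fun_prop

lemma W_aem (h : Prof δ A dA x u) (e : ℝ) :
    AEMeasurable (W δ A dA x u e) (volume.restrict (Ioo 0 1)) := by
  unfold W drho
  have h1 := x_aem h e
  have h2 := u_aem h e
  have h3 := rho_aem h e
  have h4 := h.dAc.measurable
  fun_prop

lemma W_nonneg (h : Prof δ A dA x u) {e : ℝ} (he : e = 1 ∨ e = -1) {s : ℝ} (h0 : 0 ≤ s)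
    (h1 : s ≤ 1) : 0 ≤ W δ A dA x u e s := by
  have := rho_ge h he h0 h1
  exact mul_nonneg (by linarith) (Real.sqrt_nonneg _)

lemma W_le (h : Prof δ A dA x u) {e : ℝ} (he : e = 1 ∨ e = -1) {s : ℝ} (h0 : 0 ≤ s)
    (h1 : s ≤ 1) : W δ A dA x u e s ≤ 50 := by
  have r0 := rho_ge h he h0 h1
  have r1 := rho_le h he h0 h1
  have x0 := x_ge h he h0 h1
  have x1 := x_le h he h0 h1
  have d0 := h.δ0
  have d1 := h.δ1
  obtain ⟨u0, u1⟩ := h.ub e he s h0 h1
  have a1 := abs_le.1 (edA h he s)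
  have dd : δ ^ 2 ≤ 1 / 100 := by nlinarith
  have dd0 : 0 < δ ^ 2 := by positivity
  have su : |s * δ ^ 2 * u e s| ≤ 1 / 10 := by
    rw [abs_mul, abs_mul, abs_of_nonneg h0, abs_of_pos dd0, abs_of_neg (by linarith)]
    have : s * δ ^ 2 ≤ 1 / 100 := by nlinarith
    nlinarith [mul_nonneg h0 dd0.le]
  have su' := abs_le.1 su
  have hd : |drho δ dA x u e s| ≤ 9 / 2 := by
    unfold drho
    rw [abs_le]
    constructor <;> linarith [a1.1, a1.2, su'.1, su'.2]
  have hd' := abs_le.1 hd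
  have hs : √(drho δ dA x u e s ^ 2 + δ ^ 2 * u e s ^ 2) ≤ 10 := by
    rw [Real.sqrt_le_left (by norm_num)]
    have : u e s ^ 2 ≤ 25 := by nlinarith
    nlinarith [sq_nonneg (u e s)]
  unfold W
  nlinarith [Real.sqrt_nonneg (drho δ dA x u e s ^ 2 + δ ^ 2 * u e s ^ 2)]

lemma W_int (h : Prof δ A dA x u) {e : ℝ} (he : e = 1 ∨ e = -1) :
    IntegrableOn (W δ A dA x u e) (Ioo 0 1) := by
  have : Integrable (fun _ : ℝ => (50 : ℝ)) (volume.restrict (Ioo (0 : ℝ) 1)) :=
    integrable_const _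
  apply this.mono' (W_aem h e).aestronglyMeasurable
  rw [ae_restrict_iff' measurableSet_Ioo]
  refine Eventually.of_forall fun s hs => ?_
  rw [Real.norm_eq_abs, abs_of_nonneg (W_nonneg h he hs.1.le hs.2.le)]
  exact W_le h he hs.1.le hs.2.le

/-- the angle of the cap -/
noncomputable def mm (A : ℝ → ℝ) (x : ℝ → ℝ → ℝ) (e t s : ℝ) : ℝ :=
  (t * x e s - e * A t) / rho A x e s

lemma mm_aem (h : Prof δ A dA x u) (e t : ℝ) :
    AEMeasurable (mm A x e t) (volume.restrict (Ioo 0 1)) := by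
  unfold mm
  have h1 := x_aem h e
  have h3 := rho_aem h e
  fun_prop

lemma Warc_int (h : Prof δ A dA x u) {e : ℝ} (he : e = 1 ∨ e = -1) (t : ℝ) :
    IntegrableOn (fun s => W δ A dA x u e s * Real.arcsin (mm A x e t s)) (Ioo 0 1) := by
  refine (W_int h he).mul_bdd (c := π / 2) ?_ (Eventually.of_forall fun s => ?_)
  · exact (Real.measurable_arcsin.comp_aemeasurable (mm_aem h e t)).aestronglyMeasurable
  · rw [Real.norm_eq_abs, abs_le]
    exact ⟨Real.neg_pi_div_two_le_arcsin _, Real.arcsin_le_pi_div_two _⟩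

/-- the integral in `Se` over the cap -/
noncomputable def J (δ : ℝ) (A dA : ℝ → ℝ) (x u : ℝ → ℝ → ℝ) (e τ : ℝ) : ℝ :=
  ∫ s in τ..1, rho A x e s * √(drho δ dA x u e s ^ 2 + δ ^ 2 * u e s ^ 2) *
      (x e s - e * dA τ) / √(rho A x e s ^ 2 - (τ * x e s - e * A τ) ^ 2)

/-- the integrand -/
noncomputable def ff (δ : ℝ) (A dA : ℝ → ℝ) (x u : ℝ → ℝ → ℝ) (e s τ : ℝ) : ℝ≥0∞ :=
  ENNReal.ofReal (W δ A dA x u e s) * (Iio s).indicator (fun τ => ENNReal.ofReal
        ((x e s - e * dA τ) / √(rho A x e s ^ 2 - (τ * x e s - e * A τ) ^ 2))) τ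

lemma ff_aem (h : Prof δ A dA x u) (e t : ℝ) :
    AEMeasurable (Function.uncurry (ff δ A dA x u e))
      ((volume.restrict (Ioo 0 1)).prod (volume.restrict (Ioo 0 t))) := by
  have h1 : AEMeasurable (fun z : ℝ × ℝ => x e z.1)
    ((volume.restrict (Ioo (0 : ℝ) 1)).prod (volume.restrict (Ioo 0 t))) := (x_aem h e).comp_fst
  have h2 : AEMeasurable (fun z : ℝ × ℝ => W δ A dA x u e z.1)
    ((volume.restrict (Ioo (0 : ℝ) 1)).prod (volume.restrict (Ioo 0 t))) := (W_aem h e).comp_fst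
  have h3 : AEMeasurable (fun z : ℝ × ℝ => rho A x e z.1)
    ((volume.restrict (Ioo (0 : ℝ) 1)).prod (volume.restrict (Ioo 0 t))) := (rho_aem h e).comp_fst
  have h4 : Measurable (fun z : ℝ × ℝ => A z.2) := (Acont h).measurable.comp measurable_snd
  have h5 : Measurable (fun z : ℝ × ℝ => dA z.2) := h.dAc.measurable.comp measurable_snd
  have h6 : MeasurableSet {z : ℝ × ℝ | z.2 < z.1} := measurableSet_lt measurable_snd measurable_fst
  have e1 : Function.uncurry (ff δ A dA x u e) = fun z => ENNReal.ofReal (W δ A dA x u e z.1) *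
      {z : ℝ × ℝ | z.2 < z.1}.indicator (fun z => ENNReal.ofReal
        ((x e z.1 - e * dA z.2) / √(rho A x e z.1 ^ 2 - (z.2 * x e z.1 - e * A z.2) ^ 2))) z := by
    ext ⟨s, τ⟩
    simp only [Function.uncurry, ff, indicator, mem_Iio, mem_ofPred_eq]
  rw [e1]
  refine AEMeasurable.mul (by fun_prop) (AEMeasurable.indicator ?_ h6)
  have h7 : AEMeasurable (fun z : ℝ × ℝ => z.2 * x e z.1 - e * A z.2)
    ((volume.restrict (Ioo (0 : ℝ) 1)).prod (volume.restrict (Ioo 0 t))) :=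
    (measurable_snd.aemeasurable.mul h1).sub (h4.const_mul e).aemeasurable
  have h8 : AEMeasurable (fun z : ℝ × ℝ => x e z.1 - e * dA z.2)
    ((volume.restrict (Ioo (0 : ℝ) 1)).prod (volume.restrict (Ioo 0 t))) :=
    h1.sub (h5.const_mul e).aemeasurable
  exact (h8.div ((h3.pow_const 2).sub (h7.pow_const 2)).sqrt).ennreal_ofReal

lemma cap_main (h : Prof δ A dA x u) {e : ℝ} (he : e = 1 ∨ e = -1) {t : ℝ} (h0 : 0 ≤ t)
    (h1 : t ≤ 1) :
    IntegrableOn (J δ A dA x u e) (Ioo 0 t) ∧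
    ∫ τ in Ioo 0 t, J δ A dA x u e τ =
      ∫ s in Ioo 0 1, W δ A dA x u e s * Real.arcsin (mm A x e t s) := by
  -- the double integral
  have d1 : ∫⁻ s in Ioo 0 1, ENNReal.ofReal (W δ A dA x u e s * Real.arcsin (mm A x e t s)) =
      ∫⁻ s in Ioo 0 1, ∫⁻ τ in Ioo 0 t, ff δ A dA x u e s τ := by
    apply setLIntegral_congr_fun measurableSet_Ioo
    intro s hs
    simp only [ff]
    rw [ENNReal.ofReal_mul (W_nonneg h he hs.1.le hs.2.le), lintegral_const_mul' _ _
      ENNReal.ofReal_ne_top]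
    congr 1
    exact cap_ftc h he hs.1 hs.2.le h0
  rw [lintegral_lintegral_swap (ff_aem h e t)] at d1
  have hn : 0 ≤ᵐ[volume.restrict (Ioo 0 1)]
      fun s => W δ A dA x u e s * Real.arcsin (mm A x e t s) := by
    rw [EventuallyLE, ae_restrict_iff' measurableSet_Ioo]
    refine Eventually.of_forall fun s hs => ?_
    have r0 := rho_ge h he hs.1.le hs.2.le
    apply mul_nonneg (W_nonneg h he hs.1.le hs.2.le)
    rw [Real.arcsin_nonneg]
    exact div_nonneg (y_nonneg h he hs.1.le hs.2.le h0) (by linarith [hs.1])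
  have d2 := ofReal_integral_eq_lintegral_ofReal (Warc_int h he t) hn
  rw [d1] at d2
  have hfin : ∫⁻ τ in Ioo 0 t, ∫⁻ s in Ioo 0 1, ff δ A dA x u e s τ ≠ ⊤ := by
    rw [← d2]; exact ENNReal.ofReal_ne_top
  have hm : AEMeasurable (fun τ => ∫⁻ s in Ioo 0 1, ff δ A dA x u e s τ)
      (volume.restrict (Ioo 0 t)) := (ff_aem h e t).lintegral_prod_left'
  have hJ : ∀ τ ∈ Ioo 0 t, (∫⁻ s in Ioo 0 1, ff δ A dA x u e s τ).toReal =
      J δ A dA x u e τ := by
    intro τ hτ
    have hτ1 : τ < 1 := hτ.2.trans_le h1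
    have e1 : ∫⁻ s in Ioo 0 1, ff δ A dA x u e s τ = ∫⁻ s in Ioo τ 1, ENNReal.ofReal
        (rho A x e s * √(drho δ dA x u e s ^ 2 + δ ^ 2 * u e s ^ 2) *
      (x e s - e * dA τ) / √(rho A x e s ^ 2 - (τ * x e s - e * A τ) ^ 2)) := by
      have e2 : Ioi τ ∩ Ioo 0 1 = Ioo τ 1 := by
        ext s
        simp only [mem_inter_iff, mem_Ioi, mem_Ioo]
        constructor
        · rintro ⟨a, b, c⟩; exact ⟨a, c⟩
        · rintro ⟨a, b⟩; exact ⟨a, hτ.1.trans a, b⟩
      rw [← e2, ← setLIntegral_indicator measurableSet_Ioi]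
      apply setLIntegral_congr_fun measurableSet_Ioo
      intro s hs
      simp only [ff, indicator, mem_Iio, mem_Ioi]
      split_ifs with h2
      · rw [← ENNReal.ofReal_mul (W_nonneg h he hs.1.le hs.2.le)]
        congr 1
        simp only [W]
        ring
      · simp
    rw [e1, J, intervalIntegral.integral_of_le hτ1.le, integral_Ioc_eq_integral_Ioo,
      integral_eq_lintegral_of_nonneg_ae]
    · rw [EventuallyLE, ae_restrict_iff' measurableSet_Ioo]
      refine Eventually.of_forall fun s hs => ?_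
      have s0 : 0 < s := hτ.1.trans hs.1
      have w0 := W_nonneg h he s0.le hs.2.le
      have a1 := abs_le.1 (edA h he τ)
      have x0 := x_ge h he s0.le hs.2.le
      simp only [W] at w0
      exact div_nonneg (mul_nonneg w0 (by linarith)) (Real.sqrt_nonneg _)
    · have hle : volume.restrict (Ioo τ 1) ≤ volume.restrict (Ioo (0 : ℝ) 1) :=
        Measure.restrict_mono (Ioo_subset_Ioo_left hτ.1.le) le_rfl
      have g1 := (x_aem h e).mono_measure hle
      have g2 := (W_aem h e).mono_measure hle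
      have g3 := (rho_aem h e).mono_measure hle
      unfold W at g2
      refine AEMeasurable.aestronglyMeasurable ?_
      refine AEMeasurable.div (AEMeasurable.mul g2 ?_) ?_
      · fun_prop
      · fun_prop
  constructor
  · refine IntegrableOn.congr_fun (integrable_toReal_of_lintegral_ne_top hm hfin)
      (fun τ hτ => hJ τ hτ) measurableSet_Ioo
  · rw [← setIntegral_congr_fun measurableSet_Ioo hJ,
      integral_toReal hm (ae_lt_top' hm hfin), ← d2, ENNReal.toReal_ofReal]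
    exact integral_nonneg_of_ae hn


/-- the angle of the cone -/
noncomputable def nr (δ : ℝ) (A : ℝ → ℝ) (e t r : ℝ) : ℝ := (t * xr δ r - e * A t) / r

/-- the integrand in `Se` over the cone -/
noncomputable def K (δ : ℝ) (A dA : ℝ → ℝ) (e t r : ℝ) : ℝ :=
  r * (xr δ r - e * dA t) / √(r ^ 2 - (t * xr δ r - e * A t) ^ 2)

lemma xr_bd (h : Prof δ A dA x u) {r : ℝ} (h0 : 3 ≤ r) (h1 : r ≤ Rh δ) :
    0 ≤ xr δ r ∧ xr δ r ≤ 3 := by
  have d0 := h.δ0
  unfold Rh at h1
  unfold xr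
  have h2 : δ * (r - 3) ≤ 4 := by
    have : r - 3 ≤ 4 / δ := by linarith
    rw [le_div_iff₀ d0] at this
    linarith
  have h3 : 0 ≤ δ * (r - 3) := mul_nonneg d0.le (by linarith)
  constructor <;> nlinarith

lemma yr_bd (h : Prof δ A dA x u) {e : ℝ} (he : e = 1 ∨ e = -1) {t r : ℝ} (t0 : 0 ≤ t)
    (t1 : t ≤ 1) (h0 : 3 ≤ r) (h1 : r ≤ Rh δ) : |t * xr δ r - e * A t| ≤ 3 := by
  obtain ⟨a, b⟩ := xr_bd h h0 h1
  have h2 := eA_sub h he t1
  rw [h.Az 1 le_rfl, mul_zero, zero_sub, abs_neg] at h2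
  have h2' := abs_le.1 h2
  rw [abs_le]
  constructor <;> nlinarith [mul_le_mul_of_nonneg_left b t0, mul_nonneg t0 a]

lemma D_bd (h : Prof δ A dA x u) {e : ℝ} (he : e = 1 ∨ e = -1) {t r : ℝ} (t0 : 0 ≤ t)
    (t1 : t ≤ 1) (h0 : 3 ≤ r) (h1 : r ≤ Rh δ) :
    r - 3 ≤ r ^ 2 - (t * xr δ r - e * A t) ^ 2 := by
  have h2 := abs_le.1 (yr_bd h he t0 t1 h0 h1)
  nlinarith

lemma cone_deriv (h : Prof δ A dA x u) {e : ℝ} (he : e = 1 ∨ e = -1) {t r : ℝ} (t0 : 0 ≤ t)
    (t1 : t ≤ 1) (h0 : 3 < r) (h1 : r ≤ Rh δ) :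
    HasDerivAt (fun t => r * Real.arcsin (nr δ A e t r)) (K δ A dA e t r) t := by
  have hD := D_bd h he t0 t1 h0.le h1
  have hDp : 0 < r ^ 2 - (t * xr δ r - e * A t) ^ 2 := by linarith
  have hr : 0 < r := by linarith
  have hy := abs_le.1 (yr_bd h he t0 t1 h0.le h1)
  have d1 : HasDerivAt (fun t => nr δ A e t r) ((xr δ r - e * dA t) / r) t := by
    have := ((hasDerivAt_id t).mul_const (xr δ r)).sub ((h.hA t).const_mul e)
    unfold nr
    simpa using this.div_const r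
  have hne1 : nr δ A e t r ≠ -1 := by
    have : -1 < nr δ A e t r := by
      unfold nr; rw [lt_div_iff₀ hr]; linarith
    exact this.ne'
  have hne2 : nr δ A e t r ≠ 1 := by
    have : nr δ A e t r < 1 := by
      unfold nr; rw [div_lt_one hr]; linarith
    exact this.ne
  have d2 := ((Real.hasDerivAt_arcsin hne1 hne2).comp t d1).const_mul r
  refine HasDerivAt.congr_deriv d2 ?_
  have e1 : 1 - (nr δ A e t r) ^ 2 = (r ^ 2 - (t * xr δ r - e * A t) ^ 2) / r ^ 2 := by
    unfold nr; field_simp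
  rw [e1, Real.sqrt_div hDp.le, Real.sqrt_sq hr.le]
  have := Real.sqrt_pos.2 hDp
  unfold K
  field_simp

lemma K_bd (h : Prof δ A dA x u) {e : ℝ} (he : e = 1 ∨ e = -1) {t r : ℝ} (t0 : 0 ≤ t)
    (t1 : t ≤ 1) (h0 : 3 < r) (h1 : r ≤ Rh δ) :
    |K δ A dA e t r| ≤ 4 * Rh δ * (1 / √(r - 3)) := by
  have hD := D_bd h he t0 t1 h0.le h1
  have hr : 0 < r := by linarith
  obtain ⟨a, b⟩ := xr_bd h h0.le h1
  have a1 := abs_le.1 (edA h he t)
  have s1 : √(r - 3) ≤ √(r ^ 2 - (t * xr δ r - e * A t) ^ 2) := Real.sqrt_le_sqrt hD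
  have s0 : 0 < √(r - 3) := Real.sqrt_pos.2 (by linarith)
  unfold K
  rw [abs_div, abs_of_nonneg (Real.sqrt_nonneg (r ^ 2 - (t * xr δ r - e * A t) ^ 2)), abs_mul,
    abs_of_pos hr, mul_one_div]
  have h3 : |xr δ r - e * dA t| ≤ 4 := by
    rw [abs_le]; constructor <;> linarith
  apply div_le_div₀ (by nlinarith) _ s0 s1
  nlinarith [abs_nonneg (xr δ r - e * dA t)]

lemma inv_sqrt_int (δ : ℝ) :
    IntegrableOn (fun r => 1 / √(r - 3)) (Ioo 3 (Rh δ)) := by
  have h1 : IntegrableOn (fun r : ℝ => 1 / √(r - 3)) (Ioc 3 (Rh δ)) := by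
    apply intervalIntegral.integrableOn_deriv_of_nonneg (g := fun r => 2 * √(r - 3))
    · apply Continuous.continuousOn
      fun_prop
    · intro r hr
      have h2 : r - 3 ≠ 0 := by linarith [hr.1]
      have h3 := (((hasDerivAt_id r).sub_const 3).sqrt h2).const_mul 2
      refine HasDerivAt.congr_deriv h3 ?_
      simp only [id]
      field_simp
    · intro r _
      positivity
  exact h1.mono_set Ioo_subset_Ioc_self

lemma K_meas (h : Prof δ A dA x u) (e : ℝ) :
    Measurable (fun z : ℝ × ℝ => K δ A dA e z.1 z.2) := by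
  have h4 : Measurable (fun z : ℝ × ℝ => A z.1) :=
    (continuous_iff_continuousAt.2 fun t => (h.hA t).continuousAt).measurable.comp measurable_fst
  have h5 : Measurable (fun z : ℝ × ℝ => dA z.1) := h.dAc.measurable.comp measurable_fst
  have h6 : Measurable (fun z : ℝ × ℝ => xr δ z.2) := by
    unfold xr
    fun_prop
  have h7 : Measurable (fun z : ℝ × ℝ => z.1 * xr δ z.2 - e * A z.1) :=
    (measurable_fst.mul h6).sub (h4.const_mul e)
  exact (measurable_snd.mul (h6.sub (h5.const_mul e))).div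
    ((measurable_snd.pow_const 2).sub (h7.pow_const 2)).sqrt

lemma K_int (h : Prof δ A dA x u) {e : ℝ} (he : e = 1 ∨ e = -1) {t : ℝ} (t0 : 0 ≤ t)
    (t1 : t ≤ 1) : IntegrableOn (K δ A dA e t) (Ioo 3 (Rh δ)) := by
  apply ((inv_sqrt_int δ).const_mul (4 * Rh δ)).mono'
  · exact ((K_meas h e).comp (measurable_const.prodMk measurable_id)).aestronglyMeasurable
  · rw [ae_restrict_iff' measurableSet_Ioo]
    exact Eventually.of_forall fun r hr => K_bd h he t0 t1 hr.1 hr.2.le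

lemma nr_meas (δ : ℝ) (A : ℝ → ℝ) (e t : ℝ) : Measurable (nr δ A e t) := by
  unfold nr xr
  fun_prop

lemma rarc_int (δ : ℝ) (A : ℝ → ℝ) (e t : ℝ) :
    IntegrableOn (fun r => r * Real.arcsin (nr δ A e t r)) (Ioo 3 (Rh δ)) := by
  have h1 : IntegrableOn (fun r : ℝ => r) (Ioo 3 (Rh δ)) :=
    (continuous_id.integrableOn_Icc (a := 3) (b := Rh δ)).mono_set Ioo_subset_Icc_self
  refine Integrable.mul_bdd (c := π / 2) h1 ?_ (Eventually.of_forall fun s => ?_)
  · exact (Real.measurable_arcsin.comp (nr_meas δ A e t)).aestronglyMeasurable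
  · rw [Real.norm_eq_abs, abs_le]
    exact ⟨Real.neg_pi_div_two_le_arcsin _, Real.arcsin_le_pi_div_two _⟩

lemma cone_main (hI : S_INE) (h : Prof δ A dA x u) {t : ℝ} (t0 : 0 ≤ t) (t1 : t ≤ 1) :
    (∫ r in Ioo 3 (Rh δ), r * Real.arcsin (nr δ A 1 t r)) -
      (∫ r in Ioo 3 (Rh δ), r * Real.arcsin (nr δ A (-1) t r)) =
    ∫ τ in Ioo 0 t, ((∫ r in Ioo 3 (Rh δ), K δ A dA 1 τ r) -
      ∫ r in Ioo 3 (Rh δ), K δ A dA (-1) τ r) := by
  have o : (1 : ℝ) = 1 ∨ (1 : ℝ) = -1 := Or.inl rfl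
  have o' : (-1 : ℝ) = 1 ∨ (-1 : ℝ) = -1 := Or.inr rfl
  have key := hI (volume.restrict (Ioo 3 (Rh δ)))
    (fun t r => r * Real.arcsin (nr δ A 1 t r) - r * Real.arcsin (nr δ A (-1) t r))
    (fun t r => K δ A dA 1 t r - K δ A dA (-1) t r)
    (fun _ r => ENNReal.ofReal (8 * Rh δ * (1 / √(r - 3)))) 0 t t0 (by fun_prop) ?_ ?_ ?_ ?_ ?_
  · obtain ⟨_, key⟩ := key
    have z : ∀ e r, nr δ A e 0 r = 0 := by
      intro e r; unfold nr; simp [A_zero h]
    simp only [z, Real.arcsin_zero, mul_zero, sub_zero, integral_zero] at key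
    rw [integral_sub (rarc_int δ A 1 t) (rarc_int δ A (-1) t),
      intervalIntegral.integral_of_le t0, integral_Ioc_eq_integral_Ioo] at key
    rw [key]
    apply setIntegral_congr_fun measurableSet_Ioo
    intro τ hτ
    simp only
    exact integral_sub (K_int h o hτ.1.le (hτ.2.le.trans t1))
      (K_int h o' hτ.1.le (hτ.2.le.trans t1))
  · rw [ae_restrict_iff' measurableSet_Ioo]
    refine Eventually.of_forall fun r hr => ⟨?_, fun τ hτ => ⟨?_, ?_⟩⟩
    · have hA : Continuous A := continuous_iff_continuousAt.2 fun t => (h.hA t).continuousAt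
      have : ∀ e, Continuous fun t => nr δ A e t r := by
        intro e; unfold nr; fun_prop
      apply Continuous.continuousOn
      exact (continuous_const.mul (Real.continuous_arcsin.comp (this 1))).sub
        (continuous_const.mul (Real.continuous_arcsin.comp (this (-1))))
    · exact (cone_deriv h o hτ.1.le (hτ.2.le.trans t1) hr.1 hr.2.le).sub
        (cone_deriv h o' hτ.1.le (hτ.2.le.trans t1) hr.1 hr.2.le)
    · apply ENNReal.ofReal_le_ofReal
      have b1 := K_bd h o hτ.1.le (hτ.2.le.trans t1) hr.1 hr.2.le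
      have b2 := K_bd h o' hτ.1.le (hτ.2.le.trans t1) hr.1 hr.2.le
      have b3 := abs_sub (K δ A dA 1 τ r) (K δ A dA (-1) τ r)
      linarith
  · rw [setLIntegral_const]
    apply ENNReal.mul_lt_top _ (by simp)
    have := ((inv_sqrt_int δ).const_mul (8 * Rh δ)).lintegral_lt_top
    exact this
  · have z : ∀ e r, nr δ A e 0 r = 0 := by
      intro e r; unfold nr; simp [A_zero h]
    simp only [z, Real.arcsin_zero, mul_zero, sub_zero]
    exact integrable_zero _ _ _
  · exact ((rarc_int δ A 1 t).sub (rarc_int δ A (-1) t)).aestronglyMeasurable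
  · exact ((K_meas h 1).sub (K_meas h (-1))).aestronglyMeasurable


lemma balance (hI : S_INE) (h : Prof δ A dA x u) {t : ℝ} (t0 : 0 ≤ t) (t1 : t ≤ 1) :
    (∫ s in Ioo 0 1, W δ A dA x u 1 s * Real.arcsin (mm A x 1 t s)) +
      5 / 4 * (∫ r in Ioo 3 (Rh δ), r * Real.arcsin (nr δ A 1 t r)) =
    (∫ s in Ioo 0 1, W δ A dA x u (-1) s * Real.arcsin (mm A x (-1) t s)) +
      5 / 4 * (∫ r in Ioo 3 (Rh δ), r * Real.arcsin (nr δ A (-1) t r)) := by
  obtain ⟨i1, c1⟩ := cap_main h (Or.inl rfl : (1 : ℝ) = 1 ∨ (1 : ℝ) = -1) t0 t1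
  obtain ⟨i2, c2⟩ := cap_main h (Or.inr rfl : (-1 : ℝ) = 1 ∨ (-1 : ℝ) = -1) t0 t1
  have c3 := cone_main hI h t0 t1
  have hR : (3 : ℝ) ≤ Rh δ := by
    unfold Rh
    have := h.δ0
    have : 0 ≤ 4 / δ := by positivity
    linarith
  have e1 : ∀ τ ∈ Ioo 0 t, ((∫ r in Ioo 3 (Rh δ), K δ A dA 1 τ r) -
      ∫ r in Ioo 3 (Rh δ), K δ A dA (-1) τ r) =
      -(4 / 5) * (J δ A dA x u 1 τ - J δ A dA x u (-1) τ) := by
    intro τ hτ
    have := h.S τ hτ.1 (hτ.2.trans_le t1)
    unfold Se at this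
    rw [intervalIntegral.integral_of_le hR, intervalIntegral.integral_of_le hR,
      integral_Ioc_eq_integral_Ioo, integral_Ioc_eq_integral_Ioo] at this
    simp only [J, K]
    linarith
  rw [setIntegral_congr_fun measurableSet_Ioo e1, integral_const_mul, integral_sub i1 i2, c1, c2]
    at c3
  linarith

lemma piece {μ : Measure ℝ} {w m : ℝ → ℝ} (hw : Integrable w μ) (hw0 : ∀ᵐ s ∂μ, 0 ≤ w s)
    (hm : AEMeasurable m μ) {c e : ℝ} (hc : 0 ≤ c) (he : e = 1 ∨ e = -1) :
    ∫⁻ s, ENNReal.ofReal (c * w s) * ENNReal.ofReal (π + 2 * Real.arcsin (e * m s)) ∂μ =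
      ENNReal.ofReal (c * (π * (∫ s, w s ∂μ) + 2 * e * ∫ s, w s * Real.arcsin (m s) ∂μ)) ∧
    0 ≤ c * (π * (∫ s, w s ∂μ) + 2 * e * ∫ s, w s * Real.arcsin (m s) ∂μ) := by
  have ha : ∀ s, Real.arcsin (e * m s) = e * Real.arcsin (m s) := by
    intro s
    rcases he with rfl | rfl
    · simp
    · simp
  have hi : Integrable (fun s => w s * Real.arcsin (m s)) μ := by
    refine hw.mul_bdd (c := π / 2) ?_ (Eventually.of_forall fun s => ?_)
    · exact (Real.measurable_arcsin.comp_aemeasurable hm).aestronglyMeasurable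
    · rw [Real.norm_eq_abs, abs_le]
      exact ⟨Real.neg_pi_div_two_le_arcsin _, Real.arcsin_le_pi_div_two _⟩
  have hi2 : Integrable (fun s => c * (π * w s + 2 * e * (w s * Real.arcsin (m s)))) μ :=
    ((hw.const_mul π).add (hi.const_mul (2 * e))).const_mul c
  have hn : 0 ≤ᵐ[μ] fun s => c * (π * w s + 2 * e * (w s * Real.arcsin (m s))) := by
    filter_upwards [hw0] with s hs
    have h1 := Real.neg_pi_div_two_le_arcsin (e * m s)
    rw [ha s] at h1
    have h2 : 0 ≤ w s * (π + 2 * (e * Real.arcsin (m s))) := mul_nonneg hs (by linarith)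
    exact mul_nonneg hc (by linarith)
  have h3 : ∫ s, c * (π * w s + 2 * e * (w s * Real.arcsin (m s))) ∂μ =
      c * (π * (∫ s, w s ∂μ) + 2 * e * ∫ s, w s * Real.arcsin (m s) ∂μ) := by
    rw [integral_const_mul, integral_add (hw.const_mul π) (hi.const_mul (2 * e)),
      integral_const_mul, integral_const_mul]
  rw [← h3]
  refine ⟨?_, integral_nonneg_of_ae hn⟩
  rw [ofReal_integral_eq_lintegral_ofReal hi2 hn]
  apply lintegral_congr_ae
  filter_upwards [hw0] with s hs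
  rw [← ENNReal.ofReal_mul (mul_nonneg hc hs), ha s]
  congr 1
  ring

lemma piece' {μ : Measure ℝ} {w : ℝ → ℝ} (hw : Integrable w μ) (hw0 : ∀ᵐ s ∂μ, 0 ≤ w s)
    {c : ℝ} (hc : 0 ≤ c) :
    ∫⁻ s, ENNReal.ofReal (c * w s) * ENNReal.ofReal (2 * π) ∂μ =
      ENNReal.ofReal (c * (2 * π * ∫ s, w s ∂μ)) := by
  have h1 := (piece hw hw0 (m := fun _ => 1) measurable_const.aemeasurable hc
    (Or.inl rfl : (1 : ℝ) = 1 ∨ (1 : ℝ) = -1)).1
  have e1 : π + 2 * Real.arcsin (1 * 1) = 2 * π := by rw [one_mul, Real.arcsin_one]; ring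
  simp only [e1, Real.arcsin_one] at h1
  rw [h1, integral_mul_const]
  congr 1
  ring

lemma circH {δ t ρ X a : ℝ} (hδ : 0 < δ) (hρ : 0 < ρ) (c : ℝ≥0∞) :
    ∫⁻ θ in Ioo (-π) π, c * {P : E3 | P 1 ≤ δ * (t * P 0 - a)}.indicator 1
      (!₂[X, δ * ρ * Real.cos θ, δ * ρ * Real.sin θ] : E3) =
      c * ENNReal.ofReal (π + 2 * Real.arcsin ((t * X - a) / ρ)) := by
  apply circ
  intro θ _
  rw [indicator_apply]
  have e1 : (!₂[X, δ * ρ * Real.cos θ, δ * ρ * Real.sin θ] : E3) ∈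
      {P : E3 | P 1 ≤ δ * (t * P 0 - a)} ↔ Real.cos θ ≤ (t * X - a) / ρ := by
    simp only [mem_ofPred_eq]
    rw [le_div_iff₀ hρ]
    change δ * ρ * Real.cos θ ≤ δ * (t * X - a) ↔ _
    constructor
    · intro h
      have : δ * (Real.cos θ * ρ) ≤ δ * (t * X - a) := by linarith
      exact le_of_mul_le_mul_left this hδ
    · intro h
      nlinarith [mul_le_mul_of_nonneg_left h hδ.le]
  simp only [e1, Pi.one_apply]

lemma circU (c : ℝ≥0∞) (g : ℝ → E3) :
    ∫⁻ θ in Ioo (-π) π, c * (univ : Set E3).indicator 1 (g θ) = c * ENNReal.ofReal (2 * π) := by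
  rw [circ 1 c (fun θ => (univ : Set E3).indicator 1 (g θ)), Real.arcsin_one]
  · congr 2
    ring
  · intro θ _
    simp [Real.cos_le_one]

lemma measH (δ t a : ℝ) : MeasurableSet {P : E3 | P 1 ≤ δ * (t * P 0 - a)} := by
  apply IsClosed.measurableSet
  apply isClosed_le
  · fun_prop
  · fun_prop

end GSaux

open GSaux in
theorem GS (hSF : S_SF) (hI : S_INE) : S_GS := by
  intro δ A dA x u h
  have d0 := h.δ0
  have o : (1 : ℝ) = 1 ∨ (1 : ℝ) = -1 := Or.inl rfl
  have o' : (-1 : ℝ) = 1 ∨ (-1 : ℝ) = -1 := Or.inr rfl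
  have hR : (3 : ℝ) < Rh δ := by
    unfold Rh
    have : 0 < 4 / δ := by positivity
    linarith
  have wn : ∀ e, (e = 1 ∨ e = -1) → ∀ᵐ s ∂(volume.restrict (Ioo (0 : ℝ) 1)),
      0 ≤ W δ A dA x u e s := by
    intro e he
    rw [ae_restrict_iff' measurableSet_Ioo]
    exact Eventually.of_forall fun s hs => W_nonneg h he hs.1.le hs.2.le
  have ri : IntegrableOn (fun r : ℝ => r) (Ioo 3 (Rh δ)) :=
    (continuous_id.integrableOn_Icc (a := 3) (b := Rh δ)).mono_set Ioo_subset_Icc_self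
  have rn : ∀ᵐ s ∂(volume.restrict (Ioo (3 : ℝ) (Rh δ))), 0 ≤ s := by
    rw [ae_restrict_iff' measurableSet_Ioo]
    exact Eventually.of_forall fun s hs => by linarith [hs.1]
  have c0 : 0 ≤ δ ^ 2 := by positivity
  have c1 : 0 ≤ 5 / 4 * δ ^ 2 := by positivity
  set w1 := ∫ s in Ioo 0 1, W δ A dA x u 1 s with hw1
  set w2 := ∫ s in Ioo 0 1, W δ A dA x u (-1) s with hw2
  set R := ∫ r in Ioo 3 (Rh δ), r with hRR
  have w1n : 0 ≤ w1 := integral_nonneg_of_ae (wn 1 o)
  have w2n : 0 ≤ w2 := integral_nonneg_of_ae (wn (-1) o')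
  have Rp : 0 < R := by
    rw [hRR, ← integral_Ioc_eq_integral_Ioo, ← intervalIntegral.integral_of_le hR.le, integral_id]
    nlinarith
  -- the total
  have tot : Measure.euclideanHausdorffMeasure 2 (SS δ A x) =
      ENNReal.ofReal (2 * (π * (δ ^ 2 * (w1 + w2) + 5 / 2 * δ ^ 2 * R))) := by
    have h1 := hSF δ A dA x u h univ MeasurableSet.univ
    rw [inter_univ] at h1
    simp only [circU] at h1
    have p1 := piece' (W_int h o) (wn 1 o) c0
    have p2 := piece' (W_int h o') (wn (-1) o') c0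
    have p3 := piece' ri rn c1
    simp only [W] at p1 p2
    rw [p1, p2, p3] at h1
    rw [h1, ← ENNReal.ofReal_add, ← ENNReal.ofReal_add, ← ENNReal.ofReal_add]
    · congr 1
      simp only [hw1, hw2, hRR, W]
      ring
    all_goals
      simp only [W] at hw1 hw2
      try rw [← hw1]
      try rw [← hw2]
      try rw [← hRR]
      positivity
  have Tp : 0 < δ ^ 2 * (w1 + w2) + 5 / 2 * δ ^ 2 * R := by positivity
  have hpi := Real.pi_pos
  refine ⟨?_, ?_, ?_⟩
  · rw [tot, ENNReal.ofReal_pos]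
    positivity
  · rw [tot]
    exact ENNReal.ofReal_lt_top
  intro t t0 t1
  have e2 : ENNReal.ofReal (2 * (π * (δ ^ 2 * (w1 + w2) + 5 / 2 * δ ^ 2 * R))) / 2 =
      ENNReal.ofReal (π * (δ ^ 2 * (w1 + w2) + 5 / 2 * δ ^ 2 * R)) := by
    rw [ENNReal.ofReal_mul (by norm_num : (0 : ℝ) ≤ 2), ENNReal.ofReal_ofNat, mul_comm,
      ENNReal.mul_div_cancel_right (by norm_num) (by norm_num)]
  rw [tot, e2]
  have h1 := hSF δ A dA x u h _ (measH δ t (A t))
  have a1 : (∫⁻ s in Ioo 0 1, ∫⁻ θ in Ioo (-π) π, ENNReal.ofReal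
        (δ ^ 2 * (rho A x 1 s * √(drho δ dA x u 1 s ^ 2 + δ ^ 2 * u 1 s ^ 2))) *
          {P : E3 | P 1 ≤ δ * (t * P 0 - A t)}.indicator 1 (!₂[x 1 s, δ * rho A x 1 s * Real.cos θ,
            δ * rho A x 1 s * Real.sin θ] : E3)) =
      ∫⁻ s in Ioo 0 1, ENNReal.ofReal (δ ^ 2 * W δ A dA x u 1 s) *
        ENNReal.ofReal (π + 2 * Real.arcsin (1 * mm A x 1 t s)) := by
    apply setLIntegral_congr_fun measurableSet_Ioo
    intro s hs
    have r0 := rho_ge h o hs.1.le hs.2.le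
    simp only
    rw [circH d0 (by linarith [hs.1])]
    simp only [W, mm, one_mul]
  have a2 : (∫⁻ s in Ioo 0 1, ∫⁻ θ in Ioo (-π) π, ENNReal.ofReal
        (δ ^ 2 * (rho A x (-1) s * √(drho δ dA x u (-1) s ^ 2 + δ ^ 2 * u (-1) s ^ 2))) *
          {P : E3 | P 1 ≤ δ * (t * P 0 - A t)}.indicator 1 (!₂[-x (-1) s,
            δ * rho A x (-1) s * Real.cos θ, δ * rho A x (-1) s * Real.sin θ] : E3)) =
      ∫⁻ s in Ioo 0 1, ENNReal.ofReal (δ ^ 2 * W δ A dA x u (-1) s) *
        ENNReal.ofReal (π + 2 * Real.arcsin (-1 * mm A x (-1) t s)) := by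
    apply setLIntegral_congr_fun measurableSet_Ioo
    intro s hs
    have r0 := rho_ge h o' hs.1.le hs.2.le
    simp only
    have e3 : (t * -x (-1) s - A t) / rho A x (-1) s =
        -1 * ((t * x (-1) s - -1 * A t) / rho A x (-1) s) := by ring
    rw [circH d0 (by linarith [hs.1]), e3]
    simp only [W, mm]
  have a3 : (∫⁻ r in Ioo 3 (Rh δ), ∫⁻ θ in Ioo (-π) π, ENNReal.ofReal (5 / 4 * δ ^ 2 * r) *
          {P : E3 | P 1 ≤ δ * (t * P 0 - A t)}.indicator 1
            (!₂[xr δ r, δ * r * Real.cos θ, δ * r * Real.sin θ] : E3)) =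
      ∫⁻ r in Ioo 3 (Rh δ), ENNReal.ofReal (5 / 4 * δ ^ 2 * r) *
        ENNReal.ofReal (π + 2 * Real.arcsin (1 * nr δ A 1 t r)) := by
    apply setLIntegral_congr_fun measurableSet_Ioo
    intro r hr
    simp only
    rw [circH d0 (by linarith [hr.1])]
    simp only [nr, one_mul]
  have a4 : (∫⁻ r in Ioo 3 (Rh δ), ∫⁻ θ in Ioo (-π) π, ENNReal.ofReal (5 / 4 * δ ^ 2 * r) *
          {P : E3 | P 1 ≤ δ * (t * P 0 - A t)}.indicator 1
            (!₂[-xr δ r, δ * r * Real.cos θ, δ * r * Real.sin θ] : E3)) =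
      ∫⁻ r in Ioo 3 (Rh δ), ENNReal.ofReal (5 / 4 * δ ^ 2 * r) *
        ENNReal.ofReal (π + 2 * Real.arcsin (-1 * nr δ A (-1) t r)) := by
    apply setLIntegral_congr_fun measurableSet_Ioo
    intro r hr
    simp only
    have e3 : (t * -xr δ r - A t) / r = -1 * ((t * xr δ r - -1 * A t) / r) := by ring
    rw [circH d0 (by linarith [hr.1]), e3]
    simp only [nr]
  rw [a1, a2, a3, a4] at h1
  obtain ⟨p1, q1⟩ := piece (W_int h o) (wn 1 o) (mm_aem h 1 t) c0 o
  obtain ⟨p2, q2⟩ := piece (W_int h o') (wn (-1) o') (mm_aem h (-1) t) c0 o'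
  obtain ⟨p3, q3⟩ := piece ri rn (nr_meas δ A 1 t).aemeasurable c1 o
  obtain ⟨p4, q4⟩ := piece ri rn (nr_meas δ A (-1) t).aemeasurable c1 o'
  rw [p1, p2, p3, p4, ← ENNReal.ofReal_add q1 q3, ← ENNReal.ofReal_add q2 q4,
    ← ENNReal.ofReal_add (add_nonneg q1 q3) (add_nonneg q2 q4)] at h1
  rw [h1]
  congr 1
  have bal := balance hI h t0 t1
  rw [← hw1, ← hw2, ← hRR]
  have bal2 := congrArg (fun z => 2 * δ ^ 2 * z) bal
  linear_combination bal2

end Pool.Agent.HV
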