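import Pool.Agent.HV.Defs

/-!
# Module statements for MP_678b51_gt, Q2   (helper76)

Paper: `/team-store/678b51_paper.md`; section numbers refer to it.  `S_X` is proved by a theorem
`X : S_X`, or `X (h : S_Y) .. : S_X` when it uses other modules.
-/

set_option autoImplicit false

open MeasureTheory Set Filter
open scoped Real Topology ENNReal

namespace Pool.Agent.HV

/-! ## Two general lemmas (parameter integrals, fundamental theorem + Tonelli) -/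

/-- increments of a parameter integral -/
def S_INC : Prop := ∀ (μ : Measure ℝ) [SFinite μ] (φ dφ : ℝ → ℝ → ℝ) (ψ : ℝ → ℝ → ℝ≥0∞)
  (a b : ℝ), a ≤ b → Measurable (fun z : ℝ × ℝ => ψ z.1 z.2) →
  (∀ᵐ r ∂μ, ContinuousOn (fun t => φ t r) (Icc a b) ∧
    ∀ t ∈ Ioo a b, HasDerivAt (fun t => φ t r) (dφ t r) t ∧ ENNReal.ofReal |dφ t r| ≤ ψ t r) →
  ∫⁻ r, ENNReal.ofReal |φ b r - φ a r| ∂μ ≤ ∫⁻ t in Ioo a b, ∫⁻ r, ψ t r ∂μ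

/-- exact version -/
def S_INE : Prop := ∀ (μ : Measure ℝ) [SFinite μ] (φ dφ : ℝ → ℝ → ℝ) (ψ : ℝ → ℝ → ℝ≥0∞)
  (a b : ℝ), a ≤ b → Measurable (fun z : ℝ × ℝ => ψ z.1 z.2) →
  (∀ᵐ r ∂μ, ContinuousOn (fun t => φ t r) (Icc a b) ∧
    ∀ t ∈ Ioo a b, HasDerivAt (fun t => φ t r) (dφ t r) t ∧ ENNReal.ofReal |dφ t r| ≤ ψ t r) →
  (∫⁻ t in Ioo a b, ∫⁻ r, ψ t r ∂μ) < ⊤ → Integrable (φ a) μ → AEStronglyMeasurable (φ b) μ →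
  AEStronglyMeasurable (fun z : ℝ × ℝ => dφ z.1 z.2) ((volume.restrict (Ioo a b)).prod μ) →
  Integrable (φ b) μ ∧
    ∫ r, φ b r ∂μ - ∫ r, φ a r ∂μ = ∫ t in a..b, ∫ r, dφ t r ∂μ

/-! ## Kernel lemmas (§3) -/

/-- the weight `λ` of §3.1 -/
noncomputable def lam (p : ℝ) : ℝ :=
  7 / (p * √p) + 1 / (√(1 / 2 - p) * p) + 1 / (√(1 - p) * p)

/-- inequality (K) of §3.1 -/
def S_KI : Prop := ∀ t, 0 < t → t < 1 →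
  ∫⁻ p in Ioo t 1, ENNReal.ofReal (lam p * (t / √(p ^ 2 - t ^ 2))) ≤ ENNReal.ofReal (9 * π / √t)

/-- increments of `g(p)/p` (§3.1) -/
def S_LAM : Prop := ∀ (g : ℝ → ℝ) (B c : ℝ), 0 ≤ B → c ≤ 1 →
  (∀ p, 0 < p → p ≤ c → |g p| ≤ 6 * B * √p) →
  (∀ a b, 0 < a → a ≤ b → b ≤ c → |g b - g a| ≤ B * (Om b - Om a)) →
  ∀ a b, 0 < a → a ≤ b → b ≤ c →
    ENNReal.ofReal |g b / b - g a / a| ≤ ENNReal.ofReal B * ∫⁻ p in Ioo a b, ENNReal.ofReal (lam p)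

/-- §3.1 -/
def S_K1 : Prop := ∃ C : ℝ, 0 < C ∧ ∀ (g : ℝ → ℝ) (B : ℝ), 0 ≤ B → g 0 = 0 → g 1 = 0 →
  (∀ a b, 0 ≤ a → a ≤ b → b ≤ 1 → |g b - g a| ≤ B * (Om b - Om a)) →
  (∀ t, 0 ≤ t → t ≤ 1 → |Aop g t| ≤ C * B) ∧
  (∀ a b, 0 ≤ a → a ≤ b → b ≤ 1 → |Aop g b - Aop g a| ≤ C * B * (√b - √a))

/-- §3.2 -/
def S_K2 : Prop := ∀ (gL gR : ℝ → ℝ) (B : ℝ), 0 ≤ B →
  (∀ t, 0 ≤ t → t ≤ 1 / 2 → |gL t| ≤ B) → (∀ t, 1 / 2 ≤ t → t ≤ 1 → |gR t| ≤ B) →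
  (∀ a b, 0 ≤ a → a ≤ b → b ≤ 1 / 2 → |gL b - gL a| ≤ B * (√b - √a)) →
  (∀ a b, 1 / 2 ≤ a → a ≤ b → b ≤ 1 → |gR b - gR a| ≤ B * (√b - √a)) →
  ∀ a b, 0 ≤ a → a ≤ b → b ≤ 1 →
    |Cop (fun t => if t < 1 / 2 then gL t else gR t) b -
      Cop (fun t => if t < 1 / 2 then gL t else gR t) a| ≤ 17 / 2 * B * (Om b - Om a)

/-- §3.3 -/
def S_AC : Prop := ∀ (g : ℝ → ℝ) (M : ℝ), Measurable g → (∀ t, |g t| ≤ M) →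
  (∀ t, 0 ≤ t → t ≤ 1 → Aop (Cop g) t = π / 2 * ∫ s in t..1, g s) ∧
  ∫ t in (0 : ℝ)..1, t * Cop g t = π / 4 * ∫ s in (0 : ℝ)..1, s ^ 2 * g s

/-- the centre of the ball is in the ball; `g0` is in the class with constant `3/2` -/
def S_B0 : Prop :=
  (∀ K₁ K₂ K₃ δ : ℝ, 0 ≤ K₁ → 0 ≤ K₂ → 0 ≤ K₃ → 0 ≤ δ → Ball K₁ K₂ K₃ δ ⟨UL0, UR0, g0, 0⟩) ∧
  (∀ a b, 0 ≤ a → a ≤ b → b ≤ 1 → |g0 b - g0 a| ≤ 3 / 2 * (Om b - Om a))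

/-! ## Basic facts on states (§2) -/

/-- facts on `γ, α, α[a,b], Γ` -/
structure FactsA (S : St) : Prop where
  da_deriv : ∀ t, HasDerivAt (da S) (S.g t) t
  al_deriv : ∀ t, HasDerivAt (al S) (da S t) t
  da_even : ∀ t, da S (-t) = da S t
  al_odd : ∀ t, al S (-t) = -al S t
  da_zero : ∀ t, 1 ≤ t → da S t = 0
  al_zero : ∀ t, 1 ≤ t → al S t = 0
  g_bd : ∀ t, |S.g t| ≤ 12
  g_le : ∀ t, 0 ≤ t → t ≤ 1 → |S.g t| ≤ 12 * √t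
  g_le' : ∀ t, 0 ≤ t → t ≤ 1 → |S.g t| ≤ 12 * √(1 - t)
  g_hol : ∀ a b, |S.g b - S.g a| ≤ 24 * √|b - a|
  da_bd : ∀ t, |da S t| ≤ 8
  da_le : ∀ t, 0 ≤ t → t ≤ 1 → |da S t| ≤ 8 * ((1 - t) * √(1 - t))
  al_le : ∀ t, 0 ≤ t → t ≤ 1 → |al S t| ≤ 4 * ((1 - t) ^ 2 * √(1 - t))
  al_le' : ∀ t, 0 ≤ t → |al S t| ≤ 8 * t
  ab_bd : ∀ t, |ab S t| ≤ 8
  ab_mul : ∀ t, t * ab S t = al S t
  ab_lip : ∀ s t, |ab S t - ab S s| ≤ 12 * |t - s|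
  dd_bd : ∀ a b, |dd S a b| ≤ 8
  dd_mul : ∀ a b, dd S a b * (a - b) = al S a - al S b
  dd_self : ∀ t, dd S t t = da S t
  dd_neg : ∀ t, dd S t (-t) = ab S t
  dd_deriv : ∀ a b, HasDerivAt (fun b => dd S a b) (Gm S a b) b
  dd_cont : Continuous fun z : ℝ × ℝ => dd S z.1 z.2
  Gm_bd : ∀ a b, |Gm S a b| ≤ 12
  Gm_cont : Continuous fun z : ℝ × ℝ => Gm S z.1 z.2

def S_FactsA : Prop := ∀ S, Crude S → FactsA S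

/-- facts on `u, x, P, G, κ, n, w` -/
structure FactsB (δ : ℝ) (S : St) : Prop where
  x_one : ∀ e, xx δ S e 1 = 3
  x_cont : ∀ e, ContinuousOn (xx δ S e) (Icc 0 1)
  x_bd : ∀ e, (e = 1 ∨ e = -1) → ∀ t, 0 ≤ t → t ≤ 1 → |xx δ S e t - 3| ≤ 5 * δ ^ 2
  x_lip : ∀ e, (e = 1 ∨ e = -1) → ∀ a b, 0 ≤ a → a ≤ b → b ≤ 1 →
    |xx δ S e b - xx δ S e a| ≤ 5 * δ ^ 2 * (b - a)
  x_deriv : ∀ e t, 0 < t → t < 1 → t ≠ 1 / 2 → HasDerivAt (xx δ S e) (δ ^ 2 * uu S e t) t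
  u_bd : ∀ e, (e = 1 ∨ e = -1) → ∀ t, 0 ≤ t → t ≤ 1 → -5 ≤ uu S e t ∧ uu S e t ≤ -(1 / 20)
  u_ctL : ∀ e, ContinuousOn (uu S e) (Ico 0 (1 / 2))
  u_ctR : ∀ e, ContinuousOn (uu S e) (Icc (1 / 2) 1)
  P0_bd : ∀ e, (e = 1 ∨ e = -1) → ∀ s t, 0 ≤ s → s ≤ 1 → 2 ≤ P0 δ S e s t ∧ P0 δ S e s t ≤ 4
  P1_bd : ∀ e, (e = 1 ∨ e = -1) → ∀ s t, 0 ≤ s → s ≤ 1 → 2 ≤ P1 δ S e s t ∧ P1 δ S e s t ≤ 4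
  P2_bd : ∀ e, (e = 1 ∨ e = -1) → ∀ s t, 0 ≤ s → s ≤ 1 → 2 ≤ P2 δ S e s t ∧ P2 δ S e s t ≤ 4
  GG_bd : ∀ e, (e = 1 ∨ e = -1) → ∀ s t, 0 ≤ s → s ≤ 1 → 2 ≤ GG δ S e s t ∧ GG δ S e s t ≤ 4
  GG_sq : ∀ e, (e = 1 ∨ e = -1) → ∀ s t, 0 ≤ s → s ≤ 1 →
    GG δ S e s t ^ 2 = P1 δ S e s t * P2 δ S e s t
  GG_id : ∀ e, (e = 1 ∨ e = -1) → ∀ s t, 0 ≤ s → s ≤ 1 →
    (s * xx δ S e s - e * (δ ^ 3 * al S s)) ^ 2 - (t * xx δ S e s - e * (δ ^ 3 * al S t)) ^ 2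
      = (s ^ 2 - t ^ 2) * GG δ S e s t ^ 2
  kap_deriv : ∀ e, (e = 1 ∨ e = -1) → ∀ s t, 0 ≤ s → s ≤ 1 →
    HasDerivAt (fun t => kap δ S e s t) (kk δ S e s t) t
  kk_cont : ∀ e, (e = 1 ∨ e = -1) →
    ContinuousOn (fun z : ℝ × ℝ => kk δ S e z.1 z.2) (Icc 0 1 ×ˢ univ)
  nn_bd : ∀ e, (e = 1 ∨ e = -1) → ∀ t, 0 ≤ t → t ≤ 1 → 0 ≤ nn δ S e t ∧ nn δ S e t ≤ 20
  nn_ctL : ∀ e, (e = 1 ∨ e = -1) → ContinuousOn (nn δ S e) (Ico 0 (1 / 2))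
  nn_ctR : ∀ e, (e = 1 ∨ e = -1) → ContinuousOn (nn δ S e) (Icc (1 / 2) 1)
  wr_lb : ∀ e, (e = 1 ∨ e = -1) → ∀ t r, 0 ≤ t → t ≤ 1 → 3 ≤ r → r ≤ Rh δ →
    r * ((r - 3) + 2 * (1 - t)) ≤ r ^ 2 - yr δ S e t r ^ 2

def S_FactsB : Prop := ∃ δ₁ : ℝ, 0 < δ₁ ∧ δ₁ ≤ 1 / 100 ∧ ∀ δ, 0 < δ → δ ≤ δ₁ → ∀ S, Crude S →
  FactsB δ S

/-! ## Estimates (§4) -/

/-- §4.1 -/
def S_KB : Prop := ∃ C : ℝ, 0 < C ∧ ∃ δ₁ : ℝ, 0 < δ₁ ∧ ∀ δ, 0 < δ → δ ≤ δ₁ → ∀ S, Crude S →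
  ∀ e, (e = 1 ∨ e = -1) → ∀ s, 0 ≤ s → s ≤ 1 →
    (∀ p, 0 ≤ p → p ≤ s → |kk δ S e s p| ≤ C * δ ^ 3 * √p) ∧
    (∀ a b, 0 < a → a ≤ b → b ≤ s →
      |kk δ S e s b - kk δ S e s a| ≤ C * δ ^ 3 * (Om b - Om a))

/-- §4.2 -/
def S_RP : Prop := ∃ C : ℝ, 0 < C ∧ ∃ δ₁ : ℝ, 0 < δ₁ ∧ ∀ δ, 0 < δ → δ ≤ δ₁ → ∀ S, Crude S →
  (∀ t, 0 ≤ t → t ≤ 1 → |Rp δ S t| ≤ C * δ ^ 3) ∧
  (∀ a b, 0 ≤ a → a ≤ b → b ≤ 1 → |Rp δ S b - Rp δ S a| ≤ C * δ ^ 3 * (√b - √a))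

/-- §4.3 -/
def S_QE : Prop := ∃ C : ℝ, 0 < C ∧ ∃ δ₁ : ℝ, 0 < δ₁ ∧ ∀ δ, 0 < δ → δ ≤ δ₁ → ∀ S, Crude S →
  Qd δ S 0 = 0 ∧ Qd δ S 1 = 0 ∧
  (∀ a b, 0 ≤ a → a ≤ b → b ≤ 1 →
    |(Qd δ S b / δ ^ 2 + 10 * S.g b) - (Qd δ S a / δ ^ 2 + 10 * S.g a)| ≤ C * δ * (Om b - Om a))

/-- §4.4 -/
def S_DE : Prop := ∃ C : ℝ, 0 < C ∧ ∃ δ₁ : ℝ, 0 < δ₁ ∧ ∀ δ, 0 < δ → δ ≤ δ₁ → ∀ S, Crude S →
  ∀ l r : ℝ, ((l = 0 ∧ r = 1 / 2) ∨ (l = 1 / 2 ∧ r = 1)) → ∀ U₁ f₁ : ℝ → ℝ,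
  (∀ t, l ≤ t → t ≤ r → |U₁ t| ≤ 5 ∧ |f₁ t| ≤ 1) →
  (∀ a b, l ≤ a → a ≤ b → b ≤ r → |U₁ b - U₁ a| ≤ 5 * (√b - √a) ∧
    |f₁ b - f₁ a| ≤ 5 * (√b - √a)) →
  (∀ t, l ≤ t → t ≤ r → |DD δ S (U₁ t + f₁ t) (U₁ t - f₁ t) t
      - 12 * (if r = 1 / 2 then FL0 t - S.p * (1 / 2 - t) else bb * (1 - t))
      - 2 * f₁ t * (U₁ t + 3 * t)| ≤ C * δ) ∧
  (∀ a b, l ≤ a → a ≤ b → b ≤ r →
    |(DD δ S (U₁ b + f₁ b) (U₁ b - f₁ b) b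
      - 12 * (if r = 1 / 2 then FL0 b - S.p * (1 / 2 - b) else bb * (1 - b))
      - 2 * f₁ b * (U₁ b + 3 * b)) -
     (DD δ S (U₁ a + f₁ a) (U₁ a - f₁ a) a
      - 12 * (if r = 1 / 2 then FL0 a - S.p * (1 / 2 - a) else bb * (1 - a))
      - 2 * f₁ a * (U₁ a + 3 * a))| ≤ C * δ * (√b - √a))

/-- §4.5 -/
def S_IE : Prop := ∃ C : ℝ, 0 < C ∧ ∃ δ₁ : ℝ, 0 < δ₁ ∧ ∀ δ, 0 < δ → δ ≤ δ₁ → ∀ S, Crude S →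
  (∀ t, 0 ≤ t → t ≤ 1 → |Ih δ S t - 12| ≤ C * δ) ∧
  (∀ a b, 0 ≤ a → a ≤ b → b ≤ 1 → |Ih δ S b - Ih δ S a| ≤ C * δ * (b - a))

/-- §4.6 -/
def S_CA : Prop := ∃ C : ℝ, 0 < C ∧ ∃ δ₁ : ℝ, 0 < δ₁ ∧ ∀ δ, 0 < δ → δ ≤ δ₁ → ∀ S, Crude S →
  Kc δ S 0 = 0 ∧ Kc δ S 1 = 0 ∧
  (∀ a b, 0 ≤ a → a ≤ b → b ≤ 1 → |Kc δ S b - Kc δ S a| ≤ C * δ * (b - a))

/-- §4.7 -/
def S_PA : Prop := ∃ C : ℝ, 0 < C ∧ ∃ δ₁ : ℝ, 0 < δ₁ ∧ ∀ δ, 0 < δ → δ ≤ δ₁ → ∀ S, Crude S →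
  (∀ a b, 0 ≤ a → a ≤ b → b ≤ 1 →
    |(Pa δ S b - 18 * Cop (fp S.p) b) - (Pa δ S a - 18 * Cop (fp S.p) a)|
      ≤ C * δ * (Om b - Om a))

/-- §4.8 -/
def S_GA : Prop := ∃ C : ℝ, 0 < C ∧ ∃ δ₁ : ℝ, 0 < δ₁ ∧ ∀ δ, 0 < δ → δ ≤ δ₁ → ∀ S, Crude S →
  gA δ S 0 = 0 ∧ gA δ S 1 = 0 ∧
  (∀ a b, 0 ≤ a → a ≤ b → b ≤ 1 →
    |(gA δ S b - 3 / 2 * Cop (fp S.p) b) - (gA δ S a - 3 / 2 * Cop (fp S.p) a)|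
      ≤ C * δ * (Om b - Om a))

/-- §4.9, left piece -/
noncomputable def EL (δ : ℝ) (S : St) (t : ℝ) : ℝ := (TT δ S).UL t -
  (-3 * t - 6 * (FL0 t - S.p * (1 / 2 - t)) / fL S.p t - 10 / (π * fL S.p t) * Aop S.g t)

/-- §4.9, right piece -/
noncomputable def ER (δ : ℝ) (S : St) (t : ℝ) : ℝ := (TT δ S).UR t -
  (-3 * t - 6 * (bb * (1 - t)) / (-bb) - 10 / (π * (-bb)) * Aop S.g t)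

/-- §4.9 -/
def S_UE : Prop := ∃ C : ℝ, 0 < C ∧ ∃ δ₁ : ℝ, 0 < δ₁ ∧ ∀ δ, 0 < δ → δ ≤ δ₁ → ∀ S, Crude S →
  (∀ t, 0 ≤ t → t ≤ 1 / 2 → |EL δ S t| ≤ C * δ) ∧
  (∀ t, 1 / 2 ≤ t → t ≤ 1 → |ER δ S t| ≤ C * δ) ∧
  (∀ a b, 0 ≤ a → a ≤ b → b ≤ 1 / 2 → |EL δ S b - EL δ S a| ≤ C * δ * (√b - √a)) ∧
  (∀ a b, 1 / 2 ≤ a → a ≤ b → b ≤ 1 → |ER δ S b - ER δ S a| ≤ C * δ * (√b - √a))

/-- §4.10 -/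
def S_TB : Prop := ∃ K₁ K₂ K₃ δ₁ : ℝ, 0 < K₁ ∧ 0 < K₂ ∧ 0 < K₃ ∧ 0 < δ₁ ∧
  ∀ δ, 0 < δ → δ ≤ δ₁ → (∀ S, Ball K₁ K₂ K₃ δ S → Crude S) ∧
    (∀ S, Ball K₁ K₂ K₃ δ S → Ball K₁ K₂ K₃ δ (TT δ S))

/-- pointwise convergence of states -/
def Conv (Sn : ℕ → St) (S : St) : Prop :=
  (∀ t, 0 ≤ t → t ≤ 1 / 2 → Tendsto (fun n => (Sn n).UL t) atTop (𝓝 (S.UL t))) ∧
  (∀ t, 1 / 2 ≤ t → t ≤ 1 → Tendsto (fun n => (Sn n).UR t) atTop (𝓝 (S.UR t))) ∧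
  (∀ t, Tendsto (fun n => (Sn n).g t) atTop (𝓝 (S.g t))) ∧
  Tendsto (fun n => (Sn n).p) atTop (𝓝 S.p)

/-- convergence of the auxiliary functions (first part of §4.11) -/
structure ConvA (δ : ℝ) (Sn : ℕ → St) (S : St) : Prop where
  da : ∀ t, Tendsto (fun n => da (Sn n) t) atTop (𝓝 (da S t))
  al : ∀ t, Tendsto (fun n => al (Sn n) t) atTop (𝓝 (al S t))
  ab : ∀ t, Tendsto (fun n => ab (Sn n) t) atTop (𝓝 (ab S t))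
  dd : ∀ a b, Tendsto (fun n => dd (Sn n) a b) atTop (𝓝 (dd S a b))
  Gm : ∀ a b, Tendsto (fun n => Gm (Sn n) a b) atTop (𝓝 (Gm S a b))
  uu : ∀ e t, 0 ≤ t → t ≤ 1 → Tendsto (fun n => uu (Sn n) e t) atTop (𝓝 (uu S e t))
  xx : ∀ e t, 0 ≤ t → t ≤ 1 → Tendsto (fun n => xx δ (Sn n) e t) atTop (𝓝 (xx δ S e t))
  kk : ∀ e, (e = 1 ∨ e = -1) → ∀ s t, 0 ≤ s → s ≤ 1 →
    Tendsto (fun n => kk δ (Sn n) e s t) atTop (𝓝 (kk δ S e s t))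
  GG : ∀ e, (e = 1 ∨ e = -1) → ∀ s t, 0 ≤ s → s ≤ 1 →
    Tendsto (fun n => GG δ (Sn n) e s t) atTop (𝓝 (GG δ S e s t))
  Th : ∀ e, (e = 1 ∨ e = -1) → ∀ s t, 0 ≤ s → s ≤ 1 →
    Tendsto (fun n => Th δ (Sn n) e s t) atTop (𝓝 (Th δ S e s t))
  nn : ∀ e, (e = 1 ∨ e = -1) → ∀ t, 0 ≤ t → t ≤ 1 →
    Tendsto (fun n => nn δ (Sn n) e t) atTop (𝓝 (nn δ S e t))

def S_CVA : Prop := ∃ δ₁ : ℝ, 0 < δ₁ ∧ ∀ δ, 0 < δ → δ ≤ δ₁ → ∀ (Sn : ℕ → St) (S : St),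
  (∀ n, Crude (Sn n)) → Crude S → Conv Sn S → ConvA δ Sn S

/-- §4.11, the functions `γ_A` and `q` -/
def S_CVg : Prop := ∃ δ₁ : ℝ, 0 < δ₁ ∧ ∀ δ, 0 < δ → δ ≤ δ₁ → ∀ (Sn : ℕ → St) (S : St),
  (∀ n, Crude (Sn n)) → Crude S → Conv Sn S →
  (∀ t, 0 ≤ t → t ≤ 1 → Tendsto (fun n => gA δ (Sn n) t) atTop (𝓝 (gA δ S t))) ∧
  Tendsto (fun n => qq δ (Sn n)) atTop (𝓝 (qq δ S))

/-- §4.11, the function `Rhs` -/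
def S_CVr : Prop := ∃ δ₁ : ℝ, 0 < δ₁ ∧ ∀ δ, 0 < δ → δ ≤ δ₁ → ∀ (Sn : ℕ → St) (S : St),
  (∀ n, Crude (Sn n)) → Crude S → Conv Sn S →
  ∀ t, 0 ≤ t → t ≤ 1 → Tendsto (fun n => Rhs δ (Sn n) t) atTop (𝓝 (Rhs δ S t))

/-- §4.11 -/
def S_TC : Prop := ∃ δ₁ : ℝ, 0 < δ₁ ∧ ∀ δ, 0 < δ → δ ≤ δ₁ → ∀ (Sn : ℕ → St) (S : St),
  (∀ n, Crude (Sn n)) → Crude S → Conv Sn S → Conv (fun n => TT δ (Sn n)) (TT δ S)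

/-- Schauder's fixed point theorem -/
def S_SCH : Prop := ∀ (E : Type) [NormedAddCommGroup E] [NormedSpace ℝ E] (K : Set E),
  IsCompact K → Convex ℝ K → K.Nonempty → ∀ f : E → E, ContinuousOn f K → MapsTo f K K →
  ∃ x ∈ K, f x = x

/-- fixed points in the ball (§4.12) -/
def S_FIX : Prop := ∀ (K₁ K₂ K₃ δ : ℝ), 0 ≤ K₁ → 0 ≤ K₂ → 0 ≤ K₃ → 0 ≤ δ → ∀ T : St → St,
  (∀ S, Ball K₁ K₂ K₃ δ S → Ball K₁ K₂ K₃ δ (T S)) →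
  (∀ (Sn : ℕ → St) (S : St), (∀ n, Ball K₁ K₂ K₃ δ (Sn n)) → Ball K₁ K₂ K₃ δ S → Conv Sn S →
    Conv (fun n => T (Sn n)) (T S)) →
  ∃ S, Ball K₁ K₂ K₃ δ S ∧ (∀ t, 0 ≤ t → t ≤ 1 / 2 → (T S).UL t = S.UL t) ∧
    (∀ t, 1 / 2 ≤ t → t ≤ 1 → (T S).UR t = S.UR t) ∧ (∀ t, (T S).g t = S.g t) ∧ (T S).p = S.p

/-! ## From the fixed point to the equations (§5) -/

/-- (i) of §5.1 -/
def S_QI : Prop := ∃ δ₁ : ℝ, 0 < δ₁ ∧ ∀ δ, 0 < δ → δ ≤ δ₁ → ∀ S, Crude S →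
  IntervalIntegrable (Qd δ S) volume 0 1 ∧
  ∀ t, 0 ≤ t → t ≤ 1 → Qf δ S t = -∫ p in t..1, Qd δ S p

/-- (iii) of §5.1 -/
def S_EK : Prop := ∀ (ψ : ℝ → ℝ) (t s : ℝ), 0 < t → t < s → ContinuousOn ψ (Icc t s) →
  IntervalIntegrable (fun τ => τ / √(τ ^ 2 - t ^ 2) *
    ∫ φ in (0 : ℝ)..(π / 2), ψ (pph s τ φ) * Real.cos φ ^ 2 / pph s τ φ) volume t s ∧
  ∫ τ in t..s, τ / √(τ ^ 2 - t ^ 2) *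
    ∫ φ in (0 : ℝ)..(π / 2), ψ (pph s τ φ) * Real.cos φ ^ 2 / pph s τ φ =
  π / 2 / √(s ^ 2 - t ^ 2) * ∫ p in t..s, ψ p

/-- §5.1 -/
def S_E0 : Prop := ∃ δ₁ : ℝ, 0 < δ₁ ∧ ∀ δ, 0 < δ → δ ≤ δ₁ → ∀ S, Crude S →
  (∀ t, 0 < t → t < 1 → DD δ S (uu S 1 t) (uu S (-1) t) t = 2 / π * Rhs δ S t) →
  ∀ t, 0 < t → t < 1 →
    Se δ (fun t => δ ^ 3 * al S t) (fun t => δ ^ 3 * da S t) (xx δ S) (uu S) 1 t -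
    Se δ (fun t => δ ^ 3 * al S t) (fun t => δ ^ 3 * da S t) (xx δ S) (uu S) (-1) t = 0

/-- §5.2 -/
def S_M0 : Prop := ∃ δ₁ : ℝ, 0 < δ₁ ∧ ∀ δ, 0 < δ → δ ≤ δ₁ → ∀ S, Crude S →
  (∀ t, 0 ≤ t → t ≤ 1 → S.g t = gA δ S t) →
  ∀ t, 0 < t → t < 1 →
    Ve δ (fun t => δ ^ 3 * al S t) (fun t => δ ^ 3 * da S t) (xx δ S) (uu S) 1 t -
    Ve δ (fun t => δ ^ 3 * al S t) (fun t => δ ^ 3 * da S t) (xx δ S) (uu S) (-1) t = 0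

/-- §5.3 -/
def S_CV : Prop := ∀ K₁ K₂ K₃ : ℝ, 0 ≤ K₁ → 0 ≤ K₂ → 0 ≤ K₃ → ∃ δ₁ : ℝ, 0 < δ₁ ∧
  ∀ δ, 0 < δ → δ ≤ δ₁ → ∀ S, Crude S → Ball K₁ K₂ K₃ δ S →
  (∀ e, (e = 1 ∨ e = -1) → ∀ a b, 0 ≤ a → a < b → b ≤ 1 →
    uu S e b / drho δ (fun t => δ ^ 3 * da S t) (xx δ S) (uu S) e b <
    uu S e a / drho δ (fun t => δ ^ 3 * da S t) (xx δ S) (uu S) e a) ∧
  xx δ S 1 0 ≠ xx δ S (-1) 0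

/-- the data for the geometry exist -/
def S_PR : Prop := ∃ (δ : ℝ) (A dA : ℝ → ℝ) (x u : ℝ → ℝ → ℝ), Prof δ A dA x u

/-! ## Geometry (§1) -/

/-- §1.1 -/
def S_GK : Prop := ∀ (δ : ℝ) (A dA : ℝ → ℝ) (x u : ℝ → ℝ → ℝ), Prof δ A dA x u →
  IsCompact (KK δ A x) ∧ Convex ℝ (KK δ A x) ∧ (interior (KK δ A x)).Nonempty ∧
  frontier (KK δ A x) = SS δ A x

/-- §1.2 -/
def S_GV : Prop := ∀ (δ : ℝ) (A dA : ℝ → ℝ) (x u : ℝ → ℝ → ℝ), Prof δ A dA x u →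
  ∀ t, 0 ≤ t → t ≤ 1 → volume (KK δ A x ∩ {P | P 1 ≤ δ * (t * P 0 - A t)}) =
    volume (KK δ A x) / 2

/-- area formula for a surface of revolution (§1.3): curve `(X t, ρ t)`, `t` in an open interval -/
def S_AF : Prop := ∀ (X ρ dX dρ : ℝ → ℝ) (l r : ℝ), l < r →
  (∀ t ∈ Ioo l r, HasDerivAt X (dX t) t) → (∀ t ∈ Ioo l r, HasDerivAt ρ (dρ t) t) →
  ContinuousOn dX (Ioo l r) → ContinuousOn dρ (Ioo l r) →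
  (∀ t ∈ Ioo l r, 0 < ρ t) → (∀ t ∈ Ioo l r, dX t ≠ 0) → InjOn X (Ioo l r) →
  ∀ H : Set E3, MeasurableSet H →
    Measure.euclideanHausdorffMeasure 2 ({P : E3 | ∃ t ∈ Ioo l r, P 0 = X t ∧ vr P = ρ t} ∩ H) =
    ∫⁻ t in Ioo l r, ∫⁻ θ in Ioo (-π) π,
      ENNReal.ofReal (ρ t * √(dX t ^ 2 + dρ t ^ 2)) *
        H.indicator 1 (!₂[X t, ρ t * Real.cos θ, ρ t * Real.sin θ] : E3)

/-- area of a part of `SS` (§1.3) -/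
def S_SF : Prop := ∀ (δ : ℝ) (A dA : ℝ → ℝ) (x u : ℝ → ℝ → ℝ), Prof δ A dA x u →
  ∀ H : Set E3, MeasurableSet H →
  Measure.euclideanHausdorffMeasure 2 (SS δ A x ∩ H) =
    ((∫⁻ s in Ioo 0 1, ∫⁻ θ in Ioo (-π) π, ENNReal.ofReal
        (δ ^ 2 * (rho A x 1 s * √(drho δ dA x u 1 s ^ 2 + δ ^ 2 * u 1 s ^ 2))) *
          H.indicator 1 (!₂[x 1 s, δ * rho A x 1 s * Real.cos θ,
            δ * rho A x 1 s * Real.sin θ] : E3)) +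
      ∫⁻ r in Ioo 3 (Rh δ), ∫⁻ θ in Ioo (-π) π, ENNReal.ofReal (5 / 4 * δ ^ 2 * r) *
          H.indicator 1 (!₂[xr δ r, δ * r * Real.cos θ, δ * r * Real.sin θ] : E3)) +
    ((∫⁻ s in Ioo 0 1, ∫⁻ θ in Ioo (-π) π, ENNReal.ofReal
        (δ ^ 2 * (rho A x (-1) s * √(drho δ dA x u (-1) s ^ 2 + δ ^ 2 * u (-1) s ^ 2))) *
          H.indicator 1 (!₂[-x (-1) s, δ * rho A x (-1) s * Real.cos θ,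
            δ * rho A x (-1) s * Real.sin θ] : E3)) +
      ∫⁻ r in Ioo 3 (Rh δ), ∫⁻ θ in Ioo (-π) π, ENNReal.ofReal (5 / 4 * δ ^ 2 * r) *
          H.indicator 1 (!₂[-xr δ r, δ * r * Real.cos θ, δ * r * Real.sin θ] : E3))

/-- §1.3 -/
def S_GS : Prop := ∀ (δ : ℝ) (A dA : ℝ → ℝ) (x u : ℝ → ℝ → ℝ), Prof δ A dA x u →
  0 < Measure.euclideanHausdorffMeasure 2 (SS δ A x) ∧
  Measure.euclideanHausdorffMeasure 2 (SS δ A x) < ⊤ ∧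
  ∀ t, 0 ≤ t → t ≤ 1 →
    Measure.euclideanHausdorffMeasure 2 (SS δ A x ∩ {P | P 1 ≤ δ * (t * P 0 - A t)}) =
    Measure.euclideanHausdorffMeasure 2 (SS δ A x) / 2

/-- the surface meets a plane that is not orthogonal to the axis, or the plane `x = 0`, in a null
set -/
def S_GN : Prop := ∀ (δ : ℝ) (A dA : ℝ → ℝ) (x u : ℝ → ℝ → ℝ), Prof δ A dA x u →
  ∀ (ν : E3) (τ : ℝ), ν ≠ 0 → (ν 1 = 0 → ν 2 = 0 → τ = 0) →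
  Measure.euclideanHausdorffMeasure 2 (SS δ A x ∩ {P | inner ℝ ν P = τ}) = 0

/-- §1.4, §1.5: every direction has a plane halving volume and area -/
def S_GD : Prop := ∀ (δ : ℝ) (A dA : ℝ → ℝ) (x u : ℝ → ℝ → ℝ), Prof δ A dA x u →
  ∀ ν : E3, ν ≠ 0 → ∃ τ : ℝ,
    volume (KK δ A x ∩ {P | inner ℝ ν P ≤ τ}) = volume (KK δ A x) / 2 ∧
    Measure.euclideanHausdorffMeasure 2 (SS δ A x ∩ {P | inner ℝ ν P ≤ τ}) =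
      Measure.euclideanHausdorffMeasure 2 (SS δ A x) / 2

/-- uniqueness of the halving plane of a given direction, for any convex body (§1.5) -/
def S_GU : Prop := ∀ (K : Set E3), IsCompact K → Convex ℝ K → (interior K).Nonempty →
  ∀ (ν : E3) (τ τ' : ℝ), ν ≠ 0 → volume (K ∩ {P | inner ℝ ν P ≤ τ}) = volume K / 2 →
    volume (K ∩ {P | inner ℝ ν P ≤ τ'}) = volume K / 2 → τ = τ'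

/-- §1.6 -/
def S_GC : Prop := ∀ (δ : ℝ) (A dA : ℝ → ℝ) (x u : ℝ → ℝ → ℝ), Prof δ A dA x u →
  ¬ ∃ c : E3, ∀ P : E3, P ∈ KK δ A x ↔ (2 : ℝ) • c - P ∈ KK δ A x

/-- the theorem -/
def S_Main : Prop := ∃ K : Set E3, IsCompact K ∧ Convex ℝ K ∧ (interior K).Nonempty ∧
  0 < Measure.euclideanHausdorffMeasure 2 (frontier K) ∧
  Measure.euclideanHausdorffMeasure 2 (frontier K) < ⊤ ∧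
  (∀ (ν : E3) (τ : ℝ), ν ≠ 0 → volume (K ∩ {P | inner ℝ ν P ≤ τ}) = volume K / 2 →
    Measure.euclideanHausdorffMeasure 2 (frontier K ∩ {P | inner ℝ ν P ≤ τ}) =
      Measure.euclideanHausdorffMeasure 2 (frontier K) / 2) ∧
  ¬ ∃ c : E3, ∀ P : E3, P ∈ K ↔ (2 : ℝ) • c - P ∈ K

end Pool.Agent.HV
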