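import Pool.Agent.HV.Stmts

/-!
# MP_678b51_gt, module HV_TC   (helper55)

The map `T` is continuous for pointwise convergence (§4.11).
-/

set_option autoImplicit false

open MeasureTheory Set Filter
open scoped Real Topology ENNReal

namespace Pool.Agent.HV

namespace TCaux

/-- the functions `Nf` converge if the arguments do -/
lemma Nf_tendsto (δ : ℝ) (Sn : ℕ → St) (S : St) (hc : ConvA δ Sn S) (e t : ℝ) (w : ℕ → ℝ)
    (w0 : ℝ) (hw : Tendsto w atTop (𝓝 w0)) (h0 : 0 ≤ t) (h1 : t ≤ 1) :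
    Tendsto (fun n => Nf δ (Sn n) e (w n) t) atTop (𝓝 (Nf δ S e w0 t)) := by
  have hx := hc.xx e t h0 h1
  have hd := hc.da t
  have hb := hc.ab t
  unfold Nf
  refine Tendsto.mul ?_ ?_
  · refine (Real.continuous_sqrt.tendsto _).comp ?_
    refine Tendsto.add ?_ ?_
    · refine Tendsto.pow ?_ 2
      exact (hx.add (hw.const_mul (t * δ ^ 2))).sub (hd.const_mul (e * δ ^ 3))
    · exact (hw.pow 2).const_mul (δ ^ 2)
  · refine (Real.continuous_sqrt.tendsto _).comp ?_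
    exact (hx.sub (hb.const_mul (e * δ ^ 3))).mul (hx.sub (hd.const_mul (e * δ ^ 3)))

/-- the functions `DD` converge if the arguments do -/
lemma DD_tendsto (δ : ℝ) (Sn : ℕ → St) (S : St) (hc : ConvA δ Sn S) (t : ℝ) (wp wm : ℕ → ℝ)
    (wp0 wm0 : ℝ) (hp : Tendsto wp atTop (𝓝 wp0)) (hm : Tendsto wm atTop (𝓝 wm0))
    (h0 : 0 ≤ t) (h1 : t ≤ 1) :
    Tendsto (fun n => DD δ (Sn n) (wp n) (wm n) t) atTop (𝓝 (DD δ S wp0 wm0 t)) := by
  unfold DD
  exact ((Nf_tendsto δ Sn S hc 1 t wp wp0 hp h0 h1).sub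
    (Nf_tendsto δ Sn S hc (-1) t wm wm0 hm h0 h1)).div_const (δ ^ 2)

lemma fL_ne (p t : ℝ) (hp : |p| ≤ 1 / 1000) (h1 : t ≤ 1 / 2) : 2 * fL p t ≠ 0 := by
  have hs : √(t / 2) ≤ 1 / 2 := by
    rw [Real.sqrt_le_left (by norm_num)]
    linarith
  have h := (abs_le.mp hp).1
  have h2 : 0 < fL p t := by
    unfold fL fL0 bb
    linarith
  exact (mul_pos two_pos h2).ne'

end TCaux

open TCaux in
/-- module `HV_TC` -/
theorem TC (_hA : S_FactsA) (_hB : S_FactsB) (hV : S_CVA) (hg : S_CVg) (hr : S_CVr) : S_TC := by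
  obtain ⟨d1, hd1, H1⟩ := hV
  obtain ⟨d2, hd2, H2⟩ := hg
  obtain ⟨d3, hd3, H3⟩ := hr
  refine ⟨min d1 (min d2 d3), lt_min hd1 (lt_min hd2 hd3), ?_⟩
  intro δ hδ hδ1 Sn S hSn hS hconv
  have hδa : δ ≤ d1 := hδ1.trans (min_le_left _ _)
  have hδb : δ ≤ d2 := hδ1.trans ((min_le_right _ _).trans (min_le_left _ _))
  have hδc : δ ≤ d3 := hδ1.trans ((min_le_right _ _).trans (min_le_right _ _))
  have hA := H1 δ hδ hδa Sn S hSn hS hconv
  obtain ⟨hgA, hq⟩ := H2 δ hδ hδb Sn S hSn hS hconv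
  have hR := H3 δ hδ hδc Sn S hSn hS hconv
  obtain ⟨hUL, hUR, _, hp⟩ := hconv
  have hh : ∀ t : ℝ, 0 ≤ t → Tendsto
      (fun n => if t < 1 then gA δ (Sn n) t - 12 * qq δ (Sn n) * t * (1 - t) else 0) atTop
      (𝓝 (if t < 1 then gA δ S t - 12 * qq δ S * t * (1 - t) else 0)) := by
    intro t h0
    split_ifs with h
    · exact (hgA t h0 h.le).sub (((hq.const_mul 12).mul_const t).mul_const (1 - t))
    · exact tendsto_const_nhds
  refine ⟨?_, ?_, ?_, ?_⟩
  · intro t h0 h1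
    have hf : Tendsto (fun n => fL (Sn n).p t) atTop (𝓝 (fL S.p t)) := by
      unfold fL
      exact hp.const_add _
    have hU := hUL t h0 h1
    have hD := DD_tendsto δ Sn S hA t _ _ _ _ (hU.add hf) (hU.sub hf) h0 (by linarith)
    exact hU.sub ((hD.sub ((hR t h0 (by linarith)).const_mul (2 / π))).div (hf.const_mul 2)
      (fL_ne S.p t hS.pb h1))
  · intro t h0 h1
    have hU := hUR t h0 h1
    have hD := DD_tendsto δ Sn S hA t _ _ _ _ (hU.sub_const bb) (hU.add_const bb)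
      (by linarith) h1
    exact hU.sub ((hD.sub ((hR t (by linarith) h1).const_mul (2 / π))).div_const (2 * (-bb)))
  · intro t
    show Tendsto (fun n => oddext (fun t => if t < 1 then gA δ (Sn n) t -
      12 * qq δ (Sn n) * t * (1 - t) else 0) t) atTop (𝓝 (oddext (fun t => if t < 1 then
      gA δ S t - 12 * qq δ S * t * (1 - t) else 0) t))
    unfold oddext
    split_ifs with h
    · exact hh t h
    · exact (hh (-t) (by linarith)).neg
  · exact hp.sub (hq.const_mul (64 / π))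

end Pool.Agent.HV
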